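import Pool.Agent.H678.Inv.X

/-!
# Elements of order two outside of the locally finite `2`-radical, chains
-/

set_option autoImplicit false

open scoped commutatorElement

namespace Pool.Agent.H678.Inv

open Pool.Agent.W5h59.Bu (LFn LF2 rad rad_lf rad_quot le_rad lf_of_comm)

universe u

variable {G : Type u} [Group G]

/-- the conjugacy class -/
def cl (a : G) : Set G := {x | ∃ g, x = cj a g}

theorem cl.self (a : G) : a ∈ cl a := ⟨1, (cj_one a).symm⟩

/-- `(a a ^ g) ^ 2` -/
def q (a g : G) : G := k a (cj a g)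

theorem q_cj (a g h : G) : q (cj a h) g = cj (q a (h * g * h⁻¹)) h := by
  unfold q k cj; group

/-- the conditions on `a` -/
structure Co (a : G) (S : Set G) : Prop where
  two : a * a = 1
  four : ∀ g ∈ S, q a g * q a g = 1
  co : ∀ g ∈ S, ∀ h ∈ S, k (q a g) (q a h) = 1

theorem Co.cj {a : G} {S : Set G} (h : Co a S) {x : G} (hS : ∀ g ∈ S, x * g * x⁻¹ ∈ S) :
    Co (Inv.cj a x) S where
  two := cj_sq h.two x
  four := by
    intro g hg
    rw [q_cj, ← cj_mul, h.four _ (hS g hg), one_cj]
  co := by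
    intro g hg g' hg'
    rw [q_cj, q_cj, ← cj_k, h.co _ (hS g hg) _ (hS g' hg'), one_cj]

theorem Co.th {a : G} (h : Co a Set.univ) : Th (cl a) := by
  have key : ∀ x y z : G, Co x Set.univ → Commute (Inv.cj x (Inv.cj x y)) (Inv.cj x (Inv.cj x z)) := by
    intro x y z hx
    have e : ∀ w, Inv.cj x (Inv.cj x w) = x * q x w := by
      intro w
      unfold q
      rw [k_eq (cj_sq hx.two w), cc hx.two]
    have c : ∀ w, Commute x (q x w) := by
      intro w
      exact (Inv.kl hx.two (cj_sq hx.two w) (hx.four w trivial)).symm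
    have cq : Commute (q x y) (q x z) :=
      co_one (hx.four y trivial) (hx.four z trivial) (hx.co y trivial z trivial)
    rw [e, e]
    exact ((Commute.refl x).mul_right (c z)).mul_left ((c y).symm.mul_right cq)
  refine ⟨?_, ?_, ?_⟩
  · rintro _ ⟨g, rfl⟩
    exact cj_sq h.two g
  · rintro _ ⟨g, rfl⟩ g'
    exact ⟨g * g', cj_cj a g g'⟩
  · rintro _ _ _ ⟨g, rfl⟩ ⟨g', rfl⟩ ⟨g'', rfl⟩
    have h1 := key (Inv.cj a g) (g⁻¹ * g') (g⁻¹ * g'') (h.cj (fun _ _ => trivial))
    have e : ∀ w, Inv.cj (Inv.cj a g) (g⁻¹ * w) = Inv.cj a w := by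
      intro w
      rw [cj_cj, mul_inv_cancel_left]
    rw [e, e] at h1
    exact h1

theorem Co.mr {a : G} (h : Co a Set.univ) : a ∈ rad G := h.th.rad (cl.self a)

/-- it suffices to consider the elements of the normal closure -/
theorem Co.mr' {a : G} (h : Co a (Subgroup.normalClosure {a})) : a ∈ rad G := by
  set N := Subgroup.normalClosure {a} with hN
  have haN : a ∈ N := Subgroup.subset_normalClosure rfl
  have hcN : ∀ x ∈ cl a, x ∈ N := by
    rintro _ ⟨g, rfl⟩
    have := Subgroup.Normal.conj_mem (inferInstance : N.Normal) a haN g⁻¹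
    simpa [Inv.cj] using this
  have h1 : ∀ x : N, (x : G) ∈ cl a → x ∈ Pool.Agent.W5h59.Bu.rad N := by
    rintro ⟨x, hx⟩ ⟨g, hg⟩
    have hg' : x = Inv.cj a g := hg
    have h2 : Co x (N : Set G) := by
      rw [hg']
      exact h.cj (fun y hy => Subgroup.Normal.conj_mem (inferInstance : N.Normal) y hy g)
    apply Co.mr
    refine ⟨Subtype.ext h2.two, ?_, ?_⟩
    · rintro ⟨y, hy⟩ -
      exact Subtype.ext (h2.four y hy)
    · rintro ⟨y, hy⟩ - ⟨z, hz⟩ -
      exact Subtype.ext (h2.co y hy z hz)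
  have hM : (Subgroup.closure (cl a)).Normal := by
    constructor
    intro n hn g
    induction hn using Subgroup.closure_induction with
    | mem x hx =>
      apply Subgroup.subset_closure
      obtain ⟨h, rfl⟩ := hx
      exact ⟨h * g⁻¹, by unfold Inv.cj; group⟩
    | one => rw [mul_one, mul_inv_cancel]; exact one_mem _
    | mul x y _ _ h1 h2 =>
      rw [show g * (x * y) * g⁻¹ = (g * x * g⁻¹) * (g * y * g⁻¹) by group]
      exact mul_mem h1 h2
    | inv x _ h1 =>
      rw [show g * x⁻¹ * g⁻¹ = (g * x * g⁻¹)⁻¹ by group]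
      exact inv_mem h1
  have hle : Subgroup.closure (cl a) ≤ (Pool.Agent.W5h59.Bu.rad N).map N.subtype := by
    rw [Subgroup.closure_le]
    intro x hx
    exact ⟨⟨x, hcN x hx⟩, h1 ⟨x, hcN x hx⟩ hx, rfl⟩
  have hL : LF2 ((Pool.Agent.W5h59.Bu.rad N).map N.subtype) :=
    (rad_lf N).image (N.subtype.subgroupMap _) (N.subtype.subgroupMap_surjective _)
  exact le_rad hM (LF2.mono hle hL) (Subgroup.subset_closure (cl.self a))

/-- the same modulo the radical -/
theorem rad_step {a : G} (h2 : a * a ∈ rad G)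
    (h4 : ∀ g ∈ Subgroup.normalClosure {a}, q a g * q a g ∈ rad G)
    (h : ∀ g ∈ Subgroup.normalClosure {a}, ∀ g' ∈ Subgroup.normalClosure {a},
      k (q a g) (q a g') ∈ rad G) : a ∈ rad G := by
  have hs := QuotientGroup.mk'_surjective (rad G)
  have e1 : ∀ x : G, x ∈ rad G → QuotientGroup.mk' (rad G) x = 1 := by
    intro x hx
    rw [QuotientGroup.mk'_apply, QuotientGroup.eq_one_iff]
    exact hx
  have eq : ∀ g : G, q (QuotientGroup.mk' (rad G) a) (QuotientGroup.mk' (rad G) g) =
      QuotientGroup.mk' (rad G) (q a g) := by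
    intro g
    unfold q
    rw [map_k, map_cj]
  have e0 : Subgroup.normalClosure {QuotientGroup.mk' (rad G) a} =
      (Subgroup.normalClosure {a}).map (QuotientGroup.mk' (rad G)) := by
    rw [Subgroup.map_normalClosure _ _ hs, Set.image_singleton]
  have h1 : QuotientGroup.mk' (rad G) a ∈ rad (G ⧸ rad G) := by
    apply Co.mr'
    refine ⟨?_, ?_, ?_⟩
    · rw [← map_mul]
      exact e1 _ h2
    · intro g hg
      rw [SetLike.mem_coe, e0] at hg
      obtain ⟨g, hg, rfl⟩ := hg
      rw [eq, ← map_mul]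
      exact e1 _ (h4 g hg)
    · intro g hg g' hg'
      rw [SetLike.mem_coe, e0] at hg hg'
      obtain ⟨g, hg, rfl⟩ := hg
      obtain ⟨g', hg', rfl⟩ := hg'
      rw [eq, eq, ← map_k]
      exact e1 _ (h g hg g' hg')
  rw [rad_quot G, Subgroup.mem_bot, QuotientGroup.mk'_apply, QuotientGroup.eq_one_iff] at h1
  exact h1

/-- one step of a chain -/
def Sp (a b : G) : Prop := b = a ^ 2 ∨
  (∃ g ∈ Subgroup.normalClosure {a}, b = (a * (g⁻¹ * a * g)) ^ 4) ∨
  ∃ g ∈ Subgroup.normalClosure {a}, ∃ h ∈ Subgroup.normalClosure {a},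
    b = ((a * (g⁻¹ * a * g)) ^ 2 * (a * (h⁻¹ * a * h)) ^ 2) ^ 2

/-- an infinite chain of nontrivial elements -/
def Ch (f : ℕ → G) : Prop := ∀ n, f n ≠ 1 ∧ Sp (f n) (f (n + 1))

theorem q_eq (a g : G) : (a * (g⁻¹ * a * g)) ^ 2 = q a g := sq _

theorem q4_eq (a g : G) : (a * (g⁻¹ * a * g)) ^ 4 = q a g * q a g := by
  rw [show (4 : ℕ) = 2 * 2 from rfl, pow_mul, q_eq, sq]

/-- outside of the radical there is always an infinite chain -/
theorem exists_chain {a : G} (ha : a ∉ rad G) : ∃ f : ℕ → G, f 0 = a ∧ Ch f := by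
  have step : ∀ b : {b : G // b ∉ rad G}, ∃ c : {c : G // c ∉ rad G}, Sp b.1 c.1 := by
    rintro ⟨b, hb⟩
    by_contra hcon
    push Not at hcon
    apply hb
    apply rad_step
    · by_contra h
      exact hcon ⟨b * b, h⟩ (Or.inl (sq b).symm)
    · intro g hg
      by_contra h
      exact hcon ⟨_, h⟩ (Or.inr (Or.inl ⟨g, hg, (q4_eq b g).symm⟩))
    · intro g hg g' hg'
      by_contra h
      refine hcon ⟨_, h⟩ (Or.inr (Or.inr ⟨g, hg, g', hg', ?_⟩))
      show k (q b g) (q b g') = _
      rw [q_eq, q_eq, sq]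
      rfl
  choose nx hnx using step
  let F : ℕ → {b : G // b ∉ rad G} := fun n => nx^[n] ⟨a, ha⟩
  refine ⟨fun n => (F n).1, rfl, ?_⟩
  intro n
  refine ⟨?_, ?_⟩
  · intro h
    have h' : (F n).1 = 1 := h
    apply (F n).2
    rw [h']
    exact one_mem _
  · have e : F (n + 1) = nx (F n) := Function.iterate_succ_apply' nx n ⟨a, ha⟩
    show Sp (F n).1 (F (n + 1)).1
    rw [e]
    exact hnx _

/-- there are no infinite chains in nilpotent groups of exponent a power of two -/
theorem no_chain {r c : ℕ} (h : ∀ x : G, x ^ 2 ^ r = 1)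
    (hc : (⊤ : Subgroup G).lowerCentralSeries c = ⊥) (f : ℕ → G) : ¬ Ch f := by
  have key : ∀ i, i ≤ c → ∀ j, ∀ f : ℕ → G, f 0 ∈ (⊤ : Subgroup G).lowerCentralSeries (c - i) →
      (f 0) ^ 2 ^ j ∈ (⊤ : Subgroup G).lowerCentralSeries (c - i + 1) → ¬ Ch f := by
    intro i
    induction i with
    | zero =>
      intro _ j f h0 _ hf
      rw [Nat.sub_zero, hc, Subgroup.mem_bot] at h0
      exact (hf 0).1 h0
    | succ i ih =>
      intro hi j
      have hci : c - (i + 1) + 1 = c - i := by omega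
      induction j with
      | zero =>
        intro f _ h1 hf
        rw [pow_zero, pow_one, hci] at h1
        refine ih (by omega) r f h1 ?_ hf
        rw [h]
        exact one_mem _
      | succ j ihj =>
        intro f h0 h1 hf
        have hf' : Ch (fun n => f (n + 1)) := fun n => hf (n + 1)
        set M := (⊤ : Subgroup G).lowerCentralSeries (c - (i + 1) + 1) with hM
        set L := (⊤ : Subgroup G).lowerCentralSeries (c - (i + 1)) with hL
        have hLn : L.Normal := inferInstance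
        have hcen : ∀ g : G, QuotientGroup.mk' M (g⁻¹ * f 0 * g) = QuotientGroup.mk' M (f 0) := by
          intro g
          rw [QuotientGroup.mk'_apply, QuotientGroup.mk'_apply, QuotientGroup.eq]
          have e : (g⁻¹ * f 0 * g)⁻¹ * f 0 = ⁅g⁻¹, (f 0)⁻¹⁆ := by
            rw [commutatorElement_def]; group
          rw [e, ← commutatorElement_inv]
          apply inv_mem
          exact Subgroup.commutator_mem_commutator (inv_mem h0) (Subgroup.mem_top _)
        have hconj : ∀ g : G, g⁻¹ * f 0 * g ∈ L := by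
          intro g
          have := hLn.conj_mem (f 0) h0 g⁻¹
          rwa [inv_inv] at this
        have hsq : ∀ g : G, QuotientGroup.mk' M (f 0 * (g⁻¹ * f 0 * g)) =
            QuotientGroup.mk' M (f 0) ^ 2 := by
          intro g
          rw [map_mul, hcen g, sq]
        have h1' : QuotientGroup.mk' M (f 0) ^ 2 ^ (j + 1) = 1 := by
          rw [← map_pow, QuotientGroup.mk'_apply, QuotientGroup.eq_one_iff]
          exact h1
        have fin : ∀ e : ℕ, f 1 ∈ L → QuotientGroup.mk' M (f 1) = QuotientGroup.mk' M (f 0) ^ (2 * e) →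
            False := by
          intro e hfL he
          refine ihj (fun n => f (n + 1)) hfL ?_ hf'
          show (f 1) ^ 2 ^ j ∈ M
          rw [← QuotientGroup.eq_one_iff, ← QuotientGroup.mk'_apply, map_pow, he, ← pow_mul,
            show 2 * e * 2 ^ j = 2 ^ (j + 1) * e by ring, pow_mul, h1', one_pow]
        rcases (hf 0).2 with h2 | ⟨g, -, h2⟩ | ⟨g, -, g', -, h2⟩
        · have h2' : f 1 = f 0 ^ 2 := h2
          refine fin 1 ?_ ?_
          · rw [h2']; exact pow_mem h0 2
          · rw [h2', map_pow]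
        · have h2' : f 1 = (f 0 * (g⁻¹ * f 0 * g)) ^ 4 := h2
          refine fin 4 ?_ ?_
          · rw [h2']; exact pow_mem (mul_mem h0 (hconj g)) 4
          · rw [h2', map_pow, hsq g, ← pow_mul]
        · have h2' : f 1 = ((f 0 * (g⁻¹ * f 0 * g)) ^ 2 * (f 0 * (g'⁻¹ * f 0 * g')) ^ 2) ^ 2 := h2
          refine fin 8 ?_ ?_
          · rw [h2']
            exact pow_mem (mul_mem (pow_mem (mul_mem h0 (hconj g)) 2)
              (pow_mem (mul_mem h0 (hconj g')) 2)) 2
          · rw [h2', map_pow, map_mul, map_pow, map_pow, hsq g, hsq g', ← pow_mul, ← pow_add,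
              ← pow_mul]
  exact key c le_rfl r f (by rw [Nat.sub_self]; exact Subgroup.mem_top _) (by
    rw [h]; exact one_mem _)

/-- if all `m`-th powers lie in the radical and `m` is good, then the group is locally finite -/
theorem lfn_of_rad {m : ℕ} (h : ∀ x : G, x ^ m ∈ rad G)
    (hm : ∀ (K : Type u) [Group K], (∀ x : K, x ^ m = 1) → LFn K) : LFn G := by
  refine LFn.ext (rad G) (rad_lf G).1 (hm _ ?_)
  intro x
  obtain ⟨x, rfl⟩ := QuotientGroup.mk'_surjective _ x
  rw [← map_pow, QuotientGroup.mk'_apply, QuotientGroup.eq_one_iff]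
  exact h x

/-- a locally finite `2`-group: there is no infinite chain outside of the radical -/
theorem lf2_of_no_chain (h : ∀ f : ℕ → G, ¬ Ch f) : LF2 G := by
  have h1 : rad G = ⊤ := by
    rw [eq_top_iff]
    intro a _
    by_contra ha
    obtain ⟨f, -, hf⟩ := exists_chain ha
    exact h f hf
  have h2 := rad_lf G
  rw [h1] at h2
  exact h2.image (Subgroup.topEquiv : (⊤ : Subgroup G) ≃* G).toMonoidHom
    (Subgroup.topEquiv : (⊤ : Subgroup G) ≃* G).surjective

end Pool.Agent.H678.Inv
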