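import Mathlib

/-!
# Systems of involutions whose products have order dividing four

`k x y = (x y) ^ 2` is the commutator of the involutions `x`, `y`; `cj x g = g⁻¹ x g`.
-/

set_option autoImplicit false

namespace Pool.Agent.H678.Inv

universe u v

variable {G : Type u} [Group G]

/-- the square of the product; for involutions, this is the commutator -/
def k (x y : G) : G := x * y * (x * y)

/-- conjugation -/
def cj (x g : G) : G := g⁻¹ * x * g

/-- the condition on the group -/
def E2 (G : Type u) [Group G] : Prop := ∀ x y : G, x * x = 1 → y * y = 1 → k x y * k x y = 1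

theorem cc {x : G} (hx : x * x = 1) (t : G) : x * (x * t) = t := by
  rw [← mul_assoc, hx, one_mul]

theorem iinv {x : G} (hx : x * x = 1) : x⁻¹ = x := inv_eq_of_mul_eq_one_left hx

theorem cj_one (x : G) : cj x 1 = x := by simp [cj]

theorem one_cj (g : G) : cj 1 g = 1 := by simp [cj]

theorem cj_cj (x g h : G) : cj (cj x g) h = cj x (g * h) := by
  simp only [cj, mul_inv_rev, mul_assoc]

theorem cj_mul (x y g : G) : cj (x * y) g = cj x g * cj y g := by
  simp only [cj]; group

theorem cj_k (x y g : G) : cj (k x y) g = k (cj x g) (cj y g) := by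
  simp only [cj, k]; group

theorem cj_sq {x : G} (hx : x * x = 1) (g : G) : cj x g * cj x g = 1 := by
  rw [← cj_mul, hx, one_cj]

theorem cj_of_comm {x g : G} (h : Commute x g) : cj x g = x := by
  rw [cj, mul_assoc, h.eq, inv_mul_cancel_left]

theorem comm_of_cj {x g : G} (h : cj x g = x) : Commute x g := by
  show x * g = g * x
  conv_rhs => rw [← h]
  simp only [cj]; group

theorem comm_cj {x y : G} (h : Commute x y) (g : G) : Commute (cj x g) (cj y g) := by
  show cj x g * cj y g = cj y g * cj x g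
  rw [← cj_mul, h.eq, cj_mul]

theorem cj_inj {x y g : G} (h : cj x g = cj y g) : x = y := by
  have := congrArg (fun z => cj z g⁻¹) h
  simpa only [cj_cj, mul_inv_cancel, cj_one] using this

theorem k_eq {x y : G} (hy : y * y = 1) : k x y = x * cj x y := by
  simp only [k, cj, iinv hy, mul_assoc]

theorem k_one {x y : G} (hx : x * x = 1) (hy : y * y = 1) (h : Commute x y) : k x y = 1 := by
  unfold k
  rw [show x * y * (x * y) = x * (y * x) * y by simp only [mul_assoc], ← h.eq]
  simp only [mul_assoc, cc hx, hy]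

theorem co_one {x y : G} (hx : x * x = 1) (hy : y * y = 1) (h : k x y = 1) : Commute x y := by
  have h1 : x * y = (x * y)⁻¹ := eq_inv_of_mul_eq_one_left h
  rw [mul_inv_rev, iinv hx, iinv hy] at h1
  exact h1

theorem co_k {t x y : G} (h1 : Commute t x) (h2 : Commute t y) : Commute t (k x y) := by
  unfold k
  exact (h1.mul_right h2).mul_right (h1.mul_right h2)

/-- products of commuting involutions with involutions -/
theorem k_mul_left {x y z : G} (hx : x * x = 1) (hy : y * y = 1) (hz : z * z = 1)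
    (h : Commute x y) : k (x * y) z = y * k x z * y * k y z := by
  simp only [k, mul_assoc, cc hy, cc hz]
  rw [← mul_assoc x y, h.eq, mul_assoc y x]

/-- cutting -/
theorem k_cut {a x r : G} (hx : x * x = 1) (h1 : Commute a x) (h2 : Commute x r) :
    k a (x * r) = k a r := by
  unfold k
  have e1 : a * (x * r) = x * (a * r) := by
    rw [← mul_assoc, h1.eq, mul_assoc]
  have h3 : Commute x (a * r) := h1.symm.mul_right h2
  rw [e1, show x * (a * r) * (x * (a * r)) = x * ((a * r) * x) * (a * r) by simp only [mul_assoc],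
    ← h3.eq]
  simp only [mul_assoc, cc hx]

section basic

variable {x y z : G}

theorem k_swap (hx : x * x = 1) (hy : y * y = 1) (i : k x y * k x y = 1) : k x y = k y x := by
  have h1 : k x y = (k x y)⁻¹ := eq_inv_of_mul_eq_one_left i
  rw [h1]
  simp only [k, mul_inv_rev, iinv hx, iinv hy]

theorem kl (hx : x * x = 1) (hy : y * y = 1) (i : k x y * k x y = 1) : Commute (k x y) x := by
  show k x y * x = x * k x y
  rw [k_swap hx hy i]
  conv_rhs => rw [← k_swap hx hy i]
  simp only [k, mul_assoc, cc hx, hx, mul_one]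

theorem kr (hx : x * x = 1) (hy : y * y = 1) (i : k x y * k x y = 1) : Commute (k x y) y := by
  have i' : k y x * k y x = 1 := by rw [← k_swap hx hy i]; exact i
  rw [k_swap hx hy i]
  exact kl hy hx i'

end basic

section P

variable (H : E2 G) {x y z : G} (hx : x * x = 1) (hy : y * y = 1) (hz : z * z = 1)
  (h : Commute x y)
include H hx hy hz h

theorem P_aux : y * k x z * y * k y z = k x z * (x * k y z * x) := by
  have hxy : x * y * (x * y) = 1 := k_one hx hy h
  have h1 := k_mul_left hx hy hz h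
  have h3 : Commute (k (x * y) z) (x * y) := kl hxy hz (H _ _ hxy hz)
  have h4 : x * y * k (x * y) z * (x * y) = k (x * y) z := by
    rw [← h3.eq, mul_assoc, hxy, mul_one]
  have h5 : x * y * (y * k x z * y * k y z) * (x * y) = k x z * (x * k y z * x) := by
    have e1 : y * k y z * y = k y z := by
      rw [← (kl hy hz (H _ _ hy hz)).eq, mul_assoc, hy, mul_one]
    have e2 : x * k x z = k x z * x := (kl hx hz (H _ _ hx hz)).eq.symm
    calc x * y * (y * k x z * y * k y z) * (x * y)
        = x * (k x z * (y * k y z * y)) * x := by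
          simp only [mul_assoc, cc hy]; rw [h.eq]
      _ = (x * k x z) * (k y z * x) := by rw [e1]; simp only [mul_assoc]
      _ = _ := by rw [e2]; simp only [mul_assoc]
  rw [h1, h5] at h4
  exact h4.symm

theorem P1 : k (k x z) y = k (k y z) x := by
  have h1 := P_aux H hx hy hz h
  have ia := H _ _ hx hz
  have ib := H _ _ hy hz
  have h2 : k x z * (y * k x z * y) = x * k y z * x * k y z := by
    have : k x z * (y * k x z * y * k y z) * k y z = k x z * (k x z * (x * k y z * x)) * k y z := by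
      rw [h1]
    simp only [mul_assoc, cc ia, ib, mul_one] at this ⊢
    exact this
  rw [k_swap ib hx (H _ _ ib hx)]
  unfold k at h2 ⊢
  simp only [mul_assoc] at h2 ⊢
  exact h2

theorem P3 : Commute (k (k x z) y) z := by
  have hxy : x * y * (x * y) = 1 := k_one hx hy h
  have ia := H _ _ hx hz
  have ib := H _ _ hy hz
  have h1 := k_mul_left hx hy hz h
  have h3 : Commute (k (x * y) z) z := kr hxy hz (H _ _ hxy hz)
  have h4 : y * k x z * y = k (x * y) z * k y z := by
    rw [h1, mul_assoc _ (k y z), ib, mul_one]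
  have h5 : k (k x z) y = k x z * (y * k x z * y) := by simp only [k, mul_assoc]
  rw [h5, h4]
  exact (kr hx hz (H _ _ hx hz)).mul_left (h3.mul_left (kr hy hz (H _ _ hy hz)))

theorem P2 : Commute (k x z) (k y z) := by
  have hxy : x * y * (x * y) = 1 := k_one hx hy h
  have ia := H _ _ hx hz
  have ib := H _ _ hy hz
  have h1 := k_mul_left hx hy hz h
  have i1 := H _ _ hxy hz
  have i2 : y * k x z * y * (y * k x z * y) = 1 := by
    simp only [mul_assoc, cc hy, cc ia, hy]
  rw [h1] at i1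
  have h2 : Commute (y * k x z * y) (k y z) := co_one i2 ib i1
  have h3 : k x z = k (k x z) y * (y * k x z * y) := by
    have h5 : k (k x z) y = k x z * (y * k x z * y) := by simp only [k, mul_assoc]
    rw [h5, mul_assoc, i2, mul_one]
  rw [h3]
  refine Commute.mul_left ?_ h2
  rw [P1 H hx hy hz h]
  exact kl ib hx (H _ _ ib hx)

end P

/-- the systems -/
structure Sy (D : Set G) : Prop where
  inv : ∀ {x}, x ∈ D → x * x = 1
  cj : ∀ {x}, x ∈ D → ∀ g, cj x g ∈ D
  kc : ∀ {x y}, x ∈ D → y ∈ D → k x y ∈ D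
  i2 : ∀ {x y z}, x ∈ D → y ∈ D → z ∈ D → Commute (k x y) (k (k x z) y)
  f4 : ∀ {x y z}, x ∈ D → y ∈ D → z ∈ D → k (k (k x y) z) x = k (k x y) (k x z)
  a1 : ∀ {x y z}, x ∈ D → y ∈ D → z ∈ D → Commute (k (k x y) (k x z)) z
  h4 : ∀ {a u v}, a ∈ D → u ∈ D → v ∈ D → k (k a (k u v)) u = k (k u a) (k u v)

theorem Sy.swap {D : Set G} (hD : Sy D) {x y : G} (hx : x ∈ D) (hy : y ∈ D) : k x y = k y x :=
  k_swap (hD.inv hx) (hD.inv hy) (hD.inv (hD.kc hx hy))

theorem Sy.kl {D : Set G} (hD : Sy D) {x y : G} (hx : x ∈ D) (hy : y ∈ D) : Commute (k x y) x :=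
  Inv.kl (hD.inv hx) (hD.inv hy) (hD.inv (hD.kc hx hy))

theorem Sy.kr {D : Set G} (hD : Sy D) {x y : G} (hx : x ∈ D) (hy : y ∈ D) : Commute (k x y) y :=
  Inv.kr (hD.inv hx) (hD.inv hy) (hD.inv (hD.kc hx hy))

theorem Sy.one {D : Set G} (hD : Sy D) {x y : G} (hx : x ∈ D) (hy : y ∈ D) (h : Commute x y) :
    k x y = 1 := k_one (hD.inv hx) (hD.inv hy) h

theorem Sy.co {D : Set G} (hD : Sy D) {x y : G} (hx : x ∈ D) (hy : y ∈ D) (h : k x y = 1) :
    Commute x y := co_one (hD.inv hx) (hD.inv hy) h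

theorem Sy.cje {D : Set G} (hD : Sy D) {x y : G} (hx : x ∈ D) (hy : y ∈ D) :
    Inv.cj x y = x * k x y := by
  rw [k_eq (hD.inv hy), cc (hD.inv hx)]

theorem Sy.a1' {D : Set G} (hD : Sy D) {x y z : G} (hx : x ∈ D) (hy : y ∈ D) (hz : z ∈ D) :
    Commute (k (k x y) (k x z)) y := by
  rw [hD.swap (hD.kc hx hy) (hD.kc hx hz)]
  exact hD.a1 hx hz hy

/-- all involutions -/
theorem Sy.all (H : E2 G) : Sy {x : G | x * x = 1} where
  inv := fun h => h
  cj := fun h g => cj_sq h g
  kc := fun hx hy => H _ _ hx hy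
  i2 := by
    intro x y z hx hy hz
    have hxz : k x z * k x z = 1 := H _ _ hx hz
    exact P2 H hx hxz hy (Inv.kl hx hz hxz).symm
  f4 := by
    intro x y z hx hy hz
    have hxy : k x y * k x y = 1 := H _ _ hx hy
    have hxz : k x z * k x z = 1 := H _ _ hx hz
    rw [P1 H hxy hx hz (Inv.kl hx hy hxy)]
    exact k_swap hxz hxy (H _ _ hxz hxy)
  a1 := by
    intro x y z hx hy hz
    have hxy : k x y * k x y = 1 := H _ _ hx hy
    have hxz : k x z * k x z = 1 := H _ _ hx hz
    have h1 := P3 H hx hxy hz (Inv.kl hx hy hxy).symm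
    rw [k_swap hxy hxz (H _ _ hxy hxz)]
    exact h1
  h4 := by
    intro a u v ha hu hv
    have huv : k u v * k u v = 1 := H _ _ hu hv
    have h1 := P1 H huv hu ha (Inv.kl hu hv huv)
    rw [k_swap ha huv (H _ _ ha huv), h1]

/-- subsystems -/
theorem Sy.mono {D D' : Set G} (hD : Sy D) (h : D' ⊆ D) (h1 : ∀ {x}, x ∈ D' → ∀ g, Inv.cj x g ∈ D')
    (h2 : ∀ {x y}, x ∈ D' → y ∈ D' → k x y ∈ D') : Sy D' where
  inv := fun hx => hD.inv (h hx)
  cj := h1
  kc := h2
  i2 := fun hx hy hz => hD.i2 (h hx) (h hy) (h hz)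
  f4 := fun hx hy hz => hD.f4 (h hx) (h hy) (h hz)
  a1 := fun hx hy hz => hD.a1 (h hx) (h hy) (h hz)
  h4 := fun hx hy hz => hD.h4 (h hx) (h hy) (h hz)

theorem map_k {K : Type v} [Group K] (f : G →* K) (x y : G) : f (k x y) = k (f x) (f y) := by
  simp only [k, map_mul]

theorem map_cj {K : Type v} [Group K] (f : G →* K) (x y : G) : f (cj x y) = cj (f x) (f y) := by
  simp only [cj, map_mul, map_inv]

theorem co_map {K : Type v} [Group K] (f : G →* K) {x y : G} (h : Commute x y) :
    Commute (f x) (f y) := h.map f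

/-- images -/
theorem Sy.map {K : Type v} [Group K] (f : G →* K) (hf : Function.Surjective f) {D : Set G}
    (hD : Sy D) : Sy (f '' D) where
  inv := by
    rintro _ ⟨x, hx, rfl⟩
    rw [← map_mul, hD.inv hx, map_one]
  cj := by
    rintro _ ⟨x, hx, rfl⟩ g
    obtain ⟨g, rfl⟩ := hf g
    exact ⟨_, hD.cj hx g, map_cj f x g⟩
  kc := by
    rintro _ _ ⟨x, hx, rfl⟩ ⟨y, hy, rfl⟩
    exact ⟨_, hD.kc hx hy, map_k f x y⟩
  i2 := by
    rintro _ _ _ ⟨x, hx, rfl⟩ ⟨y, hy, rfl⟩ ⟨z, hz, rfl⟩
    have := co_map f (hD.i2 hx hy hz)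
    simpa only [map_k] using this
  f4 := by
    rintro _ _ _ ⟨x, hx, rfl⟩ ⟨y, hy, rfl⟩ ⟨z, hz, rfl⟩
    have := congrArg f (hD.f4 hx hy hz)
    simpa only [map_k] using this
  a1 := by
    rintro _ _ _ ⟨x, hx, rfl⟩ ⟨y, hy, rfl⟩ ⟨z, hz, rfl⟩
    have := co_map f (hD.a1 hx hy hz)
    simpa only [map_k] using this
  h4 := by
    rintro _ _ _ ⟨x, hx, rfl⟩ ⟨y, hy, rfl⟩ ⟨z, hz, rfl⟩
    have := congrArg f (hD.h4 hx hy hz)
    simpa only [map_k] using this

/-- **commutators with a fixed involution**: `[[a, b], [a, c]]` commutes with `[[a, b], [a, d]]` -/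
theorem Sy.lem1 {D : Set G} (hD : Sy D) {a b c d : G} (ha : a ∈ D) (hb : b ∈ D) (hc : c ∈ D)
    (hd : d ∈ D) : Commute (k (k a b) (k a d)) (k (k a b) (k a c)) := by
  have hp := hD.kc ha hb
  have hq := hD.kc ha hc
  have hr := hD.kc ha hd
  have he : k (k a b) d ∈ D := hD.kc hp hd
  have hpd : Inv.cj (k a b) d ∈ D := hD.cj hp d
  -- γ
  have g1 : k (k a b) (k a d) = k a (k (k a b) d) := by
    rw [← hD.f4 ha hb hd, hD.swap he ha]
  have g2 : k a (k (k a b) d) = k a (Inv.cj (k a b) d) := by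
    rw [hD.cje hp hd]
    exact (k_cut (hD.inv hp) (hD.kl ha hb).symm (hD.kl hp hd).symm).symm
  have hg : k (k a b) (k a d) ∈ D := hD.kc hp hr
  -- δ commutes with p ^ d and with [p, d]
  have d1 : Commute (k (k a c) (k (k a b) (k a d))) (k (k a b) d) := by
    rw [g1]
    exact hD.a1 ha hc he
  have d2 : Commute (k (k a c) (k (k a b) (k a d))) (Inv.cj (k a b) d) := by
    rw [g1, g2]
    exact hD.a1 ha hc hpd
  have d3 : Commute (k (k a c) (k (k a b) (k a d))) (k a b) := by
    have e : k a b = Inv.cj (k a b) d * k (k a b) d := by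
      rw [hD.cje hp hd, mul_assoc, hD.inv he, mul_one]
    have d4 := d2.mul_right d1
    rw [← e] at d4
    exact d4
  have d5 : k (k (k (k a b) (k a d)) (k a c)) (k a b) = 1 := by
    rw [hD.swap hg hq]
    exact hD.one (hD.kc hq hg) hp d3
  rw [hD.f4 hp hr hq] at d5
  exact hD.co hg (hD.kc hp hq) d5

end Pool.Agent.H678.Inv
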