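import Pool.Agent.H678.Inv.N

/-!
# Normal sets `X` of involutions such that `x ^ y` and `x ^ z` commute for `x`, `y`, `z` in `X`

The property is inherited by `X ∪ [X, X]`.  Hence the closure of `X` under commutators is a sandwich
system, and `X` generates a locally finite `2`-group.
-/

set_option autoImplicit false

namespace Pool.Agent.H678.Inv

open Pool.Agent.W5h59.Bu (LFn LF2 rad rad_lf rad_quot le_rad lf_of_comm)

universe u v

variable {G : Type u} [Group G]

theorem cj_self (x : G) : cj x x = x := by simp [cj]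

theorem k_rel {x y : G} (hx : x * x = 1) (hy : y * y = 1) : x * y = k x y * (y * x) := by
  simp only [k, mul_assoc, cc hy, hx, mul_one]

theorem mul_sq {x y : G} (hx : x * x = 1) (hy : y * y = 1) (h : Commute x y) :
    x * y * (x * y) = 1 := k_one hx hy h

/-- normal sets of involutions with commuting conjugates `x ^ y`, `x ^ z` -/
structure Th (X : Set G) : Prop where
  inv : ∀ {x}, x ∈ X → x * x = 1
  cj : ∀ {x}, x ∈ X → ∀ g, cj x g ∈ X
  s : ∀ {x y z}, x ∈ X → y ∈ X → z ∈ X → Commute (Inv.cj x y) (Inv.cj x z)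

/-- `φ a g = [a, a ^ g]` -/
def phi (a g : G) : G := k a (cj a g)

/-- the expansion of `a ^ [u, v]` -/
theorem exp_gen {a u v : G} (aa : a * a = 1) (uu : u * u = 1) (vv : v * v = 1)
    (hc : Commute (k a u) (k u v)) :
    cj a (k u v) = a * cj a u * cj a (cj u v) := by
  have e1 : cj (k a u) (k u v) = k a u := cj_of_comm hc
  have e2 : k a u = a * cj a u := k_eq uu
  have e3 : u * k u v = cj u v := by rw [k_eq vv, cc uu]
  rw [e2, cj_mul, cj_cj a u, e3] at e1
  rw [← e1, mul_assoc, cj_sq aa, mul_one]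

section

variable {X : Set G} (hX : Th X)
include hX

theorem Th.c1 {x y : G} (hx : x ∈ X) (hy : y ∈ X) : Commute x (Inv.cj x y) := by
  have h := hX.s hx hx hy
  rwa [cj_self] at h

theorem Th.uv {a u v : G} (ha : a ∈ X) (hu : u ∈ X) (hv : v ∈ X) :
    Commute a (Inv.cj a (u * v)) := by
  have h := comm_cj (hX.s ha hv hu) v
  rw [cj_cj, cj_cj, hX.inv hv, cj_one] at h
  exact h

theorem Th.ke {x y : G} (hy : y ∈ X) : k x y = x * Inv.cj x y := k_eq (hX.inv hy)

theorem Th.i {x y : G} (hx : x ∈ X) (hy : y ∈ X) : k x y * k x y = 1 := by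
  rw [hX.ke hy]
  exact mul_sq (hX.inv hx) (cj_sq (hX.inv hx) y) (hX.c1 hx hy)

theorem Th.ks {x y : G} (hx : x ∈ X) (hy : y ∈ X) : k x y = k y x :=
  k_swap (hX.inv hx) (hX.inv hy) (hX.i hx hy)

theorem Th.kl {x y : G} (hx : x ∈ X) (hy : y ∈ X) : Commute (k x y) x :=
  Inv.kl (hX.inv hx) (hX.inv hy) (hX.i hx hy)

theorem Th.kr {x y : G} (hx : x ∈ X) (hy : y ∈ X) : Commute (k x y) y :=
  Inv.kr (hX.inv hx) (hX.inv hy) (hX.i hx hy)

theorem Th.cje {x y : G} (hx : x ∈ X) (hy : y ∈ X) : Inv.cj x y = x * k x y := by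
  rw [hX.ke hy, cc (hX.inv hx)]

theorem Th.c3 {a u v : G} (ha : a ∈ X) (hu : u ∈ X) (hv : v ∈ X) :
    Commute (k a u) (k u v) := by
  rw [hX.ks ha hu, hX.ke ha, hX.ke hv]
  exact ((Commute.refl u).mul_right (hX.c1 hu hv)).mul_left
    ((hX.c1 hu ha).symm.mul_right (hX.s hu ha hv))

/-- `a ^ [u, v] = a a ^ u a ^ (u ^ v)` -/
theorem Th.exp {a u v : G} (ha : a ∈ X) (hu : u ∈ X) (hv : v ∈ X) :
    Inv.cj a (k u v) = a * Inv.cj a u * Inv.cj a (Inv.cj u v) :=
  exp_gen (hX.inv ha) (hX.inv hu) (hX.inv hv) (hX.c3 ha hu hv)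

/-- `a ^ [u, v]` commutes with `a ^ w` -/
theorem Th.ew {a u v w : G} (ha : a ∈ X) (hu : u ∈ X) (hv : v ∈ X) (hw : w ∈ X) :
    Commute (Inv.cj a (k u v)) (Inv.cj a w) := by
  rw [hX.exp ha hu hv]
  exact ((hX.c1 ha hw).mul_left (hX.s ha hu hw)).mul_left (hX.s ha (hX.cj hu v) hw)

theorem Th.ea {a u v : G} (ha : a ∈ X) (hu : u ∈ X) (hv : v ∈ X) :
    Commute a (Inv.cj a (k u v)) := by
  have h := hX.ew ha hu hv ha
  rw [cj_self] at h
  exact h.symm

/-- `t = [a, [u, v]]` commutes with `u` -/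
theorem Th.tu {a u v : G} (ha : a ∈ X) (hu : u ∈ X) (hv : v ∈ X) :
    Commute (a * Inv.cj a (k u v)) u := by
  apply comm_of_cj
  have e1 : a * Inv.cj a (k u v) = Inv.cj a u * Inv.cj a (Inv.cj u v) := by
    rw [hX.exp ha hu hv, mul_assoc, cc (hX.inv ha)]
  have e2 : Inv.cj u v * u = k u v := by
    rw [hX.ke hv, (hX.c1 hu hv).eq]
  conv_lhs => rw [e1]
  rw [cj_mul, cj_cj a u u, hX.inv hu, cj_one, cj_cj a (Inv.cj u v) u, e2]

theorem Th.tv {a u v : G} (ha : a ∈ X) (hu : u ∈ X) (hv : v ∈ X) :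
    Commute (a * Inv.cj a (k u v)) v := by
  rw [hX.ks hu hv]
  exact hX.tu ha hv hu

theorem Th.tt {a u v : G} (ha : a ∈ X) (hu : u ∈ X) (hv : v ∈ X) :
    a * Inv.cj a (k u v) * (a * Inv.cj a (k u v)) = 1 :=
  mul_sq (hX.inv ha) (cj_sq (hX.inv ha) _) (hX.ea ha hu hv)

/-- **the swap lemma** -/
theorem Th.swap {a u v w : G} (ha : a ∈ X) (hu : u ∈ X) (hv : v ∈ X) (hw : w ∈ X) :
    phi a (u * v * w) = phi a (v * u * w) := by
  set t := a * Inv.cj a (k u v) with ht
  have tt : t * t = 1 := hX.tt ha hu hv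
  have c1c1 : Inv.cj a (u * v) * Inv.cj a (u * v) = 1 := cj_sq (hX.inv ha) _
  have c2c2 : Inv.cj a (v * u) * Inv.cj a (v * u) = 1 := cj_sq (hX.inv ha) _
  have hvu : k u v * (u * v) = v * u := by
    have h1 : k u v * (u * v) * (u * v) = 1 := by
      rw [mul_assoc]
      exact hX.i hu hv
    rw [eq_inv_of_mul_eq_one_left h1, mul_inv_rev, iinv (hX.inv hu), iinv (hX.inv hv)]
  have e1 : Inv.cj a (u * v) * Inv.cj a (v * u) = t := by
    have h1 : Inv.cj t (u * v) = t :=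
      cj_of_comm ((hX.tu ha hu hv).mul_right (hX.tv ha hu hv))
    rw [ht, cj_mul, cj_cj a (k u v), hvu] at h1
    exact h1
  have c12 : Commute (Inv.cj a (u * v)) (Inv.cj a (v * u)) := by
    apply co_one c1c1 c2c2
    unfold k
    rw [e1]
    exact tt
  have tc1 : Commute t (Inv.cj a (u * v)) := by
    rw [← e1]
    exact (Commute.refl _).mul_left c12.symm
  have e2 : Inv.cj a (v * u) = t * Inv.cj a (u * v) := by
    rw [← e1, c12.eq, mul_assoc, c1c1, mul_one]
  have ctw : Commute a (Inv.cj t w) := by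
    have h1 : Commute (Inv.cj a w) t :=
      (hX.c1 ha hw).symm.mul_right (hX.ew ha hu hv hw).symm
    have h2 := comm_cj h1 w
    rw [cj_cj, hX.inv hw, cj_one] at h2
    exact h2
  unfold phi
  rw [← cj_cj a (v * u), e2, cj_mul t, ← cj_cj a (u * v) w]
  exact (k_cut (cj_sq tt w) ctw (comm_cj tc1 w)).symm

/-- inverses -/
theorem Th.phi_inv {a : G} (ha : a ∈ X) (g : G) : phi a g⁻¹ = Inv.cj (phi a g) g⁻¹ := by
  unfold phi
  rw [cj_k, cj_cj, mul_inv_cancel, cj_one]
  exact hX.ks ha (hX.cj ha _)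

theorem Th.fb {a b u v : G} (ha : a ∈ X) (hb : b ∈ X) (hu : u ∈ X) (hv : v ∈ X) :
    Commute (phi a (u * v * b)) b := by
  have hc := hX.cj ha (u * v)
  have e : phi a (u * v * b) = a * Inv.cj a (k (Inv.cj a (u * v)) b) := by
    unfold phi
    rw [← cj_cj a (u * v) b, hX.cje hc hb, k_cut (hX.inv hc) (hX.uv ha hu hv) (hX.kl hc hb).symm]
    exact k_eq (hX.i hc hb)
  rw [e]
  exact hX.tv ha hc hb

/-- **commutators** -/
theorem Th.main {a b u v : G} (haD : a ∈ X) (hbD : b ∈ X) (hu : u ∈ X) (hv : v ∈ X) :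
    Commute (k a b) (Inv.cj (k a b) (u * v)) := by
  have bb := hX.inv hbD
  have uu := hX.inv hu
  have vv := hX.inv hv
  set f := phi a (u * v * b) with hf
  have f1 : phi a (v * u * b) = f := (hX.swap haD hu hv hbD).symm
  have fb : Commute f b := hX.fb haD hbD hu hv
  have inv3 : ∀ x ∈ X, ∀ y ∈ X, ∀ z ∈ X, (x * y * z)⁻¹ = z * y * x := by
    intro x hx y hy z hz
    rw [mul_inv_rev, mul_inv_rev, iinv (hX.inv hx), iinv (hX.inv hy), iinv (hX.inv hz), mul_assoc]
  have f2 : phi a (b * v * u) = Inv.cj f (v * u) := by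
    rw [← inv3 u hu v hv b hbD, hX.phi_inv haD, ← hf, inv3 u hu v hv b hbD, mul_assoc, ← cj_cj,
      cj_of_comm fb]
  have f3 : phi a (b * u * v) = Inv.cj f (u * v) := by
    rw [← inv3 v hv u hu b hbD, hX.phi_inv haD, f1, inv3 v hv u hu b hbD, mul_assoc, ← cj_cj,
      cj_of_comm fb]
  have f4 : phi a (u * b * v) = phi a (b * u * v) := hX.swap haD hu hbD hv
  have f5 : phi a (v * b * u) = phi a (b * v * u) := hX.swap haD hv hbD hu
  have f6 : phi a (u * b * v) = Inv.cj f (v * b * v) := by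
    rw [← inv3 v hv b hbD u hu, hX.phi_inv haD, f5, f2, inv3 v hv b hbD u hu, cj_cj]
    congr 1
    simp only [mul_assoc, cc uu]
  have star : Inv.cj f (u * v) = Inv.cj f (v * b * v) := by rw [← f3, ← f4, f6]
  have f7 : Commute (Inv.cj f u) b := by
    have hb' := hX.cj hbD v
    have h1 := hX.fb haD hb' hu hv
    have e : u * v * Inv.cj b v = u * b * v := by
      simp only [Inv.cj, iinv vv, mul_assoc, cc vv]
    rw [e, f4, f3, ← cj_cj] at h1
    have h2 := comm_cj h1 v⁻¹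
    rw [cj_cj _ v v⁻¹, cj_cj b v v⁻¹, mul_inv_cancel, cj_one, cj_one] at h2
    exact h2
  have f8 : Inv.cj f u = Inv.cj f v := by
    have h1 : Inv.cj (Inv.cj f u) v = Inv.cj (Inv.cj (Inv.cj f v) b) v := by
      rw [cj_cj, cj_cj, cj_cj, ← mul_assoc]
      exact star
    have h2 := cj_inj h1
    have h3 : Inv.cj (Inv.cj f u) b = Inv.cj f v := by
      rw [h2, cj_cj, bb, cj_one]
    rw [cj_of_comm f7] at h3
    exact h3
  have f9 : Inv.cj f (u * v) = f := by
    rw [← cj_cj, f8, cj_cj, vv, cj_one]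
  have g1 : k a (Inv.cj a (b * u * v)) = f := by
    have := f3
    rw [f9] at this
    exact this
  have g2 : k (Inv.cj a b) (Inv.cj a (u * v)) = f := by
    have h1 : Inv.cj f b = k (Inv.cj a b) (Inv.cj a (u * v)) := by
      rw [hf]
      unfold phi
      rw [cj_k, cj_cj a (u * v * b) b, mul_assoc (u * v) b b, bb, mul_one]
    rw [← h1]
    exact cj_of_comm fb
  have hE := hX.cj haD (b * u * v)
  have hB := hX.cj haD b
  have hC := hX.cj haD (u * v)
  have k1 : Commute a (Inv.cj a (u * v)) := hX.uv haD hu hv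
  have k2 : Commute (Inv.cj a b) (Inv.cj a (b * u * v)) := by
    have hub := hX.cj hu b
    have hvb := hX.cj hv b
    have h1 := comm_cj (hX.uv haD hub hvb) b
    have e : Inv.cj u b * Inv.cj v b * b = b * u * v := by
      rw [← cj_mul]
      simp only [Inv.cj, iinv bb, mul_assoc, bb, mul_one]
    rw [cj_cj a _ b, e] at h1
    exact h1
  have ff : f * f = 1 := by
    rw [← g1]
    exact hX.i haD hE
  have fa : Commute f a := by rw [← g1]; exact hX.kl haD hE
  have fC : Commute f (Inv.cj a (u * v)) := by rw [← g2]; exact hX.kr hB hC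
  have ec : k a b = a * Inv.cj a b := k_eq bb
  have ec2 : Inv.cj (k a b) (u * v) = Inv.cj a (u * v) * Inv.cj a (b * u * v) := by
    rw [ec, cj_mul, cj_cj a b (u * v), ← mul_assoc b u v]
  rw [ec2, ec]
  have r1 : a * Inv.cj a (b * u * v) = f * (Inv.cj a (b * u * v) * a) := by
    rw [← g1]
    exact k_rel (hX.inv haD) (hX.inv hE)
  have r2 : Inv.cj a b * Inv.cj a (u * v) = f * (Inv.cj a (u * v) * Inv.cj a b) := by
    rw [← g2]
    exact k_rel (hX.inv hB) (hX.inv hC)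
  set A := a
  set B := Inv.cj a b
  set C := Inv.cj a (u * v)
  set E := Inv.cj a (b * u * v)
  show A * B * (C * E) = C * E * (A * B)
  calc A * B * (C * E) = A * (B * C) * E := by simp only [mul_assoc]
    _ = A * (f * (C * B)) * E := by rw [r2]
    _ = (A * f) * C * (B * E) := by simp only [mul_assoc]
    _ = (f * A) * C * (B * E) := by rw [fa.eq]
    _ = (f * A) * C * (E * B) := by rw [k2.eq]
    _ = f * (A * C) * E * B := by simp only [mul_assoc]
    _ = f * (C * A) * E * B := by rw [k1.eq]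
    _ = f * C * (A * E) * B := by simp only [mul_assoc]
    _ = f * C * (f * (E * A)) * B := by rw [r1]
    _ = f * (C * f) * E * A * B := by simp only [mul_assoc]
    _ = f * (f * C) * E * A * B := by rw [fC.eq]
    _ = C * E * (A * B) := by simp only [mul_assoc, cc ff]

/-- `[a, b] ^ u` commutes with `[a, b] ^ v` -/
theorem Th.main' {a b u v : G} (ha : a ∈ X) (hb : b ∈ X) (hu : u ∈ X) (hv : v ∈ X) :
    Commute (Inv.cj (k a b) u) (Inv.cj (k a b) v) := by
  have h := comm_cj (hX.main ha hb hv hu) u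
  rw [cj_cj _ (v * u) u, mul_assoc, hX.inv hu, mul_one] at h
  exact h

/-- `[a, b]` commutes with `[a, b] ^ u` -/
theorem Th.main1 {a b u : G} (ha : a ∈ X) (hb : b ∈ X) (hu : u ∈ X) :
    Commute (k a b) (Inv.cj (k a b) u) := by
  have e : k a b = a * Inv.cj a b := hX.ke hb
  have hB := hX.cj ha b
  rw [e, cj_mul, cj_cj a b u]
  have h1 : Commute (Inv.cj a b) (Inv.cj a (b * u)) := by
    have := hX.c1 hB hu
    rwa [cj_cj] at this
  exact ((hX.c1 ha hu).mul_right (hX.uv ha hb hu)).mul_left ((hX.s ha hb hu).mul_right h1)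

end

/-- the next stage -/
def Nx (X : Set G) : Set G := {g | g ∈ X ∨ ∃ x ∈ X, ∃ y ∈ X, g = k x y}

/-- the elements `x ^ w`, `w` in `X ∪ {1}`, commute -/
def Ab (X : Set G) (x : G) : Prop :=
  (∀ w ∈ X, ∀ w' ∈ X, Commute (cj x w) (cj x w')) ∧ ∀ w ∈ X, Commute x (cj x w)

theorem Th.ab {X : Set G} (hX : Th X) {x : G} (hx : x ∈ Nx X) : Ab X x := by
  rcases hx with hx | ⟨a, ha, b, hb, rfl⟩
  · exact ⟨fun w hw w' hw' => hX.s hx hw hw', fun w hw => hX.c1 hx hw⟩
  · exact ⟨fun w hw w' hw' => hX.main' ha hb hw hw', fun w hw => hX.main1 ha hb hw⟩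

theorem Th.ninv {X : Set G} (hX : Th X) {x : G} (hx : x ∈ Nx X) : x * x = 1 := by
  rcases hx with hx | ⟨a, ha, b, hb, rfl⟩
  · exact hX.inv hx
  · exact hX.i ha hb

/-- the expansion in the next stage -/
theorem Th.nexp {X : Set G} (hX : Th X) {x u v : G} (hx : x ∈ Nx X) (hu : u ∈ X) (hv : v ∈ X) :
    Inv.cj x (k u v) = x * Inv.cj x u * Inv.cj x (Inv.cj u v) := by
  have xx := hX.ninv hx
  have uu := hX.inv hu
  apply exp_gen xx uu (hX.inv hv)
  rcases hx with hx | ⟨a, ha, b, hb, rfl⟩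
  · exact hX.c3 hx hu hv
  · have e1 : k (k a b) u = k u (k a b) := by
      apply k_swap xx uu
      rw [k_eq uu]
      exact mul_sq xx (cj_sq xx u) (hX.main1 ha hb hu)
    rw [e1, k_eq xx, hX.ke hv, hX.exp hu ha hb]
    have hab := hX.cj ha b
    have c1 : Commute (u * Inv.cj u a * Inv.cj u (Inv.cj a b)) u :=
      ((Commute.refl u).mul_left (hX.c1 hu ha).symm).mul_left (hX.c1 hu hab).symm
    have c2 : Commute (u * Inv.cj u a * Inv.cj u (Inv.cj a b)) (Inv.cj u v) :=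
      ((hX.c1 hu hv).mul_left (hX.s hu ha hv)).mul_left (hX.s hu hab hv)
    exact ((Commute.refl u).mul_right (hX.c1 hu hv)).mul_left (c1.mul_right c2)

theorem Th.nx {X : Set G} (hX : Th X) : Th (Nx X) := by
  refine ⟨fun hx => hX.ninv hx, ?_, ?_⟩
  · rintro x (hx | ⟨a, ha, b, hb, rfl⟩) g
    · exact Or.inl (hX.cj hx g)
    · exact Or.inr ⟨Inv.cj a g, hX.cj ha g, Inv.cj b g, hX.cj hb g, cj_k a b g⟩
  · intro x y z hx hy hz
    have hA := hX.ab hx
    -- elements commuting with all conjugates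
    have key : ∀ y ∈ Nx X, ∀ c : G, Commute x c → (∀ w ∈ X, Commute (Inv.cj x w) c) →
        Commute (Inv.cj x y) c := by
      rintro y (hy | ⟨a, ha, b, hb, rfl⟩) c h1 h2
      · exact h2 y hy
      · rw [hX.nexp hx ha hb]
        exact (h1.mul_left (h2 a ha)).mul_left (h2 _ (hX.cj ha b))
    apply key y hy
    · exact (key z hz x (Commute.refl x) (fun w hw => (hA.2 w hw).symm)).symm
    · intro w hw
      exact (key z hz _ (hA.2 w hw) (fun w' hw' => hA.1 w' hw' w hw)).symm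

/-- the stages -/
def Sg (X : Set G) : ℕ → Set G
  | 0 => X
  | n + 1 => Nx (Sg X n)

theorem Sg.mono (X : Set G) {m n : ℕ} (h : m ≤ n) : Sg X m ⊆ Sg X n := by
  induction n, h using Nat.le_induction with
  | base => exact subset_rfl
  | succ n _ ih => exact ih.trans (fun x hx => Or.inl hx)

theorem Sg.th {X : Set G} (hX : Th X) (n : ℕ) : Th (Sg X n) := by
  induction n with
  | zero => exact hX
  | succ n ih => exact ih.nx

/-- the closure -/
def Un (X : Set G) : Set G := {g | ∃ n, g ∈ Sg X n}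

theorem Un.th {X : Set G} (hX : Th X) : Th (Un X) := by
  refine ⟨?_, ?_, ?_⟩
  · rintro x ⟨n, hx⟩
    exact (Sg.th hX n).inv hx
  · rintro x ⟨n, hx⟩ g
    exact ⟨n, (Sg.th hX n).cj hx g⟩
  · rintro x y z ⟨l, hx⟩ ⟨m, hy⟩ ⟨n, hz⟩
    have h1 : l ≤ l + m + n := by omega
    have h2 : m ≤ l + m + n := by omega
    have h3 : n ≤ l + m + n := by omega
    exact (Sg.th hX (l + m + n)).s (Sg.mono X h1 hx) (Sg.mono X h2 hy) (Sg.mono X h3 hz)

theorem Un.kc {X : Set G} {x y : G} (hx : x ∈ Un X) (hy : y ∈ Un X) : k x y ∈ Un X := by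
  obtain ⟨l, hx⟩ := hx
  obtain ⟨m, hy⟩ := hy
  have h1 : l ≤ l + m := by omega
  have h2 : m ≤ l + m := by omega
  exact ⟨l + m + 1, Or.inr ⟨x, Sg.mono X h1 hx, y, Sg.mono X h2 hy, rfl⟩⟩

theorem Un.sub (X : Set G) : X ⊆ Un X := fun x hx => ⟨0, hx⟩

theorem Un.sa {X : Set G} (hX : Th X) : Sa (Un X) := by
  have hU := Un.th hX
  refine ⟨fun hx => hU.inv hx, fun hx g => hU.cj hx g, fun hx hy => Un.kc hx hy, ?_, ?_⟩
  · intro x y z hx hy hz
    rw [hU.ke hy, hU.ke hz]
    exact ((Commute.refl x).mul_right (hU.c1 hx hz)).mul_left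
      ((hU.c1 hx hy).symm.mul_right (hU.s hx hy hz))
  · intro s t u hs ht hu
    rw [hU.ks hs ht, hU.ke hu, hU.ke hs, cj_mul, cj_cj t s u]
    exact ((Commute.refl t).mul_right (hU.c1 ht hs)).mul_right
      ((hU.c1 ht hu).mul_right (hU.uv ht hs hu))

/-- **Theorem.**  A normal set `X` of involutions such that `x ^ y` and `x ^ z` commute for `x`, `y`,
`z` in `X` generates a locally finite `2`-group. -/
theorem Th.lf {X : Set G} (hX : Th X) : LF2 (Subgroup.closure X) :=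
  LF2.mono (Subgroup.closure_mono (Un.sub X)) (sys_lf (Un.sa hX))

theorem own_cj {X : Set G} (h1 : ∀ x ∈ X, x * x = 1) (h2 : ∀ x ∈ X, ∀ y ∈ X, cj x y ∈ X) {g : G}
    (hg : g ∈ Subgroup.closure X) : ∀ x ∈ X, cj x g ∈ X ∧ cj x g⁻¹ ∈ X := by
  induction hg using Subgroup.closure_induction with
  | mem g hg =>
    intro x hx
    rw [iinv (h1 g hg)]
    exact ⟨h2 x hx g hg, h2 x hx g hg⟩
  | one =>
    intro x hx
    rw [inv_one, cj_one]
    exact ⟨hx, hx⟩
  | mul g h _ _ h3 h4 =>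
    intro x hx
    rw [mul_inv_rev, ← cj_cj, ← cj_cj]
    exact ⟨(h4 _ (h3 x hx).1).1, (h3 _ (h4 x hx).2).2⟩
  | inv g _ h3 =>
    intro x hx
    rw [inv_inv]
    exact ⟨(h3 x hx).2, (h3 x hx).1⟩

/-- the same for sets which are closed under conjugation by their elements only -/
theorem lf_own {X : Set G} (h1 : ∀ x ∈ X, x * x = 1) (h2 : ∀ x ∈ X, ∀ y ∈ X, cj x y ∈ X)
    (h3 : ∀ x ∈ X, ∀ y ∈ X, ∀ z ∈ X, Commute (cj x y) (cj x z)) : LF2 (Subgroup.closure X) := by
  have h4 : Th ((Subtype.val : Subgroup.closure X → G) ⁻¹' X) := by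
    refine ⟨?_, ?_, ?_⟩
    · intro x hx
      exact Subtype.ext (h1 x hx)
    · intro x hx g
      exact (own_cj h1 h2 g.2 x.1 hx).1
    · intro x y z hx hy hz
      exact Subtype.ext (h3 x.1 hx y.1 hy z.1 hz).eq
  have h5 := h4.lf
  rw [Subgroup.closure_closure_coe_preimage] at h5
  exact h5.image (Subgroup.topEquiv : (⊤ : Subgroup (Subgroup.closure X)) ≃* _).toMonoidHom
    (Subgroup.topEquiv : (⊤ : Subgroup (Subgroup.closure X)) ≃* _).surjective

theorem Th.rad {X : Set G} (hX : Th X) : X ⊆ rad G :=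
  (Un.sub X).trans (sys_rad (Un.sa hX))

end Pool.Agent.H678.Inv
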