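import Pool.Agent.H678.Inv.R
import Pool.Agent.H678.Inv.X

/-!
# Tools for groups generated by few involutions

Rules of the calculus of commutators of involutions, and the criterion for the radical.
-/

set_option autoImplicit false

namespace Pool.Agent.H678.Inv

open Pool.Agent.W5h59.Bu (LFn LF2 rad rad_lf rad_quot le_rad lf_of_comm)

universe u

variable {G : Type u} [Group G]

section rules

variable {x y z p q r w : G}

theorem Linv (H : E2 G) (ix : x * x = 1) (iy : y * y = 1) (b : k x y = z) : z * z = 1 :=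
  b ▸ H x y ix iy

theorem Lsw (H : E2 G) (ix : x * x = 1) (iy : y * y = 1) (b : k x y = z) : k y x = z :=
  (k_swap ix iy (H x y ix iy)).symm.trans b

theorem Lkl (H : E2 G) (ix : x * x = 1) (iy : y * y = 1) (b : k x y = z) : Commute z x :=
  b ▸ kl ix iy (H x y ix iy)

theorem Lkr (H : E2 G) (ix : x * x = 1) (iy : y * y = 1) (b : k x y = z) : Commute z y :=
  b ▸ kr ix iy (H x y ix iy)

theorem Lck (c1 : Commute x y) (c2 : Commute x z) (b : k y z = q) : Commute x q :=
  b ▸ co_k c1 c2

theorem LP2 (H : E2 G) (ix : x * x = 1) (iy : y * y = 1) (iz : z * z = 1) (c : Commute x y)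
    (b1 : k x z = p) (b2 : k y z = q) : Commute p q := by
  subst b1 b2
  exact P2 H ix iy iz c

theorem LP3 (H : E2 G) (ix : x * x = 1) (iy : y * y = 1) (iz : z * z = 1) (c : Commute x y)
    (b1 : k x z = p) (b3 : k p y = r) : Commute r z := by
  subst b1 b3
  exact P3 H ix iy iz c

theorem LP1 (H : E2 G) (ix : x * x = 1) (iy : y * y = 1) (iz : z * z = 1) (c : Commute x y)
    (b1 : k x z = p) (b2 : k y z = q) (b3 : k p y = r) : k q x = r := by
  subst b1 b2 b3
  exact (P1 H ix iy iz c).symm

theorem Lone (ix : x * x = 1) (iy : y * y = 1) (b : k x y = z) (c : Commute x y) : z = 1 :=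
  b ▸ k_one ix iy c

theorem Lco (ix : x * x = 1) (iy : y * y = 1) (b : k x y = 1) : Commute x y := co_one ix iy b

theorem Lself (ix : x * x = 1) (b : k x x = z) : z = 1 := Lone ix ix b (Commute.refl x)

theorem Lone1 (iy : y * y = 1) (b : k 1 y = z) : z = 1 :=
  Lone (one_mul 1) iy b (Commute.one_left y)

theorem Lone2 (ix : x * x = 1) (b : k x 1 = z) : z = 1 :=
  Lone ix (one_mul 1) b (Commute.one_right x)

theorem Rc (ix : x * x = 1) (iy : y * y = 1) (c : Commute x y) : k x y ∈ rad G := by
  rw [k_one ix iy c]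
  exact Subgroup.one_mem _

theorem Rb (b : k x y = z) (h : z ∈ rad G) : k x y ∈ rad G := by
  rw [b]
  exact h

end rules

/-- an involution which commutes with all generators modulo the radical lies in the radical -/
theorem Lrad {F : Set G} (hF : Subgroup.closure F = ⊤) (hi : ∀ s ∈ F, s * s = 1) {x : G}
    (ix : x * x = 1) (hx : ∀ s ∈ F, k x s ∈ rad G) : x ∈ rad G := by
  set f := QuotientGroup.mk' (rad G) with hf
  have ixq : f x * f x = 1 := by rw [← map_mul, ix, map_one]
  have hcomm : ∀ g : G, Commute (f x) (f g) := by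
    intro g
    have hg : g ∈ Subgroup.closure F := hF ▸ Subgroup.mem_top g
    induction hg using Subgroup.closure_induction with
    | mem s hs =>
      have is : f s * f s = 1 := by rw [← map_mul, hi s hs, map_one]
      refine co_one ixq is ?_
      rw [← map_k]
      exact (QuotientGroup.eq_one_iff _).2 (hx s hs)
    | one => rw [map_one]; exact Commute.one_right _
    | mul a b _ _ h1 h2 => rw [map_mul]; exact h1.mul_right h2
    | inv a _ h => rw [map_inv]; exact h.inv_right
  have hn : (Subgroup.zpowers (f x)).Normal := by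
    constructor
    rintro _ ⟨m, rfl⟩ g
    obtain ⟨g, rfl⟩ := QuotientGroup.mk'_surjective _ g
    have h1 : Commute (f g) (f x ^ m) := ((hcomm g).symm).zpow_right m
    refine ⟨m, ?_⟩
    show f x ^ m = f g * f x ^ m * (f g)⁻¹
    rw [h1.eq, mul_inv_cancel_right]
  have hl : LF2 (Subgroup.zpowers (f x)) := by
    refine lf_of_comm ?_ ?_
    · rintro ⟨_, m, rfl⟩ ⟨_, m', rfl⟩
      apply Subtype.ext
      show f x ^ m * f x ^ m' = f x ^ m' * f x ^ m
      rw [← zpow_add, ← zpow_add, add_comm]
    · rintro ⟨_, m, rfl⟩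
      apply Subtype.ext
      show f x ^ m * f x ^ m = 1
      rw [← (Commute.refl (f x)).mul_zpow, ixq, one_zpow]
  have h1 : f x ∈ rad (G ⧸ rad G) := le_rad hn hl (Subgroup.mem_zpowers _)
  rw [rad_quot, Subgroup.mem_bot] at h1
  exact (QuotientGroup.eq_one_iff _).1 h1

theorem Lrad3 {a b c x : G} (ia : a * a = 1) (ib : b * b = 1) (ic : c * c = 1)
    (hF : Subgroup.closure ({a, b, c} : Set G) = ⊤) (ix : x * x = 1) (ka : k x a ∈ rad G)
    (kb : k x b ∈ rad G) (kc : k x c ∈ rad G) : x ∈ rad G := by
  refine Lrad hF ?_ ix ?_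
  · rintro s (rfl | rfl | rfl) <;> assumption
  · rintro s (rfl | rfl | rfl) <;> assumption

theorem Lrad4 {a b c d x : G} (ia : a * a = 1) (ib : b * b = 1) (ic : c * c = 1) (id : d * d = 1)
    (hF : Subgroup.closure ({a, b, c, d} : Set G) = ⊤) (ix : x * x = 1) (ka : k x a ∈ rad G)
    (kb : k x b ∈ rad G) (kc : k x c ∈ rad G) (kd : k x d ∈ rad G) : x ∈ rad G := by
  refine Lrad hF ?_ ix ?_
  · rintro s (rfl | rfl | rfl | rfl) <;> assumption
  · rintro s (rfl | rfl | rfl | rfl) <;> assumption

end Pool.Agent.H678.Inv
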