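import Pool.Agent.H678.Inv.L5

/-!
# Five involutions, commuting pairs: ab ac bd cd

The derivation was found by a saturation program.  `t`: commutators of involutions, `i`: their
squares are `1`, `b`: brackets, `c`: commuting elements, `e`, `m`: equalities, `q`: relations
between commuting elements, `r`: elements of the radical.
-/

set_option autoImplicit false
set_option linter.unusedVariables false

namespace Pool.Agent.H678.Inv

open Pool.Agent.W5h59.Bu (LFn LF2 rad rad_lf rad_quot le_rad lf_of_comm)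

universe u

variable {G : Type u} [Group G]

theorem fin5_C (H : E2 G) {a b c d e : G} (i1 : a * a = 1) (i2 : b * b = 1) (i3 : c * c = 1) (i4 : d * d = 1) (i5 : e * e = 1)
    (hab : Commute a b) (hac : Commute a c) (hbd : Commute b d) (hcd : Commute c d)
    (hF : Subgroup.closure ({a, b, c, d, e} : Set G) = ⊤) :
    a ∈ rad G ∧ b ∈ rad G ∧ c ∈ rad G ∧ d ∈ rad G ∧ e ∈ rad G := by
  obtain ⟨t6, b4⟩ : ∃ t, k a d = t := ⟨_, rfl⟩
  have i6 := Linv H i1 i4 b4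
  obtain ⟨t7, b5⟩ : ∃ t, k a e = t := ⟨_, rfl⟩
  have i7 := Linv H i1 i5 b5
  obtain ⟨t8, b6⟩ : ∃ t, k b c = t := ⟨_, rfl⟩
  have i8 := Linv H i2 i3 b6
  obtain ⟨t9, b7⟩ : ∃ t, k b e = t := ⟨_, rfl⟩
  have i9 := Linv H i2 i5 b7
  obtain ⟨t10, b8⟩ : ∃ t, k c e = t := ⟨_, rfl⟩
  have i10 := Linv H i3 i5 b8
  obtain ⟨t11, b9⟩ : ∃ t, k d e = t := ⟨_, rfl⟩
  have i11 := Linv H i4 i5 b9
  have c10 := Lkl H i1 i4 b4
  have c11 := Lkr H i1 i4 b4
  have c12 := Lkl H i1 i5 b5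
  have c13 := Lkr H i1 i5 b5
  have c14 := Lkl H i2 i3 b6
  have c15 := Lkr H i2 i3 b6
  have c16 := Lkl H i2 i5 b7
  have c17 := Lkr H i2 i5 b7
  have c18 := Lkl H i3 i5 b8
  have c19 := Lkr H i3 i5 b8
  have c20 := Lkl H i4 i5 b9
  have c21 := Lkr H i4 i5 b9
  have c22 := Lck hab hac b6
  have c23 := Lck hab.symm hbd b4
  have c24 := LP2 H i1 i2 i5 hab b5 b7
  have c25 := Lck hac.symm hcd b4
  have c26 := LP2 H i1 i3 i5 hac b5 b8
  have c27 := Lck hbd.symm hcd.symm b6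
  have c28 := LP2 H i2 i4 i5 hbd b7 b9
  have c29 := LP2 H i3 i4 i5 hcd b8 b9
  have c30 := Lck c22.symm c27.symm b4
  obtain ⟨t12, b31⟩ : ∃ t, k a t10 = t := ⟨_, rfl⟩
  have i12 := Linv H i1 i10 b31
  obtain ⟨t13, b32⟩ : ∃ t, k a t11 = t := ⟨_, rfl⟩
  have i13 := Linv H i1 i11 b32
  obtain ⟨t14, b33⟩ : ∃ t, k b t7 = t := ⟨_, rfl⟩
  have i14 := Linv H i2 i7 b33
  obtain ⟨t15, b34⟩ : ∃ t, k b t10 = t := ⟨_, rfl⟩
  have i15 := Linv H i2 i10 b34
  obtain ⟨t16, b35⟩ : ∃ t, k b t11 = t := ⟨_, rfl⟩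
  have i16 := Linv H i2 i11 b35
  obtain ⟨t17, b36⟩ : ∃ t, k c t7 = t := ⟨_, rfl⟩
  have i17 := Linv H i3 i7 b36
  obtain ⟨t18, b37⟩ : ∃ t, k c t9 = t := ⟨_, rfl⟩
  have i18 := Linv H i3 i9 b37
  obtain ⟨t19, b38⟩ : ∃ t, k c t11 = t := ⟨_, rfl⟩
  have i19 := Linv H i3 i11 b38
  obtain ⟨t20, b39⟩ : ∃ t, k d t7 = t := ⟨_, rfl⟩
  have i20 := Linv H i4 i7 b39
  obtain ⟨t21, b40⟩ : ∃ t, k d t10 = t := ⟨_, rfl⟩
  have i21 := Linv H i4 i10 b40
  obtain ⟨t22, b41⟩ : ∃ t, k e t6 = t := ⟨_, rfl⟩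
  have i22 := Linv H i5 i6 b41
  obtain ⟨t23, b42⟩ : ∃ t, k e t8 = t := ⟨_, rfl⟩
  have i23 := Linv H i5 i8 b42
  have c43 := Lkl H i1 i10 b31
  have c44 := Lkr H i1 i10 b31
  have c45 := Lkl H i1 i11 b32
  have c47 := Lkl H i2 i7 b33
  have c48 := Lkr H i2 i7 b33
  have c49 := Lkl H i2 i10 b34
  have c50 := Lkr H i2 i10 b34
  have c51 := Lkl H i2 i11 b35
  have c52 := Lkr H i2 i11 b35
  have c55 := Lkl H i3 i9 b37
  have c56 := Lkr H i3 i9 b37
  have c57 := Lkl H i3 i11 b38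
  have c58 := Lkr H i3 i11 b38
  have c59 := Lkl H i4 i7 b39
  have c63 := Lkl H i5 i6 b41
  have c64 := Lkr H i5 i6 b41
  have c65 := Lkl H i5 i8 b42
  have c66 := Lkr H i5 i8 b42
  have c67 := LP3 H i1 i2 i5 hab b5 (Lsw H i2 i7 b33)
  have c68 := Lck hab c12.symm b33
  have c69 := LP2 H i1 i2 i10 hab b31 b34
  have c70 := LP2 H i1 i2 i11 hab b32 b35
  have c72 := LP3 H i3 i1 i5 hac.symm b8 (Lsw H i1 i10 b31)
  have c74 := Lck hac.symm c18.symm b31
  have c75 := LP2 H i1 i3 i11 hac b32 b38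
  have c76 := LP2 H i1 i6 i5 c10.symm b5 (Lsw H i5 i6 b41)
  have c77 := LP2 H i1 i7 i4 c12.symm b4 (Lsw H i4 i7 b39)
  have c79 := LP2 H i1 i8 i5 c22 b5 (Lsw H i5 i8 b42)
  have c80 := LP3 H i4 i2 i5 hbd.symm b9 (Lsw H i2 i11 b35)
  have c81 := LP2 H i2 i4 i7 hbd b33 b39
  have c82 := LP2 H i2 i4 i10 hbd b34 b40
  have c83 := Lck hbd.symm c20.symm b35
  have c84 := LP2 H i2 i6 i5 c23 b7 (Lsw H i5 i6 b41)
  have c85 := LP2 H i2 i8 i5 c14.symm b7 (Lsw H i5 i8 b42)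
  have c86 := LP2 H i2 i9 i3 c16.symm b6 (Lsw H i3 i9 b37)
  have c87 := Lck c16 c24.symm b33
  have c88 := Lck c16 c28 b35
  have c90 := LP3 H i4 i3 i5 hcd.symm b9 (Lsw H i3 i11 b38)
  have c91 := LP2 H i3 i4 i7 hcd b36 b39
  have c93 := Lck hcd.symm c20.symm b38
  have c94 := LP2 H i3 i6 i5 c25 b8 (Lsw H i5 i6 b41)
  have c95 := LP2 H i3 i8 i5 c15.symm b8 (Lsw H i5 i8 b42)
  have c96 := LP2 H i3 i10 i2 c18.symm (Lsw H i2 i3 b6) (Lsw H i2 i10 b34)
  have c98 := Lck c18 c29 b38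
  have c99 := LP2 H i4 i6 i5 c11.symm b9 (Lsw H i5 i6 b41)
  have c100 := LP2 H i4 i8 i5 c27 b9 (Lsw H i5 i8 b42)
  have c101 := LP2 H i4 i11 i1 c20.symm (Lsw H i1 i4 b4) (Lsw H i1 i11 b32)
  have c103 := LP2 H i5 i7 i4 c13.symm (Lsw H i4 i5 b9) (Lsw H i4 i7 b39)
  have c104 := LP2 H i5 i9 i3 c17.symm (Lsw H i3 i5 b8) (Lsw H i3 i9 b37)
  have c105 := LP2 H i5 i10 i2 c19.symm (Lsw H i2 i5 b7) (Lsw H i2 i10 b34)
  have c106 := LP2 H i5 i11 i1 c21.symm (Lsw H i1 i5 b5) (Lsw H i1 i11 b32)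
  have c107 := LP2 H i6 i8 i5 c30.symm (Lsw H i5 i6 b41) (Lsw H i5 i8 b42)
  have c108 := LP2 H i7 i9 i3 c24 (Lsw H i3 i7 b36) (Lsw H i3 i9 b37)
  have c109 := LP2 H i7 i10 i2 c26 (Lsw H i2 i7 b33) (Lsw H i2 i10 b34)
  have c110 := LP2 H i7 i10 i4 c26 (Lsw H i4 i7 b39) (Lsw H i4 i10 b40)
  have c111 := LP2 H i9 i11 i3 c28 (Lsw H i3 i9 b37) (Lsw H i3 i11 b38)
  have c112 := LP2 H i10 i11 i1 c29 (Lsw H i1 i10 b31) (Lsw H i1 i11 b32)
  have c113 := LP2 H i10 i11 i2 c29 (Lsw H i2 i10 b34) (Lsw H i2 i11 b35)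
  have b114 := LP1 H i1 i2 i5 hab b5 b7 (Lsw H i2 i7 b33)
  have e115 := (LP1 H i1 i3 i5 hac b5 b8 (Lsw H i3 i7 b36)).symm.trans (Lsw H i1 i10 b31)
  have m116 : t12 = t17 := e115.symm
  subst m116
  have c117 := LP2 H i1 i3 i9 hac (Lsw H i9 i1 b114) b37
  have b118 := LP1 H i4 i2 i5 hbd.symm b9 b7 (Lsw H i2 i11 b35)
  have e119 := (LP1 H i3 i4 i5 hcd b8 b9 (Lsw H i4 i10 b40)).symm.trans (Lsw H i3 i11 b38)
  have m120 : t19 = t21 := e119.symm
  subst m120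
  have c121 := LP2 H i3 i4 i9 hcd b37 (Lsw H i9 i4 b118)
  have c122 := LP2 H i7 i9 i4 c24 (Lsw H i4 i7 b39) b118
  have c123 := LP2 H i9 i11 i1 c28 b114 (Lsw H i1 i11 b32)
  obtain ⟨t24, b124⟩ : ∃ t, k a t15 = t := ⟨_, rfl⟩
  have i24 := Linv H i1 i15 b124
  obtain ⟨t25, b125⟩ : ∃ t, k a t16 = t := ⟨_, rfl⟩
  have i25 := Linv H i1 i16 b125
  obtain ⟨t26, b126⟩ : ∃ t, k a t18 = t := ⟨_, rfl⟩
  have i26 := Linv H i1 i18 b126
  obtain ⟨t27, b127⟩ : ∃ t, k a t19 = t := ⟨_, rfl⟩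
  have i27 := Linv H i1 i19 b127
  obtain ⟨t28, b128⟩ : ∃ t, k a t20 = t := ⟨_, rfl⟩
  have i28 := Linv H i1 i20 b128
  obtain ⟨t29, b129⟩ : ∃ t, k a t22 = t := ⟨_, rfl⟩
  have i29 := Linv H i1 i22 b129
  obtain ⟨t30, b130⟩ : ∃ t, k a t23 = t := ⟨_, rfl⟩
  have i30 := Linv H i1 i23 b130
  obtain ⟨t31, b131⟩ : ∃ t, k b t12 = t := ⟨_, rfl⟩
  have i31 := Linv H i2 i12 b131
  obtain ⟨t32, b132⟩ : ∃ t, k b t13 = t := ⟨_, rfl⟩
  have i32 := Linv H i2 i13 b132
  obtain ⟨t33, b133⟩ : ∃ t, k b t19 = t := ⟨_, rfl⟩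
  have i33 := Linv H i2 i19 b133
  obtain ⟨t34, b134⟩ : ∃ t, k b t20 = t := ⟨_, rfl⟩
  have i34 := Linv H i2 i20 b134
  obtain ⟨t35, b135⟩ : ∃ t, k b t22 = t := ⟨_, rfl⟩
  have i35 := Linv H i2 i22 b135
  obtain ⟨t36, b136⟩ : ∃ t, k b t23 = t := ⟨_, rfl⟩
  have i36 := Linv H i2 i23 b136
  obtain ⟨t37, b137⟩ : ∃ t, k c t13 = t := ⟨_, rfl⟩
  have i37 := Linv H i3 i13 b137
  obtain ⟨t38, b138⟩ : ∃ t, k c t16 = t := ⟨_, rfl⟩
  have i38 := Linv H i3 i16 b138
  obtain ⟨t39, b139⟩ : ∃ t, k c t20 = t := ⟨_, rfl⟩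
  have i39 := Linv H i3 i20 b139
  obtain ⟨t40, b140⟩ : ∃ t, k c t22 = t := ⟨_, rfl⟩
  have i40 := Linv H i3 i22 b140
  obtain ⟨t41, b141⟩ : ∃ t, k d t13 = t := ⟨_, rfl⟩
  have i41 := Linv H i4 i13 b141
  obtain ⟨t42, b142⟩ : ∃ t, k d t15 = t := ⟨_, rfl⟩
  have i42 := Linv H i4 i15 b142
  obtain ⟨t43, b143⟩ : ∃ t, k d t18 = t := ⟨_, rfl⟩
  have i43 := Linv H i4 i18 b143
  obtain ⟨t44, b144⟩ : ∃ t, k d t22 = t := ⟨_, rfl⟩
  have i44 := Linv H i4 i22 b144
  obtain ⟨t45, b145⟩ : ∃ t, k d t23 = t := ⟨_, rfl⟩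
  have i45 := Linv H i4 i23 b145
  obtain ⟨t46, b146⟩ : ∃ t, k e t13 = t := ⟨_, rfl⟩
  have i46 := Linv H i5 i13 b146
  obtain ⟨t47, b147⟩ : ∃ t, k e t15 = t := ⟨_, rfl⟩
  have i47 := Linv H i5 i15 b147
  obtain ⟨t48, b148⟩ : ∃ t, k e t18 = t := ⟨_, rfl⟩
  have i48 := Linv H i5 i18 b148
  obtain ⟨t49, b149⟩ : ∃ t, k e t20 = t := ⟨_, rfl⟩
  have i49 := Linv H i5 i20 b149
  obtain ⟨t50, b150⟩ : ∃ t, k t6 t9 = t := ⟨_, rfl⟩
  have i50 := Linv H i6 i9 b150
  obtain ⟨t51, b151⟩ : ∃ t, k t6 t10 = t := ⟨_, rfl⟩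
  have i51 := Linv H i6 i10 b151
  obtain ⟨t52, b152⟩ : ∃ t, k t6 t11 = t := ⟨_, rfl⟩
  have i52 := Linv H i6 i11 b152
  obtain ⟨t53, b153⟩ : ∃ t, k t7 t8 = t := ⟨_, rfl⟩
  have i53 := Linv H i7 i8 b153
  obtain ⟨t54, b154⟩ : ∃ t, k t7 t11 = t := ⟨_, rfl⟩
  have i54 := Linv H i7 i11 b154
  obtain ⟨t55, b155⟩ : ∃ t, k t8 t9 = t := ⟨_, rfl⟩
  have i55 := Linv H i8 i9 b155
  obtain ⟨t56, b156⟩ : ∃ t, k t8 t10 = t := ⟨_, rfl⟩
  have i56 := Linv H i8 i10 b156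
  obtain ⟨t57, b157⟩ : ∃ t, k t8 t11 = t := ⟨_, rfl⟩
  have i57 := Linv H i8 i11 b157
  obtain ⟨t58, b158⟩ : ∃ t, k t9 t10 = t := ⟨_, rfl⟩
  have i58 := Linv H i9 i10 b158
  have c159 := Lkl H i1 i15 b124
  have c160 := Lkr H i1 i15 b124
  have c161 := Lkl H i1 i16 b125
  have c163 := Lkl H i1 i18 b126
  have c164 := Lkr H i1 i18 b126
  have c165 := Lkl H i1 i19 b127
  have c167 := Lkl H i1 i20 b128
  have c171 := Lkl H i1 i23 b130
  have c177 := Lkl H i2 i19 b133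
  have c178 := Lkr H i2 i19 b133
  have c179 := Lkl H i2 i20 b134
  have c180 := Lkr H i2 i20 b134
  have c181 := Lkl H i2 i22 b135
  have c182 := Lkr H i2 i22 b135
  have c183 := Lkl H i2 i23 b136
  have c187 := Lkl H i3 i16 b138
  have c189 := Lkl H i3 i20 b139
  have c190 := Lkr H i3 i20 b139
  have c191 := Lkl H i3 i22 b140
  have c192 := Lkr H i3 i22 b140
  have c193 := Lkl H i4 i13 b141
  have c201 := Lkl H i4 i23 b145
  have c203 := Lkl H i5 i13 b146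
  have c205 := Lkl H i5 i15 b147
  have c222 := Lkr H i8 i9 b155
  have c223 := Lkl H i8 i10 b156
  have c224 := Lkr H i8 i10 b156
  have c227 := Lkl H i9 i10 b158
  have c228 := Lkr H i9 i10 b158
  have c230 := LP3 H i2 i1 i10 hab.symm b34 (Lsw H i1 i15 b124)
  have c232 := LP3 H i2 i1 i11 hab.symm b35 (Lsw H i1 i16 b125)
  have c235 := Lck hab.symm c49.symm b124
  have c236 := Lck hab.symm c51.symm b125
  have c237 := LP2 H i1 i2 i19 hab b127 b133
  have c238 := LP2 H i1 i2 i20 hab b128 b134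
  have c239 := LP2 H i1 i2 i22 hab b129 b135
  have c241 := LP3 H i3 i1 i9 hac.symm b37 (Lsw H i1 i18 b126)
  have c243 := LP3 H i3 i1 i11 hac.symm b38 (Lsw H i1 i19 b127)
  have c245 := LP2 H i1 i3 i16 hac b125 b138
  have c246 := Lck hac.symm c55.symm b126
  have c247 := Lck hac.symm c57.symm b127
  have c248 := LP2 H i1 i3 i20 hac b128 b139
  have c249 := LP2 H i1 i3 i22 hac b129 b140
  have c250 := LP3 H i6 i1 i5 c10 (Lsw H i5 i6 b41) (Lsw H i1 i22 b129)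
  have c254 := Lck c10 c77 b128
  have c256 := LP3 H i7 i1 i4 c12 (Lsw H i4 i7 b39) (Lsw H i1 i20 b128)
  have c263 := LP3 H i8 i1 i5 c22.symm (Lsw H i5 i8 b42) (Lsw H i1 i23 b130)
  have c265 := LP2 H i1 i8 i10 c22 b31 b156
  have c266 := LP2 H i1 i8 i11 c22 b32 b157
  have c267 := Lck c22.symm c96 b124
  have c268 := Lck c22.symm c86 b126
  have c272 := Lck c43 c91 b128
  have c273 := LP2 H i1 i13 i4 c45.symm b4 (Lsw H i4 i13 b141)
  have c274 := LP2 H i1 i13 i5 c45.symm b5 (Lsw H i5 i13 b146)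
  have c275 := Lck c45 c70 b125
  have c276 := Lck c45 c75 b127
  have c279 := Lck c68.symm c81 b128
  have c280 := LP3 H i4 i2 i7 hbd.symm b39 (Lsw H i2 i20 b134)
  have c282 := LP3 H i4 i2 i10 hbd.symm b40 (Lsw H i2 i19 b133)
  have c283 := LP2 H i2 i4 i13 hbd b132 b141
  have c285 := Lck hbd.symm c93 b133
  have c286 := Lck hbd.symm c59.symm b134
  have c287 := LP2 H i2 i4 i22 hbd b135 b144
  have c288 := LP2 H i2 i4 i23 hbd b136 b145
  have c290 := LP3 H i6 i2 i5 c23.symm (Lsw H i5 i6 b41) (Lsw H i2 i22 b135)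
  have c292 := LP2 H i2 i6 i10 c23 b34 b151
  have c295 := Lck c23.symm c77 b134
  have c296 := Lck c23.symm c64.symm b135
  have c297 := LP3 H i2 i8 i5 c14.symm b7 (Lsw H i8 i9 b155)
  have c298 := LP3 H i8 i2 i5 c14 (Lsw H i5 i8 b42) (Lsw H i2 i23 b136)
  have c300 := Lck c14.symm c16.symm b155
  have c304 := LP3 H i2 i9 i3 c16.symm b6 b155
  have c312 := Lck c49 c82 b133
  have c313 := LP2 H i2 i16 i3 c51.symm b6 (Lsw H i3 i16 b138)
  have c315 := Lck c51 c122.symm b134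
  have c316 := LP3 H i4 i3 i7 hcd.symm b39 (Lsw H i3 i20 b139)
  have c318 := LP3 H i4 i3 i9 hcd.symm (Lsw H i9 i4 b118) (Lsw H i3 i16 b138)
  have c319 := LP2 H i3 i4 i13 hcd b137 b141
  have c320 := Lck hcd.symm c83 b138
  have c322 := Lck hcd.symm c59.symm b139
  have c325 := LP3 H i6 i3 i5 c25.symm (Lsw H i5 i6 b41) (Lsw H i3 i22 b140)
  have c326 := LP2 H i3 i6 i9 c25 b37 b150
  have c330 := Lck c25.symm c77 b139
  have c332 := LP3 H i3 i8 i5 c15.symm b8 (Lsw H i8 i10 b156)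
  have c335 := Lck c15.symm c18.symm b156
  have c337 := LP3 H i3 i10 i2 c18.symm (Lsw H i2 i3 b6) b156
  have c344 := Lck c55 c121 b138
  have c345 := LP2 H i3 i19 i2 c57.symm (Lsw H i2 i3 b6) (Lsw H i2 i19 b133)
  have c347 := Lck c57 c110.symm b139
  have c348 := LP3 H i4 i6 i5 c11.symm b9 (Lsw H i6 i11 b152)
  have c349 := LP3 H i6 i4 i5 c11 (Lsw H i5 i6 b41) (Lsw H i4 i22 b144)
  have c355 := LP3 H i8 i4 i5 c27.symm (Lsw H i5 i8 b42) (Lsw H i4 i23 b145)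
  have c356 := LP2 H i4 i8 i7 c27 b39 (Lsw H i7 i8 b153)
  have c358 := LP2 H i4 i8 i10 c27 b40 b156
  have c363 := LP3 H i4 i11 i1 c20.symm (Lsw H i1 i4 b4) b152
  have c364 := LP3 H i11 i4 i1 c20 (Lsw H i1 i11 b32) (Lsw H i4 i13 b141)
  have c369 := LP2 H i4 i16 i1 c83 (Lsw H i1 i4 b4) (Lsw H i1 i16 b125)
  have c370 := Lck c83.symm c70.symm b141
  have c373 := LP2 H i4 i19 i1 c93 (Lsw H i1 i4 b4) (Lsw H i1 i19 b127)
  have c374 := Lck c93.symm c75.symm b141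
  have c378 := LP3 H i5 i7 i4 c13.symm (Lsw H i4 i5 b9) (Lsw H i7 i11 b154)
  have c379 := LP3 H i7 i5 i4 c13 (Lsw H i4 i7 b39) (Lsw H i5 i20 b149)
  have c383 := LP3 H i5 i9 i3 c17.symm (Lsw H i3 i5 b8) (Lsw H i9 i10 b158)
  have c384 := LP3 H i9 i5 i3 c17 (Lsw H i3 i9 b37) (Lsw H i5 i18 b148)
  have c387 := Lck c17.symm c19.symm b158
  have c389 := LP3 H i5 i10 i2 c19.symm (Lsw H i2 i5 b7) b158
  have c390 := LP3 H i10 i5 i2 c19 (Lsw H i2 i10 b34) (Lsw H i5 i15 b147)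
  have c394 := LP3 H i5 i11 i1 c21.symm (Lsw H i1 i5 b5) b154
  have c395 := LP3 H i11 i5 i1 c21 (Lsw H i1 i11 b32) (Lsw H i5 i13 b146)
  have c400 := Lck c72 c112 b146
  have c401 := Lck c72 c69 b147
  have c404 := Lck c67 c123 b146
  have c405 := Lck c67 c109 b147
  have c408 := LP2 H i5 i16 i1 c80.symm (Lsw H i1 i5 b5) (Lsw H i1 i16 b125)
  have c409 := LP2 H i5 i16 i3 c80.symm (Lsw H i3 i5 b8) (Lsw H i3 i16 b138)
  have c410 := Lck c80 c70.symm b146
  have c411 := Lck c80 c113.symm b147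
  have c414 := LP2 H i5 i19 i1 c90.symm (Lsw H i1 i5 b5) (Lsw H i1 i19 b127)
  have c415 := LP2 H i5 i19 i2 c90.symm (Lsw H i2 i5 b7) (Lsw H i2 i19 b133)
  have c416 := Lck c90 c75.symm b146
  have c417 := Lck c90 c82.symm b147
  have c421 := LP2 H i6 i8 i10 c30.symm b151 b156
  have c427 := Lck c24 c26 b158
  have c428 := Lck c24.symm c28 b154
  have c430 := Lck c26.symm c29 b154
  have c434 := LP2 H i7 i13 i4 c106 (Lsw H i4 i7 b39) (Lsw H i4 i13 b141)
  have c436 := LP2 H i7 i22 i3 c76 (Lsw H i3 i7 b36) (Lsw H i3 i22 b140)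
  have c439 := LP2 H i7 i23 i2 c79 (Lsw H i2 i7 b33) (Lsw H i2 i23 b136)
  have c440 := LP2 H i7 i23 i4 c79 (Lsw H i4 i7 b39) (Lsw H i4 i23 b145)
  have c441 := Lck c79.symm c100.symm b154
  have c448 := Lck c28.symm c29.symm b158
  have c449 := Lco i24 i9 (LP1 H i9 i15 i1 c105 b114 (Lsw H i1 i15 b124) (k_one i14 i15 c109))
  have c453 := LP2 H i9 i22 i3 c84 (Lsw H i3 i9 b37) (Lsw H i3 i22 b140)
  have c455 := Lck c84.symm c94.symm b158
  have c457 := LP2 H i9 i23 i4 c85 b118 (Lsw H i4 i23 b145)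
  have c460 := LP2 H i10 i11 i8 c29 (Lsw H i8 i10 b156) (Lsw H i8 i11 b157)
  have c461 := Lco i26 i10 (LP1 H i10 i18 i1 c104 (Lsw H i1 i10 b31) (Lsw H i1 i18 b126) (k_one i12 i18 c108))
  have c465 := LP2 H i10 i22 i2 c94 (Lsw H i2 i10 b34) (Lsw H i2 i22 b135)
  have c469 := LP2 H i10 i23 i4 c95 (Lsw H i4 i10 b40) (Lsw H i4 i23 b145)
  have c470 := LP2 H i11 i16 i3 c52.symm (Lsw H i3 i11 b38) (Lsw H i3 i16 b138)
  have c471 := LP2 H i11 i19 i2 c58.symm (Lsw H i2 i11 b35) (Lsw H i2 i19 b133)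
  have c473 := Lco i34 i11 (LP1 H i11 i20 i2 c103 (Lsw H i2 i11 b35) (Lsw H i2 i20 b134) (k_one i16 i20 c122.symm))
  have c474 := Lco i39 i11 (LP1 H i11 i20 i3 c103 (Lsw H i3 i11 b38) (Lsw H i3 i20 b139) (k_one i19 i20 c110.symm))
  have c476 := LP2 H i11 i22 i2 c99 (Lsw H i2 i11 b35) (Lsw H i2 i22 b135)
  have c477 := LP2 H i11 i22 i3 c99 (Lsw H i3 i11 b38) (Lsw H i3 i22 b140)
  have c478 := LP2 H i11 i23 i1 c100 (Lsw H i1 i11 b32) (Lsw H i1 i23 b130)
  have c479 := LP2 H i11 i23 i2 c100 (Lsw H i2 i11 b35) (Lsw H i2 i23 b136)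
  have c481 := LP2 H i12 i20 i2 c91 (Lsw H i2 i12 b131) (Lsw H i2 i20 b134)
  have c482 := LP2 H i13 i16 i3 c70 (Lsw H i3 i13 b137) (Lsw H i3 i16 b138)
  have c483 := LP2 H i13 i19 i2 c75 (Lsw H i2 i13 b132) (Lsw H i2 i19 b133)
  have c484 := LP2 H i15 i16 i1 c113 (Lsw H i1 i15 b124) (Lsw H i1 i16 b125)
  have c485 := LP2 H i15 i19 i1 c82 (Lsw H i1 i15 b124) (Lsw H i1 i19 b127)
  have c486 := LP2 H i16 i18 i1 c121.symm (Lsw H i1 i16 b125) (Lsw H i1 i18 b126)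
  have c487 := LP2 H i16 i20 i1 c122.symm (Lsw H i1 i16 b125) (Lsw H i1 i20 b128)
  have c488 := LP2 H i16 i20 i3 c122.symm (Lsw H i3 i16 b138) (Lsw H i3 i20 b139)
  have c489 := LP2 H i18 i19 i1 c111 (Lsw H i1 i18 b126) (Lsw H i1 i19 b127)
  have c490 := LP2 H i19 i20 i1 c110.symm (Lsw H i1 i19 b127) (Lsw H i1 i20 b128)
  have c491 := LP2 H i19 i20 i2 c110.symm (Lsw H i2 i19 b133) (Lsw H i2 i20 b134)
  have c492 := LP2 H i22 i23 i1 c107 (Lsw H i1 i22 b129) (Lsw H i1 i23 b130)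
  have c493 := LP2 H i22 i23 i2 c107 (Lsw H i2 i22 b135) (Lsw H i2 i23 b136)
  have c494 := LP2 H i22 i23 i4 c107 (Lsw H i4 i22 b144) (Lsw H i4 i23 b145)
  have q495 : Rl [t15, t18, t23, t55, t56, t58] := LJ H i2 i3 i5 b6 b7 b8 b34 b37 b42 b155 b156 b158
  have c496 : Commute t15 t18 := q495.cm 0 1 rfl rfl
  have c497 : Commute t15 t23 := q495.cm 0 2 rfl rfl
  have c498 : Commute t18 t23 := q495.cm 1 2 rfl rfl
  have q502 : Rl [t18, t15, t23, t55, t56, t58] := q495.mv 1 rfl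
  have q503 : Rl [t23, t18, t15, t55, t56, t58] := q502.mv 2 rfl
  have b504 := Rl.l2 H i23 i18 i2 q503 (.cons c49 (.cons c300.symm (.cons c337 (.cons c389 .nil)))) (Lsw H i2 i23 b136)
  have q505 : Rl [t18, t15, t23, t55, t56, t58] := q495.mv 1 rfl
  have q506 : Rl [t15, t18, t23, t55, t56, t58] := q505.mv 1 rfl
  have e507 := (Rl.l2 H i15 i18 i5 q506 (.cons c65 (.cons c297 (.cons c332 (.cons c387.symm .nil)))) (Lsw H i5 i15 b147)).symm.trans (Lsw H i5 i18 b148)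
  have m508 : t47 = t48 := e507
  subst m508
  have q511 : Rl [t56, t15, t18, t23, t55, t58] := q495.mv 4 rfl
  have c512 := q511.l1 (.cons c105.symm (.cons c56 (.cons c85.symm (.cons c222 (.cons c227 .nil)))))
  have q513 : Rl [t55, t15, t18, t23, t56, t58] := q495.mv 3 rfl
  have c514 := q513.l1 (.cons c50 (.cons c104.symm (.cons c95.symm (.cons c224 (.cons c228 .nil)))))
  have e516 := (LP1 H i1 i2 i10 hab b31 b34 (Lsw H i2 i12 b131)).symm.trans (Lsw H i1 i15 b124)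
  have m517 : t24 = t31 := e516.symm
  subst m517
  have e518 := (LP1 H i1 i2 i11 hab b32 b35 (Lsw H i2 i13 b132)).symm.trans (Lsw H i1 i16 b125)
  have m519 : t25 = t32 := e518.symm
  subst m519
  have c520 := LP2 H i1 i2 i18 hab b126 (Lsw H i18 i2 b504)
  have b521 := LP1 H i3 i1 i9 hac.symm b37 (Lsw H i9 i1 b114) (Lsw H i1 i18 b126)
  have e522 := (LP1 H i1 i3 i11 hac b32 b38 (Lsw H i3 i13 b137)).symm.trans (Lsw H i1 i19 b127)
  have m523 : t27 = t37 := e522.symm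
  subst m523
  have b524 := LP1 H i6 i1 i5 c10 (Lsw H i5 i6 b41) b5 (Lsw H i1 i22 b129)
  have e526 := (LP1 H i7 i1 i4 c12 (Lsw H i4 i7 b39) b4 (Lsw H i1 i20 b128)).symm.trans (Lsw H i7 i6 b524)
  have m527 : t28 = t29 := e526
  subst m527
  have e528 := (LP1 H i1 i8 i5 c22 b5 (Lsw H i5 i8 b42) b153).symm.trans (Lsw H i1 i23 b130)
  have m529 : t30 = t53 := e528.symm
  subst m529
  have c531 := Lck c395 c410.symm b125
  have c532 := Lck c395 c416.symm b127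
  have c534 := Lck c363 c348 b5
  have c538 := Lck c394 c378 b4
  have c542 := Lck c394 c441.symm b130
  have b543 := LP1 H i4 i2 i7 hbd.symm b39 b33 (Lsw H i2 i20 b134)
  have e544 := (LP1 H i2 i4 i10 hbd b34 b40 (Lsw H i4 i15 b142)).symm.trans (Lsw H i2 i19 b133)
  have m545 : t33 = t42 := e544.symm
  subst m545
  have c546 := LP2 H i2 i4 i18 hbd (Lsw H i18 i2 b504) b143
  have e547 := (LP1 H i2 i6 i5 c23 b7 (Lsw H i5 i6 b41) (Lsw H i6 i9 b150)).symm.trans (Lsw H i2 i22 b135)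
  have m548 : t35 = t50 := e547.symm
  subst m548
  have e549 := (LP1 H i2 i8 i5 c14.symm b7 (Lsw H i5 i8 b42) (Lsw H i8 i9 b155)).symm.trans (Lsw H i2 i23 b136)
  have m550 : t36 = t55 := e549.symm
  subst m550
  have c551 := Lck c390 c384 b6
  have c552 := Lck c390 c401.symm b131
  have c554 := Lck c390 c417.symm b133
  have c555 := Lck c337 c265.symm b131
  have c556 := Lck c337 c358.symm b133
  have c559 := Lck c389 c455.symm b135
  have b560 := LP1 H i4 i3 i7 hcd.symm b39 b36 (Lsw H i3 i20 b139)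
  have e561 := (LP1 H i3 i4 i9 hcd b37 (Lsw H i9 i4 b118) (Lsw H i4 i18 b143)).symm.trans (Lsw H i3 i16 b138)
  have m562 : t38 = t43 := e561.symm
  subst m562
  have e563 := (LP1 H i3 i6 i5 c25 b8 (Lsw H i5 i6 b41) (Lsw H i6 i10 b151)).symm.trans (Lsw H i3 i22 b140)
  have m564 : t40 = t51 := e563.symm
  subst m564
  have b565 := LP1 H i3 i8 i5 c15.symm b8 (Lsw H i5 i8 b42) (Lsw H i8 i10 b156)
  have b566 := LP1 H i3 i10 i2 c18.symm (Lsw H i2 i3 b6) (Lsw H i2 i10 b34) b156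
  have c567 := Lck c384 c411.symm b138
  have c571 := Lck c383 c455.symm b140
  have e572 := (LP1 H i4 i6 i5 c11.symm b9 (Lsw H i5 i6 b41) (Lsw H i6 i11 b152)).symm.trans (Lsw H i4 i22 b144)
  have m573 : t44 = t52 := e572.symm
  subst m573
  have e574 := (LP1 H i4 i8 i5 c27 b9 (Lsw H i5 i8 b42) (Lsw H i8 i11 b157)).symm.trans (Lsw H i4 i23 b145)
  have m575 : t45 = t57 := e574.symm
  subst m575
  have e576 := (LP1 H i4 i11 i1 c20.symm (Lsw H i1 i4 b4) (Lsw H i1 i11 b32) b152).symm.trans (Lsw H i4 i13 b141)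
  have m577 : t41 = t44 := e576.symm
  subst m577
  have c578 := Lck c256 c250 b9
  have c583 := Lck c378 c441.symm b145
  have e584 := (LP1 H i5 i7 i4 c13.symm (Lsw H i4 i5 b9) (Lsw H i4 i7 b39) (Lsw H i7 i11 b154)).symm.trans (Lsw H i5 i20 b149)
  have m585 : t49 = t54 := e584.symm
  subst m585
  have e586 := (LP1 H i5 i9 i3 c17.symm (Lsw H i3 i5 b8) (Lsw H i3 i9 b37) (Lsw H i9 i10 b158)).symm.trans (Lsw H i5 i18 b148)
  have m587 : t47 = t58 := e586.symm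
  subst m587
  have e588 := (LP1 H i5 i11 i1 c21.symm (Lsw H i1 i5 b5) (Lsw H i1 i11 b32) b154).symm.trans (Lsw H i5 i13 b146)
  have m589 : t46 = t49 := e588.symm
  subst m589
  have c590 := Lco i22 i13 (LP1 H i13 i6 i5 c101.symm (Lsw H i5 i13 b146) (Lsw H i5 i6 b41) (k_one i46 i6 c538))
  have c591 := Lco i22 i20 (LP1 H i20 i6 i5 c77.symm (Lsw H i5 i20 b149) (Lsw H i5 i6 b41) (k_one i46 i6 c538))
  have c592 := Lck c295.symm c473 b152
  have c593 := Lck c330.symm c474 b152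
  have c594 := Lco i20 i13 (LP1 H i13 i7 i4 c106.symm (Lsw H i4 i13 b141) (Lsw H i4 i7 b39) (k_one i41 i7 c534))
  have c595 := Lck c280 c473 b154
  have c596 := Lck c316 c474 b154
  have c597 := Lck c267.symm c449 b155
  have c598 := Lck c268.symm c461 b156
  have c599 := Lck c345.symm c415.symm b155
  have c600 := Lck c313.symm c409.symm b156
  have c601 := Lck c241 c461 b158
  have c602 := LP2 H i12 i15 i4 c69 b560 (Lsw H i4 i15 b142)
  have c603 := LP2 H i14 i18 i4 c117 b543 (Lsw H i4 i18 b143)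
  have c604 := LP2 H i14 i20 i3 c81 b521 (Lsw H i3 i20 b139)
  have c605 := LP2 H i15 i18 i1 c496 (Lsw H i1 i15 b124) (Lsw H i1 i18 b126)
  have c606 := LP2 H i15 i18 i4 c496 (Lsw H i4 i15 b142) (Lsw H i4 i18 b143)
  have c608 := LP2 H i15 i23 i4 c497 (Lsw H i4 i15 b142) (Lsw H i4 i23 b145)
  have q611 : Rl [t13, t20, t22, t28, t41, t46] := LJ H i1 i4 i5 b4 b5 b9 b32 b39 b41 (Lsw H i7 i6 b524) b152 b154
  have c612 := LP2 H i2 i4 i12 hbd b131 (Lsw H i12 i4 b560)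
  have c613 := LP2 H i3 i4 i14 hcd (Lsw H i14 i3 b521) (Lsw H i14 i4 b543)
  have c614 := Lck c538 c428.symm b150
  have c617 := Lck c427.symm c448.symm b154
  have c619 := LP2 H i13 i20 i2 c594.symm (Lsw H i2 i13 b132) (Lsw H i2 i20 b134)
  have c620 := LP2 H i13 i20 i3 c594.symm (Lsw H i3 i13 b137) (Lsw H i3 i20 b139)
  have c621 := LP2 H i13 i22 i2 c590.symm (Lsw H i2 i13 b132) (Lsw H i2 i22 b135)
  obtain ⟨t59, b625⟩ : ∃ t, k a t33 = t := ⟨_, rfl⟩
  have i59 := Linv H i1 i33 b625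
  obtain ⟨t60, b626⟩ : ∃ t, k a t34 = t := ⟨_, rfl⟩
  have i60 := Linv H i1 i34 b626
  obtain ⟨t61, b627⟩ : ∃ t, k a t35 = t := ⟨_, rfl⟩
  have i61 := Linv H i1 i35 b627
  obtain ⟨t62, b628⟩ : ∃ t, k a t38 = t := ⟨_, rfl⟩
  have i62 := Linv H i1 i38 b628
  obtain ⟨t63, b629⟩ : ∃ t, k a t39 = t := ⟨_, rfl⟩
  have i63 := Linv H i1 i39 b629
  obtain ⟨t64, b630⟩ : ∃ t, k a t40 = t := ⟨_, rfl⟩
  have i64 := Linv H i1 i40 b630
  obtain ⟨t65, b631⟩ : ∃ t, k a t45 = t := ⟨_, rfl⟩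
  have i65 := Linv H i1 i45 b631
  obtain ⟨t66, b632⟩ : ∃ t, k a t47 = t := ⟨_, rfl⟩
  have i66 := Linv H i1 i47 b632
  obtain ⟨t67, b633⟩ : ∃ t, k b t26 = t := ⟨_, rfl⟩
  have i67 := Linv H i2 i26 b633
  obtain ⟨t68, b634⟩ : ∃ t, k b t27 = t := ⟨_, rfl⟩
  have i68 := Linv H i2 i27 b634
  obtain ⟨t69, b635⟩ : ∃ t, k b t28 = t := ⟨_, rfl⟩
  have i69 := Linv H i2 i28 b635
  obtain ⟨t70, b636⟩ : ∃ t, k b t30 = t := ⟨_, rfl⟩
  have i70 := Linv H i2 i30 b636
  obtain ⟨t71, b637⟩ : ∃ t, k b t38 = t := ⟨_, rfl⟩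
  have i71 := Linv H i2 i38 b637
  obtain ⟨t72, b638⟩ : ∃ t, k b t39 = t := ⟨_, rfl⟩
  have i72 := Linv H i2 i39 b638
  obtain ⟨t73, b639⟩ : ∃ t, k b t40 = t := ⟨_, rfl⟩
  have i73 := Linv H i2 i40 b639
  obtain ⟨t74, b640⟩ : ∃ t, k b t41 = t := ⟨_, rfl⟩
  have i74 := Linv H i2 i41 b640
  obtain ⟨t75, b641⟩ : ∃ t, k b t45 = t := ⟨_, rfl⟩
  have i75 := Linv H i2 i45 b641
  obtain ⟨t76, b642⟩ : ∃ t, k b t46 = t := ⟨_, rfl⟩
  have i76 := Linv H i2 i46 b642
  obtain ⟨t77, b643⟩ : ∃ t, k c t24 = t := ⟨_, rfl⟩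
  have i77 := Linv H i3 i24 b643
  obtain ⟨t78, b644⟩ : ∃ t, k c t25 = t := ⟨_, rfl⟩
  have i78 := Linv H i3 i25 b644
  obtain ⟨t79, b645⟩ : ∃ t, k c t30 = t := ⟨_, rfl⟩
  have i79 := Linv H i3 i30 b645
  obtain ⟨t80, b646⟩ : ∃ t, k c t33 = t := ⟨_, rfl⟩
  have i80 := Linv H i3 i33 b646
  obtain ⟨t81, b647⟩ : ∃ t, k c t34 = t := ⟨_, rfl⟩
  have i81 := Linv H i3 i34 b647
  obtain ⟨t82, b648⟩ : ∃ t, k c t35 = t := ⟨_, rfl⟩
  have i82 := Linv H i3 i35 b648
  obtain ⟨t83, b649⟩ : ∃ t, k c t41 = t := ⟨_, rfl⟩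
  have i83 := Linv H i3 i41 b649
  obtain ⟨t84, b650⟩ : ∃ t, k c t46 = t := ⟨_, rfl⟩
  have i84 := Linv H i3 i46 b650
  obtain ⟨t85, b651⟩ : ∃ t, k d t24 = t := ⟨_, rfl⟩
  have i85 := Linv H i4 i24 b651
  obtain ⟨t86, b652⟩ : ∃ t, k d t25 = t := ⟨_, rfl⟩
  have i86 := Linv H i4 i25 b652
  obtain ⟨t87, b653⟩ : ∃ t, k d t26 = t := ⟨_, rfl⟩
  have i87 := Linv H i4 i26 b653
  obtain ⟨t88, b654⟩ : ∃ t, k d t30 = t := ⟨_, rfl⟩
  have i88 := Linv H i4 i30 b654
  obtain ⟨t89, b655⟩ : ∃ t, k d t35 = t := ⟨_, rfl⟩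
  have i89 := Linv H i4 i35 b655
  obtain ⟨t90, b656⟩ : ∃ t, k d t40 = t := ⟨_, rfl⟩
  have i90 := Linv H i4 i40 b656
  obtain ⟨t91, b657⟩ : ∃ t, k d t47 = t := ⟨_, rfl⟩
  have i91 := Linv H i4 i47 b657
  obtain ⟨t92, b658⟩ : ∃ t, k e t24 = t := ⟨_, rfl⟩
  have i92 := Linv H i5 i24 b658
  obtain ⟨t93, b659⟩ : ∃ t, k e t25 = t := ⟨_, rfl⟩
  have i93 := Linv H i5 i25 b659
  obtain ⟨t94, b660⟩ : ∃ t, k e t26 = t := ⟨_, rfl⟩
  have i94 := Linv H i5 i26 b660
  obtain ⟨t95, b661⟩ : ∃ t, k e t27 = t := ⟨_, rfl⟩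
  have i95 := Linv H i5 i27 b661
  obtain ⟨t96, b662⟩ : ∃ t, k e t33 = t := ⟨_, rfl⟩
  have i96 := Linv H i5 i33 b662
  obtain ⟨t97, b663⟩ : ∃ t, k e t34 = t := ⟨_, rfl⟩
  have i97 := Linv H i5 i34 b663
  obtain ⟨t98, b664⟩ : ∃ t, k e t38 = t := ⟨_, rfl⟩
  have i98 := Linv H i5 i38 b664
  obtain ⟨t99, b665⟩ : ∃ t, k e t39 = t := ⟨_, rfl⟩
  have i99 := Linv H i5 i39 b665
  obtain ⟨t100, b666⟩ : ∃ t, k t6 t12 = t := ⟨_, rfl⟩
  have i100 := Linv H i6 i12 b666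
  obtain ⟨t101, b667⟩ : ∃ t, k t6 t15 = t := ⟨_, rfl⟩
  have i101 := Linv H i6 i15 b667
  obtain ⟨t102, b668⟩ : ∃ t, k t6 t16 = t := ⟨_, rfl⟩
  have i102 := Linv H i6 i16 b668
  obtain ⟨t103, b669⟩ : ∃ t, k t6 t23 = t := ⟨_, rfl⟩
  have i103 := Linv H i6 i23 b669
  obtain ⟨t104, b670⟩ : ∃ t, k t7 t15 = t := ⟨_, rfl⟩
  have i104 := Linv H i7 i15 b670
  obtain ⟨t105, b671⟩ : ∃ t, k t7 t16 = t := ⟨_, rfl⟩
  have i105 := Linv H i7 i16 b671
  obtain ⟨t106, b672⟩ : ∃ t, k t7 t19 = t := ⟨_, rfl⟩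
  have i106 := Linv H i7 i19 b672
  obtain ⟨t107, b673⟩ : ∃ t, k t8 t12 = t := ⟨_, rfl⟩
  have i107 := Linv H i8 i12 b673
  obtain ⟨t108, b674⟩ : ∃ t, k t8 t13 = t := ⟨_, rfl⟩
  have i108 := Linv H i8 i13 b674
  obtain ⟨t109, b675⟩ : ∃ t, k t8 t19 = t := ⟨_, rfl⟩
  have i109 := Linv H i8 i19 b675
  obtain ⟨t110, b676⟩ : ∃ t, k t8 t20 = t := ⟨_, rfl⟩
  have i110 := Linv H i8 i20 b676
  obtain ⟨t111, b677⟩ : ∃ t, k t8 t22 = t := ⟨_, rfl⟩
  have i111 := Linv H i8 i22 b677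
  obtain ⟨t112, b678⟩ : ∃ t, k t9 t12 = t := ⟨_, rfl⟩
  have i112 := Linv H i9 i12 b678
  obtain ⟨t113, b679⟩ : ∃ t, k t9 t19 = t := ⟨_, rfl⟩
  have i113 := Linv H i9 i19 b679
  obtain ⟨t114, b680⟩ : ∃ t, k t10 t13 = t := ⟨_, rfl⟩
  have i114 := Linv H i10 i13 b680
  obtain ⟨t115, b681⟩ : ∃ t, k t10 t16 = t := ⟨_, rfl⟩
  have i115 := Linv H i10 i16 b681
  obtain ⟨t116, b682⟩ : ∃ t, k t10 t20 = t := ⟨_, rfl⟩
  have i116 := Linv H i10 i20 b682
  obtain ⟨t117, b683⟩ : ∃ t, k t11 t12 = t := ⟨_, rfl⟩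
  have i117 := Linv H i11 i12 b683
  obtain ⟨t118, b684⟩ : ∃ t, k t11 t15 = t := ⟨_, rfl⟩
  have i118 := Linv H i11 i15 b684
  obtain ⟨t119, b685⟩ : ∃ t, k t11 t18 = t := ⟨_, rfl⟩
  have i119 := Linv H i11 i18 b685
  have c686 := Lkl H i1 i33 b625
  have c688 := Lkl H i1 i34 b626
  have c692 := Lkl H i1 i38 b628
  have c694 := Lkl H i1 i39 b629
  have c698 := Lkl H i1 i45 b631
  have c700 := Lkl H i1 i47 b632
  have c702 := Lkl H i2 i26 b633
  have c710 := Lkl H i2 i38 b637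
  have c712 := Lkl H i2 i39 b638
  have c714 := Lkl H i2 i40 b639
  have c716 := Lkl H i2 i41 b640
  have c720 := Lkl H i2 i46 b642
  have c722 := Lkl H i3 i24 b643
  have c723 := Lkr H i3 i24 b643
  have c728 := Lkl H i3 i33 b646
  have c729 := Lkr H i3 i33 b646
  have c730 := Lkl H i3 i34 b647
  have c732 := Lkl H i3 i35 b648
  have c734 := Lkl H i3 i41 b649
  have c736 := Lkl H i3 i46 b650
  have c744 := Lkl H i4 i30 b654
  have c750 := Lkl H i4 i47 b657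
  have c752 := Lkl H i5 i24 b658
  have c754 := Lkl H i5 i25 b659
  have c758 := Lkl H i5 i27 b661
  have c759 := Lkr H i5 i27 b661
  have c760 := Lkl H i5 i33 b662
  have c761 := Lkr H i5 i33 b662
  have c808 := LP3 H i1 i2 i18 hab b126 (Lsw H i2 i26 b633)
  have c810 := LP3 H i2 i1 i19 hab.symm b133 (Lsw H i1 i33 b625)
  have c812 := LP3 H i2 i1 i20 hab.symm b134 (Lsw H i1 i34 b626)
  have c816 := Lck hab c163.symm b633
  have c820 := Lck hab.symm c177.symm b625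
  have c821 := Lck hab.symm c179.symm b626
  have c823 := LP2 H i1 i2 i38 hab b628 b637
  have c826 := Lck hab c364.symm b640
  have c827 := LP2 H i1 i2 i45 hab b631 b641
  have c828 := Lck hab c395.symm b642
  have c829 := Lck hab.symm c390.symm b632
  have c830 := LP3 H i1 i3 i15 hac b124 (Lsw H i3 i24 b643)
  have c832 := LP3 H i3 i1 i16 hac.symm b138 (Lsw H i1 i38 b628)
  have c836 := Lck hac c159.symm b643
  have c839 := LP2 H i1 i3 i33 hac b625 b646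
  have c842 := Lck hac.symm c187.symm b628
  have c843 := Lck hac.symm c189.symm b629
  have c845 := Lck hac c364.symm b649
  have c846 := Lck hac c395.symm b650
  have c847 := Lck hac.symm c384.symm b632
  have c850 := LP3 H i6 i1 i10 c10 b151 (Lsw H i1 i40 b630)
  have c854 := LP2 H i1 i6 i23 c10.symm b130 b669
  have c855 := Lck c10 c295 b626
  have c862 := Lck c12 c280.symm b626
  have c864 := Lck c12 c427 b632
  have c873 := Lck c22.symm c345 b625
  have c874 := Lck c22.symm c313 b628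
  have c876 := Lck c22.symm c551.symm b632
  have c878 := LP3 H i12 i1 i4 c43 b560 (Lsw H i1 i39 b629)
  have c885 := Lck c45 c266 b631
  have c886 := LP3 H i14 i1 i4 c68.symm b543 (Lsw H i1 i34 b626)
  have c891 := LP2 H i1 i24 i5 c159.symm b5 (Lsw H i5 i24 b658)
  have c892 := Lck c159 c481 b626
  have c893 := Lck c159 c612 b629
  have c903 := Lck c163 c613 b626
  have c904 := Lck c163 c604 b629
  have c906 := LP2 H i1 i27 i5 c165.symm b5 (Lsw H i5 i27 b661)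
  have c908 := Lck c165 c482 b628
  have c911 := Lck c167 c238 b626
  have c915 := LP2 H i1 i30 i4 c171.symm b4 (Lsw H i4 i30 b654)
  have c917 := Lck c364 c592.symm b626
  have c921 := Lck c364 c494 b631
  have c922 := Lck c395 c595.symm b626
  have c926 := Lck c395 c583 b631
  have c927 := Lck c395 c617.symm b632
  have c929 := LP3 H i4 i2 i12 hbd.symm (Lsw H i12 i4 b560) (Lsw H i2 i39 b638)
  have c938 := LP2 H i2 i4 i26 hbd b633 b653
  have c942 := Lck hbd.symm c320 b637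
  have c943 := Lck hbd.symm c322 b638
  have c944 := LP2 H i2 i4 i40 hbd b639 b656
  have c945 := Lck hbd.symm c193.symm b640
  have c947 := Lck hbd.symm c379.symm b642
  have c948 := Lck hbd c390.symm b657
  have c953 := LP3 H i6 i2 i11 c23.symm b152 (Lsw H i2 i41 b640)
  have c960 := Lck c23.symm c330 b638
  have c964 := LP3 H i8 i2 i7 c14 (Lsw H i7 i8 b153) (Lsw H i2 i30 b636)
  have c965 := LP3 H i8 i2 i11 c14 b157 (Lsw H i2 i45 b641)
  have c973 := Lck c14 c313 b637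
  have c976 := LP2 H i2 i9 i19 c16.symm b133 b679
  have c977 := Lck c16 c241.symm b633
  have c979 := Lck c16 c428 b642
  have c980 := LP3 H i14 i2 i3 c47 b521 (Lsw H i2 i26 b633)
  have c987 := Lck c49 c292 b639
  have c988 := LP3 H i16 i2 i3 c51 (Lsw H i3 i16 b138) (Lsw H i2 i38 b637)
  have c1002 := LP2 H i2 i25 i5 c236 b7 (Lsw H i5 i25 b659)
  have c1003 := Lck c236.symm c486 b633
  have c1005 := Lck c236.symm c245 b637
  have c1007 := Lck c236.symm c531.symm b642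
  have c1008 := LP2 H i2 i33 i3 c177.symm b6 (Lsw H i3 i33 b646)
  have c1009 := LP2 H i2 i33 i5 c177.symm b7 (Lsw H i5 i33 b662)
  have c1011 := Lck c177 c606 b637
  have c1012 := Lck c177 c602.symm b638
  have c1014 := LP2 H i2 i34 i3 c179.symm b6 (Lsw H i3 i34 b647)
  have c1016 := Lck c179 c613.symm b633
  have c1018 := Lck c179 c603 b637
  have c1021 := LP2 H i2 i35 i3 c181.symm b6 (Lsw H i3 i35 b648)
  have c1025 := Lck c183 c520.symm b633
  have c1029 := Lck c390 c601.symm b633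
  have c1032 := Lck c390 c571 b639
  have c1034 := Lck c390 c617 b642
  have c1035 := Lck c337 c598.symm b633
  have c1038 := Lck c337 c421.symm b639
  have c1042 := LP3 H i4 i3 i14 hcd.symm (Lsw H i14 i4 b543) (Lsw H i3 i34 b647)
  have c1043 := LP3 H i4 i3 i15 hcd.symm b142 (Lsw H i3 i33 b646)
  have c1046 := LP2 H i3 i4 i24 hcd b643 b651
  have c1050 := Lck hcd.symm c285 b646
  have c1051 := Lck hcd.symm c286 b647
  have c1054 := Lck hcd.symm c193.symm b649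
  have c1055 := Lck hcd.symm c379.symm b650
  have c1056 := Lck hcd c384.symm b657
  have c1065 := Lck c25.symm c295 b647
  have c1066 := Lck c25.symm c296 b648
  have c1070 := LP3 H i8 i3 i7 c15 (Lsw H i7 i8 b153) (Lsw H i3 i30 b645)
  have c1071 := LP3 H i3 i8 i11 c15.symm b38 (Lsw H i8 i19 b675)
  have c1081 := Lck c18 c230.symm b643
  have c1085 := LP3 H i12 i3 i2 c74.symm (Lsw H i2 i12 b131) (Lsw H i3 i24 b643)
  have c1092 := Lck c55 c326 b648
  have c1094 := LP3 H i19 i3 i2 c57 (Lsw H i2 i19 b133) (Lsw H i3 i33 b646)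
  have c1104 := Lck c246.symm c613 b647
  have c1106 := LP2 H i3 i27 i5 c247 b8 (Lsw H i5 i27 b661)
  have c1107 := Lck c247.symm c485.symm b643
  have c1108 := Lck c247.symm c237 b646
  have c1109 := Lck c247.symm c319 b649
  have c1111 := Lck c304 c597.symm b643
  have c1114 := Lck c304 c493.symm b648
  have c1117 := Lck c187 c606.symm b646
  have c1119 := LP2 H i3 i39 i2 c189.symm (Lsw H i2 i3 b6) (Lsw H i2 i39 b638)
  have c1121 := Lck c189 c612.symm b643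
  have c1122 := Lck c189 c602 b646
  have c1123 := Lck c189 c593 b649
  have c1125 := LP2 H i3 i40 i2 c191.symm (Lsw H i2 i3 b6) (Lsw H i2 i40 b639)
  have c1128 := Lck c384 c552 b643
  have c1131 := Lck c384 c559 b648
  have c1132 := Lck c384 c617 b650
  have c1133 := Lck c335.symm c555 b643
  have c1142 := LP2 H i4 i6 i23 c11.symm b145 b669
  have c1156 := Lck c27.symm c551.symm b657
  have c1172 := Lck c93.symm c417 b657
  have c1174 := Lck c59 c356 b654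
  have c1176 := Lck c256 c492 b654
  have c1179 := LP2 H i4 i33 i1 c285 (Lsw H i1 i4 b4) (Lsw H i1 i33 b625)
  have c1180 := LP2 H i4 i33 i5 c285 b9 (Lsw H i5 i33 b662)
  have c1188 := LP2 H i4 i38 i1 c320 (Lsw H i1 i4 b4) (Lsw H i1 i38 b628)
  have c1190 := Lck c320.symm c245.symm b652
  have c1199 := LP2 H i4 i45 i1 c201.symm (Lsw H i1 i4 b4) (Lsw H i1 i45 b631)
  have c1202 := Lck c379 c542 b654
  have c1205 := Lck c379 c617.symm b657
  have c1224 := Lck c21 c243.symm b661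
  have c1225 := LP3 H i5 i12 i2 c72.symm (Lsw H i2 i5 b7) b678
  have c1226 := LP3 H i12 i5 i2 c72 (Lsw H i2 i12 b131) (Lsw H i5 i24 b658)
  have c1227 := LP3 H i5 i12 i4 c72.symm (Lsw H i4 i5 b9) b683
  have c1236 := LP3 H i14 i5 i4 c67 b543 (Lsw H i5 i34 b663)
  have c1241 := LP3 H i5 i16 i1 c80.symm (Lsw H i1 i5 b5) b671
  have c1242 := LP3 H i16 i5 i1 c80 (Lsw H i1 i16 b125) (Lsw H i5 i25 b659)
  have c1243 := LP3 H i5 i16 i3 c80.symm (Lsw H i3 i5 b8) b681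
  have c1250 := LP3 H i5 i19 i1 c90.symm (Lsw H i1 i5 b5) b672
  have c1251 := LP3 H i19 i5 i1 c90 (Lsw H i1 i19 b127) (Lsw H i5 i27 b661)
  have c1252 := LP3 H i5 i19 i2 c90.symm (Lsw H i2 i5 b7) b679
  have c1253 := LP3 H i19 i5 i2 c90 (Lsw H i2 i19 b133) (Lsw H i5 i33 b662)
  have c1256 := Lck c90 c178.symm b662
  have c1261 := LP2 H i5 i28 i2 c250.symm (Lsw H i2 i5 b7) (Lsw H i2 i28 b635)
  have c1268 := LP2 H i5 i30 i4 c263.symm (Lsw H i4 i5 b9) (Lsw H i4 i30 b654)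
  have c1272 := LP2 H i5 i35 i3 c290.symm (Lsw H i3 i5 b8) (Lsw H i3 i35 b648)
  have c1274 := Lck c290 c621.symm b659
  have c1278 := Lck c298 c599.symm b662
  have c1285 := LP2 H i5 i41 i2 c349.symm (Lsw H i2 i5 b7) (Lsw H i2 i41 b640)
  have c1286 := LP2 H i5 i41 i3 c349.symm (Lsw H i3 i5 b8) (Lsw H i3 i41 b649)
  have c1293 := Lck c355 c608.symm b662
  have c1295 := Lco i76 i5 (LP1 H i5 i46 i2 c203.symm (Lsw H i2 i5 b7) (Lsw H i2 i46 b642) (k_one i9 i46 c428))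
  have c1296 := Lco i84 i5 (LP1 H i5 i46 i3 c203.symm (Lsw H i3 i5 b8) (Lsw H i3 i46 b650) (k_one i10 i46 c430))
  have c1301 := Lco i66 i5 (LP1 H i5 i47 i1 c205.symm (Lsw H i1 i5 b5) (Lsw H i1 i47 b632) (k_one i7 i47 c427))
  have c1302 := Lco i91 i5 (LP1 H i5 i47 i4 c205.symm (Lsw H i4 i5 b9) (Lsw H i4 i47 b657) (k_one i11 i47 c448))
  have c1305 := Lck c205 c554 b662
  have c1312 := LP3 H i8 i6 i5 c30 (Lsw H i5 i8 b42) (Lsw H i6 i23 b669)
  have c1313 := LP2 H i6 i8 i12 c30.symm b666 b673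
  have c1340 := LP3 H i7 i9 i3 c24 (Lsw H i3 i7 b36) (Lsw H i9 i12 b678)
  have c1341 := LP3 H i9 i7 i4 c24.symm b118 (Lsw H i7 i16 b671)
  have c1348 := LP3 H i10 i7 i4 c26.symm (Lsw H i4 i10 b40) (Lsw H i7 i19 b672)
  have c1369 := LP2 H i7 i39 i2 c316.symm (Lsw H i2 i7 b33) (Lsw H i2 i39 b638)
  have c1379 := LP2 H i7 i47 i4 c427 (Lsw H i4 i7 b39) (Lsw H i4 i47 b657)
  have c1380 := Lck c427.symm c411.symm b671
  have c1381 := Lck c427.symm c417.symm b672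
  have c1404 := LP3 H i11 i9 i3 c28.symm (Lsw H i3 i11 b38) (Lsw H i9 i19 b679)
  have c1414 := LP2 H i9 i23 i6 c85 (Lsw H i6 i9 b150) (Lsw H i6 i23 b669)
  have c1415 := LP2 H i9 i24 i3 c449.symm (Lsw H i3 i9 b37) (Lsw H i3 i24 b643)
  have c1419 := LP2 H i9 i33 i1 c415 b114 (Lsw H i1 i33 b625)
  have c1420 := LP2 H i9 i33 i3 c415 (Lsw H i3 i9 b37) (Lsw H i3 i33 b646)
  have c1421 := LP2 H i9 i38 i1 c318.symm b114 (Lsw H i1 i38 b628)
  have c1422 := Lck c318 c470.symm b679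
  have c1423 := LP2 H i9 i46 i3 c428 (Lsw H i3 i9 b37) (Lsw H i3 i46 b650)
  have c1424 := Lck c428.symm c400.symm b678
  have c1425 := Lck c428.symm c416.symm b679
  have c1432 := LP3 H i10 i11 i1 c29 (Lsw H i1 i10 b31) (Lsw H i11 i12 b683)
  have c1435 := LP3 H i11 i10 i2 c29.symm (Lsw H i2 i11 b35) (Lsw H i10 i16 b681)
  have c1450 := LP2 H i10 i23 i6 c95 (Lsw H i6 i10 b151) (Lsw H i6 i23 b669)
  have c1452 := LP2 H i10 i26 i2 c461.symm (Lsw H i2 i10 b34) (Lsw H i2 i26 b633)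
  have c1454 := LP2 H i10 i33 i1 c282.symm (Lsw H i1 i10 b31) (Lsw H i1 i33 b625)
  have c1457 := LP2 H i10 i38 i1 c409 (Lsw H i1 i10 b31) (Lsw H i1 i38 b628)
  have c1458 := LP2 H i10 i38 i2 c409 (Lsw H i2 i10 b34) (Lsw H i2 i38 b637)
  have c1459 := LP2 H i10 i46 i2 c430 (Lsw H i2 i10 b34) (Lsw H i2 i46 b642)
  have c1478 := LP2 H i11 i34 i1 c473.symm (Lsw H i1 i11 b32) (Lsw H i1 i34 b626)
  have c1479 := LP2 H i11 i34 i3 c473.symm (Lsw H i3 i11 b38) (Lsw H i3 i34 b647)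
  have c1481 := LP2 H i11 i39 i2 c474.symm (Lsw H i2 i11 b35) (Lsw H i2 i39 b638)
  have c1484 := LP2 H i11 i47 i1 c448 (Lsw H i1 i11 b32) (Lsw H i1 i47 b632)
  have c1502 := LP2 H i13 i19 i8 c75 (Lsw H i8 i13 b674) (Lsw H i8 i19 b675)
  have c1507 := Lco i93 i13 (LP1 H i13 i25 i5 c275 (Lsw H i5 i13 b146) (Lsw H i5 i25 b659) (k_one i46 i25 c531))
  have c1513 := LP2 H i13 i30 i4 c478 (Lsw H i4 i13 b141) (Lsw H i4 i30 b654)
  have c1533 := Lco i92 i15 (LP1 H i15 i24 i5 c160.symm (Lsw H i5 i15 b147) (Lsw H i5 i24 b658) (k_one i47 i24 c552))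
  have c1534 := LP2 H i15 i33 i1 c312 (Lsw H i1 i15 b124) (Lsw H i1 i33 b625)
  have c1537 := LP2 H i15 i35 i3 c465 b566 (Lsw H i3 i35 b648)
  have c1540 := LP2 H i15 i40 i4 c292 (Lsw H i4 i15 b142) (Lsw H i4 i40 b656)
  have c1544 := Lco i59 i16 (LP1 H i16 i33 i1 c471 (Lsw H i1 i16 b125) (Lsw H i1 i33 b625) (k_one i25 i33 c483))
  have c1547 := Lco i81 i16 (LP1 H i16 i34 i3 c315 (Lsw H i3 i16 b138) (Lsw H i3 i34 b647) (k_one i38 i34 c603.symm))
  have c1549 := LP2 H i16 i35 i3 c476 (Lsw H i3 i16 b138) (Lsw H i3 i35 b648)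
  have c1550 := LP2 H i16 i41 i3 c370 (Lsw H i3 i16 b138) (Lsw H i3 i41 b649)
  have c1551 := LP2 H i16 i45 i1 c457 (Lsw H i1 i16 b125) (Lsw H i1 i45 b631)
  have c1561 := LP2 H i18 i40 i2 c453 b504 (Lsw H i2 i40 b639)
  have c1566 := Lco i62 i19 (LP1 H i19 i38 i1 c470 (Lsw H i1 i19 b127) (Lsw H i1 i38 b628) (k_one i27 i38 c482))
  have c1569 := Lco i72 i19 (LP1 H i19 i39 i2 c347 (Lsw H i2 i19 b133) (Lsw H i2 i39 b638) (k_one i33 i39 c602.symm))
  have c1571 := LP2 H i19 i40 i2 c477 (Lsw H i2 i19 b133) (Lsw H i2 i40 b639)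
  have c1572 := LP2 H i19 i41 i2 c374 (Lsw H i2 i19 b133) (Lsw H i2 i41 b640)
  have c1573 := LP2 H i19 i45 i1 c469 (Lsw H i1 i19 b127) (Lsw H i1 i45 b631)
  have c1585 := Lco i83 i20 (LP1 H i20 i41 i3 c434 (Lsw H i3 i20 b139) (Lsw H i3 i41 b649) (k_one i39 i41 c593))
  have c1586 := LP2 H i20 i45 i1 c440 (Lsw H i1 i20 b128) (Lsw H i1 i45 b631)
  have c1594 := LP2 H i22 i47 i1 c455 (Lsw H i1 i22 b129) (Lsw H i1 i47 b632)
  have c1595 := LP2 H i22 i47 i4 c455 (Lsw H i4 i22 b144) (Lsw H i4 i47 b657)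
  have c1598 := LP2 H i23 i46 i2 c441 (Lsw H i2 i23 b136) (Lsw H i2 i46 b642)
  have c1599 := LP2 H i23 i46 i3 c441 b565 (Lsw H i3 i46 b650)
  have c1602 := LP2 H i24 i25 i3 c484 (Lsw H i3 i24 b643) (Lsw H i3 i25 b644)
  have c1605 := LP2 H i24 i26 i4 c605 (Lsw H i4 i24 b651) (Lsw H i4 i26 b653)
  have c1610 := LP2 H i24 i34 i3 c481 (Lsw H i3 i24 b643) (Lsw H i3 i34 b647)
  have c1613 := LP2 H i24 i47 i4 c552.symm (Lsw H i4 i24 b651) (Lsw H i4 i47 b657)
  have c1618 := LP2 H i25 i34 i3 c619 (Lsw H i3 i25 b644) (Lsw H i3 i34 b647)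
  have c1623 := LP2 H i25 i41 i3 c283 (Lsw H i3 i25 b644) (Lsw H i3 i41 b649)
  have c1624 := LP2 H i25 i46 i3 c531.symm (Lsw H i3 i25 b644) (Lsw H i3 i46 b650)
  have c1625 := LP2 H i26 i27 i2 c489 (Lsw H i2 i26 b633) (Lsw H i2 i27 b634)
  have c1632 := LP2 H i26 i47 i4 c601 (Lsw H i4 i26 b653) (Lsw H i4 i47 b657)
  have c1634 := LP2 H i27 i33 i5 c237 (Lsw H i5 i27 b661) (Lsw H i5 i33 b662)
  have c1635 := LP2 H i27 i38 i2 c482 (Lsw H i2 i27 b634) (Lsw H i2 i38 b637)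
  have c1637 := LP2 H i27 i39 i2 c620 (Lsw H i2 i27 b634) (Lsw H i2 i39 b638)
  have c1640 := LP2 H i27 i41 i2 c319 (Lsw H i2 i27 b634) (Lsw H i2 i41 b640)
  have c1642 := LP2 H i28 i30 i2 c492 (Lsw H i2 i28 b635) (Lsw H i2 i30 b636)
  have c1643 := LP2 H i28 i39 i2 c248 (Lsw H i2 i28 b635) (Lsw H i2 i39 b638)
  have c1648 := LP2 H i30 i46 i3 c542.symm (Lsw H i3 i30 b645) (Lsw H i3 i46 b650)
  have c1651 := LP2 H i33 i34 i3 c491 (Lsw H i3 i33 b646) (Lsw H i3 i34 b647)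
  have c1653 := LP2 H i33 i38 i1 c606 (Lsw H i1 i33 b625) (Lsw H i1 i38 b628)
  have c1658 := LP2 H i33 i47 i1 c554.symm (Lsw H i1 i33 b625) (Lsw H i1 i47 b632)
  have c1661 := LP2 H i34 i38 i1 c603 (Lsw H i1 i34 b626) (Lsw H i1 i38 b628)
  have c1663 := LP2 H i34 i41 i3 c592 (Lsw H i3 i34 b647) (Lsw H i3 i41 b649)
  have c1664 := LP2 H i34 i46 i3 c595 (Lsw H i3 i34 b647) (Lsw H i3 i46 b650)
  have c1667 := LP2 H i35 i47 i1 c559.symm (Lsw H i1 i35 b627) (Lsw H i1 i47 b632)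
  have c1668 := LP2 H i35 i47 i4 c559.symm (Lsw H i4 i35 b655) (Lsw H i4 i47 b657)
  have c1669 := LP2 H i38 i39 i1 c488 (Lsw H i1 i38 b628) (Lsw H i1 i39 b629)
  have c1674 := LP2 H i38 i47 i1 c567.symm (Lsw H i1 i38 b628) (Lsw H i1 i47 b632)
  have c1677 := LP2 H i39 i41 i2 c593 (Lsw H i2 i39 b638) (Lsw H i2 i41 b640)
  have c1678 := LP2 H i39 i46 i2 c596 (Lsw H i2 i39 b638) (Lsw H i2 i46 b642)
  have c1681 := LP2 H i40 i47 i1 c571.symm (Lsw H i1 i40 b630) (Lsw H i1 i47 b632)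
  have c1682 := LP2 H i40 i47 i4 c571.symm (Lsw H i4 i40 b656) (Lsw H i4 i47 b657)
  have c1683 := LP2 H i41 i45 i2 c494 (Lsw H i2 i41 b640) (Lsw H i2 i45 b641)
  have q1688 : Rl [t22, t13, t20, t28, t41, t46] := q611.mv 2 rfl
  have c1689 := q1688.l1 (.cons c1478 (.cons c812.symm (.cons c911 (.cons c917 (.cons c922 .nil)))))
  have q1704 : Rl [t23, t15, t18, t36, t56, t47] := q495.mv 2 rfl
  have c1705 := q1704.l1 (.cons c1452 (.cons c808.symm (.cons c1025 (.cons c1035 (.cons c1029 .nil)))))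
  have q1708 : Rl [t23, t15, t18, t36, t56, t47] := q495.mv 2 rfl
  have c1709 := q1708.l1 (.cons c830.symm (.cons c1415 (.cons c1111 (.cons c1133 (.cons c1128 .nil)))))
  have b1722 := LP1 H i1 i2 i18 hab b126 (Lsw H i18 i2 b504) (Lsw H i2 i26 b633)
  have e1723 := (LP1 H i1 i2 i19 hab b127 b133 (Lsw H i2 i27 b634)).symm.trans (Lsw H i1 i33 b625)
  have m1724 : t59 = t68 := e1723.symm
  subst m1724
  have e1725 := (LP1 H i1 i2 i20 hab b128 b134 (Lsw H i2 i28 b635)).symm.trans (Lsw H i1 i34 b626)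
  have m1726 : t60 = t69 := e1725.symm
  subst m1726
  have e1727 := (LP1 H i1 i2 i22 hab b129 b135 (Lsw H i2 i28 b635)).symm.trans (Lsw H i1 i35 b627)
  have m1728 : t60 = t61 := e1727
  subst m1728
  have e1729 := (LP1 H i1 i2 i23 hab b130 b136 (Lsw H i2 i30 b636)).symm.trans b1722
  have m1730 : t67 = t70 := e1729.symm
  subst m1730
  have b1731 := LP1 H i1 i3 i15 hac b124 (Lsw H i15 i3 b566) (Lsw H i3 i24 b643)
  have e1732 := (LP1 H i1 i3 i16 hac b125 b138 (Lsw H i3 i25 b644)).symm.trans (Lsw H i1 i38 b628)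
  have m1733 : t62 = t78 := e1732.symm
  subst m1733
  have b1734 := LP1 H i3 i1 i20 hac.symm b139 b128 (Lsw H i1 i39 b629)
  have e1735 := (LP1 H i1 i3 i22 hac b129 b140 b1734).symm.trans (Lsw H i1 i40 b630)
  have m1736 : t63 = t64 := e1735
  subst m1736
  have e1737 := (LP1 H i1 i3 i23 hac b130 (Lsw H i23 i3 b565) (Lsw H i3 i30 b645)).symm.trans b1731
  have m1738 : t77 = t79 := e1737.symm
  subst m1738
  have b1739 := LP1 H i6 i1 i9 c10 b150 (Lsw H i9 i1 b114) (Lsw H i1 i35 b627)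
  have e1740 := (LP1 H i1 i6 i10 c10.symm b31 b151 (Lsw H i6 i12 b666)).symm.trans (Lsw H i1 i40 b630)
  have m1741 : t63 = t100 := e1740.symm
  subst m1741
  have b1742 := LP1 H i8 i1 i9 c22.symm b155 (Lsw H i9 i1 b114) b1722
  have e1743 := (LP1 H i1 i8 i10 c22 b31 b156 (Lsw H i8 i12 b673)).symm.trans b1731
  have m1744 : t77 = t107 := e1743.symm
  subst m1744
  have e1745 := (LP1 H i1 i8 i11 c22 b32 b157 (Lsw H i8 i13 b674)).symm.trans (Lsw H i1 i45 b631)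
  have m1746 : t65 = t108 := e1745.symm
  subst m1746
  have c1759 := Lck c1242 c1274.symm b627
  have c1764 := Lck c1241 c1341 b4
  have c1768 := Lck c1250 c1348 b4
  have c1774 := Lck c1432 c1227 b4
  have e1778 := (LP1 H i2 i4 i12 hbd b131 (Lsw H i12 i4 b560) (Lsw H i4 i24 b651)).symm.trans (Lsw H i2 i39 b638)
  have m1779 : t72 = t85 := e1778.symm
  subst m1779
  have e1780 := (LP1 H i2 i4 i13 hbd b132 b141 (Lsw H i4 i25 b652)).symm.trans (Lsw H i2 i41 b640)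
  have m1781 : t74 = t86 := e1780.symm
  subst m1781
  have b1782 := LP1 H i4 i2 i18 hbd.symm b143 (Lsw H i18 i2 b504) (Lsw H i2 i38 b637)
  have e1783 := (LP1 H i2 i4 i22 hbd b135 b144 (Lsw H i4 i35 b655)).symm.trans (Lsw H i2 i41 b640)
  have m1784 : t74 = t89 := e1783.symm
  subst m1784
  have e1785 := (LP1 H i2 i4 i23 hbd b136 b145 b1782).symm.trans (Lsw H i2 i45 b641)
  have m1786 : t71 = t75 := e1785
  subst m1786
  have e1787 := (LP1 H i2 i6 i10 c23 b34 b151 (Lsw H i6 i15 b667)).symm.trans (Lsw H i2 i40 b639)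
  have m1788 : t73 = t101 := e1787.symm
  subst m1788
  have e1789 := (LP1 H i2 i6 i11 c23 b35 b152 (Lsw H i6 i16 b668)).symm.trans (Lsw H i2 i41 b640)
  have m1790 : t74 = t102 := e1789.symm
  subst m1790
  have b1791 := LP1 H i8 i2 i11 c14 b157 b35 (Lsw H i2 i45 b641)
  have c1794 := Lck c1085 c1107.symm b634
  have c1796 := Lck c1094 c1122.symm b638
  have c1801 := Lck c1253 c1293.symm b641
  have c1807 := Lck c1225 c1340 b6
  have c1811 := Lck c1252 c1404 b6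
  have c1815 := Lck c1435 c1243 b6
  have b1821 := LP1 H i4 i3 i13 hcd.symm b141 b137 (Lsw H i3 i41 b649)
  have e1822 := (LP1 H i3 i4 i14 hcd (Lsw H i14 i3 b521) (Lsw H i14 i4 b543) (Lsw H i4 i26 b653)).symm.trans (Lsw H i3 i34 b647)
  have m1823 : t81 = t87 := e1822.symm
  subst m1823
  have b1824 := LP1 H i4 i3 i15 hcd.symm b142 (Lsw H i15 i3 b566) (Lsw H i3 i33 b646)
  have e1825 := (LP1 H i3 i4 i22 hcd b140 b144 (Lsw H i4 i40 b656)).symm.trans (Lsw H i3 i41 b649)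
  have m1826 : t83 = t90 := e1825.symm
  subst m1826
  have b1827 := LP1 H i3 i4 i23 hcd (Lsw H i23 i3 b565) b145 b1824
  have b1828 := LP1 H i6 i3 i9 c25.symm b150 b37 (Lsw H i3 i35 b648)
  have b1829 := LP1 H i6 i3 i11 c25.symm b152 b38 (Lsw H i3 i41 b649)
  have e1830 := (LP1 H i3 i8 i11 c15.symm b38 b157 (Lsw H i8 i19 b675)).symm.trans b1827
  have m1831 : t80 = t109 := e1830.symm
  subst m1831
  have c1833 := Lck c980 c1003.symm b644
  have c1834 := Lck c988 c1018.symm b647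
  have c1835 := Lck c734 c1540.symm b646
  have c1842 := Lck c1404 c976.symm b646
  have c1843 := Lck c1404 c1425.symm b650
  have e1848 := (LP1 H i4 i8 i7 c27 b39 (Lsw H i7 i8 b153) (Lsw H i8 i20 b676)).symm.trans (Lsw H i4 i30 b654)
  have m1849 : t88 = t110 := e1848.symm
  subst m1849
  have c1850 := Lck c878 c904.symm b653
  have c1857 := Lck c1348 c1381.symm b657
  have e1867 := (LP1 H i5 i12 i2 c72.symm (Lsw H i2 i5 b7) (Lsw H i2 i12 b131) b678).symm.trans (Lsw H i5 i24 b658)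
  have m1868 : t92 = t112 := e1867.symm
  subst m1868
  have e1869 := (LP1 H i5 i12 i4 c72.symm (Lsw H i4 i5 b9) b560 b683).symm.trans (Lsw H i5 i39 b665)
  have m1870 : t99 = t117 := e1869.symm
  subst m1870
  have b1871 := LP1 H i14 i5 i3 c67 b521 (Lsw H i3 i5 b8) (Lsw H i5 i26 b660)
  have b1872 := LP1 H i14 i5 i4 c67 b543 (Lsw H i4 i5 b9) (Lsw H i5 i34 b663)
  have e1873 := (LP1 H i5 i16 i1 c80.symm (Lsw H i1 i5 b5) (Lsw H i1 i16 b125) b671).symm.trans (Lsw H i5 i25 b659)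
  have m1874 : t93 = t105 := e1873.symm
  subst m1874
  have e1875 := (LP1 H i5 i16 i3 c80.symm (Lsw H i3 i5 b8) (Lsw H i3 i16 b138) b681).symm.trans (Lsw H i5 i38 b664)
  have m1876 : t98 = t115 := e1875.symm
  subst m1876
  have e1877 := (LP1 H i5 i19 i1 c90.symm (Lsw H i1 i5 b5) (Lsw H i1 i19 b127) b672).symm.trans (Lsw H i5 i27 b661)
  have m1878 : t95 = t106 := e1877.symm
  subst m1878
  have e1879 := (LP1 H i5 i19 i2 c90.symm (Lsw H i2 i5 b7) (Lsw H i2 i19 b133) b679).symm.trans (Lsw H i5 i33 b662)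
  have m1880 : t96 = t113 := e1879.symm
  subst m1880
  have c1883 := Lck c1295 c1007.symm b659
  have e1891 := (LP1 H i6 i8 i5 c30.symm (Lsw H i5 i6 b41) (Lsw H i5 i8 b42) (Lsw H i8 i22 b677)).symm.trans (Lsw H i6 i23 b669)
  have m1892 : t103 = t111 := e1891.symm
  subst m1892
  have c1893 := Lco i22 i25 (LP1 H i25 i6 i5 c369.symm (Lsw H i5 i25 b659) (Lsw H i5 i6 b41) (k_one i93 i6 c1764))
  have c1894 := Lco i22 i27 (LP1 H i27 i6 i5 c373.symm (Lsw H i5 i27 b661) (Lsw H i5 i6 b41) (k_one i95 i6 c1768))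
  have c1895 := Lco i22 i39 (LP1 H i39 i6 i5 c330.symm (Lsw H i5 i39 b665) (Lsw H i5 i6 b41) (k_one i99 i6 c1774))
  have b1896 := LP1 H i7 i9 i3 c24 (Lsw H i3 i7 b36) (Lsw H i3 i9 b37) (Lsw H i9 i12 b678)
  have b1897 := LP1 H i9 i7 i4 c24.symm b118 (Lsw H i4 i7 b39) (Lsw H i7 i16 b671)
  have e1899 := (LP1 H i10 i7 i2 c26.symm (Lsw H i2 i10 b34) (Lsw H i2 i7 b33) (Lsw H i7 i15 b670)).symm.trans (Lsw H i10 i14 b1871)
  have m1900 : t94 = t104 := e1899.symm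
  subst m1900
  have e1901 := (LP1 H i7 i10 i4 c26 (Lsw H i4 i7 b39) (Lsw H i4 i10 b40) (Lsw H i10 i20 b682)).symm.trans (Lsw H i7 i19 b672)
  have m1902 : t95 = t116 := e1901.symm
  subst m1902
  have c1904 := Lco i30 i18 (LP1 H i18 i8 i7 c86.symm b1896 (Lsw H i7 i8 b153) (k_one i92 i8 c1807))
  have c1905 := Lco i23 i24 (LP1 H i24 i8 i5 c267.symm (Lsw H i5 i24 b658) (Lsw H i5 i8 b42) (k_one i92 i8 c1807))
  have c1906 := Lco i23 i33 (LP1 H i33 i8 i5 c345.symm (Lsw H i5 i33 b662) (Lsw H i5 i8 b42) (k_one i96 i8 c1811))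
  have c1907 := Lco i23 i38 (LP1 H i38 i8 i5 c313.symm (Lsw H i5 i38 b664) (Lsw H i5 i8 b42) (k_one i98 i8 c1815))
  have c1908 := LP3 H i9 i11 i1 c28 b114 (Lsw H i11 i14 b1872)
  have e1909 := (LP1 H i9 i11 i3 c28 (Lsw H i3 i9 b37) (Lsw H i3 i11 b38) (Lsw H i11 i18 b685)).symm.trans (Lsw H i9 i19 b679)
  have m1910 : t96 = t119 := e1909.symm
  subst m1910
  have e1911 := (LP1 H i10 i11 i1 c29 (Lsw H i1 i10 b31) (Lsw H i1 i11 b32) (Lsw H i11 i12 b683)).symm.trans (Lsw H i10 i13 b680)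
  have m1912 : t99 = t114 := e1911
  subst m1912
  have e1913 := (LP1 H i10 i11 i2 c29 (Lsw H i2 i10 b34) (Lsw H i2 i11 b35) (Lsw H i11 i15 b684)).symm.trans (Lsw H i10 i16 b681)
  have m1914 : t98 = t118 := e1913.symm
  subst m1914
  have c1917 := Lco i35 i13 (LP1 H i13 i22 i2 c590.symm (Lsw H i2 i13 b132) (Lsw H i2 i22 b135) (k_one i25 i22 c1893.symm))
  have c1920 := Lco i30 i15 (LP1 H i15 i23 i1 c497 (Lsw H i1 i15 b124) (Lsw H i1 i23 b130) (k_one i24 i23 c1905.symm))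
  have c1921 := Lco i45 i15 (LP1 H i15 i23 i4 c497 (Lsw H i4 i15 b142) (Lsw H i4 i23 b145) (k_one i33 i23 c1906.symm))
  have c1924 := Lco i26 i23 (LP1 H i23 i18 i1 c498.symm (Lsw H i1 i23 b130) (Lsw H i1 i18 b126) (k_one i30 i18 c1904))
  have c1925 := Lco i45 i18 (LP1 H i18 i23 i4 c498 (Lsw H i4 i18 b143) (Lsw H i4 i23 b145) (k_one i38 i23 c1907.symm))
  have c1927 := Lco i40 i20 (LP1 H i20 i22 i3 c591.symm (Lsw H i3 i20 b139) (Lsw H i3 i22 b140) (k_one i39 i22 c1895.symm))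
  have c1930 := LP2 H i45 i46 i3 c583.symm b1827 (Lsw H i3 i46 b650)
  have q1931 : Rl [t20, t13, t22, t28, t41, t46] := q611.mv 1 rfl
  have c1932 := q1931.l1 (.cons c275 (.cons c1893 (.cons c487.symm (.cons c283.symm (.cons c531 .nil)))))
  have q1933 : Rl [t20, t13, t22, t28, t41, t46] := q611.mv 1 rfl
  have c1934 := q1933.l1 (.cons c276 (.cons c1894 (.cons c490.symm (.cons c319.symm (.cons c532 .nil)))))
  have q1935 : Rl [t20, t13, t22, t28, t41, t46] := q611.mv 1 rfl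
  have c1936 := q1935.l1 (.cons c1917.symm (.cons c182.symm (.cons c239 (.cons c287.symm (.cons c614 .nil)))))
  have c1937 := q611.l1 (.cons c190.symm (.cons c1895 (.cons c248 (.cons c593.symm (.cons c596.symm .nil)))))
  have q1938 : Rl [t18, t15, t23, t36, t56, t47] := q495.mv 1 rfl
  have c1939 := q1938.l1 (.cons c160.symm (.cons c1905 (.cons c597.symm (.cons c555 (.cons c552 .nil)))))
  have c1940 := q495.l1 (.cons c164.symm (.cons c1924.symm (.cons c520.symm (.cons c598.symm (.cons c601.symm .nil)))))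
  have q1941 : Rl [t18, t15, t23, t36, t56, t47] := q495.mv 1 rfl
  have c1942 := q1941.l1 (.cons c312 (.cons c1906 (.cons c599.symm (.cons c556 (.cons c554 .nil)))))
  have c1943 := q495.l1 (.cons c344 (.cons c1907 (.cons c546 (.cons c600.symm (.cons c567 .nil)))))
  have c1944 := Lck c845.symm c1540.symm b625
  have c1945 := Lck c1908 c1236 b4
  have c1947 := Lco i22 i34 (LP1 H i34 i6 i5 c295.symm (Lsw H i5 i34 b663) (Lsw H i5 i6 b41) (k_one i97 i6 c1945))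
  have c1948 := Lco i74 i7 (LP1 H i7 i25 i4 c408 (Lsw H i4 i7 b39) (Lsw H i4 i25 b652) (k_one i20 i25 c1932))
  have c1949 := Lco i83 i7 (LP1 H i7 i27 i4 c414 (Lsw H i4 i7 b39) b1821 (k_one i20 i27 c1934))
  have c1950 := Lco i14 i41 (LP1 H i41 i7 i2 c534 (Lsw H i2 i41 b640) (Lsw H i2 i7 b33) (k_one i74 i7 c1948))
  have c1951 := Lco i12 i41 (LP1 H i41 i7 i3 c534 (Lsw H i3 i41 b649) (Lsw H i3 i7 b36) (k_one i83 i7 c1949))
  have b1952 := LP1 H i9 i11 i1 c28 b114 (Lsw H i1 i11 b32) (Lsw H i11 i14 b1872)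
  have c1953 := Lco i77 i9 (LP1 H i9 i24 i3 c449.symm (Lsw H i3 i9 b37) (Lsw H i3 i24 b643) (k_one i18 i24 c1939))
  have c1954 := Lco i80 i9 (LP1 H i9 i33 i3 c415 (Lsw H i3 i9 b37) (Lsw H i3 i33 b646) (k_one i18 i33 c1942))
  have c1955 := Lco i14 i56 (LP1 H i56 i9 i1 c512 b1731 b114 (k_one i77 i9 c1953))
  have c1956 := Lco i16 i56 (LP1 H i56 i9 i4 c512 b1824 b118 (k_one i80 i9 c1954))
  have c1957 := Lco i67 i10 (LP1 H i10 i26 i2 c461.symm (Lsw H i2 i10 b34) (Lsw H i2 i26 b633) (k_one i15 i26 c1940))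
  have c1958 := Lco i12 i36 (LP1 H i36 i10 i1 c514 b1722 (Lsw H i1 i10 b31) (k_one i67 i10 c1957))
  have c1959 := Lco i71 i10 (LP1 H i10 i38 i2 c409 (Lsw H i2 i10 b34) (Lsw H i2 i38 b637) (k_one i15 i38 c1943))
  have c1963 := Lco i34 i13 (LP1 H i13 i14 i4 c123.symm (Lsw H i4 i13 b141) b543 (k_one i41 i14 c1950.symm))
  have c1965 := LP2 H i13 i39 i2 c1937 (Lsw H i2 i13 b132) (Lsw H i2 i39 b638)
  have c1967 := LP2 H i15 i26 i4 c1940 (Lsw H i4 i15 b142) (Lsw H i4 i26 b653)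
  have c1971 := Lco i28 i16 (LP1 H i16 i20 i1 c122.symm (Lsw H i1 i16 b125) (Lsw H i1 i20 b128) (k_one i25 i20 c1932.symm))
  have c1972 := Lco i36 i19 (LP1 H i19 i18 i2 c111.symm (Lsw H i2 i19 b133) b504 (k_one i33 i18 c1942.symm))
  have c1973 := LP2 H i18 i24 i4 c1939 (Lsw H i4 i18 b143) (Lsw H i4 i24 b651)
  have c1977 := Lco i28 i19 (LP1 H i19 i20 i1 c110.symm (Lsw H i1 i19 b127) (Lsw H i1 i20 b128) (k_one i27 i20 c1934.symm))
  have c1978 := LP2 H i20 i25 i3 c1932 (Lsw H i3 i20 b139) (Lsw H i3 i25 b644)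
  have c1979 := LP2 H i20 i27 i2 c1934 (Lsw H i2 i20 b134) (Lsw H i2 i27 b634)
  have c1982 := LP2 H i22 i25 i3 c1893 (Lsw H i3 i22 b140) (Lsw H i3 i25 b644)
  have c1983 := LP2 H i22 i27 i2 c1894 (Lsw H i2 i22 b135) (Lsw H i2 i27 b634)
  have c1984 := LP2 H i22 i39 i2 c1895 (Lsw H i2 i22 b135) (Lsw H i2 i39 b638)
  have c1985 := LP2 H i23 i24 i4 c1905 (Lsw H i4 i23 b145) (Lsw H i4 i24 b651)
  have c1986 := LP2 H i23 i26 i4 c1924.symm (Lsw H i4 i23 b145) (Lsw H i4 i26 b653)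
  have c1987 := LP2 H i23 i33 i1 c1906 (Lsw H i1 i23 b130) (Lsw H i1 i33 b625)
  have c1988 := LP2 H i23 i38 i1 c1907 (Lsw H i1 i23 b130) (Lsw H i1 i38 b628)
  have c1990 := Lco i74 i24 (LP1 H i24 i25 i4 c484 (Lsw H i4 i24 b651) (Lsw H i4 i25 b652) (k_one i72 i25 c1965.symm))
  have c1992 := Lco i60 i33 (LP1 H i33 i34 i1 c491 (Lsw H i1 i33 b625) (Lsw H i1 i34 b626) (k_one i59 i34 c1979.symm))
  have c1993 := Lco i80 i34 (LP1 H i34 i33 i3 c491.symm (Lsw H i3 i34 b647) (Lsw H i3 i33 b646) (k_one i81 i33 c1967.symm))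
  have c1994 := Lco i63 i38 (LP1 H i38 i39 i1 c488 (Lsw H i1 i38 b628) (Lsw H i1 i39 b629) (k_one i62 i39 c1978.symm))
  have c1995 := Lco i71 i39 (LP1 H i39 i38 i2 c488.symm (Lsw H i2 i39 b638) (Lsw H i2 i38 b637) (k_one i72 i38 c1973.symm))
  have q1996 : Rl [t22, t13, t20, t28, t41, t46] := q611.mv 2 rfl
  have c1997 := q1996.l1 (.cons c112.symm (.cons c91.symm (.cons c272.symm (.cons c1951.symm (.cons c400.symm .nil)))))
  have q1998 : Rl [t22, t13, t20, t28, t41, t46] := q611.mv 2 rfl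
  have c1999 := q1998.l1 (.cons c123.symm (.cons c81.symm (.cons c279.symm (.cons c1950.symm (.cons c404.symm .nil)))))
  have q2000 : Rl [t22, t13, t20, t28, t41, t46] := q611.mv 2 rfl
  have c2001 := q2000.l1 (.cons c70 (.cons c122 (.cons c1971 (.cons c370.symm (.cons c410.symm .nil)))))
  have q2002 : Rl [t22, t13, t20, t28, t41, t46] := q611.mv 2 rfl
  have c2003 := q2002.l1 (.cons c75 (.cons c110 (.cons c1977 (.cons c374.symm (.cons c416.symm .nil)))))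
  have q2004 : Rl [t23, t15, t18, t36, t56, t47] := q495.mv 2 rfl
  have c2005 := q2004.l1 (.cons c69.symm (.cons c108.symm (.cons c1958.symm (.cons c265.symm (.cons c401.symm .nil)))))
  have q2006 : Rl [t23, t15, t18, t36, t56, t47] := q495.mv 2 rfl
  have c2007 := q2006.l1 (.cons c109.symm (.cons c117.symm (.cons c439.symm (.cons c1955.symm (.cons c405.symm .nil)))))
  have q2008 : Rl [t23, t15, t18, t36, t56, t47] := q495.mv 2 rfl
  have c2009 := q2008.l1 (.cons c113 (.cons c121 (.cons c479.symm (.cons c1956.symm (.cons c411.symm .nil)))))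
  have q2010 : Rl [t23, t15, t18, t36, t56, t47] := q495.mv 2 rfl
  have c2011 := q2010.l1 (.cons c82 (.cons c111 (.cons c1972 (.cons c358.symm (.cons c417.symm .nil)))))
  have c2013 := Lco i63 i5 (LP1 H i5 i12 i6 c72.symm b41 (Lsw H i6 i12 b666) (k_one i22 i12 c1997))
  have c2014 := Lco i77 i5 (LP1 H i5 i12 i8 c72.symm b42 (Lsw H i8 i12 b673) (k_one i23 i12 c2005))
  have c2015 := Lco i60 i5 (LP1 H i5 i14 i6 c67.symm b41 b1739 (k_one i22 i14 c1999))
  have c2016 := Lco i67 i5 (LP1 H i5 i14 i8 c67.symm b42 b1742 (k_one i23 i14 c2007))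
  have c2017 := Lco i74 i5 (LP1 H i5 i16 i6 c80.symm b41 (Lsw H i6 i16 b668) (k_one i22 i16 c2001))
  have c2018 := Lco i71 i5 (LP1 H i5 i16 i8 c80.symm b42 b1791 (k_one i23 i16 c2009))
  have c2019 := Lco i83 i5 (LP1 H i5 i19 i6 c90.symm b41 b1829 (k_one i22 i19 c2003))
  have c2020 := Lco i80 i5 (LP1 H i5 i19 i8 c90.symm b42 (Lsw H i8 i19 b675) (k_one i23 i19 c2011))
  have c2021 := Lco i9 i28 (LP1 H i28 i5 i2 c250 (Lsw H i2 i28 b635) (Lsw H i2 i5 b7) (k_one i60 i5 c2015))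
  have c2022 := Lco i10 i28 (LP1 H i28 i5 i3 c250 b1734 (Lsw H i3 i5 b8) (k_one i63 i5 c2013))
  have c2023 := Lco i9 i30 (LP1 H i30 i5 i2 c263 (Lsw H i2 i30 b636) (Lsw H i2 i5 b7) (k_one i67 i5 c2016))
  have c2024 := Lco i10 i30 (LP1 H i30 i5 i3 c263 (Lsw H i3 i30 b645) (Lsw H i3 i5 b8) (k_one i77 i5 c2014))
  have c2025 := Lco i7 i35 (LP1 H i35 i5 i1 c290 (Lsw H i1 i35 b627) (Lsw H i1 i5 b5) (k_one i60 i5 c2015))
  have c2026 := Lco i11 i35 (LP1 H i35 i5 i4 c290 (Lsw H i4 i35 b655) (Lsw H i4 i5 b9) (k_one i74 i5 c2017))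
  have c2027 := Lco i7 i36 (LP1 H i36 i5 i1 c298 b1722 (Lsw H i1 i5 b5) (k_one i67 i5 c2016))
  have c2028 := Lco i11 i36 (LP1 H i36 i5 i4 c298 b1782 (Lsw H i4 i5 b9) (k_one i71 i5 c2018))
  have c2029 := Lco i7 i40 (LP1 H i40 i5 i1 c325 (Lsw H i1 i40 b630) (Lsw H i1 i5 b5) (k_one i63 i5 c2013))
  have c2030 := Lco i11 i40 (LP1 H i40 i5 i4 c325 (Lsw H i4 i40 b656) (Lsw H i4 i5 b9) (k_one i83 i5 c2019))
  have c2031 := Lco i9 i41 (LP1 H i41 i5 i2 c349 (Lsw H i2 i41 b640) (Lsw H i2 i5 b7) (k_one i74 i5 c2017))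
  have c2032 := Lco i10 i41 (LP1 H i41 i5 i3 c349 (Lsw H i3 i41 b649) (Lsw H i3 i5 b8) (k_one i83 i5 c2019))
  have c2033 := Lco i9 i45 (LP1 H i45 i5 i2 c355 (Lsw H i2 i45 b641) (Lsw H i2 i5 b7) (k_one i71 i5 c2018))
  have c2034 := Lco i10 i45 (LP1 H i45 i5 i3 c355 b1827 (Lsw H i3 i5 b8) (k_one i80 i5 c2020))
  have c2035 := Lco i7 i56 (LP1 H i56 i5 i1 c332 b1731 (Lsw H i1 i5 b5) (k_one i77 i5 c2014))
  have c2036 := Lco i11 i56 (LP1 H i56 i5 i4 c332 b1824 (Lsw H i4 i5 b9) (k_one i80 i5 c2020))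
  have c2037 := Lck c79.symm c2009 b671
  have c2038 := Lck c79.symm c2011 b672
  have c2039 := Lck c84.symm c1997 b678
  have c2040 := Lck c84.symm c2003 b679
  have c2045 := Lco i60 i11 (LP1 H i11 i28 i2 c578.symm (Lsw H i2 i11 b35) (Lsw H i2 i28 b635) (k_one i16 i28 c1971.symm))
  have c2046 := LP2 H i12 i22 i2 c1997.symm (Lsw H i2 i12 b131) (Lsw H i2 i22 b135)
  have c2047 := LP2 H i12 i22 i8 c1997.symm (Lsw H i8 i12 b673) (Lsw H i8 i22 b677)
  have c2048 := LP2 H i12 i23 i4 c2005.symm b560 (Lsw H i4 i23 b145)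
  have c2050 := Lck c272.symm c2021.symm (Lsw H i9 i12 b678)
  have c2052 := Lck c1951.symm c2031.symm (Lsw H i9 i12 b678)
  have c2059 := LP2 H i14 i22 i3 c1999.symm b521 (Lsw H i3 i22 b140)
  have c2060 := LP2 H i14 i22 i8 c1999.symm b1742 (Lsw H i8 i22 b677)
  have c2061 := LP2 H i14 i23 i4 c2007.symm b543 (Lsw H i4 i23 b145)
  have c2065 := LP2 H i14 i41 i3 c1950 b521 (Lsw H i3 i41 b649)
  have c2068 := Lco i60 i15 (LP1 H i15 i35 i1 c465 (Lsw H i1 i15 b124) (Lsw H i1 i35 b627) (k_one i24 i35 c2046))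
  have c2073 := LP2 H i16 i22 i3 c2001.symm (Lsw H i3 i16 b138) (Lsw H i3 i22 b140)
  have c2074 := LP2 H i16 i22 i8 c2001.symm b1791 (Lsw H i8 i22 b677)
  have c2075 := LP2 H i16 i23 i1 c2009.symm (Lsw H i1 i16 b125) (Lsw H i1 i23 b130)
  have c2076 := LP2 H i16 i23 i6 c2009.symm (Lsw H i6 i16 b668) (Lsw H i6 i23 b669)
  have c2078 := Lck c479.symm c2027.symm (Lsw H i7 i16 b671)
  have c2080 := Lck c1956.symm c2035.symm (Lsw H i7 i16 b671)
  have c2083 := Lco i63 i18 (LP1 H i18 i40 i1 c453 (Lsw H i1 i18 b126) (Lsw H i1 i40 b630) (k_one i26 i40 c2059))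
  have c2084 := Lco i83 i18 (LP1 H i18 i40 i4 c453 (Lsw H i4 i18 b143) (Lsw H i4 i40 b656) (k_one i38 i40 c2073))
  have c2087 := LP2 H i19 i22 i2 c2003.symm (Lsw H i2 i19 b133) (Lsw H i2 i22 b135)
  have c2088 := LP2 H i19 i22 i8 c2003.symm (Lsw H i8 i19 b675) (Lsw H i8 i22 b677)
  have c2089 := LP2 H i19 i23 i1 c2011.symm (Lsw H i1 i19 b127) (Lsw H i1 i23 b130)
  have c2090 := LP2 H i19 i23 i6 c2011.symm b1829 (Lsw H i6 i23 b669)
  have c2091 := Lck c1977 c2021.symm (Lsw H i9 i19 b679)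
  have c2092 := Lck c1972 c2027.symm (Lsw H i7 i19 b672)
  have c2093 := Lck c374.symm c2031.symm (Lsw H i9 i19 b679)
  have c2094 := Lck c358.symm c2035.symm (Lsw H i7 i19 b672)
  have c2097 := Lco i71 i20 (LP1 H i20 i45 i2 c440 (Lsw H i2 i20 b134) (Lsw H i2 i45 b641) (k_one i34 i45 c2061))
  have c2098 := Lco i80 i20 (LP1 H i20 i45 i3 c440 (Lsw H i3 i20 b139) b1827 (k_one i39 i45 c2048))
  have c2100 := Lck c440.symm c2034.symm (Lsw H i10 i20 b682)
  have c2101 := LP2 H i22 i34 i3 c1947 (Lsw H i3 i22 b140) (Lsw H i3 i34 b647)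
  have c2102 := Lck c892.symm c2015 (Lsw H i5 i24 b658)
  have c2106 := Lck c1005.symm c2018 (Lsw H i5 i25 b659)
  have c2112 := Lck c1108.symm c2020 (Lsw H i5 i27 b661)
  have c2113 := Lck c1992 c2015 (Lsw H i5 i33 b662)
  have c2114 := Lck c1572.symm c2017 (Lsw H i5 i33 b662)
  have q2125 : Rl [t20, t13, t22, t28, t41, t46] := q611.mv 1 rfl
  have q2126 : Rl [t13, t20, t22, t28, t41, t46] := q2125.mv 1 rfl
  have e2127 := (Rl.l2 H i13 i20 i9 q2126 (.cons c84.symm (.cons c2021.symm (.cons c2031.symm (.cons c428.symm .nil)))) b1952).symm.trans b1897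
  have m2128 : t93 = t97 := e2127.symm
  subst m2128
  have q2129 : Rl [t20, t13, t22, t28, t41, t46] := q611.mv 1 rfl
  have q2130 : Rl [t13, t20, t22, t28, t41, t46] := q2129.mv 1 rfl
  have e2131 := (Rl.l2 H i13 i20 i10 q2130 (.cons c94.symm (.cons c2022.symm (.cons c2032.symm (.cons c430.symm .nil)))) (Lsw H i10 i13 b680)).symm.trans (Lsw H i10 i20 b682)
  have m2132 : t95 = t99 := e2131.symm
  subst m2132
  have q2133 : Rl [t18, t15, t23, t36, t56, t47] := q495.mv 1 rfl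
  have q2134 : Rl [t15, t18, t23, t36, t56, t47] := q2133.mv 1 rfl
  have e2135 := (Rl.l2 H i15 i18 i7 q2134 (.cons c79.symm (.cons c2027.symm (.cons c2035.symm (.cons c427.symm .nil)))) (Lsw H i7 i15 b670)).symm.trans b1896
  have m2136 : t92 = t94 := e2135.symm
  subst m2136
  have q2137 : Rl [t18, t15, t23, t36, t56, t47] := q495.mv 1 rfl
  have q2138 : Rl [t15, t18, t23, t36, t56, t47] := q2137.mv 1 rfl
  have e2139 := (Rl.l2 H i15 i18 i11 q2138 (.cons c100.symm (.cons c2028.symm (.cons c2036.symm (.cons c448.symm .nil)))) (Lsw H i11 i15 b684)).symm.trans (Lsw H i11 i18 b685)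
  have m2140 : t96 = t98 := e2139.symm
  subst m2140
  have c2146 := Lck c1340 c2052.symm b649
  have c2150 := Lck c2015 c2068 b147
  have c2151 := Lck c2013 c2083 b148
  have c2152 := Lck c2018 c2097 b149
  have c2153 := Lck c2020 c2098 b149
  have c2154 := Lck c2019 c2084 b148
  have c2158 := Lck c2027.symm c2028.symm b154
  have c2160 := Lck c2035.symm c2036.symm b154
  have c2165 := Lck c2021.symm c2022.symm b158
  have c2166 := LP2 H i9 i30 i4 c2023 b118 (Lsw H i4 i30 b654)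
  have c2167 := Lck c2031.symm c2032.symm b158
  have c2168 := LP2 H i9 i45 i1 c2033 b114 (Lsw H i1 i45 b631)
  have c2169 := LP2 H i10 i30 i4 c2024 (Lsw H i4 i10 b40) (Lsw H i4 i30 b654)
  have c2170 := LP2 H i10 i41 i2 c2032 (Lsw H i2 i10 b34) (Lsw H i2 i41 b640)
  have c2171 := LP2 H i10 i45 i1 c2034 (Lsw H i1 i10 b31) (Lsw H i1 i45 b631)
  have c2172 := LP2 H i11 i35 i3 c2026 (Lsw H i3 i11 b38) (Lsw H i3 i35 b648)
  have c2173 := LP2 H i11 i36 i1 c2028 (Lsw H i1 i11 b32) b1722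
  have c2174 := LP2 H i11 i40 i2 c2030 (Lsw H i2 i11 b35) (Lsw H i2 i40 b639)
  have c2175 := LP2 H i11 i56 i1 c2036 (Lsw H i1 i11 b32) b1731
  have c2176 := Lco i66 i22 (LP1 H i22 i47 i1 c455 (Lsw H i1 i22 b129) (Lsw H i1 i47 b632) (k_one i28 i47 c2165))
  have c2177 := Lco i91 i22 (LP1 H i22 i47 i4 c455 (Lsw H i4 i22 b144) (Lsw H i4 i47 b657) (k_one i41 i47 c2167))
  have c2178 := Lco i76 i23 (LP1 H i23 i46 i2 c441 (Lsw H i2 i23 b136) (Lsw H i2 i46 b642) (k_one i36 i46 c2158))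
  have c2179 := Lco i84 i23 (LP1 H i23 i46 i3 c441 b565 (Lsw H i3 i46 b650) (k_one i56 i46 c2160))
  have c2182 := LP2 H i33 i35 i3 c2087 (Lsw H i3 i33 b646) (Lsw H i3 i35 b648)
  have c2183 := LP2 H i34 i45 i1 c2061 (Lsw H i1 i34 b626) (Lsw H i1 i45 b631)
  have c2185 := LP2 H i38 i40 i2 c2073 (Lsw H i2 i38 b637) (Lsw H i2 i40 b639)
  have c2186 := LP2 H i39 i45 i1 c2048 (Lsw H i1 i39 b629) (Lsw H i1 i45 b631)
  have c2188 := Lco i91 i40 (LP1 H i40 i47 i4 c571.symm (Lsw H i4 i40 b656) (Lsw H i4 i47 b657) (k_one i83 i47 c2154))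
  have c2189 := Lco i76 i45 (LP1 H i45 i46 i2 c583.symm (Lsw H i2 i45 b641) (Lsw H i2 i46 b642) (k_one i71 i46 c2152))
  have c2190 := Lco i84 i45 (LP1 H i45 i46 i3 c583.symm b1827 (Lsw H i3 i46 b650) (k_one i80 i46 c2153))
  have c2191 := Lck c364 c2167 b632
  have c2193 := Lck c395 c2160.symm (Lsw H i56 i1 b1731)
  have c2194 := Lck c828.symm c2178 b130
  have c2195 := Lck c828.symm c2189 b631
  have c2196 := Lck c845.symm c2154 b632
  have c2197 := Lck c846.symm c2179 b130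
  have c2198 := Lck c846.symm c2190 b631
  have c2200 := Lck c337 c2160 b642
  have c2202 := Lck c829.symm c2191.symm b640
  have c2204 := Lck c1094 c2153 b642
  have c2205 := Lck c948.symm c2177 b135
  have c2206 := Lck c948.symm c2188 b639
  have c2207 := Lck c304 c2158 b650
  have c2210 := Lck c988 c2152 b650
  have c2211 := Lck c1056.symm c2205 b648
  have c2212 := Lck c256 c2165 b657
  have c2213 := Lck c886 c2150 b657
  have c2214 := Lck c878 c2151 b657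
  have c2219 := Lck c876.symm c2176 b677
  have c2220 := Lck c1156.symm c2177 b677
  have q2221 : Rl [t20, t13, t22, t28, t41, t46] := q611.mv 1 rfl
  have c2222 := q2221.l1 (.cons c1484 (.cons c2176.symm (.cons c1594 (.cons c2191 (.cons c927 .nil)))))
  have c2223 := q611.l1 (.cons c1379 (.cons c2177.symm (.cons c2212 (.cons c1595 (.cons c1205 .nil)))))
  have q2224 : Rl [t18, t15, t23, t36, t56, t47] := q495.mv 1 rfl
  have c2225 := q2224.l1 (.cons c1459 (.cons c2178.symm (.cons c1598 (.cons c2200 (.cons c1034 .nil)))))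
  have c2226 := q495.l1 (.cons c1423 (.cons c2179.symm (.cons c2207 (.cons c1599 (.cons c1132 .nil)))))
  have c2227 := Lck c828.symm c2225.symm b126
  have c2228 := Lck c846.symm c2226.symm b124
  have c2229 := Lck c829.symm c2222.symm b134
  have c2230 := Lck c948.symm c2223.symm b132
  have c2231 := Lck c847.symm c2222.symm b139
  have c2232 := Lck c847.symm c2229 b647
  have c2233 := Lck c1056.symm c2223.symm b137
  have c2235 := Lck c947.symm c2225.symm b143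
  have c2236 := Lck c947.symm c2227 b653
  have c2237 := Lck c1055.symm c2226.symm b142
  have c2243 := Lck c828.symm c2235 b628
  have c2244 := Lck c846.symm c2237 b625
  have c2245 := Lck c829.symm c2231 b638
  have c2246 := Lck c948.symm c2233 b634
  obtain ⟨t120, b2247⟩ : ∃ t, k a t71 = t := ⟨_, rfl⟩
  have i120 := Linv H i1 i71 b2247
  obtain ⟨t121, b2248⟩ : ∃ t, k a t72 = t := ⟨_, rfl⟩
  have i121 := Linv H i1 i72 b2248
  obtain ⟨t122, b2249⟩ : ∃ t, k a t73 = t := ⟨_, rfl⟩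
  have i122 := Linv H i1 i73 b2249
  obtain ⟨t123, b2250⟩ : ∃ t, k a t80 = t := ⟨_, rfl⟩
  have i123 := Linv H i1 i80 b2250
  obtain ⟨t124, b2251⟩ : ∃ t, k a t81 = t := ⟨_, rfl⟩
  have i124 := Linv H i1 i81 b2251
  obtain ⟨t125, b2252⟩ : ∃ t, k a t82 = t := ⟨_, rfl⟩
  have i125 := Linv H i1 i82 b2252
  obtain ⟨t126, b2253⟩ : ∃ t, k a t88 = t := ⟨_, rfl⟩
  have i126 := Linv H i1 i88 b2253
  obtain ⟨t127, b2254⟩ : ∃ t, k a t91 = t := ⟨_, rfl⟩
  have i127 := Linv H i1 i91 b2254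
  obtain ⟨t128, b2255⟩ : ∃ t, k a t92 = t := ⟨_, rfl⟩
  have i128 := Linv H i1 i92 b2255
  obtain ⟨t129, b2256⟩ : ∃ t, k a t96 = t := ⟨_, rfl⟩
  have i129 := Linv H i1 i96 b2256
  obtain ⟨t130, b2257⟩ : ∃ t, k a t103 = t := ⟨_, rfl⟩
  have i130 := Linv H i1 i103 b2257
  obtain ⟨t131, b2258⟩ : ∃ t, k b t62 = t := ⟨_, rfl⟩
  have i131 := Linv H i2 i62 b2258
  obtain ⟨t132, b2259⟩ : ∃ t, k b t63 = t := ⟨_, rfl⟩
  have i132 := Linv H i2 i63 b2259
  obtain ⟨t133, b2260⟩ : ∃ t, k b t65 = t := ⟨_, rfl⟩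
  have i133 := Linv H i2 i65 b2260
  obtain ⟨t134, b2261⟩ : ∃ t, k b t81 = t := ⟨_, rfl⟩
  have i134 := Linv H i2 i81 b2261
  obtain ⟨t135, b2262⟩ : ∃ t, k b t83 = t := ⟨_, rfl⟩
  have i135 := Linv H i2 i83 b2262
  obtain ⟨t136, b2263⟩ : ∃ t, k b t84 = t := ⟨_, rfl⟩
  have i136 := Linv H i2 i84 b2263
  obtain ⟨t137, b2264⟩ : ∃ t, k b t88 = t := ⟨_, rfl⟩
  have i137 := Linv H i2 i88 b2264
  obtain ⟨t138, b2265⟩ : ∃ t, k b t93 = t := ⟨_, rfl⟩
  have i138 := Linv H i2 i93 b2265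
  obtain ⟨t139, b2266⟩ : ∃ t, k b t95 = t := ⟨_, rfl⟩
  have i139 := Linv H i2 i95 b2266
  obtain ⟨t140, b2267⟩ : ∃ t, k b t103 = t := ⟨_, rfl⟩
  have i140 := Linv H i2 i103 b2267
  obtain ⟨t141, b2268⟩ : ∃ t, k c t59 = t := ⟨_, rfl⟩
  have i141 := Linv H i3 i59 b2268
  obtain ⟨t142, b2269⟩ : ∃ t, k c t60 = t := ⟨_, rfl⟩
  have i142 := Linv H i3 i60 b2269
  obtain ⟨t143, b2270⟩ : ∃ t, k c t65 = t := ⟨_, rfl⟩
  have i143 := Linv H i3 i65 b2270
  obtain ⟨t144, b2271⟩ : ∃ t, k c t72 = t := ⟨_, rfl⟩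
  have i144 := Linv H i3 i72 b2271
  obtain ⟨t145, b2272⟩ : ∃ t, k c t73 = t := ⟨_, rfl⟩
  have i145 := Linv H i3 i73 b2272
  obtain ⟨t146, b2273⟩ : ∃ t, k c t76 = t := ⟨_, rfl⟩
  have i146 := Linv H i3 i76 b2273
  obtain ⟨t147, b2274⟩ : ∃ t, k c t88 = t := ⟨_, rfl⟩
  have i147 := Linv H i3 i88 b2274
  obtain ⟨t148, b2275⟩ : ∃ t, k c t93 = t := ⟨_, rfl⟩
  have i148 := Linv H i3 i93 b2275
  obtain ⟨t149, b2276⟩ : ∃ t, k c t95 = t := ⟨_, rfl⟩
  have i149 := Linv H i3 i95 b2276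
  obtain ⟨t150, b2277⟩ : ∃ t, k d t59 = t := ⟨_, rfl⟩
  have i150 := Linv H i4 i59 b2277
  obtain ⟨t151, b2278⟩ : ∃ t, k d t62 = t := ⟨_, rfl⟩
  have i151 := Linv H i4 i62 b2278
  obtain ⟨t152, b2279⟩ : ∃ t, k d t65 = t := ⟨_, rfl⟩
  have i152 := Linv H i4 i65 b2279
  obtain ⟨t153, b2280⟩ : ∃ t, k d t66 = t := ⟨_, rfl⟩
  have i153 := Linv H i4 i66 b2280
  obtain ⟨t154, b2281⟩ : ∃ t, k d t82 = t := ⟨_, rfl⟩
  have i154 := Linv H i4 i82 b2281
  obtain ⟨t155, b2282⟩ : ∃ t, k d t92 = t := ⟨_, rfl⟩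
  have i155 := Linv H i4 i92 b2282
  obtain ⟨t156, b2283⟩ : ∃ t, k d t103 = t := ⟨_, rfl⟩
  have i156 := Linv H i4 i103 b2283
  obtain ⟨t157, b2284⟩ : ∃ t, k e t59 = t := ⟨_, rfl⟩
  have i157 := Linv H i5 i59 b2284
  obtain ⟨t158, b2285⟩ : ∃ t, k e t62 = t := ⟨_, rfl⟩
  have i158 := Linv H i5 i62 b2285
  obtain ⟨t159, b2286⟩ : ∃ t, k e t65 = t := ⟨_, rfl⟩
  have i159 := Linv H i5 i65 b2286
  obtain ⟨t160, b2287⟩ : ∃ t, k e t72 = t := ⟨_, rfl⟩
  have i160 := Linv H i5 i72 b2287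
  obtain ⟨t161, b2288⟩ : ∃ t, k e t73 = t := ⟨_, rfl⟩
  have i161 := Linv H i5 i73 b2288
  obtain ⟨t162, b2289⟩ : ∃ t, k e t81 = t := ⟨_, rfl⟩
  have i162 := Linv H i5 i81 b2289
  obtain ⟨t163, b2290⟩ : ∃ t, k e t88 = t := ⟨_, rfl⟩
  have i163 := Linv H i5 i88 b2290
  obtain ⟨t164, b2291⟩ : ∃ t, k t6 t30 = t := ⟨_, rfl⟩
  have i164 := Linv H i6 i30 b2291
  obtain ⟨t165, b2292⟩ : ∃ t, k t6 t33 = t := ⟨_, rfl⟩
  have i165 := Linv H i6 i33 b2292
  obtain ⟨t166, b2293⟩ : ∃ t, k t6 t38 = t := ⟨_, rfl⟩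
  have i166 := Linv H i6 i38 b2293
  obtain ⟨t167, b2294⟩ : ∃ t, k t6 t45 = t := ⟨_, rfl⟩
  have i167 := Linv H i6 i45 b2294
  obtain ⟨t168, b2295⟩ : ∃ t, k t6 t47 = t := ⟨_, rfl⟩
  have i168 := Linv H i6 i47 b2295
  obtain ⟨t169, b2296⟩ : ∃ t, k t7 t24 = t := ⟨_, rfl⟩
  have i169 := Linv H i7 i24 b2296
  obtain ⟨t170, b2297⟩ : ∃ t, k t7 t26 = t := ⟨_, rfl⟩
  have i170 := Linv H i7 i26 b2297
  obtain ⟨t171, b2298⟩ : ∃ t, k t7 t33 = t := ⟨_, rfl⟩
  have i171 := Linv H i7 i33 b2298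
  obtain ⟨t172, b2299⟩ : ∃ t, k t7 t38 = t := ⟨_, rfl⟩
  have i172 := Linv H i7 i38 b2299
  obtain ⟨t173, b2300⟩ : ∃ t, k t7 t45 = t := ⟨_, rfl⟩
  have i173 := Linv H i7 i45 b2300
  obtain ⟨t174, b2301⟩ : ∃ t, k t8 t25 = t := ⟨_, rfl⟩
  have i174 := Linv H i8 i25 b2301
  obtain ⟨t175, b2302⟩ : ∃ t, k t8 t27 = t := ⟨_, rfl⟩
  have i175 := Linv H i8 i27 b2302
  obtain ⟨t176, b2303⟩ : ∃ t, k t8 t28 = t := ⟨_, rfl⟩
  have i176 := Linv H i8 i28 b2303
  obtain ⟨t177, b2304⟩ : ∃ t, k t8 t41 = t := ⟨_, rfl⟩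
  have i177 := Linv H i8 i41 b2304
  obtain ⟨t178, b2305⟩ : ∃ t, k t8 t46 = t := ⟨_, rfl⟩
  have i178 := Linv H i8 i46 b2305
  obtain ⟨t179, b2306⟩ : ∃ t, k t9 t25 = t := ⟨_, rfl⟩
  have i179 := Linv H i9 i25 b2306
  obtain ⟨t180, b2307⟩ : ∃ t, k t9 t27 = t := ⟨_, rfl⟩
  have i180 := Linv H i9 i27 b2307
  obtain ⟨t181, b2308⟩ : ∃ t, k t9 t34 = t := ⟨_, rfl⟩
  have i181 := Linv H i9 i34 b2308
  obtain ⟨t182, b2309⟩ : ∃ t, k t9 t39 = t := ⟨_, rfl⟩
  have i182 := Linv H i9 i39 b2309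
  obtain ⟨t183, b2310⟩ : ∃ t, k t9 t40 = t := ⟨_, rfl⟩
  have i183 := Linv H i9 i40 b2310
  obtain ⟨t184, b2311⟩ : ∃ t, k t10 t25 = t := ⟨_, rfl⟩
  have i184 := Linv H i10 i25 b2311
  obtain ⟨t185, b2312⟩ : ∃ t, k t10 t27 = t := ⟨_, rfl⟩
  have i185 := Linv H i10 i27 b2312
  obtain ⟨t186, b2313⟩ : ∃ t, k t10 t34 = t := ⟨_, rfl⟩
  have i186 := Linv H i10 i34 b2313
  obtain ⟨t187, b2314⟩ : ∃ t, k t10 t35 = t := ⟨_, rfl⟩
  have i187 := Linv H i10 i35 b2314
  obtain ⟨t188, b2315⟩ : ∃ t, k t10 t39 = t := ⟨_, rfl⟩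
  have i188 := Linv H i10 i39 b2315
  obtain ⟨t189, b2316⟩ : ∃ t, k t11 t24 = t := ⟨_, rfl⟩
  have i189 := Linv H i11 i24 b2316
  obtain ⟨t190, b2317⟩ : ∃ t, k t11 t26 = t := ⟨_, rfl⟩
  have i190 := Linv H i11 i26 b2317
  obtain ⟨t191, b2318⟩ : ∃ t, k t11 t30 = t := ⟨_, rfl⟩
  have i191 := Linv H i11 i30 b2318
  obtain ⟨t192, b2319⟩ : ∃ t, k t11 t38 = t := ⟨_, rfl⟩
  have i192 := Linv H i11 i38 b2319
  obtain ⟨t193, b2320⟩ : ∃ t, k t12 t16 = t := ⟨_, rfl⟩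
  have i193 := Linv H i12 i16 b2320
  obtain ⟨t194, b2321⟩ : ∃ t, k t12 t19 = t := ⟨_, rfl⟩
  have i194 := Linv H i12 i19 b2321
  obtain ⟨t195, b2322⟩ : ∃ t, k t13 t15 = t := ⟨_, rfl⟩
  have i195 := Linv H i13 i15 b2322
  obtain ⟨t196, b2323⟩ : ∃ t, k t13 t18 = t := ⟨_, rfl⟩
  have i196 := Linv H i13 i18 b2323
  obtain ⟨t197, b2324⟩ : ∃ t, k t13 t23 = t := ⟨_, rfl⟩
  have i197 := Linv H i13 i23 b2324
  obtain ⟨t198, b2325⟩ : ∃ t, k t15 t20 = t := ⟨_, rfl⟩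
  have i198 := Linv H i15 i20 b2325
  obtain ⟨t199, b2326⟩ : ∃ t, k t15 t22 = t := ⟨_, rfl⟩
  have i199 := Linv H i15 i22 b2326
  obtain ⟨t200, b2327⟩ : ∃ t, k t18 t20 = t := ⟨_, rfl⟩
  have i200 := Linv H i18 i20 b2327
  obtain ⟨t201, b2328⟩ : ∃ t, k t18 t22 = t := ⟨_, rfl⟩
  have i201 := Linv H i18 i22 b2328
  obtain ⟨t202, b2329⟩ : ∃ t, k t20 t23 = t := ⟨_, rfl⟩
  have i202 := Linv H i20 i23 b2329
  have c2330 := Lkl H i1 i71 b2247
  have c2332 := Lkl H i1 i72 b2248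
  have c2336 := Lkl H i1 i80 b2250
  have c2338 := Lkl H i1 i81 b2251
  have c2342 := Lkl H i1 i88 b2253
  have c2344 := Lkl H i1 i91 b2254
  have c2348 := Lkl H i1 i96 b2256
  have c2358 := Lkl H i2 i81 b2261
  have c2360 := Lkl H i2 i83 b2262
  have c2362 := Lkl H i2 i84 b2263
  have c2368 := Lkl H i2 i95 b2266
  have c2370 := Lkl H i2 i103 b2267
  have c2378 := Lkl H i3 i72 b2271
  have c2379 := Lkr H i3 i72 b2271
  have c2380 := Lkl H i3 i73 b2272
  have c2382 := Lkl H i3 i76 b2273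
  have c2386 := Lkl H i3 i93 b2275
  have c2392 := Lkl H i4 i62 b2278
  have c2394 := Lkl H i4 i65 b2279
  have c2396 := Lkl H i4 i66 b2280
  have c2400 := Lkl H i4 i92 b2282
  have c2404 := Lkl H i5 i59 b2284
  have c2406 := Lkl H i5 i62 b2285
  have c2408 := Lkl H i5 i65 b2286
  have c2410 := Lkl H i5 i72 b2287
  have c2411 := Lkr H i5 i72 b2287
  have c2412 := Lkl H i5 i73 b2288
  have c2414 := Lkl H i5 i81 b2289
  have c2433 := Lkr H i7 i33 b2298
  have c2435 := Lkr H i7 i38 b2299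
  have c2455 := Lkr H i9 i39 b2309
  have c2458 := Lkl H i10 i25 b2311
  have c2497 := LP3 H i2 i1 i38 hab.symm b637 (Lsw H i1 i71 b2247)
  have c2499 := LP3 H i2 i1 i39 hab.symm b638 (Lsw H i1 i72 b2248)
  have c2507 := Lck hab.symm c710.symm b2247
  have c2508 := Lck hab.symm c712.symm b2248
  have c2510 := Lck hab.symm c1094.symm b2250
  have c2512 := Lck hab c845 b2262
  have c2513 := Lck hab c846 b2263
  have c2515 := Lck hab.symm c948 b2254
  have c2518 := Lck hab c1251.symm b2266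
  have c2519 := Lck hab.symm c1253.symm b2256
  have c2522 := LP3 H i3 i1 i33 hac.symm b646 (Lsw H i1 i80 b2250)
  have c2524 := LP3 H i3 i1 i34 hac.symm b647 (Lsw H i1 i81 b2251)
  have c2532 := Lck hac.symm c988.symm b2247
  have c2535 := Lck hac c828 b2273
  have c2536 := Lck hac.symm c728.symm b2250
  have c2537 := Lck hac.symm c730.symm b2251
  have c2540 := Lck hac.symm c1056 b2254
  have c2542 := Lck hac c1242.symm b2275
  have c2544 := Lck hac.symm c1404.symm b2256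
  have c2556 := Lck c10 c1065 b2251
  have c2567 := LP2 H i1 i7 i38 c12.symm b628 b2299
  have c2584 := Lck c22.symm c973 b2247
  have c2585 := Lck c22.symm c1119 b2248
  have c2587 := Lck c22.symm c1008 b2250
  have c2588 := Lck c22.symm c1014 b2251
  have c2593 := Lck c22.symm c1811.symm b2256
  have c2611 := LP3 H i24 i1 i4 c159 (Lsw H i4 i24 b651) (Lsw H i1 i72 b2248)
  have c2614 := LP2 H i1 i24 i11 c159.symm b32 (Lsw H i11 i24 b2316)
  have c2619 := LP2 H i1 i25 i10 c161.symm b31 (Lsw H i10 i25 b2311)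
  have c2624 := LP3 H i26 i1 i4 c163 (Lsw H i4 i26 b653) (Lsw H i1 i81 b2251)
  have e2626 := (LP1 H i26 i1 i5 c163 (Lsw H i5 i26 b660) b5 (Lsw H i1 i92 b2255)).symm.trans b2297
  have m2627 : t128 = t170 := e2626
  subst m2627
  have c2628 := LP2 H i1 i26 i11 c163.symm b32 (Lsw H i11 i26 b2317)
  have c2631 := LP2 H i1 i27 i9 c165.symm (Lsw H i9 i1 b114) (Lsw H i9 i27 b2307)
  have c2633 := Lck c165 c1108 b2250
  have c2640 := Lck c167 c2091 b2256
  have c2643 := LP3 H i30 i1 i4 c171 (Lsw H i4 i30 b654) (Lsw H i1 i88 b2253)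
  have c2651 := Lck c364 c2093 b2256
  have c2653 := Lck c395 c2152.symm b2247
  have c2654 := Lck c395 c2153.symm b2250
  have c2658 := Lck c395 c1425 b2256
  have c2661 := LP2 H i1 i59 i5 c686.symm b5 (Lsw H i5 i59 b2284)
  have c2673 := Lck c688 c2113 b2256
  have c2676 := LP2 H i1 i62 i5 c692.symm b5 (Lsw H i5 i62 b2285)
  have c2697 := LP2 H i1 i66 i4 c700.symm b4 (Lsw H i4 i66 b2280)
  have c2717 := Lck c826.symm c1668 b2254
  have c2719 := Lck c826.symm c2114 b2256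
  have c2757 := Lck c846.symm c1843.symm b2256
  have c2759 := Lck c1242 c2106.symm b2247
  have c2767 := Lck c1251 c2112.symm b2250
  have c2771 := Lck c1251 c1634 b2256
  have c2773 := LP3 H i4 i2 i26 hbd.symm b653 (Lsw H i2 i81 b2261)
  have c2775 := LP3 H i4 i2 i27 hbd.symm (Lsw H i27 i4 b1821) (Lsw H i2 i83 b2262)
  have c2782 := Lck hbd c829 b2280
  have c2783 := Lck hbd.symm c1051 b2261
  have c2784 := Lck hbd.symm c1054 b2262
  have c2785 := Lck hbd.symm c1055 b2263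
  have c2787 := Lck hbd c1226.symm b2282
  have c2789 := Lck hbd.symm c1348.symm b2266
  have c2803 := Lck c23.symm c1065 b2261
  have c2808 := Lck c23.symm c1768.symm b2266
  have c2821 := Lck c14 c1014 b2261
  have c2829 := LP2 H i2 i9 i27 c16.symm b634 b2307
  have c2831 := LP2 H i2 i9 i39 c16.symm b638 b2309
  have c2837 := Lck c47 c1042.symm b2261
  have c2839 := LP2 H i2 i15 i13 c49.symm b132 (Lsw H i13 i15 b2322)
  have c2859 := LP2 H i2 i25 i10 c236 b34 (Lsw H i10 i25 b2311)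
  have c2868 := LP3 H i34 i2 i3 c179 (Lsw H i3 i34 b647) (Lsw H i2 i81 b2261)
  have e2870 := (LP1 H i34 i2 i5 c179 (Lsw H i5 i34 b663) b7 (Lsw H i2 i93 b2265)).symm.trans b2308
  have m2871 : t138 = t181 := e2870
  subst m2871
  have c2880 := Lck c183 c2092 b2266
  have c2883 := Lck c390 c2154.symm b2262
  have c2886 := Lck c390 c1381 b2266
  have c2890 := Lck c337 c2094 b2266
  have c2893 := LP2 H i2 i59 i5 c820 b7 (Lsw H i5 i59 b2284)
  have c2914 := Lck c829.symm c2219 b2267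
  have c2922 := Lck c702 c2060 b2267
  have c2930 := Lck c710 c2074 b2267
  have c2931 := LP2 H i2 i72 i3 c712.symm b6 (Lsw H i3 i72 b2271)
  have c2932 := LP2 H i2 i72 i5 c712.symm b7 (Lsw H i5 i72 b2287)
  have c2949 := LP2 H i2 i76 i3 c720.symm b6 (Lsw H i3 i76 b2273)
  have c2952 := Lck c720 c2236 b2261
  have c2964 := Lck c1085 c2047 b2267
  have c2969 := Lck c1094 c1930 b2263
  have c2973 := Lck c1094 c2088 b2267
  have c2982 := Lck c948.symm c1857.symm b2266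
  have c2983 := Lck c948.symm c2220 b2267
  have c2997 := LP3 H i3 i4 i25 hcd b644 (Lsw H i4 i62 b2278)
  have c3002 := Lck hcd c842 b2278
  have c3004 := Lck hcd c847 b2280
  have c3005 := Lck hcd.symm c943 b2271
  have c3006 := Lck hcd.symm c947 b2273
  have c3009 := Lck hcd c1340.symm b2282
  have c3010 := Lck hcd.symm c1341.symm b2275
  have c3023 := Lck c25.symm c960 b2271
  have c3027 := Lck c25.symm c1764.symm b2275
  have c3043 := LP2 H i3 i10 i25 c18.symm b644 b2311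
  have c3045 := LP2 H i3 i10 i34 c18.symm b647 b2313
  have c3056 := Lck c74.symm c929.symm b2271
  have c3077 := LP2 H i3 i27 i9 c247 b37 (Lsw H i9 i27 b2307)
  have c3083 := Lck c304 c2078 b2275
  have c3085 := LP2 H i3 i38 i7 c187.symm b36 (Lsw H i7 i38 b2299)
  have c3090 := LP3 H i39 i3 i2 c189 (Lsw H i2 i39 b638) (Lsw H i3 i72 b2271)
  have e3092 := (LP1 H i39 i3 i5 c189 (Lsw H i5 i39 b665) b8 (Lsw H i3 i95 b2276)).symm.trans b2315
  have m3093 : t149 = t188 := e3092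
  subst m3093
  have c3094 := LP2 H i3 i39 i9 c189.symm b37 (Lsw H i9 i39 b2309)
  have c3097 := LP3 H i40 i3 i2 c191 (Lsw H i2 i40 b639) (Lsw H i3 i73 b2272)
  have c3101 := Lck c384 c2150.symm b2269
  have c3104 := Lck c384 c1380 b2275
  have c3108 := Lck c335.symm c2080 b2275
  have c3110 := LP2 H i3 i62 i5 c842 b8 (Lsw H i5 i62 b2285)
  have c3142 := Lck c988 c2185 b2272
  have c3161 := LP2 H i3 i81 i5 c730.symm b8 (Lsw H i5 i81 b2289)
  have c3169 := LP2 H i3 i83 i2 c734.symm (Lsw H i2 i3 b6) (Lsw H i2 i83 b2262)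
  have c3175 := LP2 H i3 i84 i2 c736.symm (Lsw H i2 i3 b6) (Lsw H i2 i84 b2263)
  have c3186 := Lck c1056.symm c2206 b2272
  have c3191 := Lck c1340 c2102.symm b2269
  have c3203 := LP3 H i6 i4 i18 c11 (Lsw H i18 i6 b1828) (Lsw H i4 i82 b2281)
  have c3223 := Lck c27.symm c874 b2278
  have c3227 := Lck c27.symm c1807.symm b2282
  have c3237 := Lck c83.symm c832.symm b2278
  have c3248 := Lck c256 c2050 b2282
  have c3252 := LP2 H i4 i33 i7 c285 b39 (Lsw H i7 i33 b2298)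
  have c3258 := LP3 H i38 i4 i1 c320.symm (Lsw H i1 i38 b628) (Lsw H i4 i62 b2278)
  have c3260 := LP2 H i4 i38 i7 c320 b39 (Lsw H i7 i38 b2299)
  have c3269 := Lck c193 c2052 b2282
  have c3272 := LP3 H i45 i4 i1 c201 (Lsw H i1 i45 b631) (Lsw H i4 i65 b2279)
  have c3278 := Lck c379 c1424 b2282
  have c3282 := Lck c886 c2183 b2279
  have c3283 := Lck c886 c1667 b2280
  have c3289 := Lck c878 c2186 b2279
  have c3294 := LP2 H i4 i71 i1 c942 (Lsw H i1 i4 b4) (Lsw H i1 i71 b2247)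
  have c3299 := LP2 H i4 i72 i5 c943 b9 (Lsw H i5 i72 b2287)
  have c3310 := Lck c947.symm c2195 b2279
  have c3315 := LP2 H i4 i80 i1 c1050 (Lsw H i1 i4 b4) (Lsw H i1 i80 b2250)
  have c3321 := LP2 H i4 i81 i5 c1051 b9 (Lsw H i5 i81 b2289)
  have c3333 := Lck c1055.symm c2198 b2279
  have c3342 := LP2 H i4 i91 i1 c750.symm (Lsw H i1 i4 b4) (Lsw H i1 i91 b2254)
  have c3357 := LP2 H i5 i7 i33 c13.symm b662 b2298
  have c3358 := LP2 H i5 i7 i38 c13.symm b664 b2299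
  have c3362 := LP2 H i5 i9 i27 c17.symm b661 b2307
  have c3363 := LP2 H i5 i9 i39 c17.symm b665 b2309
  have c3370 := LP2 H i5 i11 i24 c21.symm b658 b2316
  have c3375 := Lck c72.symm c80.symm b2320
  have c3377 := Lck c72 c1454 b2284
  have c3378 := Lck c72 c1457 b2285
  have c3380 := Lck c72 c929.symm b2287
  have c3382 := Lck c67 c1419 b2284
  have c3383 := Lck c67 c1421 b2285
  have c3385 := Lck c67 c1369 b2287
  have c3387 := Lck c67 c1042.symm b2289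
  have c3388 := Lck c80 c1544.symm b2284
  have c3389 := Lck c80 c832.symm b2285
  have c3390 := Lck c80 c1481 b2287
  have c3394 := Lck c90 c810.symm b2284
  have c3395 := Lck c90 c1566.symm b2285
  have c3396 := Lck c90 c1569.symm b2287
  have c3397 := Lck c90 c1479 b2289
  have c3406 := LP3 H i5 i30 i4 c263.symm (Lsw H i4 i5 b9) b2318
  have c3409 := Lck c263 c1987 b2284
  have c3410 := Lck c263 c1988 b2285
  have c3413 := LP3 H i5 i35 i3 c290.symm (Lsw H i3 i5 b8) b2314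
  have c3415 := Lck c290 c1984 b2287
  have c3418 := LP3 H i5 i40 i2 c325.symm (Lsw H i2 i5 b7) b2310
  have c3419 := LP3 H i40 i5 i2 c325 (Lsw H i2 i40 b639) (Lsw H i5 i73 b2288)
  have c3420 := Lck c325 c1982 b2285
  have c3422 := Lck c325 c2101 b2289
  have c3426 := LP3 H i5 i45 i1 c355.symm (Lsw H i1 i5 b5) b2300
  have c3427 := LP3 H i45 i5 i1 c355 (Lsw H i1 i45 b631) (Lsw H i5 i65 b2286)
  have c3430 := Lck c355 c1985 b2287
  have c3431 := Lck c355 c1986 b2289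
  have c3439 := LP2 H i5 i60 i3 c2015.symm (Lsw H i3 i5 b8) (Lsw H i3 i60 b2269)
  have c3441 := Lck c2015 c1661 b2285
  have c3443 := Lck c2015 c1643 b2287
  have c3446 := LP2 H i5 i63 i2 c2013.symm (Lsw H i2 i5 b7) (Lsw H i2 i63 b2259)
  have c3448 := Lck c2013 c1669.symm b2285
  have c3452 := Lck c2013 c1850 b2289
  have c3454 := Lck c1301 c1658.symm b2284
  have c3455 := Lck c1301 c1674.symm b2285
  have c3457 := Lck c1301 c2245 b2287
  have c3461 := Lck c2016 c1625 b2284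
  have c3462 := Lck c2016 c1833 b2285
  have c3468 := LP2 H i5 i71 i1 c2018.symm (Lsw H i1 i5 b5) (Lsw H i1 i71 b2247)
  have c3469 := Lck c2018 c1635.symm b2284
  have c3470 := Lck c2018 c823.symm b2285
  have c3474 := Lck c2018 c1834 b2289
  have c3478 := Lck c2017 c1677.symm b2287
  have c3482 := LP2 H i5 i76 i3 c1295.symm (Lsw H i3 i5 b8) (Lsw H i3 i76 b2273)
  have c3486 := Lck c1295 c1678.symm b2287
  have c3490 := Lck c2014 c1794 b2284
  have c3491 := Lck c2014 c1602 b2285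
  have c3496 := LP2 H i5 i80 i1 c2020.symm (Lsw H i1 i5 b5) (Lsw H i1 i80 b2250)
  have c3497 := Lck c2020 c839.symm b2284
  have c3500 := Lck c2020 c1796 b2287
  have c3501 := Lck c2020 c1651 b2289
  have c3503 := LP2 H i5 i83 i2 c2019.symm (Lsw H i2 i5 b7) (Lsw H i2 i83 b2262)
  have c3504 := Lck c2019 c1944 b2284
  have c3505 := Lck c2019 c1623.symm b2285
  have c3508 := Lck c2019 c1663.symm b2289
  have c3510 := LP2 H i5 i84 i2 c1296.symm (Lsw H i2 i5 b7) (Lsw H i2 i84 b2263)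
  have c3511 := Lck c1296 c2244 b2284
  have c3512 := Lck c1296 c1624.symm b2285
  have c3516 := Lck c1296 c1664.symm b2289
  have c3518 := LP2 H i5 i91 i1 c1302.symm (Lsw H i1 i5 b5) (Lsw H i1 i91 b2254)
  have c3519 := Lck c1302 c2246 b2284
  have c3522 := Lck c1302 c1613.symm b2287
  have c3524 := Lck c1302 c1632.symm b2289
  have c3528 := LP2 H i5 i93 i3 c754.symm (Lsw H i3 i5 b8) (Lsw H i3 i93 b2275)
  have c3531 := LP2 H i5 i95 i2 c758.symm (Lsw H i2 i5 b7) (Lsw H i2 i95 b2266)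
  have c3534 := LP2 H i5 i96 i1 c760.symm (Lsw H i1 i5 b5) (Lsw H i1 i96 b2256)
  have c3603 := LP2 H i6 i62 i5 c1188 (Lsw H i5 i6 b41) (Lsw H i5 i62 b2285)
  have c3653 := Lck c24 c414 b2307
  have c3654 := Lck c24.symm c415 b2298
  have c3655 := Lck c24.symm c318.symm b2299
  have c3656 := Lck c24 c316.symm b2309
  have c3657 := Lck c24 c2029 b2310
  have c3658 := Lck c24.symm c2033 b2300
  have c3660 := Lck c26 c408 b2311
  have c3662 := Lck c26.symm c282.symm b2298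
  have c3663 := Lck c26 c280.symm b2313
  have c3665 := Lck c26.symm c409 b2299
  have c3666 := Lck c26.symm c2034 b2300
  have b3675 := LP1 H i14 i7 i3 c48 b521 (Lsw H i3 i7 b36) (Lsw H i7 i26 b2297)
  have c3682 := LP3 H i23 i7 i4 c79.symm (Lsw H i4 i23 b145) (Lsw H i7 i45 b2300)
  have c3685 := Lck c79.symm c1906 b2298
  have c3686 := Lck c79.symm c1907 b2299
  have c3703 := Lck c280 c491.symm b2298
  have c3710 := Lck c2027.symm c599.symm b2298
  have c3711 := Lck c2027.symm c546 b2299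
  have c3716 := Lck c316 c488.symm b2299
  have c3727 := Lck c427.symm c554 b2298
  have c3728 := Lck c427.symm c567 b2299
  have c3732 := Lck c2035.symm c556 b2298
  have c3733 := Lck c2035.symm c600.symm b2299
  have c3746 := Lco i153 i7 (LP1 H i7 i66 i4 c864 (Lsw H i4 i7 b39) (Lsw H i4 i66 b2280) (k_one i20 i66 c2222))
  have c3771 := LP2 H i7 i92 i4 c891 (Lsw H i4 i7 b39) (Lsw H i4 i92 b2282)
  have c3774 := LP2 H i7 i95 i2 c906 (Lsw H i2 i7 b33) (Lsw H i2 i95 b2266)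
  have c3776 := LP2 H i8 i15 i13 c96 b674 (Lsw H i13 i15 b2322)
  have c3827 := LP2 H i8 i72 i5 c1119 (Lsw H i5 i8 b42) (Lsw H i5 i72 b2287)
  have c3857 := Lck c28 c449.symm b2316
  have c3859 := Lck c28 c241.symm b2317
  have c3860 := Lck c28.symm c243.symm b2307
  have c3863 := Lck c28.symm c474.symm b2309
  have c3864 := Lck c28.symm c2030 b2310
  have b3865 := LP1 H i14 i9 i4 c87.symm b543 b118 (Lsw H i9 i34 b2308)
  have e3870 := (LP1 H i9 i16 i1 c88 b114 (Lsw H i1 i16 b125) (Lsw H i16 i14 b3865)).symm.trans (Lsw H i9 i25 b2306)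
  have m3871 : t138 = t179 := e3870
  subst m3871
  have c3877 := LP3 H i22 i9 i3 c84.symm (Lsw H i3 i22 b140) (Lsw H i9 i40 b2310)
  have c3879 := Lck c84.symm c1894 b2307
  have c3880 := Lck c84.symm c1895 b2309
  have c3888 := Lck c241 c489 b2307
  have c3889 := Lck c241 c604 b2309
  have c3893 := Lck c2021.symm c490.symm b2307
  have c3894 := Lck c2021.symm c248 b2309
  have c3911 := Lck c2031.symm c319.symm b2307
  have c3912 := Lck c2031.symm c593.symm b2309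
  have c3917 := Lco i178 i9 (LP1 H i9 i46 i8 c428 (Lsw H i8 i9 b155) (Lsw H i8 i46 b2305) (k_one i36 i46 c2158))
  have c3919 := Lck c428.symm c532 b2307
  have c3920 := Lck c428.symm c596.symm b2309
  have c3925 := LP2 H i9 i60 i3 c1261 (Lsw H i3 i9 b37) (Lsw H i3 i60 b2269)
  have c3936 := Lco i146 i9 (LP1 H i9 i76 i3 c979 (Lsw H i3 i9 b37) (Lsw H i3 i76 b2273) (k_one i18 i76 c2225))
  have c3940 := Lck c1954 c1108.symm b2307
  have c3953 := LP2 H i9 i93 i3 c1002 (Lsw H i3 i9 b37) (Lsw H i3 i93 b2275)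
  have c3954 := LP2 H i9 i96 i1 c1009 b114 (Lsw H i1 i96 b2256)
  have c3956 := Lck c29 c230.symm b2316
  have c3957 := Lck c29.symm c232.symm b2311
  have c3961 := Lck c29.symm c473.symm b2313
  have e3965 := (LP1 H i12 i10 i4 c44 b560 (Lsw H i4 i10 b40) (Lsw H i10 i39 b2315)).symm.trans (Lsw H i12 i19 b2321)
  have m3966 : t149 = t194 := e3965
  subst m3966
  have e3975 := (LP1 H i10 i19 i1 c98 (Lsw H i1 i10 b31) (Lsw H i1 i19 b127) b2321).symm.trans (Lsw H i10 i27 b2312)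
  have m3976 : t149 = t185 := e3975
  subst m3976
  have c3978 := LP3 H i22 i10 i2 c94.symm (Lsw H i2 i22 b135) (Lsw H i10 i35 b2314)
  have c3985 := Lck c230 c484 b2311
  have c4007 := Lck c409.symm c245.symm b2311
  have c4019 := Lco i178 i10 (LP1 H i10 i46 i8 c430 (Lsw H i8 i10 b156) (Lsw H i8 i46 b2305) (k_one i56 i46 c2160))
  have c4033 := Lck c1959 c1005.symm b2311
  have c4043 := Lco i154 i10 (LP1 H i10 i82 i4 c1272 (Lsw H i4 i10 b40) (Lsw H i4 i82 b2281) (k_one i19 i82 c2172))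
  have c4045 := LP2 H i10 i83 i2 c1286 (Lsw H i2 i10 b34) (Lsw H i2 i83 b2262)
  have c4053 := LP2 H i10 i95 i2 c1106 (Lsw H i2 i10 b34) (Lsw H i2 i95 b2266)
  have c4069 := LP3 H i23 i11 i1 c100.symm (Lsw H i1 i23 b130) (Lsw H i11 i30 b2318)
  have c4081 := Lck c243 c489.symm b2317
  have c4101 := Lco i168 i11 (LP1 H i11 i47 i6 c448 (Lsw H i6 i11 b152) (Lsw H i6 i47 b2295) (k_one i41 i47 c2167))
  have c4122 := LP2 H i11 i71 i1 c965.symm (Lsw H i1 i11 b32) (Lsw H i1 i71 b2247)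
  have c4131 := LP2 H i11 i80 i1 c1071.symm (Lsw H i1 i11 b32) (Lsw H i1 i80 b2250)
  have c4142 := Lco i137 i11 (LP1 H i11 i88 i2 c1268 (Lsw H i2 i11 b35) (Lsw H i2 i88 b2264) (k_one i16 i88 c2166))
  have c4143 := Lco i147 i11 (LP1 H i11 i88 i3 c1268 (Lsw H i3 i11 b38) (Lsw H i3 i88 b2274) (k_one i19 i88 c2169))
  have c4149 := LP2 H i11 i95 i2 c1224 (Lsw H i2 i11 b35) (Lsw H i2 i95 b2266)
  have c4151 := LP2 H i11 i96 i1 c1180 (Lsw H i1 i11 b32) (Lsw H i1 i96 b2256)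
  have c4182 := Lco i178 i12 (LP1 H i12 i46 i8 c400 (Lsw H i8 i12 b673) (Lsw H i8 i46 b2305) (k_one i77 i46 c2193.symm))
  have c4195 := LP2 H i12 i65 i4 c2171 b560 (Lsw H i4 i65 b2279)
  have c4210 := Lck c70.symm c113.symm b2322
  have c4235 := Lck c266.symm c1921 b2322
  have c4291 := LP2 H i14 i65 i4 c2168 b543 (Lsw H i4 i65 b2279)
  have c4324 := LP2 H i15 i60 i3 c2068.symm b566 (Lsw H i3 i60 b2269)
  have c4335 := Lco i146 i15 (LP1 H i15 i76 i3 c1459 b566 (Lsw H i3 i76 b2273) (k_one i56 i76 c2200))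
  have c4367 := LP2 H i16 i73 i3 c2174 (Lsw H i3 i16 b138) (Lsw H i3 i73 b2272)
  have c4403 := LP2 H i18 i83 i2 c2084.symm b504 (Lsw H i2 i83 b2262)
  have c4406 := Lco i136 i18 (LP1 H i18 i84 i2 c1423 b504 (Lsw H i2 i84 b2263) (k_one i36 i84 c2207))
  have c4424 := Lco i173 i19 (LP1 H i19 i45 i7 c469 (Lsw H i7 i19 b672) (Lsw H i7 i45 b2300) (k_one i95 i45 c2100.symm))
  have c4437 := Lco i127 i19 (LP1 H i19 i91 i1 c1172 (Lsw H i1 i19 b127) (Lsw H i1 i91 b2254) (k_one i27 i91 c2233.symm))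
  have c4439 := LP2 H i19 i96 i1 c1256 (Lsw H i1 i19 b127) (Lsw H i1 i96 b2256)
  have c4451 := LP2 H i20 i71 i1 c2097.symm (Lsw H i1 i20 b128) (Lsw H i1 i71 b2247)
  have c4455 := LP2 H i20 i80 i1 c2098.symm (Lsw H i1 i20 b128) (Lsw H i1 i80 b2250)
  have c4461 := Lco i127 i20 (LP1 H i20 i91 i1 c1379 (Lsw H i1 i20 b128) (Lsw H i1 i91 b2254) (k_one i28 i91 c2212))
  have c4470 := Lco i153 i22 (LP1 H i22 i66 i4 c2176.symm (Lsw H i4 i22 b144) (Lsw H i4 i66 b2280) (k_one i41 i66 c2191))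
  have c4476 := Lco i155 i22 (LP1 H i22 i92 i4 c2039 (Lsw H i4 i22 b144) (Lsw H i4 i92 b2282) (k_one i41 i92 c2052))
  have c4479 := Lco i129 i22 (LP1 H i22 i96 i1 c2040 (Lsw H i1 i22 b129) (Lsw H i1 i96 b2256) (k_one i28 i96 c2091))
  have c4485 := Lco i146 i23 (LP1 H i23 i76 i3 c2178.symm b565 (Lsw H i3 i76 b2273) (k_one i56 i76 c2200))
  have c4487 := Lco i136 i23 (LP1 H i23 i84 i2 c2179.symm (Lsw H i2 i23 b136) (Lsw H i2 i84 b2263) (k_one i36 i84 c2207))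
  have c4491 := Lco i148 i23 (LP1 H i23 i93 i3 c2037 b565 (Lsw H i3 i93 b2275) (k_one i56 i93 c2080))
  have c4492 := Lco i139 i23 (LP1 H i23 i95 i2 c2038 (Lsw H i2 i23 b136) (Lsw H i2 i95 b2266) (k_one i36 i95 c2092))
  have c4500 := LP2 H i24 i59 i5 c1534 (Lsw H i5 i24 b658) (Lsw H i5 i59 b2284)
  have c4524 := LP2 H i25 i65 i4 c1551 (Lsw H i4 i25 b652) (Lsw H i4 i65 b2279)
  have c4531 := Lco i146 i25 (LP1 H i25 i76 i3 c1007 (Lsw H i3 i25 b644) (Lsw H i3 i76 b2273) (k_one i62 i76 c2243.symm))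
  have c4554 := LP2 H i27 i62 i5 c908 (Lsw H i5 i27 b661) (Lsw H i5 i62 b2285)
  have c4557 := LP2 H i27 i65 i4 c1573 b1821 (Lsw H i4 i65 b2279)
  have c4593 := Lco i140 i30 (LP1 H i30 i103 i2 c854 (Lsw H i2 i30 b636) (Lsw H i2 i103 b2267) (k_one i67 i103 c2060))
  have c4605 := LP2 H i33 i72 i5 c1012 (Lsw H i5 i33 b662) (Lsw H i5 i72 b2287)
  have c4607 := LP2 H i33 i73 i3 c1571 (Lsw H i3 i33 b646) (Lsw H i3 i73 b2272)
  have c4646 := Lco i156 i35 (LP1 H i35 i103 i4 c1414 (Lsw H i4 i35 b655) (Lsw H i4 i103 b2283) (k_one i74 i103 c2076))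
  have c4655 := LP2 H i36 i96 i1 c1278 b1722 (Lsw H i1 i96 b2256)
  have c4703 := Lco i156 i40 (LP1 H i40 i103 i4 c1450 (Lsw H i4 i40 b656) (Lsw H i4 i103 b2283) (k_one i83 i103 c2090))
  have c4730 := LP2 H i45 i96 i1 c1293 (Lsw H i1 i45 b631) (Lsw H i1 i96 b2256)
  have c4732 := Lco i140 i45 (LP1 H i45 i103 i2 c1142 (Lsw H i2 i45 b641) (Lsw H i2 i103 b2267) (k_one i71 i103 c2074))
  have c4750 := Lco i154 i47 (LP1 H i47 i82 i4 c1131 (Lsw H i4 i47 b657) (Lsw H i4 i82 b2281) (k_one i91 i82 c2211))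
  have c4753 := LP2 H i47 i96 i1 c1305 (Lsw H i1 i47 b632) (Lsw H i1 i96 b2256)
  have c4761 := Lco i154 i56 (LP1 H i56 i82 i4 c1537 b1824 (Lsw H i4 i82 b2281) (k_one i80 i82 c2182))
  have c4769 := LP2 H i59 i62 i5 c1653 (Lsw H i5 i59 b2284) (Lsw H i5 i62 b2285)
  have c4775 := LP2 H i59 i72 i5 c1637 (Lsw H i5 i59 b2284) (Lsw H i5 i72 b2287)
  have c4783 := LP2 H i60 i93 i3 c1759.symm (Lsw H i3 i60 b2269) (Lsw H i3 i93 b2275)
  have c4790 := LP2 H i62 i81 i5 c1618 (Lsw H i5 i62 b2285) (Lsw H i5 i81 b2289)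
  have c4821 := LP2 H i71 i96 i1 c1801.symm (Lsw H i1 i71 b2247) (Lsw H i1 i96 b2256)
  have c4829 := LP2 H i72 i81 i5 c1605 (Lsw H i5 i72 b2287) (Lsw H i5 i81 b2289)
  have c4846 := LP2 H i80 i96 i1 c1842.symm (Lsw H i1 i80 b2250) (Lsw H i1 i96 b2256)
  have q4882 : Rl [t25, t34, t35, t60, t74, t138] := LJ H i1 i4 i9 b4 (Lsw H i9 i1 b114) (Lsw H i9 i4 b118) b125 (Lsw H i14 i4 b543) (Lsw H i6 i9 b150) (Lsw H i14 i6 b1739) b668 (Lsw H i16 i14 b3865)
  have q4883 : Rl [t27, t39, t40, t63, t83, t149] := LJ H i1 i4 i10 b4 b31 b40 b127 (Lsw H i12 i4 b560) (Lsw H i6 i10 b151) b666 (Lsw H i19 i6 b1829) b2321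
  have q4884 : Rl [t66, t92, t92, t169, 1, 1] := LJ H i1 i5 i15 b5 b124 b147 b632 b658 (Lsw H i7 i15 b670) b2296 (k_one i7 i47 c427) (k_one i24 i47 c552.symm)
  have q4885 : Rl [1, t66, t92, t92, t169, 1] := q4884.mv 4 rfl
  have q4886 : Rl [t66, t92, t92, t169, 1] := q4885.del1
  have q4887 : Rl [1, t66, t92, t92, t169] := q4886.mv 4 rfl
  have q4888 : Rl [t66, t92, t92, t169] := q4887.del1
  have q4889 : Rl [t92, t66, t92, t169] := q4888.mv 2 rfl
  have q4890 : Rl [t92, t92, t66, t169] := q4889.mv 2 rfl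
  have q4891 : Rl [t66, t169] := q4890.del2
  have e4892 := q4891.two
  have m4893 : t66 = t169 := e4892
  subst m4893
  have q4894 : Rl [t66, t92, t92, t128, 1, 1] := LJ H i1 i5 i18 b5 b126 b148 b632 b660 b1896 b2297 (k_one i7 i47 c427) (k_one i26 i47 c601)
  have q4895 : Rl [1, t66, t92, t92, t128, 1] := q4894.mv 4 rfl
  have q4896 : Rl [t66, t92, t92, t128, 1] := q4895.del1
  have q4897 : Rl [1, t66, t92, t92, t128] := q4896.mv 4 rfl
  have q4898 : Rl [t66, t92, t92, t128] := q4897.del1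
  have q4899 : Rl [t92, t66, t92, t128] := q4898.mv 2 rfl
  have q4900 : Rl [t92, t92, t66, t128] := q4899.mv 2 rfl
  have q4901 : Rl [t66, t128] := q4900.del2
  have e4902 := q4901.two
  have m4903 : t66 = t128 := e4902
  subst m4903
  have q4904 : Rl [t24, t26, t30, t67, t77, t66] := LJ H i2 i3 i7 b6 b33 b36 b131 (Lsw H i14 i3 b521) b153 (Lsw H i14 i8 b1742) b673 (Lsw H i12 i14 b3675)
  have q4905 : Rl [t76, t93, t93, t138, 1, 1] := LJ H i2 i5 i13 b7 b132 b146 b642 b659 b1952 b2306 (k_one i9 i46 c428) (k_one i25 i46 c531.symm)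
  have q4906 : Rl [1, t76, t93, t93, t138, 1] := q4905.mv 4 rfl
  have q4907 : Rl [t76, t93, t93, t138, 1] := q4906.del1
  have q4908 : Rl [1, t76, t93, t93, t138] := q4907.mv 4 rfl
  have q4909 : Rl [t76, t93, t93, t138] := q4908.del1
  have q4910 : Rl [t93, t76, t93, t138] := q4909.mv 2 rfl
  have q4911 : Rl [t93, t93, t76, t138] := q4910.mv 2 rfl
  have q4912 : Rl [t76, t138] := q4911.del2
  have e4913 := q4912.two
  have m4914 : t76 = t138 := e4913
  subst m4914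
  have q4915 : Rl [t84, t95, t95, t149, 1, 1] := LJ H i3 i5 i13 b8 b137 b146 b650 b661 (Lsw H i10 i13 b680) b2312 (k_one i10 i46 c430) (k_one i27 i46 c532.symm)
  have q4916 : Rl [1, t84, t95, t95, t149, 1] := q4915.mv 4 rfl
  have q4917 : Rl [t84, t95, t95, t149, 1] := q4916.del1
  have q4918 : Rl [1, t84, t95, t95, t149] := q4917.mv 4 rfl
  have q4919 : Rl [t84, t95, t95, t149] := q4918.del1
  have q4920 : Rl [t95, t84, t95, t149] := q4919.mv 2 rfl
  have q4921 : Rl [t95, t95, t84, t149] := q4920.mv 2 rfl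
  have q4922 : Rl [t84, t149] := q4921.del2
  have e4923 := q4922.two
  have m4924 : t84 = t149 := e4923
  subst m4924
  have q4925 : Rl [t91, t96, t96, t192, 1, 1] := LJ H i4 i5 i18 b9 b143 b148 b657 b664 (Lsw H i11 i18 b685) b2319 (k_one i11 i47 c448) (k_one i38 i47 c567.symm)
  have q4926 : Rl [1, t91, t96, t96, t192, 1] := q4925.mv 4 rfl
  have q4927 : Rl [t91, t96, t96, t192, 1] := q4926.del1
  have q4928 : Rl [1, t91, t96, t96, t192] := q4927.mv 4 rfl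
  have q4929 : Rl [t91, t96, t96, t192] := q4928.del1
  have q4930 : Rl [t96, t91, t96, t192] := q4929.mv 2 rfl
  have q4931 : Rl [t96, t96, t91, t192] := q4930.mv 2 rfl
  have q4932 : Rl [t91, t192] := q4931.del2
  have e4933 := q4932.two
  have m4934 : t91 = t192 := e4933
  subst m4934
  have q4937 : Rl [t20, t13, t22, t28, t41, t46] := q611.mv 1 rfl
  have c4938 := q4937.l1 (.cons c4151 (.cons c4479.symm (.cons c2640 (.cons c2651 (.cons c2658 .nil)))))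
  have c4941 := q611.l1 (.cons c3771 (.cons c4476.symm (.cons c3248 (.cons c3269 (.cons c3278 .nil)))))
  have q4949 : Rl [t18, t15, t23, t36, t56, t47] := q495.mv 1 rfl
  have c4950 := q4949.l1 (.cons c4053 (.cons c4492.symm (.cons c2880 (.cons c2890 (.cons c2886 .nil)))))
  have c4953 := q495.l1 (.cons c3953 (.cons c4491.symm (.cons c3083 (.cons c3108 (.cons c3104 .nil)))))
  have e4990 := (LP1 H i1 i2 i38 hab b628 b637 (Lsw H i2 i62 b2258)).symm.trans (Lsw H i1 i71 b2247)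
  have m4991 : t120 = t131 := e4990.symm
  subst m4991
  have e4992 := (LP1 H i1 i2 i39 hab b629 b638 (Lsw H i2 i63 b2259)).symm.trans (Lsw H i1 i72 b2248)
  have m4993 : t121 = t132 := e4992.symm
  subst m4993
  have e4994 := (LP1 H i1 i2 i40 hab b630 b639 (Lsw H i2 i63 b2259)).symm.trans (Lsw H i1 i73 b2249)
  have m4995 : t121 = t122 := e4994
  subst m4995
  have e4996 := (LP1 H i1 i2 i45 hab b631 b641 (Lsw H i2 i65 b2260)).symm.trans (Lsw H i1 i71 b2247)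
  have m4997 : t120 = t133 := e4996.symm
  subst m4997
  have e4998 := (LP1 H i1 i3 i33 hac b625 b646 (Lsw H i3 i59 b2268)).symm.trans (Lsw H i1 i80 b2250)
  have m4999 : t123 = t141 := e4998.symm
  subst m4999
  have e5000 := (LP1 H i1 i3 i34 hac b626 b647 (Lsw H i3 i60 b2269)).symm.trans (Lsw H i1 i81 b2251)
  have m5001 : t124 = t142 := e5000.symm
  subst m5001
  have e5002 := (LP1 H i1 i3 i35 hac b627 b648 (Lsw H i3 i60 b2269)).symm.trans (Lsw H i1 i82 b2252)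
  have m5003 : t124 = t125 := e5002
  subst m5003
  have e5004 := (LP1 H i1 i3 i45 hac b631 (Lsw H i45 i3 b1827) (Lsw H i3 i65 b2270)).symm.trans (Lsw H i1 i80 b2250)
  have m5005 : t123 = t143 := e5004.symm
  subst m5005
  have b5006 := LP1 H i6 i1 i15 c10 b667 b124 (Lsw H i1 i73 b2249)
  have b5007 := LP1 H i6 i1 i18 c10 (Lsw H i18 i6 b1828) b126 (Lsw H i1 i82 b2252)
  have e5008 := (LP1 H i1 i6 i23 c10.symm b130 b669 (Lsw H i6 i30 b2291)).symm.trans (Lsw H i1 i103 b2257)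
  have m5009 : t130 = t164 := e5008.symm
  subst m5009
  have e5010 := (LP1 H i1 i8 i16 c22 b125 (Lsw H i16 i8 b1791) (Lsw H i8 i25 b2301)).symm.trans (Lsw H i1 i71 b2247)
  have m5011 : t120 = t174 := e5010.symm
  subst m5011
  have e5012 := (LP1 H i1 i8 i19 c22 b127 b675 (Lsw H i8 i27 b2302)).symm.trans (Lsw H i1 i80 b2250)
  have m5013 : t123 = t175 := e5012.symm
  subst m5013
  have e5014 := (LP1 H i1 i8 i20 c22 b128 b676 (Lsw H i8 i28 b2303)).symm.trans (Lsw H i1 i88 b2253)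
  have m5015 : t126 = t176 := e5014.symm
  subst m5015
  have e5016 := (LP1 H i1 i8 i22 c22 b129 b677 (Lsw H i8 i28 b2303)).symm.trans (Lsw H i1 i103 b2257)
  have m5017 : t126 = t130 := e5016
  subst m5017
  have c5025 := Lck c2513.symm c2969.symm b2250
  have c5080 := Lck c3426 c3682 b4
  have c5100 := Lck c4069 c3406 b4
  have b5112 := LP1 H i4 i2 i26 hbd.symm b653 b633 (Lsw H i2 i81 b2261)
  have e5113 := (LP1 H i2 i4 i27 hbd b634 (Lsw H i27 i4 b1821) (Lsw H i4 i59 b2277)).symm.trans (Lsw H i2 i83 b2262)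
  have m5114 : t135 = t150 := e5113.symm
  subst m5114
  have e5115 := (LP1 H i2 i4 i30 hbd b636 b654 b5112).symm.trans (Lsw H i2 i88 b2264)
  have m5116 : t134 = t137 := e5115
  subst m5116
  have b5117 := LP1 H i4 i2 i40 hbd.symm b656 b639 (Lsw H i2 i83 b2262)
  have e5118 := (LP1 H i2 i6 i19 c23 b133 (Lsw H i19 i6 b1829) (Lsw H i6 i33 b2292)).symm.trans (Lsw H i2 i83 b2262)
  have m5119 : t135 = t165 := e5118.symm
  subst m5119
  have b5120 := LP1 H i6 i2 i23 c23.symm b669 b136 (Lsw H i2 i103 b2267)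
  have b5121 := LP1 H i8 i2 i20 c14 b676 b134 (Lsw H i2 i88 b2264)
  have b5122 := LP1 H i8 i2 i22 c14 b677 b135 (Lsw H i2 i103 b2267)
  have c5123 := LP3 H i2 i35 i3 c181.symm b6 (Lsw H i35 i8 b5122)
  have c5164 := Lck c3418 c3877 b6
  have c5175 := Lck c3978 c3413 b6
  have b5186 := LP1 H i4 i3 i24 hcd.symm b651 b643 (Lsw H i3 i72 b2271)
  have b5187 := LP1 H i3 i4 i25 hcd b644 b652 (Lsw H i4 i62 b2278)
  have e5188 := (LP1 H i3 i4 i30 hcd b645 b654 b5186).symm.trans (Lsw H i3 i88 b2274)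
  have m5189 : t144 = t147 := e5188
  subst m5189
  have e5190 := (LP1 H i3 i4 i35 hcd b648 b655 (Lsw H i4 i82 b2281)).symm.trans b5187
  have m5191 : t151 = t154 := e5190.symm
  subst m5191
  have b5192 := LP1 H i6 i3 i15 c25.symm b667 (Lsw H i15 i3 b566) (Lsw H i3 i73 b2272)
  have e5193 := (LP1 H i3 i6 i16 c25 b138 b668 (Lsw H i6 i38 b2293)).symm.trans b5187
  have m5194 : t151 = t166 := e5193.symm
  subst m5194
  have b5195 := LP1 H i3 i6 i23 c25 (Lsw H i23 i3 b565) b669 b5192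
  have b5196 := LP1 H i8 i3 i20 c15 b676 b139 (Lsw H i3 i88 b2274)
  have b5199 := LP1 H i40 i3 i2 c191 (Lsw H i2 i40 b639) (Lsw H i2 i3 b6) (Lsw H i3 i73 b2272)
  have c5211 := Lck c2868 c2952.symm b2273
  have c5219 := Lck c3004.symm c3283.symm b2269
  have e5267 := (LP1 H i4 i6 i23 c11.symm b145 b669 (Lsw H i6 i45 b2294)).symm.trans (Lsw H i4 i103 b2283)
  have m5268 : t156 = t167 := e5267.symm
  subst m5268
  have e5269 := (LP1 H i4 i8 i13 c27 b141 b674 (Lsw H i8 i41 b2304)).symm.trans (Lsw H i4 i65 b2279)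
  have m5270 : t152 = t177 := e5269.symm
  subst m5270
  have e5271 := (LP1 H i4 i8 i22 c27 b144 b677 (Lsw H i8 i41 b2304)).symm.trans (Lsw H i4 i103 b2283)
  have m5272 : t152 = t156 := e5271
  subst m5272
  have b5273 := LP1 H i4 i11 i18 c20.symm b143 b685 (Lsw H i11 i38 b2319)
  have b5274 := LP1 H i16 i4 i10 c83.symm (Lsw H i10 i16 b681) b40 b5273
  have b5275 := LP1 H i33 i4 i5 c285.symm (Lsw H i5 i33 b662) b9 b5273
  have e5335 := (LP1 H i5 i30 i4 c263.symm (Lsw H i4 i5 b9) (Lsw H i4 i30 b654) b2318).symm.trans (Lsw H i5 i88 b2290)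
  have m5336 : t163 = t191 := e5335.symm
  subst m5336
  have b5337 := LP1 H i5 i35 i3 c290.symm (Lsw H i3 i5 b8) (Lsw H i3 i35 b648) b2314
  have e5338 := (LP1 H i5 i40 i2 c325.symm (Lsw H i2 i5 b7) (Lsw H i2 i40 b639) b2310).symm.trans (Lsw H i5 i73 b2288)
  have m5339 : t161 = t183 := e5338.symm
  subst m5339
  have e5340 := (LP1 H i5 i45 i1 c355.symm (Lsw H i1 i5 b5) (Lsw H i1 i45 b631) b2300).symm.trans (Lsw H i5 i65 b2286)
  have m5341 : t159 = t173 := e5340.symm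
  subst m5341
  have c5342 := Lco i178 i5 (LP1 H i5 i46 i8 c203.symm b42 (Lsw H i8 i46 b2305) (k_one i23 i46 c441))
  have c5343 := Lco i168 i5 (LP1 H i5 i47 i6 c205.symm b41 (Lsw H i6 i47 b2295) (k_one i22 i47 c455))
  have c5350 := Lco i22 i65 (LP1 H i65 i6 i5 c1199.symm (Lsw H i5 i65 b2286) (Lsw H i5 i6 b41) (k_one i159 i6 c5080))
  have c5351 := Lco i22 i88 (LP1 H i88 i6 i5 c915.symm (Lsw H i5 i88 b2290) (Lsw H i5 i6 b41) (k_one i163 i6 c5100))
  have e5378 := (LP1 H i7 i23 i4 c79 (Lsw H i4 i7 b39) (Lsw H i4 i23 b145) b2329).symm.trans (Lsw H i7 i45 b2300)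
  have m5379 : t159 = t202 := e5378.symm
  subst m5379
  have c5381 := Lco i178 i7 (LP1 H i7 i46 i8 c274 b153 (Lsw H i8 i46 b2305) (k_one i30 i46 c542.symm))
  have c5384 := Lck c3468.symm c2497 b2299
  have c5385 := Lck c3496.symm c2522 b2298
  have c5409 := Lco i23 i73 (LP1 H i73 i8 i5 c1125.symm (Lsw H i5 i73 b2288) (Lsw H i5 i8 b42) (k_one i161 i8 c5164))
  have c5410 := Lco i23 i82 (LP1 H i82 i8 i5 c1021.symm b5337 (Lsw H i5 i8 b42) (k_one i187 i8 c5175))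
  have e5429 := (LP1 H i9 i22 i3 c84 (Lsw H i3 i9 b37) (Lsw H i3 i22 b140) b2328).symm.trans (Lsw H i9 i40 b2310)
  have m5430 : t161 = t201 := e5429.symm
  subst m5430
  have c5432 := Lck c3503.symm c2775 b2307
  have e5451 := (LP1 H i10 i22 i2 c94 (Lsw H i2 i10 b34) (Lsw H i2 i22 b135) b2326).symm.trans (Lsw H i10 i35 b2314)
  have m5452 : t187 = t199 := e5451.symm
  subst m5452
  have e5468 := (LP1 H i11 i23 i1 c100 (Lsw H i1 i11 b32) (Lsw H i1 i23 b130) b2324).symm.trans (Lsw H i11 i30 b2318)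
  have m5469 : t163 = t197 := e5468.symm
  subst m5469
  have c5470 := LP2 H i11 i40 i8 c2030 (Lsw H i8 i11 b157) (Lsw H i8 i40 b5199)
  have c5490 := Lck c3056.symm c4143 (Lsw H i11 i12 b683)
  have c5509 := Lck c2837.symm c4142 (Lsw H i11 i14 b1872)
  have c5516 := Lck c3237.symm c4043 (Lsw H i10 i16 b681)
  have c5522 := Lco i103 i20 (LP1 H i20 i22 i8 c591.symm (Lsw H i8 i20 b676) (Lsw H i8 i22 b677) (k_one i88 i22 c5351.symm))
  have c5534 := Lck c2997 c4043 (Lsw H i10 i25 b2311)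
  have c5536 := Lck c2773 c4142 (Lsw H i11 i26 b2317)
  have c5543 := Lco i140 i33 (LP1 H i33 i36 i6 c599 (Lsw H i6 i33 b2292) b5120 (k_one i135 i36 c4403.symm))
  have c5545 := Lck c2524 c3439.symm (Lsw H i10 i34 b2313)
  have c5551 := Lck c2499 c3446.symm (Lsw H i9 i39 b2309)
  have q5576 : Rl [t33, t38, t45, t71, t80, t91] := LJ H i2 i3 i11 b6 b35 b38 b133 b138 (Lsw H i8 i11 b157) (Lsw H i16 i8 b1791) b675 (Lsw H i19 i16 b5274)
  have q5577 : Rl [t20, t13, t22, t28, t41, t46] := q611.mv 1 rfl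
  have c5578 := q5577.l1 (.cons c885 (.cons c5350 (.cons c1586 (.cons c921 (.cons c926 .nil)))))
  have c5579 := q611.l1 (.cons c1174 (.cons c5351 (.cons c1176 (.cons c1513 (.cons c1202 .nil)))))
  have q5580 : Rl [t18, t15, t23, t36, t56, t47] := q495.mv 1 rfl
  have c5581 := q5580.l1 (.cons c987 (.cons c5409 (.cons c1561 (.cons c1038 (.cons c1032 .nil)))))
  have c5582 := q495.l1 (.cons c1092 (.cons c5410 (.cons c1114 (.cons c1537 (.cons c1131 .nil)))))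
  have c5588 := q4882.l1 (.cons c4291 (.cons c4646.symm (.cons c3282 (.cons c4524 (.cons c3310 .nil)))))
  have c5595 := q4883.l1 (.cons c4195 (.cons c4703.symm (.cons c3289 (.cons c4557 (.cons c3333 .nil)))))
  have q5600 : Rl [t38, t33, t45, t71, t80, t91] := q5576.mv 1 rfl
  have c5601 := q5600.l1 (.cons c5543.symm (.cons c4732.symm (.cons c2930 (.cons c2973 (.cons c2983 .nil)))))
  have c5602 := q5576.l1 (.cons c4367 (.cons c5470 (.cons c3142 (.cons c4607 (.cons c3186 .nil)))))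
  have c5614 := Lck c3258 c5516 b2256
  have b5615 := LP1 H i2 i6 i18 c23 (Lsw H i18 i2 b504) (Lsw H i18 i6 b1828) b5120
  have c5627 := Lck c2868 c5509 b2275
  have c5643 := Lck c267.symm c2046 (Lsw H i35 i8 b5122)
  have c5649 := Lck c3658.symm c4424 b679
  have c5654 := Lco i41 i30 (LP1 H i30 i13 i4 c478.symm (Lsw H i4 i30 b654) (Lsw H i4 i13 b141) (k_one i88 i13 c5579.symm))
  have c5655 := LP2 H i13 i88 i2 c5579 (Lsw H i2 i13 b132) (Lsw H i2 i88 b2264)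
  have c5656 := LP2 H i13 i88 i3 c5579 (Lsw H i3 i13 b137) (Lsw H i3 i88 b2274)
  have c5661 := Lco i56 i35 (LP1 H i35 i15 i3 c465.symm (Lsw H i3 i35 b648) b566 (k_one i82 i15 c5582.symm))
  have c5662 := LP2 H i15 i82 i1 c5582 (Lsw H i1 i15 b124) (Lsw H i1 i82 b2252)
  have c5663 := LP2 H i15 i82 i4 c5582 (Lsw H i4 i15 b142) (Lsw H i4 i82 b2281)
  have c5667 := Lco i36 i40 (LP1 H i40 i18 i2 c453.symm (Lsw H i2 i40 b639) b504 (k_one i73 i18 c5581.symm))
  have c5668 := LP2 H i18 i73 i1 c5581 (Lsw H i1 i18 b126) (Lsw H i1 i73 b2249)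
  have c5669 := LP2 H i18 i73 i4 c5581 (Lsw H i4 i18 b143) b5117
  have c5673 := Lco i28 i45 (LP1 H i45 i20 i1 c440.symm (Lsw H i1 i45 b631) (Lsw H i1 i20 b128) (k_one i65 i20 c5578.symm))
  have c5674 := LP2 H i20 i65 i2 c5578 (Lsw H i2 i20 b134) (Lsw H i2 i65 b2260)
  have c5675 := LP2 H i20 i65 i3 c5578 (Lsw H i3 i20 b139) (Lsw H i3 i65 b2270)
  have c5687 := Lco i77 i60 (LP1 H i60 i24 i3 c892.symm (Lsw H i3 i60 b2269) (Lsw H i3 i24 b643) (k_one i124 i24 c5662.symm))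
  have c5689 := Lco i120 i41 (LP1 H i41 i25 i8 c283.symm (Lsw H i8 i41 b2304) (Lsw H i8 i25 b2301) (k_one i152 i25 c5588.symm))
  have c5690 := Lco i74 i65 (LP1 H i65 i25 i4 c1551.symm (Lsw H i4 i65 b2279) (Lsw H i4 i25 b652) (k_one i152 i25 c5588.symm))
  have c5691 := Lco i74 i67 (LP1 H i67 i25 i4 c1003.symm b5112 (Lsw H i4 i25 b652) (k_one i134 i25 c5655.symm))
  have c5692 := Lco i67 i63 (LP1 H i63 i26 i2 c904.symm (Lsw H i2 i63 b2259) (Lsw H i2 i26 b633) (k_one i121 i26 c5668.symm))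
  have c5693 := Lco i123 i41 (LP1 H i41 i27 i8 c319.symm (Lsw H i8 i41 b2304) (Lsw H i8 i27 b2302) (k_one i152 i27 c5595.symm))
  have c5694 := Lco i83 i65 (LP1 H i65 i27 i4 c1573.symm (Lsw H i4 i65 b2279) b1821 (k_one i152 i27 c5595.symm))
  have c5695 := Lco i83 i77 (LP1 H i77 i27 i4 c1107.symm b5186 b1821 (k_one i144 i27 c5656.symm))
  have c5700 := Lco i135 i56 (LP1 H i56 i33 i6 c556 b5192 (Lsw H i6 i33 b2292) (k_one i145 i33 c5602.symm))
  have c5702 := Lco i80 i74 (LP1 H i74 i33 i3 c1572.symm b5187 (Lsw H i3 i33 b646) (k_one i151 i33 c5663.symm))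
  have c5703 := Lco i60 i71 (LP1 H i71 i34 i1 c1018.symm (Lsw H i1 i71 b2247) (Lsw H i1 i34 b626) (k_one i120 i34 c5674.symm))
  have c5704 := Lco i151 i36 (LP1 H i36 i38 i6 c546 b5120 (Lsw H i6 i38 b2293) (k_one i140 i38 c5601.symm))
  have c5705 := Lco i71 i82 (LP1 H i82 i36 i4 c1114.symm (Lsw H i4 i82 b2281) b1782 (k_one i151 i36 c5704))
  have c5706 := Lco i71 i83 (LP1 H i83 i38 i2 c1550.symm (Lsw H i2 i83 b2262) (Lsw H i2 i38 b637) (k_one i135 i38 c5669.symm))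
  have c5707 := Lco i63 i80 (LP1 H i80 i39 i1 c1122.symm (Lsw H i1 i80 b2250) (Lsw H i1 i39 b629) (k_one i123 i39 c5675.symm))
  have q5708 : Rl [t22, t13, t20, t28, t41, t46] := q611.mv 2 rfl
  have c5709 := q5708.l1 (.cons c478 (.cons c356 (.cons c492 (.cons c5654 (.cons c542 .nil)))))
  have q5710 : Rl [t22, t13, t20, t28, t41, t46] := q611.mv 2 rfl
  have c5711 := q5710.l1 (.cons c266 (.cons c440 (.cons c5673 (.cons c494 (.cons c583 .nil)))))
  have q5712 : Rl [t23, t15, t18, t36, t56, t47] := q495.mv 2 rfl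
  have c5713 := q5712.l1 (.cons c465 (.cons c326 (.cons c493.symm (.cons c5661 (.cons c559 .nil)))))
  have q5714 : Rl [t23, t15, t18, t36, t56, t47] := q495.mv 2 rfl
  have c5715 := q5714.l1 (.cons c292 (.cons c453 (.cons c5667 (.cons c421.symm (.cons c571 .nil)))))
  have q5716 : Rl [t30, t24, t26, t67, t77, t66] := q4904.mv 2 rfl
  have c5717 := q5716.l1 (.cons c892 (.cons c903 (.cons c1642.symm (.cons c5687 (.cons c1667.symm .nil)))))
  have q5718 : Rl [t30, t24, t26, t67, t77, t66] := q4904.mv 2 rfl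
  have c5719 := q5718.l1 (.cons c893 (.cons c904 (.cons c5692 (.cons c1313.symm (.cons c1681.symm .nil)))))
  have q5720 : Rl [t26, t24, t30, t67, t77, t66] := q4904.mv 1 rfl
  have c5721 := q5720.l1 (.cons c5643 (.cons c4593.symm (.cons c2922 (.cons c2964 (.cons c2914 .nil)))))
  have q5726 : Rl [t40, t27, t39, t63, t83, t84] := q4883.mv 2 rfl
  have c5727 := q5726.l1 (.cons c1107 (.cons c1121 (.cons c1313 (.cons c5695 (.cons c1648.symm .nil)))))
  have q5728 : Rl [t40, t27, t39, t63, t83, t84] := q4883.mv 2 rfl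
  have c5729 := q5728.l1 (.cons c1108 (.cons c1122 (.cons c5707 (.cons c1835 (.cons c1930.symm .nil)))))
  have q5730 : Rl [t45, t33, t38, t71, t80, t91] := q5576.mv 2 rfl
  have c5731 := q5730.l1 (.cons c1572 (.cons c1190 (.cons c1683.symm (.cons c5702 (.cons c1668.symm .nil)))))
  have q5732 : Rl [t45, t33, t38, t71, t80, t91] := q5576.mv 2 rfl
  have c5733 := q5732.l1 (.cons c1540 (.cons c1550 (.cons c5706 (.cons c1835.symm (.cons c1682.symm .nil)))))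
  have c5744 := Lck c3427 c5649 b2256
  have c5770 := Lco i126 i5 (LP1 H i5 i30 i6 c263.symm b41 (Lsw H i6 i30 b2291) (k_one i22 i30 c5709))
  have c5771 := Lco i140 i5 (LP1 H i5 i35 i8 c290.symm b42 b5122 (k_one i23 i35 c5713))
  have c5772 := Lco i22 i36 (LP1 H i36 i5 i6 c298 b5120 b41 (k_one i140 i5 c5771))
  have c5773 := Lco i145 i5 (LP1 H i5 i40 i8 c325.symm b42 (Lsw H i8 i40 b5199) (k_one i23 i40 c5715))
  have c5774 := Lco i152 i5 (LP1 H i5 i45 i6 c355.symm b41 (Lsw H i6 i45 b2294) (k_one i22 i45 c5711))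
  have c5775 := Lco i22 i56 (LP1 H i56 i5 i6 c332 b5192 b41 (k_one i145 i5 c5773))
  have c5776 := Lco i7 i103 (LP1 H i103 i5 i1 c1312 (Lsw H i1 i103 b2257) (Lsw H i1 i5 b5) (k_one i126 i5 c5770))
  have c5779 := Lco i11 i103 (LP1 H i103 i5 i4 c1312 (Lsw H i4 i103 b2283) (Lsw H i4 i5 b9) (k_one i152 i5 c5774))
  have c5780 := Lco i28 i23 (LP1 H i23 i7 i6 c79.symm (Lsw H i6 i23 b669) b524 (k_one i103 i7 c5776.symm))
  have c5787 := Lco i41 i23 (LP1 H i23 i11 i6 c100.symm (Lsw H i6 i23 b669) (Lsw H i6 i11 b152) (k_one i103 i11 c5779.symm))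
  have c5791 := Lco i145 i12 (LP1 H i12 i40 i8 c436 (Lsw H i8 i12 b673) (Lsw H i8 i40 b5199) (k_one i77 i40 c5727.symm))
  have c5792 := Lco i63 i56 (LP1 H i56 i12 i6 c265.symm b5192 (Lsw H i6 i12 b666) (k_one i145 i12 c5791))
  have c5799 := Lco i145 i19 (LP1 H i19 i40 i8 c477 (Lsw H i8 i19 b675) (Lsw H i8 i40 b5199) (k_one i80 i40 c5729.symm))
  have c5801 := Lco i83 i56 (LP1 H i56 i19 i6 c358.symm b5192 b1829 (k_one i145 i19 c5799))
  have c5802 := Lco i124 i36 (LP1 H i36 i26 i6 c520.symm b5120 b5007 (k_one i140 i26 c5721.symm))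
  have c5803 := Lco i67 i28 (LP1 H i28 i30 i2 c492 (Lsw H i2 i28 b635) (Lsw H i2 i30 b636) (k_one i60 i30 c5717.symm))
  have c5804 := Lco i77 i28 (LP1 H i28 i30 i3 c492 b1734 (Lsw H i3 i30 b645) (k_one i63 i30 c5719.symm))
  have c5805 := Lco i71 i41 (LP1 H i41 i45 i2 c494 (Lsw H i2 i41 b640) (Lsw H i2 i45 b641) (k_one i74 i45 c5731.symm))
  have c5806 := Lco i80 i41 (LP1 H i41 i45 i3 c494 (Lsw H i3 i41 b649) b1827 (k_one i83 i45 c5733.symm))
  have q5815 : Rl [t20, t13, t22, t28, t41, t46] := q611.mv 1 rfl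
  have q5816 : Rl [t13, t20, t22, t28, t41, t46] := q5815.mv 1 rfl
  have e5817 := (Rl.l2 H i13 i20 i23 q5816 (.cons c107 (.cons c5780 (.cons c5787 (.cons c441.symm .nil)))) b2324).symm.trans b2329
  have m5818 : t159 = t163 := e5817.symm
  subst m5818
  have q5819 : Rl [t18, t15, t23, t36, t56, t47] := q495.mv 1 rfl
  have q5820 : Rl [t15, t18, t23, t36, t56, t47] := q5819.mv 1 rfl
  have e5821 := (Rl.l2 H i15 i18 i22 q5820 (.cons c107.symm (.cons c5772.symm (.cons c5775.symm (.cons c455.symm .nil)))) b2326).symm.trans b2328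
  have m5822 : t161 = t187 := e5821.symm
  subst m5822
  obtain ⟨t203, b5831⟩ : ∃ t, k a t134 = t := ⟨_, rfl⟩
  have i203 := Linv H i1 i134 b5831
  obtain ⟨t204, b5832⟩ : ∃ t, k a t145 = t := ⟨_, rfl⟩
  have i204 := Linv H i1 i145 b5832
  obtain ⟨t205, b5833⟩ : ∃ t, k a t153 = t := ⟨_, rfl⟩
  have i205 := Linv H i1 i153 b5833
  obtain ⟨t206, b5834⟩ : ∃ t, k a t155 = t := ⟨_, rfl⟩
  have i206 := Linv H i1 i155 b5834
  obtain ⟨t207, b5835⟩ : ∃ t, k a t157 = t := ⟨_, rfl⟩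
  have i207 := Linv H i1 i157 b5835
  obtain ⟨t208, b5836⟩ : ∃ t, k a t160 = t := ⟨_, rfl⟩
  have i208 := Linv H i1 i160 b5836
  obtain ⟨t209, b5837⟩ : ∃ t, k a t161 = t := ⟨_, rfl⟩
  have i209 := Linv H i1 i161 b5837
  obtain ⟨t210, b5838⟩ : ∃ t, k a t162 = t := ⟨_, rfl⟩
  have i210 := Linv H i1 i162 b5838
  obtain ⟨t211, b5839⟩ : ∃ t, k a t171 = t := ⟨_, rfl⟩
  have i211 := Linv H i1 i171 b5839
  obtain ⟨t212, b5840⟩ : ∃ t, k a t180 = t := ⟨_, rfl⟩
  have i212 := Linv H i1 i180 b5840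
  obtain ⟨t213, b5841⟩ : ∃ t, k a t182 = t := ⟨_, rfl⟩
  have i213 := Linv H i1 i182 b5841
  obtain ⟨t214, b5842⟩ : ∃ t, k a t184 = t := ⟨_, rfl⟩
  have i214 := Linv H i1 i184 b5842
  obtain ⟨t215, b5843⟩ : ∃ t, k a t195 = t := ⟨_, rfl⟩
  have i215 := Linv H i1 i195 b5843
  obtain ⟨t216, b5844⟩ : ∃ t, k b t124 = t := ⟨_, rfl⟩
  have i216 := Linv H i2 i124 b5844
  obtain ⟨t217, b5845⟩ : ∃ t, k b t126 = t := ⟨_, rfl⟩
  have i217 := Linv H i2 i126 b5845
  obtain ⟨t218, b5846⟩ : ∃ t, k b t146 = t := ⟨_, rfl⟩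
  have i218 := Linv H i2 i146 b5846
  obtain ⟨t219, b5847⟩ : ∃ t, k b t148 = t := ⟨_, rfl⟩
  have i219 := Linv H i2 i148 b5847
  obtain ⟨t220, b5848⟩ : ∃ t, k b t152 = t := ⟨_, rfl⟩
  have i220 := Linv H i2 i152 b5848
  obtain ⟨t221, b5849⟩ : ∃ t, k b t157 = t := ⟨_, rfl⟩
  have i221 := Linv H i2 i157 b5849
  obtain ⟨t222, b5850⟩ : ∃ t, k b t158 = t := ⟨_, rfl⟩
  have i222 := Linv H i2 i158 b5850
  obtain ⟨t223, b5851⟩ : ∃ t, k b t159 = t := ⟨_, rfl⟩
  have i223 := Linv H i2 i159 b5851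
  obtain ⟨t224, b5852⟩ : ∃ t, k b t160 = t := ⟨_, rfl⟩
  have i224 := Linv H i2 i160 b5852
  obtain ⟨t225, b5853⟩ : ∃ t, k b t162 = t := ⟨_, rfl⟩
  have i225 := Linv H i2 i162 b5853
  obtain ⟨t226, b5854⟩ : ∃ t, k b t171 = t := ⟨_, rfl⟩
  have i226 := Linv H i2 i171 b5854
  obtain ⟨t227, b5855⟩ : ∃ t, k b t172 = t := ⟨_, rfl⟩
  have i227 := Linv H i2 i172 b5855
  obtain ⟨t228, b5856⟩ : ∃ t, k b t178 = t := ⟨_, rfl⟩
  have i228 := Linv H i2 i178 b5856
  obtain ⟨t229, b5857⟩ : ∃ t, k b t180 = t := ⟨_, rfl⟩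
  have i229 := Linv H i2 i180 b5857
  obtain ⟨t230, b5858⟩ : ∃ t, k b t182 = t := ⟨_, rfl⟩
  have i230 := Linv H i2 i182 b5858
  obtain ⟨t231, b5859⟩ : ∃ t, k b t184 = t := ⟨_, rfl⟩
  have i231 := Linv H i2 i184 b5859
  obtain ⟨t232, b5860⟩ : ∃ t, k b t189 = t := ⟨_, rfl⟩
  have i232 := Linv H i2 i189 b5860
  obtain ⟨t233, b5861⟩ : ∃ t, k c t121 = t := ⟨_, rfl⟩
  have i233 := Linv H i3 i121 b5861
  obtain ⟨t234, b5862⟩ : ∃ t, k c t126 = t := ⟨_, rfl⟩
  have i234 := Linv H i3 i126 b5862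
  obtain ⟨t235, b5863⟩ : ∃ t, k c t135 = t := ⟨_, rfl⟩
  have i235 := Linv H i3 i135 b5863
  obtain ⟨t236, b5864⟩ : ∃ t, k c t136 = t := ⟨_, rfl⟩
  have i236 := Linv H i3 i136 b5864
  obtain ⟨t237, b5865⟩ : ∃ t, k c t139 = t := ⟨_, rfl⟩
  have i237 := Linv H i3 i139 b5865
  obtain ⟨t238, b5866⟩ : ∃ t, k c t157 = t := ⟨_, rfl⟩
  have i238 := Linv H i3 i157 b5866
  obtain ⟨t239, b5867⟩ : ∃ t, k c t158 = t := ⟨_, rfl⟩
  have i239 := Linv H i3 i158 b5867
  obtain ⟨t240, b5868⟩ : ∃ t, k c t159 = t := ⟨_, rfl⟩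
  have i240 := Linv H i3 i159 b5868
  obtain ⟨t241, b5869⟩ : ∃ t, k c t160 = t := ⟨_, rfl⟩
  have i241 := Linv H i3 i160 b5869
  obtain ⟨t242, b5870⟩ : ∃ t, k c t162 = t := ⟨_, rfl⟩
  have i242 := Linv H i3 i162 b5870
  obtain ⟨t243, b5871⟩ : ∃ t, k c t171 = t := ⟨_, rfl⟩
  have i243 := Linv H i3 i171 b5871
  obtain ⟨t244, b5872⟩ : ∃ t, k c t172 = t := ⟨_, rfl⟩
  have i244 := Linv H i3 i172 b5872
  obtain ⟨t245, b5873⟩ : ∃ t, k c t178 = t := ⟨_, rfl⟩
  have i245 := Linv H i3 i178 b5873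
  obtain ⟨t246, b5874⟩ : ∃ t, k c t180 = t := ⟨_, rfl⟩
  have i246 := Linv H i3 i180 b5874
  obtain ⟨t247, b5875⟩ : ∃ t, k c t182 = t := ⟨_, rfl⟩
  have i247 := Linv H i3 i182 b5875
  obtain ⟨t248, b5876⟩ : ∃ t, k c t184 = t := ⟨_, rfl⟩
  have i248 := Linv H i3 i184 b5876
  obtain ⟨t249, b5877⟩ : ∃ t, k c t186 = t := ⟨_, rfl⟩
  have i249 := Linv H i3 i186 b5877
  obtain ⟨t250, b5878⟩ : ∃ t, k c t190 = t := ⟨_, rfl⟩
  have i250 := Linv H i3 i190 b5878
  obtain ⟨t251, b5879⟩ : ∃ t, k c t193 = t := ⟨_, rfl⟩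
  have i251 := Linv H i3 i193 b5879
  obtain ⟨t252, b5880⟩ : ∃ t, k c t196 = t := ⟨_, rfl⟩
  have i252 := Linv H i3 i196 b5880
  obtain ⟨t253, b5881⟩ : ∃ t, k d t120 = t := ⟨_, rfl⟩
  have i253 := Linv H i4 i120 b5881
  obtain ⟨t254, b5882⟩ : ∃ t, k d t127 = t := ⟨_, rfl⟩
  have i254 := Linv H i4 i127 b5882
  obtain ⟨t255, b5883⟩ : ∃ t, k d t129 = t := ⟨_, rfl⟩
  have i255 := Linv H i4 i129 b5883
  obtain ⟨t256, b5884⟩ : ∃ t, k d t145 = t := ⟨_, rfl⟩
  have i256 := Linv H i4 i145 b5884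
  obtain ⟨t257, b5885⟩ : ∃ t, k d t157 = t := ⟨_, rfl⟩
  have i257 := Linv H i4 i157 b5885
  obtain ⟨t258, b5886⟩ : ∃ t, k d t158 = t := ⟨_, rfl⟩
  have i258 := Linv H i4 i158 b5886
  obtain ⟨t259, b5887⟩ : ∃ t, k d t160 = t := ⟨_, rfl⟩
  have i259 := Linv H i4 i160 b5887
  obtain ⟨t260, b5888⟩ : ∃ t, k d t161 = t := ⟨_, rfl⟩
  have i260 := Linv H i4 i161 b5888
  obtain ⟨t261, b5889⟩ : ∃ t, k d t162 = t := ⟨_, rfl⟩
  have i261 := Linv H i4 i162 b5889
  obtain ⟨t262, b5890⟩ : ∃ t, k d t168 = t := ⟨_, rfl⟩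
  have i262 := Linv H i4 i168 b5890
  obtain ⟨t263, b5891⟩ : ∃ t, k d t172 = t := ⟨_, rfl⟩
  have i263 := Linv H i4 i172 b5891
  obtain ⟨t264, b5892⟩ : ∃ t, k d t180 = t := ⟨_, rfl⟩
  have i264 := Linv H i4 i180 b5892
  obtain ⟨t265, b5893⟩ : ∃ t, k d t182 = t := ⟨_, rfl⟩
  have i265 := Linv H i4 i182 b5893
  obtain ⟨t266, b5894⟩ : ∃ t, k d t186 = t := ⟨_, rfl⟩
  have i266 := Linv H i4 i186 b5894
  obtain ⟨t267, b5895⟩ : ∃ t, k d t189 = t := ⟨_, rfl⟩
  have i267 := Linv H i4 i189 b5895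
  obtain ⟨t268, b5896⟩ : ∃ t, k d t198 = t := ⟨_, rfl⟩
  have i268 := Linv H i4 i198 b5896
  obtain ⟨t269, b5897⟩ : ∃ t, k e t120 = t := ⟨_, rfl⟩
  have i269 := Linv H i5 i120 b5897
  obtain ⟨t270, b5898⟩ : ∃ t, k e t121 = t := ⟨_, rfl⟩
  have i270 := Linv H i5 i121 b5898
  obtain ⟨t271, b5899⟩ : ∃ t, k e t123 = t := ⟨_, rfl⟩
  have i271 := Linv H i5 i123 b5899
  obtain ⟨t272, b5900⟩ : ∃ t, k e t124 = t := ⟨_, rfl⟩
  have i272 := Linv H i5 i124 b5900
  obtain ⟨t273, b5901⟩ : ∃ t, k e t127 = t := ⟨_, rfl⟩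
  have i273 := Linv H i5 i127 b5901
  obtain ⟨t274, b5902⟩ : ∃ t, k e t129 = t := ⟨_, rfl⟩
  have i274 := Linv H i5 i129 b5902
  obtain ⟨t275, b5903⟩ : ∃ t, k e t134 = t := ⟨_, rfl⟩
  have i275 := Linv H i5 i134 b5903
  obtain ⟨t276, b5904⟩ : ∃ t, k e t135 = t := ⟨_, rfl⟩
  have i276 := Linv H i5 i135 b5904
  obtain ⟨t277, b5905⟩ : ∃ t, k e t136 = t := ⟨_, rfl⟩
  have i277 := Linv H i5 i136 b5905
  obtain ⟨t278, b5906⟩ : ∃ t, k e t139 = t := ⟨_, rfl⟩
  have i278 := Linv H i5 i139 b5906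
  obtain ⟨t279, b5907⟩ : ∃ t, k e t144 = t := ⟨_, rfl⟩
  have i279 := Linv H i5 i144 b5907
  obtain ⟨t280, b5908⟩ : ∃ t, k e t146 = t := ⟨_, rfl⟩
  have i280 := Linv H i5 i146 b5908
  obtain ⟨t281, b5909⟩ : ∃ t, k e t148 = t := ⟨_, rfl⟩
  have i281 := Linv H i5 i148 b5909
  obtain ⟨t282, b5910⟩ : ∃ t, k e t153 = t := ⟨_, rfl⟩
  have i282 := Linv H i5 i153 b5910
  obtain ⟨t283, b5911⟩ : ∃ t, k e t155 = t := ⟨_, rfl⟩
  have i283 := Linv H i5 i155 b5911
  obtain ⟨t284, b5912⟩ : ∃ t, k e t171 = t := ⟨_, rfl⟩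
  have i284 := Linv H i5 i171 b5912
  obtain ⟨t285, b5913⟩ : ∃ t, k e t180 = t := ⟨_, rfl⟩
  have i285 := Linv H i5 i180 b5913
  obtain ⟨t286, b5914⟩ : ∃ t, k e t184 = t := ⟨_, rfl⟩
  have i286 := Linv H i5 i184 b5914
  obtain ⟨t287, b5915⟩ : ∃ t, k e t189 = t := ⟨_, rfl⟩
  have i287 := Linv H i5 i189 b5915
  obtain ⟨t288, b5916⟩ : ∃ t, k t6 t66 = t := ⟨_, rfl⟩
  have i288 := Linv H i6 i66 b5916
  obtain ⟨t289, b5917⟩ : ∃ t, k t6 t80 = t := ⟨_, rfl⟩
  have i289 := Linv H i6 i80 b5917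
  obtain ⟨t290, b5918⟩ : ∃ t, k t6 t91 = t := ⟨_, rfl⟩
  have i290 := Linv H i6 i91 b5918
  obtain ⟨t291, b5919⟩ : ∃ t, k t6 t92 = t := ⟨_, rfl⟩
  have i291 := Linv H i6 i92 b5919
  obtain ⟨t292, b5920⟩ : ∃ t, k t6 t96 = t := ⟨_, rfl⟩
  have i292 := Linv H i6 i96 b5920
  obtain ⟨t293, b5921⟩ : ∃ t, k t7 t59 = t := ⟨_, rfl⟩
  have i293 := Linv H i7 i59 b5921
  obtain ⟨t294, b5922⟩ : ∃ t, k t7 t62 = t := ⟨_, rfl⟩
  have i294 := Linv H i7 i62 b5922
  obtain ⟨t295, b5923⟩ : ∃ t, k t7 t71 = t := ⟨_, rfl⟩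
  have i295 := Linv H i7 i71 b5923
  obtain ⟨t296, b5924⟩ : ∃ t, k t7 t72 = t := ⟨_, rfl⟩
  have i296 := Linv H i7 i72 b5924
  obtain ⟨t297, b5925⟩ : ∃ t, k t7 t73 = t := ⟨_, rfl⟩
  have i297 := Linv H i7 i73 b5925
  obtain ⟨t298, b5926⟩ : ∃ t, k t7 t80 = t := ⟨_, rfl⟩
  have i298 := Linv H i7 i80 b5926
  obtain ⟨t299, b5927⟩ : ∃ t, k t7 t81 = t := ⟨_, rfl⟩
  have i299 := Linv H i7 i81 b5927
  obtain ⟨t300, b5928⟩ : ∃ t, k t7 t91 = t := ⟨_, rfl⟩
  have i300 := Linv H i7 i91 b5928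
  obtain ⟨t301, b5929⟩ : ∃ t, k t8 t76 = t := ⟨_, rfl⟩
  have i301 := Linv H i8 i76 b5929
  obtain ⟨t302, b5930⟩ : ∃ t, k t8 t93 = t := ⟨_, rfl⟩
  have i302 := Linv H i8 i93 b5930
  obtain ⟨t303, b5931⟩ : ∃ t, k t8 t95 = t := ⟨_, rfl⟩
  have i303 := Linv H i8 i95 b5931
  obtain ⟨t304, b5932⟩ : ∃ t, k t9 t59 = t := ⟨_, rfl⟩
  have i304 := Linv H i9 i59 b5932
  obtain ⟨t305, b5933⟩ : ∃ t, k t9 t62 = t := ⟨_, rfl⟩
  have i305 := Linv H i9 i62 b5933
  obtain ⟨t306, b5934⟩ : ∃ t, k t9 t65 = t := ⟨_, rfl⟩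
  have i306 := Linv H i9 i65 b5934
  obtain ⟨t307, b5935⟩ : ∃ t, k t9 t72 = t := ⟨_, rfl⟩
  have i307 := Linv H i9 i72 b5935
  obtain ⟨t308, b5936⟩ : ∃ t, k t9 t81 = t := ⟨_, rfl⟩
  have i308 := Linv H i9 i81 b5936
  obtain ⟨t309, b5937⟩ : ∃ t, k t9 t83 = t := ⟨_, rfl⟩
  have i309 := Linv H i9 i83 b5937
  obtain ⟨t310, b5938⟩ : ∃ t, k t9 t84 = t := ⟨_, rfl⟩
  have i310 := Linv H i9 i84 b5938
  obtain ⟨t311, b5939⟩ : ∃ t, k t9 t95 = t := ⟨_, rfl⟩
  have i311 := Linv H i9 i95 b5939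
  obtain ⟨t312, b5940⟩ : ∃ t, k t10 t60 = t := ⟨_, rfl⟩
  have i312 := Linv H i10 i60 b5940
  obtain ⟨t313, b5941⟩ : ∃ t, k t10 t62 = t := ⟨_, rfl⟩
  have i313 := Linv H i10 i62 b5941
  obtain ⟨t314, b5942⟩ : ∃ t, k t10 t65 = t := ⟨_, rfl⟩
  have i314 := Linv H i10 i65 b5942
  obtain ⟨t315, b5943⟩ : ∃ t, k t10 t72 = t := ⟨_, rfl⟩
  have i315 := Linv H i10 i72 b5943
  obtain ⟨t316, b5944⟩ : ∃ t, k t10 t74 = t := ⟨_, rfl⟩
  have i316 := Linv H i10 i74 b5944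
  obtain ⟨t317, b5945⟩ : ∃ t, k t10 t81 = t := ⟨_, rfl⟩
  have i317 := Linv H i10 i81 b5945
  obtain ⟨t318, b5946⟩ : ∃ t, k t10 t93 = t := ⟨_, rfl⟩
  have i318 := Linv H i10 i93 b5946
  obtain ⟨t319, b5947⟩ : ∃ t, k t11 t59 = t := ⟨_, rfl⟩
  have i319 := Linv H i11 i59 b5947
  obtain ⟨t320, b5948⟩ : ∃ t, k t11 t62 = t := ⟨_, rfl⟩
  have i320 := Linv H i11 i62 b5948
  obtain ⟨t321, b5949⟩ : ∃ t, k t11 t66 = t := ⟨_, rfl⟩
  have i321 := Linv H i11 i66 b5949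
  obtain ⟨t322, b5950⟩ : ∃ t, k t11 t72 = t := ⟨_, rfl⟩
  have i322 := Linv H i11 i72 b5950
  obtain ⟨t323, b5951⟩ : ∃ t, k t11 t81 = t := ⟨_, rfl⟩
  have i323 := Linv H i11 i81 b5951
  obtain ⟨t324, b5952⟩ : ∃ t, k t12 t34 = t := ⟨_, rfl⟩
  have i324 := Linv H i12 i34 b5952
  obtain ⟨t325, b5953⟩ : ∃ t, k t12 t38 = t := ⟨_, rfl⟩
  have i325 := Linv H i12 i38 b5953
  obtain ⟨t326, b5954⟩ : ∃ t, k t12 t45 = t := ⟨_, rfl⟩
  have i326 := Linv H i12 i45 b5954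
  obtain ⟨t327, b5955⟩ : ∃ t, k t13 t24 = t := ⟨_, rfl⟩
  have i327 := Linv H i13 i24 b5955
  obtain ⟨t328, b5956⟩ : ∃ t, k t13 t26 = t := ⟨_, rfl⟩
  have i328 := Linv H i13 i26 b5956
  obtain ⟨t329, b5957⟩ : ∃ t, k t13 t33 = t := ⟨_, rfl⟩
  have i329 := Linv H i13 i33 b5957
  obtain ⟨t330, b5958⟩ : ∃ t, k t13 t38 = t := ⟨_, rfl⟩
  have i330 := Linv H i13 i38 b5958
  obtain ⟨t331, b5959⟩ : ∃ t, k t13 t47 = t := ⟨_, rfl⟩
  have i331 := Linv H i13 i47 b5959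
  obtain ⟨t332, b5960⟩ : ∃ t, k t15 t25 = t := ⟨_, rfl⟩
  have i332 := Linv H i15 i25 b5960
  obtain ⟨t333, b5961⟩ : ∃ t, k t15 t27 = t := ⟨_, rfl⟩
  have i333 := Linv H i15 i27 b5961
  obtain ⟨t334, b5962⟩ : ∃ t, k t15 t28 = t := ⟨_, rfl⟩
  have i334 := Linv H i15 i28 b5962
  obtain ⟨t335, b5963⟩ : ∃ t, k t15 t34 = t := ⟨_, rfl⟩
  have i335 := Linv H i15 i34 b5963
  obtain ⟨t336, b5964⟩ : ∃ t, k t15 t39 = t := ⟨_, rfl⟩
  have i336 := Linv H i15 i39 b5964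
  obtain ⟨t337, b5965⟩ : ∃ t, k t15 t41 = t := ⟨_, rfl⟩
  have i337 := Linv H i15 i41 b5965
  obtain ⟨t338, b5966⟩ : ∃ t, k t15 t46 = t := ⟨_, rfl⟩
  have i338 := Linv H i15 i46 b5966
  obtain ⟨t339, b5967⟩ : ∃ t, k t16 t24 = t := ⟨_, rfl⟩
  have i339 := Linv H i16 i24 b5967
  obtain ⟨t340, b5968⟩ : ∃ t, k t16 t27 = t := ⟨_, rfl⟩
  have i340 := Linv H i16 i27 b5968
  obtain ⟨t341, b5969⟩ : ∃ t, k t18 t27 = t := ⟨_, rfl⟩
  have i341 := Linv H i18 i27 b5969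
  obtain ⟨t342, b5970⟩ : ∃ t, k t18 t28 = t := ⟨_, rfl⟩
  have i342 := Linv H i18 i28 b5970
  obtain ⟨t343, b5971⟩ : ∃ t, k t18 t34 = t := ⟨_, rfl⟩
  have i343 := Linv H i18 i34 b5971
  obtain ⟨t344, b5972⟩ : ∃ t, k t18 t39 = t := ⟨_, rfl⟩
  have i344 := Linv H i18 i39 b5972
  obtain ⟨t345, b5973⟩ : ∃ t, k t18 t41 = t := ⟨_, rfl⟩
  have i345 := Linv H i18 i41 b5973
  obtain ⟨t346, b5974⟩ : ∃ t, k t18 t46 = t := ⟨_, rfl⟩
  have i346 := Linv H i18 i46 b5974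
  obtain ⟨t347, b5975⟩ : ∃ t, k t19 t24 = t := ⟨_, rfl⟩
  have i347 := Linv H i19 i24 b5975
  obtain ⟨t348, b5976⟩ : ∃ t, k t19 t25 = t := ⟨_, rfl⟩
  have i348 := Linv H i19 i25 b5976
  obtain ⟨t349, b5977⟩ : ∃ t, k t19 t26 = t := ⟨_, rfl⟩
  have i349 := Linv H i19 i26 b5977
  obtain ⟨t350, b5978⟩ : ∃ t, k t20 t24 = t := ⟨_, rfl⟩
  have i350 := Linv H i20 i24 b5978
  obtain ⟨t351, b5979⟩ : ∃ t, k t20 t26 = t := ⟨_, rfl⟩
  have i351 := Linv H i20 i26 b5979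
  obtain ⟨t352, b5980⟩ : ∃ t, k t20 t33 = t := ⟨_, rfl⟩
  have i352 := Linv H i20 i33 b5980
  obtain ⟨t353, b5981⟩ : ∃ t, k t20 t38 = t := ⟨_, rfl⟩
  have i353 := Linv H i20 i38 b5981
  obtain ⟨t354, b5982⟩ : ∃ t, k t20 t47 = t := ⟨_, rfl⟩
  have i354 := Linv H i20 i47 b5982
  obtain ⟨t355, b5983⟩ : ∃ t, k t22 t26 = t := ⟨_, rfl⟩
  have i355 := Linv H i22 i26 b5983
  obtain ⟨t356, b5984⟩ : ∃ t, k t23 t39 = t := ⟨_, rfl⟩
  have i356 := Linv H i23 i39 b5984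
  have c5985 := Lkl H i1 i134 b5831
  have c5987 := Lkl H i1 i145 b5832
  have c5989 := Lkl H i1 i153 b5833
  have c5991 := Lkl H i1 i155 b5834
  have c5993 := Lkl H i1 i157 b5835
  have c5995 := Lkl H i1 i160 b5836
  have c5997 := Lkl H i1 i161 b5837
  have c5999 := Lkl H i1 i162 b5838
  have c6015 := Lkl H i2 i146 b5846
  have c6017 := Lkl H i2 i148 b5847
  have c6019 := Lkl H i2 i152 b5848
  have c6021 := Lkl H i2 i157 b5849
  have c6023 := Lkl H i2 i158 b5850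
  have c6025 := Lkl H i2 i159 b5851
  have c6029 := Lkl H i2 i162 b5853
  have c6049 := Lkl H i3 i135 b5863
  have c6051 := Lkl H i3 i136 b5864
  have c6053 := Lkl H i3 i139 b5865
  have c6055 := Lkl H i3 i157 b5866
  have c6057 := Lkl H i3 i158 b5867
  have c6059 := Lkl H i3 i159 b5868
  have c6061 := Lkl H i3 i160 b5869
  have c6087 := Lkl H i4 i127 b5882
  have c6089 := Lkl H i4 i129 b5883
  have c6093 := Lkl H i4 i157 b5885
  have c6095 := Lkl H i4 i158 b5886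
  have c6097 := Lkl H i4 i160 b5887
  have c6099 := Lkl H i4 i161 b5888
  have c6117 := Lkl H i5 i120 b5897
  have c6119 := Lkl H i5 i121 b5898
  have c6121 := Lkl H i5 i123 b5899
  have c6127 := Lkl H i5 i129 b5902
  have c6131 := Lkl H i5 i135 b5904
  have c6136 := Lkr H i5 i139 b5906
  have c6142 := Lkr H i5 i148 b5909
  have c6146 := Lkr H i5 i155 b5911
  have c6171 := Lkl H i7 i72 b5924
  have c6189 := Lkl H i9 i62 b5933
  have c6301 := Lck hab.symm c2358.symm b5831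
  have c6302 := Lck hab.symm c3097.symm b5832
  have c6303 := Lck hab c2535 b5846
  have c6304 := Lck hab c2542 b5847
  have c6305 := Lck hab c3272.symm b5848
  have c6306 := Lck hab.symm c2782 b5833
  have c6307 := Lck hab.symm c2787 b5834
  have c6309 := Lck hab c3427.symm b5851
  have c6311 := Lck hab.symm c3419.symm b5837
  have c6326 := Lck hac.symm c2868.symm b5831
  have c6327 := Lck hac c2512 b5863
  have c6328 := Lck hac c2513 b5864
  have c6329 := Lck hac c2518 b5865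
  have c6330 := Lck hac.symm c2380.symm b5832
  have c6331 := Lck hac.symm c3004 b5833
  have c6332 := Lck hac.symm c3009 b5834
  have c6334 := Lck hac c3427.symm b5868
  have c6336 := Lck hac.symm c3877.symm b5837
  have c6354 := LP3 H i7 i1 i33 c12 b2298 (Lsw H i1 i171 b5839)
  have c6365 := Lck c12 c2661 b5835
  have c6369 := Lck c12 c3656 b5841
  have c6408 := Lck c68.symm c3387 b5838
  have c6412 := LP3 H i1 i24 i11 c159.symm b32 b5955
  have c6424 := LP3 H i25 i1 i10 c161 (Lsw H i10 i25 b2311) (Lsw H i1 i184 b5842)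
  have c6461 := Lck c167 c3893 b5840
  have c6462 := Lck c167 c3894 b5841
  have c6480 := Lck c364 c3911 b5840
  have c6490 := Lck c395 c3919 b5840
  have c6494 := LP3 H i59 i1 i5 c686 (Lsw H i5 i59 b2284) (Lsw H i1 i157 b5835)
  have c6510 := Lck c688 c3443 b5836
  have c6531 := Lck c694 c3452 b5838
  have c6540 := LP3 H i66 i1 i4 c700 (Lsw H i4 i66 b2280) (Lsw H i1 i153 b5833)
  have c6553 := LP3 H i67 i1 i4 c816.symm b5112 (Lsw H i1 i134 b5831)
  have c6570 := Lck c826.symm c3478 b5836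
  have c6580 := Lck c828.symm c3486 b5836
  have c6604 := Lck c845.symm c3508 b5838
  have c6614 := Lck c846.symm c3516 b5838
  have c6687 := LP2 H i1 i129 i5 c2348.symm b5 (Lsw H i5 i129 b5902)
  have c6690 := LP2 H i1 i135 i5 c2512 b5 (Lsw H i5 i135 b5904)
  have c6733 := Lck c3258 c5534 b5842
  have c6771 := Lck hbd c2515 b5882
  have c6772 := Lck hbd c2519 b5883
  have c6774 := Lck hbd.symm c3006 b5846
  have c6775 := Lck hbd.symm c3010 b5847
  have c6776 := Lck hbd.symm c2394.symm b5848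
  have c6779 := Lck hbd.symm c3682.symm b5851
  have c6781 := Lck hbd c3419.symm b5888
  have c6817 := LP3 H i9 i2 i27 c16 b2307 (Lsw H i2 i180 b5857)
  have c6829 := Lck c16 c2893 b5849
  have c6833 := Lck c16 c3655 b5855
  have c6841 := Lck c47 c3382 b5849
  have c6845 := Lck c47 c3387 b5853
  have c6861 := LP3 H i2 i16 i12 c51.symm b131 (Lsw H i16 i24 b5967)
  have c6866 := Lck c51 c3388 b5849
  have c6888 := LP3 H i25 i2 i10 c236.symm (Lsw H i10 i25 b2311) (Lsw H i2 i184 b5859)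
  have c6940 := Lck c183 c3710 b5854
  have c6952 := Lck c390 c3727 b5854
  have c6962 := Lck c337 c3732 b5854
  have c6967 := LP3 H i59 i2 i5 c820.symm (Lsw H i5 i59 b2284) (Lsw H i2 i157 b5849)
  have c6998 := Lck c829.symm c3454 b5849
  have c6999 := Lck c829.symm c3455 b5850
  have c7012 := Lck c702 c3461 b5849
  have c7013 := Lck c702 c3462 b5850
  have c7027 := Lck c710 c3470 b5850
  have c7030 := Lck c710 c3474 b5853
  have c7069 := LP3 H i76 i2 i3 c720 (Lsw H i3 i76 b2273) (Lsw H i2 i146 b5846)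
  have c7088 := Lck c1085 c3490 b5849
  have c7089 := Lck c1085 c3491 b5850
  have c7107 := Lck c1094 c3501 b5853
  have c7121 := Lck c948.symm c3524 b5853
  have c7160 := LP2 H i2 i120 i5 c2507 b7 (Lsw H i5 i120 b5897)
  have c7179 := LP2 H i2 i123 i5 c2510 b7 (Lsw H i5 i123 b5899)
  have c7200 := LP2 H i2 i129 i5 c2519 b7 (Lsw H i5 i129 b5902)
  have c7323 := Lck hcd c2532 b5881
  have c7324 := Lck hcd.symm c2611.symm b5861
  have c7326 := Lck hcd c2540 b5882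
  have c7327 := Lck hcd c2544 b5883
  have c7328 := Lck hcd.symm c2784 b5863
  have c7329 := Lck hcd.symm c2785 b5864
  have c7330 := Lck hcd.symm c2789 b5865
  have c7334 := Lck hcd.symm c3682.symm b5868
  have c7336 := Lck hcd c3877.symm b5888
  have c7390 := LP3 H i12 i3 i16 c74.symm b2320 (Lsw H i3 i193 b5879)
  have c7427 := Lck c57 c3394 b5866
  have c7452 := LP3 H i27 i3 i9 c247.symm (Lsw H i9 i27 b2307) (Lsw H i3 i180 b5874)
  have c7472 := Lck c304 c3710 b5871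
  have c7473 := Lck c304 c3711 b5872
  have c7527 := Lck c384 c3727 b5871
  have c7528 := Lck c384 c3728 b5872
  have c7538 := Lck c335.symm c3732 b5871
  have c7539 := Lck c335.symm c3733 b5872
  have c7544 := LP3 H i62 i3 i5 c842.symm (Lsw H i5 i62 b2285) (Lsw H i3 i158 b5867)
  have c7577 := Lck c847.symm c3454 b5866
  have c7593 := Lck c980 c3461 b5866
  have c7623 := Lck c722 c3490 b5866
  have c7637 := Lck c728 c2969 b5864
  have c7639 := Lck c728 c3497 b5866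
  have c7642 := Lck c728 c3500 b5869
  have c7670 := LP3 H i83 i3 i2 c734 (Lsw H i2 i83 b2262) (Lsw H i3 i135 b5863)
  have c7686 := LP3 H i84 i3 i2 c736 (Lsw H i2 i84 b2263) (Lsw H i3 i136 b5864)
  have c7800 := LP2 H i3 i129 i5 c2544 b8 (Lsw H i5 i129 b5902)
  have c7816 := Lck c2868 c5536 b5878
  have c7957 := Lck c20 c3299 b5887
  have c7961 := Lck c20 c3860 b5892
  have c7970 := Lck c83.symm c3389 b5886
  have c7991 := LP3 H i4 i20 i15 c59.symm b142 (Lsw H i20 i33 b5980)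
  have c8011 := Lck c256 c3893 b5892
  have c8012 := Lck c256 c3894 b5893
  have c8014 := LP3 H i4 i33 i7 c285 b39 b5980
  have c8037 := LP3 H i38 i4 i7 c320.symm (Lsw H i7 i38 b2299) (Lsw H i4 i172 b5891)
  have c8068 := Lck c193 c3911 b5892
  have c8069 := Lck c193 c3912 b5893
  have c8091 := Lck c379 c3919 b5892
  have c8092 := Lck c379 c3920 b5893
  have c8112 := Lck c878 c3448 b5886
  have c8134 := LP3 H i72 i4 i5 c943.symm (Lsw H i5 i72 b2287) (Lsw H i4 i160 b5887)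
  have c8203 := Lck c1054.symm c3504 b5885
  have c8204 := Lck c1054.symm c3505 b5886
  have c8216 := Lck c1055.symm c3512 b5886
  have c8231 := LP3 H i91 i4 i1 c750 (Lsw H i1 i91 b2254) (Lsw H i4 i127 b5882)
  have c8333 := LP2 H i4 i139 i5 c2789 b9 (Lsw H i5 i139 b5906)
  have c8415 := LP3 H i7 i5 i33 c13 b2298 (Lsw H i5 i171 b5912)
  have c8487 := Lck c67 c3954 b5902
  have c8504 := Lck c80 c4149 b5906
  have c8660 := LP3 H i5 i60 i3 c2015.symm (Lsw H i3 i5 b8) b5940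
  have c8667 := Lck c2015 c2673 b5902
  have c8678 := LP3 H i63 i5 i2 c2013 (Lsw H i2 i63 b2259) (Lsw H i5 i121 b5898)
  have c8702 := Lck c1301 c4753 b5902
  have c8713 := LP3 H i67 i5 i4 c2016 b5112 (Lsw H i5 i134 b5903)
  have c8719 := Lck c2016 c4655 b5902
  have c8730 := LP3 H i5 i71 i1 c2018.symm (Lsw H i1 i5 b5) b5923
  have c8731 := LP3 H i71 i5 i1 c2018 (Lsw H i1 i71 b2247) (Lsw H i5 i120 b5897)
  have c8747 := LP3 H i5 i74 i3 c2017.symm (Lsw H i3 i5 b8) b5944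
  have c8753 := Lck c2017 c2719 b5902
  have c8782 := LP3 H i77 i5 i4 c2014 b5186 (Lsw H i5 i144 b5907)
  have c8799 := LP3 H i5 i80 i1 c2020.symm (Lsw H i1 i5 b5) b5926
  have c8800 := LP3 H i80 i5 i1 c2020 (Lsw H i1 i80 b2250) (Lsw H i5 i123 b5899)
  have c8817 := LP3 H i5 i83 i2 c2019.symm (Lsw H i2 i5 b7) b5937
  have c8818 := LP3 H i83 i5 i2 c2019 (Lsw H i2 i83 b2262) (Lsw H i5 i135 b5904)
  have c8841 := Lck c1296 c2757 b5902
  have c8863 := Lck c1302 c2982 b5906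
  have c8871 := LP3 H i92 i5 i4 c752 (Lsw H i4 i92 b2282) (Lsw H i5 i155 b5911)
  have c8886 := LP3 H i93 i5 i3 c754 (Lsw H i3 i93 b2275) (Lsw H i5 i148 b5909)
  have c8902 := LP3 H i95 i5 i2 c758 (Lsw H i2 i95 b2266) (Lsw H i5 i139 b5906)
  have c8917 := LP3 H i96 i5 i1 c760 (Lsw H i1 i96 b2256) (Lsw H i5 i129 b5902)
  have c9015 := LP2 H i5 i157 i3 c2404.symm (Lsw H i3 i5 b8) (Lsw H i3 i157 b5866)
  have c9016 := LP2 H i5 i157 i4 c2404.symm (Lsw H i4 i5 b9) (Lsw H i4 i157 b5885)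
  have c9019 := Lco i223 i5 (LP1 H i5 i159 i2 c2408.symm (Lsw H i2 i5 b7) (Lsw H i2 i159 b5851) (k_one i9 i159 c3658))
  have c9020 := Lco i240 i5 (LP1 H i5 i159 i3 c2408.symm (Lsw H i3 i5 b8) (Lsw H i3 i159 b5868) (k_one i10 i159 c3666))
  have c9034 := LP2 H i5 i160 i3 c2410.symm (Lsw H i3 i5 b8) (Lsw H i3 i160 b5869)
  have c9035 := Lco i209 i5 (LP1 H i5 i161 i1 c2412.symm (Lsw H i1 i5 b5) (Lsw H i1 i161 b5837) (k_one i7 i161 c3657))
  have c9036 := Lco i260 i5 (LP1 H i5 i161 i4 c2412.symm (Lsw H i4 i5 b9) (Lsw H i4 i161 b5888) (k_one i11 i161 c3864))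
  have c9050 := Lco i262 i5 (LP1 H i5 i168 i4 c5343.symm (Lsw H i4 i5 b9) (Lsw H i4 i168 b5890) (k_one i11 i168 c4101.symm))
  have c9060 := Lco i228 i5 (LP1 H i5 i178 i2 c5342.symm (Lsw H i2 i5 b7) (Lsw H i2 i178 b5856) (k_one i9 i178 c3917.symm))
  have c9061 := Lco i245 i5 (LP1 H i5 i178 i3 c5342.symm (Lsw H i3 i5 b8) (Lsw H i3 i178 b5873) (k_one i10 i178 c4019.symm))
  have c9097 := LP2 H i6 i20 i26 c77 (Lsw H i26 i6 b5007) b5979
  have c9158 := LP2 H i6 i59 i11 c1179 b152 (Lsw H i11 i59 b5947)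
  have c9165 := Lck c855.symm c2102 b5919
  have c9184 := LP2 H i6 i72 i7 c960 (Lsw H i7 i6 b524) (Lsw H i7 i72 b5924)
  have c9416 := LP3 H i27 i7 i2 c414.symm (Lsw H i2 i27 b634) (Lsw H i7 i59 b5921)
  have c9430 := LP3 H i7 i34 i3 c280.symm (Lsw H i3 i7 b36) b5952
  have c9446 := LP3 H i36 i7 i4 c2027.symm b1782 (Lsw H i7 i71 b5923)
  have c9460 := LP3 H i40 i7 i2 c2029.symm (Lsw H i2 i40 b639) (Lsw H i7 i73 b5925)
  have c9476 := LP3 H i7 i47 i4 c427 (Lsw H i4 i7 b39) b5982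
  have c9482 := LP3 H i56 i7 i4 c2035.symm b1824 (Lsw H i7 i80 b5926)
  have c9544 := Lck c1949 c944.symm b5925
  have c9600 := Lco i254 i7 (LP1 H i7 i127 i4 c3518 (Lsw H i4 i7 b39) (Lsw H i4 i127 b5882) (k_one i20 i127 c4461.symm))
  have c9608 := Lco i255 i7 (LP1 H i7 i129 i4 c3534 (Lsw H i4 i7 b39) (Lsw H i4 i129 b5883) (k_one i20 i129 c4938))
  have c9631 := Lco i221 i7 (LP1 H i7 i157 i2 c2661 (Lsw H i2 i7 b33) (Lsw H i2 i157 b5849) (k_one i14 i157 c3382))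
  have c9632 := Lco i238 i7 (LP1 H i7 i157 i3 c2661 (Lsw H i3 i7 b36) (Lsw H i3 i157 b5866) (k_one i12 i157 c3377))
  have c9637 := Lco i222 i7 (LP1 H i7 i158 i2 c2676 (Lsw H i2 i7 b33) (Lsw H i2 i158 b5850) (k_one i14 i158 c3383))
  have c9638 := Lco i239 i7 (LP1 H i7 i158 i3 c2676 (Lsw H i3 i7 b36) (Lsw H i3 i158 b5867) (k_one i12 i158 c3378))
  have c9662 := Lco i245 i7 (LP1 H i7 i178 i3 c5381.symm (Lsw H i3 i7 b36) (Lsw H i3 i178 b5873) (k_one i12 i178 c4182.symm))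
  have c9668 := LP2 H i7 i180 i4 c3653 (Lsw H i4 i7 b39) (Lsw H i4 i180 b5892)
  have c9674 := LP2 H i7 i182 i4 c3656 (Lsw H i4 i7 b39) (Lsw H i4 i182 b5893)
  have c9702 := LP2 H i8 i18 i34 c86 (Lsw H i34 i8 b5121) b5971
  have c9740 := Lco i293 i8 (LP1 H i8 i59 i7 c873 (Lsw H i7 i8 b153) (Lsw H i7 i59 b5921) (k_one i30 i59 c1987))
  have c9803 := Lck c2584.symm c2759.symm b5930
  have c9810 := Lck c2587.symm c2767.symm b5931
  have c9923 := LP3 H i9 i28 i3 c2021 (Lsw H i3 i9 b37) b5970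
  have c9933 := LP3 H i33 i9 i1 c415.symm (Lsw H i1 i33 b625) (Lsw H i9 i59 b5932)
  have c9953 := LP3 H i41 i9 i3 c2031.symm (Lsw H i3 i41 b649) (Lsw H i9 i83 b5937)
  have c9958 := LP3 H i45 i9 i1 c2033.symm (Lsw H i1 i45 b631) (Lsw H i9 i65 b5934)
  have c10037 := Lck c1954 c1502.symm b5934
  have c10086 := Lco i236 i9 (LP1 H i9 i136 i3 c3510 (Lsw H i3 i9 b37) (Lsw H i3 i136 b5864) (k_one i18 i136 c4406.symm))
  have c10093 := Lco i237 i9 (LP1 H i9 i139 i3 c3531 (Lsw H i3 i9 b37) (Lsw H i3 i139 b5865) (k_one i18 i139 c4950))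
  have c10124 := Lco i207 i9 (LP1 H i9 i157 i1 c2893 b114 (Lsw H i1 i157 b5835) (k_one i14 i157 c3382))
  have c10126 := Lco i257 i9 (LP1 H i9 i157 i4 c2893 b118 (Lsw H i4 i157 b5885) (k_one i16 i157 c3388))
  have c10136 := Lco i259 i9 (LP1 H i9 i160 i4 c2932 b118 (Lsw H i4 i160 b5887) (k_one i16 i160 c3390))
  have c10150 := LP2 H i9 i171 i3 c3654 (Lsw H i3 i9 b37) (Lsw H i3 i171 b5871)
  have c10155 := LP2 H i9 i172 i3 c3655 (Lsw H i3 i9 b37) (Lsw H i3 i172 b5872)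
  have c10240 := LP3 H i28 i10 i2 c2022.symm (Lsw H i2 i28 b635) (Lsw H i10 i60 b5940)
  have c10259 := LP3 H i38 i10 i1 c409.symm (Lsw H i1 i38 b628) (Lsw H i10 i62 b5941)
  have c10267 := LP3 H i41 i10 i2 c2032.symm (Lsw H i2 i41 b640) (Lsw H i10 i74 b5944)
  have c10273 := LP3 H i45 i10 i1 c2034.symm (Lsw H i1 i45 b631) (Lsw H i10 i65 b5942)
  have c10308 := Lck c1959 c827.symm b5942
  have c10394 := Lco i218 i10 (LP1 H i10 i146 i2 c3482 (Lsw H i2 i10 b34) (Lsw H i2 i146 b5846) (k_one i15 i146 c4335.symm))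
  have c10401 := Lco i219 i10 (LP1 H i10 i148 i2 c3528 (Lsw H i2 i10 b34) (Lsw H i2 i148 b5847) (k_one i15 i148 c4953))
  have c10427 := Lco i261 i10 (LP1 H i10 i162 i4 c3161 (Lsw H i4 i10 b40) (Lsw H i4 i162 b5889) (k_one i19 i162 c3397))
  have c10436 := LP2 H i10 i171 i2 c3662 (Lsw H i2 i10 b34) (Lsw H i2 i171 b5854)
  have c10477 := Lck c58 c810.symm b5947
  have c10519 := LP3 H i39 i11 i2 c474 (Lsw H i2 i39 b638) (Lsw H i11 i72 b5950)
  have c10535 := LP3 H i11 i47 i1 c448 (Lsw H i1 i11 b32) b5959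
  have c10557 := Lck c953 c1640.symm b5947
  have c10642 := Lco i224 i11 (LP1 H i11 i160 i2 c3299 (Lsw H i2 i11 b35) (Lsw H i2 i160 b5852) (k_one i16 i160 c3390))
  have c10649 := Lco i242 i11 (LP1 H i11 i162 i3 c3321 (Lsw H i3 i11 b38) (Lsw H i3 i162 b5870) (k_one i19 i162 c3397))
  have c10655 := LP2 H i11 i180 i1 c3860 (Lsw H i1 i11 b32) (Lsw H i1 i180 b5840)
  have c10689 := Lck c69.symm c1921.symm b5954
  have c10692 := LP3 H i18 i12 i4 c108.symm (Lsw H i4 i18 b143) (Lsw H i12 i38 b5953)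
  have c10702 := LP3 H i20 i12 i2 c91.symm (Lsw H i2 i20 b134) (Lsw H i12 i34 b5952)
  have c10806 := LP2 H i12 i157 i2 c3377 (Lsw H i2 i12 b131) (Lsw H i2 i157 b5849)
  have c10808 := LP2 H i12 i158 i2 c3378 (Lsw H i2 i12 b131) (Lsw H i2 i158 b5850)
  have c10809 := LP2 H i12 i158 i4 c3378 b560 (Lsw H i4 i158 b5886)
  have c10825 := Lco i263 i12 (LP1 H i12 i172 i4 c3085 b560 (Lsw H i4 i172 b5891) (k_one i39 i172 c3716))
  have c10830 := Lco i231 i12 (LP1 H i12 i184 i2 c2619 (Lsw H i2 i12 b131) (Lsw H i2 i184 b5859) (k_one i24 i184 c3985))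
  have c10978 := Lco i274 i13 (LP1 H i13 i129 i5 c4151 (Lsw H i5 i13 b146) (Lsw H i5 i129 b5902) (k_one i46 i129 c2658))
  have c11003 := Lco i250 i13 (LP1 H i13 i190 i3 c2628 (Lsw H i3 i13 b137) (Lsw H i3 i190 b5878) (k_one i27 i190 c4081))
  have c11013 := LP3 H i14 i15 i4 c109 b543 (Lsw H i15 i34 b5963)
  have c11055 := LP2 H i14 i157 i3 c3382 b521 (Lsw H i3 i157 b5866)
  have c11068 := Lco i246 i14 (LP1 H i14 i180 i3 c2631 b521 (Lsw H i3 i180 b5874) (k_one i26 i180 c3888))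
  have c11073 := LP3 H i16 i15 i1 c113.symm (Lsw H i1 i16 b125) (Lsw H i15 i25 b5960)
  have c11128 := Lck c1943.symm c245.symm b5960
  have c11226 := Lco i278 i15 (LP1 H i15 i139 i5 c4053 (Lsw H i5 i15 b147) (Lsw H i5 i139 b5906) (k_one i47 i139 c2886))
  have c11283 := LP3 H i16 i20 i3 c122.symm (Lsw H i3 i16 b138) (Lsw H i20 i38 b5981)
  have c11364 := LP2 H i16 i160 i1 c3390 (Lsw H i1 i16 b125) (Lsw H i1 i160 b5836)
  have c11377 := Lco i215 i16 (LP1 H i16 i195 i1 c4210 (Lsw H i1 i16 b125) (Lsw H i1 i195 b5843) (k_one i25 i195 c2839))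
  have c11384 := LP3 H i19 i18 i1 c111.symm (Lsw H i1 i19 b127) (Lsw H i18 i27 b5969)
  have c11411 := Lck c1942.symm c237.symm b5969
  have c11496 := Lco i278 i18 (LP1 H i18 i139 i5 c4950 (Lsw H i5 i18 b148) (Lsw H i5 i139 b5906) (k_one i47 i139 c2886))
  have c11537 := Lco i213 i18 (LP1 H i18 i182 i1 c3094 (Lsw H i1 i18 b126) (Lsw H i1 i182 b5841) (k_one i26 i182 c3889))
  have c11549 := LP3 H i19 i20 i2 c110.symm (Lsw H i2 i19 b133) (Lsw H i20 i33 b5980)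
  have c11655 := LP2 H i19 i162 i1 c3397 (Lsw H i1 i19 b127) (Lsw H i1 i162 b5838)
  have c11656 := LP2 H i19 i162 i2 c3397 (Lsw H i2 i19 b133) (Lsw H i2 i162 b5853)
  have c11676 := Lck c1932.symm c483 b5980
  have c11762 := Lco i274 i20 (LP1 H i20 i129 i5 c4938 (Lsw H i5 i20 b149) (Lsw H i5 i129 b5902) (k_one i46 i129 c2658))
  have c11794 := Lco i226 i20 (LP1 H i20 i171 i2 c3252 (Lsw H i2 i20 b134) (Lsw H i2 i171 b5854) (k_one i34 i171 c3703))
  have c11799 := Lco i244 i20 (LP1 H i20 i172 i3 c3260 (Lsw H i3 i20 b139) (Lsw H i3 i172 b5872) (k_one i39 i172 c3716))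
  have c11860 := Lco i239 i22 (LP1 H i22 i158 i3 c3603 (Lsw H i3 i22 b140) (Lsw H i3 i158 b5867) (k_one i40 i158 c3420))
  have c11878 := Lco i212 i22 (LP1 H i22 i180 i1 c3879 (Lsw H i1 i22 b129) (Lsw H i1 i180 b5840) (k_one i28 i180 c3893))
  have c11881 := Lco i264 i22 (LP1 H i22 i180 i4 c3879 (Lsw H i4 i22 b144) (Lsw H i4 i180 b5892) (k_one i41 i180 c3911))
  have c11886 := Lco i265 i22 (LP1 H i22 i182 i4 c3880 (Lsw H i4 i22 b144) (Lsw H i4 i182 b5893) (k_one i41 i182 c3912))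
  have c11952 := Lco i259 i23 (LP1 H i23 i160 i4 c3827 (Lsw H i4 i23 b145) (Lsw H i4 i160 b5887) (k_one i45 i160 c3430))
  have c11961 := Lco i226 i23 (LP1 H i23 i171 i2 c3685 (Lsw H i2 i23 b136) (Lsw H i2 i171 b5854) (k_one i36 i171 c3710))
  have c11962 := Lco i243 i23 (LP1 H i23 i171 i3 c3685 b565 (Lsw H i3 i171 b5871) (k_one i56 i171 c3732))
  have c11965 := Lco i244 i23 (LP1 H i23 i172 i3 c3686 b565 (Lsw H i3 i172 b5872) (k_one i56 i172 c3733))
  have c12128 := Lco i271 i27 (LP1 H i27 i123 i5 c2633 (Lsw H i5 i27 b661) (Lsw H i5 i123 b5899) (k_one i95 i123 c2767))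
  have c12135 := Lco i274 i27 (LP1 H i27 i129 i5 c4439 (Lsw H i5 i27 b661) (Lsw H i5 i129 b5902) (k_one i95 i129 c2771))
  have c12197 := Lco i221 i30 (LP1 H i30 i157 i2 c3409 (Lsw H i2 i30 b636) (Lsw H i2 i157 b5849) (k_one i67 i157 c3461))
  have c12198 := Lco i238 i30 (LP1 H i30 i157 i3 c3409 (Lsw H i3 i30 b645) (Lsw H i3 i157 b5866) (k_one i77 i157 c3490))
  have c12200 := Lco i222 i30 (LP1 H i30 i158 i2 c3410 (Lsw H i2 i30 b636) (Lsw H i2 i158 b5850) (k_one i67 i158 c3462))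
  have c12327 := Lco i208 i35 (LP1 H i35 i160 i1 c3415 (Lsw H i1 i35 b627) (Lsw H i1 i160 b5836) (k_one i60 i160 c3443))
  have c12394 := Lco i214 i38 (LP1 H i38 i184 i1 c4007 (Lsw H i1 i38 b628) (Lsw H i1 i184 b5842) (k_one i62 i184 c3043))
  have c12450 := Lco i258 i40 (LP1 H i40 i158 i4 c3420 (Lsw H i4 i40 b656) (Lsw H i4 i158 b5886) (k_one i83 i158 c3505))
  have c12454 := Lco i210 i40 (LP1 H i40 i162 i1 c3422 (Lsw H i1 i40 b630) (Lsw H i1 i162 b5838) (k_one i63 i162 c3452))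
  have c12510 := Lco i225 i45 (LP1 H i45 i162 i2 c3431 (Lsw H i2 i45 b641) (Lsw H i2 i162 b5853) (k_one i71 i162 c3474))
  have c12520 := Lco i215 i45 (LP1 H i45 i195 i1 c4235 (Lsw H i1 i45 b631) (Lsw H i1 i195 b5843) (k_one i65 i195 c3776))
  have c12599 := Lco i264 i59 (LP1 H i59 i180 i4 c2829 (Lsw H i4 i59 b2277) (Lsw H i4 i180 b5892) (k_one i135 i180 c5432))
  have c12614 := LP2 H i60 i158 i3 c3441 (Lsw H i3 i60 b2269) (Lsw H i3 i158 b5867)
  have c12659 := Lco i227 i62 (LP1 H i62 i172 i2 c2567 (Lsw H i2 i62 b2258) (Lsw H i2 i172 b5855) (k_one i120 i172 c5384))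
  have c12692 := Lco i274 i65 (LP1 H i65 i129 i5 c4730 (Lsw H i5 i65 b2286) (Lsw H i5 i129 b5902) (k_one i159 i129 c5744))
  have c12755 := LP2 H i71 i157 i1 c3469 (Lsw H i1 i71 b2247) (Lsw H i1 i157 b5835)
  have c12796 := Lco i213 i72 (LP1 H i72 i182 i1 c2831 (Lsw H i1 i72 b2248) (Lsw H i1 i182 b5841) (k_one i121 i182 c5551))
  have c12887 := LP2 H i80 i157 i1 c3497 (Lsw H i1 i80 b2250) (Lsw H i1 i157 b5835)
  have c13024 := Lco i207 i92 (LP1 H i92 i157 i1 c4500 (Lsw H i1 i92 b2255) (Lsw H i1 i157 b5835) (k_one i66 i157 c3454))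
  have c13079 := Lco i239 i95 (LP1 H i95 i158 i3 c4554 (Lsw H i3 i95 b2276) (Lsw H i3 i158 b5867) (k_one i84 i158 c3512))
  have c13105 := Lco i259 i96 (LP1 H i96 i160 i4 c4605 b5273 (Lsw H i4 i160 b5887) (k_one i91 i160 c3522))
  have c13343 := LP2 H i157 i158 i4 c4769 (Lsw H i4 i157 b5885) (Lsw H i4 i158 b5886)
  have c13348 := LP2 H i157 i160 i3 c4775 (Lsw H i3 i157 b5866) (Lsw H i3 i160 b5869)
  have c13356 := LP2 H i158 i162 i2 c4790 (Lsw H i2 i158 b5850) (Lsw H i2 i162 b5853)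
  have c13383 := LP2 H i160 i162 i1 c4829 (Lsw H i1 i160 b5836) (Lsw H i1 i162 b5838)
  have q13455 : Rl [t20, t13, t22, t28, t41, t46] := q611.mv 1 rfl
  have q13456 : Rl [t13, t20, t22, t28, t41, t46] := q13455.mv 1 rfl
  have e13457 := (Rl.l2 H i13 i20 i47 q13456 (.cons c455 (.cons c2165 (.cons c2167 (.cons c617.symm .nil)))) b5959).symm.trans b5982
  have m13458 : t331 = t354 := e13457
  subst m13458
  have q13463 : Rl [t20, t13, t22, t28, t41, t46] := q611.mv 1 rfl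
  have c13464 := q13463.l1 (.cons c10655 (.cons c11878.symm (.cons c6461 (.cons c6480 (.cons c6490 .nil)))))
  have c13473 := q611.l1 (.cons c9668 (.cons c11881.symm (.cons c8011 (.cons c8068 (.cons c8091 .nil)))))
  have c13474 := q611.l1 (.cons c9674 (.cons c11886.symm (.cons c8012 (.cons c8069 (.cons c8092 .nil)))))
  have q13483 : Rl [t18, t15, t23, t36, t56, t47] := q495.mv 1 rfl
  have q13484 : Rl [t15, t18, t23, t36, t56, t47] := q13483.mv 1 rfl
  have e13485 := (Rl.l2 H i15 i18 i46 q13484 (.cons c441 (.cons c2158 (.cons c2160 (.cons c617 .nil)))) b5966).symm.trans b5974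
  have m13486 : t338 = t346 := e13485
  subst m13486
  have q13491 : Rl [t18, t15, t23, t36, t56, t47] := q495.mv 1 rfl
  have c13492 := q13491.l1 (.cons c10436 (.cons c11961.symm (.cons c6940 (.cons c6962 (.cons c6952 .nil)))))
  have c13504 := q495.l1 (.cons c10150 (.cons c11962.symm (.cons c7472 (.cons c7538 (.cons c7527 .nil)))))
  have c13505 := q495.l1 (.cons c10155 (.cons c11965.symm (.cons c7473 (.cons c7539 (.cons c7528 .nil)))))
  have q13514 : Rl [t26, t24, t30, t67, t77, t66] := q4904.mv 1 rfl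
  have q13515 : Rl [t24, t26, t30, t67, t77, t66] := q13514.mv 1 rfl
  have e13516 := (Rl.l2 H i24 i26 i13 q13515 (.cons c478.symm (.cons c2173.symm (.cons c2175.symm (.cons c1484.symm .nil)))) (Lsw H i13 i24 b5955)).symm.trans (Lsw H i13 i26 b5956)
  have m13517 : t327 = t328 := e13516
  subst m13517
  have q13518 : Rl [t26, t24, t30, t67, t77, t66] := q4904.mv 1 rfl
  have c13519 := q13518.l1 (.cons c10806 (.cons c12197.symm (.cons c7012 (.cons c7088 (.cons c6998 .nil)))))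
  have q13520 : Rl [t26, t24, t30, t67, t77, t66] := q4904.mv 1 rfl
  have c13521 := q13520.l1 (.cons c10808 (.cons c12200.symm (.cons c7013 (.cons c7089 (.cons c6999 .nil)))))
  have c13528 := q4904.l1 (.cons c11055 (.cons c12198.symm (.cons c7593 (.cons c7623 (.cons c7577 .nil)))))
  have q13544 : Rl [t34, t25, t35, t60, t74, t76] := q4882.mv 1 rfl
  have q13545 : Rl [t25, t34, t35, t60, t74, t76] := q13544.mv 1 rfl
  have e13546 := (Rl.l2 H i25 i34 i15 q13545 (.cons c465.symm (.cons c2068 (.cons c2170.symm (.cons c1459.symm .nil)))) (Lsw H i15 i25 b5960)).symm.trans (Lsw H i15 i34 b5963)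
  have m13547 : t332 = t335 := e13546
  subst m13547
  have q13550 : Rl [t34, t25, t35, t60, t74, t76] := q4882.mv 1 rfl
  have c13551 := q13550.l1 (.cons c11364 (.cons c12327.symm (.cons c6510 (.cons c6570 (.cons c6580 .nil)))))
  have q13569 : Rl [t39, t27, t40, t63, t83, t84] := q4883.mv 1 rfl
  have q13570 : Rl [t27, t39, t40, t63, t83, t84] := q13569.mv 1 rfl
  have e13571 := (Rl.l2 H i27 i39 i18 q13570 (.cons c453.symm (.cons c2083 (.cons c2084 (.cons c1423.symm .nil)))) (Lsw H i18 i27 b5969)).symm.trans (Lsw H i18 i39 b5972)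
  have m13572 : t341 = t344 := e13571
  subst m13572
  have q13577 : Rl [t39, t27, t40, t63, t83, t84] := q4883.mv 1 rfl
  have c13578 := q13577.l1 (.cons c11655 (.cons c12454.symm (.cons c6531 (.cons c6604 (.cons c6614 .nil)))))
  have c13588 := q4883.l1 (.cons c10809 (.cons c12450.symm (.cons c8112 (.cons c8204 (.cons c8216 .nil)))))
  have q13595 : Rl [t38, t33, t45, t71, t80, t91] := q5576.mv 1 rfl
  have q13596 : Rl [t33, t38, t45, t71, t80, t91] := q13595.mv 1 rfl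
  have e13597 := (Rl.l2 H i33 i38 i20 q13596 (.cons c440.symm (.cons c2097 (.cons c2098 (.cons c1379.symm .nil)))) (Lsw H i20 i33 b5980)).symm.trans (Lsw H i20 i38 b5981)
  have m13598 : t352 = t353 := e13597
  subst m13598
  have q13609 : Rl [t38, t33, t45, t71, t80, t91] := q5576.mv 1 rfl
  have c13610 := q13609.l1 (.cons c11656 (.cons c12510.symm (.cons c7030 (.cons c7107 (.cons c7121 .nil)))))
  have e13626 := (LP1 H i1 i2 i81 hab b2251 b2261 (Lsw H i2 i124 b5844)).symm.trans (Lsw H i1 i134 b5831)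
  have m13627 : t203 = t216 := e13626.symm
  subst m13627
  have b13628 := LP1 H i1 i2 i82 hab b2252 (Lsw H i82 i2 b5615) (Lsw H i2 i124 b5844)
  have e13629 := (LP1 H i1 i2 i88 hab b2253 b2264 (Lsw H i2 i126 b5845)).symm.trans (Lsw H i1 i134 b5831)
  have m13630 : t203 = t217 := e13629.symm
  subst m13630
  have b13631 := LP1 H i1 i3 i72 hac b2248 b2271 (Lsw H i3 i121 b5861)
  have e13632 := (LP1 H i1 i3 i73 hac b2249 b2272 (Lsw H i3 i121 b5861)).symm.trans (Lsw H i1 i145 b5832)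
  have m13633 : t204 = t233 := e13632.symm
  subst m13633
  have e13634 := (LP1 H i1 i3 i88 hac b2253 b2274 (Lsw H i3 i126 b5862)).symm.trans b13631
  have m13635 : t204 = t234 := e13634.symm
  subst m13635
  have b13637 := LP1 H i1 i6 i47 c10.symm b632 b2295 (Lsw H i6 i66 b5916)
  have e13640 := (LP1 H i1 i7 i33 c12.symm b625 b2298 (Lsw H i7 i59 b5921)).symm.trans (Lsw H i1 i171 b5839)
  have m13641 : t211 = t293 := e13640.symm
  subst m13641
  have b13642 := LP1 H i1 i7 i38 c12.symm b628 b2299 (Lsw H i7 i62 b5922)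
  have b13643 := LP1 H i8 i1 i34 c22.symm (Lsw H i34 i8 b5121) b626 (Lsw H i1 i134 b5831)
  have b13644 := LP1 H i8 i1 i39 c22.symm (Lsw H i39 i8 b5196) b629 b13631
  have e13645 := (LP1 H i1 i13 i15 c45.symm b124 b2322 (Lsw H i13 i24 b5955)).symm.trans (Lsw H i1 i195 b5843)
  have m13646 : t215 = t327 := e13645.symm
  subst m13646
  have b13648 := LP1 H i1 i24 i11 c159.symm b32 (Lsw H i11 i24 b2316) b5955
  have b13649 := LP1 H i25 i1 i10 c161 (Lsw H i10 i25 b2311) b31 (Lsw H i1 i184 b5842)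
  have b13651 := LP1 H i27 i1 i9 c165 (Lsw H i9 i27 b2307) (Lsw H i9 i1 b114) (Lsw H i1 i180 b5840)
  have e13652 := (LP1 H i1 i59 i5 c686.symm b5 (Lsw H i5 i59 b2284) b5921).symm.trans (Lsw H i1 i157 b5835)
  have m13653 : t207 = t211 := e13652.symm
  subst m13653
  have b13654 := LP1 H i1 i62 i5 c692.symm b5 (Lsw H i5 i62 b2285) b5922
  have e13655 := (LP1 H i1 i66 i4 c700.symm b4 (Lsw H i4 i66 b2280) b5916).symm.trans (Lsw H i1 i153 b5833)
  have m13656 : t205 = t288 := e13655.symm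
  subst m13656
  have c13785 := Lck c8730 c9446 b4
  have c13797 := Lck c8799 c9482 b4
  have c13851 := Lck c9958 c10037.symm b2250
  have c13863 := Lck c10273 c10308.symm b2247
  have c13911 := Lck c10535 c9476 b4
  have c13920 := Lck c11073 c11128.symm b628
  have c13954 := Lck c11384 c11411.symm b625
  have b13989 := LP1 H i2 i4 i62 hbd b2258 b2278 (Lsw H i4 i120 b5881)
  have e13990 := (LP1 H i2 i4 i65 hbd b2260 b2279 (Lsw H i4 i120 b5881)).symm.trans (Lsw H i2 i152 b5848)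
  have m13991 : t220 = t253 := e13990.symm
  subst m13991
  have b13992 := LP1 H i4 i2 i82 hbd.symm b2281 (Lsw H i82 i2 b5615) b13989
  have b13993 := LP1 H i6 i2 i38 c23.symm b2293 b637 b13989
  have e13995 := (LP1 H i2 i8 i46 c14.symm b642 b2305 (Lsw H i8 i76 b5929)).symm.trans (Lsw H i2 i178 b5856)
  have m13996 : t228 = t301 := e13995.symm
  subst m13996
  have e13998 := (LP1 H i2 i9 i27 c16.symm b634 b2307 (Lsw H i9 i59 b5932)).symm.trans (Lsw H i2 i180 b5857)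
  have m13999 : t229 = t304 := e13998.symm
  subst m13999
  have e14000 := (LP1 H i2 i9 i39 c16.symm b638 b2309 (Lsw H i9 i72 b5935)).symm.trans (Lsw H i2 i182 b5858)
  have m14001 : t230 = t307 := e14000.symm
  subst m14001
  have b14005 := LP1 H i2 i16 i12 c51.symm b131 (Lsw H i12 i16 b2320) (Lsw H i16 i24 b5967)
  have e14006 := (LP1 H i2 i24 i11 c235 b35 (Lsw H i11 i24 b2316) b5967).symm.trans (Lsw H i2 i189 b5860)
  have m14007 : t232 = t339 := e14006.symm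
  subst m14007
  have e14008 := (LP1 H i2 i25 i10 c236 b34 (Lsw H i10 i25 b2311) b5960).symm.trans (Lsw H i2 i184 b5859)
  have m14009 : t231 = t332 := e14008.symm
  subst m14009
  have b14011 := LP1 H i33 i2 i7 c177 (Lsw H i7 i33 b2298) b33 (Lsw H i2 i171 b5854)
  have b14012 := LP1 H i2 i34 i10 c179.symm b34 (Lsw H i10 i34 b2313) b5963
  have e14013 := (LP1 H i2 i59 i5 c820 b7 (Lsw H i5 i59 b2284) b5932).symm.trans (Lsw H i2 i157 b5849)
  have m14014 : t221 = t229 := e14013.symm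
  subst m14014
  have e14015 := (LP1 H i2 i72 i5 c712.symm b7 (Lsw H i5 i72 b2287) b5935).symm.trans (Lsw H i2 i160 b5852)
  have m14016 : t224 = t230 := e14015.symm
  subst m14016
  have e14017 := (LP1 H i2 i76 i3 c720.symm b6 (Lsw H i3 i76 b2273) b5929).symm.trans (Lsw H i2 i146 b5846)
  have m14018 : t218 = t228 := e14017.symm
  subst m14018
  have c14127 := Lck c9460 c9544.symm b2262
  have c14134 := Lck c8817 c9953 b6
  have c14171 := Lck c10240 c8660 b6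
  have c14184 := Lck c10267 c8747 b6
  have c14214 := Lck c10702 c9430 b6
  have c14279 := Lck c11549 c11283 b6
  have c14280 := Lck c11549 c8014 b33
  have b14292 := LP1 H i4 i3 i59 hcd.symm b2277 b2268 (Lsw H i3 i135 b5863)
  have b14293 := LP1 H i3 i4 i65 hcd b2270 b2279 b14292
  have e14294 := (LP1 H i3 i4 i73 hcd b2272 (Lsw H i73 i4 b5117) (Lsw H i4 i145 b5884)).symm.trans (Lsw H i3 i135 b5863)
  have m14295 : t235 = t256 := e14294.symm
  subst m14295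
  have e14296 := (LP1 H i3 i6 i33 c25 b646 b2292 (Lsw H i6 i80 b5917)).symm.trans (Lsw H i3 i135 b5863)
  have m14297 : t235 = t289 := e14296.symm
  subst m14297
  have b14299 := LP1 H i8 i3 i46 c15 b2305 b650 (Lsw H i3 i178 b5873)
  have e14301 := (LP1 H i3 i10 i25 c18.symm b644 b2311 (Lsw H i10 i62 b5941)).symm.trans (Lsw H i3 i184 b5876)
  have m14302 : t248 = t313 := e14301.symm
  subst m14302
  have e14303 := (LP1 H i3 i10 i34 c18.symm b647 b2313 (Lsw H i10 i81 b5945)).symm.trans (Lsw H i3 i186 b5877)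
  have m14304 : t249 = t317 := e14303.symm
  subst m14304
  have e14305 := (LP1 H i3 i12 i16 c74 b138 b2320 (Lsw H i12 i38 b5953)).symm.trans (Lsw H i3 i193 b5879)
  have m14306 : t251 = t325 := e14305.symm
  subst m14306
  have e14308 := (LP1 H i3 i18 i13 c55.symm b137 (Lsw H i13 i18 b2323) (Lsw H i18 i27 b5969)).symm.trans (Lsw H i3 i196 b5880)
  have m14309 : t252 = t341 := e14308.symm
  subst m14309
  have e14311 := (LP1 H i3 i26 i11 c246 b38 (Lsw H i11 i26 b2317) b5977).symm.trans (Lsw H i3 i190 b5878)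
  have m14312 : t250 = t349 := e14311.symm
  subst m14312
  have e14313 := (LP1 H i3 i27 i9 c247 b37 (Lsw H i9 i27 b2307) b5969).symm.trans (Lsw H i3 i180 b5874)
  have m14314 : t246 = t252 := e14313.symm
  subst m14314
  have c14315 := Lco i212 i3 (LP1 H i3 i27 i14 c247 (Lsw H i14 i3 b521) (Lsw H i14 i27 b13651) (k_one i26 i27 c489))
  have e14316 := (LP1 H i3 i38 i7 c187.symm b36 (Lsw H i7 i38 b2299) b5953).symm.trans (Lsw H i3 i172 b5872)
  have m14317 : t244 = t251 := e14316.symm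
  subst m14317
  have e14318 := (LP1 H i3 i39 i9 c189.symm b37 (Lsw H i9 i39 b2309) b5972).symm.trans (Lsw H i3 i182 b5875)
  have m14319 : t246 = t247 := e14318
  subst m14319
  have e14320 := (LP1 H i3 i62 i5 c842 b8 (Lsw H i5 i62 b2285) b5941).symm.trans (Lsw H i3 i158 b5867)
  have m14321 : t239 = t248 := e14320.symm
  subst m14321
  have e14322 := (LP1 H i3 i81 i5 c730.symm b8 (Lsw H i5 i81 b2289) b5945).symm.trans (Lsw H i3 i162 b5870)
  have m14323 : t242 = t249 := e14322.symm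
  subst m14323
  have e14325 := (LP1 H i84 i3 i2 c736 (Lsw H i2 i84 b2263) (Lsw H i2 i3 b6) (Lsw H i3 i136 b5864)).symm.trans (Lsw H i84 i8 b14299)
  have m14326 : t236 = t245 := e14325
  subst m14326
  have c14574 := Lck c11283 c14280 (Lsw H i14 i3 b521)
  have c14575 := Lck c11283 c7991 (Lsw H i15 i3 b566)
  have c14576 := Lck c11283 c11676.symm b644
  have e14599 := (LP1 H i4 i6 i47 c11.symm b657 b2295 (Lsw H i6 i91 b5918)).symm.trans (Lsw H i4 i168 b5890)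
  have m14600 : t262 = t290 := e14599.symm
  subst m14600
  have e14602 := (LP1 H i4 i11 i24 c20.symm b651 b2316 (Lsw H i11 i72 b5950)).symm.trans (Lsw H i4 i189 b5895)
  have m14603 : t267 = t322 := e14602.symm
  subst m14603
  have e14605 := (LP1 H i4 i20 i15 c59.symm b142 (Lsw H i15 i20 b2325) (Lsw H i20 i33 b5980)).symm.trans (Lsw H i4 i198 b5896)
  have m14606 : t268 = t352 := e14605.symm
  subst m14606
  have b14608 := LP1 H i4 i33 i7 c285 b39 (Lsw H i7 i33 b2298) b5980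
  have c14609 := Lco i226 i4 (LP1 H i4 i33 i14 c285 (Lsw H i14 i4 b543) (Lsw H i14 i33 b14011) (k_one i34 i33 c491.symm))
  have b14610 := LP1 H i34 i4 i10 c286.symm (Lsw H i10 i34 b2313) b40 (Lsw H i4 i186 b5894)
  have e14611 := (LP1 H i4 i38 i7 c320 b39 (Lsw H i7 i38 b2299) b5981).symm.trans (Lsw H i4 i172 b5891)
  have m14612 : t263 = t268 := e14611.symm
  subst m14612
  have b14613 := LP1 H i39 i4 i9 c322.symm (Lsw H i9 i39 b2309) (Lsw H i9 i4 b118) (Lsw H i4 i182 b5893)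
  have e14614 := (LP1 H i4 i72 i5 c943 b9 (Lsw H i5 i72 b2287) b5950).symm.trans (Lsw H i4 i160 b5887)
  have m14615 : t259 = t267 := e14614.symm
  subst m14615
  have e14616 := (LP1 H i4 i81 i5 c1051 b9 (Lsw H i5 i81 b2289) b5951).symm.trans (Lsw H i4 i162 b5889)
  have m14617 : t261 = t323 := e14616.symm
  subst m14617
  have e14618 := (LP1 H i4 i91 i1 c750.symm (Lsw H i1 i4 b4) (Lsw H i1 i91 b2254) b5918).symm.trans (Lsw H i4 i127 b5882)
  have m14619 : t254 = t262 := e14618.symm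
  subst m14619
  have b14809 := LP1 H i7 i5 i33 c13 b2298 b662 (Lsw H i5 i171 b5912)
  have c14810 := LP3 H i5 i7 i38 c13.symm b664 b14809
  have e14812 := (LP1 H i5 i9 i27 c17.symm b661 b2307 (Lsw H i9 i95 b5939)).symm.trans (Lsw H i5 i180 b5913)
  have m14813 : t285 = t311 := e14812.symm
  subst m14813
  have e14816 := (LP1 H i5 i10 i25 c19.symm b659 b2311 (Lsw H i10 i93 b5946)).symm.trans (Lsw H i5 i184 b5914)
  have m14817 : t286 = t318 := e14816.symm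
  subst m14817
  have b14820 := LP1 H i11 i5 i24 c21 b2316 b658 (Lsw H i5 i189 b5915)
  have e14830 := (LP1 H i5 i60 i3 c2015.symm (Lsw H i3 i5 b8) (Lsw H i3 i60 b2269) b5940).symm.trans (Lsw H i5 i124 b5900)
  have m14831 : t272 = t312 := e14830.symm
  subst m14831
  have b14832 := LP1 H i63 i5 i2 c2013 (Lsw H i2 i63 b2259) (Lsw H i2 i5 b7) (Lsw H i5 i121 b5898)
  have e14833 := (LP1 H i5 i66 i4 c1301.symm (Lsw H i4 i5 b9) (Lsw H i4 i66 b2280) b5949).symm.trans (Lsw H i5 i153 b5910)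
  have m14834 : t282 = t321 := e14833.symm
  subst m14834
  have c14835 := Lco i205 i5 (LP1 H i5 i66 i6 c1301.symm b41 (Lsw H i6 i66 b5916) (k_one i22 i66 c2176.symm))
  have b14836 := LP1 H i67 i5 i4 c2016 b5112 (Lsw H i4 i5 b9) (Lsw H i5 i134 b5903)
  have e14837 := (LP1 H i5 i71 i1 c2018.symm (Lsw H i1 i5 b5) (Lsw H i1 i71 b2247) b5923).symm.trans (Lsw H i5 i120 b5897)
  have m14838 : t269 = t295 := e14837.symm
  subst m14838
  have b14839 := LP1 H i5 i74 i3 c2017.symm (Lsw H i3 i5 b8) b5187 b5944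
  have b14840 := LP1 H i76 i5 i3 c1295 (Lsw H i3 i76 b2273) (Lsw H i3 i5 b8) (Lsw H i5 i146 b5908)
  have b14841 := LP1 H i77 i5 i4 c2014 b5186 (Lsw H i4 i5 b9) (Lsw H i5 i144 b5907)
  have e14842 := (LP1 H i5 i80 i1 c2020.symm (Lsw H i1 i5 b5) (Lsw H i1 i80 b2250) b5926).symm.trans (Lsw H i5 i123 b5899)
  have m14843 : t271 = t298 := e14842.symm
  subst m14843
  have e14844 := (LP1 H i5 i83 i2 c2019.symm (Lsw H i2 i5 b7) (Lsw H i2 i83 b2262) b5937).symm.trans (Lsw H i5 i135 b5904)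
  have m14845 : t276 = t309 := e14844.symm
  subst m14845
  have e14846 := (LP1 H i5 i84 i2 c1296.symm (Lsw H i2 i5 b7) (Lsw H i2 i84 b2263) b5938).symm.trans (Lsw H i5 i136 b5905)
  have m14847 : t277 = t310 := e14846.symm
  subst m14847
  have e14848 := (LP1 H i5 i91 i1 c1302.symm (Lsw H i1 i5 b5) (Lsw H i1 i91 b2254) b5928).symm.trans (Lsw H i5 i127 b5901)
  have m14849 : t273 = t300 := e14848.symm
  subst m14849
  have e14851 := (LP1 H i92 i5 i4 c752 (Lsw H i4 i92 b2282) (Lsw H i4 i5 b9) (Lsw H i5 i155 b5911)).symm.trans (Lsw H i92 i11 b14820)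
  have m14852 : t283 = t287 := e14851
  subst m14852
  have c14853 := Lco i291 i5 (LP1 H i5 i92 i6 c752.symm b41 (Lsw H i6 i92 b5919) (k_one i22 i92 c2039))
  have e14854 := (LP1 H i5 i93 i3 c754.symm (Lsw H i3 i5 b8) (Lsw H i3 i93 b2275) b5946).symm.trans (Lsw H i5 i148 b5909)
  have m14855 : t281 = t286 := e14854.symm
  subst m14855
  have c14856 := Lco i302 i5 (LP1 H i5 i93 i8 c754.symm b42 (Lsw H i8 i93 b5930) (k_one i23 i93 c2037))
  have e14857 := (LP1 H i5 i95 i2 c758.symm (Lsw H i2 i5 b7) (Lsw H i2 i95 b2266) b5939).symm.trans (Lsw H i5 i139 b5906)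
  have m14858 : t278 = t285 := e14857.symm
  subst m14858
  have c14859 := Lco i303 i5 (LP1 H i5 i95 i8 c758.symm b42 (Lsw H i8 i95 b5931) (k_one i23 i95 c2038))
  have e14861 := (LP1 H i96 i5 i1 c760 (Lsw H i1 i96 b2256) (Lsw H i1 i5 b5) (Lsw H i5 i129 b5902)).symm.trans (Lsw H i96 i7 b14809)
  have m14862 : t274 = t284 := e14861
  subst m14862
  have c14863 := Lco i292 i5 (LP1 H i5 i96 i6 c760.symm b41 (Lsw H i6 i96 b5920) (k_one i22 i96 c2040))
  have c14973 := Lco i168 i20 (LP1 H i20 i6 i47 c77.symm b5982 b2295 (k_one i331 i6 c13911))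
  have c14974 := Lco i221 i6 (LP1 H i6 i59 i9 c1179 b150 (Lsw H i9 i59 b5932) (k_one i35 i59 c1983))
  have c14975 := Lco i239 i6 (LP1 H i6 i62 i10 c1188 b151 (Lsw H i10 i62 b5941) (k_one i40 i62 c1982))
  have c14977 := Lco i242 i6 (LP1 H i6 i81 i10 c1065 b151 (Lsw H i10 i81 b5945) (k_one i40 i81 c2101))
  have c14978 := Lco i22 i120 (LP1 H i120 i6 i5 c3294.symm (Lsw H i5 i120 b5897) (Lsw H i5 i6 b41) (k_one i269 i6 c13785))
  have c14979 := Lco i22 i123 (LP1 H i123 i6 i5 c3315.symm (Lsw H i5 i123 b5899) (Lsw H i5 i6 b41) (k_one i271 i6 c13797))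
  have e14995 := (LP1 H i7 i9 i19 c24 b672 b679 (Lsw H i9 i95 b5939)).symm.trans b14809
  have m14996 : t274 = t278 := e14995.symm
  subst m14996
  have e14997 := (LP1 H i7 i10 i16 c26 b671 b681 (Lsw H i10 i93 b5946)).symm.trans b14809
  have m14998 : t274 = t281 := e14997.symm
  subst m14998
  have e15003 := (LP1 H i7 i25 i3 c408 (Lsw H i3 i7 b36) (Lsw H i3 i25 b644) b13649).symm.trans (Lsw H i7 i62 b5922)
  have m15004 : t214 = t294 := e15003
  subst m15004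
  have e15005 := (LP1 H i7 i27 i2 c414 (Lsw H i2 i7 b33) (Lsw H i2 i27 b634) b13651).symm.trans (Lsw H i7 i59 b5921)
  have m15006 : t207 = t212 := e15005.symm
  subst m15006
  have e15009 := (LP1 H i7 i34 i3 c280.symm (Lsw H i3 i7 b36) (Lsw H i3 i34 b647) b5952).symm.trans (Lsw H i7 i81 b5927)
  have m15010 : t299 = t324 := e15009.symm
  subst m15010
  have b15011 := LP1 H i36 i7 i4 c2027.symm b1782 (Lsw H i4 i7 b39) (Lsw H i7 i71 b5923)
  have b15012 := LP1 H i39 i7 i2 c316 (Lsw H i2 i39 b638) (Lsw H i2 i7 b33) (Lsw H i7 i72 b5924)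
  have b15013 := LP1 H i40 i7 i2 c2029.symm (Lsw H i2 i40 b639) (Lsw H i2 i7 b33) (Lsw H i7 i73 b5925)
  have e15017 := (LP1 H i7 i47 i4 c427 (Lsw H i4 i7 b39) (Lsw H i4 i47 b657) b5982).symm.trans (Lsw H i7 i91 b5928)
  have m15018 : t273 = t331 := e15017.symm
  subst m15018
  have b15019 := LP1 H i56 i7 i4 c2035.symm b1824 (Lsw H i4 i7 b39) (Lsw H i7 i80 b5926)
  have c15038 := Lck c6369.symm c12796 b5924
  have c15042 := Lck c9637 c7027.symm b5923
  have c15053 := Lck c9632 c7639.symm b5926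
  have c15055 := Lck c9638 c14975 b524
  have c15080 := Lck c8037 c14574 b2297
  have c15123 := Lco i259 i8 (LP1 H i8 i72 i11 c1119 b157 (Lsw H i11 i72 b5950) (k_one i45 i72 c1985))
  have c15124 := Lco i30 i81 (LP1 H i81 i8 i7 c1014.symm (Lsw H i7 i81 b5927) (Lsw H i7 i8 b153) (k_one i299 i8 c14214))
  have c15126 := Lco i23 i124 (LP1 H i124 i8 i5 c2588.symm (Lsw H i5 i124 b5900) (Lsw H i5 i8 b42) (k_one i272 i8 c14171))
  have c15127 := Lco i23 i135 (LP1 H i135 i8 i5 c3169.symm (Lsw H i5 i135 b5904) (Lsw H i5 i8 b42) (k_one i276 i8 c14134))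
  have c15128 := Lco i23 i151 (LP1 H i151 i8 i5 c3223.symm b14839 (Lsw H i5 i8 b42) (k_one i316 i8 c14184))
  have e15143 := (LP1 H i11 i9 i12 c28.symm b683 b678 (Lsw H i9 i95 b5939)).symm.trans b14820
  have m15144 : t274 = t283 := e15143
  subst m15144
  have e15147 := (LP1 H i9 i24 i4 c449.symm b118 (Lsw H i4 i24 b651) b5967).symm.trans (Lsw H i9 i72 b5935)
  have m15148 : t224 = t232 := e15147.symm
  subst m15148
  have b15149 := LP1 H i26 i9 i4 c241 (Lsw H i4 i26 b653) b118 (Lsw H i9 i81 b5936)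
  have e15150 := (LP1 H i9 i28 i3 c2021 (Lsw H i3 i9 b37) b1734 b5970).symm.trans (Lsw H i9 i63 b14832)
  have m15151 : t270 = t342 := e15150.symm
  subst m15151
  have e15154 := (LP1 H i33 i9 i1 c415.symm (Lsw H i1 i33 b625) b114 (Lsw H i9 i59 b5932)).symm.trans b14011
  have m15155 : t221 = t226 := e15154
  subst m15155
  have b15156 := LP1 H i38 i9 i1 c318 (Lsw H i1 i38 b628) b114 (Lsw H i9 i62 b5933)
  have e15157 := (LP1 H i9 i41 i3 c2031 (Lsw H i3 i9 b37) (Lsw H i3 i41 b649) b5973).symm.trans (Lsw H i9 i83 b5937)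
  have m15158 : t276 = t345 := e15157.symm
  subst m15158
  have b15159 := LP1 H i45 i9 i1 c2033.symm (Lsw H i1 i45 b631) b114 (Lsw H i9 i65 b5934)
  have e15160 := (LP1 H i9 i46 i3 c428 (Lsw H i3 i9 b37) (Lsw H i3 i46 b650) b5974).symm.trans (Lsw H i9 i84 b5938)
  have m15161 : t277 = t338 := e15160.symm
  subst m15161
  have c15190 := Lck c6833.symm c12659 b5933
  have c15211 := Lck c10126 c8203.symm b5937
  have c15213 := Lck c10136 c15123 (Lsw H i8 i9 b155)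
  have e15251 := (LP1 H i10 i24 i4 c230.symm (Lsw H i4 i10 b40) (Lsw H i4 i24 b651) b5975).symm.trans (Lsw H i10 i72 b5943)
  have m15252 : t315 = t347 := e15251.symm
  subst m15252
  have e15253 := (LP1 H i10 i26 i4 c461.symm (Lsw H i4 i10 b40) (Lsw H i4 i26 b653) b5977).symm.trans (Lsw H i10 i81 b5945)
  have m15254 : t242 = t250 := e15253.symm
  subst m15254
  have e15255 := (LP1 H i10 i28 i2 c2022 (Lsw H i2 i10 b34) (Lsw H i2 i28 b635) b5962).symm.trans (Lsw H i10 i60 b5940)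
  have m15256 : t272 = t334 := e15255.symm
  subst m15256
  have e15257 := (LP1 H i10 i38 i1 c409 (Lsw H i1 i10 b31) (Lsw H i1 i38 b628) b5953).symm.trans (Lsw H i10 i62 b5941)
  have m15258 : t239 = t244 := e15257.symm
  subst m15258
  have e15259 := (LP1 H i10 i41 i2 c2032 (Lsw H i2 i10 b34) (Lsw H i2 i41 b640) b5965).symm.trans (Lsw H i10 i74 b5944)
  have m15260 : t316 = t337 := e15259.symm
  subst m15260
  have e15261 := (LP1 H i10 i45 i1 c2034 (Lsw H i1 i10 b31) (Lsw H i1 i45 b631) b5954).symm.trans (Lsw H i10 i65 b5942)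
  have m15262 : t314 = t326 := e15261.symm
  subst m15262
  have e15263 := (LP1 H i10 i46 i2 c430 (Lsw H i2 i10 b34) (Lsw H i2 i46 b642) b5966).symm.trans (Lsw H i10 i76 b14840)
  have m15264 : t277 = t280 := e15263
  subst m15264
  have c15288 := Lck c6888 c11013 (Lsw H i4 i10 b40)
  have e15332 := (LP1 H i11 i25 i3 c232.symm (Lsw H i3 i11 b38) (Lsw H i3 i25 b644) b5976).symm.trans (Lsw H i11 i62 b5948)
  have m15333 : t320 = t348 := e15332.symm
  subst m15333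
  have e15334 := (LP1 H i11 i27 i2 c243.symm (Lsw H i2 i11 b35) (Lsw H i2 i27 b634) b5968).symm.trans (Lsw H i11 i59 b5947)
  have m15335 : t319 = t340 := e15334.symm
  subst m15335
  have e15337 := (LP1 H i34 i11 i3 c473 (Lsw H i3 i34 b647) (Lsw H i3 i11 b38) (Lsw H i11 i81 b5951)).symm.trans b14610
  have m15338 : t261 = t266 := e15337
  subst m15338
  have c15339 := LP3 H i36 i11 i1 c2028.symm b1722 (Lsw H i11 i67 b14836)
  have e15341 := (LP1 H i39 i11 i2 c474 (Lsw H i2 i39 b638) (Lsw H i2 i11 b35) (Lsw H i11 i72 b5950)).symm.trans b14613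
  have m15342 : t259 = t265 := e15341
  subst m15342
  have e15343 := (LP1 H i11 i47 i1 c448 (Lsw H i1 i11 b32) (Lsw H i1 i47 b632) b5959).symm.trans (Lsw H i11 i66 b5949)
  have m15344 : t273 = t282 := e15343
  subst m15344
  have c15345 := LP3 H i56 i11 i1 c2036.symm b1731 (Lsw H i11 i77 b14841)
  have c15378 := Lck c10649 c14977 (Lsw H i6 i11 b152)
  have c15389 := Lck c7961.symm c12599 b5947
  have e15402 := (LP1 H i12 i13 i2 c112 (Lsw H i2 i12 b131) (Lsw H i2 i13 b132) (Lsw H i13 i24 b5955)).symm.trans (Lsw H i12 i25 b13649)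
  have m15403 : t214 = t215 := e15402.symm
  subst m15403
  have b15404 := LP1 H i12 i15 i4 c69 b560 (Lsw H i4 i15 b142) (Lsw H i15 i39 b5964)
  have e15406 := (LP1 H i12 i18 i4 c108 b560 (Lsw H i4 i18 b143) (Lsw H i18 i39 b5972)).symm.trans (Lsw H i12 i38 b5953)
  have m15407 : t239 = t246 := e15406.symm
  subst m15407
  have e15408 := (LP1 H i12 i20 i2 c91 (Lsw H i2 i12 b131) (Lsw H i2 i20 b134) (Lsw H i20 i24 b5978)).symm.trans (Lsw H i12 i34 b5952)
  have m15409 : t299 = t350 := e15408.symm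
  subst m15409
  have e15411 := (LP1 H i12 i23 i4 c2005.symm b560 (Lsw H i4 i23 b145) (Lsw H i23 i39 b5984)).symm.trans (Lsw H i12 i45 b5954)
  have m15412 : t314 = t356 := e15411.symm
  subst m15412
  have c15417 := Lco i92 i72 (LP1 H i72 i12 i9 c929 (Lsw H i9 i72 b5935) (Lsw H i9 i12 b678) (k_one i224 i12 c6861))
  have c15428 := Lck c10830 c15288 b2321
  have c15434 := Lck c10825 c14279 (Lsw H i8 i12 b673)
  have e15439 := (LP1 H i13 i14 i3 c123.symm (Lsw H i3 i13 b137) b521 (Lsw H i14 i27 b13651)).symm.trans (Lsw H i13 i26 b5956)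
  have m15440 : t207 = t214 := e15439
  subst m15440
  have e15442 := (LP1 H i13 i16 i3 c70 (Lsw H i3 i13 b137) (Lsw H i3 i16 b138) (Lsw H i16 i27 b5968)).symm.trans (Lsw H i13 i38 b5958)
  have m15443 : t319 = t330 := e15442
  subst m15443
  have e15445 := (LP1 H i13 i19 i2 c75 (Lsw H i2 i13 b132) (Lsw H i2 i19 b133) (Lsw H i19 i25 b5976)).symm.trans (Lsw H i13 i33 b5957)
  have m15446 : t320 = t329 := e15445
  subst m15446
  have c15447 := Lco i207 i19 (LP1 H i19 i13 i26 c75.symm b5977 b5956 (k_one i242 i13 c11003))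
  have c15451 := Lco i95 i93 (LP1 H i93 i13 i10 c1507 (Lsw H i10 i93 b5946) (Lsw H i10 i13 b680) (k_one i274 i13 c10978))
  have e15485 := (LP1 H i14 i15 i4 c109 b543 (Lsw H i4 i15 b142) (Lsw H i15 i34 b5963)).symm.trans (Lsw H i14 i33 b14011)
  have m15486 : t221 = t231 := e15485.symm
  subst m15486
  have e15489 := (LP1 H i14 i18 i4 c117 b543 (Lsw H i4 i18 b143) (Lsw H i18 i34 b5971)).symm.trans (Lsw H i14 i38 b15156)
  have m15490 : t305 = t343 := e15489.symm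
  subst m15490
  have c15491 := Lco i296 i18 (LP1 H i18 i14 i39 c117.symm b5972 b15012 (k_one i239 i14 c11068))
  have e15492 := (LP1 H i14 i20 i3 c81 b521 (Lsw H i3 i20 b139) (Lsw H i20 i26 b5979)).symm.trans (Lsw H i14 i39 b15012)
  have m15493 : t296 = t351 := e15492.symm
  subst m15493
  have e15496 := (LP1 H i14 i22 i3 c1999.symm b521 (Lsw H i3 i22 b140) (Lsw H i22 i26 b5983)).symm.trans (Lsw H i14 i40 b15013)
  have m15497 : t297 = t355 := e15496.symm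
  subst m15497
  have e15507 := (LP1 H i15 i16 i1 c113 (Lsw H i1 i15 b124) (Lsw H i1 i16 b125) (Lsw H i16 i24 b5967)).symm.trans (Lsw H i15 i25 b5960)
  have m15508 : t221 = t224 := e15507.symm
  subst m15508
  have e15512 := (LP1 H i15 i19 i1 c82 (Lsw H i1 i15 b124) (Lsw H i1 i19 b127) (Lsw H i19 i24 b5975)).symm.trans (Lsw H i15 i27 b5961)
  have m15513 : t315 = t333 := e15512
  subst m15513
  have c15520 := Lco i96 i92 (LP1 H i92 i15 i11 c1533 b14820 (Lsw H i11 i15 b684) (k_one i274 i15 c11226))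
  have c15558 := Lco i319 i18 (LP1 H i18 i16 i27 c121 b5969 b5968 (k_one i239 i16 c7390))
  have e15559 := (LP1 H i16 i20 i3 c122.symm (Lsw H i3 i16 b138) (Lsw H i3 i20 b139) (Lsw H i20 i38 b5981)).symm.trans (Lsw H i16 i39 b14613)
  have m15560 : t259 = t263 := e15559.symm
  subst m15560
  have c15561 := Lco i299 i16 (LP1 H i16 i20 i24 c122.symm b5967 b5978 (k_one i221 i20 c11794))
  have c15568 := Lco i93 i62 (LP1 H i62 i16 i7 c832 (Lsw H i7 i62 b5922) (Lsw H i7 i16 b671) (k_one i207 i16 c11377))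
  have c15569 := Lco i96 i62 (LP1 H i62 i16 i10 c832 (Lsw H i10 i62 b5941) (Lsw H i10 i16 b681) (k_one i239 i16 c7390))
  have c15570 := Lco i93 i81 (LP1 H i81 i16 i7 c1547 (Lsw H i7 i81 b5927) (Lsw H i7 i16 b671) (k_one i299 i16 c15561))
  have c15582 := Lck c7970.symm c13588.symm b5968
  have e15587 := (LP1 H i18 i19 i1 c111 (Lsw H i1 i18 b126) (Lsw H i1 i19 b127) (Lsw H i19 i26 b5977)).symm.trans (Lsw H i18 i27 b5969)
  have m15588 : t239 = t242 := e15587.symm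
  subst m15588
  have c15604 := Lck c11537 c6462.symm b5970
  have e15632 := (LP1 H i19 i20 i2 c110.symm (Lsw H i2 i19 b133) (Lsw H i2 i20 b134) (Lsw H i20 i33 b5980)).symm.trans (Lsw H i19 i34 b14610)
  have m15633 : t259 = t261 := e15632
  subst m15633
  have c15634 := Lco i296 i19 (LP1 H i19 i20 i26 c110.symm b5977 b5979 (k_one i239 i20 c11799))
  have c15636 := Lco i95 i59 (LP1 H i59 i19 i7 c810 (Lsw H i7 i59 b5921) (Lsw H i7 i19 b672) (k_one i207 i19 c15447))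
  have c15637 := Lco i96 i59 (LP1 H i59 i19 i9 c810 (Lsw H i9 i59 b5932) (Lsw H i9 i19 b679) (k_one i221 i19 c15288))
  have c15640 := Lco i95 i72 (LP1 H i72 i19 i7 c1569 (Lsw H i7 i72 b5924) (Lsw H i7 i19 b672) (k_one i296 i19 c15634))
  have c15655 := Lck c7427.symm c13528.symm b5975
  have c15694 := Lco i35 i65 (LP1 H i65 i22 i2 c5350.symm (Lsw H i2 i65 b2260) (Lsw H i2 i22 b135) (k_one i120 i22 c14978.symm))
  have c15695 := Lco i40 i65 (LP1 H i65 i22 i3 c5350.symm (Lsw H i3 i65 b2270) (Lsw H i3 i22 b140) (k_one i123 i22 c14979.symm))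
  have c15703 := Lco i40 i182 (LP1 H i182 i22 i3 c3880.symm (Lsw H i3 i182 b5875) (Lsw H i3 i22 b140) (k_one i239 i22 c11860))
  have c15722 := Lco i45 i82 (LP1 H i82 i23 i4 c5410.symm (Lsw H i4 i82 b2281) (Lsw H i4 i23 b145) (k_one i151 i23 c15128.symm))
  have c15727 := Lco i45 i171 (LP1 H i171 i23 i4 c3685.symm b14608 (Lsw H i4 i23 b145) (k_one i259 i23 c11952))
  have c15728 := Lco i45 i172 (LP1 H i172 i23 i4 c3686.symm (Lsw H i4 i172 b5891) (Lsw H i4 i23 b145) (k_one i259 i23 c11952))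
  have c15796 := Lck c13519.symm c14609 (Lsw H i4 i26 b653)
  have c15808 := Lco i276 i27 (LP1 H i27 i41 i18 c319 (Lsw H i18 i27 b5969) (Lsw H i18 i41 b5973) (k_one i239 i41 c15378))
  have c15811 := Lco i180 i83 (LP1 H i83 i27 i9 c1109.symm (Lsw H i9 i83 b5937) (Lsw H i9 i27 b2307) (k_one i276 i27 c15808))
  have c15812 := Lco i139 i27 (LP1 H i27 i95 i2 c759.symm (Lsw H i2 i27 b634) (Lsw H i2 i95 b2266) (k_one i59 i95 c15636.symm))
  have c15831 := Lco i63 i182 (LP1 H i182 i28 i3 c3894.symm (Lsw H i3 i182 b5875) b1734 (k_one i239 i28 c15055))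
  have c15843 := Lck c9184.symm c15491 (Lsw H i18 i28 b5970)
  have c15857 := Lco i269 i33 (LP1 H i33 i36 i20 c599 (Lsw H i20 i33 b5980) (Lsw H i20 i36 b15011) (k_one i259 i36 c15213))
  have c15858 := Lco i271 i33 (LP1 H i33 i56 i20 c556.symm (Lsw H i20 i33 b5980) (Lsw H i20 i56 b15019) (k_one i259 i56 c14575))
  have c15859 := Lco i171 i71 (LP1 H i71 i33 i7 c1011.symm (Lsw H i7 i71 b5923) (Lsw H i7 i33 b2298) (k_one i269 i33 c15857))
  have c15860 := Lco i171 i80 (LP1 H i80 i33 i7 c729 (Lsw H i7 i80 b5926) (Lsw H i7 i33 b2298) (k_one i271 i33 c15858))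
  have c15862 := Lco i129 i33 (LP1 H i33 i96 i1 c761.symm (Lsw H i1 i33 b625) (Lsw H i1 i96 b2256) (k_one i59 i96 c15637.symm))
  have c15909 := Lco i269 i38 (LP1 H i38 i36 i20 c546.symm (Lsw H i20 i38 b5981) (Lsw H i20 i36 b15011) (k_one i259 i36 c15213))
  have c15911 := Lco i71 i172 (LP1 H i172 i36 i4 c3711.symm (Lsw H i4 i172 b5891) b1782 (k_one i259 i36 c15213))
  have c15916 := Lco i271 i38 (LP1 H i38 i56 i20 c600 (Lsw H i20 i38 b5981) (Lsw H i20 i56 b15019) (k_one i259 i56 c14575))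
  have c15918 := Lco i172 i80 (LP1 H i80 i38 i7 c1117.symm (Lsw H i7 i80 b5926) (Lsw H i7 i38 b2299) (k_one i271 i38 c15916))
  have c15919 := Lco i129 i38 (LP1 H i38 i96 i1 c1422 (Lsw H i1 i38 b628) (Lsw H i1 i96 b2256) (k_one i62 i96 c15569.symm))
  have c15930 := Lco i276 i39 (LP1 H i39 i41 i18 c593 (Lsw H i18 i39 b5972) (Lsw H i18 i41 b5973) (k_one i239 i41 c15378))
  have c15934 := Lco i182 i83 (LP1 H i83 i39 i9 c1123.symm (Lsw H i9 i83 b5937) (Lsw H i9 i39 b2309) (k_one i276 i39 c15930))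
  have c15969 := Lck c9158.symm c15558 (Lsw H i18 i41 b5973)
  have c16001 := Lco i123 i180 (LP1 H i180 i59 i3 c2829.symm (Lsw H i3 i180 b5874) (Lsw H i3 i59 b2268) (k_one i239 i59 c13954))
  have c16011 := Lck c8667.symm c8886 (Lsw H i3 i60 b2269)
  have c16017 := Lco i151 i172 (LP1 H i172 i62 i4 c2567.symm (Lsw H i4 i172 b5891) (Lsw H i4 i62 b2278) (k_one i259 i62 c14576))
  have c16018 := Lco i120 i184 (LP1 H i184 i62 i2 c3043.symm (Lsw H i2 i184 b5859) (Lsw H i2 i62 b2258) (k_one i221 i62 c13920))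
  have c16045 := Lck c12692 c8902 (Lsw H i2 i65 b2260)
  have c16046 := Lck c12692 c8886 (Lsw H i3 i65 b2270)
  have c16062 := Lck c8719.symm c8871 b5112
  have c16066 := Lco i207 i71 (LP1 H i71 i184 i1 c4033 (Lsw H i1 i71 b2247) (Lsw H i1 i184 b5842) (k_one i120 i184 c16018))
  have c16076 := Lco i279 i72 (LP1 H i72 i77 i11 c1046.symm (Lsw H i11 i72 b5950) (Lsw H i11 i77 b14841) (k_one i259 i77 c15434))
  have c16084 := Lco i160 i144 (LP1 H i144 i72 i5 c2379 (Lsw H i5 i144 b5907) (Lsw H i5 i72 b2287) (k_one i279 i72 c16076))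
  have c16090 := Lco i241 i72 (LP1 H i72 i160 i3 c2411.symm (Lsw H i3 i72 b2271) (Lsw H i3 i160 b5869) (k_one i144 i160 c16084.symm))
  have c16108 := Lck c8753.symm c8886 b5187
  have c16125 := Lco i207 i80 (LP1 H i80 i180 i1 c3940 (Lsw H i1 i80 b2250) (Lsw H i1 i180 b5840) (k_one i123 i180 c16001))
  have c16128 := Lck c7637.symm c9662 (Lsw H i7 i80 b5926)
  have c16142 := Lco i134 i186 (LP1 H i186 i81 i2 c3045.symm b14012 (Lsw H i2 i81 b2261) (k_one i221 i81 c15796))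
  have c16192 := Lco i66 i189 (LP1 H i189 i92 i1 c3370.symm b13648 (Lsw H i1 i92 b2255) (k_one i207 i92 c13024))
  have c16242 := Lco i84 i180 (LP1 H i180 i95 i3 c3362.symm (Lsw H i3 i180 b5874) (Lsw H i3 i95 b2276) (k_one i239 i95 c13079))
  have c16244 := Lco i84 i182 (LP1 H i182 i95 i3 c3363.symm (Lsw H i3 i182 b5875) (Lsw H i3 i95 b2276) (k_one i239 i95 c13079))
  have c16269 := Lco i91 i171 (LP1 H i171 i96 i4 c3357.symm b14608 b5273 (k_one i259 i96 c13105))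
  have c16271 := Lco i91 i172 (LP1 H i172 i96 i4 c3358.symm (Lsw H i4 i172 b5891) b5273 (k_one i259 i96 c13105))
  have q16423 : Rl [t129, t157, t171, t207, t274, 1] := LJ H i1 i5 i33 b5 b625 b662 b2256 b2284 (Lsw H i7 i33 b2298) b5921 (Lsw H i96 i7 b14809) (k_one i59 i96 c15637.symm)
  have q16424 : Rl [1, t129, t157, t171, t207, t274] := q16423.mv 5 rfl
  have q16425 : Rl [t129, t157, t171, t207, t274] := q16424.del1
  have q16426 : Rl [t129, t158, t172, t207, t274, 1] := LJ H i1 i5 i38 b5 b628 b664 b2256 b2285 (Lsw H i7 i38 b2299) b5922 (Lsw H i96 i7 b14809) (k_one i62 i96 c15569.symm)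
  have q16427 : Rl [1, t129, t158, t172, t207, t274] := q16426.mv 5 rfl
  have q16428 : Rl [t129, t158, t172, t207, t274] := q16427.del1
  have q16430 : Rl [t139, t157, t180, t221, t274, 1] := LJ H i2 i5 i27 b7 b634 b661 b2266 b2284 (Lsw H i9 i27 b2307) b5932 b5939 (k_one i59 i95 c15636.symm)
  have q16431 : Rl [1, t139, t157, t180, t221, t274] := q16430.mv 5 rfl
  have q16432 : Rl [t139, t157, t180, t221, t274] := q16431.del1
  have q16433 : Rl [t139, t160, t182, t221, t274, 1] := LJ H i2 i5 i39 b7 b638 b665 b2266 b2287 (Lsw H i9 i39 b2309) b5935 b5939 (k_one i72 i95 c15640.symm)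
  have q16434 : Rl [1, t139, t160, t182, t221, t274] := q16433.mv 5 rfl
  have q16435 : Rl [t139, t160, t182, t221, t274] := q16434.del1
  have q16436 : Rl [t148, t158, t184, t239, t274, 1] := LJ H i3 i5 i25 b8 b644 b659 b2275 b2285 (Lsw H i10 i25 b2311) b5941 b5946 (k_one i62 i93 c15568.symm)
  have q16437 : Rl [1, t148, t158, t184, t239, t274] := q16436.mv 5 rfl
  have q16438 : Rl [t148, t158, t184, t239, t274] := q16437.del1
  have q16439 : Rl [t148, t162, t186, t239, t274, 1] := LJ H i3 i5 i34 b8 b647 b663 b2275 b2289 (Lsw H i10 i34 b2313) b5945 b5946 (k_one i81 i93 c15570.symm)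
  have q16440 : Rl [1, t148, t162, t186, t239, t274] := q16439.mv 5 rfl
  have q16441 : Rl [t148, t162, t186, t239, t274] := q16440.del1
  have q16442 : Rl [t155, t160, t189, t259, t274, 1] := LJ H i4 i5 i24 b9 b651 b658 b2282 b2287 (Lsw H i11 i24 b2316) b5950 (Lsw H i92 i11 b14820) (k_one i72 i92 c15417.symm)
  have q16443 : Rl [1, t155, t160, t189, t259, t274] := q16442.mv 5 rfl
  have q16444 : Rl [t155, t160, t189, t259, t274] := q16443.del1
  have q16445 : Rl [t274, t274, t277, 1, 1, 1] := LJ H i7 i11 i15 b154 b670 b684 (Lsw H i96 i7 b14809) (Lsw H i92 i11 b14820) b5966 (k_one i46 i92 c1424) (k_one i46 i96 c1425) (k_one i92 i96 c15520.symm)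
  have q16446 : Rl [1, t274, t274, t277, 1, 1] := q16445.mv 3 rfl
  have q16447 : Rl [t274, t274, t277, 1, 1] := q16446.del1
  have q16448 : Rl [1, t274, t274, t277, 1] := q16447.mv 3 rfl
  have q16449 : Rl [t274, t274, t277, 1] := q16448.del1
  have q16450 : Rl [1, t274, t274, t277] := q16449.mv 3 rfl
  have q16451 : Rl [t274, t274, t277] := q16450.del1
  have q16452 : Rl [t274, t274, t277] := q16451.mv 1 rfl
  have q16453 : Rl [t274, t274, t277] := q16452.mv 1 rfl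
  have q16454 : Rl [t277] := q16453.del2
  have e16455 := q16454.one
  have m16456 : 1 = t277 := e16455.symm
  subst m16456
  have c16457 := Lco i5 i136 b5905
  have c16458 := Lco i5 i146 b5908
  have q16463 : Rl [t274, t274, t273, 1, 1, 1] := LJ H i9 i10 i13 b158 (Lsw H i13 i9 b1952) b680 b5939 b5946 b5959 (k_one i47 i93 c1380) (k_one i47 i95 c1381) (k_one i93 i95 c15451.symm)
  have q16464 : Rl [1, t274, t274, t273, 1, 1] := q16463.mv 3 rfl
  have q16465 : Rl [t274, t274, t273, 1, 1] := q16464.del1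
  have q16466 : Rl [1, t274, t274, t273, 1] := q16465.mv 3 rfl
  have q16467 : Rl [t274, t274, t273, 1] := q16466.del1
  have q16468 : Rl [1, t274, t274, t273] := q16467.mv 3 rfl
  have q16469 : Rl [t274, t274, t273] := q16468.del1
  have q16470 : Rl [t274, t274, t273] := q16469.mv 1 rfl
  have q16471 : Rl [t274, t274, t273] := q16470.mv 1 rfl
  have q16472 : Rl [t273] := q16471.del2
  have e16473 := q16472.one
  have m16474 : 1 = t273 := e16473.symm
  subst m16474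
  have c16475 := Lco i5 i127 b5901
  have c16476 := Lco i5 i153 b5910
  have q16481 : Rl [t20, t13, t22, t28, t41, t46] := q611.mv 1 rfl
  have c16482 := q16481.l1 (.cons c4122 (.cons c14978 (.cons c4451 (.cons c5689.symm (.cons c2653 .nil)))))
  have q16483 : Rl [t20, t13, t22, t28, t41, t46] := q611.mv 1 rfl
  have c16484 := q16483.l1 (.cons c4131 (.cons c14979 (.cons c4455 (.cons c5693.symm (.cons c2654 .nil)))))
  have c16489 := q495.l1 (.cons c3925 (.cons c15126 (.cons c5802.symm (.cons c4324 (.cons c3101 .nil)))))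
  have q16490 : Rl [t18, t15, t23, t36, t56, t47] := q495.mv 1 rfl
  have c16491 := q16490.l1 (.cons c4045 (.cons c15127 (.cons c4403 (.cons c5700.symm (.cons c2883 .nil)))))
  have c16492 := q495.l1 (.cons c3203.symm (.cons c15128 (.cons c5704.symm (.cons c4761.symm (.cons c4750.symm .nil)))))
  have c16497 := q4904.l1 (.cons c1104 (.cons c15124 (.cons c938 (.cons c1610 (.cons c2232 .nil)))))
  have q16510 : Rl [t34, t25, t35, t60, t74, t76] := q4882.mv 1 rfl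
  have c16511 := q16510.l1 (.cons c1551 (.cons c15694 (.cons c2183 (.cons c5690 (.cons c2195 .nil)))))
  have q16523 : Rl [t39, t27, t40, t63, t83, t84] := q4883.mv 1 rfl
  have c16524 := q16523.l1 (.cons c1573 (.cons c15695 (.cons c2186 (.cons c5694 (.cons c2198 .nil)))))
  have c16531 := q4883.l1 (.cons c2455.symm (.cons c15703 (.cons c15831 (.cons c15934.symm (.cons c16244 .nil)))))
  have c16540 := q5576.l1 (.cons c1549 (.cons c15722 (.cons c5705 (.cons c2182 (.cons c2211 .nil)))))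
  have q16541 : Rl [t38, t33, t45, t71, t80, t91] := q5576.mv 1 rfl
  have c16542 := q16541.l1 (.cons c2433.symm (.cons c15727 (.cons c15859.symm (.cons c15860.symm (.cons c16269 .nil)))))
  have c16543 := q5576.l1 (.cons c2435.symm (.cons c15728 (.cons c15911 (.cons c15918.symm (.cons c16271 .nil)))))
  have q16548 : Rl [t91, t33, t38, t45, t71, t80] := q5576.mv 5 rfl
  have c16549 := q16548.l1 (.cons c6354.symm (.cons c12394.symm (.cons c12520.symm (.cons c16066.symm (.cons c16125.symm .nil)))))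
  have q16550 : Rl [t171, t129, t157, t207, t274] := q16425.mv 2 rfl
  have q16551 : Rl [t157, t171, t129, t207, t274] := q16550.mv 2 rfl
  have e16552 := (Rl.l2 H i157 i171 i3 q16551 (.cons c2544.symm (.cons c14315 (.cons c8886 .nil))) (Lsw H i3 i157 b5866)).symm.trans (Lsw H i3 i171 b5871)
  have m16553 : t238 = t243 := e16552
  subst m16553
  have c16554 := q16425.l1 (.cons c2893.symm (.cons c3654.symm (.cons c10124 (.cons c7200.symm .nil))))
  have q16557 : Rl [t157, t129, t171, t207, t274] := q16425.mv 1 rfl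
  have c16558 := q16557.l1 (.cons c4938.symm (.cons c3252.symm (.cons c13464.symm (.cons c11762 .nil))))
  have q16563 : Rl [t157, t129, t171, t207, t274] := q16425.mv 1 rfl
  have c16564 := q16563.l1 (.cons c15919 (.cons c16542.symm (.cons c12394 (.cons c14810 .nil))))
  have c16573 := q16425.l1 (.cons c3519.symm (.cons c16269.symm (.cons c16549.symm (.cons c8863.symm .nil))))
  have q16578 : Rl [t157, t129, t171, t207, t274] := q16425.mv 1 rfl
  have c16579 := q16578.l1 (.cons c4846.symm (.cons c5385.symm (.cons c12887.symm (.cons c16046 .nil))))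
  have q16622 : Rl [t172, t129, t158, t207, t274] := q16428.mv 2 rfl
  have q16623 : Rl [t158, t172, t129, t207, t274] := q16622.mv 2 rfl
  have e16624 := (Rl.l2 H i158 i172 i2 q16623 (.cons c2519.symm (.cons c9416 (.cons c8902 .nil))) (Lsw H i2 i158 b5850)).symm.trans (Lsw H i2 i172 b5855)
  have m16625 : t222 = t227 := e16624
  subst m16625
  have q16629 : Rl [t158, t129, t172, t207, t274] := q16428.mv 1 rfl
  have c16630 := q16629.l1 (.cons c16554 (.cons c3655.symm (.cons c10124 (.cons c7200.symm .nil))))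
  have c16631 := q16428.l1 (.cons c3110.symm (.cons c3665.symm (.cons c6424 (.cons c7800.symm .nil))))
  have q16642 : Rl [t158, t129, t172, t207, t274] := q16428.mv 1 rfl
  have c16643 := q16642.l1 (.cons c15862 (.cons c16543.symm (.cons c6354 (.cons c8415 .nil))))
  have q16653 : Rl [t158, t129, t172, t207, t274] := q16428.mv 1 rfl
  have c16654 := q16653.l1 (.cons c4821.symm (.cons c5384.symm (.cons c12755.symm (.cons c16045 .nil))))
  have q16667 : Rl [t158, t129, t172, t207, t274] := q16428.mv 1 rfl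
  have c16668 := q16667.l1 (.cons c5614.symm (.cons c16017.symm (.cons c6733.symm (.cons c16108 .nil))))
  have q16697 : Rl [t180, t139, t157, t221, t274] := q16432.mv 2 rfl
  have q16698 : Rl [t157, t180, t139, t221, t274] := q16697.mv 2 rfl
  have e16699 := (Rl.l2 H i157 i180 i4 q16698 (.cons c2789.symm (.cons c14609 (.cons c8871 .nil))) (Lsw H i4 i157 b5885)).symm.trans (Lsw H i4 i180 b5892)
  have m16700 : t257 = t264 := e16699
  subst m16700
  have c16701 := q16432.l1 (.cons c2661.symm (.cons c3653.symm (.cons c9631 (.cons c6687.symm .nil))))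
  have q16702 : Rl [t180, t139, t157, t221, t274] := q16432.mv 2 rfl
  have c16703 := q16702.l1 (.cons c4149.symm (.cons c3388.symm (.cons c6866.symm (.cons c8504.symm .nil))))
  have q16704 : Rl [t157, t139, t180, t221, t274] := q16432.mv 1 rfl
  have c16705 := q16704.l1 (.cons c4950.symm (.cons c3077.symm (.cons c13492.symm (.cons c11496 .nil))))
  have c16728 := q16432.l1 (.cons c3511.symm (.cons c16242.symm (.cons c15428 (.cons c8841.symm .nil))))
  have q16786 : Rl [t182, t139, t160, t221, t274] := q16435.mv 2 rfl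
  have q16787 : Rl [t160, t182, t139, t221, t274] := q16786.mv 2 rfl
  have e16788 := (Rl.l2 H i160 i182 i1 q16787 (.cons c2518.symm (.cons c9933 (.cons c8917 .nil))) (Lsw H i1 i160 b5836)).symm.trans (Lsw H i1 i182 b5841)
  have m16789 : t208 = t213 := e16788
  subst m16789
  have q16790 : Rl [t160, t139, t182, t221, t274] := q16435.mv 1 rfl
  have c16791 := q16790.l1 (.cons c16701 (.cons c3656.symm (.cons c9631 (.cons c6687.symm .nil))))
  have c16792 := q16435.l1 (.cons c3299.symm (.cons c3863.symm (.cons c10642 (.cons c8333.symm .nil))))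
  have q16793 : Rl [t182, t139, t160, t221, t274] := q16435.mv 2 rfl
  have c16794 := q16793.l1 (.cons c3774.symm (.cons c3385.symm (.cons c6841.symm (.cons c8487.symm .nil))))
  have q16801 : Rl [t160, t139, t182, t221, t274] := q16435.mv 1 rfl
  have c16802 := q16801.l1 (.cons c15812 (.cons c16531.symm (.cons c6817 (.cons c12135 .nil))))
  have c16857 := q16438.l1 (.cons c2676.symm (.cons c3660.symm (.cons c9638 (.cons c6687.symm .nil))))
  have q16858 : Rl [t158, t148, t184, t239, t274] := q16438.mv 1 rfl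
  have c16859 := q16858.l1 (.cons c4953.symm (.cons c2859.symm (.cons c13505.symm (.cons c11226 .nil))))
  have q16940 : Rl [t186, t148, t162, t239, t274] := q16441.mv 2 rfl
  have q16941 : Rl [t162, t186, t148, t239, t274] := q16940.mv 2 rfl
  have b16942 := Rl.l2 H i162 i186 i1 q16941 (.cons c2542.symm (.cons c10259 (.cons c8917 .nil))) (Lsw H i1 i162 b5838)
  have q16943 : Rl [t162, t148, t186, t239, t274] := q16441.mv 1 rfl
  have c16944 := q16943.l1 (.cons c16857 (.cons c3663.symm (.cons c9638 (.cons c6687.symm .nil))))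
  have c16945 := q16441.l1 (.cons c3321.symm (.cons c3961.symm (.cons c10649 (.cons c8333.symm .nil))))
  have q16973 : Rl [t162, t148, t186, t239, t274] := q16441.mv 1 rfl
  have c16974 := q16973.l1 (.cons c4783.symm (.cons c5545.symm (.cons c12614.symm (.cons c16011 .nil))))
  have q16981 : Rl [t162, t148, t186, t239, t274] := q16441.mv 1 rfl
  have c16982 := q16981.l1 (.cons c5627.symm (.cons c16142.symm (.cons c7816.symm (.cons c16062 .nil))))
  have c17026 := q16444.l1 (.cons c2932.symm (.cons c3857.symm (.cons c10136 (.cons c7200.symm .nil))))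
  have q17027 : Rl [t160, t155, t189, t259, t274] := q16444.mv 1 rfl
  have c17028 := q17027.l1 (.cons c4941.symm (.cons c2614.symm (.cons c13474.symm (.cons c10978 .nil))))
  have c17050 := q16444.l1 (.cons c3457.symm (.cons c16192.symm (.cons c15080 (.cons c8702.symm .nil))))
  have c17145 := Lco i208 i2 (LP1 H i2 i1 i160 hab.symm b5852 b5836 (k_one i221 i1 c9933))
  have c17146 := Lco i222 i1 (LP1 H i1 i2 i172 hab (Lsw H i172 i1 b13642) b5855 (k_one i207 i2 c9416))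
  have c17148 := Lco i210 i2 (LP1 H i2 i1 i186 hab.symm (Lsw H i186 i2 b14012) (Lsw H i186 i1 b16942) (k_one i221 i1 c9933))
  have c17149 := Lco i238 i1 (LP1 H i1 i3 i157 hac b5835 b5866 (k_one i207 i3 c14315))
  have c17151 := Lco i208 i3 (LP1 H i3 i1 i182 hac.symm b5875 b5841 (k_one i239 i1 c10259))
  have b17153 := LP1 H i1 i12 i16 c43.symm b125 b2320 (Lsw H i12 i25 b13649)
  have c17168 := Lco i12 i93 (LP1 H i93 i1 i10 c1242 (Lsw H i10 i93 b5946) b31 (k_one i274 i1 c8917))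
  have c17170 := Lco i14 i95 (LP1 H i95 i1 i9 c1251 (Lsw H i9 i95 b5939) (Lsw H i9 i1 b114) (k_one i274 i1 c8917))
  have c17172 := Lck c2512.symm c16491.symm b126
  have c17184 := Lck c3258 c16492.symm b124
  have c17211 := Lck c8731 c15909 b628
  have c17216 := Lck c8917 c8871 b4
  have c17217 := Lck c8917 c6146 b5834
  have c17218 := Lck c15339 c8713 b4
  have c17221 := Lck c15345 c8782 b4
  have c17248 := Lco i257 i2 (LP1 H i2 i4 i157 hbd b5849 b5885 (k_one i221 i4 c14609))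
  have c17250 := Lco i222 i4 (LP1 H i4 i2 i172 hbd.symm b5891 b5855 (k_one i259 i2 c10519))
  have c17268 := Lco i14 i96 (LP1 H i96 i2 i7 c1253 b14809 b33 (k_one i274 i2 c8902))
  have c17308 := Lck c8678 c9923 b6
  have c17311 := Lck c8902 c8886 b6
  have c17312 := Lck c8902 c6142 b5847
  have c17344 := Lco i238 i4 (LP1 H i4 i3 i171 hcd.symm (Lsw H i171 i4 b14608) b5871 (k_one i259 i3 c11283))
  have c17345 := Lco i257 i3 (LP1 H i3 i4 i180 hcd b5874 b5892 (k_one i239 i4 c10692))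
  have c17364 := Lco i19 i92 (LP1 H i92 i3 i11 c1340 b14820 b38 (k_one i274 i3 c8886))
  have c17368 := Lco i12 i96 (LP1 H i96 i3 i7 c1404 b14809 b36 (k_one i274 i3 c8886))
  have c17369 := Lck c1404 c17268.symm (Lsw H i14 i3 b521)
  have c17371 := Lck c2532.symm c16482.symm b139
  have c17384 := Lco i10 i155 (LP1 H i155 i3 i5 c3009.symm (Lsw H i5 i155 b5911) b8 (k_one i274 i3 c8886))
  have c17418 := Lck c8886 c6136 b5865
  have c17459 := Lco i19 i93 (LP1 H i93 i4 i10 c1341 (Lsw H i10 i93 b5946) b40 (k_one i274 i4 c8871))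
  have c17460 := Lck c1341 c17168.symm (Lsw H i12 i4 b560)
  have c17462 := Lco i16 i95 (LP1 H i95 i4 i9 c1348 (Lsw H i9 i95 b5939) (Lsw H i9 i4 b118) (k_one i274 i4 c8871))
  have c17463 := Lck c1348 c17170.symm (Lsw H i14 i4 b543)
  have c17465 := Lck c2624 c16489.symm b142
  have c17557 := Lck c16457.symm c5025 b5899
  have c17562 := Lck c16458.symm c4531 b659
  have c17578 := Lco i222 i5 (LP1 H i5 i158 i2 c2406.symm (Lsw H i2 i5 b7) (Lsw H i2 i158 b5850) (k_one i9 i158 c16630.symm))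
  have c17580 := Lco i208 i5 (LP1 H i5 i160 i1 c2410.symm (Lsw H i1 i5 b5) (Lsw H i1 i160 b5836) (k_one i7 i160 c16791.symm))
  have c17581 := Lco i210 i5 (LP1 H i5 i162 i1 c2414.symm (Lsw H i1 i5 b5) (Lsw H i1 i162 b5838) (k_one i7 i162 c16944.symm))
  have c17585 := Lco i7 i193 (LP1 H i193 i5 i1 c3375.symm b17153 (Lsw H i1 i5 b5) (k_one i207 i5 c6494))
  have c17586 := Lco i9 i193 (LP1 H i193 i5 i2 c3375.symm b14005 (Lsw H i2 i5 b7) (k_one i221 i5 c6967))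
  have c17597 := Lco i140 i20 (LP1 H i20 i6 i36 c77.symm b15011 (Lsw H i36 i6 b5120) (k_one i269 i6 c13785))
  have c17598 := Lco i145 i20 (LP1 H i20 i6 i56 c77.symm b15019 (Lsw H i56 i6 b5192) (k_one i271 i6 c13797))
  have c17625 := Lck c1764 c17459.symm (Lsw H i19 i6 b1829)
  have c17626 := Lco i35 i95 (LP1 H i95 i6 i9 c1768 (Lsw H i9 i95 b5939) b150 (k_one i274 i6 c17216))
  have c17627 := Lck c1768 c17170.symm (Lsw H i14 i6 b1739)
  have c17635 := Lco i22 i134 (LP1 H i134 i6 i5 c2803.symm (Lsw H i5 i134 b5903) (Lsw H i5 i6 b41) (k_one i275 i6 c17218))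
  have c17639 := Lco i22 i144 (LP1 H i144 i6 i5 c3023.symm (Lsw H i5 i144 b5907) (Lsw H i5 i6 b41) (k_one i279 i6 c17221))
  have c17682 := Lco i257 i7 (LP1 H i7 i157 i4 c2661 (Lsw H i4 i7 b39) (Lsw H i4 i157 b5885) (k_one i20 i157 c16558.symm))
  have c17684 := Lco i241 i7 (LP1 H i7 i160 i3 c16791.symm (Lsw H i3 i7 b36) (Lsw H i3 i160 b5869) (k_one i12 i160 c3380))
  have c17689 := Lco i225 i7 (LP1 H i7 i162 i2 c16944.symm (Lsw H i2 i7 b33) (Lsw H i2 i162 b5853) (k_one i14 i162 c3387))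
  have c17743 := Lck c1807 c17364.symm b675
  have c17745 := Lco i30 i96 (LP1 H i96 i8 i7 c1811 b14809 (Lsw H i7 i8 b153) (k_one i274 i8 c17311))
  have c17747 := Lck c1811 c17268.symm (Lsw H i14 i8 b1742)
  have c17748 := Lco i23 i121 (LP1 H i121 i8 i5 c2585.symm (Lsw H i5 i121 b5898) (Lsw H i5 i8 b42) (k_one i270 i8 c17308))
  have c17812 := Lco i238 i9 (LP1 H i9 i157 i3 c2893 (Lsw H i3 i9 b37) (Lsw H i3 i157 b5866) (k_one i18 i157 c16705.symm))
  have c17814 := Lco i258 i9 (LP1 H i9 i158 i4 c16630.symm b118 (Lsw H i4 i158 b5886) (k_one i16 i158 c3389))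
  have c17839 := Lck c7160.symm c17211 b5933
  have c17856 := Lco i95 i24 (LP1 H i24 i10 i13 c230 (Lsw H i13 i24 b5955) b680 (k_one i207 i10 c6424))
  have c17857 := Lco i96 i24 (LP1 H i24 i10 i16 c230 (Lsw H i16 i24 b5967) b681 (k_one i221 i10 c6888))
  have c17878 := Lco i222 i10 (LP1 H i10 i158 i2 c3110 (Lsw H i2 i10 b34) (Lsw H i2 i158 b5850) (k_one i15 i158 c16859.symm))
  have c17893 := Lck c9034.symm c16090 b5943
  have c17900 := Lco i95 i25 (LP1 H i25 i11 i12 c232 (Lsw H i12 i25 b13649) b683 (k_one i207 i11 c6412))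
  have c17901 := Lco i96 i25 (LP1 H i25 i11 i15 c232 (Lsw H i15 i25 b5960) b684 (k_one i221 i11 c10642))
  have b17907 := LP1 H i36 i11 i1 c2028.symm b1722 (Lsw H i1 i11 b32) (Lsw H i11 i67 b14836)
  have b17915 := LP1 H i56 i11 i1 c2036.symm b1731 (Lsw H i1 i11 b32) (Lsw H i11 i77 b14841)
  have c17929 := Lco i208 i11 (LP1 H i11 i160 i1 c3299 (Lsw H i1 i11 b32) (Lsw H i1 i160 b5836) (k_one i13 i160 c17028.symm))
  have c17957 := Lco i95 i15 (LP1 H i15 i12 i11 c69.symm (Lsw H i11 i15 b684) (Lsw H i11 i12 b683) (k_one i96 i12 c17368.symm))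
  have c18014 := Lco i96 i13 (LP1 H i13 i16 i10 c70 (Lsw H i10 i13 b680) (Lsw H i10 i16 b681) (k_one i95 i16 c17462.symm))
  have c18017 := Lco i134 i13 (LP1 H i13 i34 i8 c1963.symm (Lsw H i8 i13 b674) b5121 (k_one i65 i34 c16511.symm))
  have c18020 := Lco i161 i13 (LP1 H i13 i35 i10 c1917.symm (Lsw H i10 i13 b680) (Lsw H i10 i35 b2314) (k_one i95 i35 c17626.symm))
  have c18021 := Lco i144 i13 (LP1 H i13 i39 i8 c1937 (Lsw H i8 i13 b674) b5196 (k_one i65 i39 c16524.symm))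
  have c18033 := Lco i25 i88 (LP1 H i88 i13 i2 c5579.symm (Lsw H i2 i88 b2264) (Lsw H i2 i13 b132) (k_one i134 i13 c18017))
  have c18034 := Lco i27 i88 (LP1 H i88 i13 i3 c5579.symm (Lsw H i3 i88 b2274) (Lsw H i3 i13 b137) (k_one i144 i13 c18021))
  have c18059 := Lco i93 i18 (LP1 H i18 i14 i11 c117.symm (Lsw H i11 i18 b685) (Lsw H i11 i14 b1872) (k_one i96 i14 c17268.symm))
  have c18060 := Lck c117.symm c1925.symm b15159
  have c18061 := Lck c81.symm c1927.symm b15013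
  have b18063 := LP1 H i23 i14 i4 c2007 (Lsw H i4 i23 b145) b543 (Lsw H i14 i45 b15159)
  have c18077 := Lco i92 i81 (LP1 H i81 i14 i10 c1042 (Lsw H i10 i81 b5945) (Lsw H i10 i14 b1871) (k_one i239 i14 c11068))
  have c18105 := Lck c6408.symm c13578.symm b15012
  have c18107 := Lck c6845.symm c13610.symm b15156
  have c18117 := Lco i159 i15 (LP1 H i15 i30 i11 c1920.symm (Lsw H i11 i15 b684) (Lsw H i11 i30 b2318) (k_one i96 i30 c17745.symm))
  have c18128 := Lco i271 i15 (LP1 H i15 i80 i7 c1043.symm (Lsw H i7 i15 b670) (Lsw H i7 i80 b5926) (k_one i92 i80 c17743))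
  have b18153 := LP1 H i18 i16 i1 c121 (Lsw H i1 i18 b126) (Lsw H i1 i16 b125) (Lsw H i16 i26 b15149)
  have c18169 := Lco i238 i16 (LP1 H i16 i157 i3 c3388 (Lsw H i3 i16 b138) (Lsw H i3 i157 b5866) (k_one i38 i157 c16564.symm))
  have c18196 := Lco i159 i18 (LP1 H i18 i30 i11 c1904.symm (Lsw H i11 i18 b685) (Lsw H i11 i30 b2318) (k_one i96 i30 c17745.symm))
  have c18204 := Lco i271 i18 (LP1 H i18 i80 i7 c1420 b1896 (Lsw H i7 i80 b5926) (k_one i92 i80 c17743))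
  have c18205 := Lco i36 i83 (LP1 H i83 i18 i2 c2084 (Lsw H i2 i83 b2262) b504 (k_one i135 i18 c16491.symm))
  have c18243 := Lco i222 i19 (LP1 H i19 i158 i2 c3395 (Lsw H i2 i19 b133) (Lsw H i2 i158 b5850) (k_one i33 i158 c16643.symm))
  have c18245 := Lco i208 i19 (LP1 H i19 i160 i1 c3396 (Lsw H i1 i19 b127) (Lsw H i1 i160 b5836) (k_one i27 i160 c16802.symm))
  have c18253 := Lco i161 i20 (LP1 H i20 i35 i10 c1936 (Lsw H i10 i20 b682) (Lsw H i10 i35 b2314) (k_one i95 i35 c17626.symm))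
  have c18257 := Lco i28 i71 (LP1 H i71 i20 i1 c2097 (Lsw H i1 i71 b2247) (Lsw H i1 i20 b128) (k_one i120 i20 c16482.symm))
  have c18259 := Lco i28 i80 (LP1 H i80 i20 i1 c2098 (Lsw H i1 i80 b2250) (Lsw H i1 i20 b128) (k_one i123 i20 c16484.symm))
  have c18260 := Lco i276 i20 (LP1 H i20 i83 i9 c1585.symm b1897 (Lsw H i9 i83 b5937) (k_one i93 i83 c17625))
  have c18327 := Lco i72 i26 (LP1 H i26 i24 i4 c605.symm (Lsw H i4 i26 b653) (Lsw H i4 i24 b651) (k_one i81 i24 c16497.symm))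
  have c18328 := Lco i77 i34 (LP1 H i34 i24 i3 c481.symm (Lsw H i3 i34 b647) (Lsw H i3 i24 b643) (k_one i81 i24 c16497.symm))
  have c18335 := Lco i77 i74 (LP1 H i74 i24 i3 c1990 b5187 (Lsw H i3 i24 b643) (k_one i151 i24 c17184))
  have c18352 := Lck c13528.symm c18169 (Lsw H i16 i24 b5967)
  have c18359 := Lco i74 i30 (LP1 H i30 i25 i4 c2075.symm (Lsw H i4 i30 b654) (Lsw H i4 i25 b652) (k_one i88 i25 c18033.symm))
  have c18387 := Lco i67 i39 (LP1 H i39 i26 i2 c604.symm (Lsw H i2 i39 b638) (Lsw H i2 i26 b633) (k_one i72 i26 c18327))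
  have c18392 := Lco i67 i83 (LP1 H i83 i26 i2 c2065.symm (Lsw H i2 i83 b2262) (Lsw H i2 i26 b633) (k_one i135 i26 c17172))
  have c18405 := Lck c13521.symm c18243 (Lsw H i19 i26 b5977)
  have c18415 := Lco i83 i30 (LP1 H i30 i27 i4 c2089.symm (Lsw H i4 i30 b654) b1821 (k_one i88 i27 c18034.symm))
  have c18435 := Lck c12128 c18128 (Lsw H i15 i27 b5961)
  have c18442 := Lco i60 i45 (LP1 H i45 i28 i2 c5673.symm (Lsw H i2 i45 b641) (Lsw H i2 i28 b635) (k_one i71 i28 c18257.symm))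
  have c18443 := Lco i63 i45 (LP1 H i45 i28 i3 c5673.symm b1827 b1734 (k_one i80 i28 c18259.symm))
  have c18461 := Lco i80 i35 (LP1 H i35 i33 i3 c2087.symm (Lsw H i3 i35 b648) (Lsw H i3 i33 b646) (k_one i82 i33 c16540.symm))
  have c18463 := Lco i80 i60 (LP1 H i60 i33 i3 c1992 (Lsw H i3 i60 b2269) (Lsw H i3 i33 b646) (k_one i124 i33 c17465))
  have c18496 := Lck c13551.symm c18245 (Lsw H i19 i34 b14610)
  have c18520 := Lco i71 i40 (LP1 H i40 i36 i4 c5667.symm (Lsw H i4 i40 b656) b1782 (k_one i83 i36 c18205.symm))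
  have c18550 := Lco i63 i71 (LP1 H i71 i39 i1 c1995 (Lsw H i1 i71 b2247) (Lsw H i1 i39 b629) (k_one i120 i39 c17371))
  have c18647 := Lck c6531.symm c17148 (Lsw H i2 i63 b2259)
  have c18671 := Lck c7030.symm c17689 (Lsw H i7 i71 b5923)
  have c18689 := Lco i148 i76 (LP1 H i76 i93 i3 c1883 (Lsw H i3 i76 b2273) (Lsw H i3 i93 b2275) (k_one i146 i93 c17562))
  have c18699 := Lck c7642.symm c17684 (Lsw H i7 i80 b5926)
  have c18714 := Lck c8204.symm c17814 (Lsw H i9 i83 b5937)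
  have q18892 : Rl [t129, t184, t193, t207, 1, 1] := LJ H i1 i10 i16 b31 b125 b681 b2256 b2311 (Lsw H i12 i16 b2320) b13649 (k_one i12 i96 c17368) (k_one i25 i96 c17901.symm)
  have q18893 : Rl [1, t129, t184, t193, t207, 1] := q18892.mv 4 rfl
  have q18894 : Rl [t129, t184, t193, t207, 1] := q18893.del1
  have q18895 : Rl [1, t129, t184, t193, t207] := q18894.mv 4 rfl
  have q18896 : Rl [t129, t184, t193, t207] := q18895.del1
  have q18897 : Rl [t129, t189, t195, t207, 1, 1] := LJ H i1 i11 i15 b32 b124 b684 b2256 b2316 (Lsw H i13 i15 b2322) b5955 (k_one i13 i96 c18014.symm) (k_one i24 i96 c17857.symm)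
  have q18898 : Rl [1, t129, t189, t195, t207, 1] := q18897.mv 4 rfl
  have q18899 : Rl [t129, t189, t195, t207, 1] := q18898.del1
  have q18900 : Rl [1, t129, t189, t195, t207] := q18899.mv 4 rfl
  have q18901 : Rl [t129, t189, t195, t207] := q18900.del1
  have q18902 : Rl [t129, t190, t196, t207, 1, 1] := LJ H i1 i11 i18 b32 b126 b685 b2256 b2317 (Lsw H i13 i18 b2323) b5956 (k_one i13 i96 c18014.symm) (k_one i26 i96 c17369.symm)
  have q18903 : Rl [1, t129, t190, t196, t207, 1] := q18902.mv 4 rfl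
  have q18904 : Rl [t129, t190, t196, t207, 1] := q18903.del1
  have q18905 : Rl [1, t129, t190, t196, t207] := q18904.mv 4 rfl
  have q18906 : Rl [t129, t190, t196, t207] := q18905.del1
  have q18910 : Rl [t139, t184, t195, t221, 1, 1] := LJ H i2 i10 i13 b34 b132 b680 b2266 b2311 b2322 b5960 (k_one i15 i95 c17957.symm) (k_one i25 i95 c17900.symm)
  have q18911 : Rl [1, t139, t184, t195, t221, 1] := q18910.mv 4 rfl
  have q18912 : Rl [t139, t184, t195, t221, 1] := q18911.del1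
  have q18913 : Rl [1, t139, t184, t195, t221] := q18912.mv 4 rfl
  have q18914 : Rl [t139, t184, t195, t221] := q18913.del1
  have q18915 : Rl [t139, t186, t198, t221, 1, 1] := LJ H i2 i10 i20 b34 b134 b682 b2266 b2313 (Lsw H i15 i20 b2325) b5963 (k_one i15 i95 c17957.symm) (k_one i34 i95 c17463.symm)
  have q18916 : Rl [1, t139, t186, t198, t221, 1] := q18915.mv 4 rfl
  have q18917 : Rl [t139, t186, t198, t221, 1] := q18916.del1
  have q18918 : Rl [1, t139, t186, t198, t221] := q18917.mv 4 rfl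
  have q18919 : Rl [t139, t186, t198, t221] := q18918.del1
  have q18920 : Rl [t139, t189, t193, t221, 1, 1] := LJ H i2 i11 i12 b35 b131 b683 b2266 b2316 b2320 b5967 (k_one i16 i95 c17462) (k_one i24 i95 c17856.symm)
  have q18921 : Rl [1, t139, t189, t193, t221, 1] := q18920.mv 4 rfl
  have q18922 : Rl [t139, t189, t193, t221, 1] := q18921.del1
  have q18923 : Rl [1, t139, t189, t193, t221] := q18922.mv 4 rfl
  have q18924 : Rl [t139, t189, t193, t221] := q18923.del1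
  have q18935 : Rl [t148, t182, t200, t239, 1, 1] := LJ H i3 i9 i20 b37 b139 (Lsw H i20 i9 b1897) b2275 b2309 (Lsw H i18 i20 b2327) b5972 (k_one i18 i93 c18059.symm) (k_one i39 i93 c17460.symm)
  have q18936 : Rl [1, t148, t182, t200, t239, 1] := q18935.mv 4 rfl
  have q18937 : Rl [t148, t182, t200, t239, 1] := q18936.del1
  have q18938 : Rl [1, t148, t182, t200, t239] := q18937.mv 4 rfl
  have q18939 : Rl [t148, t182, t200, t239] := q18938.del1
  have q18940 : Rl [t155, t162, t190, t259, t274, 1] := LJ H i4 i5 i26 b9 b653 b660 b2282 b2289 (Lsw H i11 i26 b2317) b5951 (Lsw H i92 i11 b14820) (k_one i81 i92 c18077.symm)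
  have q18941 : Rl [1, t155, t162, t190, t259, t274] := q18940.mv 5 rfl
  have q18942 : Rl [t155, t162, t190, t259, t274] := q18941.del1
  have q18987 : Rl [t30, t24, t26, t67, t77, t66] := q4904.mv 2 rfl
  have c18988 := q18987.l1 (.cons c481 (.cons c613 (.cons c1016.symm (.cons c18328 (.cons c2229 .nil)))))
  have q18989 : Rl [t30, t24, t26, t67, t77, t66] := q4904.mv 2 rfl
  have c18990 := q18989.l1 (.cons c612 (.cons c604 (.cons c18387 (.cons c1121.symm (.cons c2231 .nil)))))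
  have q18991 : Rl [t26, t24, t30, t67, t77, t66] := q4904.mv 1 rfl
  have c18992 := q18991.l1 (.cons c1990.symm (.cons c18359.symm (.cons c5691.symm (.cons c18335 (.cons c2202 .nil)))))
  have c18993 := q4904.l1 (.cons c2065 (.cons c18415.symm (.cons c18392 (.cons c5695.symm (.cons c2196.symm .nil)))))
  have q18999 : Rl [t35, t25, t34, t60, t74, t76] := q4882.mv 2 rfl
  have c19000 := q18999.l1 (.cons c486 (.cons c613.symm (.cons c903.symm (.cons c18992.symm (.cons c2227 .nil)))))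
  have q19001 : Rl [t35, t25, t34, t60, t74, t76] := q4882.mv 2 rfl
  have c19002 := q19001.l1 (.cons c2075 (.cons c18988.symm (.cons c5717.symm (.cons c18359 (.cons c2194 .nil)))))
  have c19005 := q4882.l1 (.cons c1993.symm (.cons c18461.symm (.cons c18463.symm (.cons c5702.symm (.cons c2204.symm .nil)))))
  have q19010 : Rl [t40, t27, t39, t63, t83, t84] := q4883.mv 2 rfl
  have c19011 := q19010.l1 (.cons c485.symm (.cons c612.symm (.cons c893.symm (.cons c18993.symm (.cons c2228 .nil)))))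
  have q19012 : Rl [t40, t27, t39, t63, t83, t84] := q4883.mv 2 rfl
  have c19013 := q19012.l1 (.cons c2089 (.cons c18990.symm (.cons c5719.symm (.cons c18415 (.cons c2197 .nil)))))
  have c19016 := q4883.l1 (.cons c1995.symm (.cons c18520.symm (.cons c18550 (.cons c5706.symm (.cons c2210.symm .nil)))))
  have q19025 : Rl [t45, t33, t38, t71, t80, t91] := q5576.mv 2 rfl
  have c19026 := q19025.l1 (.cons c483.symm (.cons c245.symm (.cons c1005.symm (.cons c19005.symm (.cons c2230 .nil)))))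
  have q19027 : Rl [t45, t33, t38, t71, t80, t91] := q5576.mv 2 rfl
  have c19028 := q19027.l1 (.cons c237.symm (.cons c482.symm (.cons c19016.symm (.cons c1108.symm (.cons c2233 .nil)))))
  have q19031 : Rl [t38, t33, t45, t71, t80, t91] := q5576.mv 1 rfl
  have c19032 := q19031.l1 (.cons c1992.symm (.cons c18442.symm (.cons c5703.symm (.cons c18463 (.cons c2213.symm .nil)))))
  have c19034 := q5576.l1 (.cons c1994.symm (.cons c18443.symm (.cons c18550.symm (.cons c5707.symm (.cons c2214.symm .nil)))))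
  have q19052 : Rl [t157, t129, t171, t207, t274] := q16425.mv 1 rfl
  have c19053 := q19052.l1 (.cons c16631 (.cons c3662.symm (.cons c6424 (.cons c7800.symm .nil))))
  have q19102 : Rl [t184, t129, t193, t207] := q18896.mv 1 rfl
  have c19103 := q19102.l1 (.cons c16554 (.cons c17586.symm (.cons c10124 .nil)))
  have q19132 : Rl [t195, t129, t189, t207] := q18901.mv 2 rfl
  have c19133 := q19132.l1 (.cons c16631 (.cons c3956.symm (.cons c6424 .nil)))
  have q19301 : Rl [t157, t139, t180, t221, t274] := q16432.mv 1 rfl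
  have c19302 := q19301.l1 (.cons c16792 (.cons c3860.symm (.cons c10642 (.cons c8333.symm .nil))))
  have c19354 := q18914.l1 (.cons c2458 (.cons c19133 (.cons c6888 .nil)))
  have q19442 : Rl [t189, t139, t193, t221] := q18924.mv 1 rfl
  have c19443 := q19442.l1 (.cons c16701 (.cons c17585.symm (.cons c9631 .nil)))
  have c19454 := q16438.l1 (.cons c16630 (.cons c19103 (.cons c7452 (.cons c7200.symm .nil))))
  have q19455 : Rl [t158, t148, t184, t239, t274] := q16438.mv 1 rfl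
  have c19456 := q19455.l1 (.cons c16945 (.cons c3957.symm (.cons c10649 (.cons c8333.symm .nil))))
  have c19598 := q16444.l1 (.cons c16791 (.cons c19443 (.cons c8037 (.cons c6687.symm .nil))))
  have q19599 : Rl [t160, t155, t189, t259, t274] := q16444.mv 1 rfl
  have c19600 := q19599.l1 (.cons c17384.symm (.cons c3956.symm (.cons c10427 (.cons c7800.symm .nil))))
  have q19614 : Rl [t162, t155, t190, t259, t274] := q18942.mv 1 rfl
  have c19615 := q19614.l1 (.cons c17026 (.cons c3859.symm (.cons c10136 (.cons c7200.symm .nil))))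
  have c19733 := Lck c12 c19598.symm b5834
  have c19768 := Lck c16 c19454.symm b5847
  have c19804 := Lck c18 c19354.symm b5865
  have c19864 := Lco i238 i5 (LP1 H i5 i157 i3 c2404.symm (Lsw H i3 i5 b8) (Lsw H i3 i157 b5866) (k_one i10 i157 c19053.symm))
  have c19865 := Lco i257 i5 (LP1 H i5 i157 i4 c2404.symm (Lsw H i4 i5 b9) (Lsw H i4 i157 b5885) (k_one i11 i157 c19302.symm))
  have c19870 := Lck c17581 c18647 b5898
  have c19913 := Lco i134 i7 (LP1 H i7 i34 i8 c280.symm b153 b5121 (k_one i30 i34 c18988))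
  have c19914 := Lco i140 i7 (LP1 H i7 i35 i8 c2025 b153 b5122 (k_one i30 i35 c19002.symm))
  have c19915 := Lco i28 i36 (LP1 H i36 i7 i6 c2027.symm b5120 b524 (k_one i140 i7 c19914))
  have c19916 := Lco i144 i7 (LP1 H i7 i39 i8 c316.symm b153 b5196 (k_one i30 i39 c18990))
  have c19917 := Lco i145 i7 (LP1 H i7 i40 i8 c2029 b153 (Lsw H i8 i40 b5199) (k_one i30 i40 c19013.symm))
  have c19918 := Lco i28 i56 (LP1 H i56 i7 i6 c2035.symm b5192 b524 (k_one i145 i7 c19917))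
  have c19919 := Lco i20 i67 (LP1 H i67 i7 i4 c964 b5112 (Lsw H i4 i7 b39) (k_one i134 i7 c19913))
  have c19920 := Lco i20 i77 (LP1 H i77 i7 i4 c1070 b5186 (Lsw H i4 i7 b39) (k_one i144 i7 c19916))
  have c19923 := Lco i14 i103 (LP1 H i103 i7 i2 c5776.symm (Lsw H i2 i103 b2267) (Lsw H i2 i7 b33) (k_one i140 i7 c19914))
  have c19924 := Lco i12 i103 (LP1 H i103 i7 i3 c5776.symm b5195 (Lsw H i3 i7 b36) (k_one i145 i7 c19917))
  have c19927 := Lco i260 i7 (LP1 H i7 i161 i4 c3657 (Lsw H i4 i7 b39) (Lsw H i4 i161 b5888) (k_one i20 i161 c18253.symm))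
  have c19958 := Lco i124 i9 (LP1 H i9 i26 i6 c241.symm (Lsw H i6 i9 b150) b5007 (k_one i35 i26 c19000))
  have c19960 := Lco i18 i60 (LP1 H i60 i9 i3 c1261.symm (Lsw H i3 i60 b2269) (Lsw H i3 i9 b37) (k_one i124 i9 c19958))
  have c19966 := Lco i240 i9 (LP1 H i9 i159 i3 c3658 (Lsw H i3 i9 b37) (Lsw H i3 i159 b5868) (k_one i18 i159 c18196.symm))
  have c19976 := Lco i121 i10 (LP1 H i10 i24 i6 c230.symm (Lsw H i6 i10 b151) b5006 (k_one i40 i24 c19011))
  have b19978 := LP1 H i10 i33 i1 c282.symm (Lsw H i1 i10 b31) (Lsw H i1 i33 b625) (Lsw H i33 i12 b15404)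
  have c19979 := Lco i15 i63 (LP1 H i63 i10 i2 c850 (Lsw H i2 i63 b2259) (Lsw H i2 i10 b34) (k_one i121 i10 c19976))
  have c19984 := Lco i223 i10 (LP1 H i10 i159 i2 c3666 (Lsw H i2 i10 b34) (Lsw H i2 i159 b5851) (k_one i15 i159 c18117.symm))
  have c19992 := Lco i120 i11 (LP1 H i11 i25 i8 c232.symm (Lsw H i8 i11 b157) (Lsw H i8 i25 b2301) (k_one i45 i25 c19026))
  have c19993 := Lco i123 i11 (LP1 H i11 i27 i8 c243.symm (Lsw H i8 i11 b157) (Lsw H i8 i27 b2302) (k_one i45 i27 c19028))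
  have c19998 := Lco i13 i71 (LP1 H i71 i11 i1 c965 (Lsw H i1 i71 b2247) (Lsw H i1 i11 b32) (k_one i120 i11 c19992))
  have c19999 := Lco i13 i80 (LP1 H i80 i11 i1 c1071 (Lsw H i1 i80 b2250) (Lsw H i1 i11 b32) (k_one i123 i11 c19993))
  have c20003 := Lco i209 i11 (LP1 H i11 i161 i1 c3864 (Lsw H i1 i11 b32) (Lsw H i1 i161 b5837) (k_one i13 i161 c18020.symm))
  have c20014 := Lco i63 i23 (LP1 H i23 i12 i6 c2005 (Lsw H i6 i23 b669) (Lsw H i6 i12 b666) (k_one i103 i12 c19924.symm))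
  have c20037 := Lco i60 i23 (LP1 H i23 i14 i6 c2007 (Lsw H i6 i23 b669) b1739 (k_one i103 i14 c19923.symm))
  have c20077 := Lco i291 i19 (LP1 H i19 i92 i6 c17364 b1829 (Lsw H i6 i92 b5919) (k_one i83 i92 c2146.symm))
  have q20190 : Rl [t22, t13, t20, t28, t41, t46] := q611.mv 2 rfl
  have c20191 := q20190.l1 (.cons c19998 (.cons c2097.symm (.cons c18257 (.cons c5805.symm (.cons c2152.symm .nil)))))
  have q20192 : Rl [t22, t13, t20, t28, t41, t46] := q611.mv 2 rfl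
  have c20193 := q20192.l1 (.cons c19999 (.cons c2098.symm (.cons c18259 (.cons c5806.symm (.cons c2153.symm .nil)))))
  have q20194 : Rl [t18, t15, t23, t36, t56, t47] := q495.mv 1 rfl
  have q20195 : Rl [t15, t18, t23, t36, t56, t47] := q20194.mv 1 rfl
  have e20196 := (Rl.l2 H i15 i18 i28 q20195 (.cons c5780.symm (.cons c19915.symm (.cons c19918.symm (.cons c2165.symm .nil)))) b5962).symm.trans b5970
  have m20197 : t270 = t272 := e20196.symm
  subst m20197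
  have q20198 : Rl [t26, t24, t30, t67, t77, t66] := q4904.mv 1 rfl
  have q20199 : Rl [t24, t26, t30, t67, t77, t66] := q20198.mv 1 rfl
  have e20200 := (Rl.l2 H i24 i26 i20 q20199 (.cons c356.symm (.cons c19919.symm (.cons c19920.symm (.cons c2222.symm .nil)))) (Lsw H i20 i24 b5978)).symm.trans (Lsw H i20 i26 b5979)
  have m20201 : t296 = t299 := e20200.symm
  subst m20201
  have q20204 : Rl [t35, t25, t34, t60, t74, t76] := q4882.mv 2 rfl
  have c20205 := q20204.l1 (.cons c245 (.cons c603 (.cons c19032.symm (.cons c1190.symm (.cons c2235 .nil)))))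
  have q20208 : Rl [t40, t27, t39, t63, t83, t84] := q4883.mv 2 rfl
  have c20209 := q20208.l1 (.cons c237 (.cons c602 (.cons c19034.symm (.cons c1540.symm (.cons c2237 .nil)))))
  have q20212 : Rl [t38, t33, t45, t71, t80, t91] := q5576.mv 1 rfl
  have q20213 : Rl [t33, t38, t45, t71, t80, t91] := q20212.mv 1 rfl
  have e20214 := (Rl.l2 H i33 i38 i13 q20213 (.cons c266.symm (.cons c19998.symm (.cons c19999.symm (.cons c2223.symm .nil)))) (Lsw H i13 i33 b5957)).symm.trans (Lsw H i13 i38 b5958)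
  have m20215 : t319 = t320 := e20214.symm
  subst m20215
  have c20259 := Lco i203 i5 (LP1 H i5 i60 i8 c2015.symm b42 b13643 (k_one i23 i60 c20037.symm))
  have c20260 := Lco i204 i5 (LP1 H i5 i63 i8 c2013.symm b42 b13644 (k_one i23 i63 c20014.symm))
  have c20261 := Lco i220 i5 (LP1 H i5 i71 i6 c2018.symm b41 b13993 (k_one i22 i71 c20191))
  have c20263 := Lco i235 i5 (LP1 H i5 i80 i6 c2020.symm b41 (Lsw H i6 i80 b5917) (k_one i22 i80 c20193))
  have c20267 := Lco i9 i152 (LP1 H i152 i5 i2 c5774 (Lsw H i2 i152 b5848) (Lsw H i2 i5 b7) (k_one i220 i5 c20261))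
  have c20268 := Lco i10 i152 (LP1 H i152 i5 i3 c5774 b14293 (Lsw H i3 i5 b8) (k_one i235 i5 c20263))
  have c20279 := Lco i151 i9 (LP1 H i9 i38 i6 c318.symm (Lsw H i6 i9 b150) (Lsw H i6 i38 b2293) (k_one i35 i38 c20205))
  have c20280 := Lco i36 i41 (LP1 H i41 i9 i8 c2031.symm (Lsw H i8 i41 b2304) (Lsw H i8 i9 b155) (k_one i152 i9 c20267.symm))
  have c20281 := Lco i18 i74 (LP1 H i74 i9 i3 c1285.symm b5187 (Lsw H i3 i9 b37) (k_one i151 i9 c20279))
  have c20284 := Lco i135 i10 (LP1 H i10 i33 i6 c282.symm (Lsw H i6 i10 b151) (Lsw H i6 i33 b2292) (k_one i40 i33 c20209))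
  have c20285 := Lco i56 i41 (LP1 H i41 i10 i8 c2032.symm (Lsw H i8 i41 b2304) (Lsw H i8 i10 b156) (k_one i152 i10 c20268.symm))
  have c20287 := Lco i15 i83 (LP1 H i83 i10 i2 c1286.symm (Lsw H i2 i83 b2262) (Lsw H i2 i10 b34) (k_one i135 i10 c20284))
  have q20310 : Rl [t20, t13, t22, t28, t41, t46] := q611.mv 1 rfl
  have q20311 : Rl [t13, t20, t22, t28, t41, t46] := q20310.mv 1 rfl
  have e20312 := (Rl.l2 H i13 i20 i36 q20311 (.cons c5772 (.cons c19915 (.cons c20280.symm (.cons c2158.symm .nil)))) b17907).symm.trans b15011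
  have m20313 : t269 = t275 := e20312.symm
  subst m20313
  have q20314 : Rl [t20, t13, t22, t28, t41, t46] := q611.mv 1 rfl
  have q20315 : Rl [t13, t20, t22, t28, t41, t46] := q20314.mv 1 rfl
  have e20316 := (Rl.l2 H i13 i20 i56 q20315 (.cons c5775 (.cons c19918 (.cons c20285.symm (.cons c2160.symm .nil)))) b17915).symm.trans b15019
  have m20317 : t271 = t279 := e20316.symm
  subst m20317
  have q20318 : Rl [t18, t15, t23, t36, t56, t47] := q495.mv 1 rfl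
  have q20319 : Rl [t15, t18, t23, t36, t56, t47] := q20318.mv 1 rfl
  have e20320 := (Rl.l2 H i15 i18 i41 q20319 (.cons c5787.symm (.cons c20280 (.cons c20285 (.cons c2167.symm .nil)))) b5965).symm.trans b5973
  have m20321 : t276 = t316 := e20320.symm
  subst m20321
  have q20322 : Rl [t34, t25, t35, t60, t74, t76] := q4882.mv 1 rfl
  have q20323 : Rl [t25, t34, t35, t60, t74, t76] := q20322.mv 1 rfl
  have e20324 := (Rl.l2 H i25 i34 i18 q20323 (.cons c326.symm (.cons c19960.symm (.cons c20281.symm (.cons c2225.symm .nil)))) b18153).symm.trans (Lsw H i18 i34 b5971)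
  have m20325 : t305 = t308 := e20324.symm
  subst m20325
  have q20328 : Rl [t39, t27, t40, t63, t83, t84] := q4883.mv 1 rfl
  have q20329 : Rl [t27, t39, t40, t63, t83, t84] := q20328.mv 1 rfl
  have e20330 := (Rl.l2 H i27 i39 i15 q20329 (.cons c292.symm (.cons c19979.symm (.cons c20287.symm (.cons c2226.symm .nil)))) (Lsw H i15 i27 b5961)).symm.trans (Lsw H i15 i39 b5964)
  have m20331 : t315 = t336 := e20330
  subst m20331
  obtain ⟨t357, b20349⟩ : ∃ t, k a t255 = t := ⟨_, rfl⟩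
  have i357 := Linv H i1 i255 b20349
  obtain ⟨t358, b20350⟩ : ∃ t, k a t257 = t := ⟨_, rfl⟩
  have i358 := Linv H i1 i257 b20350
  obtain ⟨t359, b20351⟩ : ∃ t, k a t259 = t := ⟨_, rfl⟩
  have i359 := Linv H i1 i259 b20351
  obtain ⟨t360, b20352⟩ : ∃ t, k a t260 = t := ⟨_, rfl⟩
  have i360 := Linv H i1 i260 b20352
  obtain ⟨t361, b20353⟩ : ∃ t, k a t270 = t := ⟨_, rfl⟩
  have i361 := Linv H i1 i270 b20353
  obtain ⟨t362, b20354⟩ : ∃ t, k a t276 = t := ⟨_, rfl⟩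
  have i362 := Linv H i1 i276 b20354
  obtain ⟨t363, b20355⟩ : ∃ t, k a t292 = t := ⟨_, rfl⟩
  have i363 := Linv H i1 i292 b20355
  obtain ⟨t364, b20356⟩ : ∃ t, k a t296 = t := ⟨_, rfl⟩
  have i364 := Linv H i1 i296 b20356
  obtain ⟨t365, b20357⟩ : ∃ t, k a t319 = t := ⟨_, rfl⟩
  have i365 := Linv H i1 i319 b20357
  obtain ⟨t366, b20358⟩ : ∃ t, k b t237 = t := ⟨_, rfl⟩
  have i366 := Linv H i2 i237 b20358
  obtain ⟨t367, b20359⟩ : ∃ t, k b t238 = t := ⟨_, rfl⟩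
  have i367 := Linv H i2 i238 b20359
  obtain ⟨t368, b20360⟩ : ∃ t, k b t239 = t := ⟨_, rfl⟩
  have i368 := Linv H i2 i239 b20360
  obtain ⟨t369, b20361⟩ : ∃ t, k b t240 = t := ⟨_, rfl⟩
  have i369 := Linv H i2 i240 b20361
  obtain ⟨t370, b20362⟩ : ∃ t, k b t269 = t := ⟨_, rfl⟩
  have i370 := Linv H i2 i269 b20362
  obtain ⟨t371, b20363⟩ : ∃ t, k b t271 = t := ⟨_, rfl⟩
  have i371 := Linv H i2 i271 b20363
  obtain ⟨t372, b20364⟩ : ∃ t, k b t314 = t := ⟨_, rfl⟩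
  have i372 := Linv H i2 i314 b20364
  obtain ⟨t373, b20365⟩ : ∃ t, k c t219 = t := ⟨_, rfl⟩
  have i373 := Linv H i3 i219 b20365
  obtain ⟨t374, b20366⟩ : ∃ t, k c t221 = t := ⟨_, rfl⟩
  have i374 := Linv H i3 i221 b20366
  obtain ⟨t375, b20367⟩ : ∃ t, k c t222 = t := ⟨_, rfl⟩
  have i375 := Linv H i3 i222 b20367
  obtain ⟨t376, b20368⟩ : ∃ t, k c t223 = t := ⟨_, rfl⟩
  have i376 := Linv H i3 i223 b20368
  obtain ⟨t377, b20369⟩ : ∃ t, k c t269 = t := ⟨_, rfl⟩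
  have i377 := Linv H i3 i269 b20369
  obtain ⟨t378, b20370⟩ : ∃ t, k c t271 = t := ⟨_, rfl⟩
  have i378 := Linv H i3 i271 b20370
  obtain ⟨t379, b20371⟩ : ∃ t, k c t302 = t := ⟨_, rfl⟩
  have i379 := Linv H i3 i302 b20371
  obtain ⟨t380, b20372⟩ : ∃ t, k c t306 = t := ⟨_, rfl⟩
  have i380 := Linv H i3 i306 b20372
  obtain ⟨t381, b20373⟩ : ∃ t, k d t206 = t := ⟨_, rfl⟩
  have i381 := Linv H i4 i206 b20373
  obtain ⟨t382, b20374⟩ : ∃ t, k d t207 = t := ⟨_, rfl⟩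
  have i382 := Linv H i4 i207 b20374
  obtain ⟨t383, b20375⟩ : ∃ t, k d t208 = t := ⟨_, rfl⟩
  have i383 := Linv H i4 i208 b20375
  obtain ⟨t384, b20376⟩ : ∃ t, k d t209 = t := ⟨_, rfl⟩
  have i384 := Linv H i4 i209 b20376
  obtain ⟨t385, b20377⟩ : ∃ t, k d t270 = t := ⟨_, rfl⟩
  have i385 := Linv H i4 i270 b20377
  obtain ⟨t386, b20378⟩ : ∃ t, k d t276 = t := ⟨_, rfl⟩
  have i386 := Linv H i4 i276 b20378
  obtain ⟨t387, b20379⟩ : ∃ t, k d t291 = t := ⟨_, rfl⟩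
  have i387 := Linv H i4 i291 b20379
  obtain ⟨t388, b20380⟩ : ∃ t, k d t296 = t := ⟨_, rfl⟩
  have i388 := Linv H i4 i296 b20380
  obtain ⟨t389, b20381⟩ : ∃ t, k d t297 = t := ⟨_, rfl⟩
  have i389 := Linv H i4 i297 b20381
  obtain ⟨t390, b20382⟩ : ∃ t, k d t319 = t := ⟨_, rfl⟩
  have i390 := Linv H i4 i319 b20382
  obtain ⟨t391, b20383⟩ : ∃ t, k e t206 = t := ⟨_, rfl⟩
  have i391 := Linv H i5 i206 b20383
  obtain ⟨t392, b20384⟩ : ∃ t, k e t219 = t := ⟨_, rfl⟩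
  have i392 := Linv H i5 i219 b20384
  obtain ⟨t393, b20385⟩ : ∃ t, k e t237 = t := ⟨_, rfl⟩
  have i393 := Linv H i5 i237 b20385
  obtain ⟨t394, b20386⟩ : ∃ t, k t6 t129 = t := ⟨_, rfl⟩
  have i394 := Linv H i6 i129 b20386
  obtain ⟨t395, b20387⟩ : ∃ t, k t6 t155 = t := ⟨_, rfl⟩
  have i395 := Linv H i6 i155 b20387
  obtain ⟨t396, b20388⟩ : ∃ t, k t6 t160 = t := ⟨_, rfl⟩
  have i396 := Linv H i6 i160 b20388
  obtain ⟨t397, b20389⟩ : ∃ t, k t6 t161 = t := ⟨_, rfl⟩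
  have i397 := Linv H i6 i161 b20389
  obtain ⟨t398, b20390⟩ : ∃ t, k t6 t162 = t := ⟨_, rfl⟩
  have i398 := Linv H i6 i162 b20390
  obtain ⟨t399, b20391⟩ : ∃ t, k t6 t186 = t := ⟨_, rfl⟩
  have i399 := Linv H i6 i186 b20391
  obtain ⟨t400, b20392⟩ : ∃ t, k t6 t198 = t := ⟨_, rfl⟩
  have i400 := Linv H i6 i198 b20392
  obtain ⟨t401, b20393⟩ : ∃ t, k t6 t200 = t := ⟨_, rfl⟩
  have i401 := Linv H i6 i200 b20393
  obtain ⟨t402, b20394⟩ : ∃ t, k t7 t124 = t := ⟨_, rfl⟩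
  have i402 := Linv H i7 i124 b20394
  obtain ⟨t403, b20395⟩ : ∃ t, k t7 t135 = t := ⟨_, rfl⟩
  have i403 := Linv H i7 i135 b20395
  obtain ⟨t404, b20396⟩ : ∃ t, k t8 t139 = t := ⟨_, rfl⟩
  have i404 := Linv H i8 i139 b20396
  obtain ⟨t405, b20397⟩ : ∃ t, k t8 t148 = t := ⟨_, rfl⟩
  have i405 := Linv H i8 i148 b20397
  obtain ⟨t406, b20398⟩ : ∃ t, k t8 t157 = t := ⟨_, rfl⟩
  have i406 := Linv H i8 i157 b20398
  obtain ⟨t407, b20399⟩ : ∃ t, k t8 t158 = t := ⟨_, rfl⟩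
  have i407 := Linv H i8 i158 b20399
  obtain ⟨t408, b20400⟩ : ∃ t, k t8 t160 = t := ⟨_, rfl⟩
  have i408 := Linv H i8 i160 b20400
  obtain ⟨t409, b20401⟩ : ∃ t, k t8 t162 = t := ⟨_, rfl⟩
  have i409 := Linv H i8 i162 b20401
  obtain ⟨t410, b20402⟩ : ∃ t, k t8 t189 = t := ⟨_, rfl⟩
  have i410 := Linv H i8 i189 b20402
  obtain ⟨t411, b20403⟩ : ∃ t, k t8 t190 = t := ⟨_, rfl⟩
  have i411 := Linv H i8 i190 b20403
  obtain ⟨t412, b20404⟩ : ∃ t, k t8 t195 = t := ⟨_, rfl⟩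
  have i412 := Linv H i8 i195 b20404
  obtain ⟨t413, b20405⟩ : ∃ t, k t8 t196 = t := ⟨_, rfl⟩
  have i413 := Linv H i8 i196 b20405
  obtain ⟨t414, b20406⟩ : ∃ t, k t9 t123 = t := ⟨_, rfl⟩
  have i414 := Linv H i9 i123 b20406
  obtain ⟨t415, b20407⟩ : ∃ t, k t9 t134 = t := ⟨_, rfl⟩
  have i415 := Linv H i9 i134 b20407
  obtain ⟨t416, b20408⟩ : ∃ t, k t9 t144 = t := ⟨_, rfl⟩
  have i416 := Linv H i9 i144 b20408
  obtain ⟨t417, b20409⟩ : ∃ t, k t10 t120 = t := ⟨_, rfl⟩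
  have i417 := Linv H i10 i120 b20409
  obtain ⟨t418, b20410⟩ : ∃ t, k t10 t134 = t := ⟨_, rfl⟩
  have i418 := Linv H i10 i134 b20410
  obtain ⟨t419, b20411⟩ : ∃ t, k t11 t124 = t := ⟨_, rfl⟩
  have i419 := Linv H i11 i124 b20411
  obtain ⟨t420, b20412⟩ : ∃ t, k t12 t60 = t := ⟨_, rfl⟩
  have i420 := Linv H i12 i60 b20412
  obtain ⟨t421, b20413⟩ : ∃ t, k t13 t59 = t := ⟨_, rfl⟩
  have i421 := Linv H i13 i59 b20413
  obtain ⟨t422, b20414⟩ : ∃ t, k t15 t59 = t := ⟨_, rfl⟩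
  have i422 := Linv H i15 i59 b20414
  obtain ⟨t423, b20415⟩ : ∃ t, k t15 t62 = t := ⟨_, rfl⟩
  have i423 := Linv H i15 i62 b20415
  obtain ⟨t424, b20416⟩ : ∃ t, k t15 t65 = t := ⟨_, rfl⟩
  have i424 := Linv H i15 i65 b20416
  obtain ⟨t425, b20417⟩ : ∃ t, k t16 t83 = t := ⟨_, rfl⟩
  have i425 := Linv H i16 i83 b20417
  obtain ⟨t426, b20418⟩ : ∃ t, k t18 t62 = t := ⟨_, rfl⟩
  have i426 := Linv H i18 i62 b20418
  obtain ⟨t427, b20419⟩ : ∃ t, k t18 t65 = t := ⟨_, rfl⟩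
  have i427 := Linv H i18 i65 b20419
  obtain ⟨t428, b20420⟩ : ∃ t, k t18 t72 = t := ⟨_, rfl⟩
  have i428 := Linv H i18 i72 b20420
  obtain ⟨t429, b20421⟩ : ∃ t, k t19 t60 = t := ⟨_, rfl⟩
  have i429 := Linv H i19 i60 b20421
  obtain ⟨t430, b20422⟩ : ∃ t, k t19 t74 = t := ⟨_, rfl⟩
  have i430 := Linv H i19 i74 b20422
  obtain ⟨t431, b20423⟩ : ∃ t, k t20 t73 = t := ⟨_, rfl⟩
  have i431 := Linv H i20 i73 b20423
  obtain ⟨t432, b20424⟩ : ∃ t, k t20 t81 = t := ⟨_, rfl⟩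
  have i432 := Linv H i20 i81 b20424
  obtain ⟨t433, b20425⟩ : ∃ t, k t22 t72 = t := ⟨_, rfl⟩
  have i433 := Linv H i22 i72 b20425
  obtain ⟨t434, b20426⟩ : ∃ t, k t22 t73 = t := ⟨_, rfl⟩
  have i434 := Linv H i22 i73 b20426
  obtain ⟨t435, b20427⟩ : ∃ t, k t22 t81 = t := ⟨_, rfl⟩
  have i435 := Linv H i22 i81 b20427
  obtain ⟨t436, b20428⟩ : ∃ t, k t22 t82 = t := ⟨_, rfl⟩
  have i436 := Linv H i22 i82 b20428
  obtain ⟨t437, b20429⟩ : ∃ t, k t23 t62 = t := ⟨_, rfl⟩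
  have i437 := Linv H i23 i62 b20429
  obtain ⟨t438, b20430⟩ : ∃ t, k t23 t65 = t := ⟨_, rfl⟩
  have i438 := Linv H i23 i65 b20430
  obtain ⟨t439, b20431⟩ : ∃ t, k t23 t72 = t := ⟨_, rfl⟩
  have i439 := Linv H i23 i72 b20431
  obtain ⟨t440, b20432⟩ : ∃ t, k t23 t81 = t := ⟨_, rfl⟩
  have i440 := Linv H i23 i81 b20432
  have c20433 := Lkl H i1 i255 b20349
  have c20435 := Lkl H i1 i257 b20350
  have c20437 := Lkl H i1 i259 b20351
  have c20439 := Lkl H i1 i260 b20352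
  have c20441 := Lkl H i1 i270 b20353
  have c20442 := Lkr H i1 i270 b20353
  have c20443 := Lkl H i1 i276 b20354
  have c20451 := Lkl H i2 i237 b20358
  have c20453 := Lkl H i2 i238 b20359
  have c20455 := Lkl H i2 i239 b20360
  have c20457 := Lkl H i2 i240 b20361
  have c20459 := Lkl H i2 i269 b20362
  have c20460 := Lkr H i2 i269 b20362
  have c20461 := Lkl H i2 i271 b20363
  have c20465 := Lkl H i3 i219 b20365
  have c20467 := Lkl H i3 i221 b20366
  have c20469 := Lkl H i3 i222 b20367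
  have c20471 := Lkl H i3 i223 b20368
  have c20473 := Lkl H i3 i269 b20369
  have c20475 := Lkl H i3 i271 b20370
  have c20476 := Lkr H i3 i271 b20370
  have c20481 := Lkl H i4 i206 b20373
  have c20483 := Lkl H i4 i207 b20374
  have c20485 := Lkl H i4 i208 b20375
  have c20487 := Lkl H i4 i209 b20376
  have c20489 := Lkl H i4 i270 b20377
  have c20491 := Lkl H i4 i276 b20378
  have c20492 := Lkr H i4 i276 b20378
  have c20601 := Lck hab c6329 b20358
  have c20602 := Lck hab c17149.symm b20359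
  have c20603 := Lck hab c10259.symm b20360
  have c20604 := Lck hab c6334 b20361
  have c20605 := Lck hab.symm c6772 b20349
  have c20606 := Lck hab.symm c17248.symm b20350
  have c20607 := Lck hab.symm c10519.symm b20351
  have c20608 := Lck hab.symm c6781 b20352
  have c20609 := Lck hab c8731.symm b20362
  have c20610 := Lck hab.symm c8678.symm b20353
  have c20611 := Lck hab c8800.symm b20363
  have c20612 := Lck hab.symm c8818.symm b20354
  have c20617 := Lck hac c6304 b20365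
  have c20618 := Lck hac c9933.symm b20366
  have c20619 := Lck hac c17146.symm b20367
  have c20620 := Lck hac c6309 b20368
  have c20621 := Lck hac.symm c7327 b20349
  have c20622 := Lck hac.symm c17345.symm b20350
  have c20623 := Lck hac.symm c11283.symm b20351
  have c20624 := Lck hac.symm c7336 b20352
  have c20625 := Lck hac c8731.symm b20369
  have c20626 := Lck hac.symm c9923.symm b20353
  have c20627 := Lck hac c8800.symm b20370
  have c20628 := Lck hac.symm c9953.symm b20354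
  have c20636 := Lck c10.symm c2348.symm b20386
  have b20735 := LP1 H i26 i1 i20 c163 (Lsw H i20 i26 b5979) b128 (Lsw H i1 i296 b20356)
  have b20821 := LP1 H i62 i1 i11 c692 (Lsw H i11 i62 b5948) b32 (Lsw H i1 i319 b20357)
  have c20951 := LP3 H i121 i1 i5 c2332 (Lsw H i5 i121 b5898) (Lsw H i1 i270 b20353)
  have e20972 := (LP1 H i124 i1 i5 c2338 (Lsw H i5 i124 b5900) b5 (Lsw H i1 i270 b20353)).symm.trans b20394
  have m20973 : t361 = t402 := e20972
  subst m20973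
  have c21002 := LP3 H i129 i1 i4 c2348 (Lsw H i4 i129 b5883) (Lsw H i1 i255 b20349)
  have c21013 := LP3 H i135 i1 i5 c2512.symm (Lsw H i5 i135 b5904) (Lsw H i1 i276 b20354)
  have b21059 := LP1 H i151 i1 i5 c3258 b14839 b5 (Lsw H i1 i276 b20354)
  have c21143 := Lck c5995 c15604 b20353
  have c21154 := Lck c5999 c19870 b20353
  have c21376 := Lck hbd c6307 b20373
  have c21377 := Lck hbd c9416.symm b20374
  have c21378 := Lck hbd c17145.symm b20375
  have c21379 := Lck hbd c6311 b20376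
  have c21380 := Lck hbd.symm c7330 b20358
  have c21381 := Lck hbd.symm c17344.symm b20359
  have c21382 := Lck hbd.symm c10692.symm b20360
  have c21383 := Lck hbd.symm c7334 b20361
  have c21384 := Lck hbd.symm c9446.symm b20362
  have c21385 := Lck hbd c8678.symm b20377
  have c21386 := Lck hbd.symm c9482.symm b20363
  have c21387 := Lck hbd c8818.symm b20378
  have c21409 := Lck c14.symm c2368.symm b20396
  have c21630 := LP3 H i120 i2 i5 c2507.symm (Lsw H i5 i120 b5897) (Lsw H i2 i269 b20362)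
  have c21647 := LP3 H i123 i2 i5 c2510.symm (Lsw H i5 i123 b5899) (Lsw H i2 i271 b20363)
  have e21670 := (LP1 H i134 i2 i5 c2358 (Lsw H i5 i134 b5903) b7 (Lsw H i2 i269 b20362)).symm.trans b20407
  have m21671 : t370 = t415 := e21670
  subst m21671
  have c21695 := LP3 H i139 i2 i3 c2368 (Lsw H i3 i139 b5865) (Lsw H i2 i237 b20358)
  have e21711 := (LP1 H i144 i2 i5 c3090 (Lsw H i5 i144 b5907) b7 (Lsw H i2 i271 b20363)).symm.trans b20408
  have m21712 : t371 = t416 := e21711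
  subst m21712
  have c21841 := Lck c6023 c15042 b20362
  have c21850 := Lck c6029 c18671 b20362
  have c21965 := Lck hcd c6332 b20373
  have c21966 := Lck hcd c14315.symm b20374
  have c21967 := Lck hcd c17151.symm b20375
  have c21968 := Lck hcd c6336 b20376
  have c21969 := Lck hcd.symm c6775 b20365
  have c21970 := Lck hcd.symm c14609.symm b20366
  have c21971 := Lck hcd.symm c17250.symm b20367
  have c21972 := Lck hcd.symm c6779 b20368
  have c21973 := Lck hcd.symm c9446.symm b20369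
  have c21974 := Lck hcd c9923.symm b20377
  have c21975 := Lck hcd.symm c9482.symm b20370
  have c21976 := Lck hcd c9953.symm b20378
  have c22002 := Lck c15.symm c2386.symm b20397
  have c22245 := LP3 H i120 i3 i5 c2532.symm (Lsw H i5 i120 b5897) (Lsw H i3 i269 b20369)
  have c22254 := LP3 H i123 i3 i5 c2536.symm (Lsw H i5 i123 b5899) (Lsw H i3 i271 b20370)
  have e22290 := (LP1 H i134 i3 i5 c2868 (Lsw H i5 i134 b5903) b8 (Lsw H i3 i269 b20369)).symm.trans b20410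
  have m22291 : t377 = t418 := e22290
  subst m22291
  have b22308 := LP1 H i144 i3 i5 c2378 (Lsw H i5 i144 b5907) b8 (Lsw H i3 i271 b20370)
  have c22335 := LP3 H i148 i3 i2 c2386 (Lsw H i2 i148 b5847) (Lsw H i3 i219 b20365)
  have c22490 := Lck c6055 c15053 b20370
  have c22508 := Lck c6061 c18699 b20370
  have c22625 := Lck c11.symm c2400.symm b20387
  have b22741 := LP1 H i38 i4 i13 c320.symm (Lsw H i13 i38 b5958) b141 (Lsw H i4 i319 b20382)
  have e22877 := (LP1 H i81 i4 i7 c1051.symm (Lsw H i7 i81 b5927) b39 (Lsw H i4 i296 b20380)).symm.trans b20424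
  have m22878 : t388 = t432 := e22877
  subst m22878
  have c22952 := LP3 H i121 i4 i5 c2611 (Lsw H i5 i121 b5898) (Lsw H i4 i270 b20377)
  have e22964 := (LP1 H i124 i4 i5 c2624 (Lsw H i5 i124 b5900) b9 (Lsw H i4 i270 b20377)).symm.trans b20411
  have m22965 : t385 = t419 := e22964
  subst m22965
  have c22996 := LP3 H i135 i4 i5 c2784.symm (Lsw H i5 i135 b5904) (Lsw H i4 i276 b20378)
  have b23058 := LP1 H i151 i4 i5 c2392 b14839 b9 (Lsw H i4 i276 b20378)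
  have c23091 := LP3 H i155 i4 i1 c2400 (Lsw H i1 i155 b5834) (Lsw H i4 i206 b20373)
  have c23314 := Lck c6093 c15211 b20378
  have c23320 := Lck c6095 c18714 b20378
  have c23618 := Lco i382 i5 (LP1 H i5 i207 i4 c6494.symm (Lsw H i4 i5 b9) (Lsw H i4 i207 b20374) (k_one i11 i207 c6412.symm))
  have c23622 := Lco i383 i5 (LP1 H i5 i208 i4 c17580.symm (Lsw H i4 i5 b9) (Lsw H i4 i208 b20375) (k_one i11 i208 c17929.symm))
  have c23626 := Lco i384 i5 (LP1 H i5 i209 i4 c9035.symm (Lsw H i4 i5 b9) (Lsw H i4 i209 b20376) (k_one i11 i209 c20003.symm))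
  have c23639 := Lco i374 i5 (LP1 H i5 i221 i3 c6967.symm (Lsw H i3 i5 b8) (Lsw H i3 i221 b20366) (k_one i10 i221 c6888.symm))
  have c23643 := Lco i375 i5 (LP1 H i5 i222 i3 c17578.symm (Lsw H i3 i5 b8) (Lsw H i3 i222 b20367) (k_one i10 i222 c17878.symm))
  have c23646 := Lco i376 i5 (LP1 H i5 i223 i3 c9019.symm (Lsw H i3 i5 b8) (Lsw H i3 i223 b20368) (k_one i10 i223 c19984.symm))
  have c23657 := Lco i367 i5 (LP1 H i5 i238 i2 c19864.symm (Lsw H i2 i5 b7) (Lsw H i2 i238 b20359) (k_one i9 i238 c17812.symm))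
  have c23660 := Lco i368 i5 (LP1 H i5 i239 i2 c7544.symm (Lsw H i2 i5 b7) (Lsw H i2 i239 b20360) (k_one i9 i239 c7452.symm))
  have c23664 := Lco i369 i5 (LP1 H i5 i240 i2 c9020.symm (Lsw H i2 i5 b7) (Lsw H i2 i240 b20361) (k_one i9 i240 c19966.symm))
  have c23672 := Lco i358 i5 (LP1 H i5 i257 i1 c19865.symm (Lsw H i1 i5 b5) (Lsw H i1 i257 b20350) (k_one i7 i257 c17682.symm))
  have c23677 := Lco i359 i5 (LP1 H i5 i259 i1 c8134.symm (Lsw H i1 i5 b5) (Lsw H i1 i259 b20351) (k_one i7 i259 c8037.symm))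
  have c23681 := Lco i360 i5 (LP1 H i5 i260 i1 c9036.symm (Lsw H i1 i5 b5) (Lsw H i1 i260 b20352) (k_one i7 i260 c19927.symm))
  have e23959 := (LP1 H i82 i6 i5 c1066.symm b5337 (Lsw H i5 i6 b41) (Lsw H i6 i161 b20389)).symm.trans b20428
  have m23960 : t397 = t436 := e23959
  subst m23960
  have e24465 := (LP1 H i60 i7 i3 c862.symm (Lsw H i3 i60 b2269) (Lsw H i3 i7 b36) (Lsw H i7 i124 b20394)).symm.trans b20412
  have m24466 : t361 = t420 := e24465
  subst m24466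
  have c24498 := Lco i394 i7 (LP1 H i7 i129 i6 c3534 b524 (Lsw H i6 i129 b20386) (k_one i28 i129 c2640))
  have c24515 := Lck c3746 c5219 b20394
  have c24579 := Lco i382 i7 (LP1 H i7 i207 i4 c6365 (Lsw H i4 i7 b39) (Lsw H i4 i207 b20374) (k_one i20 i207 c13464))
  have c24624 := Lco i386 i7 (LP1 H i7 i276 i4 c6690 (Lsw H i4 i7 b39) (Lsw H i4 i276 b20378) (k_one i20 i276 c18260.symm))
  have c24629 := Lck c6171 c9097.symm b20394
  have b25496 := LP1 H i67 i9 i4 c977.symm b5112 b118 (Lsw H i9 i134 b20407)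
  have c25536 := Lco i404 i9 (LP1 H i9 i139 i8 c3531 (Lsw H i8 i9 b155) (Lsw H i8 i139 b20396) (k_one i36 i139 c2880))
  have c25541 := Lck c3936 c5211.symm b20407
  have c25644 := Lco i374 i9 (LP1 H i9 i221 i3 c6829 (Lsw H i3 i9 b37) (Lsw H i3 i221 b20366) (k_one i18 i221 c13492))
  have c25682 := Lco i378 i9 (LP1 H i9 i271 i3 c7179 (Lsw H i3 i9 b37) (Lsw H i3 i271 b20370) (k_one i18 i271 c18204.symm))
  have c25700 := Lck c6189 c9702.symm b20407
  have c25754 := Lco i370 i10 (LP1 H i10 i67 i16 c1957.symm b681 (Lsw H i16 i67 b25496) (k_one i96 i67 c17747))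
  have b25763 := LP1 H i77 i10 i4 c1081.symm b5186 (Lsw H i4 i10 b40) (Lsw H i10 i144 b22308)
  have c25796 := Lco i405 i10 (LP1 H i10 i148 i8 c3528 (Lsw H i8 i10 b156) (Lsw H i8 i148 b20397) (k_one i56 i148 c3108))
  have c25884 := Lco i367 i10 (LP1 H i10 i238 i2 c9015 (Lsw H i2 i10 b34) (Lsw H i2 i238 b20359) (k_one i15 i238 c13504))
  have e25949 := (LP1 H i60 i11 i3 c2045 (Lsw H i3 i60 b2269) (Lsw H i3 i11 b38) (Lsw H i11 i124 b20411)).symm.trans b20421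
  have m25950 : t385 = t429 := e25949
  subst m25950
  have c25951 := Lco i361 i11 (LP1 H i11 i60 i12 c2045.symm b683 (Lsw H i12 i60 b20412) (k_one i95 i60 c17627))
  have e25957 := (LP1 H i74 i11 i3 c953 b5187 (Lsw H i3 i11 b38) (Lsw H i11 i151 b23058)).symm.trans b20422
  have m25958 : t386 = t430 := e25957
  subst m25958
  have c26017 := Lco i358 i11 (LP1 H i11 i257 i1 c9016 (Lsw H i1 i11 b32) (Lsw H i1 i257 b20350) (k_one i13 i257 c13473))
  have c26018 := Lco i359 i11 (LP1 H i11 i259 i1 c7957 (Lsw H i1 i11 b32) (Lsw H i1 i259 b20351) (k_one i13 i259 c13474))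
  have b26047 := LP1 H i28 i12 i2 c272.symm (Lsw H i2 i28 b635) (Lsw H i2 i12 b131) (Lsw H i12 i60 b20412)
  have b26093 := LP1 H i25 i13 i3 c275.symm (Lsw H i3 i25 b644) (Lsw H i3 i13 b137) (Lsw H i13 i62 b20821)
  have e26094 := (LP1 H i13 i27 i2 c276 (Lsw H i2 i13 b132) (Lsw H i2 i27 b634) (Lsw H i27 i25 b26093)).symm.trans (Lsw H i13 i59 b20413)
  have m26095 : t365 = t421 := e26094
  subst m26095
  have b26194 := LP1 H i14 i28 i3 c279 b521 b1734 (Lsw H i28 i26 b20735)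
  have e26616 := (LP1 H i16 i41 i3 c370 (Lsw H i3 i16 b138) (Lsw H i3 i41 b649) (Lsw H i41 i38 b22741)).symm.trans (Lsw H i16 i83 b20417)
  have m26617 : t390 = t425 := e26616
  subst m26617
  have b27066 := LP1 H i41 i19 i2 c374.symm (Lsw H i2 i41 b640) (Lsw H i2 i19 b133) (Lsw H i19 i74 b20422)
  have b27069 := LP1 H i56 i19 i1 c358.symm b1731 (Lsw H i1 i19 b127) (Lsw H i19 i77 b25763)
  have c27088 := Lck c4437 c2717.symm b20422
  have c27143 := Lck c20077 c9165.symm b20421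
  have c27150 := Lck c10477.symm c10557.symm b20422
  have b27159 := LP1 H i34 i20 i3 c180 (Lsw H i3 i34 b647) (Lsw H i3 i20 b139) (Lsw H i20 i81 b20424)
  have b27162 := LP1 H i20 i39 i2 c190.symm (Lsw H i2 i20 b134) (Lsw H i2 i39 b638) (Lsw H i39 i34 b27159)
  have b27364 := LP1 H i35 i22 i3 c182 (Lsw H i3 i35 b648) (Lsw H i3 i22 b140) (Lsw H i22 i82 b20428)
  have e27372 := (LP1 H i22 i40 i2 c192.symm (Lsw H i2 i22 b135) (Lsw H i2 i40 b639) (Lsw H i40 i35 b27364)).symm.trans (Lsw H i22 i73 b20426)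
  have m27373 : t397 = t434 := e27372
  subst m27373
  have c28112 := LP2 H i24 i77 i19 c723.symm (Lsw H i19 i24 b5975) (Lsw H i19 i77 b25763)
  have c29257 := Lco i378 i136 (LP1 H i136 i271 i3 c17557 (Lsw H i3 i136 b5864) (Lsw H i3 i271 b20370) (k_one i236 i271 c16128))
  have q30046 : Rl [t206, t153, t291, t205, t395, 1] := LJ H i1 i4 i92 b4 b2255 b2282 b5834 b2280 (Lsw H i6 i92 b5919) b5916 b20387 (k_one i66 i155 c17050.symm)
  have q30047 : Rl [1, t206, t153, t291, t205, t395] := q30046.mv 5 rfl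
  have q30048 : Rl [t206, t153, t291, t205, t395] := q30047.del1
  have q30049 : Rl [t127, t255, t292, t394, t254, 1] := LJ H i1 i4 i96 b4 b2256 (Lsw H i96 i4 b5273) b2254 b5883 (Lsw H i6 i96 b5920) b20386 b5918 (k_one i129 i91 c16573)
  have q30050 : Rl [1, t127, t255, t292, t394, t254] := q30049.mv 5 rfl
  have q30051 : Rl [t127, t255, t292, t394, t254] := q30050.del1
  have q30052 : Rl [t210, t270, t296, t361, 1, 1] := LJ H i1 i5 i81 b5 b2251 b2289 b5838 b5900 (Lsw H i7 i81 b5927) b20394 (k_one i7 i162 c16944.symm) (k_one i124 i162 c16974.symm)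
  have q30053 : Rl [1, t210, t270, t296, t361, 1] := q30052.mv 4 rfl
  have q30054 : Rl [t210, t270, t296, t361, 1] := q30053.del1
  have q30055 : Rl [1, t210, t270, t296, t361] := q30054.mv 4 rfl
  have q30056 : Rl [t210, t270, t296, t361] := q30055.del1
  have q30062 : Rl [1, t391, 1, 1, 1, 1] := LJ H i1 i5 i155 b5 b5834 b5911 (k_one i1 i274 c8917.symm) b20383 (k_one i155 i7 c19598) (k_one i7 i206 c19733) (k_one i7 i274 c6687) (k_one i206 i274 c17217.symm)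
  have q30063 : Rl [t391, 1, 1, 1, 1] := q30062.del1
  have q30064 : Rl [1, t391, 1, 1, 1] := q30063.mv 1 rfl
  have q30065 : Rl [t391, 1, 1, 1] := q30064.del1
  have q30066 : Rl [1, t391, 1, 1] := q30065.mv 1 rfl
  have q30067 : Rl [t391, 1, 1] := q30066.del1
  have q30068 : Rl [1, t391, 1] := q30067.mv 1 rfl
  have q30069 : Rl [t391, 1] := q30068.del1
  have q30070 : Rl [1, t391] := q30069.mv 1 rfl
  have q30071 : Rl [t391] := q30070.del1
  have e30072 := q30071.one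
  have m30073 : 1 = t391 := e30072.symm
  subst m30073
  have c30074 := Lco i5 i206 b20383
  have q30075 : Rl [t208, t270, t296, t364, 1, 1] := LJ H i1 i9 i39 (Lsw H i9 i1 b114) b629 b2309 b5841 b14832 (Lsw H i14 i39 b15012) (Lsw H i63 i14 b26194) (k_one i14 i182 c16794.symm) (k_one i63 i182 c15831)
  have q30076 : Rl [1, t208, t270, t296, t364, 1] := q30075.mv 4 rfl
  have q30077 : Rl [t208, t270, t296, t364, 1] := q30076.del1
  have q30078 : Rl [1, t208, t270, t296, t364] := q30077.mv 4 rfl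
  have q30079 : Rl [t208, t270, t296, t364] := q30078.del1
  have q30085 : Rl [t127, t319, t319, t365, 1, 1] := LJ H i1 i11 i33 b32 b625 b5275 b2254 b5947 (Lsw H i13 i33 b5957) b20413 (k_one i13 i91 c2223) (k_one i59 i91 c2246.symm)
  have q30086 : Rl [1, t127, t319, t319, t365, 1] := q30085.mv 4 rfl
  have q30087 : Rl [t127, t319, t319, t365, 1] := q30086.del1
  have q30088 : Rl [1, t127, t319, t319, t365] := q30087.mv 4 rfl
  have q30089 : Rl [t127, t319, t319, t365] := q30088.del1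
  have q30090 : Rl [t319, t127, t319, t365] := q30089.mv 2 rfl
  have q30091 : Rl [t319, t319, t127, t365] := q30090.mv 2 rfl
  have q30092 : Rl [t127, t365] := q30091.del2
  have e30093 := q30092.two
  have m30094 : t127 = t365 := e30093
  subst m30094
  have q30096 : Rl [t72, t81, t88, t134, t144, t388] := LJ H i2 i3 i20 b6 b134 b139 b638 b647 (Lsw H i8 i20 b676) (Lsw H i34 i8 b5121) (Lsw H i39 i8 b5196) (Lsw H i39 i34 b27159)
  have q30097 : Rl [t73, t82, t103, t140, t145, t397] := LJ H i2 i3 i22 b6 b135 b140 b639 b648 (Lsw H i8 i22 b677) (Lsw H i35 i8 b5122) b5199 (Lsw H i40 i35 b27364)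
  have q30098 : Rl [t219, t146, t302, t218, t405, 1] := LJ H i2 i3 i93 b6 b2265 b2275 b5847 b2273 (Lsw H i8 i93 b5930) b5929 b20397 (k_one i76 i148 c18689.symm)
  have q30099 : Rl [1, t219, t146, t302, t218, t405] := q30098.mv 5 rfl
  have q30100 : Rl [t219, t146, t302, t218, t405] := q30099.del1
  have q30101 : Rl [t136, t237, t303, t404, t236, 1] := LJ H i2 i3 i95 b6 b2266 b2276 b2263 b5865 (Lsw H i8 i95 b5931) b20396 (Lsw H i84 i8 b14299) (k_one i139 i84 c16728)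
  have q30102 : Rl [1, t136, t237, t303, t404, t236] := q30101.mv 5 rfl
  have q30103 : Rl [t136, t237, t303, t404, t236] := q30102.del1
  have q30104 : Rl [t225, t269, t305, t370, 1, 1] := LJ H i2 i5 i81 b7 b2261 b2289 b5853 b5903 (Lsw H i9 i81 b5936) b20407 (k_one i9 i162 c19615.symm) (k_one i134 i162 c16982.symm)
  have q30105 : Rl [1, t225, t269, t305, t370, 1] := q30104.mv 4 rfl
  have q30106 : Rl [t225, t269, t305, t370, 1] := q30105.del1
  have q30107 : Rl [1, t225, t269, t305, t370] := q30106.mv 4 rfl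
  have q30108 : Rl [t225, t269, t305, t370] := q30107.del1
  have q30114 : Rl [1, t392, 1, 1, 1, 1] := LJ H i2 i5 i148 b7 b5847 b5909 (k_one i2 i274 c8902.symm) b20384 (k_one i148 i9 c19454) (k_one i9 i219 c19768) (k_one i9 i274 c7200) (k_one i219 i274 c17312.symm)
  have q30115 : Rl [t392, 1, 1, 1, 1] := q30114.del1
  have q30116 : Rl [1, t392, 1, 1, 1] := q30115.mv 1 rfl
  have q30117 : Rl [t392, 1, 1, 1] := q30116.del1
  have q30118 : Rl [1, t392, 1, 1] := q30117.mv 1 rfl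
  have q30119 : Rl [t392, 1, 1] := q30118.del1
  have q30120 : Rl [1, t392, 1] := q30119.mv 1 rfl
  have q30121 : Rl [t392, 1] := q30120.del1
  have q30122 : Rl [1, t392] := q30121.mv 1 rfl
  have q30123 : Rl [t392] := q30122.del1
  have e30124 := q30123.one
  have m30125 : 1 = t392 := e30124.symm
  subst m30125
  have c30126 := Lco i5 i219 b20384
  have q30127 : Rl [t136, t315, t315, t422, 1, 1] := LJ H i2 i10 i27 b34 b634 b2312 b2263 (Lsw H i59 i10 b19978) (Lsw H i15 i27 b5961) b20414 (k_one i15 i84 c2226) (k_one i59 i84 c2244.symm)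
  have q30128 : Rl [1, t136, t315, t315, t422, 1] := q30127.mv 4 rfl
  have q30129 : Rl [t136, t315, t315, t422, 1] := q30128.del1
  have q30130 : Rl [1, t136, t315, t315, t422] := q30129.mv 4 rfl
  have q30131 : Rl [t136, t315, t315, t422] := q30130.del1
  have q30132 : Rl [t315, t136, t315, t422] := q30131.mv 2 rfl
  have q30133 : Rl [t315, t315, t136, t422] := q30132.mv 2 rfl
  have q30134 : Rl [t136, t422] := q30133.del2
  have e30135 := q30134.two
  have m30136 : t136 = t422 := e30135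
  subst m30136
  have q30137 : Rl [t241, t271, t315, t378, 1, 1] := LJ H i3 i5 i72 b8 b2271 b2287 b5869 b5907 (Lsw H i10 i72 b5943) b22308 (k_one i10 i160 c19600.symm) (k_one i144 i160 c16084.symm)
  have q30138 : Rl [1, t241, t271, t315, t378, 1] := q30137.mv 4 rfl
  have q30139 : Rl [t241, t271, t315, t378, 1] := q30138.del1
  have q30140 : Rl [1, t241, t271, t315, t378] := q30139.mv 4 rfl
  have q30141 : Rl [t241, t271, t315, t378] := q30140.del1
  have q30147 : Rl [1, t393, 1, 1, 1, 1] := LJ H i3 i5 i139 b8 b5865 b5906 (k_one i3 i274 c8886.symm) b20385 (k_one i139 i10 c19354) (k_one i10 i237 c19804) (k_one i10 i274 c7800) (k_one i237 i274 c17418.symm)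
  have q30148 : Rl [t393, 1, 1, 1, 1] := q30147.del1
  have q30149 : Rl [1, t393, 1, 1, 1] := q30148.mv 1 rfl
  have q30150 : Rl [t393, 1, 1, 1] := q30149.del1
  have q30151 : Rl [1, t393, 1, 1] := q30150.mv 1 rfl
  have q30152 : Rl [t393, 1, 1] := q30151.del1
  have q30153 : Rl [1, t393, 1] := q30152.mv 1 rfl
  have q30154 : Rl [t393, 1] := q30153.del1
  have q30155 : Rl [1, t393] := q30154.mv 1 rfl
  have q30156 : Rl [t393] := q30155.del1
  have e30157 := q30156.one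
  have m30158 : 1 = t393 := e30157.symm
  subst m30158
  have c30159 := Lco i5 i237 b20385
  have q30160 : Rl [t146, t305, t305, t426, 1, 1] := LJ H i3 i9 i25 b37 b644 b2306 b2273 b5933 b18153 b20418 (k_one i18 i76 c2225) (k_one i62 i76 c2243.symm)
  have q30161 : Rl [1, t146, t305, t305, t426, 1] := q30160.mv 4 rfl
  have q30162 : Rl [t146, t305, t305, t426, 1] := q30161.del1
  have q30163 : Rl [1, t146, t305, t305, t426] := q30162.mv 4 rfl
  have q30164 : Rl [t146, t305, t305, t426] := q30163.del1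
  have q30165 : Rl [t305, t146, t305, t426] := q30164.mv 2 rfl
  have q30166 : Rl [t305, t305, t146, t426] := q30165.mv 2 rfl
  have q30167 : Rl [t146, t426] := q30166.del2
  have e30168 := q30167.two
  have m30169 : t146 = t426 := e30168
  subst m30169
  have q30170 : Rl [t258, t276, t319, t386, 1, 1] := LJ H i4 i5 i62 b9 b2278 b2285 b5886 (Lsw H i151 i5 b14839) (Lsw H i11 i62 b5948) b23058 (k_one i11 i158 c19456.symm) (k_one i151 i158 c16668.symm)
  have q30171 : Rl [1, t258, t276, t319, t386, 1] := q30170.mv 4 rfl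
  have q30172 : Rl [t258, t276, t319, t386, 1] := q30171.del1
  have q30173 : Rl [1, t258, t276, t319, t386] := q30172.mv 4 rfl
  have q30174 : Rl [t258, t276, t319, t386] := q30173.del1
  have q30175 : Rl [t153, t296, t296, t388, 1, 1] := LJ H i4 i7 i24 b39 b651 b2296 b2280 b5924 (Lsw H i20 i24 b5978) (Lsw H i72 i20 b27162) (k_one i20 i66 c2222) (k_one i72 i66 c2245.symm)
  have q30176 : Rl [1, t153, t296, t296, t388, 1] := q30175.mv 4 rfl
  have q30177 : Rl [t153, t296, t296, t388, 1] := q30176.del1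
  have q30178 : Rl [1, t153, t296, t296, t388] := q30177.mv 4 rfl
  have q30179 : Rl [t153, t296, t296, t388] := q30178.del1
  have q30180 : Rl [t296, t153, t296, t388] := q30179.mv 2 rfl
  have q30181 : Rl [t296, t296, t153, t388] := q30180.mv 2 rfl
  have q30182 : Rl [t153, t388] := q30181.del2
  have e30183 := q30182.two
  have m30184 : t153 = t388 := e30183
  subst m30184
  have q30185 : Rl [t257, t276, t319, t390, 1, 1] := LJ H i4 i9 i27 (Lsw H i9 i4 b118) (Lsw H i27 i4 b1821) b2307 b5892 b5937 (Lsw H i16 i27 b5968) b20417 (k_one i16 i180 c16703.symm) (k_one i83 i180 c15811.symm)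
  have q30186 : Rl [1, t257, t276, t319, t390, 1] := q30185.mv 4 rfl
  have q30187 : Rl [t257, t276, t319, t390, 1] := q30186.del1
  have q30188 : Rl [1, t257, t276, t319, t390] := q30187.mv 4 rfl
  have q30189 : Rl [t257, t276, t319, t390] := q30188.del1
  have q30190 : Rl [t161, t168, t161, 1, t397, 1] := LJ H i5 i6 i15 b41 b147 b667 b2288 b2295 b2326 (k_one i22 i47 c455) b20426 (k_one i47 i73 c1032)
  have q30191 : Rl [1, t161, t168, t161, t397, 1] := q30190.mv 3 rfl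
  have q30192 : Rl [t161, t168, t161, t397, 1] := q30191.del1
  have q30193 : Rl [1, t161, t168, t161, t397] := q30192.mv 4 rfl
  have q30194 : Rl [t161, t168, t161, t397] := q30193.del1
  have q30195 : Rl [t161, t161, t168, t397] := q30194.mv 2 rfl
  have q30196 : Rl [t161, t161, t168, t397] := q30195.mv 1 rfl
  have q30197 : Rl [t168, t397] := q30196.del2
  have e30198 := q30197.two
  have m30199 : t168 = t397 := e30198
  subst m30199
  have q30200 : Rl [t159, t178, t159, 1, t438, 1] := LJ H i5 i8 i13 b42 b146 b674 b2286 b2305 b2324 (k_one i23 i46 c441) b20430 (k_one i46 i65 c926)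
  have q30201 : Rl [1, t159, t178, t159, t438, 1] := q30200.mv 3 rfl
  have q30202 : Rl [t159, t178, t159, t438, 1] := q30201.del1
  have q30203 : Rl [1, t159, t178, t159, t438] := q30202.mv 4 rfl
  have q30204 : Rl [t159, t178, t159, t438] := q30203.del1
  have q30205 : Rl [t159, t159, t178, t438] := q30204.mv 2 rfl
  have q30206 : Rl [t159, t159, t178, t438] := q30205.mv 1 rfl
  have q30207 : Rl [t178, t438] := q30206.del2
  have e30208 := q30207.two
  have m30209 : t178 = t438 := e30208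
  subst m30209
  have q30212 : Rl [t26, t24, t30, t67, t77, t66] := q4904.mv 1 rfl
  have q30213 : Rl [t24, t26, t30, t67, t77, t66] := q30212.mv 1 rfl
  have e30214 := (Rl.l2 H i24 i26 i28 q30213 (.cons c492.symm (.cons c5803 (.cons c5804 (.cons c1594.symm .nil)))) b26047).symm.trans (Lsw H i28 i26 b20735)
  have m30215 : t361 = t364 := e30214
  subst m30215
  have q30228 : Rl [t39, t27, t40, t63, t83, t84] := q4883.mv 1 rfl
  have q30229 : Rl [t27, t39, t40, t63, t83, t84] := q30228.mv 1 rfl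
  have b30230 := Rl.l2 H i27 i39 i56 q30229 (.cons c421 (.cons c5792 (.cons c5801 (.cons c1599.symm .nil)))) b27069
  have q30234 : Rl [t38, t33, t45, t71, t80, t91] := q5576.mv 1 rfl
  have q30235 : Rl [t33, t38, t45, t71, t80, t91] := q30234.mv 1 rfl
  have e30236 := (Rl.l2 H i33 i38 i41 q30235 (.cons c494.symm (.cons c5805 (.cons c5806 (.cons c1595.symm .nil)))) b27066).symm.trans (Lsw H i41 i38 b22741)
  have m30237 : t386 = t390 := e30236
  subst m30237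
  have q30242 : Rl [t81, t72, t88, t134, t144, t153] := q30096.mv 1 rfl
  have q30243 : Rl [t72, t81, t88, t134, t144, t153] := q30242.mv 1 rfl
  have e30244 := (Rl.l2 H i72 i81 i22 q30243 (.cons c5351.symm (.cons c17635.symm (.cons c17639.symm (.cons c4470 .nil)))) (Lsw H i22 i72 b20425)).symm.trans (Lsw H i22 i81 b20427)
  have m30245 : t433 = t435 := e30244
  subst m30245
  have q30246 : Rl [t82, t73, t103, t140, t145, t168] := q30097.mv 1 rfl
  have q30247 : Rl [t73, t82, t103, t140, t145, t168] := q30246.mv 1 rfl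
  have b30248 := Rl.l2 H i73 i82 i20 q30247 (.cons c5522 (.cons c17597 (.cons c17598 (.cons c14973 .nil)))) (Lsw H i20 i73 b20423)
  have q30251 : Rl [t292, t127, t255, t394, t254] := q30051.mv 2 rfl
  have q30252 : Rl [t255, t292, t127, t394, t254] := q30251.mv 2 rfl
  have e30253 := (Rl.l2 H i255 i292 i1 q30252 (.cons c2344 (.cons c20636.symm (.cons c8231 .nil))) (Lsw H i1 i255 b20349)).symm.trans (Lsw H i1 i292 b20355)
  have m30254 : t357 = t363 := e30253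
  subst m30254
  have q30255 : Rl [t292, t127, t255, t394, t254] := q30051.mv 2 rfl
  have c30256 := q30255.l1 (.cons c3518.symm (.cons c9608 (.cons c24498 (.cons c9600 .nil))))
  have q30415 : Rl [t195, t129, t189, t207] := q18901.mv 2 rfl
  have q30416 : Rl [t189, t195, t129, t207] := q30415.mv 2 rfl
  have e30417 := (Rl.l2 H i189 i195 i8 q30416 (.cons c2593.symm (.cons c9740 .nil)) (Lsw H i8 i189 b20402)).symm.trans (Lsw H i8 i195 b20404)
  have m30418 : t410 = t412 := e30417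
  subst m30418
  have q30419 : Rl [t196, t129, t190, t207] := q18906.mv 2 rfl
  have q30420 : Rl [t190, t196, t129, t207] := q30419.mv 2 rfl
  have e30421 := (Rl.l2 H i190 i196 i8 q30420 (.cons c2593.symm (.cons c9740 .nil)) (Lsw H i8 i190 b20403)).symm.trans (Lsw H i8 i196 b20405)
  have m30422 : t411 = t413 := e30421
  subst m30422
  have q30423 : Rl [t303, t136, t237, t404, t236] := q30103.mv 2 rfl
  have q30424 : Rl [t237, t303, t136, t404, t236] := q30423.mv 2 rfl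
  have b30425 := Rl.l2 H i237 i303 i2 q30424 (.cons c2362 (.cons c21409.symm (.cons c7686 .nil))) (Lsw H i2 i237 b20358)
  have q30426 : Rl [t404, t136, t237, t303, t236] := q30103.mv 3 rfl
  have c30427 := q30426.l1 (.cons c16457.symm (.cons c30159.symm (.cons c14859 (.cons c9061 .nil))))
  have q30430 : Rl [t303, t136, t237, t404, t236] := q30103.mv 2 rfl
  have c30431 := q30430.l1 (.cons c3510.symm (.cons c10093 (.cons c25536 (.cons c10086 .nil))))
  have q30572 : Rl [t182, t139, t160, t221, t274] := q16435.mv 2 rfl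
  have q30573 : Rl [t160, t182, t139, t221, t274] := q30572.mv 2 rfl
  have b30574 := Rl.l2 H i160 i182 i6 q30573 (.cons c2808.symm (.cons c14974 (.cons c17216 .nil))) (Lsw H i6 i160 b20388)
  have q30577 : Rl [t198, t139, t186, t221] := q18919.mv 2 rfl
  have q30578 : Rl [t186, t198, t139, t221] := q30577.mv 2 rfl
  have e30579 := (Rl.l2 H i186 i198 i6 q30578 (.cons c2808.symm (.cons c14974 .nil)) (Lsw H i6 i186 b20391)).symm.trans (Lsw H i6 i198 b20392)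
  have m30580 : t399 = t400 := e30579
  subst m30580
  have q30581 : Rl [t302, t219, t146, t218, t405] := q30100.mv 2 rfl
  have q30582 : Rl [t219, t302, t146, t218, t405] := q30581.mv 1 rfl
  have e30583 := (Rl.l2 H i219 i302 i3 q30582 (.cons c2382 (.cons c7069 (.cons c22002.symm .nil))) (Lsw H i3 i219 b20365)).symm.trans (Lsw H i3 i302 b20371)
  have m30584 : t373 = t379 := e30583
  subst m30584
  have q30585 : Rl [t405, t219, t146, t302, t218] := q30100.mv 4 rfl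
  have c30586 := q30585.l1 (.cons c30126.symm (.cons c16458.symm (.cons c14856 (.cons c9060 .nil))))
  have q30589 : Rl [t302, t219, t146, t218, t405] := q30100.mv 2 rfl
  have c30590 := q30589.l1 (.cons c10401 (.cons c3482.symm (.cons c10394 (.cons c25796 .nil))))
  have q30725 : Rl [t186, t148, t162, t239, t274] := q16441.mv 2 rfl
  have q30726 : Rl [t162, t186, t148, t239, t274] := q30725.mv 2 rfl
  have e30727 := (Rl.l2 H i162 i186 i6 q30726 (.cons c3027.symm (.cons c14975 (.cons c17216 .nil))) (Lsw H i6 i162 b20390)).symm.trans (Lsw H i6 i186 b20391)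
  have m30728 : t398 = t399 := e30727
  subst m30728
  have q30729 : Rl [t200, t148, t182, t239] := q18939.mv 2 rfl
  have q30730 : Rl [t182, t200, t148, t239] := q30729.mv 2 rfl
  have e30731 := (Rl.l2 H i182 i200 i6 q30730 (.cons c3027.symm (.cons c14975 .nil)) b30574).symm.trans (Lsw H i6 i200 b20393)
  have m30732 : t396 = t401 := e30731
  subst m30732
  have q30733 : Rl [t291, t206, t153, t205, t395] := q30048.mv 2 rfl
  have q30734 : Rl [t206, t291, t153, t205, t395] := q30733.mv 1 rfl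
  have e30735 := (Rl.l2 H i206 i291 i4 q30734 (.cons c2396 (.cons c6540 (.cons c22625.symm .nil))) (Lsw H i4 i206 b20373)).symm.trans (Lsw H i4 i291 b20379)
  have m30736 : t381 = t387 := e30735
  subst m30736
  have q30737 : Rl [t395, t206, t153, t291, t205] := q30048.mv 4 rfl
  have c30738 := q30737.l1 (.cons c30074.symm (.cons c16476.symm (.cons c14853 (.cons c14835 .nil))))
  have q30875 : Rl [t189, t155, t160, t259, t274] := q16444.mv 2 rfl
  have q30876 : Rl [t160, t189, t155, t259, t274] := q30875.mv 2 rfl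
  have e30877 := (Rl.l2 H i160 i189 i8 q30876 (.cons c3227.symm (.cons c15123 (.cons c17311 .nil))) (Lsw H i8 i160 b20400)).symm.trans (Lsw H i8 i189 b20402)
  have m30878 : t408 = t410 := e30877
  subst m30878
  have q30881 : Rl [t190, t155, t162, t259, t274] := q18942.mv 2 rfl
  have q30882 : Rl [t162, t190, t155, t259, t274] := q30881.mv 2 rfl
  have e30883 := (Rl.l2 H i162 i190 i8 q30882 (.cons c3227.symm (.cons c15123 (.cons c17311 .nil))) (Lsw H i8 i162 b20401)).symm.trans (Lsw H i8 i190 b20403)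
  have m30884 : t409 = t411 := e30883
  subst m30884
  have q31053 : Rl [t305, t225, t269, t370] := q30108.mv 2 rfl
  have q31054 : Rl [t269, t305, t225, t370] := q31053.mv 2 rfl
  have b31055 := Rl.l2 H i269 i305 i2 q31054 (.cons c6029 (.cons c20459 .nil)) (Lsw H i2 i269 b20362)
  have q31129 : Rl [t315, t241, t271, t378] := q30141.mv 2 rfl
  have q31130 : Rl [t271, t315, t241, t378] := q31129.mv 2 rfl
  have b31131 := Rl.l2 H i271 i315 i3 q31130 (.cons c6061 (.cons c20475 .nil)) (Lsw H i3 i271 b20370)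
  have q31190 : Rl [t208, t270, t296, t361, t210, t270, t296, t361] := q30079.add q30056 (.cons (.cons c13383.symm (.cons c15604.symm (.cons c15038.symm (.cons c21143.symm .nil)))) (.cons (.cons c19870 (.cons (Commute.refl _) (.cons c15843 (.cons c20442 .nil)))) (.cons (.cons c18105 (.cons c15843.symm (.cons (Commute.refl _) (.cons c24629.symm .nil)))) (.cons (.cons c21154 (.cons c20442.symm (.cons c24629 (.cons (Commute.refl _) .nil)))) .nil))))
  have q31191 : Rl [t270, t208, t270, t296, t361, t210, t296, t361] := q31190.mv 5 rfl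
  have q31192 : Rl [t270, t270, t208, t296, t361, t210, t296, t361] := q31191.mv 2 rfl
  have q31193 : Rl [t208, t296, t361, t210, t296, t361] := q31192.del2
  have q31194 : Rl [t296, t208, t296, t361, t210, t361] := q31193.mv 4 rfl
  have q31195 : Rl [t296, t296, t208, t361, t210, t361] := q31194.mv 2 rfl
  have q31196 : Rl [t208, t361, t210, t361] := q31195.del2
  have q31197 : Rl [t361, t208, t361, t210] := q31196.mv 3 rfl
  have q31198 : Rl [t361, t361, t208, t210] := q31197.mv 2 rfl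
  have q31199 : Rl [t208, t210] := q31198.del2
  have e31200 := q31199.two
  have m31201 : t208 = t210 := e31200
  subst m31201
  have q31202 : Rl [t257, t276, t319, t386, t258, t276, t319, t386] := q30189.add q30174 (.cons (.cons c13343.symm (.cons c15211.symm (.cons c15389.symm (.cons c23314.symm .nil)))) (.cons (.cons c18714 (.cons (Commute.refl _) (.cons c15969 (.cons c20492 .nil)))) (.cons (.cons c15582 (.cons c15969.symm (.cons (Commute.refl _) (.cons c27150.symm .nil)))) (.cons (.cons c23320 (.cons c20492.symm (.cons c27150 (.cons (Commute.refl _) .nil)))) .nil))))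
  have q31203 : Rl [t276, t257, t276, t319, t386, t258, t319, t386] := q31202.mv 5 rfl
  have q31204 : Rl [t276, t276, t257, t319, t386, t258, t319, t386] := q31203.mv 2 rfl
  have q31205 : Rl [t257, t319, t386, t258, t319, t386] := q31204.del2
  have q31206 : Rl [t319, t257, t319, t386, t258, t386] := q31205.mv 4 rfl
  have q31207 : Rl [t319, t319, t257, t386, t258, t386] := q31206.mv 2 rfl
  have q31208 : Rl [t257, t386, t258, t386] := q31207.del2
  have q31209 : Rl [t386, t257, t386, t258] := q31208.mv 3 rfl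
  have q31210 : Rl [t386, t386, t257, t258] := q31209.mv 2 rfl
  have q31211 : Rl [t257, t258] := q31210.del2
  have e31212 := q31211.two
  have m31213 : t257 = t258 := e31212
  subst m31213
  have e31215 := (LP1 H i1 i6 i96 c10.symm b2256 b5920 (Lsw H i6 i129 b20386)).symm.trans (Lsw H i1 i292 b20355)
  have m31216 : t357 = t394 := e31215.symm
  subst m31216
  have b31217 := LP1 H i6 i1 i161 c10 b20389 b5837 b13637
  have e31224 := (LP1 H i1 i135 i5 c2512 b5 (Lsw H i5 i135 b5904) b20395).symm.trans (Lsw H i1 i276 b20354)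
  have m31225 : t362 = t403 := e31224.symm
  subst m31225
  have b31226 := LP1 H i1 i209 i4 c5997.symm b4 (Lsw H i4 i209 b20376) (Lsw H i209 i6 b31217)
  have e31323 := (LP1 H i2 i8 i95 c14.symm b2266 b5931 (Lsw H i8 i139 b20396)).symm.trans b30425
  have m31324 : t366 = t404 := e31323.symm
  subst m31324
  have b31325 := LP1 H i9 i2 i62 c16 b5933 b2258 b31055
  have b31327 := LP1 H i2 i15 i27 c49.symm b634 b5961 (Lsw H i15 i59 b20414)
  have b31329 := LP1 H i24 i2 i19 c235.symm (Lsw H i19 i24 b5975) b133 b31327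
  have e31331 := (LP1 H i2 i123 i5 c2510 b7 (Lsw H i5 i123 b5899) b20406).symm.trans (Lsw H i2 i271 b20363)
  have m31332 : t371 = t414 := e31331.symm
  subst m31332
  have e31391 := (LP1 H i3 i8 i93 c15.symm b2275 b5930 (Lsw H i8 i148 b20397)).symm.trans (Lsw H i3 i302 b20371)
  have m31392 : t373 = t405 := e31391.symm
  subst m31392
  have b31393 := LP1 H i10 i3 i59 c18 (Lsw H i59 i10 b19978) b2268 b31131
  have b31395 := LP1 H i3 i18 i25 c55.symm b644 (Lsw H i25 i18 b18153) (Lsw H i18 i62 b20418)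
  have b31397 := LP1 H i26 i3 i16 c246.symm (Lsw H i16 i26 b15149) b138 b31395
  have e31400 := (LP1 H i3 i120 i5 c2532 b8 (Lsw H i5 i120 b5897) b20409).symm.trans (Lsw H i3 i269 b20369)
  have m31401 : t377 = t417 := e31400.symm
  subst m31401
  have e31444 := (LP1 H i4 i6 i92 c11.symm b2282 b5919 (Lsw H i6 i155 b20387)).symm.trans (Lsw H i4 i291 b20379)
  have m31445 : t381 = t395 := e31444.symm
  subst m31445
  have b31446 := LP1 H i6 i4 i161 c11 b20389 b5888 (Lsw H i4 i168 b5890)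
  have b31455 := LP1 H i4 i260 i1 c6099.symm (Lsw H i1 i4 b4) (Lsw H i1 i260 b20352) (Lsw H i260 i6 b31446)
  have c31486 := Lco i357 i5 (LP1 H i5 i292 i1 c14863.symm (Lsw H i1 i5 b5) (Lsw H i1 i292 b20355) (k_one i7 i292 c30256.symm))
  have e31564 := (LP1 H i6 i20 i15 c77 b667 (Lsw H i15 i20 b2325) (Lsw H i20 i73 b20423)).symm.trans (Lsw H i6 i198 b20392)
  have m31565 : t398 = t431 := e31564.symm
  subst m31565
  have e31566 := (LP1 H i6 i20 i18 c77 (Lsw H i18 i6 b1828) (Lsw H i18 i20 b2327) b30248).symm.trans (Lsw H i6 i200 b20393)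
  have m31567 : t396 = t398 := e31566.symm
  subst m31567
  have e31574 := (LP1 H i6 i72 i5 c960 (Lsw H i5 i6 b41) (Lsw H i5 i72 b2287) b20425).symm.trans (Lsw H i6 i160 b20388)
  have m31575 : t396 = t433 := e31574.symm
  subst m31575
  have e31620 := (LP1 H i8 i15 i13 c96 b674 (Lsw H i13 i15 b2322) (Lsw H i15 i65 b20416)).symm.trans (Lsw H i8 i195 b20404)
  have m31621 : t408 = t424 := e31620.symm
  subst m31621
  have e31623 := (LP1 H i8 i18 i13 c86 b674 (Lsw H i13 i18 b2323) (Lsw H i18 i65 b20419)).symm.trans (Lsw H i8 i196 b20405)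
  have m31624 : t409 = t427 := e31623.symm
  subst m31624
  have b31626 := LP1 H i8 i23 i13 c66.symm b674 (Lsw H i13 i23 b2324) (Lsw H i23 i65 b20430)
  have b31633 := LP1 H i59 i8 i5 c873.symm (Lsw H i5 i59 b2284) (Lsw H i5 i8 b42) (Lsw H i8 i157 b20398)
  have e31634 := (LP1 H i8 i62 i5 c874 (Lsw H i5 i8 b42) (Lsw H i5 i62 b2285) b20429).symm.trans (Lsw H i8 i158 b20399)
  have m31635 : t407 = t437 := e31634.symm
  subst m31635
  have e31636 := (LP1 H i8 i72 i5 c1119 (Lsw H i5 i8 b42) (Lsw H i5 i72 b2287) b20431).symm.trans (Lsw H i8 i160 b20400)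
  have m31637 : t408 = t439 := e31636.symm
  subst m31637
  have e31638 := (LP1 H i8 i81 i5 c1014 (Lsw H i5 i8 b42) (Lsw H i5 i81 b2289) b20432).symm.trans (Lsw H i8 i162 b20401)
  have m31639 : t409 = t440 := e31638.symm
  subst m31639
  have c31699 := Lck c30431 c9810.symm b20406
  have c31739 := Lck c30590 c9803.symm b20409
  have b31808 := LP1 H i38 i15 i1 c1943.symm (Lsw H i1 i38 b628) (Lsw H i1 i15 b124) (Lsw H i15 i62 b20415)
  have e31834 := (LP1 H i24 i18 i4 c1939.symm (Lsw H i4 i24 b651) (Lsw H i4 i18 b143) (Lsw H i18 i72 b20420)).symm.trans (Lsw H i24 i38 b31808)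
  have m31835 : t423 = t428 := e31834.symm
  subst m31835
  have q31911 : Rl [t59, t72, t73, t121, t135, t136] := LJ H i1 i4 i15 b4 b124 b142 b625 b651 (Lsw H i6 i15 b667) (Lsw H i24 i6 b5006) b2292 (Lsw H i33 i24 b31329)
  have q31912 : Rl [t62, t81, t82, t124, t151, t146] := LJ H i1 i4 i18 b4 b126 b143 b628 b653 b1828 (Lsw H i26 i6 b5007) b2293 (Lsw H i38 i26 b31397)
  have q31917 : Rl [t222, t269, t305, t370, 1, 1] := LJ H i2 i5 i62 b7 b2258 b2285 b5850 b5897 (Lsw H i9 i62 b5933) (Lsw H i120 i9 b31325) (k_one i9 i158 c16630.symm) (k_one i120 i158 c16654.symm)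
  have q31918 : Rl [1, t222, t269, t305, t370, 1] := q31917.mv 4 rfl
  have q31919 : Rl [t222, t269, t305, t370, 1] := q31918.del1
  have q31920 : Rl [1, t222, t269, t305, t370] := q31919.mv 4 rfl
  have q31921 : Rl [t222, t269, t305, t370] := q31920.del1
  have q31922 : Rl [t238, t271, t315, t378, 1, 1] := LJ H i3 i5 i59 b8 b2268 b2284 b5866 b5899 b19978 (Lsw H i123 i10 b31393) (k_one i10 i157 c19053.symm) (k_one i123 i157 c16579.symm)
  have q31923 : Rl [1, t238, t271, t315, t378, 1] := q31922.mv 4 rfl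
  have q31924 : Rl [t238, t271, t315, t378, 1] := q31923.del1
  have q31925 : Rl [1, t238, t271, t315, t378] := q31924.mv 4 rfl
  have q31926 : Rl [t238, t271, t315, t378] := q31925.del1
  have q31929 : Rl [t72, t59, t73, t121, t135, t136] := q31911.mv 1 rfl
  have q31930 : Rl [t59, t72, t73, t121, t135, t136] := q31929.mv 1 rfl
  have e31931 := (Rl.l2 H i59 i72 i23 q31930 (.cons c5409.symm (.cons c17748.symm (.cons c15127.symm (.cons c4487 .nil)))) (Lsw H i23 i59 b31633)).symm.trans (Lsw H i23 i72 b20431)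
  have m31932 : t406 = t408 := e31931
  subst m31932
  have q31933 : Rl [t81, t62, t82, t124, t151, t146] := q31912.mv 1 rfl
  have q31934 : Rl [t62, t81, t82, t124, t151, t146] := q31933.mv 1 rfl
  have b31935 := Rl.l2 H i62 i81 i15 q31934 (.cons c5582.symm (.cons c16489.symm (.cons c16492.symm (.cons c4335 .nil)))) (Lsw H i15 i62 b20415)
  have q31936 : Rl [t81, t62, t82, t124, t151, t146] := q31912.mv 1 rfl
  have q31937 : Rl [t62, t81, t82, t124, t151, t146] := q31936.mv 1 rfl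
  have e31938 := (Rl.l2 H i62 i81 i23 q31937 (.cons c5410.symm (.cons c15126.symm (.cons c15128.symm (.cons c4485 .nil)))) (Lsw H i23 i62 b20429)).symm.trans (Lsw H i23 i81 b20432)
  have m31939 : t407 = t409 := e31938
  subst m31939
  have q31940 : Rl [t255, t127, t292, t357, t254] := q30051.mv 1 rfl
  have c31941 := q31940.l1 (.cons c16475.symm (.cons c14863 (.cons c31486 (.cons c9050 .nil))))
  have q31967 : Rl [t222, t269, t305, t370, t225, t269, t305, t370] := q31921.add q30108 (.cons (.cons c13356.symm (.cons c15042.symm (.cons c15190.symm (.cons c21841.symm .nil)))) (.cons (.cons c18671 (.cons (Commute.refl _) (.cons c17839.symm (.cons c20460 .nil)))) (.cons (.cons c18107 (.cons c17839 (.cons (Commute.refl _) (.cons c25700.symm .nil)))) (.cons (.cons c21850 (.cons c20460.symm (.cons c25700 (.cons (Commute.refl _) .nil)))) .nil))))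
  have q31968 : Rl [t269, t222, t269, t305, t370, t225, t305, t370] := q31967.mv 5 rfl
  have q31969 : Rl [t269, t269, t222, t305, t370, t225, t305, t370] := q31968.mv 2 rfl
  have q31970 : Rl [t222, t305, t370, t225, t305, t370] := q31969.del2
  have q31971 : Rl [t305, t222, t305, t370, t225, t370] := q31970.mv 4 rfl
  have q31972 : Rl [t305, t305, t222, t370, t225, t370] := q31971.mv 2 rfl
  have q31973 : Rl [t222, t370, t225, t370] := q31972.del2
  have q31974 : Rl [t370, t222, t370, t225] := q31973.mv 3 rfl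
  have q31975 : Rl [t370, t370, t222, t225] := q31974.mv 2 rfl
  have q31976 : Rl [t222, t225] := q31975.del2
  have e31977 := q31976.two
  have m31978 : t222 = t225 := e31977
  subst m31978
  have q31979 : Rl [t238, t271, t315, t378, t241, t271, t315, t378] := q31926.add q30141 (.cons (.cons c13348.symm (.cons c15053.symm (.cons c15655.symm (.cons c22490.symm .nil)))) (.cons (.cons c18699 (.cons (Commute.refl _) (.cons c18435.symm (.cons c20476 .nil)))) (.cons (.cons c17893 (.cons c18435 (.cons (Commute.refl _) (.cons c28112.symm .nil)))) (.cons (.cons c22508 (.cons c20476.symm (.cons c28112 (.cons (Commute.refl _) .nil)))) .nil))))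
  have q31980 : Rl [t271, t238, t271, t315, t378, t241, t315, t378] := q31979.mv 5 rfl
  have q31981 : Rl [t271, t271, t238, t315, t378, t241, t315, t378] := q31980.mv 2 rfl
  have q31982 : Rl [t238, t315, t378, t241, t315, t378] := q31981.del2
  have q31983 : Rl [t315, t238, t315, t378, t241, t378] := q31982.mv 4 rfl
  have q31984 : Rl [t315, t315, t238, t378, t241, t378] := q31983.mv 2 rfl
  have q31985 : Rl [t238, t378, t241, t378] := q31984.del2
  have q31986 : Rl [t378, t238, t378, t241] := q31985.mv 3 rfl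
  have q31987 : Rl [t378, t378, t238, t241] := q31986.mv 2 rfl
  have q31988 : Rl [t238, t241] := q31987.del2
  have e31989 := q31988.two
  have m31990 : t238 = t241 := e31989
  subst m31990
  have b31991 := LP1 H i8 i2 i159 c14 (Lsw H i159 i8 b31626) b5851 (Lsw H i2 i178 b5856)
  have b31992 := LP1 H i2 i223 i3 c6025.symm b6 (Lsw H i3 i223 b20368) (Lsw H i223 i8 b31991)
  have b31993 := LP1 H i8 i3 i159 c15 (Lsw H i159 i8 b31626) b5868 (Lsw H i3 i178 b5873)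
  have b31994 := LP1 H i3 i240 i2 c6059.symm (Lsw H i2 i3 b6) (Lsw H i2 i240 b20361) (Lsw H i240 i8 b31993)
  obtain ⟨t441, b32016⟩ : ∃ t, k a t382 = t := ⟨_, rfl⟩
  have i441 := Linv H i1 i382 b32016
  obtain ⟨t442, b32017⟩ : ∃ t, k a t383 = t := ⟨_, rfl⟩
  have i442 := Linv H i1 i383 b32017
  obtain ⟨t443, b32018⟩ : ∃ t, k a t385 = t := ⟨_, rfl⟩
  have i443 := Linv H i1 i385 b32018
  obtain ⟨t444, b32019⟩ : ∃ t, k a t386 = t := ⟨_, rfl⟩
  have i444 := Linv H i1 i386 b32019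
  obtain ⟨t445, b32020⟩ : ∃ t, k a t389 = t := ⟨_, rfl⟩
  have i445 := Linv H i1 i389 b32020
  obtain ⟨t446, b32021⟩ : ∃ t, k a t396 = t := ⟨_, rfl⟩
  have i446 := Linv H i1 i396 b32021
  obtain ⟨t447, b32022⟩ : ∃ t, k b t374 = t := ⟨_, rfl⟩
  have i447 := Linv H i2 i374 b32022
  obtain ⟨t448, b32023⟩ : ∃ t, k b t375 = t := ⟨_, rfl⟩
  have i448 := Linv H i2 i375 b32023
  obtain ⟨t449, b32024⟩ : ∃ t, k b t377 = t := ⟨_, rfl⟩
  have i449 := Linv H i2 i377 b32024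
  obtain ⟨t450, b32025⟩ : ∃ t, k b t378 = t := ⟨_, rfl⟩
  have i450 := Linv H i2 i378 b32025
  obtain ⟨t451, b32026⟩ : ∃ t, k b t406 = t := ⟨_, rfl⟩
  have i451 := Linv H i2 i406 b32026
  obtain ⟨t452, b32027⟩ : ∃ t, k b t407 = t := ⟨_, rfl⟩
  have i452 := Linv H i2 i407 b32027
  obtain ⟨t453, b32028⟩ : ∃ t, k b t423 = t := ⟨_, rfl⟩
  have i453 := Linv H i2 i423 b32028
  obtain ⟨t454, b32029⟩ : ∃ t, k c t367 = t := ⟨_, rfl⟩
  have i454 := Linv H i3 i367 b32029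
  obtain ⟨t455, b32030⟩ : ∃ t, k c t368 = t := ⟨_, rfl⟩
  have i455 := Linv H i3 i368 b32030
  obtain ⟨t456, b32031⟩ : ∃ t, k c t370 = t := ⟨_, rfl⟩
  have i456 := Linv H i3 i370 b32031
  obtain ⟨t457, b32032⟩ : ∃ t, k c t371 = t := ⟨_, rfl⟩
  have i457 := Linv H i3 i371 b32032
  obtain ⟨t458, b32033⟩ : ∃ t, k c t372 = t := ⟨_, rfl⟩
  have i458 := Linv H i3 i372 b32033
  obtain ⟨t459, b32034⟩ : ∃ t, k c t406 = t := ⟨_, rfl⟩
  have i459 := Linv H i3 i406 b32034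
  obtain ⟨t460, b32035⟩ : ∃ t, k c t407 = t := ⟨_, rfl⟩
  have i460 := Linv H i3 i407 b32035
  obtain ⟨t461, b32036⟩ : ∃ t, k c t423 = t := ⟨_, rfl⟩
  have i461 := Linv H i3 i423 b32036
  obtain ⟨t462, b32037⟩ : ∃ t, k d t358 = t := ⟨_, rfl⟩
  have i462 := Linv H i4 i358 b32037
  obtain ⟨t463, b32038⟩ : ∃ t, k d t359 = t := ⟨_, rfl⟩
  have i463 := Linv H i4 i359 b32038
  obtain ⟨t464, b32039⟩ : ∃ t, k d t361 = t := ⟨_, rfl⟩
  have i464 := Linv H i4 i361 b32039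
  obtain ⟨t465, b32040⟩ : ∃ t, k d t362 = t := ⟨_, rfl⟩
  have i465 := Linv H i4 i362 b32040
  obtain ⟨t466, b32041⟩ : ∃ t, k d t396 = t := ⟨_, rfl⟩
  have i466 := Linv H i4 i396 b32041
  obtain ⟨t467, b32042⟩ : ∃ t, k t6 t208 = t := ⟨_, rfl⟩
  have i467 := Linv H i6 i208 b32042
  obtain ⟨t468, b32043⟩ : ∃ t, k t6 t259 = t := ⟨_, rfl⟩
  have i468 := Linv H i6 i259 b32043
  obtain ⟨t469, b32044⟩ : ∃ t, k t6 t270 = t := ⟨_, rfl⟩
  have i469 := Linv H i6 i270 b32044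
  obtain ⟨t470, b32045⟩ : ∃ t, k t8 t222 = t := ⟨_, rfl⟩
  have i470 := Linv H i8 i222 b32045
  obtain ⟨t471, b32046⟩ : ∃ t, k t8 t238 = t := ⟨_, rfl⟩
  have i471 := Linv H i8 i238 b32046
  obtain ⟨t472, b32047⟩ : ∃ t, k t8 t239 = t := ⟨_, rfl⟩
  have i472 := Linv H i8 i239 b32047
  obtain ⟨t473, b32048⟩ : ∃ t, k t8 t269 = t := ⟨_, rfl⟩
  have i473 := Linv H i8 i269 b32048
  obtain ⟨t474, b32049⟩ : ∃ t, k t8 t271 = t := ⟨_, rfl⟩
  have i474 := Linv H i8 i271 b32049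
  obtain ⟨t475, b32050⟩ : ∃ t, k t8 t305 = t := ⟨_, rfl⟩
  have i475 := Linv H i8 i305 b32050
  obtain ⟨t476, b32051⟩ : ∃ t, k t13 t124 = t := ⟨_, rfl⟩
  have i476 := Linv H i13 i124 b32051
  obtain ⟨t477, b32052⟩ : ∃ t, k t15 t120 = t := ⟨_, rfl⟩
  have i477 := Linv H i15 i120 b32052
  obtain ⟨t478, b32053⟩ : ∃ t, k t15 t134 = t := ⟨_, rfl⟩
  have i478 := Linv H i15 i134 b32053
  obtain ⟨t479, b32054⟩ : ∃ t, k t15 t144 = t := ⟨_, rfl⟩
  have i479 := Linv H i15 i144 b32054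
  obtain ⟨t480, b32055⟩ : ∃ t, k t18 t123 = t := ⟨_, rfl⟩
  have i480 := Linv H i18 i123 b32055
  obtain ⟨t481, b32056⟩ : ∃ t, k t18 t134 = t := ⟨_, rfl⟩
  have i481 := Linv H i18 i134 b32056
  obtain ⟨t482, b32057⟩ : ∃ t, k t18 t144 = t := ⟨_, rfl⟩
  have i482 := Linv H i18 i144 b32057
  obtain ⟨t483, b32058⟩ : ∃ t, k t20 t124 = t := ⟨_, rfl⟩
  have i483 := Linv H i20 i124 b32058
  obtain ⟨t484, b32059⟩ : ∃ t, k t20 t135 = t := ⟨_, rfl⟩
  have i484 := Linv H i20 i135 b32059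
  obtain ⟨t485, b32060⟩ : ∃ t, k t22 t124 = t := ⟨_, rfl⟩
  have i485 := Linv H i22 i124 b32060
  obtain ⟨t486, b32061⟩ : ∃ t, k t23 t134 = t := ⟨_, rfl⟩
  have i486 := Linv H i23 i134 b32061
  have c32062 := Lkl H i1 i382 b32016
  have c32068 := Lkl H i1 i386 b32019
  have c32074 := Lkl H i2 i374 b32022
  have c32078 := Lkl H i2 i377 b32024
  have c32080 := Lkl H i2 i378 b32025
  have c32088 := Lkl H i3 i367 b32029
  have c32092 := Lkl H i3 i370 b32031
  have c32094 := Lkl H i3 i371 b32032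
  have c32104 := Lkl H i4 i358 b32037
  have c32106 := Lkl H i4 i359 b32038
  have c32108 := Lkl H i4 i361 b32039
  have c32110 := Lkl H i4 i362 b32040
  have c32154 := Lck hab c20618 b32022
  have c32157 := Lck hab c20627 b32025
  have c32158 := Lck hab.symm c21377 b32016
  have c32161 := Lck hab.symm c21387 b32019
  have c32167 := Lck hac c20602 b32029
  have c32169 := Lck hac c20609 b32031
  have c32172 := Lck hac.symm c21966 b32016
  have c32175 := Lck hac.symm c21976 b32019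
  have c32193 := Lck c10.symm c5995.symm b32042
  have e32398 := (LP1 H i124 i1 i11 c2338 (Lsw H i11 i124 b20411) b32 (Lsw H i1 i385 b32018)).symm.trans b32051
  have m32399 : t443 = t476 := e32398
  subst m32399
  have b32457 := LP1 H i151 i1 i11 c3258 (Lsw H i11 i151 b23058) b32 (Lsw H i1 i386 b32019)
  have c32506 := LP3 H i207 i1 i4 c5993 (Lsw H i4 i207 b20374) (Lsw H i1 i382 b32016)
  have c32513 := LP3 H i1 i208 i4 c5995.symm b4 b32042
  have c32801 := Lck hbd c20606 b32037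
  have c32802 := Lck hbd c20607 b32038
  have c32803 := Lck hbd c20610 b32039
  have c32805 := Lck hbd.symm c21970 b32022
  have c32808 := Lck hbd.symm c21975 b32025
  have c32841 := Lck c14.symm c6023.symm b32045
  have b32994 := LP1 H i72 i2 i18 c712 (Lsw H i18 i72 b20420) (Lsw H i18 i2 b504) (Lsw H i2 i423 b32028)
  have e32996 := (LP1 H i72 i2 i23 c712 (Lsw H i23 i72 b20431) b136 (Lsw H i2 i406 b32026)).symm.trans b32994
  have m32997 : t451 = t453 := e32996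
  subst m32997
  have e33089 := (LP1 H i134 i2 i10 c2358 (Lsw H i10 i134 b20410) b34 (Lsw H i2 i377 b32024)).symm.trans b32053
  have m33090 : t449 = t478 := e33089
  subst m33090
  have e33124 := (LP1 H i144 i2 i10 c3090 (Lsw H i10 i144 b22308) b34 (Lsw H i2 i378 b32025)).symm.trans b32054
  have m33125 : t450 = t479 := e33124
  subst m33125
  have c33222 := LP3 H i221 i2 i3 c6021 (Lsw H i3 i221 b20366) (Lsw H i2 i374 b32022)
  have c33229 := LP3 H i2 i222 i3 c6023.symm b6 b32045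
  have c33464 := Lck hcd c20622 b32037
  have c33465 := Lck hcd c20623 b32038
  have c33466 := Lck hcd c20626 b32039
  have c33468 := Lck hcd.symm c21381 b32029
  have c33470 := Lck hcd.symm c21384 b32031
  have b33698 := LP1 H i81 i3 i15 c730 b31935 (Lsw H i15 i3 b566) (Lsw H i3 i423 b32036)
  have e33700 := (LP1 H i81 i3 i23 c730 (Lsw H i23 i81 b20432) (Lsw H i23 i3 b565) (Lsw H i3 i407 b32035)).symm.trans b33698
  have m33701 : t460 = t461 := e33700
  subst m33701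
  have e33793 := (LP1 H i134 i3 i9 c2868 (Lsw H i9 i134 b20407) b37 (Lsw H i3 i370 b32031)).symm.trans b32056
  have m33794 : t456 = t481 := e33793
  subst m33794
  have e33810 := (LP1 H i144 i3 i9 c2378 (Lsw H i9 i144 b20408) b37 (Lsw H i3 i371 b32032)).symm.trans b32057
  have m33811 : t457 = t482 := e33810
  subst m33811
  have c33958 := LP3 H i3 i238 i2 c6055.symm (Lsw H i2 i3 b6) b32046
  have c33959 := LP3 H i238 i3 i2 c6055 (Lsw H i2 i238 b20359) (Lsw H i3 i367 b32029)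
  have c33967 := LP3 H i3 i239 i2 c6057.symm (Lsw H i2 i3 b6) b32047
  have c33968 := LP3 H i239 i3 i2 c6057 (Lsw H i2 i239 b20360) (Lsw H i3 i368 b32030)
  have b34358 := LP1 H i81 i4 i22 c1051.symm (Lsw H i22 i81 b20427) b144 (Lsw H i4 i396 b32041)
  have e34402 := (LP1 H i124 i4 i7 c2624 (Lsw H i7 i124 b20394) b39 (Lsw H i4 i361 b32039)).symm.trans b32058
  have m34403 : t464 = t483 := e34402
  subst m34403
  have b34452 := LP1 H i151 i4 i7 c2392 (Lsw H i7 i151 b21059) b39 (Lsw H i4 i362 b32040)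
  have c34568 := LP3 H i257 i4 i1 c6093 (Lsw H i1 i257 b20350) (Lsw H i4 i358 b32037)
  have c34574 := LP3 H i4 i259 i1 c6097.symm (Lsw H i1 i4 b4) b32043
  have c34575 := LP3 H i259 i4 i1 c6097 (Lsw H i1 i259 b20351) (Lsw H i4 i359 b32038)
  have c34767 := Lco i462 i5 (LP1 H i5 i358 i4 c23672.symm (Lsw H i4 i5 b9) (Lsw H i4 i358 b32037) (k_one i11 i358 c26017.symm))
  have c34768 := Lco i463 i5 (LP1 H i5 i359 i4 c23677.symm (Lsw H i4 i5 b9) (Lsw H i4 i359 b32038) (k_one i11 i359 c26018.symm))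
  have c34769 := Lco i464 i5 (LP1 H i5 i361 i4 c20951.symm (Lsw H i4 i5 b9) (Lsw H i4 i361 b32039) (k_one i11 i361 c25951.symm))
  have c34771 := Lco i454 i5 (LP1 H i5 i367 i3 c23657.symm (Lsw H i3 i5 b8) (Lsw H i3 i367 b32029) (k_one i10 i367 c25884.symm))
  have c34773 := Lco i456 i5 (LP1 H i5 i370 i3 c21630.symm (Lsw H i3 i5 b8) (Lsw H i3 i370 b32031) (k_one i10 i370 c25754.symm))
  have c34776 := Lco i447 i5 (LP1 H i5 i374 i2 c23639.symm (Lsw H i2 i5 b7) (Lsw H i2 i374 b32022) (k_one i9 i374 c25644.symm))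
  have c34779 := Lco i450 i5 (LP1 H i5 i378 i2 c22254.symm (Lsw H i2 i5 b7) (Lsw H i2 i378 b32025) (k_one i9 i378 c25682.symm))
  have c34780 := Lco i441 i5 (LP1 H i5 i382 i1 c23618.symm (Lsw H i1 i5 b5) (Lsw H i1 i382 b32016) (k_one i7 i382 c24579.symm))
  have c34783 := Lco i444 i5 (LP1 H i5 i386 i1 c22996.symm (Lsw H i1 i5 b5) (Lsw H i1 i386 b32019) (k_one i7 i386 c24624.symm))
  have b34797 := LP1 H i6 i13 i26 c101 (Lsw H i26 i6 b5007) b5956 (Lsw H i13 i124 b32051)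
  have b34798 := LP1 H i6 i13 i38 c101 b2293 b5958 (Lsw H i13 i151 b32457)
  have b34802 := LP1 H i6 i20 i26 c77 (Lsw H i26 i6 b5007) b5979 (Lsw H i20 i124 b32058)
  have e34805 := (LP1 H i6 i20 i38 c77 b2293 b5981 (Lsw H i20 i151 b34452)).symm.trans (Lsw H i6 i259 b32043)
  have m34806 : t465 = t468 := e34805
  subst m34806
  have b34827 := LP1 H i34 i6 i19 c295.symm (Lsw H i19 i34 b14610) (Lsw H i19 i6 b1829) (Lsw H i6 i259 b32043)
  have e34875 := (LP1 H i6 i81 i11 c1065 b152 (Lsw H i11 i81 b5951) b34358).symm.trans (Lsw H i6 i259 b32043)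
  have m34876 : t465 = t466 := e34875.symm
  subst m34876
  have e34906 := (LP1 H i124 i6 i5 c2556.symm (Lsw H i5 i124 b5900) (Lsw H i5 i6 b41) (Lsw H i6 i270 b32044)).symm.trans b32060
  have m34907 : t469 = t485 := e34906
  subst m34907
  have b35092 := LP1 H i8 i15 i34 c96 (Lsw H i34 i8 b5121) b5963 (Lsw H i15 i134 b32053)
  have b35093 := LP1 H i8 i15 i39 c96 (Lsw H i39 i8 b5196) b5964 (Lsw H i15 i144 b32054)
  have e35104 := (LP1 H i8 i18 i34 c86 (Lsw H i34 i8 b5121) b5971 (Lsw H i18 i134 b32056)).symm.trans (Lsw H i8 i305 b32050)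
  have m35105 : t456 = t475 := e35104
  subst m35105
  have e35106 := (LP1 H i8 i18 i39 c86 (Lsw H i39 i8 b5196) b5972 (Lsw H i18 i144 b32057)).symm.trans (Lsw H i8 i239 b32047)
  have m35107 : t457 = t472 := e35106
  subst m35107
  have b35115 := LP1 H i24 i8 i16 c267.symm (Lsw H i16 i24 b5967) (Lsw H i16 i8 b1791) b35092
  have b35124 := LP1 H i26 i8 i19 c268.symm (Lsw H i19 i26 b5977) b675 (Lsw H i8 i239 b32047)
  have b35174 := LP1 H i62 i8 i10 c874.symm (Lsw H i10 i62 b5941) b156 (Lsw H i8 i239 b32047)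
  have e35199 := (LP1 H i8 i72 i9 c1119 b155 (Lsw H i9 i72 b5935) b32994).symm.trans b35092
  have m35200 : t449 = t451 := e35199.symm
  subst m35200
  have e35224 := (LP1 H i8 i81 i10 c1014 b156 (Lsw H i10 i81 b5945) b33698).symm.trans (Lsw H i8 i239 b32047)
  have m35225 : t457 = t460 := e35224.symm
  subst m35225
  have e35292 := (LP1 H i134 i8 i5 c2821.symm (Lsw H i5 i134 b5903) (Lsw H i5 i8 b42) (Lsw H i8 i269 b32048)).symm.trans b32061
  have m35293 : t473 = t486 := e35292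
  subst m35293
  have b35314 := LP1 H i144 i8 i5 c2931.symm (Lsw H i5 i144 b5907) (Lsw H i5 i8 b42) (Lsw H i8 i271 b32049)
  have e35808 := (LP1 H i15 i71 i1 c1458 (Lsw H i1 i15 b124) (Lsw H i1 i71 b2247) (Lsw H i71 i24 b35115)).symm.trans (Lsw H i15 i120 b32052)
  have m35809 : t449 = t477 := e35808
  subst m35809
  have e35973 := (LP1 H i18 i80 i1 c1420 (Lsw H i1 i18 b126) (Lsw H i1 i80 b2250) (Lsw H i80 i26 b35124)).symm.trans (Lsw H i18 i123 b32055)
  have m35974 : t457 = t480 := e35973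
  subst m35974
  have e36093 := (LP1 H i20 i83 i2 c1585.symm (Lsw H i2 i20 b134) (Lsw H i2 i83 b2262) (Lsw H i83 i34 b34827)).symm.trans (Lsw H i20 i135 b32059)
  have m36094 : t465 = t484 := e36093
  subst m36094
  have b36184 := LP1 H i60 i22 i3 c1689.symm (Lsw H i3 i60 b2269) (Lsw H i3 i22 b140) (Lsw H i22 i124 b32060)
  have b36253 := LP1 H i67 i23 i4 c1705.symm b5112 (Lsw H i4 i23 b145) (Lsw H i23 i134 b32061)
  have b36256 := LP1 H i77 i23 i4 c1709.symm b5186 (Lsw H i4 i23 b145) (Lsw H i23 i144 b35314)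
  have b36345 := LP1 H i28 i40 i2 c249 (Lsw H i2 i28 b635) (Lsw H i2 i40 b639) (Lsw H i40 i60 b36184)
  have b36405 := LP1 H i36 i45 i1 c288 b1722 (Lsw H i1 i45 b631) (Lsw H i45 i67 b36253)
  have b36465 := LP1 H i56 i45 i1 c460 b1731 (Lsw H i1 i45 b631) (Lsw H i45 i77 b36256)
  have q37364 : Rl [t359, t383, t396, t467, t465, 1] := LJ H i1 i4 i160 b4 b5836 b5887 b20351 b20375 (Lsw H i6 i160 b20388) b32042 b32043 (k_one i208 i259 c18496)
  have q37365 : Rl [1, t359, t383, t396, t467, t465] := q37364.mv 5 rfl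
  have q37366 : Rl [t359, t383, t396, t467, t465] := q37365.del1
  have q37368 : Rl [t367, t374, t406, t449, t471, 1] := LJ H i2 i3 i157 b6 b5849 b5866 b20359 b20366 (Lsw H i8 i157 b20398) (Lsw H i221 i8 b35092) b32046 (k_one i221 i238 c18352.symm)
  have q37369 : Rl [1, t367, t374, t406, t449, t471] := q37368.mv 5 rfl
  have q37370 : Rl [t367, t374, t406, t449, t471] := q37369.del1
  have q37372 : Rl [t368, t375, t407, t470, t457, 1] := LJ H i2 i3 i158 b6 b5850 b5867 b20360 b20367 (Lsw H i8 i158 b20399) b32045 b32047 (k_one i222 i239 c18405)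
  have q37373 : Rl [1, t368, t375, t407, t470, t457] := q37372.mv 5 rfl
  have q37374 : Rl [t368, t375, t407, t470, t457] := q37373.del1
  have q37381 : Rl [t372, t377, t406, t449, 1, 1] := LJ H i2 i10 i65 b34 b2260 b5942 b20364 b20409 (Lsw H i15 i65 b20416) b32052 (k_one i15 i314 c10689) (k_one i120 i314 c13863.symm)
  have q37382 : Rl [1, t372, t377, t406, t449, 1] := q37381.mv 4 rfl
  have q37383 : Rl [t372, t377, t406, t449, 1] := q37382.del1
  have q37384 : Rl [1, t372, t377, t406, t449] := q37383.mv 4 rfl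
  have q37385 : Rl [t372, t377, t406, t449] := q37384.del1
  have q37391 : Rl [t380, t371, t407, t457, 1, 1] := LJ H i3 i9 i65 b37 b2270 b5934 b20372 b20406 (Lsw H i18 i65 b20419) b32055 (k_one i18 i306 c18060) (k_one i123 i306 c13851.symm)
  have q37392 : Rl [1, t380, t371, t407, t457, 1] := q37391.mv 4 rfl
  have q37393 : Rl [t380, t371, t407, t457, 1] := q37392.del1
  have q37394 : Rl [1, t380, t371, t407, t457] := q37393.mv 4 rfl
  have q37395 : Rl [t380, t371, t407, t457] := q37394.del1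
  have q37396 : Rl [t389, t362, t396, t465, 1, 1] := LJ H i4 i7 i73 b39 (Lsw H i73 i4 b5117) b5925 b20381 b20395 (Lsw H i20 i73 b20423) b32059 (k_one i20 i297 c18061) (k_one i135 i297 c14127.symm)
  have q37397 : Rl [1, t389, t362, t396, t465, 1] := q37396.mv 4 rfl
  have q37398 : Rl [t389, t362, t396, t465, 1] := q37397.del1
  have q37399 : Rl [1, t389, t362, t396, t465] := q37398.mv 4 rfl
  have q37400 : Rl [t389, t362, t396, t465] := q37399.del1
  have q37401 : Rl [t270, t291, t297, 1, t469, 1] := LJ H i5 i6 i26 b41 b660 (Lsw H i26 i6 b5007) b5900 b5919 (Lsw H i22 i26 b5983) (k_one i22 i92 c2039) b32060 (k_one i92 i124 c3191)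
  have q37402 : Rl [1, t270, t291, t297, t469, 1] := q37401.mv 3 rfl
  have q37403 : Rl [t270, t291, t297, t469, 1] := q37402.del1
  have q37404 : Rl [1, t270, t291, t297, t469] := q37403.mv 4 rfl
  have q37405 : Rl [t270, t291, t297, t469] := q37404.del1
  have q37406 : Rl [t269, t302, t306, 1, t473, 1] := LJ H i5 i8 i34 b42 b663 (Lsw H i34 i8 b5121) b5903 b5930 b18063 (k_one i23 i93 c2037) b32061 (k_one i93 i134 c5509.symm)
  have q37407 : Rl [1, t269, t302, t306, t473, 1] := q37406.mv 3 rfl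
  have q37408 : Rl [t269, t302, t306, t473, 1] := q37407.del1
  have q37409 : Rl [1, t269, t302, t306, t473] := q37408.mv 4 rfl
  have q37410 : Rl [t269, t302, t306, t473] := q37409.del1
  have q37411 : Rl [t271, t303, t314, 1, t474, 1] := LJ H i5 i8 i39 b42 b665 (Lsw H i39 i8 b5196) b5907 b5931 (Lsw H i23 i39 b5984) (k_one i23 i95 c2038) b35314 (k_one i95 i144 c5490.symm)
  have q37412 : Rl [1, t271, t303, t314, t474, 1] := q37411.mv 3 rfl
  have q37413 : Rl [t271, t303, t314, t474, 1] := q37412.del1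
  have q37414 : Rl [1, t271, t303, t314, t474] := q37413.mv 4 rfl
  have q37415 : Rl [t271, t303, t314, t474] := q37414.del1
  have q37653 : Rl [t396, t359, t383, t467, t465] := q37366.mv 2 rfl
  have q37654 : Rl [t383, t396, t359, t467, t465] := q37653.mv 2 rfl
  have e37655 := (Rl.l2 H i383 i396 i1 q37654 (.cons c20437 (.cons c32193.symm (.cons c34574 .nil))) (Lsw H i1 i383 b32017)).symm.trans (Lsw H i1 i396 b32021)
  have m37656 : t442 = t446 := e37655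
  subst m37656
  have q37657 : Rl [t396, t359, t383, t467, t465] := q37366.mv 2 rfl
  have q37658 : Rl [t359, t396, t383, t467, t465] := q37657.mv 1 rfl
  have e37659 := (Rl.l2 H i359 i396 i4 q37658 (.cons c20485 (.cons c32513 (.cons c32110 .nil))) (Lsw H i4 i359 b32038)).symm.trans (Lsw H i4 i396 b32041)
  have m37660 : t463 = t465 := e37659
  subst m37660
  have q37661 : Rl [t406, t367, t374, t449, t471] := q37370.mv 2 rfl
  have q37662 : Rl [t374, t406, t367, t449, t471] := q37661.mv 2 rfl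
  have e37663 := (Rl.l2 H i374 i406 i2 q37662 (.cons c20453 (.cons c32078 (.cons c33958 .nil))) (Lsw H i2 i374 b32022)).symm.trans (Lsw H i2 i406 b32026)
  have m37664 : t447 = t449 := e37663
  subst m37664
  have q37665 : Rl [t407, t368, t375, t470, t457] := q37374.mv 2 rfl
  have q37666 : Rl [t375, t407, t368, t470, t457] := q37665.mv 2 rfl
  have e37667 := (Rl.l2 H i375 i407 i2 q37666 (.cons c20455 (.cons c32841.symm (.cons c33967 .nil))) (Lsw H i2 i375 b32023)).symm.trans (Lsw H i2 i407 b32027)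
  have m37668 : t448 = t452 := e37667
  subst m37668
  have q37669 : Rl [t407, t368, t375, t470, t457] := q37374.mv 2 rfl
  have q37670 : Rl [t368, t407, t375, t470, t457] := q37669.mv 1 rfl
  have e37671 := (Rl.l2 H i368 i407 i3 q37670 (.cons c20469 (.cons c33229 (.cons c32094 .nil))) (Lsw H i3 i368 b32030)).symm.trans (Lsw H i3 i407 b32035)
  have m37672 : t455 = t457 := e37671
  subst m37672
  have e37673 := (LP1 H i1 i6 i160 c10.symm b5836 b20388 (Lsw H i6 i208 b32042)).symm.trans (Lsw H i1 i396 b32021)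
  have m37674 : t442 = t467 := e37673.symm
  subst m37674
  have c37679 := Lco i28 i135 (LP1 H i135 i1 i20 c2512.symm (Lsw H i20 i135 b32059) b128 (k_one i463 i1 c34575))
  have e37682 := (LP1 H i207 i1 i4 c5993 (Lsw H i4 i207 b20374) b4 (Lsw H i1 i382 b32016)).symm.trans (Lsw H i207 i6 b34797)
  have m37683 : t441 = t443 := e37682
  subst m37683
  have e37731 := (LP1 H i2 i8 i158 c14.symm b5850 b20399 (Lsw H i8 i222 b32045)).symm.trans (Lsw H i2 i407 b32027)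
  have m37732 : t448 = t470 := e37731.symm
  subst m37732
  have c37733 := Lco i120 i56 (LP1 H i56 i2 i62 c337 b35174 b2258 (k_one i455 i2 c33968))
  have c37734 := Lco i474 i2 (LP1 H i2 i56 i65 c337.symm b2260 (Lsw H i65 i56 b36465) (k_one i120 i56 c37733))
  have c37738 := Lco i36 i123 (LP1 H i123 i2 i18 c2510.symm (Lsw H i18 i123 b32055) (Lsw H i18 i2 b504) (k_one i455 i2 c33968))
  have e37758 := (LP1 H i3 i8 i157 c15.symm b5866 b20398 (Lsw H i8 i238 b32046)).symm.trans (Lsw H i3 i406 b32034)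
  have m37759 : t459 = t471 := e37758.symm
  subst m37759
  have c37760 := Lco i473 i3 (LP1 H i3 i36 i65 c304.symm b2270 (Lsw H i65 i36 b36405) (k_one i123 i36 c37738.symm))
  have e37761 := (LP1 H i3 i238 i2 c6055.symm (Lsw H i2 i3 b6) (Lsw H i2 i238 b20359) b32046).symm.trans (Lsw H i3 i367 b32029)
  have m37762 : t454 = t459 := e37761.symm
  subst m37762
  have c37779 := Lco i469 i4 (LP1 H i4 i28 i73 c256.symm (Lsw H i73 i4 b5117) (Lsw H i73 i28 b36345) (k_one i135 i28 c37679.symm))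
  have q37821 : Rl [t306, t269, t302, t473] := q37410.mv 2 rfl
  have q37822 : Rl [t302, t306, t269, t473] := q37821.mv 2 rfl
  have q37823 : Rl [t269, t302, t306, t473] := q37822.mv 2 rfl
  have q37824 : Rl [t377, t373, t380, 1] := Rl.l3 H i269 i302 i306 i3 q37823 (.cons c37760 .nil) (Lsw H i3 i269 b20369) (Lsw H i3 i302 b20371) (Lsw H i3 i306 b20372) (k_one i377 i302 c31739.symm)
  have q37825 : Rl [1, t377, t373, t380] := q37824.mv 3 rfl
  have q37826 : Rl [t377, t373, t380] := q37825.del1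
  have q37827 : Rl [t297, t270, t291, t469] := q37405.mv 2 rfl
  have q37828 : Rl [t291, t297, t270, t469] := q37827.mv 2 rfl
  have q37829 : Rl [t270, t291, t297, t469] := q37828.mv 2 rfl
  have q37830 : Rl [t385, t381, t389, 1] := Rl.l3 H i270 i291 i297 i4 q37829 (.cons c37779 .nil) (Lsw H i4 i270 b20377) (Lsw H i4 i291 b20379) (Lsw H i4 i297 b20381) (k_one i385 i291 c27143.symm)
  have q37831 : Rl [1, t385, t381, t389] := q37830.mv 3 rfl
  have q37832 : Rl [t385, t381, t389] := q37831.del1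
  have q37833 : Rl [t314, t271, t303, t474] := q37415.mv 2 rfl
  have q37834 : Rl [t303, t314, t271, t474] := q37833.mv 2 rfl
  have q37835 : Rl [t271, t303, t314, t474] := q37834.mv 2 rfl
  have q37836 : Rl [t371, t366, t372, 1] := Rl.l3 H i271 i303 i314 i2 q37835 (.cons c37734 .nil) (Lsw H i2 i271 b20363) b30425 (Lsw H i2 i314 b20364) (k_one i371 i303 c31699.symm)
  have q37837 : Rl [1, t371, t366, t372] := q37836.mv 3 rfl
  have q37838 : Rl [t371, t366, t372] := q37837.del1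
  have q37839 : Rl [t396, t389, t362, t463] := q37400.mv 2 rfl
  have q37840 : Rl [t389, t396, t362, t463] := q37839.mv 1 rfl
  have e37841 := (Rl.l2 H i389 i396 i1 q37840 (.cons c20443 (.cons c34575 .nil)) (Lsw H i1 i389 b32020)).symm.trans (Lsw H i1 i396 b32021)
  have m37842 : t442 = t445 := e37841.symm
  subst m37842
  have q37860 : Rl [t407, t380, t371, t455] := q37395.mv 2 rfl
  have b37861 := Rl.l2 H i407 i380 i2 q37860 (.cons c20461 (.cons c33968 .nil)) (Lsw H i2 i407 b32027)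
  have q37863 : Rl [t406, t372, t377, t447] := q37385.mv 2 rfl
  have q37864 : Rl [t372, t406, t377, t447] := q37863.mv 1 rfl
  have e37865 := (Rl.l2 H i372 i406 i3 q37864 (.cons c20473 (.cons c33222 .nil)) (Lsw H i3 i372 b32033)).symm.trans (Lsw H i3 i406 b32034)
  have m37866 : t454 = t458 := e37865.symm
  subst m37866
  have q37868 : Rl [t372, t371, t366] := q37838.mv 2 rfl
  have q37869 : Rl [t371, t372, t366] := q37868.mv 1 rfl
  have e37870 := (Rl.l2 H i371 i372 i3 q37869 (.cons c21695 .nil) (Lsw H i3 i371 b32032)).symm.trans (Lsw H i3 i372 b32033)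
  have m37871 : t454 = t455 := e37870.symm
  subst m37871
  have q37872 : Rl [t380, t377, t373] := q37826.mv 2 rfl
  have q37873 : Rl [t377, t380, t373] := q37872.mv 1 rfl
  have e37874 := (Rl.l2 H i377 i380 i2 q37873 (.cons c22335 .nil) (Lsw H i2 i377 b32024)).symm.trans b37861
  have m37875 : t447 = t448 := e37874
  subst m37875
  have q37876 : Rl [t389, t385, t381] := q37832.mv 2 rfl
  have q37877 : Rl [t385, t389, t381] := q37876.mv 1 rfl
  have e37878 := (Rl.l2 H i385 i389 i1 q37877 (.cons c23091 .nil) (Lsw H i1 i385 b32018)).symm.trans (Lsw H i1 i389 b32020)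
  have m37879 : t441 = t442 := e37878
  subst m37879
  obtain ⟨t487, b37880⟩ : ∃ t, k a t464 = t := ⟨_, rfl⟩
  have i487 := Linv H i1 i464 b37880
  obtain ⟨t488, b37881⟩ : ∃ t, k c t450 = t := ⟨_, rfl⟩
  have i488 := Linv H i3 i450 b37881
  obtain ⟨t489, b37882⟩ : ∃ t, k d t444 = t := ⟨_, rfl⟩
  have i489 := Linv H i4 i444 b37882
  obtain ⟨t490, b37883⟩ : ∃ t, k t6 t361 = t := ⟨_, rfl⟩
  have i490 := Linv H i6 i361 b37883
  obtain ⟨t491, b37884⟩ : ∃ t, k t8 t370 = t := ⟨_, rfl⟩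
  have i491 := Linv H i8 i370 b37884
  obtain ⟨t492, b37885⟩ : ∃ t, k t8 t378 = t := ⟨_, rfl⟩
  have i492 := Linv H i8 i378 b37885
  have b37944 := LP1 H i124 i1 i20 c2338 (Lsw H i20 i124 b32058) b128 (Lsw H i1 i464 b37880)
  have b38082 := LP1 H i144 i3 i15 c2378 (Lsw H i15 i144 b32054) (Lsw H i15 i3 b566) (Lsw H i3 i450 b37881)
  have b38201 := LP1 H i151 i4 i13 c2392 (Lsw H i13 i151 b32457) b141 (Lsw H i4 i444 b37882)
  have e38291 := (LP1 H i6 i28 i26 c254 (Lsw H i26 i6 b5007) b20735 (Lsw H i28 i124 b37944)).symm.trans (Lsw H i6 i361 b37883)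
  have m38292 : t487 = t490 := e38291
  subst m38292
  have b38295 := LP1 H i6 i41 i38 c273 b2293 b22741 (Lsw H i41 i151 b38201)
  have e38346 := (LP1 H i8 i56 i39 c223.symm (Lsw H i39 i8 b5196) (Lsw H i39 i56 b30230) (Lsw H i56 i144 b38082)).symm.trans (Lsw H i8 i378 b37885)
  have m38347 : t488 = t492 := e38346
  subst m38347
  have q38692 : Rl [t205, t464, t464, t487, 1, 1] := LJ H i1 i4 i296 b4 b20356 b20380 b5833 b32039 b34802 b37883 (k_one i6 i153 c2697) (k_one i361 i153 c24515.symm)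
  have q38693 : Rl [1, t205, t464, t464, t487, 1] := q38692.mv 4 rfl
  have q38694 : Rl [t205, t464, t464, t487, 1] := q38693.del1
  have q38695 : Rl [1, t205, t464, t464, t487] := q38694.mv 4 rfl
  have q38696 : Rl [t205, t464, t464, t487] := q38695.del1
  have q38697 : Rl [t464, t205, t464, t487] := q38696.mv 2 rfl
  have q38698 : Rl [t464, t464, t205, t487] := q38697.mv 2 rfl
  have q38699 : Rl [t205, t487] := q38698.del2
  have e38700 := q38699.two
  have m38701 : t205 = t487 := e38700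
  subst m38701
  have q38707 : Rl [t444, t254, t444, 1, t489, 1] := LJ H i1 i4 i319 b4 b20357 b20382 b32019 b5882 b34798 (k_one i6 i127 c3342) (Lsw H i386 i6 b38295) (k_one i127 i386 c27088)
  have q38708 : Rl [1, t444, t254, t444, t489, 1] := q38707.mv 3 rfl
  have q38709 : Rl [t444, t254, t444, t489, 1] := q38708.del1
  have q38710 : Rl [1, t444, t254, t444, t489] := q38709.mv 4 rfl
  have q38711 : Rl [t444, t254, t444, t489] := q38710.del1
  have q38712 : Rl [t444, t444, t254, t489] := q38711.mv 2 rfl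
  have q38713 : Rl [t444, t444, t254, t489] := q38712.mv 1 rfl
  have q38714 : Rl [t254, t489] := q38713.del2
  have e38715 := q38714.two
  have m38716 : t254 = t489 := e38715
  subst m38716
  have q38729 : Rl [t218, t456, t456, t491, 1, 1] := LJ H i2 i3 i305 b6 (Lsw H i305 i2 b31055) (Lsw H i305 i3 b31395) b5846 b32031 (Lsw H i8 i305 b32050) b37884 (k_one i8 i146 c2949) (k_one i370 i146 c25541.symm)
  have q38730 : Rl [1, t218, t456, t456, t491, 1] := q38729.mv 4 rfl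
  have q38731 : Rl [t218, t456, t456, t491, 1] := q38730.del1
  have q38732 : Rl [1, t218, t456, t456, t491] := q38731.mv 4 rfl
  have q38733 : Rl [t218, t456, t456, t491] := q38732.del1
  have q38734 : Rl [t456, t218, t456, t491] := q38733.mv 2 rfl
  have q38735 : Rl [t456, t456, t218, t491] := q38734.mv 2 rfl
  have q38736 : Rl [t218, t491] := q38735.del2
  have e38737 := q38736.two
  have m38738 : t218 = t491 := e38737
  subst m38738
  have q38744 : Rl [t450, t236, t450, 1, t488, 1] := LJ H i2 i3 i315 b6 (Lsw H i315 i2 b31327) (Lsw H i315 i3 b31131) b32025 b5864 b35093 (k_one i8 i136 c3175) b37885 (k_one i136 i378 c29257.symm)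
  have q38745 : Rl [1, t450, t236, t450, t488, 1] := q38744.mv 3 rfl
  have q38746 : Rl [t450, t236, t450, t488, 1] := q38745.del1
  have q38747 : Rl [1, t450, t236, t450, t488] := q38746.mv 4 rfl
  have q38748 : Rl [t450, t236, t450, t488] := q38747.del1
  have q38749 : Rl [t450, t450, t236, t488] := q38748.mv 2 rfl
  have q38750 : Rl [t450, t450, t236, t488] := q38749.mv 1 rfl
  have q38751 : Rl [t236, t488] := q38750.del2
  have e38752 := q38751.two
  have m38753 : t236 = t488 := e38752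
  subst m38753
  have b38766 := LP1 H i2 i8 i305 c14.symm (Lsw H i305 i2 b31055) b32050 (Lsw H i8 i370 b37884)
  have r463 : t463 ∈ rad G := Lrad5 i1 i2 i3 i4 i5 hF i463 (Rc i463 i1 c34575) (Rc i463 i2 c32802.symm) (Rc i463 i3 c33465.symm) (Rc i463 i4 c32106) (Rc i463 i5 c34768)
  have r462 : t462 ∈ rad G := Lrad5 i1 i2 i3 i4 i5 hF i462 (Rc i462 i1 c34568) (Rc i462 i2 c32801.symm) (Rc i462 i3 c33464.symm) (Rc i462 i4 c32104) (Rc i462 i5 c34767)
  have r454 : t454 ∈ rad G := Lrad5 i1 i2 i3 i4 i5 hF i454 (Rc i454 i1 c32167.symm) (Rc i454 i2 c33959) (Rc i454 i3 c32088) (Rc i454 i4 c33468.symm) (Rc i454 i5 c34771)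
  have r447 : t447 ∈ rad G := Lrad5 i1 i2 i3 i4 i5 hF i447 (Rc i447 i1 c32154.symm) (Rc i447 i2 c32074) (Rc i447 i3 c33222) (Rc i447 i4 c32805.symm) (Rc i447 i5 c34776)
  have r441 : t441 ∈ rad G := Lrad5 i1 i2 i3 i4 i5 hF i441 (Rc i441 i1 c32062) (Rc i441 i2 c32158.symm) (Rc i441 i3 c32172.symm) (Rc i441 i4 c32506) (Rc i441 i5 c34780)
  have r385 : t385 ∈ rad G := Lrad5 i1 i2 i3 i4 i5 hF i385 (Rb (Lsw H i1 i385 b32018) r441) (Rc i385 i2 c21385.symm) (Rc i385 i3 c21974.symm) (Rc i385 i4 c20489) (Rc i385 i5 c22952)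
  have r383 : t383 ∈ rad G := Lrad5 i1 i2 i3 i4 i5 hF i383 (Rb (Lsw H i1 i383 b32017) r441) (Rc i383 i2 c21378.symm) (Rc i383 i3 c21967.symm) (Rc i383 i4 c20485) (Rc i383 i5 c23622)
  have r382 : t382 ∈ rad G := Lrad5 i1 i2 i3 i4 i5 hF i382 (Rb (Lsw H i1 i382 b32016) r441) (Rc i382 i2 c21377.symm) (Rc i382 i3 c21966.symm) (Rc i382 i4 c20483) (Rc i382 i5 c23618)
  have r381 : t381 ∈ rad G := Lrad5 i1 i2 i3 i4 i5 hF i381 (Rc i381 i1 c23091) (Rc i381 i2 c21376.symm) (Rc i381 i3 c21965.symm) (Rc i381 i4 c20481) (Rc i381 i5 c30738)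
  have r377 : t377 ∈ rad G := Lrad5 i1 i2 i3 i4 i5 hF i377 (Rc i377 i1 c20625.symm) (Rb (Lsw H i2 i377 b32024) r447) (Rc i377 i3 c20473) (Rc i377 i4 c21973.symm) (Rc i377 i5 c22245)
  have r375 : t375 ∈ rad G := Lrad5 i1 i2 i3 i4 i5 hF i375 (Rc i375 i1 c20619.symm) (Rb (Lsw H i2 i375 b32023) r447) (Rc i375 i3 c20469) (Rc i375 i4 c21971.symm) (Rc i375 i5 c23643)
  have r374 : t374 ∈ rad G := Lrad5 i1 i2 i3 i4 i5 hF i374 (Rc i374 i1 c20618.symm) (Rb (Lsw H i2 i374 b32022) r447) (Rc i374 i3 c20467) (Rc i374 i4 c21970.symm) (Rc i374 i5 c23639)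
  have r373 : t373 ∈ rad G := Lrad5 i1 i2 i3 i4 i5 hF i373 (Rc i373 i1 c20617.symm) (Rc i373 i2 c22335) (Rc i373 i3 c20465) (Rc i373 i4 c21969.symm) (Rc i373 i5 c30586)
  have r371 : t371 ∈ rad G := Lrad5 i1 i2 i3 i4 i5 hF i371 (Rc i371 i1 c20611.symm) (Rc i371 i2 c20461) (Rb (Lsw H i3 i371 b32032) r454) (Rc i371 i4 c21386.symm) (Rc i371 i5 c21647)
  have r368 : t368 ∈ rad G := Lrad5 i1 i2 i3 i4 i5 hF i368 (Rc i368 i1 c20603.symm) (Rc i368 i2 c20455) (Rb (Lsw H i3 i368 b32030) r454) (Rc i368 i4 c21382.symm) (Rc i368 i5 c23660)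
  have r367 : t367 ∈ rad G := Lrad5 i1 i2 i3 i4 i5 hF i367 (Rc i367 i1 c20602.symm) (Rc i367 i2 c20453) (Rb (Lsw H i3 i367 b32029) r454) (Rc i367 i4 c21381.symm) (Rc i367 i5 c23657)
  have r366 : t366 ∈ rad G := Lrad5 i1 i2 i3 i4 i5 hF i366 (Rc i366 i1 c20601.symm) (Rc i366 i2 c20451) (Rc i366 i3 c21695) (Rc i366 i4 c21380.symm) (Rc i366 i5 c30427)
  have r362 : t362 ∈ rad G := Lrad5 i1 i2 i3 i4 i5 hF i362 (Rc i362 i1 c20443) (Rc i362 i2 c20612.symm) (Rc i362 i3 c20628.symm) (Rb (Lsw H i4 i362 b32040) r463) (Rc i362 i5 c21013)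
  have r359 : t359 ∈ rad G := Lrad5 i1 i2 i3 i4 i5 hF i359 (Rc i359 i1 c20437) (Rc i359 i2 c20607.symm) (Rc i359 i3 c20623.symm) (Rb (Lsw H i4 i359 b32038) r463) (Rc i359 i5 c23677)
  have r358 : t358 ∈ rad G := Lrad5 i1 i2 i3 i4 i5 hF i358 (Rc i358 i1 c20435) (Rc i358 i2 c20606.symm) (Rc i358 i3 c20622.symm) (Rb (Lsw H i4 i358 b32037) r462) (Rc i358 i5 c23672)
  have r357 : t357 ∈ rad G := Lrad5 i1 i2 i3 i4 i5 hF i357 (Rc i357 i1 c20433) (Rc i357 i2 c20605.symm) (Rc i357 i3 c20621.symm) (Rc i357 i4 c21002) (Rc i357 i5 c31486)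
  have r274 : t274 ∈ rad G := Lrad5 i1 i2 i3 i4 i5 hF i274 (Rc i274 i1 c8917) (Rc i274 i2 c8902) (Rc i274 i3 c8886) (Rc i274 i4 c8871) (Rc i274 i5 c6127)
  have r259 : t259 ∈ rad G := Lrad5 i1 i2 i3 i4 i5 hF i259 (Rb (Lsw H i1 i259 b20351) r359) (Rc i259 i2 c10519) (Rc i259 i3 c11283) (Rc i259 i4 c6097) (Rc i259 i5 c8134)
  have r257 : t257 ∈ rad G := Lrad5 i1 i2 i3 i4 i5 hF i257 (Rb (Lsw H i1 i257 b20350) r358) (Rc i257 i2 c17248) (Rc i257 i3 c17345) (Rc i257 i4 c6093) (Rc i257 i5 c19865)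
  have r255 : t255 ∈ rad G := Lrad5 i1 i2 i3 i4 i5 hF i255 (Rb (Lsw H i1 i255 b20349) r357) (Rc i255 i2 c6772.symm) (Rc i255 i3 c7327.symm) (Rc i255 i4 c6089) (Rc i255 i5 c31941)
  have r254 : t254 ∈ rad G := Lrad5 i1 i2 i3 i4 i5 hF i254 (Rc i254 i1 c8231) (Rc i254 i2 c6771.symm) (Rc i254 i3 c7326.symm) (Rc i254 i4 c6087) (Rc i254 i5 c9050)
  have r239 : t239 ∈ rad G := Lrad5 i1 i2 i3 i4 i5 hF i239 (Rc i239 i1 c10259) (Rb (Lsw H i2 i239 b20360) r368) (Rc i239 i3 c6057) (Rc i239 i4 c10692) (Rc i239 i5 c7544)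
  have r238 : t238 ∈ rad G := Lrad5 i1 i2 i3 i4 i5 hF i238 (Rc i238 i1 c17149) (Rb (Lsw H i2 i238 b20359) r367) (Rc i238 i3 c6055) (Rc i238 i4 c17344) (Rc i238 i5 c19864)
  have r237 : t237 ∈ rad G := Lrad5 i1 i2 i3 i4 i5 hF i237 (Rc i237 i1 c6329.symm) (Rb (Lsw H i2 i237 b20358) r366) (Rc i237 i3 c6053) (Rc i237 i4 c7330.symm) (Rc i237 i5 c30159.symm)
  have r236 : t236 ∈ rad G := Lrad5 i1 i2 i3 i4 i5 hF i236 (Rc i236 i1 c6328.symm) (Rc i236 i2 c7686) (Rc i236 i3 c6051) (Rc i236 i4 c7329.symm) (Rc i236 i5 c9061)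
  have r235 : t235 ∈ rad G := Lrad5 i1 i2 i3 i4 i5 hF i235 (Rc i235 i1 c6327.symm) (Rc i235 i2 c7670) (Rc i235 i3 c6049) (Rc i235 i4 c7328.symm) (Rc i235 i5 c20263)
  have r222 : t222 ∈ rad G := Lrad5 i1 i2 i3 i4 i5 hF i222 (Rc i222 i1 c17146) (Rc i222 i2 c6023) (Rb (Lsw H i3 i222 b20367) r375) (Rc i222 i4 c17250) (Rc i222 i5 c17578)
  have r221 : t221 ∈ rad G := Lrad5 i1 i2 i3 i4 i5 hF i221 (Rc i221 i1 c9933) (Rc i221 i2 c6021) (Rb (Lsw H i3 i221 b20366) r374) (Rc i221 i4 c14609) (Rc i221 i5 c6967)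
  have r220 : t220 ∈ rad G := Lrad5 i1 i2 i3 i4 i5 hF i220 (Rc i220 i1 c6305.symm) (Rc i220 i2 c6019) (Rc i220 i3 c7323.symm) (Rc i220 i4 c6776.symm) (Rc i220 i5 c20261)
  have r219 : t219 ∈ rad G := Lrad5 i1 i2 i3 i4 i5 hF i219 (Rc i219 i1 c6304.symm) (Rc i219 i2 c6017) (Rb (Lsw H i3 i219 b20365) r373) (Rc i219 i4 c6775.symm) (Rc i219 i5 c30126.symm)
  have r218 : t218 ∈ rad G := Lrad5 i1 i2 i3 i4 i5 hF i218 (Rc i218 i1 c6303.symm) (Rc i218 i2 c6015) (Rc i218 i3 c7069) (Rc i218 i4 c6774.symm) (Rc i218 i5 c9060)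
  have r208 : t208 ∈ rad G := Lrad5 i1 i2 i3 i4 i5 hF i208 (Rc i208 i1 c5995) (Rc i208 i2 c17145) (Rc i208 i3 c17151) (Rb (Lsw H i4 i208 b20375) r383) (Rc i208 i5 c17580)
  have r207 : t207 ∈ rad G := Lrad5 i1 i2 i3 i4 i5 hF i207 (Rc i207 i1 c5993) (Rc i207 i2 c9416) (Rc i207 i3 c14315) (Rb (Lsw H i4 i207 b20374) r382) (Rc i207 i5 c6494)
  have r206 : t206 ∈ rad G := Lrad5 i1 i2 i3 i4 i5 hF i206 (Rc i206 i1 c5991) (Rc i206 i2 c6307.symm) (Rc i206 i3 c6332.symm) (Rb (Lsw H i4 i206 b20373) r381) (Rc i206 i5 c30074.symm)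
  have r205 : t205 ∈ rad G := Lrad5 i1 i2 i3 i4 i5 hF i205 (Rc i205 i1 c5989) (Rc i205 i2 c6306.symm) (Rc i205 i3 c6331.symm) (Rc i205 i4 c6540) (Rc i205 i5 c14835)
  have r204 : t204 ∈ rad G := Lrad5 i1 i2 i3 i4 i5 hF i204 (Rc i204 i1 c5987) (Rc i204 i2 c6302.symm) (Rc i204 i3 c6330.symm) (Rc i204 i4 c7324.symm) (Rc i204 i5 c20260)
  have r203 : t203 ∈ rad G := Lrad5 i1 i2 i3 i4 i5 hF i203 (Rc i203 i1 c5985) (Rc i203 i2 c6301.symm) (Rc i203 i3 c6326.symm) (Rc i203 i4 c6553) (Rc i203 i5 c20259)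
  have r162 : t162 ∈ rad G := Lrad5 i1 i2 i3 i4 i5 hF i162 (Rb (Lsw H i1 i162 b5838) r208) (Rb (Lsw H i2 i162 b5853) r222) (Rb (Lsw H i3 i162 b5870) r239) (Rb (Lsw H i4 i162 b5889) r259) (Rc i162 i5 c2414)
  have r160 : t160 ∈ rad G := Lrad5 i1 i2 i3 i4 i5 hF i160 (Rb (Lsw H i1 i160 b5836) r208) (Rb (Lsw H i2 i160 b5852) r221) (Rb (Lsw H i3 i160 b5869) r238) (Rb (Lsw H i4 i160 b5887) r259) (Rc i160 i5 c2410)
  have r158 : t158 ∈ rad G := Lrad5 i1 i2 i3 i4 i5 hF i158 (Rb b13654 r207) (Rb (Lsw H i2 i158 b5850) r222) (Rb (Lsw H i3 i158 b5867) r239) (Rb (Lsw H i4 i158 b5886) r257) (Rc i158 i5 c2406)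
  have r157 : t157 ∈ rad G := Lrad5 i1 i2 i3 i4 i5 hF i157 (Rb (Lsw H i1 i157 b5835) r207) (Rb (Lsw H i2 i157 b5849) r221) (Rb (Lsw H i3 i157 b5866) r238) (Rb (Lsw H i4 i157 b5885) r257) (Rc i157 i5 c2404)
  have r155 : t155 ∈ rad G := Lrad5 i1 i2 i3 i4 i5 hF i155 (Rb (Lsw H i1 i155 b5834) r206) (Rc i155 i2 c2787.symm) (Rc i155 i3 c3009.symm) (Rc i155 i4 c2400) (Rb (Lsw H i5 i155 b5911) r274)
  have r153 : t153 ∈ rad G := Lrad5 i1 i2 i3 i4 i5 hF i153 (Rb (Lsw H i1 i153 b5833) r205) (Rc i153 i2 c2782.symm) (Rc i153 i3 c3004.symm) (Rc i153 i4 c2396) (Rc i153 i5 c16476.symm)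
  have r152 : t152 ∈ rad G := Lrad5 i1 i2 i3 i4 i5 hF i152 (Rc i152 i1 c3272) (Rb (Lsw H i2 i152 b5848) r220) (Rb b14293 r235) (Rc i152 i4 c2394) (Rc i152 i5 c5774)
  have r148 : t148 ∈ rad G := Lrad5 i1 i2 i3 i4 i5 hF i148 (Rc i148 i1 c2542.symm) (Rb (Lsw H i2 i148 b5847) r219) (Rc i148 i3 c2386) (Rc i148 i4 c3010.symm) (Rb (Lsw H i5 i148 b5909) r274)
  have r146 : t146 ∈ rad G := Lrad5 i1 i2 i3 i4 i5 hF i146 (Rc i146 i1 c2535.symm) (Rb (Lsw H i2 i146 b5846) r218) (Rc i146 i3 c2382) (Rc i146 i4 c3006.symm) (Rc i146 i5 c16458.symm)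
  have r145 : t145 ∈ rad G := Lrad5 i1 i2 i3 i4 i5 hF i145 (Rb (Lsw H i1 i145 b5832) r204) (Rc i145 i2 c3097) (Rc i145 i3 c2380) (Rb (Lsw H i4 i145 b5884) r235) (Rc i145 i5 c5773)
  have r140 : t140 ∈ rad G := Lrad5 i1 i2 i3 i4 i5 hF i140 (Rb b13628 r203) (Rc i140 i2 c2370) (Rc i140 i3 c5123) (Rb b13992 r220) (Rc i140 i5 c5771)
  have r139 : t139 ∈ rad G := Lrad5 i1 i2 i3 i4 i5 hF i139 (Rc i139 i1 c2518.symm) (Rc i139 i2 c2368) (Rb (Lsw H i3 i139 b5865) r237) (Rc i139 i4 c2789.symm) (Rb (Lsw H i5 i139 b5906) r274)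
  have r136 : t136 ∈ rad G := Lrad5 i1 i2 i3 i4 i5 hF i136 (Rc i136 i1 c2513.symm) (Rc i136 i2 c2362) (Rb (Lsw H i3 i136 b5864) r236) (Rc i136 i4 c2785.symm) (Rc i136 i5 c16457.symm)
  have r129 : t129 ∈ rad G := Lrad5 i1 i2 i3 i4 i5 hF i129 (Rc i129 i1 c2348) (Rc i129 i2 c2519.symm) (Rc i129 i3 c2544.symm) (Rb (Lsw H i4 i129 b5883) r255) (Rb (Lsw H i5 i129 b5902) r274)
  have r127 : t127 ∈ rad G := Lrad5 i1 i2 i3 i4 i5 hF i127 (Rc i127 i1 c2344) (Rc i127 i2 c2515.symm) (Rc i127 i3 c2540.symm) (Rb (Lsw H i4 i127 b5882) r254) (Rc i127 i5 c16475.symm)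
  have r126 : t126 ∈ rad G := Lrad5 i1 i2 i3 i4 i5 hF i126 (Rc i126 i1 c2342) (Rb (Lsw H i2 i126 b5845) r203) (Rb (Lsw H i3 i126 b5862) r204) (Rc i126 i4 c2643) (Rc i126 i5 c5770)
  have r91 : t91 ∈ rad G := Lrad5 i1 i2 i3 i4 i5 hF i91 (Rb (Lsw H i1 i91 b2254) r127) (Rc i91 i2 c948.symm) (Rc i91 i3 c1056.symm) (Rc i91 i4 c750) (Rc i91 i5 c1302)
  have r84 : t84 ∈ rad G := Lrad5 i1 i2 i3 i4 i5 hF i84 (Rc i84 i1 c846.symm) (Rb (Lsw H i2 i84 b2263) r136) (Rc i84 i3 c736) (Rc i84 i4 c1055.symm) (Rc i84 i5 c1296)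
  have r76 : t76 ∈ rad G := Lrad5 i1 i2 i3 i4 i5 hF i76 (Rc i76 i1 c828.symm) (Rc i76 i2 c720) (Rb (Lsw H i3 i76 b2273) r146) (Rc i76 i4 c947.symm) (Rc i76 i5 c1295)
  have r66 : t66 ∈ rad G := Lrad5 i1 i2 i3 i4 i5 hF i66 (Rc i66 i1 c700) (Rc i66 i2 c829.symm) (Rc i66 i3 c847.symm) (Rb (Lsw H i4 i66 b2280) r153) (Rc i66 i5 c1301)
  have r47 : t47 ∈ rad G := Lrad5 i1 i2 i3 i4 i5 hF i47 (Rb (Lsw H i1 i47 b632) r66) (Rc i47 i2 c390) (Rc i47 i3 c384) (Rb (Lsw H i4 i47 b657) r91) (Rc i47 i5 c205)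
  have r46 : t46 ∈ rad G := Lrad5 i1 i2 i3 i4 i5 hF i46 (Rc i46 i1 c395) (Rb (Lsw H i2 i46 b642) r76) (Rb (Lsw H i3 i46 b650) r84) (Rc i46 i4 c379) (Rc i46 i5 c203)
  have r464 : t464 ∈ rad G := Lrad5 i1 i2 i3 i4 i5 hF i464 (Rb (Lsw H i1 i464 b37880) r205) (Rc i464 i2 c32803.symm) (Rc i464 i3 c33466.symm) (Rc i464 i4 c32108) (Rc i464 i5 c34769)
  have r456 : t456 ∈ rad G := Lrad5 i1 i2 i3 i4 i5 hF i456 (Rc i456 i1 c32169.symm) (Rb b38766 r218) (Rc i456 i3 c32092) (Rc i456 i4 c33470.symm) (Rc i456 i5 c34773)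
  have r450 : t450 ∈ rad G := Lrad5 i1 i2 i3 i4 i5 hF i450 (Rc i450 i1 c32157.symm) (Rc i450 i2 c32080) (Rb (Lsw H i3 i450 b37881) r236) (Rc i450 i4 c32808.symm) (Rc i450 i5 c34779)
  have r444 : t444 ∈ rad G := Lrad5 i1 i2 i3 i4 i5 hF i444 (Rc i444 i1 c32068) (Rc i444 i2 c32161.symm) (Rc i444 i3 c32175.symm) (Rb (Lsw H i4 i444 b37882) r254) (Rc i444 i5 c34783)
  have r386 : t386 ∈ rad G := Lrad5 i1 i2 i3 i4 i5 hF i386 (Rb (Lsw H i1 i386 b32019) r444) (Rc i386 i2 c21387.symm) (Rc i386 i3 c21976.symm) (Rc i386 i4 c20491) (Rc i386 i5 c22996)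
  have r384 : t384 ∈ rad G := Lrad5 i1 i2 i3 i4 i5 hF i384 (Rb b31226 r205) (Rc i384 i2 c21379.symm) (Rc i384 i3 c21968.symm) (Rc i384 i4 c20487) (Rc i384 i5 c23626)
  have r378 : t378 ∈ rad G := Lrad5 i1 i2 i3 i4 i5 hF i378 (Rc i378 i1 c20627.symm) (Rb (Lsw H i2 i378 b32025) r450) (Rc i378 i3 c20475) (Rc i378 i4 c21975.symm) (Rc i378 i5 c22254)
  have r376 : t376 ∈ rad G := Lrad5 i1 i2 i3 i4 i5 hF i376 (Rc i376 i1 c20620.symm) (Rb b31992 r218) (Rc i376 i3 c20471) (Rc i376 i4 c21972.symm) (Rc i376 i5 c23646)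
  have r370 : t370 ∈ rad G := Lrad5 i1 i2 i3 i4 i5 hF i370 (Rc i370 i1 c20609.symm) (Rc i370 i2 c20459) (Rb (Lsw H i3 i370 b32031) r456) (Rc i370 i4 c21384.symm) (Rc i370 i5 c21630)
  have r369 : t369 ∈ rad G := Lrad5 i1 i2 i3 i4 i5 hF i369 (Rc i369 i1 c20604.symm) (Rc i369 i2 c20457) (Rb b31994 r236) (Rc i369 i4 c21383.symm) (Rc i369 i5 c23664)
  have r361 : t361 ∈ rad G := Lrad5 i1 i2 i3 i4 i5 hF i361 (Rc i361 i1 c20441) (Rc i361 i2 c20610.symm) (Rc i361 i3 c20626.symm) (Rb (Lsw H i4 i361 b32039) r464) (Rc i361 i5 c20951)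
  have r360 : t360 ∈ rad G := Lrad5 i1 i2 i3 i4 i5 hF i360 (Rc i360 i1 c20439) (Rc i360 i2 c20608.symm) (Rc i360 i3 c20624.symm) (Rb b31455 r254) (Rc i360 i5 c23681)
  have r276 : t276 ∈ rad G := Lrad5 i1 i2 i3 i4 i5 hF i276 (Rb (Lsw H i1 i276 b20354) r362) (Rc i276 i2 c8818) (Rc i276 i3 c9953) (Rb (Lsw H i4 i276 b20378) r386) (Rc i276 i5 c6131)
  have r271 : t271 ∈ rad G := Lrad5 i1 i2 i3 i4 i5 hF i271 (Rc i271 i1 c8800) (Rb (Lsw H i2 i271 b20363) r371) (Rb (Lsw H i3 i271 b20370) r378) (Rc i271 i4 c9482) (Rc i271 i5 c6121)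
  have r270 : t270 ∈ rad G := Lrad5 i1 i2 i3 i4 i5 hF i270 (Rb (Lsw H i1 i270 b20353) r361) (Rc i270 i2 c8678) (Rc i270 i3 c9923) (Rb (Lsw H i4 i270 b20377) r385) (Rc i270 i5 c6119)
  have r269 : t269 ∈ rad G := Lrad5 i1 i2 i3 i4 i5 hF i269 (Rc i269 i1 c8731) (Rb (Lsw H i2 i269 b20362) r370) (Rb (Lsw H i3 i269 b20369) r377) (Rc i269 i4 c9446) (Rc i269 i5 c6117)
  have r260 : t260 ∈ rad G := Lrad5 i1 i2 i3 i4 i5 hF i260 (Rb (Lsw H i1 i260 b20352) r360) (Rc i260 i2 c6781.symm) (Rc i260 i3 c7336.symm) (Rc i260 i4 c6099) (Rc i260 i5 c9036)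
  have r240 : t240 ∈ rad G := Lrad5 i1 i2 i3 i4 i5 hF i240 (Rc i240 i1 c6334.symm) (Rb (Lsw H i2 i240 b20361) r369) (Rc i240 i3 c6059) (Rc i240 i4 c7334.symm) (Rc i240 i5 c9020)
  have r223 : t223 ∈ rad G := Lrad5 i1 i2 i3 i4 i5 hF i223 (Rc i223 i1 c6309.symm) (Rc i223 i2 c6025) (Rb (Lsw H i3 i223 b20368) r376) (Rc i223 i4 c6779.symm) (Rc i223 i5 c9019)
  have r209 : t209 ∈ rad G := Lrad5 i1 i2 i3 i4 i5 hF i209 (Rc i209 i1 c5997) (Rc i209 i2 c6311.symm) (Rc i209 i3 c6336.symm) (Rb (Lsw H i4 i209 b20376) r384) (Rc i209 i5 c9035)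
  have r161 : t161 ∈ rad G := Lrad5 i1 i2 i3 i4 i5 hF i161 (Rb (Lsw H i1 i161 b5837) r209) (Rc i161 i2 c3419) (Rc i161 i3 c3877) (Rb (Lsw H i4 i161 b5888) r260) (Rc i161 i5 c2412)
  have r159 : t159 ∈ rad G := Lrad5 i1 i2 i3 i4 i5 hF i159 (Rc i159 i1 c3427) (Rb (Lsw H i2 i159 b5851) r223) (Rb (Lsw H i3 i159 b5868) r240) (Rc i159 i4 c3682) (Rc i159 i5 c2408)
  have r151 : t151 ∈ rad G := Lrad5 i1 i2 i3 i4 i5 hF i151 (Rc i151 i1 c3258) (Rb b13989 r220) (Rc i151 i3 c3002.symm) (Rc i151 i4 c2392) (Rb b14839 r276)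
  have r144 : t144 ∈ rad G := Lrad5 i1 i2 i3 i4 i5 hF i144 (Rb b13631 r204) (Rc i144 i2 c3090) (Rc i144 i3 c2378) (Rc i144 i4 c3005.symm) (Rb (Lsw H i5 i144 b5907) r271)
  have r135 : t135 ∈ rad G := Lrad5 i1 i2 i3 i4 i5 hF i135 (Rc i135 i1 c2512.symm) (Rc i135 i2 c2360) (Rb (Lsw H i3 i135 b5863) r235) (Rc i135 i4 c2784.symm) (Rb (Lsw H i5 i135 b5904) r276)
  have r134 : t134 ∈ rad G := Lrad5 i1 i2 i3 i4 i5 hF i134 (Rb (Lsw H i1 i134 b5831) r203) (Rc i134 i2 c2358) (Rc i134 i3 c2868) (Rc i134 i4 c2783.symm) (Rb (Lsw H i5 i134 b5903) r269)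
  have r124 : t124 ∈ rad G := Lrad5 i1 i2 i3 i4 i5 hF i124 (Rc i124 i1 c2338) (Rb (Lsw H i2 i124 b5844) r203) (Rc i124 i3 c2537.symm) (Rc i124 i4 c2624) (Rb (Lsw H i5 i124 b5900) r270)
  have r123 : t123 ∈ rad G := Lrad5 i1 i2 i3 i4 i5 hF i123 (Rc i123 i1 c2336) (Rc i123 i2 c2510.symm) (Rc i123 i3 c2536.symm) (Rb b14292 r235) (Rb (Lsw H i5 i123 b5899) r271)
  have r121 : t121 ∈ rad G := Lrad5 i1 i2 i3 i4 i5 hF i121 (Rc i121 i1 c2332) (Rc i121 i2 c2508.symm) (Rb (Lsw H i3 i121 b5861) r204) (Rc i121 i4 c2611) (Rb (Lsw H i5 i121 b5898) r270)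
  have r120 : t120 ∈ rad G := Lrad5 i1 i2 i3 i4 i5 hF i120 (Rc i120 i1 c2330) (Rc i120 i2 c2507.symm) (Rc i120 i3 c2532.symm) (Rb (Lsw H i4 i120 b5881) r220) (Rb (Lsw H i5 i120 b5897) r269)
  have r96 : t96 ∈ rad G := Lrad5 i1 i2 i3 i4 i5 hF i96 (Rb (Lsw H i1 i96 b2256) r129) (Rc i96 i2 c1253) (Rc i96 i3 c1404) (Rb b5273 r91) (Rc i96 i5 c760)
  have r95 : t95 ∈ rad G := Lrad5 i1 i2 i3 i4 i5 hF i95 (Rc i95 i1 c1251) (Rb (Lsw H i2 i95 b2266) r139) (Rb (Lsw H i3 i95 b2276) r84) (Rc i95 i4 c1348) (Rc i95 i5 c758)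
  have r93 : t93 ∈ rad G := Lrad5 i1 i2 i3 i4 i5 hF i93 (Rc i93 i1 c1242) (Rb (Lsw H i2 i93 b2265) r76) (Rb (Lsw H i3 i93 b2275) r148) (Rc i93 i4 c1341) (Rc i93 i5 c754)
  have r92 : t92 ∈ rad G := Lrad5 i1 i2 i3 i4 i5 hF i92 (Rb (Lsw H i1 i92 b2255) r66) (Rc i92 i2 c1226) (Rc i92 i3 c1340) (Rb (Lsw H i4 i92 b2282) r155) (Rc i92 i5 c752)
  have r88 : t88 ∈ rad G := Lrad5 i1 i2 i3 i4 i5 hF i88 (Rb (Lsw H i1 i88 b2253) r126) (Rb (Lsw H i2 i88 b2264) r134) (Rb (Lsw H i3 i88 b2274) r144) (Rc i88 i4 c744) (Rb (Lsw H i5 i88 b2290) r159)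
  have r83 : t83 ∈ rad G := Lrad5 i1 i2 i3 i4 i5 hF i83 (Rc i83 i1 c845.symm) (Rb (Lsw H i2 i83 b2262) r135) (Rc i83 i3 c734) (Rc i83 i4 c1054.symm) (Rc i83 i5 c2019)
  have r82 : t82 ∈ rad G := Lrad5 i1 i2 i3 i4 i5 hF i82 (Rb (Lsw H i1 i82 b2252) r124) (Rb b5615 r140) (Rc i82 i3 c732) (Rb (Lsw H i4 i82 b2281) r151) (Rb b5337 r161)
  have r81 : t81 ∈ rad G := Lrad5 i1 i2 i3 i4 i5 hF i81 (Rb (Lsw H i1 i81 b2251) r124) (Rb (Lsw H i2 i81 b2261) r134) (Rc i81 i3 c730) (Rc i81 i4 c1051.symm) (Rb (Lsw H i5 i81 b2289) r162)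
  have r80 : t80 ∈ rad G := Lrad5 i1 i2 i3 i4 i5 hF i80 (Rb (Lsw H i1 i80 b2250) r123) (Rc i80 i2 c1094) (Rc i80 i3 c728) (Rc i80 i4 c1050.symm) (Rc i80 i5 c2020)
  have r77 : t77 ∈ rad G := Lrad5 i1 i2 i3 i4 i5 hF i77 (Rc i77 i1 c836.symm) (Rc i77 i2 c1085) (Rc i77 i3 c722) (Rb b5186 r144) (Rc i77 i5 c2014)
  have r74 : t74 ∈ rad G := Lrad5 i1 i2 i3 i4 i5 hF i74 (Rc i74 i1 c826.symm) (Rc i74 i2 c716) (Rb b5187 r151) (Rc i74 i4 c945.symm) (Rc i74 i5 c2017)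
  have r73 : t73 ∈ rad G := Lrad5 i1 i2 i3 i4 i5 hF i73 (Rb (Lsw H i1 i73 b2249) r121) (Rc i73 i2 c714) (Rb (Lsw H i3 i73 b2272) r145) (Rb b5117 r135) (Rb (Lsw H i5 i73 b2288) r161)
  have r72 : t72 ∈ rad G := Lrad5 i1 i2 i3 i4 i5 hF i72 (Rb (Lsw H i1 i72 b2248) r121) (Rc i72 i2 c712) (Rb (Lsw H i3 i72 b2271) r144) (Rc i72 i4 c943.symm) (Rb (Lsw H i5 i72 b2287) r160)
  have r71 : t71 ∈ rad G := Lrad5 i1 i2 i3 i4 i5 hF i71 (Rb (Lsw H i1 i71 b2247) r120) (Rc i71 i2 c710) (Rc i71 i3 c988) (Rc i71 i4 c942.symm) (Rc i71 i5 c2018)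
  have r67 : t67 ∈ rad G := Lrad5 i1 i2 i3 i4 i5 hF i67 (Rc i67 i1 c816.symm) (Rc i67 i2 c702) (Rc i67 i3 c980) (Rb b5112 r134) (Rc i67 i5 c2016)
  have r65 : t65 ∈ rad G := Lrad5 i1 i2 i3 i4 i5 hF i65 (Rc i65 i1 c698) (Rb (Lsw H i2 i65 b2260) r120) (Rb (Lsw H i3 i65 b2270) r123) (Rb (Lsw H i4 i65 b2279) r152) (Rb (Lsw H i5 i65 b2286) r159)
  have r63 : t63 ∈ rad G := Lrad5 i1 i2 i3 i4 i5 hF i63 (Rc i63 i1 c694) (Rb (Lsw H i2 i63 b2259) r121) (Rc i63 i3 c843.symm) (Rc i63 i4 c878) (Rc i63 i5 c2013)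
  have r62 : t62 ∈ rad G := Lrad5 i1 i2 i3 i4 i5 hF i62 (Rc i62 i1 c692) (Rb (Lsw H i2 i62 b2258) r120) (Rc i62 i3 c842.symm) (Rb (Lsw H i4 i62 b2278) r151) (Rb (Lsw H i5 i62 b2285) r158)
  have r60 : t60 ∈ rad G := Lrad5 i1 i2 i3 i4 i5 hF i60 (Rc i60 i1 c688) (Rc i60 i2 c821.symm) (Rb (Lsw H i3 i60 b2269) r124) (Rc i60 i4 c886) (Rc i60 i5 c2015)
  have r59 : t59 ∈ rad G := Lrad5 i1 i2 i3 i4 i5 hF i59 (Rc i59 i1 c686) (Rc i59 i2 c820.symm) (Rb (Lsw H i3 i59 b2268) r123) (Rb (Lsw H i4 i59 b2277) r135) (Rb (Lsw H i5 i59 b2284) r157)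
  have r56 : t56 ∈ rad G := Lrad5 i1 i2 i3 i4 i5 hF i56 (Rb b1731 r77) (Rc i56 i2 c337) (Rc i56 i3 c335.symm) (Rb b1824 r80) (Rc i56 i5 c332)
  have r45 : t45 ∈ rad G := Lrad5 i1 i2 i3 i4 i5 hF i45 (Rb (Lsw H i1 i45 b631) r65) (Rb (Lsw H i2 i45 b641) r71) (Rb b1827 r80) (Rc i45 i4 c201) (Rc i45 i5 c355)
  have r41 : t41 ∈ rad G := Lrad5 i1 i2 i3 i4 i5 hF i41 (Rc i41 i1 c364) (Rb (Lsw H i2 i41 b640) r74) (Rb (Lsw H i3 i41 b649) r83) (Rc i41 i4 c193) (Rc i41 i5 c349)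
  have r40 : t40 ∈ rad G := Lrad5 i1 i2 i3 i4 i5 hF i40 (Rb (Lsw H i1 i40 b630) r63) (Rb (Lsw H i2 i40 b639) r73) (Rc i40 i3 c191) (Rb (Lsw H i4 i40 b656) r83) (Rc i40 i5 c325)
  have r39 : t39 ∈ rad G := Lrad5 i1 i2 i3 i4 i5 hF i39 (Rb (Lsw H i1 i39 b629) r63) (Rb (Lsw H i2 i39 b638) r72) (Rc i39 i3 c189) (Rc i39 i4 c322.symm) (Rb (Lsw H i5 i39 b665) r95)
  have r38 : t38 ∈ rad G := Lrad5 i1 i2 i3 i4 i5 hF i38 (Rb (Lsw H i1 i38 b628) r62) (Rb (Lsw H i2 i38 b637) r71) (Rc i38 i3 c187) (Rc i38 i4 c320.symm) (Rb (Lsw H i5 i38 b664) r96)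
  have r36 : t36 ∈ rad G := Lrad5 i1 i2 i3 i4 i5 hF i36 (Rb b1722 r67) (Rc i36 i2 c183) (Rc i36 i3 c304) (Rb b1782 r71) (Rc i36 i5 c298)
  have r35 : t35 ∈ rad G := Lrad5 i1 i2 i3 i4 i5 hF i35 (Rb (Lsw H i1 i35 b627) r60) (Rc i35 i2 c181) (Rb (Lsw H i3 i35 b648) r82) (Rb (Lsw H i4 i35 b655) r74) (Rc i35 i5 c290)
  have r34 : t34 ∈ rad G := Lrad5 i1 i2 i3 i4 i5 hF i34 (Rb (Lsw H i1 i34 b626) r60) (Rc i34 i2 c179) (Rb (Lsw H i3 i34 b647) r81) (Rc i34 i4 c286.symm) (Rb (Lsw H i5 i34 b663) r93)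
  have r33 : t33 ∈ rad G := Lrad5 i1 i2 i3 i4 i5 hF i33 (Rb (Lsw H i1 i33 b625) r59) (Rc i33 i2 c177) (Rb (Lsw H i3 i33 b646) r80) (Rc i33 i4 c285.symm) (Rb (Lsw H i5 i33 b662) r96)
  have r30 : t30 ∈ rad G := Lrad5 i1 i2 i3 i4 i5 hF i30 (Rc i30 i1 c171) (Rb (Lsw H i2 i30 b636) r67) (Rb (Lsw H i3 i30 b645) r77) (Rb (Lsw H i4 i30 b654) r88) (Rc i30 i5 c263)
  have r28 : t28 ∈ rad G := Lrad5 i1 i2 i3 i4 i5 hF i28 (Rc i28 i1 c167) (Rb (Lsw H i2 i28 b635) r60) (Rb b1734 r63) (Rc i28 i4 c256) (Rc i28 i5 c250)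
  have r27 : t27 ∈ rad G := Lrad5 i1 i2 i3 i4 i5 hF i27 (Rc i27 i1 c165) (Rb (Lsw H i2 i27 b634) r59) (Rc i27 i3 c247.symm) (Rb b1821 r83) (Rb (Lsw H i5 i27 b661) r95)
  have r26 : t26 ∈ rad G := Lrad5 i1 i2 i3 i4 i5 hF i26 (Rc i26 i1 c163) (Rb (Lsw H i2 i26 b633) r67) (Rc i26 i3 c246.symm) (Rb (Lsw H i4 i26 b653) r81) (Rb (Lsw H i5 i26 b660) r92)
  have r25 : t25 ∈ rad G := Lrad5 i1 i2 i3 i4 i5 hF i25 (Rc i25 i1 c161) (Rc i25 i2 c236.symm) (Rb (Lsw H i3 i25 b644) r62) (Rb (Lsw H i4 i25 b652) r74) (Rb (Lsw H i5 i25 b659) r93)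
  have r24 : t24 ∈ rad G := Lrad5 i1 i2 i3 i4 i5 hF i24 (Rc i24 i1 c159) (Rc i24 i2 c235.symm) (Rb (Lsw H i3 i24 b643) r77) (Rb (Lsw H i4 i24 b651) r72) (Rb (Lsw H i5 i24 b658) r92)
  have r23 : t23 ∈ rad G := Lrad5 i1 i2 i3 i4 i5 hF i23 (Rb (Lsw H i1 i23 b130) r30) (Rb (Lsw H i2 i23 b136) r36) (Rb b565 r56) (Rb (Lsw H i4 i23 b145) r45) (Rc i23 i5 c65)
  have r22 : t22 ∈ rad G := Lrad5 i1 i2 i3 i4 i5 hF i22 (Rb (Lsw H i1 i22 b129) r28) (Rb (Lsw H i2 i22 b135) r35) (Rb (Lsw H i3 i22 b140) r40) (Rb (Lsw H i4 i22 b144) r41) (Rc i22 i5 c63)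
  have r20 : t20 ∈ rad G := Lrad5 i1 i2 i3 i4 i5 hF i20 (Rb (Lsw H i1 i20 b128) r28) (Rb (Lsw H i2 i20 b134) r34) (Rb (Lsw H i3 i20 b139) r39) (Rc i20 i4 c59) (Rb (Lsw H i5 i20 b149) r46)
  have r19 : t19 ∈ rad G := Lrad5 i1 i2 i3 i4 i5 hF i19 (Rb (Lsw H i1 i19 b127) r27) (Rb (Lsw H i2 i19 b133) r33) (Rc i19 i3 c57) (Rc i19 i4 c93.symm) (Rc i19 i5 c90)
  have r18 : t18 ∈ rad G := Lrad5 i1 i2 i3 i4 i5 hF i18 (Rb (Lsw H i1 i18 b126) r26) (Rb b504 r36) (Rc i18 i3 c55) (Rb (Lsw H i4 i18 b143) r38) (Rb (Lsw H i5 i18 b148) r47)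
  have r16 : t16 ∈ rad G := Lrad5 i1 i2 i3 i4 i5 hF i16 (Rb (Lsw H i1 i16 b125) r25) (Rc i16 i2 c51) (Rb (Lsw H i3 i16 b138) r38) (Rc i16 i4 c83.symm) (Rc i16 i5 c80)
  have r15 : t15 ∈ rad G := Lrad5 i1 i2 i3 i4 i5 hF i15 (Rb (Lsw H i1 i15 b124) r24) (Rc i15 i2 c49) (Rb b566 r56) (Rb (Lsw H i4 i15 b142) r33) (Rb (Lsw H i5 i15 b147) r47)
  have r14 : t14 ∈ rad G := Lrad5 i1 i2 i3 i4 i5 hF i14 (Rc i14 i1 c68.symm) (Rc i14 i2 c47) (Rb b521 r26) (Rb b543 r34) (Rc i14 i5 c67)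
  have r13 : t13 ∈ rad G := Lrad5 i1 i2 i3 i4 i5 hF i13 (Rc i13 i1 c45) (Rb (Lsw H i2 i13 b132) r25) (Rb (Lsw H i3 i13 b137) r27) (Rb (Lsw H i4 i13 b141) r41) (Rb (Lsw H i5 i13 b146) r46)
  have r12 : t12 ∈ rad G := Lrad5 i1 i2 i3 i4 i5 hF i12 (Rc i12 i1 c43) (Rb (Lsw H i2 i12 b131) r24) (Rc i12 i3 c74.symm) (Rb b560 r39) (Rc i12 i5 c72)
  have r11 : t11 ∈ rad G := Lrad5 i1 i2 i3 i4 i5 hF i11 (Rb (Lsw H i1 i11 b32) r13) (Rb (Lsw H i2 i11 b35) r16) (Rb (Lsw H i3 i11 b38) r19) (Rc i11 i4 c20) (Rc i11 i5 c21)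
  have r10 : t10 ∈ rad G := Lrad5 i1 i2 i3 i4 i5 hF i10 (Rb (Lsw H i1 i10 b31) r12) (Rb (Lsw H i2 i10 b34) r15) (Rc i10 i3 c18) (Rb (Lsw H i4 i10 b40) r19) (Rc i10 i5 c19)
  have r9 : t9 ∈ rad G := Lrad5 i1 i2 i3 i4 i5 hF i9 (Rb b114 r14) (Rc i9 i2 c16) (Rb (Lsw H i3 i9 b37) r18) (Rb b118 r16) (Rc i9 i5 c17)
  have r8 : t8 ∈ rad G := Lrad5 i1 i2 i3 i4 i5 hF i8 (Rc i8 i1 c22.symm) (Rc i8 i2 c14) (Rc i8 i3 c15) (Rc i8 i4 c27.symm) (Rb (Lsw H i5 i8 b42) r23)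
  have r7 : t7 ∈ rad G := Lrad5 i1 i2 i3 i4 i5 hF i7 (Rc i7 i1 c12) (Rb (Lsw H i2 i7 b33) r14) (Rb (Lsw H i3 i7 b36) r12) (Rb (Lsw H i4 i7 b39) r20) (Rc i7 i5 c13)
  have r6 : t6 ∈ rad G := Lrad5 i1 i2 i3 i4 i5 hF i6 (Rc i6 i1 c10) (Rc i6 i2 c23.symm) (Rc i6 i3 c25.symm) (Rc i6 i4 c11) (Rb (Lsw H i5 i6 b41) r22)
  have r5 : e ∈ rad G := Lrad5 i1 i2 i3 i4 i5 hF i5 (Rb (Lsw H i1 i5 b5) r7) (Rb (Lsw H i2 i5 b7) r9) (Rb (Lsw H i3 i5 b8) r10) (Rb (Lsw H i4 i5 b9) r11) (Rc i5 i5 (Commute.refl _))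
  have r4 : d ∈ rad G := Lrad5 i1 i2 i3 i4 i5 hF i4 (Rb (Lsw H i1 i4 b4) r6) (Rc i4 i2 hbd.symm) (Rc i4 i3 hcd.symm) (Rc i4 i4 (Commute.refl _)) (Rb b9 r11)
  have r3 : c ∈ rad G := Lrad5 i1 i2 i3 i4 i5 hF i3 (Rc i3 i1 hac.symm) (Rb (Lsw H i2 i3 b6) r8) (Rc i3 i3 (Commute.refl _)) (Rc i3 i4 hcd) (Rb b8 r10)
  have r2 : b ∈ rad G := Lrad5 i1 i2 i3 i4 i5 hF i2 (Rc i2 i1 hab.symm) (Rc i2 i2 (Commute.refl _)) (Rb b6 r8) (Rc i2 i4 hbd) (Rb b7 r9)
  have r1 : a ∈ rad G := Lrad5 i1 i2 i3 i4 i5 hF i1 (Rc i1 i1 (Commute.refl _)) (Rc i1 i2 hab) (Rc i1 i3 hac) (Rb b4 r6) (Rb b5 r7)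
  exact ⟨r1, r2, r3, r4, r5⟩

end Pool.Agent.H678.Inv
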