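import Pool.Agent.H678.Inv.L5

/-!
# Five involutions, commuting pairs: ab ac bd ce

The derivation was found by a saturation program.  `t`: commutators of involutions, `i`: their
squares are `1`, `b`: brackets, `c`: commuting elements, `e`, `m`: equalities, `q`: relations
between commuting elements, `r`: elements of the radical.
-/

set_option autoImplicit false
set_option linter.unusedVariables false

namespace Pool.Agent.H678.Inv

open Pool.Agent.W5h59.Bu (LFn LF2 rad rad_lf rad_quot le_rad lf_of_comm)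

universe u

variable {G : Type u} [Group G]

theorem fin5_P (H : E2 G) {a b c d e : G} (i1 : a * a = 1) (i2 : b * b = 1) (i3 : c * c = 1) (i4 : d * d = 1) (i5 : e * e = 1)
    (hab : Commute a b) (hac : Commute a c) (hbd : Commute b d) (hce : Commute c e)
    (hF : Subgroup.closure ({a, b, c, d, e} : Set G) = ⊤) :
    a ∈ rad G ∧ b ∈ rad G ∧ c ∈ rad G ∧ d ∈ rad G ∧ e ∈ rad G := by
  obtain ⟨t6, b4⟩ : ∃ t, k a d = t := ⟨_, rfl⟩
  have i6 := Linv H i1 i4 b4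
  obtain ⟨t7, b5⟩ : ∃ t, k a e = t := ⟨_, rfl⟩
  have i7 := Linv H i1 i5 b5
  obtain ⟨t8, b6⟩ : ∃ t, k b c = t := ⟨_, rfl⟩
  have i8 := Linv H i2 i3 b6
  obtain ⟨t9, b7⟩ : ∃ t, k b e = t := ⟨_, rfl⟩
  have i9 := Linv H i2 i5 b7
  obtain ⟨t10, b8⟩ : ∃ t, k c d = t := ⟨_, rfl⟩
  have i10 := Linv H i3 i4 b8
  obtain ⟨t11, b9⟩ : ∃ t, k d e = t := ⟨_, rfl⟩
  have i11 := Linv H i4 i5 b9
  have c10 := Lkl H i1 i4 b4
  have c11 := Lkr H i1 i4 b4
  have c12 := Lkl H i1 i5 b5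
  have c13 := Lkr H i1 i5 b5
  have c14 := Lkl H i2 i3 b6
  have c15 := Lkr H i2 i3 b6
  have c16 := Lkl H i2 i5 b7
  have c17 := Lkr H i2 i5 b7
  have c18 := Lkl H i3 i4 b8
  have c19 := Lkr H i3 i4 b8
  have c20 := Lkl H i4 i5 b9
  have c21 := Lkr H i4 i5 b9
  have c22 := Lck hab hac b6
  have c23 := Lck hab.symm hbd b4
  have c24 := LP2 H i1 i2 i5 hab b5 b7
  have c25 := LP2 H i1 i3 i4 hac b4 b8
  have c26 := Lck hac.symm hce b5
  have c27 := LP2 H i2 i4 i3 hbd b6 (Lsw H i3 i4 b8)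
  have c28 := LP2 H i2 i4 i5 hbd b7 b9
  have c29 := LP2 H i3 i5 i2 hce (Lsw H i2 i3 b6) (Lsw H i2 i5 b7)
  have c30 := LP2 H i3 i5 i4 hce b8 (Lsw H i4 i5 b9)
  obtain ⟨t12, b31⟩ : ∃ t, k a t9 = t := ⟨_, rfl⟩
  have i12 := Linv H i1 i9 b31
  obtain ⟨t13, b32⟩ : ∃ t, k a t10 = t := ⟨_, rfl⟩
  have i13 := Linv H i1 i10 b32
  obtain ⟨t14, b33⟩ : ∃ t, k a t11 = t := ⟨_, rfl⟩
  have i14 := Linv H i1 i11 b33
  obtain ⟨t15, b34⟩ : ∃ t, k b t7 = t := ⟨_, rfl⟩
  have i15 := Linv H i2 i7 b34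
  obtain ⟨t16, b35⟩ : ∃ t, k b t10 = t := ⟨_, rfl⟩
  have i16 := Linv H i2 i10 b35
  obtain ⟨t17, b36⟩ : ∃ t, k b t11 = t := ⟨_, rfl⟩
  have i17 := Linv H i2 i11 b36
  obtain ⟨t18, b37⟩ : ∃ t, k c t9 = t := ⟨_, rfl⟩
  have i18 := Linv H i3 i9 b37
  obtain ⟨t19, b38⟩ : ∃ t, k c t11 = t := ⟨_, rfl⟩
  have i19 := Linv H i3 i11 b38
  obtain ⟨t20, b39⟩ : ∃ t, k d t7 = t := ⟨_, rfl⟩
  have i20 := Linv H i4 i7 b39
  obtain ⟨t21, b40⟩ : ∃ t, k d t8 = t := ⟨_, rfl⟩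
  have i21 := Linv H i4 i8 b40
  obtain ⟨t22, b41⟩ : ∃ t, k d t9 = t := ⟨_, rfl⟩
  have i22 := Linv H i4 i9 b41
  obtain ⟨t23, b42⟩ : ∃ t, k e t6 = t := ⟨_, rfl⟩
  have i23 := Linv H i5 i6 b42
  obtain ⟨t24, b43⟩ : ∃ t, k e t8 = t := ⟨_, rfl⟩
  have i24 := Linv H i5 i8 b43
  have c44 := Lkl H i1 i9 b31
  have c45 := Lkr H i1 i9 b31
  have c46 := Lkl H i1 i10 b32
  have c47 := Lkr H i1 i10 b32
  have c48 := Lkl H i1 i11 b33
  have c52 := Lkl H i2 i10 b35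
  have c53 := Lkr H i2 i10 b35
  have c54 := Lkl H i2 i11 b36
  have c56 := Lkl H i3 i9 b37
  have c58 := Lkl H i3 i11 b38
  have c59 := Lkr H i3 i11 b38
  have c60 := Lkl H i4 i7 b39
  have c61 := Lkr H i4 i7 b39
  have c66 := Lkl H i5 i6 b42
  have c67 := Lkr H i5 i6 b42
  have c71 := LP3 H i2 i1 i5 hab.symm b7 (Lsw H i1 i9 b31)
  have c73 := Lck hab.symm c16.symm b31
  have c74 := LP2 H i1 i2 i10 hab b32 b35
  have c75 := LP2 H i1 i2 i11 hab b33 b36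
  have c76 := LP3 H i3 i1 i4 hac.symm b8 (Lsw H i1 i10 b32)
  have c77 := LP2 H i1 i3 i9 hac b31 b37
  have c78 := Lck hac.symm c18.symm b32
  have c79 := LP2 H i1 i3 i11 hac b33 b38
  have c80 := LP2 H i1 i6 i5 c10.symm b5 (Lsw H i5 i6 b42)
  have c81 := Lck c10 c25 b32
  have c82 := LP2 H i1 i7 i4 c12.symm b4 (Lsw H i4 i7 b39)
  have c83 := Lck c12 c24 b31
  have c86 := Lck c22.symm c29 b31
  have c87 := Lck c22.symm c27 b32
  have c89 := LP3 H i4 i2 i3 hbd.symm (Lsw H i3 i4 b8) (Lsw H i2 i10 b35)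
  have c91 := LP3 H i4 i2 i5 hbd.symm b9 (Lsw H i2 i11 b36)
  have c92 := LP2 H i2 i4 i7 hbd b34 b39
  have c95 := Lck hbd.symm c19.symm b35
  have c96 := Lck hbd.symm c20.symm b36
  have c97 := LP2 H i2 i6 i5 c23 b7 (Lsw H i5 i6 b42)
  have c98 := Lck c23.symm c25 b35
  have c101 := LP2 H i2 i9 i3 c16.symm b6 (Lsw H i3 i9 b37)
  have c103 := Lck c16 c28 b36
  have c105 := LP3 H i5 i3 i2 hce.symm (Lsw H i2 i5 b7) (Lsw H i3 i9 b37)
  have c106 := LP3 H i5 i3 i4 hce.symm (Lsw H i4 i5 b9) (Lsw H i3 i11 b38)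
  have c108 := Lck hce.symm c17.symm b37
  have c109 := Lck hce.symm c21.symm b38
  have c111 := LP2 H i3 i7 i4 c26 b8 (Lsw H i4 i7 b39)
  have c112 := Lck c26.symm c24 b37
  have c114 := Lck c18 c30 b38
  have c115 := LP2 H i4 i6 i5 c11.symm b9 (Lsw H i5 i6 b42)
  have c116 := LP2 H i4 i11 i1 c20.symm (Lsw H i1 i4 b4) (Lsw H i1 i11 b33)
  have c118 := LP2 H i5 i7 i4 c13.symm (Lsw H i4 i5 b9) (Lsw H i4 i7 b39)
  have c119 := LP2 H i5 i11 i1 c21.symm (Lsw H i1 i5 b5) (Lsw H i1 i11 b33)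
  have c120 := LP2 H i7 i9 i4 c24 (Lsw H i4 i7 b39) (Lsw H i4 i9 b41)
  have c122 := LP2 H i9 i11 i1 c28 (Lsw H i1 i9 b31) (Lsw H i1 i11 b33)
  have c123 := LP2 H i9 i11 i3 c28 (Lsw H i3 i9 b37) (Lsw H i3 i11 b38)
  have c124 := LP2 H i10 i11 i1 c30 (Lsw H i1 i10 b32) (Lsw H i1 i11 b33)
  have c125 := LP2 H i10 i11 i2 c30 (Lsw H i2 i10 b35) (Lsw H i2 i11 b36)
  have e126 := (LP1 H i1 i2 i5 hab b5 b7 (Lsw H i2 i7 b34)).symm.trans (Lsw H i1 i9 b31)
  have m127 : t12 = t15 := e126.symm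
  subst m127
  have b128 := LP1 H i3 i1 i4 hac.symm b8 b4 (Lsw H i1 i10 b32)
  have e129 := (LP1 H i2 i4 i3 hbd b6 (Lsw H i3 i4 b8) (Lsw H i4 i8 b40)).symm.trans (Lsw H i2 i10 b35)
  have m130 : t16 = t21 := e129.symm
  subst m130
  have e131 := (LP1 H i2 i4 i5 hbd b7 b9 (Lsw H i4 i9 b41)).symm.trans (Lsw H i2 i11 b36)
  have m132 : t17 = t22 := e131.symm
  subst m132
  have e134 := (LP1 H i3 i5 i2 hce (Lsw H i2 i3 b6) (Lsw H i2 i5 b7) (Lsw H i5 i8 b43)).symm.trans (Lsw H i3 i9 b37)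
  have m135 : t18 = t24 := e134.symm
  subst m135
  have b136 := LP1 H i5 i3 i4 hce.symm (Lsw H i4 i5 b9) b8 (Lsw H i3 i11 b38)
  have c137 := LP2 H i3 i5 i6 hce (Lsw H i6 i3 b128) b42
  have c138 := LP2 H i6 i10 i5 c25 (Lsw H i5 i6 b42) b136
  obtain ⟨t25, b139⟩ : ∃ t, k a t16 = t := ⟨_, rfl⟩
  have i25 := Linv H i1 i16 b139
  obtain ⟨t26, b140⟩ : ∃ t, k a t17 = t := ⟨_, rfl⟩
  have i26 := Linv H i1 i17 b140
  obtain ⟨t27, b141⟩ : ∃ t, k a t18 = t := ⟨_, rfl⟩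
  have i27 := Linv H i1 i18 b141
  obtain ⟨t28, b142⟩ : ∃ t, k a t19 = t := ⟨_, rfl⟩
  have i28 := Linv H i1 i19 b142
  obtain ⟨t29, b143⟩ : ∃ t, k a t20 = t := ⟨_, rfl⟩
  have i29 := Linv H i1 i20 b143
  obtain ⟨t30, b144⟩ : ∃ t, k b t13 = t := ⟨_, rfl⟩
  have i30 := Linv H i2 i13 b144
  obtain ⟨t31, b145⟩ : ∃ t, k b t19 = t := ⟨_, rfl⟩
  have i31 := Linv H i2 i19 b145
  obtain ⟨t32, b146⟩ : ∃ t, k b t20 = t := ⟨_, rfl⟩
  have i32 := Linv H i2 i20 b146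
  obtain ⟨t33, b147⟩ : ∃ t, k b t23 = t := ⟨_, rfl⟩
  have i33 := Linv H i2 i23 b147
  obtain ⟨t34, b148⟩ : ∃ t, k c t14 = t := ⟨_, rfl⟩
  have i34 := Linv H i3 i14 b148
  obtain ⟨t35, b149⟩ : ∃ t, k c t17 = t := ⟨_, rfl⟩
  have i35 := Linv H i3 i17 b149
  obtain ⟨t36, b150⟩ : ∃ t, k c t20 = t := ⟨_, rfl⟩
  have i36 := Linv H i3 i20 b150
  obtain ⟨t37, b151⟩ : ∃ t, k c t23 = t := ⟨_, rfl⟩
  have i37 := Linv H i3 i23 b151
  obtain ⟨t38, b152⟩ : ∃ t, k d t12 = t := ⟨_, rfl⟩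
  have i38 := Linv H i4 i12 b152
  obtain ⟨t39, b153⟩ : ∃ t, k d t14 = t := ⟨_, rfl⟩
  have i39 := Linv H i4 i14 b153
  obtain ⟨t40, b154⟩ : ∃ t, k d t18 = t := ⟨_, rfl⟩
  have i40 := Linv H i4 i18 b154
  obtain ⟨t41, b155⟩ : ∃ t, k d t23 = t := ⟨_, rfl⟩
  have i41 := Linv H i4 i23 b155
  obtain ⟨t42, b156⟩ : ∃ t, k e t13 = t := ⟨_, rfl⟩
  have i42 := Linv H i5 i13 b156
  obtain ⟨t43, b157⟩ : ∃ t, k e t14 = t := ⟨_, rfl⟩
  have i43 := Linv H i5 i14 b157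
  obtain ⟨t44, b158⟩ : ∃ t, k e t16 = t := ⟨_, rfl⟩
  have i44 := Linv H i5 i16 b158
  obtain ⟨t45, b159⟩ : ∃ t, k t6 t8 = t := ⟨_, rfl⟩
  have i45 := Linv H i6 i8 b159
  obtain ⟨t46, b160⟩ : ∃ t, k t6 t9 = t := ⟨_, rfl⟩
  have i46 := Linv H i6 i9 b160
  obtain ⟨t47, b161⟩ : ∃ t, k t6 t11 = t := ⟨_, rfl⟩
  have i47 := Linv H i6 i11 b161
  obtain ⟨t48, b162⟩ : ∃ t, k t7 t8 = t := ⟨_, rfl⟩
  have i48 := Linv H i7 i8 b162
  obtain ⟨t49, b163⟩ : ∃ t, k t7 t10 = t := ⟨_, rfl⟩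
  have i49 := Linv H i7 i10 b163
  obtain ⟨t50, b164⟩ : ∃ t, k t8 t11 = t := ⟨_, rfl⟩
  have i50 := Linv H i8 i11 b164
  obtain ⟨t51, b165⟩ : ∃ t, k t9 t10 = t := ⟨_, rfl⟩
  have i51 := Linv H i9 i10 b165
  have c166 := Lkl H i1 i16 b139
  have c167 := Lkr H i1 i16 b139
  have c168 := Lkl H i1 i17 b140
  have c170 := Lkl H i1 i18 b141
  have c172 := Lkl H i1 i19 b142
  have c174 := Lkl H i1 i20 b143
  have c178 := Lkl H i2 i19 b145
  have c180 := Lkl H i2 i20 b146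
  have c181 := Lkr H i2 i20 b146
  have c182 := Lkl H i2 i23 b147
  have c186 := Lkl H i3 i17 b149
  have c188 := Lkl H i3 i20 b150
  have c190 := Lkl H i3 i23 b151
  have c191 := Lkr H i3 i23 b151
  have c194 := Lkl H i4 i14 b153
  have c196 := Lkl H i4 i18 b154
  have c202 := Lkl H i5 i14 b157
  have c204 := Lkl H i5 i16 b158
  have c219 := Lkr H i9 i10 b165
  have c221 := LP3 H i2 i1 i10 hab.symm b35 (Lsw H i1 i16 b139)
  have c222 := LP3 H i2 i1 i11 hab.symm b36 (Lsw H i1 i17 b140)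
  have c224 := Lck hab.symm c52.symm b139
  have c225 := Lck hab.symm c54.symm b140
  have c226 := Lck hab.symm c105.symm b141
  have c227 := LP2 H i1 i2 i19 hab b142 b145
  have c228 := LP2 H i1 i2 i20 hab b143 b146
  have c229 := LP3 H i3 i1 i9 hac.symm b37 (Lsw H i1 i18 b141)
  have c231 := LP3 H i3 i1 i11 hac.symm b38 (Lsw H i1 i19 b142)
  have c233 := Lck hac.symm c89.symm b139
  have c234 := LP2 H i1 i3 i17 hac b140 b149
  have c235 := Lck hac.symm c56.symm b141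
  have c236 := Lck hac.symm c58.symm b142
  have c241 := Lck c10 c98 b139
  have c242 := Lck c10 c82 b143
  have c243 := LP3 H i7 i1 i4 c12 (Lsw H i4 i7 b39) (Lsw H i1 i20 b143)
  have c249 := LP3 H i8 i1 i4 c22.symm (Lsw H i4 i8 b40) (Lsw H i1 i16 b139)
  have c251 := LP3 H i8 i1 i5 c22.symm (Lsw H i5 i8 b43) (Lsw H i1 i18 b141)
  have c252 := LP2 H i1 i8 i11 c22 b33 b164
  have c256 := Lck c44 c77 b141
  have c257 := Lck c44 c92 b143
  have c259 := Lck c46 c74 b139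
  have c260 := LP2 H i1 i14 i4 c48.symm b4 (Lsw H i4 i14 b153)
  have c261 := LP2 H i1 i14 i5 c48.symm b5 (Lsw H i5 i14 b157)
  have c262 := Lck c48 c75 b140
  have c263 := Lck c48 c79 b142
  have c265 := LP3 H i4 i2 i7 hbd.symm b39 (Lsw H i2 i20 b146)
  have c268 := Lck hbd c105.symm b154
  have c269 := Lck hbd.symm c106.symm b145
  have c270 := Lck hbd.symm c60.symm b146
  have c271 := LP2 H i2 i4 i23 hbd b147 b155
  have c275 := LP3 H i6 i2 i5 c23.symm (Lsw H i5 i6 b42) (Lsw H i2 i23 b147)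
  have c280 := Lck c23.symm c82 b146
  have c281 := Lck c23.symm c67.symm b147
  have c288 := LP2 H i2 i16 i5 c52.symm b7 (Lsw H i5 i16 b158)
  have c290 := LP2 H i2 i17 i3 c54.symm b6 (Lsw H i3 i17 b149)
  have c291 := Lck c54 c120.symm b146
  have c292 := Lck c105 c123 b145
  have c294 := LP3 H i5 i3 i6 hce.symm b42 (Lsw H i3 i23 b151)
  have c296 := LP2 H i3 i5 i14 hce b148 b157
  have c297 := Lck hce c89.symm b158
  have c298 := Lck hce.symm c91.symm b149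
  have c299 := Lck hce.symm c66.symm b151
  have c302 := LP3 H i7 i3 i4 c26.symm (Lsw H i4 i7 b39) (Lsw H i3 i20 b150)
  have c306 := Lck c26.symm c61.symm b150
  have c307 := Lck c26.symm c80 b151
  have c311 := Lck c18 c111 b150
  have c314 := Lck c89 c125 b149
  have c315 := LP2 H i3 i18 i4 c56.symm b8 (Lsw H i4 i18 b154)
  have c316 := LP2 H i3 i19 i2 c58.symm (Lsw H i2 i3 b6) (Lsw H i2 i19 b145)
  have c318 := Lck c58 c138.symm b151
  have c319 := LP3 H i4 i6 i5 c11.symm b9 (Lsw H i6 i11 b161)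
  have c320 := LP3 H i6 i4 i5 c11 (Lsw H i5 i6 b42) (Lsw H i4 i23 b155)
  have c326 := LP2 H i4 i10 i9 c19.symm b41 (Lsw H i9 i10 b165)
  have c327 := LP3 H i4 i11 i1 c20.symm (Lsw H i1 i4 b4) b161
  have c328 := LP3 H i11 i4 i1 c20 (Lsw H i1 i11 b33) (Lsw H i4 i14 b153)
  have c333 := Lck c76 c124 b153
  have c335 := LP2 H i4 i16 i5 c95 b9 (Lsw H i5 i16 b158)
  have c336 := LP2 H i4 i17 i1 c96 (Lsw H i1 i4 b4) (Lsw H i1 i17 b140)
  have c337 := LP2 H i4 i17 i3 c96 (Lsw H i3 i4 b8) (Lsw H i3 i17 b149)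
  have c338 := Lck c96.symm c75.symm b153
  have c339 := LP2 H i4 i19 i1 c106.symm (Lsw H i1 i4 b4) (Lsw H i1 i19 b142)
  have c340 := Lck c106 c79.symm b153
  have c341 := Lck c106 c123.symm b154
  have c347 := LP2 H i5 i9 i10 c17.symm (Lsw H i10 i5 b136) b165
  have c348 := LP3 H i11 i5 i1 c21 (Lsw H i1 i11 b33) (Lsw H i5 i14 b157)
  have c353 := Lck c71 c122 b157
  have c354 := LP2 H i5 i17 i1 c91.symm (Lsw H i1 i5 b5) (Lsw H i1 i17 b140)
  have c355 := Lck c91 c75.symm b157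
  have c356 := Lck c91 c125.symm b158
  have c357 := LP2 H i5 i18 i4 c108 (Lsw H i4 i5 b9) (Lsw H i4 i18 b154)
  have c358 := LP2 H i5 i19 i1 c109 (Lsw H i1 i5 b5) (Lsw H i1 i19 b142)
  have c359 := LP2 H i5 i19 i2 c109 (Lsw H i2 i5 b7) (Lsw H i2 i19 b145)
  have c360 := Lck c109.symm c79.symm b157
  have c363 := LP2 H i6 i10 i9 c25 b160 (Lsw H i9 i10 b165)
  have c364 := Lck c25.symm c30 b161
  have c367 := LP2 H i6 i16 i5 c98 (Lsw H i5 i6 b42) (Lsw H i5 i16 b158)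
  have c368 := LP2 H i6 i20 i3 c82 b128 (Lsw H i3 i20 b150)
  have c371 := LP2 H i7 i9 i10 c24 b163 b165
  have c372 := LP2 H i7 i14 i4 c119 (Lsw H i4 i7 b39) (Lsw H i4 i14 b153)
  have c373 := LP2 H i7 i18 i4 c112 (Lsw H i4 i7 b39) (Lsw H i4 i18 b154)
  have c374 := LP2 H i7 i23 i2 c80 (Lsw H i2 i7 b34) (Lsw H i2 i23 b147)
  have c378 := Lck c29.symm c28 b164
  have c384 := LP2 H i8 i18 i4 c101 (Lsw H i4 i8 b40) (Lsw H i4 i18 b154)
  have c386 := Lck c28.symm c30.symm b165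
  have c388 := LP2 H i9 i17 i1 c103 (Lsw H i1 i9 b31) (Lsw H i1 i17 b140)
  have c389 := LP2 H i9 i17 i3 c103 (Lsw H i3 i9 b37) (Lsw H i3 i17 b149)
  have c391 := LP2 H i9 i23 i3 c97 (Lsw H i3 i9 b37) (Lsw H i3 i23 b151)
  have c395 := LP2 H i10 i19 i1 c114 (Lsw H i1 i10 b32) (Lsw H i1 i19 b142)
  have c396 := LP2 H i10 i19 i2 c114 (Lsw H i2 i10 b35) (Lsw H i2 i19 b145)
  have c397 := LP2 H i10 i20 i1 c111 (Lsw H i1 i10 b32) (Lsw H i1 i20 b143)
  have c398 := LP2 H i10 i20 i2 c111 (Lsw H i2 i10 b35) (Lsw H i2 i20 b146)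
  have c400 := LP2 H i11 i19 i2 c59.symm (Lsw H i2 i11 b36) (Lsw H i2 i19 b145)
  have c402 := Lco i32 i11 (LP1 H i11 i20 i2 c118 (Lsw H i2 i11 b36) (Lsw H i2 i20 b146) (k_one i17 i20 c120.symm))
  have c403 := LP2 H i11 i20 i3 c118 (Lsw H i3 i11 b38) (Lsw H i3 i20 b150)
  have c404 := LP2 H i11 i23 i2 c115 (Lsw H i2 i11 b36) (Lsw H i2 i23 b147)
  have c405 := Lco i37 i11 (LP1 H i11 i23 i3 c115 (Lsw H i3 i11 b38) (Lsw H i3 i23 b151) (k_one i19 i23 c138.symm))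
  have c406 := LP2 H i12 i14 i4 c122 (Lsw H i4 i12 b152) (Lsw H i4 i14 b153)
  have c407 := LP2 H i12 i18 i4 c77 (Lsw H i4 i12 b152) (Lsw H i4 i18 b154)
  have c408 := LP2 H i13 i14 i5 c124 (Lsw H i5 i13 b156) (Lsw H i5 i14 b157)
  have c409 := LP2 H i13 i16 i5 c74 (Lsw H i5 i13 b156) (Lsw H i5 i16 b158)
  have c411 := LP2 H i14 i17 i3 c75 (Lsw H i3 i14 b148) (Lsw H i3 i17 b149)
  have c412 := LP2 H i16 i17 i1 c125 (Lsw H i1 i16 b139) (Lsw H i1 i17 b140)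
  have c413 := LP2 H i17 i20 i1 c120.symm (Lsw H i1 i17 b140) (Lsw H i1 i20 b143)
  have c414 := LP2 H i17 i20 i3 c120.symm (Lsw H i3 i17 b149) (Lsw H i3 i20 b150)
  have c416 := LP2 H i19 i23 i2 c138.symm (Lsw H i2 i19 b145) (Lsw H i2 i23 b147)
  have e417 := (LP1 H i1 i2 i10 hab b32 b35 (Lsw H i2 i13 b144)).symm.trans (Lsw H i1 i16 b139)
  have m418 : t25 = t30 := e417.symm
  subst m418
  have b419 := LP1 H i2 i1 i11 hab.symm b36 b33 (Lsw H i1 i17 b140)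
  have b420 := LP1 H i3 i1 i9 hac.symm b37 b31 (Lsw H i1 i18 b141)
  have e421 := (LP1 H i1 i3 i11 hac b33 b38 (Lsw H i3 i14 b148)).symm.trans (Lsw H i1 i19 b142)
  have m422 : t28 = t34 := e421.symm
  subst m422
  have b423 := LP1 H i7 i1 i4 c12 (Lsw H i4 i7 b39) b4 (Lsw H i1 i20 b143)
  have e424 := (LP1 H i1 i8 i4 c22 b4 (Lsw H i4 i8 b40) b159).symm.trans (Lsw H i1 i16 b139)
  have m425 : t25 = t45 := e424.symm
  subst m425
  have e426 := (LP1 H i1 i8 i5 c22 b5 (Lsw H i5 i8 b43) b162).symm.trans (Lsw H i1 i18 b141)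
  have m427 : t27 = t48 := e426.symm
  subst m427
  have c428 := Lck c328 c338.symm b140
  have c429 := Lck c328 c340.symm b142
  have c431 := Lck c348 c355.symm b140
  have c432 := Lck c327 c319 b5
  have e436 := (LP1 H i2 i4 i7 hbd b34 b39 (Lsw H i4 i12 b152)).symm.trans (Lsw H i2 i20 b146)
  have m437 : t32 = t38 := e436.symm
  subst m437
  have e438 := (LP1 H i2 i6 i5 c23 b7 (Lsw H i5 i6 b42) (Lsw H i6 i9 b160)).symm.trans (Lsw H i2 i23 b147)
  have m439 : t33 = t46 := e438.symm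
  subst m439
  have e441 := (LP1 H i3 i5 i6 hce (Lsw H i6 i3 b128) b42 (Lsw H i5 i13 b156)).symm.trans (Lsw H i3 i23 b151)
  have m442 : t37 = t42 := e441.symm
  subst m442
  have e443 := (LP1 H i3 i7 i4 c26 b8 (Lsw H i4 i7 b39) (Lsw H i7 i10 b163)).symm.trans (Lsw H i3 i20 b150)
  have m444 : t36 = t49 := e443.symm
  subst m444
  have c445 := Lck c297.symm c356.symm b149
  have e446 := (LP1 H i4 i6 i5 c11.symm b9 (Lsw H i5 i6 b42) (Lsw H i6 i11 b161)).symm.trans (Lsw H i4 i23 b155)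
  have m447 : t41 = t47 := e446.symm
  subst m447
  have e448 := (LP1 H i4 i11 i1 c20.symm (Lsw H i1 i4 b4) (Lsw H i1 i11 b33) b161).symm.trans (Lsw H i4 i14 b153)
  have m449 : t39 = t41 := e448.symm
  subst m449
  have b451 := LP1 H i11 i5 i1 c21 (Lsw H i1 i11 b33) (Lsw H i1 i5 b5) (Lsw H i5 i14 b157)
  have c452 := Lck c294 c405 b161
  have c453 := LP2 H i7 i9 i6 c24 (Lsw H i6 i7 b423) (Lsw H i6 i9 b160)
  have c454 := Lco i20 i14 (LP1 H i14 i7 i4 c119.symm (Lsw H i4 i14 b153) (Lsw H i4 i7 b39) (k_one i39 i7 c432))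
  have c455 := Lco i20 i23 (LP1 H i23 i7 i4 c80.symm (Lsw H i4 i23 b155) (Lsw H i4 i7 b39) (k_one i39 i7 c432))
  have c457 := LP2 H i10 i11 i7 c30 (Lsw H i7 i10 b163) (Lsw H i7 i11 b451)
  have c459 := LP2 H i14 i19 i2 c79 b419 (Lsw H i2 i19 b145)
  have q461 : Rl [t14, t20, t23, t29, t39, t43] := LJ H i1 i4 i5 b4 b5 b9 b33 b39 b42 b423 b161 b451
  have c462 : Commute t14 t23 := q461.cm 0 2 rfl rfl
  have c463 : Commute t20 t43 := q461.cm 1 5 rfl rfl
  have q465 : Rl [t23, t14, t20, t29, t39, t43] := q461.mv 2 rfl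
  have q466 : Rl [t20, t23, t14, t29, t39, t43] := q465.mv 2 rfl
  have b467 := Rl.l2 H i20 i23 i1 q466 (.cons c48 (.cons c174 (.cons c328 (.cons c348 .nil)))) (Lsw H i1 i20 b143)
  have q468 : Rl [t43, t14, t20, t23, t29, t39] := q461.mv 5 rfl
  have c469 := q468.l1 (.cons c116.symm (.cons c82.symm (.cons c67 (.cons c242.symm (.cons c260.symm .nil)))))
  have c470 := LP2 H i1 i3 i23 hac (Lsw H i23 i1 b467) b151
  have c471 := LP3 H i1 i6 i5 c10.symm b5 (Lsw H i6 i7 b423)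
  have c472 := Lco i43 i4 (LP1 H i4 i11 i7 c20.symm b39 (Lsw H i7 i11 b451) (k_one i20 i11 c118.symm))
  have b473 := LP1 H i5 i7 i4 c13.symm (Lsw H i4 i5 b9) (Lsw H i4 i7 b39) (Lsw H i7 i11 b451)
  have c474 := Lck c339.symm c358.symm b423
  have c475 := Lck c24.symm c28 b451
  have c476 := Lck c265 c402 b451
  have c478 := LP2 H i14 i20 i2 c454.symm b419 (Lsw H i2 i20 b146)
  have c479 := LP2 H i14 i20 i3 c454.symm (Lsw H i3 i14 b148) (Lsw H i3 i20 b150)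
  have c480 := LP2 H i14 i23 i2 c462 b419 (Lsw H i2 i23 b147)
  have c481 := LP2 H i14 i23 i3 c462 (Lsw H i3 i14 b148) (Lsw H i3 i23 b151)
  have c482 := LP2 H i20 i23 i2 c455 (Lsw H i2 i20 b146) (Lsw H i2 i23 b147)
  have c483 := LP2 H i20 i23 i3 c455 (Lsw H i3 i20 b150) (Lsw H i3 i23 b151)
  obtain ⟨t52, b485⟩ : ∃ t, k a t31 = t := ⟨_, rfl⟩
  have i52 := Linv H i1 i31 b485
  obtain ⟨t53, b486⟩ : ∃ t, k a t33 = t := ⟨_, rfl⟩
  have i53 := Linv H i1 i33 b486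
  obtain ⟨t54, b487⟩ : ∃ t, k a t35 = t := ⟨_, rfl⟩
  have i54 := Linv H i1 i35 b487
  obtain ⟨t55, b488⟩ : ∃ t, k a t37 = t := ⟨_, rfl⟩
  have i55 := Linv H i1 i37 b488
  obtain ⟨t56, b489⟩ : ∃ t, k a t40 = t := ⟨_, rfl⟩
  have i56 := Linv H i1 i40 b489
  obtain ⟨t57, b490⟩ : ∃ t, k a t44 = t := ⟨_, rfl⟩
  have i57 := Linv H i1 i44 b490
  obtain ⟨t58, b491⟩ : ∃ t, k a t50 = t := ⟨_, rfl⟩
  have i58 := Linv H i1 i50 b491
  obtain ⟨t59, b492⟩ : ∃ t, k b t28 = t := ⟨_, rfl⟩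
  have i59 := Linv H i2 i28 b492
  obtain ⟨t60, b493⟩ : ∃ t, k b t35 = t := ⟨_, rfl⟩
  have i60 := Linv H i2 i35 b493
  obtain ⟨t61, b494⟩ : ∃ t, k b t36 = t := ⟨_, rfl⟩
  have i61 := Linv H i2 i36 b494
  obtain ⟨t62, b495⟩ : ∃ t, k b t37 = t := ⟨_, rfl⟩
  have i62 := Linv H i2 i37 b495
  obtain ⟨t63, b496⟩ : ∃ t, k b t39 = t := ⟨_, rfl⟩
  have i63 := Linv H i2 i39 b496
  obtain ⟨t64, b497⟩ : ∃ t, k b t43 = t := ⟨_, rfl⟩
  have i64 := Linv H i2 i43 b497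
  obtain ⟨t65, b498⟩ : ∃ t, k b t44 = t := ⟨_, rfl⟩
  have i65 := Linv H i2 i44 b498
  obtain ⟨t66, b499⟩ : ∃ t, k b t50 = t := ⟨_, rfl⟩
  have i66 := Linv H i2 i50 b499
  obtain ⟨t67, b500⟩ : ∃ t, k b t51 = t := ⟨_, rfl⟩
  have i67 := Linv H i2 i51 b500
  obtain ⟨t68, b501⟩ : ∃ t, k c t26 = t := ⟨_, rfl⟩
  have i68 := Linv H i3 i26 b501
  obtain ⟨t69, b502⟩ : ∃ t, k c t31 = t := ⟨_, rfl⟩
  have i69 := Linv H i3 i31 b502
  obtain ⟨t70, b503⟩ : ∃ t, k c t32 = t := ⟨_, rfl⟩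
  have i70 := Linv H i3 i32 b503
  obtain ⟨t71, b504⟩ : ∃ t, k c t33 = t := ⟨_, rfl⟩
  have i71 := Linv H i3 i33 b504
  obtain ⟨t72, b505⟩ : ∃ t, k c t39 = t := ⟨_, rfl⟩
  have i72 := Linv H i3 i39 b505
  obtain ⟨t73, b506⟩ : ∃ t, k c t43 = t := ⟨_, rfl⟩
  have i73 := Linv H i3 i43 b506
  obtain ⟨t74, b507⟩ : ∃ t, k c t50 = t := ⟨_, rfl⟩
  have i74 := Linv H i3 i50 b507
  obtain ⟨t75, b508⟩ : ∃ t, k c t51 = t := ⟨_, rfl⟩
  have i75 := Linv H i3 i51 b508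
  obtain ⟨t76, b509⟩ : ∃ t, k d t26 = t := ⟨_, rfl⟩
  have i76 := Linv H i4 i26 b509
  obtain ⟨t77, b510⟩ : ∃ t, k d t27 = t := ⟨_, rfl⟩
  have i77 := Linv H i4 i27 b510
  obtain ⟨t78, b511⟩ : ∃ t, k d t28 = t := ⟨_, rfl⟩
  have i78 := Linv H i4 i28 b511
  obtain ⟨t79, b512⟩ : ∃ t, k d t33 = t := ⟨_, rfl⟩
  have i79 := Linv H i4 i33 b512
  obtain ⟨t80, b513⟩ : ∃ t, k d t35 = t := ⟨_, rfl⟩
  have i80 := Linv H i4 i35 b513
  obtain ⟨t81, b514⟩ : ∃ t, k d t37 = t := ⟨_, rfl⟩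
  have i81 := Linv H i4 i37 b514
  obtain ⟨t82, b515⟩ : ∃ t, k d t44 = t := ⟨_, rfl⟩
  have i82 := Linv H i4 i44 b515
  obtain ⟨t83, b516⟩ : ∃ t, k d t51 = t := ⟨_, rfl⟩
  have i83 := Linv H i4 i51 b516
  obtain ⟨t84, b517⟩ : ∃ t, k e t25 = t := ⟨_, rfl⟩
  have i84 := Linv H i5 i25 b517
  obtain ⟨t85, b518⟩ : ∃ t, k e t26 = t := ⟨_, rfl⟩
  have i85 := Linv H i5 i26 b518
  obtain ⟨t86, b519⟩ : ∃ t, k e t28 = t := ⟨_, rfl⟩
  have i86 := Linv H i5 i28 b519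
  obtain ⟨t87, b520⟩ : ∃ t, k e t31 = t := ⟨_, rfl⟩
  have i87 := Linv H i5 i31 b520
  obtain ⟨t88, b521⟩ : ∃ t, k e t36 = t := ⟨_, rfl⟩
  have i88 := Linv H i5 i36 b521
  obtain ⟨t89, b522⟩ : ∃ t, k e t40 = t := ⟨_, rfl⟩
  have i89 := Linv H i5 i40 b522
  obtain ⟨t90, b523⟩ : ∃ t, k e t51 = t := ⟨_, rfl⟩
  have i90 := Linv H i5 i51 b523
  obtain ⟨t91, b524⟩ : ∃ t, k t6 t18 = t := ⟨_, rfl⟩
  have i91 := Linv H i6 i18 b524
  obtain ⟨t92, b525⟩ : ∃ t, k t6 t19 = t := ⟨_, rfl⟩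
  have i92 := Linv H i6 i19 b525
  obtain ⟨t93, b526⟩ : ∃ t, k t7 t16 = t := ⟨_, rfl⟩
  have i93 := Linv H i7 i16 b526
  obtain ⟨t94, b527⟩ : ∃ t, k t7 t17 = t := ⟨_, rfl⟩
  have i94 := Linv H i7 i17 b527
  obtain ⟨t95, b528⟩ : ∃ t, k t7 t19 = t := ⟨_, rfl⟩
  have i95 := Linv H i7 i19 b528
  obtain ⟨t96, b529⟩ : ∃ t, k t8 t23 = t := ⟨_, rfl⟩
  have i96 := Linv H i8 i23 b529
  obtain ⟨t97, b530⟩ : ∃ t, k t9 t13 = t := ⟨_, rfl⟩
  have i97 := Linv H i9 i13 b530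
  obtain ⟨t98, b531⟩ : ∃ t, k t9 t14 = t := ⟨_, rfl⟩
  have i98 := Linv H i9 i14 b531
  obtain ⟨t99, b532⟩ : ∃ t, k t9 t19 = t := ⟨_, rfl⟩
  have i99 := Linv H i9 i19 b532
  obtain ⟨t100, b533⟩ : ∃ t, k t10 t12 = t := ⟨_, rfl⟩
  have i100 := Linv H i10 i12 b533
  obtain ⟨t101, b534⟩ : ∃ t, k t10 t17 = t := ⟨_, rfl⟩
  have i101 := Linv H i10 i17 b534
  obtain ⟨t102, b535⟩ : ∃ t, k t10 t23 = t := ⟨_, rfl⟩
  have i102 := Linv H i10 i23 b535
  obtain ⟨t103, b536⟩ : ∃ t, k t11 t12 = t := ⟨_, rfl⟩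
  have i103 := Linv H i11 i12 b536
  obtain ⟨t104, b537⟩ : ∃ t, k t11 t13 = t := ⟨_, rfl⟩
  have i104 := Linv H i11 i13 b537
  obtain ⟨t105, b538⟩ : ∃ t, k t11 t16 = t := ⟨_, rfl⟩
  have i105 := Linv H i11 i16 b538
  obtain ⟨t106, b539⟩ : ∃ t, k t11 t18 = t := ⟨_, rfl⟩
  have i106 := Linv H i11 i18 b539
  have c540 := Lkl H i1 i31 b485
  have c542 := Lkl H i1 i33 b486
  have c544 := Lkl H i1 i35 b487
  have c546 := Lkl H i1 i37 b488
  have c548 := Lkl H i1 i40 b489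
  have c550 := Lkl H i1 i44 b490
  have c556 := Lkl H i2 i35 b493
  have c558 := Lkl H i2 i36 b494
  have c560 := Lkl H i2 i37 b495
  have c561 := Lkr H i2 i37 b495
  have c562 := Lkl H i2 i39 b496
  have c564 := Lkl H i2 i43 b497
  have c574 := Lkl H i3 i31 b502
  have c576 := Lkl H i3 i32 b503
  have c577 := Lkr H i3 i32 b503
  have c578 := Lkl H i3 i33 b504
  have c579 := Lkr H i3 i33 b504
  have c580 := Lkl H i3 i39 b505
  have c582 := Lkl H i3 i43 b506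
  have c590 := Lkl H i4 i27 b510
  have c592 := Lkl H i4 i28 b511
  have c596 := Lkl H i4 i35 b513
  have c604 := Lkl H i5 i25 b517
  have c606 := Lkl H i5 i26 b518
  have c610 := Lkl H i5 i31 b520
  have c618 := Lkl H i6 i18 b524
  have c651 := LP3 H i2 i1 i19 hab.symm b145 (Lsw H i1 i31 b485)
  have c654 := Lck hab.symm c178.symm b485
  have c655 := Lck hab.symm c182.symm b486
  have c657 := LP2 H i1 i2 i37 hab b488 b495
  have c658 := Lck hab c328.symm b496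
  have c659 := Lck hab.symm c268 b489
  have c660 := Lck hab c348.symm b497
  have c661 := LP2 H i1 i2 i44 hab b490 b498
  have c664 := LP3 H i3 i1 i17 hac.symm b149 (Lsw H i1 i35 b487)
  have c668 := LP2 H i1 i3 i33 hac b486 b504
  have c669 := Lck hac.symm c186.symm b487
  have c670 := Lck hac.symm c190.symm b488
  have c671 := Lck hac c328.symm b505
  have c672 := Lck hac c348.symm b506
  have c673 := Lck hac.symm c297 b490
  have c675 := LP3 H i6 i1 i9 c10 b160 (Lsw H i1 i33 b486)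
  have c678 := Lck c10 c281 b486
  have c683 := Lck c12 c307 b488
  have c686 := Lck c22.symm c316 b485
  have c687 := Lck c22.symm c290 b487
  have c689 := LP2 H i1 i12 i10 c44.symm b32 (Lsw H i10 i12 b533)
  have c692 := LP3 H i13 i1 i5 c46 (Lsw H i5 i13 b156) (Lsw H i1 i37 b488)
  have c693 := LP2 H i1 i13 i9 c46.symm b31 (Lsw H i9 i13 b530)
  have c698 := LP2 H i1 i25 i5 c166.symm b5 (Lsw H i5 i25 b517)
  have c703 := Lck c168 c480 b486
  have c704 := Lck c168 c234 b487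
  have c705 := LP2 H i1 i27 i4 c170.symm b4 (Lsw H i4 i27 b510)
  have c708 := Lck c172 c227 b485
  have c710 := Lck c172 c481 b488
  have c722 := Lck hbd c226 b510
  have c726 := Lck hbd.symm c302.symm b494
  have c727 := LP2 H i2 i4 i37 hbd b495 b514
  have c728 := Lck hbd.symm c194.symm b496
  have c729 := Lck hbd.symm c472.symm b497
  have c733 := Lck c23 c105.symm b524
  have c736 := Lck c23.symm c294.symm b495
  have c739 := LP3 H i8 i2 i11 c14 b164 (Lsw H i2 i50 b499)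
  have c748 := Lck c16 c475 b497
  have c755 := LP3 H i16 i2 i5 c52 (Lsw H i5 i16 b158) (Lsw H i2 i44 b498)
  have c756 := LP2 H i2 i16 i7 c52.symm b34 (Lsw H i7 i16 b526)
  have c762 := LP3 H i17 i2 i3 c54 (Lsw H i3 i17 b149) (Lsw H i2 i35 b493)
  have c772 := Lck c105 c389 b493
  have c773 := Lck c105 c391 b495
  have c779 := LP2 H i2 i26 i5 c225 b7 (Lsw H i5 i26 b518)
  have c780 := Lck c225.symm c234 b493
  have c788 := LP2 H i2 i32 i3 c180.symm b6 (Lsw H i3 i32 b503)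
  have c800 := Lck hce c233 b517
  have c804 := Lck hce.symm c275.symm b504
  have c806 := Lck hce.symm c320.symm b505
  have c807 := Lck hce.symm c202.symm b506
  have c811 := Lck c26 c89.symm b526
  have c812 := LP2 H i3 i7 i17 c26 b149 b527
  have c815 := Lck c26.symm c265.symm b503
  have c817 := Lck c26.symm c261 b506
  have c818 := LP3 H i8 i3 i11 c15 b164 (Lsw H i3 i50 b507)
  have c826 := Lck c18 c364 b505
  have c831 := Lck c78.symm c333 b505
  have c834 := Lck c89 c398 b503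
  have c842 := LP3 H i19 i3 i2 c58 (Lsw H i2 i19 b145) (Lsw H i3 i31 b502)
  have c852 := LP2 H i3 i27 i4 c235 b8 (Lsw H i4 i27 b510)
  have c854 := LP2 H i3 i28 i4 c236 b8 (Lsw H i4 i28 b511)
  have c855 := Lck c236.symm c227 b502
  have c860 := LP2 H i3 i36 i2 c188.symm (Lsw H i2 i3 b6) (Lsw H i2 i36 b494)
  have c863 := Lck c188 c371 b508
  have c871 := LP2 H i4 i6 i18 c11.symm b154 b524
  have c875 := LP3 H i4 i10 i9 c19.symm b41 (Lsw H i10 i17 b534)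
  have c876 := LP3 H i10 i4 i9 c19 (Lsw H i9 i10 b165) (Lsw H i4 i51 b516)
  have c891 := LP3 H i4 i13 i5 c76.symm b9 b537
  have c893 := LP2 H i4 i13 i9 c76.symm b41 (Lsw H i9 i13 b530)
  have c897 := LP3 H i16 i4 i5 c95.symm (Lsw H i5 i16 b158) (Lsw H i4 i44 b515)
  have c903 := LP3 H i4 i17 i3 c96 (Lsw H i3 i4 b8) b534
  have c904 := LP3 H i17 i4 i3 c96.symm (Lsw H i3 i17 b149) (Lsw H i4 i35 b513)
  have c911 := LP3 H i4 i19 i1 c106.symm (Lsw H i1 i4 b4) b525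
  have c912 := LP3 H i19 i4 i1 c106 (Lsw H i1 i19 b142) (Lsw H i4 i28 b511)
  have c920 := LP2 H i4 i25 i5 c249.symm b9 (Lsw H i5 i25 b517)
  have c928 := LP2 H i4 i31 i3 c269 (Lsw H i3 i4 b8) (Lsw H i3 i31 b502)
  have c931 := Lck c269.symm c227.symm b511
  have c933 := LP2 H i4 i32 i3 c270 (Lsw H i3 i4 b8) (Lsw H i3 i32 b503)
  have c938 := Lck c302 c479.symm b511
  have c939 := Lck c302 c414.symm b513
  have c942 := Lco i72 i4 (LP1 H i4 i39 i3 c194.symm (Lsw H i3 i4 b8) (Lsw H i3 i39 b505) (k_one i10 i39 c364))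
  have c956 := LP2 H i5 i7 i16 c13.symm b158 b526
  have c960 := LP3 H i5 i9 i10 c17.symm (Lsw H i10 i5 b136) (Lsw H i9 i19 b532)
  have c962 := LP2 H i5 i9 i13 c17.symm b156 b530
  have c974 := LP3 H i5 i12 i4 c71.symm (Lsw H i4 i5 b9) b536
  have c975 := LP2 H i5 i12 i10 c71.symm (Lsw H i10 i5 b136) (Lsw H i10 i12 b533)
  have c976 := Lck c71 c388 b518
  have c977 := LP3 H i5 i17 i1 c91.symm (Lsw H i1 i5 b5) b527
  have c978 := LP3 H i17 i5 i1 c91 (Lsw H i1 i17 b140) (Lsw H i5 i26 b518)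
  have c984 := LP3 H i5 i18 i4 c108 (Lsw H i4 i5 b9) b539
  have c985 := LP3 H i18 i5 i4 c108.symm (Lsw H i4 i18 b154) (Lsw H i5 i40 b522)
  have c986 := LP2 H i5 i18 i6 c108 b42 (Lsw H i6 i18 b524)
  have c992 := LP3 H i5 i19 i2 c109 (Lsw H i2 i5 b7) b532
  have c993 := LP3 H i19 i5 i2 c109.symm (Lsw H i2 i19 b145) (Lsw H i5 i31 b520)
  have c1002 := LP2 H i5 i27 i4 c251.symm (Lsw H i4 i5 b9) (Lsw H i4 i27 b510)
  have c1005 := Lck c471 c413.symm b518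
  have c1012 := Lck c275 c416.symm b520
  have c1014 := LP2 H i5 i35 i1 c298 (Lsw H i1 i5 b5) (Lsw H i1 i35 b487)
  have c1017 := Lck c298.symm c234.symm b518
  have c1024 := Lck c320 c428 b518
  have c1027 := Lco i64 i5 (LP1 H i5 i43 i2 c202.symm (Lsw H i2 i5 b7) (Lsw H i2 i43 b497) (k_one i9 i43 c475))
  have c1028 := Lck c202 c431 b518
  have c1031 := LP2 H i5 i44 i1 c204.symm (Lsw H i1 i5 b5) (Lsw H i1 i44 b490)
  have c1032 := LP3 H i6 i10 i5 c25 (Lsw H i5 i6 b42) (Lsw H i10 i23 b535)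
  have c1033 := LP3 H i10 i6 i5 c25.symm b136 (Lsw H i6 i19 b525)
  have c1043 := LP2 H i6 i25 i5 c241 (Lsw H i5 i6 b42) (Lsw H i5 i25 b517)
  have c1045 := LP2 H i6 i26 i5 c336 (Lsw H i5 i6 b42) (Lsw H i5 i26 b518)
  have c1047 := LP2 H i6 i32 i3 c280 b128 (Lsw H i3 i32 b503)
  have c1048 := LP2 H i6 i33 i3 c281 b128 (Lsw H i3 i33 b504)
  have c1051 := Lco i72 i6 (LP1 H i6 i39 i3 c260 b128 (Lsw H i3 i39 b505) (k_one i13 i39 c333))
  have c1055 := LP3 H i9 i7 i4 c24.symm (Lsw H i4 i9 b41) (Lsw H i7 i17 b527)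
  have c1059 := LP2 H i7 i12 i10 c83 b163 (Lsw H i10 i12 b533)
  have c1063 := LP2 H i7 i18 i6 c112 (Lsw H i6 i7 b423) (Lsw H i6 i18 b524)
  have c1075 := LP2 H i7 i36 i2 c306 (Lsw H i2 i7 b34) (Lsw H i2 i36 b494)
  have c1077 := LP2 H i7 i37 i2 c307 (Lsw H i2 i7 b34) (Lsw H i2 i37 b495)
  have c1088 := Lck c27 c86 b533
  have c1091 := LP2 H i8 i13 i11 c87 b164 (Lsw H i11 i13 b537)
  have c1099 := Lco i87 i8 (LP1 H i8 i31 i5 c316 (Lsw H i5 i8 b43) (Lsw H i5 i31 b520) (k_one i18 i31 c292))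
  have c1103 := LP3 H i9 i11 i1 c28 (Lsw H i1 i9 b31) (Lsw H i11 i12 b536)
  have c1104 := LP3 H i11 i9 i1 c28.symm (Lsw H i1 i11 b33) (Lsw H i9 i14 b531)
  have c1106 := LP3 H i11 i9 i3 c28.symm (Lsw H i3 i11 b38) (Lsw H i9 i19 b532)
  have c1108 := LP2 H i9 i11 i13 c28 b530 b537
  have c1116 := LP2 H i9 i23 i10 c97 b165 (Lsw H i10 i23 b535)
  have c1119 := Lck c97.symm c138 b532
  have c1120 := LP2 H i9 i27 i4 c229.symm (Lsw H i4 i9 b41) (Lsw H i4 i27 b510)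
  have c1122 := Lco i69 i9 (LP1 H i9 i31 i3 c359 (Lsw H i3 i9 b37) (Lsw H i3 i31 b502) (k_one i18 i31 c292))
  have c1124 := LP2 H i9 i43 i3 c475 (Lsw H i3 i9 b37) (Lsw H i3 i43 b506)
  have c1125 := Lck c475.symm c360.symm b532
  have c1126 := LP2 H i9 i44 i1 c288 (Lsw H i1 i9 b31) (Lsw H i1 i44 b490)
  have c1131 := Lck c378.symm c252.symm b531
  have c1134 := LP3 H i10 i11 i1 c30 (Lsw H i1 i10 b32) (Lsw H i11 i13 b537)
  have c1136 := LP3 H i11 i10 i2 c30.symm (Lsw H i2 i11 b36) (Lsw H i10 i17 b534)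
  have c1137 := LP2 H i10 i11 i12 c30 b533 b536
  have c1142 := LP2 H i10 i13 i9 c47.symm (Lsw H i9 i10 b165) (Lsw H i9 i13 b530)
  have c1144 := LP2 H i10 i16 i7 c53.symm (Lsw H i7 i10 b163) (Lsw H i7 i16 b526)
  have c1146 := Lck c111.symm c120 b534
  have c1148 := LP2 H i10 i25 i5 c221.symm b136 (Lsw H i5 i25 b517)
  have c1149 := LP2 H i10 i35 i1 c337 (Lsw H i1 i10 b32) (Lsw H i1 i35 b487)
  have c1150 := Lco i60 i10 (LP1 H i10 i35 i2 c337 (Lsw H i2 i10 b35) (Lsw H i2 i35 b493) (k_one i16 i35 c314))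
  have c1151 := LP2 H i10 i36 i2 c311 (Lsw H i2 i10 b35) (Lsw H i2 i36 b494)
  have c1152 := LP2 H i10 i39 i2 c364 (Lsw H i2 i10 b35) (Lsw H i2 i39 b496)
  have c1153 := Lck c364.symm c338.symm b534
  have c1163 := LP2 H i11 i23 i8 c115 (Lsw H i8 i11 b164) (Lsw H i8 i23 b529)
  have c1171 := LP2 H i11 i32 i3 c402.symm (Lsw H i3 i11 b38) (Lsw H i3 i32 b503)
  have c1173 := LP2 H i11 i37 i1 c405.symm (Lsw H i1 i11 b33) (Lsw H i1 i37 b488)
  have c1174 := LP2 H i11 i37 i2 c405.symm (Lsw H i2 i11 b36) (Lsw H i2 i37 b495)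
  have c1175 := Lck c405 c391.symm b539
  have c1180 := LP2 H i11 i44 i1 c335 (Lsw H i1 i11 b33) (Lsw H i1 i44 b490)
  have c1194 := LP2 H i12 i43 i3 c353 b420 (Lsw H i3 i43 b506)
  have c1200 := LP2 H i13 i36 i2 c368 (Lsw H i2 i13 b144) (Lsw H i2 i36 b494)
  have c1204 := LP2 H i14 i19 i9 c79 (Lsw H i9 i14 b531) (Lsw H i9 i19 b532)
  have c1206 := Lco i85 i14 (LP1 H i14 i26 i5 c262 (Lsw H i5 i14 b157) (Lsw H i5 i26 b518) (k_one i43 i26 c431))
  have c1208 := Lco i78 i14 (LP1 H i14 i28 i4 c263 (Lsw H i4 i14 b153) (Lsw H i4 i28 b511) (k_one i39 i28 c429))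
  have c1214 := LP2 H i16 i25 i5 c167.symm (Lsw H i5 i16 b158) (Lsw H i5 i25 b517)
  have c1215 := LP2 H i16 i31 i1 c396 (Lsw H i1 i16 b139) (Lsw H i1 i31 b485)
  have c1217 := LP2 H i16 i35 i1 c314 (Lsw H i1 i16 b139) (Lsw H i1 i35 b487)
  have c1224 := LP2 H i17 i31 i3 c400 (Lsw H i3 i17 b149) (Lsw H i3 i31 b502)
  have c1225 := LP2 H i17 i32 i3 c291 (Lsw H i3 i17 b149) (Lsw H i3 i32 b503)
  have c1226 := Lco i53 i17 (LP1 H i17 i33 i1 c404 (Lsw H i1 i17 b140) (Lsw H i1 i33 b486) (k_one i26 i33 c480))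
  have c1228 := LP2 H i17 i39 i3 c338 (Lsw H i3 i17 b149) (Lsw H i3 i39 b505)
  have c1231 := LP2 H i17 i44 i1 c356 (Lsw H i1 i17 b140) (Lsw H i1 i44 b490)
  have c1235 := LP2 H i18 i19 i6 c123 (Lsw H i6 i18 b524) (Lsw H i6 i19 b525)
  have c1237 := LP2 H i18 i31 i1 c292 (Lsw H i1 i18 b141) (Lsw H i1 i31 b485)
  have c1241 := LP2 H i18 i37 i4 c391 (Lsw H i4 i18 b154) (Lsw H i4 i37 b514)
  have c1249 := LP2 H i19 i36 i2 c403 (Lsw H i2 i19 b145) (Lsw H i2 i36 b494)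
  have c1251 := LP2 H i19 i37 i2 c318 (Lsw H i2 i19 b145) (Lsw H i2 i37 b495)
  have c1252 := LP2 H i19 i39 i2 c340 (Lsw H i2 i19 b145) (Lsw H i2 i39 b496)
  have c1254 := LP2 H i19 i43 i2 c360 (Lsw H i2 i19 b145) (Lsw H i2 i43 b497)
  have c1262 := Lco i63 i20 (LP1 H i20 i39 i2 c372 (Lsw H i2 i20 b146) (Lsw H i2 i39 b496) (k_one i32 i39 c406))
  have c1266 := Lco i64 i20 (LP1 H i20 i43 i2 c463 (Lsw H i2 i20 b146) (Lsw H i2 i43 b497) (k_one i32 i43 c476))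
  have c1273 := LP2 H i23 i44 i1 c367 b467 (Lsw H i1 i44 b490)
  have c1274 := LP2 H i23 i44 i2 c367 (Lsw H i2 i23 b147) (Lsw H i2 i44 b498)
  have c1276 := LP2 H i25 i26 i5 c412 (Lsw H i5 i25 b517) (Lsw H i5 i26 b518)
  have c1277 := LP2 H i26 i31 i3 c459 (Lsw H i3 i26 b501) (Lsw H i3 i31 b502)
  have c1279 := LP2 H i26 i32 i3 c478 (Lsw H i3 i26 b501) (Lsw H i3 i32 b503)
  have c1280 := LP2 H i26 i33 i3 c480 (Lsw H i3 i26 b501) (Lsw H i3 i33 b504)
  have c1282 := LP2 H i26 i35 i4 c234 (Lsw H i4 i26 b509) (Lsw H i4 i35 b513)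
  have c1286 := LP2 H i28 i31 i5 c227 (Lsw H i5 i28 b519) (Lsw H i5 i31 b520)
  have c1289 := LP2 H i28 i36 i2 c479 (Lsw H i2 i28 b492) (Lsw H i2 i36 b494)
  have c1291 := LP2 H i28 i37 i2 c481 (Lsw H i2 i28 b492) (Lsw H i2 i37 b495)
  have c1301 := LP2 H i32 i43 i3 c476 (Lsw H i3 i32 b503) (Lsw H i3 i43 b506)
  have c1307 := LP2 H i35 i44 i1 c445.symm (Lsw H i1 i35 b487) (Lsw H i1 i44 b490)
  have c1310 := LP2 H i36 i37 i2 c483 (Lsw H i2 i36 b494) (Lsw H i2 i37 b495)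
  have c1312 := LP2 H i36 i43 i2 c457 (Lsw H i2 i36 b494) (Lsw H i2 i43 b497)
  have c1316 := LP2 H i37 i43 i2 c408 (Lsw H i2 i37 b495) (Lsw H i2 i43 b497)
  have c1318 := LP2 H i37 i44 i2 c409 (Lsw H i2 i37 b495) (Lsw H i2 i44 b498)
  have c1319 := LP2 H i37 i44 i4 c409 (Lsw H i4 i37 b514) (Lsw H i4 i44 b515)
  have e1337 := (LP1 H i1 i2 i19 hab b142 b145 (Lsw H i2 i28 b492)).symm.trans (Lsw H i1 i31 b485)
  have m1338 : t52 = t59 := e1337.symm
  subst m1338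
  have b1339 := LP1 H i2 i1 i23 hab.symm b147 (Lsw H i23 i1 b467) (Lsw H i1 i33 b486)
  have e1340 := (LP1 H i1 i3 i17 hac b140 b149 (Lsw H i3 i26 b501)).symm.trans (Lsw H i1 i35 b487)
  have m1341 : t54 = t68 := e1340.symm
  subst m1341
  have b1342 := LP1 H i3 i1 i23 hac.symm b151 (Lsw H i23 i1 b467) (Lsw H i1 i37 b488)
  have b1343 := LP1 H i6 i1 i9 c10 b160 b31 (Lsw H i1 i33 b486)
  have b1344 := LP1 H i8 i1 i11 c22.symm b164 b33 (Lsw H i1 i50 b491)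
  have c1345 := LP3 H i1 i12 i4 c44.symm b4 (Lsw H i12 i6 b1343)
  have b1346 := LP1 H i13 i1 i5 c46 (Lsw H i5 i13 b156) b5 (Lsw H i1 i37 b488)
  have c1359 := Lck c911 c1033 b5
  have c1363 := Lck c977 c1055 b4
  have c1372 := Lck c1103 c974 b4
  have c1376 := Lck c1134 c891 b5
  have e1379 := (LP1 H i2 i4 i14 hbd (Lsw H i14 i2 b419) b153 (Lsw H i4 i26 b509)).symm.trans (Lsw H i2 i39 b496)
  have m1380 : t63 = t76 := e1379.symm
  subst m1380
  have e1381 := (LP1 H i2 i4 i23 hbd b147 b155 (Lsw H i4 i33 b512)).symm.trans (Lsw H i2 i39 b496)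
  have m1382 : t63 = t79 := e1381.symm
  subst m1382
  have b1383 := LP1 H i6 i2 i11 c23.symm b161 b36 (Lsw H i2 i39 b496)
  have b1384 := LP1 H i8 i2 i11 c14 b164 b36 (Lsw H i2 i50 b499)
  have b1385 := LP1 H i9 i2 i10 c16 b165 b35 (Lsw H i2 i51 b500)
  have e1387 := (LP1 H i16 i2 i5 c52 (Lsw H i5 i16 b158) b7 (Lsw H i2 i44 b498)).symm.trans (Lsw H i16 i9 b1385)
  have m1388 : t65 = t67 := e1387
  subst m1388
  have e1390 := (LP1 H i17 i2 i3 c54 (Lsw H i3 i17 b149) b6 (Lsw H i2 i35 b493)).symm.trans (Lsw H i17 i8 b1384)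
  have m1391 : t60 = t66 := e1390
  subst m1391
  have c1397 := Lck c992 c960 b35
  have c1399 := Lck c992 c1125.symm b497
  have c1404 := Lck c1136 c1146.symm b146
  have e1413 := (LP1 H i3 i5 i14 hce b148 b157 (Lsw H i5 i28 b519)).symm.trans (Lsw H i3 i43 b506)
  have m1414 : t73 = t86 := e1413.symm
  subst m1414
  have e1415 := (LP1 H i3 i5 i20 hce b150 (Lsw H i20 i5 b473) (Lsw H i5 i36 b521)).symm.trans (Lsw H i3 i43 b506)
  have m1416 : t73 = t88 := e1415.symm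
  subst m1416
  have e1417 := (LP1 H i3 i7 i11 c26 b38 b451 (Lsw H i7 i19 b528)).symm.trans (Lsw H i3 i43 b506)
  have m1418 : t73 = t95 := e1417.symm
  subst m1418
  have b1419 := LP1 H i8 i3 i11 c15 b164 b38 (Lsw H i3 i50 b507)
  have b1420 := LP1 H i10 i3 i9 c18 (Lsw H i9 i10 b165) b37 (Lsw H i3 i51 b508)
  have c1421 := LP3 H i3 i18 i4 c56.symm b8 (Lsw H i18 i10 b1420)
  have e1423 := (LP1 H i19 i3 i2 c58 (Lsw H i2 i19 b145) (Lsw H i2 i3 b6) (Lsw H i3 i31 b502)).symm.trans (Lsw H i19 i8 b1419)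
  have m1424 : t69 = t74 := e1423
  subst m1424
  have c1426 := Lck c762 c739 b38
  have c1430 := Lck c1106 c1119.symm b151
  have c1434 := Lck c903 c875 b37
  have c1437 := Lck c903 c1404 b503
  have c1438 := Lck c903 c1153.symm b505
  have e1446 := (LP1 H i4 i10 i9 c19.symm b41 (Lsw H i9 i10 b165) (Lsw H i10 i17 b534)).symm.trans (Lsw H i4 i51 b516)
  have m1447 : t83 = t101 := e1446.symm
  subst m1447
  have e1451 := (LP1 H i4 i13 i5 c76.symm b9 (Lsw H i5 i13 b156) b537).symm.trans (Lsw H i4 i37 b514)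
  have m1452 : t81 = t104 := e1451.symm
  subst m1452
  have e1453 := (LP1 H i4 i16 i5 c95 b9 (Lsw H i5 i16 b158) b538).symm.trans (Lsw H i4 i44 b515)
  have m1454 : t82 = t105 := e1453.symm
  subst m1454
  have e1456 := (LP1 H i4 i17 i3 c96 (Lsw H i3 i4 b8) (Lsw H i3 i17 b149) b534).symm.trans (Lsw H i4 i35 b513)
  have m1457 : t80 = t83 := e1456.symm
  subst m1457
  have c1458 := Lco i60 i4 (LP1 H i4 i17 i8 c96 b40 b1384 (k_one i16 i17 c125))
  have e1459 := (LP1 H i4 i19 i1 c106.symm (Lsw H i1 i4 b4) (Lsw H i1 i19 b142) b525).symm.trans (Lsw H i4 i28 b511)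
  have m1460 : t78 = t92 := e1459.symm
  subst m1460
  have c1461 := LP2 H i4 i29 i3 c243.symm (Lsw H i3 i4 b8) b1342
  have c1467 := Lck c1055 c812.symm b513
  have c1472 := Lck c984 c1175.symm b514
  have e1474 := (LP1 H i5 i9 i10 c17.symm (Lsw H i10 i5 b136) b165 (Lsw H i9 i19 b532)).symm.trans (Lsw H i5 i51 b523)
  have m1475 : t90 = t99 := e1474.symm
  subst m1475
  have b1478 := LP1 H i5 i12 i4 c71.symm (Lsw H i4 i5 b9) (Lsw H i4 i12 b152) b536
  have e1479 := (LP1 H i5 i17 i1 c91.symm (Lsw H i1 i5 b5) (Lsw H i1 i17 b140) b527).symm.trans (Lsw H i5 i26 b518)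
  have m1480 : t85 = t94 := e1479.symm
  subst m1480
  have e1481 := (LP1 H i5 i18 i4 c108 (Lsw H i4 i5 b9) (Lsw H i4 i18 b154) b539).symm.trans (Lsw H i5 i40 b522)
  have m1482 : t89 = t106 := e1481.symm
  subst m1482
  have e1484 := (LP1 H i5 i19 i2 c109 (Lsw H i2 i5 b7) (Lsw H i2 i19 b145) b532).symm.trans (Lsw H i5 i31 b520)
  have m1485 : t87 = t90 := e1484.symm
  subst m1485
  have c1486 := Lco i69 i5 (LP1 H i5 i19 i8 c109 b43 b1419 (k_one i18 i19 c123))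
  have c1495 := Lck c1032 c1116.symm b523
  have e1498 := (LP1 H i6 i10 i5 c25 (Lsw H i5 i6 b42) b136 (Lsw H i10 i23 b535)).symm.trans (Lsw H i6 i19 b525)
  have m1499 : t78 = t102 := e1498.symm
  subst m1499
  have c1502 := Lco i23 i26 (LP1 H i26 i6 i5 c336.symm (Lsw H i5 i26 b518) (Lsw H i5 i6 b42) (k_one i85 i6 c1363))
  have c1503 := Lco i23 i32 (LP1 H i32 i6 i5 c280.symm b1478 (Lsw H i5 i6 b42) (k_one i103 i6 c1372))
  have c1504 := Lck c705.symm c1002.symm b161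
  have b1505 := LP1 H i9 i7 i4 c24.symm (Lsw H i4 i9 b41) (Lsw H i4 i7 b39) (Lsw H i7 i17 b527)
  have c1506 := LP2 H i7 i9 i13 c24 b1346 b530
  have c1508 := Lco i36 i23 (LP1 H i23 i7 i10 c80.symm (Lsw H i10 i23 b535) b163 (k_one i78 i7 c1359))
  have c1509 := Lco i20 i28 (LP1 H i28 i7 i4 c358.symm (Lsw H i4 i28 b511) (Lsw H i4 i7 b39) (k_one i78 i7 c1359))
  have c1510 := Lco i20 i37 (LP1 H i37 i7 i4 c307.symm (Lsw H i4 i37 b514) (Lsw H i4 i7 b39) (k_one i81 i7 c1376))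
  have c1512 := Lck c698.symm c920.symm b451
  have e1515 := (LP1 H i8 i9 i4 c29 (Lsw H i4 i8 b40) (Lsw H i4 i9 b41) b1385).symm.trans b1384
  have m1516 : t60 = t65 := e1515.symm
  subst m1516
  have e1517 := (LP1 H i8 i10 i5 c27 (Lsw H i5 i8 b43) b136 b1420).symm.trans b1419
  have m1518 : t69 = t75 := e1517.symm
  subst m1518
  have c1519 := Lck c1099 c1119.symm b529
  have e1521 := (LP1 H i9 i11 i1 c28 (Lsw H i1 i9 b31) (Lsw H i1 i11 b33) (Lsw H i11 i12 b536)).symm.trans (Lsw H i9 i14 b531)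
  have m1522 : t98 = t103 := e1521.symm
  subst m1522
  have e1523 := (LP1 H i9 i11 i3 c28 (Lsw H i3 i9 b37) (Lsw H i3 i11 b38) (Lsw H i11 i18 b539)).symm.trans (Lsw H i9 i19 b532)
  have m1524 : t87 = t89 := e1523.symm
  subst m1524
  have c1526 := Lck c1122 c1421 (Lsw H i4 i9 b41)
  have b1528 := LP1 H i10 i11 i1 c30 (Lsw H i1 i10 b32) (Lsw H i1 i11 b33) (Lsw H i11 i13 b537)
  have e1529 := (LP1 H i10 i11 i2 c30 (Lsw H i2 i10 b35) (Lsw H i2 i11 b36) (Lsw H i11 i16 b538)).symm.trans (Lsw H i10 i17 b534)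
  have m1530 : t80 = t82 := e1529.symm
  subst m1530
  have c1531 := LP2 H i10 i20 i9 c111 (Lsw H i9 i10 b165) b1505
  have c1537 := LP2 H i13 i16 i9 c74 (Lsw H i9 i13 b530) b1385
  have c1538 := Lco i36 i14 (LP1 H i14 i20 i3 c454.symm (Lsw H i3 i14 b148) (Lsw H i3 i20 b150) (k_one i28 i20 c1509.symm))
  have c1539 := Lco i33 i14 (LP1 H i14 i23 i2 c462 b419 (Lsw H i2 i23 b147) (k_one i26 i23 c1502.symm))
  have c1543 := LP2 H i16 i32 i5 c398 (Lsw H i5 i16 b158) b1478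
  have c1544 := Lco i44 i40 (LP1 H i40 i16 i5 c384.symm (Lsw H i5 i40 b522) (Lsw H i5 i16 b158) (k_one i87 i16 c1397))
  have c1548 := Lco i35 i31 (LP1 H i31 i17 i3 c400.symm (Lsw H i3 i31 b502) (Lsw H i3 i17 b149) (k_one i69 i17 c1526))
  have c1550 := Lco i35 i51 (LP1 H i51 i17 i3 c326.symm (Lsw H i3 i51 b508) (Lsw H i3 i17 b149) (k_one i69 i17 c1526))
  have c1551 := Lco i40 i35 (LP1 H i35 i18 i4 c389.symm (Lsw H i4 i35 b513) (Lsw H i4 i18 b154) (k_one i80 i18 c1434))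
  have c1555 := LP2 H i19 i23 i8 c138.symm b1419 (Lsw H i8 i23 b529)
  have c1557 := Lco i31 i51 (LP1 H i51 i19 i2 c347.symm (Lsw H i2 i51 b500) (Lsw H i2 i19 b145) (k_one i60 i19 c1426))
  have c1560 := Lck c780.symm c1458 (Lsw H i4 i26 b509)
  have c1561 := Lck c780.symm c755 (Lsw H i5 i26 b518)
  have c1562 := Lck c855.symm c1421 (Lsw H i4 i28 b511)
  have c1563 := Lck c855.symm c1486 (Lsw H i5 i28 b519)
  have c1569 := Lck c939.symm c1136 (Lsw H i2 i36 b494)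
  have q1572 : Rl [t20, t14, t23, t29, t39, t43] := q461.mv 1 rfl
  have c1573 := q1572.l1 (.cons c262 (.cons c1502 (.cons c413.symm (.cons c428 (.cons c431 .nil)))))
  have q1574 : Rl [t23, t14, t20, t29, t39, t43] := q461.mv 2 rfl
  have c1575 := q1574.l1 (.cons c263 (.cons c1509 (.cons c474.symm (.cons c429 (.cons c296.symm .nil)))))
  have c1576 := q461.l1 (.cons c181.symm (.cons c1503 (.cons c228 (.cons c406.symm (.cons c476.symm .nil)))))
  have c1577 := q461.l1 (.cons c1510 (.cons c191.symm (.cons c470 (.cons c452.symm (.cons c408.symm .nil)))))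
  have b1578 := LP1 H i1 i2 i20 hab b143 b146 b1339
  have b1579 := LP1 H i1 i3 i20 hac b143 b150 b1342
  have c1580 := LP2 H i1 i3 i32 hac (Lsw H i32 i1 b1578) b503
  have c1581 := Lck c1104 c1543.symm b490
  have c1582 := Lco i16 i18 (LP1 H i18 i2 i10 c105 b1420 b35 (k_one i69 i2 c842))
  have c1583 := Lco i17 i18 (LP1 H i18 i2 i11 c105 (Lsw H i11 i18 b539) b36 (k_one i87 i2 c993))
  have c1584 := Lco i9 i40 (LP1 H i40 i2 i5 c268.symm (Lsw H i5 i40 b522) b7 (k_one i87 i2 c993))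
  have c1586 := Lck c842 c863.symm b494
  have c1588 := Lck c993 c1430 b495
  have c1589 := LP2 H i3 i5 i32 hce b503 (Lsw H i32 i5 b1478)
  have c1590 := Lco i19 i16 (LP1 H i16 i3 i11 c89 (Lsw H i11 i16 b538) b38 (k_one i80 i3 c904))
  have b1591 := LP1 H i3 i18 i4 c56.symm b8 (Lsw H i4 i18 b154) (Lsw H i18 i10 b1420)
  have c1592 := Lco i8 i44 (LP1 H i44 i3 i2 c297.symm (Lsw H i2 i44 b498) (Lsw H i2 i3 b6) (k_one i60 i3 c762))
  have c1593 := Lco i10 i44 (LP1 H i44 i3 i4 c297.symm (Lsw H i4 i44 b515) b8 (k_one i80 i3 c904))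
  have c1595 := Lco i17 i19 (LP1 H i19 i4 i9 c106 (Lsw H i9 i19 b532) b41 (k_one i87 i4 c985))
  have c1596 := Lco i10 i31 (LP1 H i31 i4 i3 c269.symm (Lsw H i3 i31 b502) (Lsw H i3 i4 b8) (k_one i69 i4 c1421))
  have c1597 := Lco i11 i31 (LP1 H i31 i4 i5 c269.symm (Lsw H i5 i31 b520) b9 (k_one i87 i4 c985))
  have c1598 := Lck c985 c1119.symm b155
  have c1599 := Lck c974 c1543.symm b515
  have c1600 := Lco i9 i35 (LP1 H i35 i5 i2 c298.symm (Lsw H i2 i35 b493) (Lsw H i2 i5 b7) (k_one i60 i5 c755))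
  have c1601 := Lco i11 i35 (LP1 H i35 i5 i4 c298.symm (Lsw H i4 i35 b513) (Lsw H i4 i5 b9) (k_one i80 i5 c897))
  have c1602 := Lck c897 c1146.symm (Lsw H i20 i5 b473)
  have c1604 := Lck c98.symm c1590.symm b525
  have c1605 := Lco i73 i6 (LP1 H i6 i28 i5 c339 (Lsw H i5 i6 b42) (Lsw H i5 i28 b519) (k_one i23 i28 c1575))
  have c1606 := Lco i13 i43 (LP1 H i43 i6 i3 c469 (Lsw H i3 i43 b506) b128 (k_one i73 i6 c1605))
  have c1608 := Lck c112.symm c1583.symm b527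
  have c1609 := Lco i63 i7 (LP1 H i7 i26 i4 c354 (Lsw H i4 i7 b39) (Lsw H i4 i26 b509) (k_one i20 i26 c1573))
  have c1610 := Lco i12 i39 (LP1 H i39 i7 i2 c432 (Lsw H i2 i39 b496) (Lsw H i2 i7 b34) (k_one i63 i7 c1609))
  have c1613 := Lck c788.symm c1171.symm (Lsw H i19 i8 b1419)
  have c1614 := Lck c475.symm c1606.symm b530
  have c1615 := Lck c364.symm c1610.symm b533
  have c1619 := LP2 H i14 i33 i3 c1539.symm (Lsw H i3 i14 b148) (Lsw H i3 i33 b504)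
  have c1620 := LP2 H i14 i36 i2 c1538.symm b419 (Lsw H i2 i36 b494)
  have c1621 := LP2 H i14 i37 i2 c1577 b419 (Lsw H i2 i37 b495)
  have c1623 := Lco i29 i17 (LP1 H i17 i20 i1 c120.symm (Lsw H i1 i17 b140) (Lsw H i1 i20 b143) (k_one i26 i20 c1573.symm))
  have c1625 := Lco i29 i19 (LP1 H i19 i23 i1 c138.symm (Lsw H i1 i19 b142) b467 (k_one i28 i23 c1575.symm))
  have c1626 := LP2 H i20 i26 i3 c1573 (Lsw H i3 i20 b150) (Lsw H i3 i26 b501)
  have c1627 := LP2 H i20 i28 i2 c1509 (Lsw H i2 i20 b146) (Lsw H i2 i28 b492)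
  have c1630 := Lck c373.symm c1584.symm b1505
  have c1631 := LP2 H i23 i26 i3 c1502 (Lsw H i3 i23 b151) (Lsw H i3 i26 b501)
  have c1632 := LP2 H i23 i28 i2 c1575 (Lsw H i2 i23 b147) (Lsw H i2 i28 b492)
  have c1634 := LP2 H i23 i36 i2 c1508.symm (Lsw H i2 i23 b147) (Lsw H i2 i36 b494)
  have c1635 := Lck c367.symm c1592.symm (Lsw H i8 i23 b529)
  have c1636 := Lck c367.symm c1593.symm (Lsw H i10 i23 b535)
  have c1637 := Lco i53 i31 (LP1 H i31 i33 i1 c416 (Lsw H i1 i31 b485) (Lsw H i1 i33 b486) (k_one i52 i33 c1632.symm))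
  have c1638 := LP2 H i31 i35 i1 c1548.symm (Lsw H i1 i31 b485) (Lsw H i1 i35 b487)
  have c1641 := Lco i55 i35 (LP1 H i35 i36 i1 c414 (Lsw H i1 i35 b487) b1579 (k_one i54 i36 c1626.symm))
  have c1642 := LP2 H i35 i40 i1 c1551.symm (Lsw H i1 i35 b487) (Lsw H i1 i40 b489)
  have c1644 := LP2 H i40 i44 i1 c1544.symm (Lsw H i1 i40 b489) (Lsw H i1 i44 b490)
  have q1647 : Rl [t31, t35, t50, t60, t69, 1] := LJ H i2 i3 i11 b6 b36 b38 b145 b149 (Lsw H i8 i11 b164) (Lsw H i17 i8 b1384) (Lsw H i19 i8 b1419) (k_one i17 i19 c1595)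
  have q1648 : Rl [1, t31, t35, t50, t60, t69] := q1647.mv 5 rfl
  have q1649 : Rl [t31, t35, t50, t60, t69] := q1648.del1
  have q1650 : Rl [t31, t44, t51, t60, t87, 1] := LJ H i2 i5 i10 b7 b35 (Lsw H i10 i5 b136) b145 b158 (Lsw H i9 i10 b165) (Lsw H i16 i9 b1385) b532 (k_one i16 i19 c1590.symm)
  have q1651 : Rl [1, t31, t44, t51, t60, t87] := q1650.mv 5 rfl
  have q1652 : Rl [t31, t44, t51, t60, t87] := q1651.del1
  have q1653 : Rl [t35, t40, t51, t69, t80, 1] := LJ H i3 i4 i9 b8 b37 b41 b149 b154 b165 (Lsw H i18 i10 b1420) b534 (k_one i18 i17 c1583.symm)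
  have q1654 : Rl [1, t35, t40, t51, t69, t80] := q1653.mv 5 rfl
  have q1655 : Rl [t35, t40, t51, t69, t80] := q1654.del1
  have q1656 : Rl [t40, t44, t50, t80, t87, 1] := LJ H i4 i5 i8 b9 b40 b43 b154 b158 b164 b538 b539 (k_one i16 i18 c1582)
  have q1657 : Rl [1, t40, t44, t50, t80, t87] := q1656.mv 5 rfl
  have q1658 : Rl [t40, t44, t50, t80, t87] := q1657.del1
  have q1659 : Rl [t23, t14, t20, t29, t39, t43] := q461.mv 2 rfl
  have c1660 := q1659.l1 (.cons c122.symm (.cons c92.symm (.cons c257.symm (.cons c1610.symm (.cons c353.symm .nil)))))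
  have q1661 : Rl [t20, t14, t23, t29, t39, t43] := q461.mv 1 rfl
  have c1662 := q1661.l1 (.cons c124.symm (.cons c137.symm (.cons c397.symm (.cons c333.symm (.cons c1606.symm .nil)))))
  have q1663 : Rl [t23, t14, t20, t29, t39, t43] := q461.mv 2 rfl
  have c1664 := q1663.l1 (.cons c75 (.cons c120 (.cons c1623 (.cons c338.symm (.cons c355.symm .nil)))))
  have q1665 : Rl [t20, t14, t23, t29, t39, t43] := q461.mv 1 rfl
  have c1666 := q1665.l1 (.cons c79 (.cons c138 (.cons c1625 (.cons c340.symm (.cons c360.symm .nil)))))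
  have q1667 : Rl [t44, t31, t51, t60, t87] := q1652.mv 1 rfl
  have c1668 := q1667.l1 (.cons c416 (.cons c363.symm (.cons c1274.symm (.cons c1012.symm .nil))))
  have q1669 : Rl [t60, t31, t44, t51, t87] := q1652.mv 3 rfl
  have c1670 := q1669.l1 (.cons c931 (.cons c1636 (.cons c1116 (.cons c1495.symm .nil))))
  have q1671 : Rl [t40, t35, t51, t69, t80] := q1655.mv 1 rfl
  have c1672 := q1671.l1 (.cons c414 (.cons c371.symm (.cons c863.symm (.cons c939.symm .nil))))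
  have q1673 : Rl [t69, t35, t40, t51, t80] := q1655.mv 3 rfl
  have c1674 := q1673.l1 (.cons c1017 (.cons c1630 (.cons c1531 (.cons c1467.symm .nil))))
  have q1675 : Rl [t44, t40, t50, t80, t87] := q1658.mv 1 rfl
  have c1676 := q1675.l1 (.cons c1241 (.cons c1091 (.cons c1319.symm (.cons c1472 .nil))))
  have c1677 := q1658.l1 (.cons c1543 (.cons c1131 (.cons c1599.symm (.cons c1204.symm .nil))))
  have c1679 := LP2 H i1 i3 i40 hac b489 (Lsw H i40 i3 b1591)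
  have c1681 := Lck c22.symm c1592 b490
  have c1682 := Lck c912 c1604.symm b139
  have c1685 := Lck c978 c1608.symm b141
  have c1689 := Lck c1136 c1602 b497
  have c1691 := Lck c1106 c1598 b505
  have c1692 := Lco i55 i4 (LP1 H i4 i13 i7 c76.symm b39 (Lsw H i7 i13 b1346) (k_one i20 i13 c1662))
  have c1693 := Lco i73 i4 (LP1 H i4 i19 i7 c106.symm b39 (Lsw H i7 i19 b528) (k_one i20 i19 c1666))
  have c1694 := Lco i10 i29 (LP1 H i29 i4 i3 c243 b1342 (Lsw H i3 i4 b8) (k_one i55 i4 c1692))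
  have c1695 := Lco i6 i36 (LP1 H i36 i4 i1 c302 b1579 (Lsw H i1 i4 b4) (k_one i55 i4 c1692))
  have c1696 := Lco i11 i36 (LP1 H i36 i4 i5 c302 (Lsw H i5 i36 b521) b9 (k_one i73 i4 c1693))
  have c1697 := Lco i10 i43 (LP1 H i43 i4 i3 c472 (Lsw H i3 i43 b506) (Lsw H i3 i4 b8) (k_one i73 i4 c1693))
  have c1699 := Lco i53 i5 (LP1 H i5 i12 i6 c71.symm b42 b1343 (k_one i23 i12 c1660))
  have c1700 := Lco i63 i5 (LP1 H i5 i17 i6 c91.symm b42 b1383 (k_one i23 i17 c1664))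
  have c1701 := Lco i9 i29 (LP1 H i29 i5 i2 c471 b1339 (Lsw H i2 i5 b7) (k_one i53 i5 c1699))
  have c1702 := Lco i7 i33 (LP1 H i33 i5 i1 c275 (Lsw H i1 i33 b486) (Lsw H i1 i5 b5) (k_one i53 i5 c1699))
  have c1703 := Lco i11 i33 (LP1 H i33 i5 i4 c275 (Lsw H i4 i33 b512) (Lsw H i4 i5 b9) (k_one i63 i5 c1700))
  have c1704 := Lco i9 i39 (LP1 H i39 i5 i2 c320 (Lsw H i2 i39 b496) (Lsw H i2 i5 b7) (k_one i63 i5 c1700))
  have c1707 := Lck c86.symm c1660.symm b529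
  have c1708 := LP2 H i9 i35 i1 c1600 (Lsw H i1 i9 b31) (Lsw H i1 i35 b487)
  have c1710 := Lck c475.symm c1697.symm b165
  have c1711 := LP2 H i10 i31 i1 c1596 (Lsw H i1 i10 b32) (Lsw H i1 i31 b485)
  have c1712 := Lck c364.symm c1704.symm (Lsw H i9 i10 b165)
  have c1713 := LP2 H i10 i44 i1 c1593 (Lsw H i1 i10 b32) (Lsw H i1 i44 b490)
  have c1715 := LP2 H i11 i35 i1 c1601 (Lsw H i1 i11 b33) (Lsw H i1 i35 b487)
  have c1716 := LP2 H i12 i23 i3 c1660.symm b420 (Lsw H i3 i23 b151)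
  have c1718 := Lco i27 i26 (LP1 H i26 i12 i3 c388.symm (Lsw H i3 i26 b501) b420 (k_one i54 i12 c1708.symm))
  have c1720 := LP2 H i12 i39 i3 c1610 b420 (Lsw H i3 i39 b505)
  have c1721 := Lck c353.symm c1697.symm (Lsw H i10 i12 b533)
  have c1722 := LP2 H i13 i20 i2 c1662.symm (Lsw H i2 i13 b144) (Lsw H i2 i20 b146)
  have c1725 := Lck c397.symm c1701.symm (Lsw H i9 i13 b530)
  have c1726 := Lck c333.symm c1704.symm (Lsw H i9 i13 b530)
  have c1727 := LP2 H i13 i43 i2 c1606 (Lsw H i2 i13 b144) (Lsw H i2 i43 b497)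
  have c1728 := Lco i28 i26 (LP1 H i26 i14 i3 c262.symm (Lsw H i3 i26 b501) (Lsw H i3 i14 b148) (k_one i54 i14 c1715.symm))
  have c1731 := Lco i53 i16 (LP1 H i16 i32 i1 c398 (Lsw H i1 i16 b139) b1578 (k_one i25 i32 c1722))
  have c1732 := Lck c1152.symm c1700 (Lsw H i5 i16 b158)
  have c1735 := LP2 H i17 i19 i7 c1595 (Lsw H i7 i17 b527) (Lsw H i7 i19 b528)
  have c1736 := LP2 H i17 i23 i3 c1664.symm (Lsw H i3 i17 b149) (Lsw H i3 i23 b151)
  have c1737 := LP2 H i17 i23 i8 c1664.symm b1384 (Lsw H i8 i23 b529)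
  have c1738 := Lck c1623 c1694.symm (Lsw H i10 i17 b534)
  have c1739 := Lco i55 i18 (LP1 H i18 i37 i1 c391 (Lsw H i1 i18 b141) (Lsw H i1 i37 b488) (k_one i27 i37 c1716))
  have c1740 := Lck c1124.symm c1693 (Lsw H i4 i18 b154)
  have c1741 := LP2 H i19 i20 i2 c1666.symm (Lsw H i2 i19 b145) (Lsw H i2 i20 b146)
  have c1742 := Lck c1625 c1701.symm (Lsw H i9 i19 b532)
  have c1743 := Lco i69 i20 (LP1 H i20 i40 i3 c373 (Lsw H i3 i20 b150) b1591 (k_one i36 i40 c1672.symm))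
  have c1744 := Lco i60 i23 (LP1 H i23 i44 i2 c367 (Lsw H i2 i23 b147) (Lsw H i2 i44 b498) (k_one i33 i44 c1668.symm))
  have c1748 := Lck c1194.symm c1693 (Lsw H i4 i27 b510)
  have c1749 := Lck c1637 c1699 (Lsw H i5 i31 b520)
  have c1750 := Lco i87 i32 (LP1 H i32 i40 i5 c407 b1478 (Lsw H i5 i40 b522) (k_one i98 i40 c1677.symm))
  have c1751 := LP2 H i33 i44 i1 c1668.symm (Lsw H i1 i33 b486) (Lsw H i1 i44 b490)
  have c1752 := Lco i80 i33 (LP1 H i33 i44 i4 c1668.symm (Lsw H i4 i33 b512) (Lsw H i4 i44 b515) (k_one i63 i44 c1732))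
  have c1753 := Lco i63 i51 (LP1 H i51 i33 i4 c363.symm (Lsw H i4 i51 b516) (Lsw H i4 i33 b512) (k_one i80 i33 c1752))
  have c1754 := Lck c1641 c1692 (Lsw H i4 i35 b513)
  have c1756 := Lco i87 i36 (LP1 H i36 i40 i5 c1672.symm (Lsw H i5 i36 b521) (Lsw H i5 i40 b522) (k_one i73 i40 c1740))
  have c1757 := Lco i73 i51 (LP1 H i51 i36 i5 c371.symm (Lsw H i5 i51 b523) (Lsw H i5 i36 b521) (k_one i87 i36 c1756))
  have c1758 := Lco i80 i37 (LP1 H i37 i44 i4 c409 (Lsw H i4 i37 b514) (Lsw H i4 i44 b515) (k_one i81 i44 c1676.symm))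
  have q1759 : Rl [t20, t14, t23, t29, t39, t43] := q461.mv 1 rfl
  have q1760 : Rl [t14, t20, t23, t29, t39, t43] := q1759.mv 1 rfl
  have e1761 := (Rl.l2 H i14 i20 i9 q1760 (.cons c97.symm (.cons c1701.symm (.cons c1704.symm (.cons c475.symm .nil)))) (Lsw H i9 i14 b531)).symm.trans b1505
  have m1762 : t85 = t98 := e1761.symm
  subst m1762
  have q1763 : Rl [t23, t14, t20, t29, t39, t43] := q461.mv 2 rfl
  have q1764 : Rl [t14, t23, t20, t29, t39, t43] := q1763.mv 1 rfl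
  have e1765 := (Rl.l2 H i14 i23 i10 q1764 (.cons c111.symm (.cons c1694.symm (.cons c364.symm (.cons c1697.symm .nil)))) b1528).symm.trans (Lsw H i10 i23 b535)
  have m1766 : t78 = t81 := e1765.symm
  subst m1766
  have q1767 : Rl [t35, t31, t50, t60, t69] := q1649.mv 1 rfl
  have c1768 := q1767.l1 (.cons c931 (.cons c1091 (.cons c1670 (.cons c1562 .nil))))
  have c1769 := q1649.l1 (.cons c1017 (.cons c1131 (.cons c1561 (.cons c1674 .nil))))
  have c1770 := Lck c658.symm c1732 b490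
  have c1773 := Lck c978 c1769.symm b485
  have c1774 := Lck c23.symm c1695 b494
  have c1775 := Lck c226.symm c1716 b495
  have c1776 := Lck c842 c1743 b146
  have c1777 := Lck c1136 c1738.symm (Lsw H i29 i2 b1339)
  have c1778 := Lck c1136 c1758 b495
  have c1780 := Lck c26.symm c1702 b504
  have c1782 := Lck c762 c1744 b151
  have c1784 := Lck c1106 c1742.symm (Lsw H i29 i3 b1342)
  have c1785 := Lck c1106 c1750 b503
  have c1787 := Lck c1692 c1739 b154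
  have c1788 := Lck c1458 c1744 b155
  have c1789 := Lck c942 c1720.symm b510
  have c1791 := Lck c1699 c1731 b158
  have c1792 := Lck c1027 c1727.symm b517
  have c1793 := Lck c1486 c1743 (Lsw H i20 i5 b473)
  have c1796 := Lck c1701.symm c1694.symm b165
  have c1797 := LP2 H i9 i39 i3 c1704 (Lsw H i3 i9 b37) (Lsw H i3 i39 b505)
  have c1798 := Lck c675 c1731 (Lsw H i16 i9 b1385)
  have c1799 := LP2 H i10 i43 i2 c1697 (Lsw H i2 i10 b35) (Lsw H i2 i43 b497)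
  have c1800 := Lck c1461.symm c1739 (Lsw H i18 i10 b1420)
  have c1801 := Lck c826.symm c1797.symm (Lsw H i18 i10 b1420)
  have c1802 := LP2 H i11 i33 i3 c1703 (Lsw H i3 i11 b38) (Lsw H i3 i33 b504)
  have c1803 := LP2 H i11 i36 i2 c1696 (Lsw H i2 i11 b36) (Lsw H i2 i36 b494)
  have c1804 := Lco i87 i12 (LP1 H i12 i18 i11 c77 (Lsw H i11 i12 b536) (Lsw H i11 i18 b539) (k_one i85 i18 c1608.symm))
  have c1805 := Lco i80 i13 (LP1 H i13 i16 i11 c74 (Lsw H i11 i13 b537) (Lsw H i11 i16 b538) (k_one i78 i16 c1604.symm))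
  have c1806 := Lco i96 i17 (LP1 H i17 i23 i8 c1664.symm b1384 (Lsw H i8 i23 b529) (k_one i60 i23 c1744))
  have c1807 := Lco i87 i26 (LP1 H i26 i31 i5 c459 (Lsw H i5 i26 b518) (Lsw H i5 i31 b520) (k_one i85 i31 c1769.symm))
  have c1808 := Lco i80 i28 (LP1 H i28 i35 i4 c411 (Lsw H i4 i28 b511) (Lsw H i4 i35 b513) (k_one i78 i35 c1768.symm))
  have c1809 := Lco i70 i31 (LP1 H i31 i32 i3 c1741 (Lsw H i3 i31 b502) (Lsw H i3 i32 b503) (k_one i69 i32 c1776))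
  have c1810 := Lco i70 i40 (LP1 H i40 i32 i3 c407.symm b1591 (Lsw H i3 i32 b503) (k_one i69 i32 c1776))
  have c1811 := Lco i57 i33 (LP1 H i33 i44 i1 c1668.symm (Lsw H i1 i33 b486) (Lsw H i1 i44 b490) (k_one i53 i44 c1791))
  have c1812 := Lco i62 i35 (LP1 H i35 i37 i2 c1736 (Lsw H i2 i35 b493) (Lsw H i2 i37 b495) (k_one i60 i37 c1782))
  have c1814 := Lco i62 i44 (LP1 H i44 i37 i2 c409.symm (Lsw H i2 i44 b498) (Lsw H i2 i37 b495) (k_one i60 i37 c1782))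
  have c1815 := LP2 H i43 i51 i2 c1710 (Lsw H i2 i43 b497) (Lsw H i2 i51 b500)
  have q1816 : Rl [t51, t31, t44, t60, t87] := q1652.mv 2 rfl
  have c1817 := q1816.l1 (.cons c1637.symm (.cons c1791.symm (.cons c1798.symm (.cons c1749.symm .nil))))
  have q1818 : Rl [t51, t31, t44, t60, t87] := q1652.mv 2 rfl
  have c1819 := q1818.l1 (.cons c1251 (.cons c1814.symm (.cons c1318.symm (.cons c1588 .nil))))
  have q1820 : Rl [t51, t35, t40, t69, t80] := q1655.mv 2 rfl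
  have c1821 := q1820.l1 (.cons c1641.symm (.cons c1787.symm (.cons c1800.symm (.cons c1754.symm .nil))))
  have q1822 : Rl [t51, t35, t40, t69, t80] := q1655.mv 2 rfl
  have c1823 := q1822.l1 (.cons c1225 (.cons c1810.symm (.cons c1613.symm (.cons c1437 .nil))))
  have c1825 := Lck c842 c1793 b497
  have c1827 := Lck c1136 c1808 b492
  have c1828 := Lck c673.symm c1811 b504
  have c1829 := Lck c762 c1788 b505
  have c1830 := Lck c1106 c1804 (Lsw H i12 i3 b420)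
  have c1832 := Lck c942 c1797.symm b154
  have c1833 := Lck c985 c1830 b510
  have c1834 := Lck c1027 c1799.symm b158
  have c1836 := Lck c1051 c1797.symm b524
  have c1838 := Lck c876 c1805 b530
  have c1840 := Lco i60 i29 (LP1 H i29 i51 i2 c1796 b1339 (Lsw H i2 i51 b500) (k_one i53 i51 c1817.symm))
  have c1841 := Lco i69 i29 (LP1 H i29 i51 i3 c1796 b1342 (Lsw H i3 i51 b508) (k_one i55 i51 c1821.symm))
  have q1842 : Rl [t51, t31, t44, t60, t87] := q1652.mv 2 rfl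
  have c1843 := q1842.l1 (.cons c1254 (.cons c1834.symm (.cons c1815.symm (.cons c1399 .nil))))
  have q1844 : Rl [t51, t35, t40, t69, t80] := q1655.mv 2 rfl
  have c1845 := q1844.l1 (.cons c1228 (.cons c1832.symm (.cons c1801.symm (.cons c1438 .nil))))
  have c1846 := Lck c660.symm c1834 b490
  have c1847 := Lck c671.symm c1832 b489
  have c1848 := Lck c842 c1841 (Lsw H i29 i2 b1339)
  have c1849 := Lck c762 c1840 (Lsw H i29 i3 b1342)
  have c1850 := Lco i69 i39 (LP1 H i39 i51 i3 c1712 (Lsw H i3 i39 b505) (Lsw H i3 i51 b508) (k_one i72 i51 c1845.symm))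
  have c1851 := Lco i60 i43 (LP1 H i43 i51 i2 c1710 (Lsw H i2 i43 b497) (Lsw H i2 i51 b500) (k_one i64 i51 c1843.symm))
  have c1852 := Lck c842 c1850 b496
  have c1853 := Lck c762 c1851 b506
  obtain ⟨t107, b1854⟩ : ∃ t, k a t60 = t := ⟨_, rfl⟩
  have i107 := Linv H i1 i60 b1854
  obtain ⟨t108, b1855⟩ : ∃ t, k a t61 = t := ⟨_, rfl⟩
  have i108 := Linv H i1 i61 b1855
  obtain ⟨t109, b1856⟩ : ∃ t, k a t62 = t := ⟨_, rfl⟩
  have i109 := Linv H i1 i62 b1856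
  obtain ⟨t110, b1857⟩ : ∃ t, k a t69 = t := ⟨_, rfl⟩
  have i110 := Linv H i1 i69 b1857
  obtain ⟨t111, b1858⟩ : ∃ t, k a t71 = t := ⟨_, rfl⟩
  have i111 := Linv H i1 i71 b1858
  obtain ⟨t112, b1859⟩ : ∃ t, k a t77 = t := ⟨_, rfl⟩
  have i112 := Linv H i1 i77 b1859
  obtain ⟨t113, b1860⟩ : ∃ t, k a t80 = t := ⟨_, rfl⟩
  have i113 := Linv H i1 i80 b1860
  obtain ⟨t114, b1861⟩ : ∃ t, k a t84 = t := ⟨_, rfl⟩
  have i114 := Linv H i1 i84 b1861
  obtain ⟨t115, b1862⟩ : ∃ t, k a t87 = t := ⟨_, rfl⟩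
  have i115 := Linv H i1 i87 b1862
  obtain ⟨t116, b1863⟩ : ∃ t, k a t93 = t := ⟨_, rfl⟩
  have i116 := Linv H i1 i93 b1863
  obtain ⟨t117, b1864⟩ : ∃ t, k a t96 = t := ⟨_, rfl⟩
  have i117 := Linv H i1 i96 b1864
  obtain ⟨t118, b1865⟩ : ∃ t, k a t97 = t := ⟨_, rfl⟩
  have i118 := Linv H i1 i97 b1865
  obtain ⟨t119, b1866⟩ : ∃ t, k a t100 = t := ⟨_, rfl⟩
  have i119 := Linv H i1 i100 b1866
  obtain ⟨t120, b1867⟩ : ∃ t, k b t54 = t := ⟨_, rfl⟩
  have i120 := Linv H i2 i54 b1867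
  obtain ⟨t121, b1868⟩ : ∃ t, k b t57 = t := ⟨_, rfl⟩
  have i121 := Linv H i2 i57 b1868
  obtain ⟨t122, b1869⟩ : ∃ t, k b t70 = t := ⟨_, rfl⟩
  have i122 := Linv H i2 i70 b1869
  obtain ⟨t123, b1870⟩ : ∃ t, k b t72 = t := ⟨_, rfl⟩
  have i123 := Linv H i2 i72 b1870
  obtain ⟨t124, b1871⟩ : ∃ t, k b t73 = t := ⟨_, rfl⟩
  have i124 := Linv H i2 i73 b1871
  obtain ⟨t125, b1872⟩ : ∃ t, k b t78 = t := ⟨_, rfl⟩
  have i125 := Linv H i2 i78 b1872
  obtain ⟨t126, b1873⟩ : ∃ t, k b t85 = t := ⟨_, rfl⟩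
  have i126 := Linv H i2 i85 b1873
  obtain ⟨t127, b1874⟩ : ∃ t, k b t97 = t := ⟨_, rfl⟩
  have i127 := Linv H i2 i97 b1874
  obtain ⟨t128, b1875⟩ : ∃ t, k b t100 = t := ⟨_, rfl⟩
  have i128 := Linv H i2 i100 b1875
  obtain ⟨t129, b1876⟩ : ∃ t, k c t52 = t := ⟨_, rfl⟩
  have i129 := Linv H i3 i52 b1876
  obtain ⟨t130, b1877⟩ : ∃ t, k c t61 = t := ⟨_, rfl⟩
  have i130 := Linv H i3 i61 b1877
  obtain ⟨t131, b1878⟩ : ∃ t, k c t62 = t := ⟨_, rfl⟩
  have i131 := Linv H i3 i62 b1878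
  obtain ⟨t132, b1879⟩ : ∃ t, k c t63 = t := ⟨_, rfl⟩
  have i132 := Linv H i3 i63 b1879
  obtain ⟨t133, b1880⟩ : ∃ t, k c t64 = t := ⟨_, rfl⟩
  have i133 := Linv H i3 i64 b1880
  obtain ⟨t134, b1881⟩ : ∃ t, k c t77 = t := ⟨_, rfl⟩
  have i134 := Linv H i3 i77 b1881
  obtain ⟨t135, b1882⟩ : ∃ t, k c t78 = t := ⟨_, rfl⟩
  have i135 := Linv H i3 i78 b1882
  obtain ⟨t136, b1883⟩ : ∃ t, k c t85 = t := ⟨_, rfl⟩
  have i136 := Linv H i3 i85 b1883
  obtain ⟨t137, b1884⟩ : ∃ t, k c t96 = t := ⟨_, rfl⟩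
  have i137 := Linv H i3 i96 b1884
  obtain ⟨t138, b1885⟩ : ∃ t, k c t97 = t := ⟨_, rfl⟩
  have i138 := Linv H i3 i97 b1885
  obtain ⟨t139, b1886⟩ : ∃ t, k c t100 = t := ⟨_, rfl⟩
  have i139 := Linv H i3 i100 b1886
  obtain ⟨t140, b1887⟩ : ∃ t, k d t54 = t := ⟨_, rfl⟩
  have i140 := Linv H i4 i54 b1887
  obtain ⟨t141, b1888⟩ : ∃ t, k d t56 = t := ⟨_, rfl⟩
  have i141 := Linv H i4 i56 b1888
  obtain ⟨t142, b1889⟩ : ∃ t, k d t57 = t := ⟨_, rfl⟩
  have i142 := Linv H i4 i57 b1889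
  obtain ⟨t143, b1890⟩ : ∃ t, k d t70 = t := ⟨_, rfl⟩
  have i143 := Linv H i4 i70 b1890
  obtain ⟨t144, b1891⟩ : ∃ t, k d t71 = t := ⟨_, rfl⟩
  have i144 := Linv H i4 i71 b1891
  obtain ⟨t145, b1892⟩ : ∃ t, k d t84 = t := ⟨_, rfl⟩
  have i145 := Linv H i4 i84 b1892
  obtain ⟨t146, b1893⟩ : ∃ t, k e t52 = t := ⟨_, rfl⟩
  have i146 := Linv H i5 i52 b1893
  obtain ⟨t147, b1894⟩ : ∃ t, k e t54 = t := ⟨_, rfl⟩
  have i147 := Linv H i5 i54 b1894
  obtain ⟨t148, b1895⟩ : ∃ t, k e t56 = t := ⟨_, rfl⟩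
  have i148 := Linv H i5 i56 b1895
  obtain ⟨t149, b1896⟩ : ∃ t, k e t57 = t := ⟨_, rfl⟩
  have i149 := Linv H i5 i57 b1896
  obtain ⟨t150, b1897⟩ : ∃ t, k e t61 = t := ⟨_, rfl⟩
  have i150 := Linv H i5 i61 b1897
  obtain ⟨t151, b1898⟩ : ∃ t, k e t62 = t := ⟨_, rfl⟩
  have i151 := Linv H i5 i62 b1898
  obtain ⟨t152, b1899⟩ : ∃ t, k e t77 = t := ⟨_, rfl⟩
  have i152 := Linv H i5 i77 b1899
  obtain ⟨t153, b1900⟩ : ∃ t, k t6 t35 = t := ⟨_, rfl⟩
  have i153 := Linv H i6 i35 b1900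
  obtain ⟨t154, b1901⟩ : ∃ t, k t6 t44 = t := ⟨_, rfl⟩
  have i154 := Linv H i6 i44 b1901
  obtain ⟨t155, b1902⟩ : ∃ t, k t6 t51 = t := ⟨_, rfl⟩
  have i155 := Linv H i6 i51 b1902
  obtain ⟨t156, b1903⟩ : ∃ t, k t7 t25 = t := ⟨_, rfl⟩
  have i156 := Linv H i7 i25 b1903
  obtain ⟨t157, b1904⟩ : ∃ t, k t7 t35 = t := ⟨_, rfl⟩
  have i157 := Linv H i7 i35 b1904
  obtain ⟨t158, b1905⟩ : ∃ t, k t7 t51 = t := ⟨_, rfl⟩
  have i158 := Linv H i7 i51 b1905
  obtain ⟨t159, b1906⟩ : ∃ t, k t8 t26 = t := ⟨_, rfl⟩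
  have i159 := Linv H i8 i26 b1906
  obtain ⟨t160, b1907⟩ : ∃ t, k t8 t32 = t := ⟨_, rfl⟩
  have i160 := Linv H i8 i32 b1907
  obtain ⟨t161, b1908⟩ : ∃ t, k t8 t33 = t := ⟨_, rfl⟩
  have i161 := Linv H i8 i33 b1908
  obtain ⟨t162, b1909⟩ : ∃ t, k t8 t36 = t := ⟨_, rfl⟩
  have i162 := Linv H i8 i36 b1909
  obtain ⟨t163, b1910⟩ : ∃ t, k t8 t37 = t := ⟨_, rfl⟩
  have i163 := Linv H i8 i37 b1910
  obtain ⟨t164, b1911⟩ : ∃ t, k t8 t39 = t := ⟨_, rfl⟩
  have i164 := Linv H i8 i39 b1911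
  obtain ⟨t165, b1912⟩ : ∃ t, k t9 t25 = t := ⟨_, rfl⟩
  have i165 := Linv H i9 i25 b1912
  obtain ⟨t166, b1913⟩ : ∃ t, k t9 t26 = t := ⟨_, rfl⟩
  have i166 := Linv H i9 i26 b1913
  obtain ⟨t167, b1914⟩ : ∃ t, k t9 t28 = t := ⟨_, rfl⟩
  have i167 := Linv H i9 i28 b1914
  obtain ⟨t168, b1915⟩ : ∃ t, k t9 t32 = t := ⟨_, rfl⟩
  have i168 := Linv H i9 i32 b1915
  obtain ⟨t169, b1916⟩ : ∃ t, k t9 t37 = t := ⟨_, rfl⟩
  have i169 := Linv H i9 i37 b1916
  obtain ⟨t170, b1917⟩ : ∃ t, k t10 t26 = t := ⟨_, rfl⟩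
  have i170 := Linv H i10 i26 b1917
  obtain ⟨t171, b1918⟩ : ∃ t, k t10 t27 = t := ⟨_, rfl⟩
  have i171 := Linv H i10 i27 b1918
  obtain ⟨t172, b1919⟩ : ∃ t, k t10 t28 = t := ⟨_, rfl⟩
  have i172 := Linv H i10 i28 b1919
  obtain ⟨t173, b1920⟩ : ∃ t, k t10 t37 = t := ⟨_, rfl⟩
  have i173 := Linv H i10 i37 b1920
  obtain ⟨t174, b1921⟩ : ∃ t, k t11 t25 = t := ⟨_, rfl⟩
  have i174 := Linv H i11 i25 b1921
  obtain ⟨t175, b1922⟩ : ∃ t, k t12 t13 = t := ⟨_, rfl⟩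
  have i175 := Linv H i12 i13 b1922
  obtain ⟨t176, b1923⟩ : ∃ t, k t12 t19 = t := ⟨_, rfl⟩
  have i176 := Linv H i12 i19 b1923
  obtain ⟨t177, b1924⟩ : ∃ t, k t13 t17 = t := ⟨_, rfl⟩
  have i177 := Linv H i13 i17 b1924
  obtain ⟨t178, b1925⟩ : ∃ t, k t13 t18 = t := ⟨_, rfl⟩
  have i178 := Linv H i13 i18 b1925
  obtain ⟨t179, b1926⟩ : ∃ t, k t13 t19 = t := ⟨_, rfl⟩
  have i179 := Linv H i13 i19 b1926
  obtain ⟨t180, b1927⟩ : ∃ t, k t14 t18 = t := ⟨_, rfl⟩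
  have i180 := Linv H i14 i18 b1927
  obtain ⟨t181, b1928⟩ : ∃ t, k t16 t20 = t := ⟨_, rfl⟩
  have i181 := Linv H i16 i20 b1928
  obtain ⟨t182, b1929⟩ : ∃ t, k t18 t20 = t := ⟨_, rfl⟩
  have i182 := Linv H i18 i20 b1929
  obtain ⟨t183, b1930⟩ : ∃ t, k t18 t23 = t := ⟨_, rfl⟩
  have i183 := Linv H i18 i23 b1930
  have c1931 := Lkl H i1 i60 b1854
  have c1933 := Lkl H i1 i61 b1855
  have c1937 := Lkl H i1 i69 b1857
  have c1938 := Lkr H i1 i69 b1857
  have c1939 := Lkl H i1 i71 b1858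
  have c1941 := Lkl H i1 i77 b1859
  have c1942 := Lkr H i1 i77 b1859
  have c1943 := Lkl H i1 i80 b1860
  have c1945 := Lkl H i1 i84 b1861
  have c1946 := Lkr H i1 i84 b1861
  have c1947 := Lkl H i1 i87 b1862
  have c1953 := Lkl H i1 i97 b1865
  have c1954 := Lkr H i1 i97 b1865
  have c1961 := Lkl H i2 i70 b1869
  have c1963 := Lkl H i2 i72 b1870
  have c1965 := Lkl H i2 i73 b1871
  have c1967 := Lkl H i2 i78 b1872
  have c1971 := Lkl H i2 i97 b1874
  have c1977 := Lkl H i3 i61 b1877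
  have c1979 := Lkl H i3 i62 b1878
  have c1981 := Lkl H i3 i63 b1879
  have c1983 := Lkl H i3 i64 b1880
  have c1989 := Lkl H i3 i85 b1883
  have c1997 := Lkl H i4 i54 b1887
  have c1999 := Lkl H i4 i56 b1888
  have c2001 := Lkl H i4 i57 b1889
  have c2003 := Lkl H i4 i70 b1890
  have c2005 := Lkl H i4 i71 b1891
  have c2007 := Lkl H i4 i84 b1892
  have c2009 := Lkl H i5 i52 b1893
  have c2013 := Lkl H i5 i56 b1895
  have c2015 := Lkl H i5 i57 b1896
  have c2017 := Lkl H i5 i61 b1897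
  have c2019 := Lkl H i5 i62 b1898
  have c2021 := Lkl H i5 i77 b1899
  have c2025 := Lkl H i6 i44 b1901
  have c2027 := Lkl H i6 i51 b1902
  have c2094 := Lck hab.symm c556.symm b1854
  have c2095 := Lck hab.symm c558.symm b1855
  have c2097 := Lck hab.symm c842.symm b1857
  have c2098 := Lck hab c671 b1870
  have c2099 := Lck hab c672 b1871
  have c2100 := Lck hab.symm c722 b1859
  have c2101 := Lck hab c912.symm b1872
  have c2102 := Lck hab.symm c1136.symm b1860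
  have c2104 := Lck hab.symm c993.symm b1862
  have c2105 := LP2 H i1 i2 i97 hab b1865 b1874
  have c2109 := LP3 H i3 i1 i33 hac.symm b504 (Lsw H i1 i71 b1858)
  have c2110 := LP3 H i3 i1 i40 hac.symm (Lsw H i40 i3 b1591) (Lsw H i1 i69 b1857)
  have c2113 := Lck hac.symm c762.symm b1854
  have c2116 := Lck hac c658 b1879
  have c2117 := Lck hac c660 b1880
  have c2118 := Lck hac.symm c574.symm b1857
  have c2119 := Lck hac.symm c578.symm b1858
  have c2122 := Lck hac.symm c904.symm b1860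
  have c2123 := Lck hac.symm c800 b1861
  have c2124 := Lck hac c978.symm b1883
  have c2125 := Lck hac.symm c1106.symm b1862
  have c2136 := LP3 H i7 i1 i16 c12 b526 (Lsw H i1 i93 b1863)
  have c2174 := LP3 H i13 i1 i9 c46 (Lsw H i9 i13 b530) (Lsw H i1 i97 b1865)
  have c2185 := LP3 H i25 i1 i5 c166 (Lsw H i5 i25 b517) (Lsw H i1 i84 b1861)
  have c2199 := Lck c168 c780 b1854
  have c2203 := LP3 H i27 i1 i4 c170 (Lsw H i4 i27 b510) (Lsw H i1 i77 b1859)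
  have c2216 := Lck c172 c855 b1857
  have c2220 := Lck c174 c1841.symm b1857
  have c2228 := Lck c328 c1850.symm b1857
  have c2235 := Lck c348 c1793.symm b1857
  have c2247 := Lck c542 c1798 b1854
  have c2250 := Lck c542 c1848.symm b1857
  have c2257 := LP2 H i1 i54 i4 c544.symm b4 (Lsw H i4 i54 b1887)
  have c2263 := Lck c546 c1849.symm b1854
  have c2266 := Lck c546 c1800 b1857
  have c2284 := Lck c658.symm c1560.symm b1854
  have c2287 := Lck c658.symm c1852.symm b1857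
  have c2293 := Lck c660.symm c1815 b1854
  have c2296 := Lck c660.symm c1825.symm b1857
  have c2301 := Lck c671.symm c1829.symm b1854
  have c2302 := Lck c671.symm c1801 b1857
  have c2307 := Lck c672.symm c1853.symm b1854
  have c2308 := Lck c672.symm c1563.symm b1857
  have c2326 := Lck c978 c1561.symm b1854
  have c2335 := LP3 H i4 i2 i28 hbd.symm b511 (Lsw H i2 i78 b1872)
  have c2336 := LP3 H i4 i2 i37 hbd.symm b514 (Lsw H i2 i78 b1872)
  have c2337 := LP2 H i2 i4 i54 hbd b1867 b1887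
  have c2338 := Lck hbd c659 b1888
  have c2341 := Lck hbd.symm c942.symm b1870
  have c2342 := Lck hbd.symm c1693.symm b1871
  have c2343 := Lck hbd.symm c592.symm b1872
  have c2345 := LP3 H i6 i2 i19 c23.symm b525 (Lsw H i2 i78 b1872)
  have c2349 := Lck c23.symm c1051.symm b1870
  have c2386 := Lck c73.symm c693 b1874
  have c2396 := Lck c54 c893 b1874
  have c2402 := Lck c105 c1124 b1871
  have c2403 := Lck c105 c1608 b1873
  have c2405 := LP3 H i2 i25 i5 c224 b7 b1912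
  have c2427 := Lck c226.symm c1685.symm b1873
  have c2433 := LP3 H i32 i2 i3 c180 (Lsw H i3 i32 b503) (Lsw H i2 i70 b1869)
  have e2435 := (LP1 H i32 i2 i5 c180 b1478 b7 (Lsw H i2 i85 b1873)).symm.trans b1915
  have m2436 : t126 = t168 := e2435
  subst m2436
  have c2439 := LP3 H i2 i33 i3 c182.symm b6 b1908
  have c2445 := Lck c268.symm c1740.symm b1871
  have c2447 := Lck c268.symm c1630 b1873
  have c2449 := LP2 H i2 i52 i5 c654 b7 (Lsw H i5 i52 b1893)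
  have c2473 := LP2 H i2 i61 i5 c558.symm b7 (Lsw H i5 i61 b1897)
  have c2477 := LP2 H i2 i63 i3 c562.symm b6 (Lsw H i3 i63 b1879)
  have c2486 := Lck c842 c1801.symm b1870
  have c2488 := Lck c842 c1562 b1872
  have c2506 := Lck c993 c1286.symm b1871
  have c2507 := Lck c993 c1495.symm b1872
  have c2517 := LP2 H i3 i5 i52 hce b1876 b1893
  have c2519 := Lck hce c673 b1896
  have c2522 := Lck hce.symm c1700.symm b1879
  have c2523 := Lck hce.symm c1027.symm b1880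
  have c2526 := Lck hce.symm c606.symm b1883
  have c2578 := Lck c89 c1604 b1882
  have c2580 := LP3 H i3 i18 i6 c56.symm (Lsw H i6 i3 b128) b1925
  have c2602 := Lck c233.symm c1682.symm b1882
  have c2606 := LP3 H i27 i3 i4 c235.symm (Lsw H i4 i27 b510) (Lsw H i3 i77 b1881)
  have c2625 := LP3 H i36 i3 i2 c188 (Lsw H i2 i36 b494) (Lsw H i3 i61 b1877)
  have c2631 := LP3 H i37 i3 i2 c190 (Lsw H i2 i37 b495) (Lsw H i3 i62 b1878)
  have e2633 := (LP1 H i37 i3 i4 c190 (Lsw H i4 i37 b514) b8 (Lsw H i3 i78 b1882)).symm.trans b1920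
  have m2634 : t135 = t173 := e2633
  subst m2634
  have c2643 := Lck c297.symm c1636 b1882
  have c2645 := Lck c297.symm c1635 b1884
  have c2646 := LP2 H i3 i54 i4 c669 b8 (Lsw H i4 i54 b1887)
  have c2666 := Lck c762 c1815.symm b1880
  have c2669 := Lck c762 c1737 b1884
  have c2677 := Lck c574 c1555 b1884
  have c2685 := LP2 H i3 i73 i2 c582.symm (Lsw H i2 i3 b6) (Lsw H i2 i73 b1871)
  have c2686 := Lck c582 c1748 b1881
  have c2689 := Lck c904 c1827 b1876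
  have c2696 := Lck c904 c1467.symm b1883
  have c2702 := Lck c800.symm c1276 b1883
  have c2710 := Lck c1106 c1519 b1884
  have c2729 := Lck c76 c1149 b1887
  have c2731 := Lck c76 c1713 b1889
  have c2732 := Lck c76 c1047 b1890
  have c2734 := LP3 H i4 i16 i7 c95 b39 (Lsw H i16 i20 b1928)
  have c2740 := Lck c106 c1171 b1890
  have c2745 := LP3 H i25 i4 i5 c249 (Lsw H i5 i25 b517) (Lsw H i4 i84 b1892)
  have c2756 := Lck c269.symm c1809.symm b1890
  have c2757 := LP3 H i32 i4 i3 c270.symm (Lsw H i3 i32 b503) (Lsw H i4 i70 b1890)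
  have c2759 := Lck c270.symm c577.symm b1890
  have c2766 := LP3 H i40 i4 i1 c196 (Lsw H i1 i40 b489) (Lsw H i4 i56 b1888)
  have c2772 := Lck c1345 c1580 b1890
  have c2773 := Lck c1345 c668 b1891
  have c2780 := LP2 H i4 i60 i1 c1458.symm (Lsw H i1 i4 b4) (Lsw H i1 i60 b1854)
  have c2784 := Lco i108 i4 (LP1 H i4 i61 i1 c726 (Lsw H i1 i4 b4) (Lsw H i1 i61 b1855) (k_one i6 i61 c1774))
  have c2786 := LP2 H i4 i61 i5 c726 b9 (Lsw H i5 i61 b1897)
  have c2794 := LP2 H i4 i69 i1 c1421.symm (Lsw H i1 i4 b4) (Lsw H i1 i69 b1857)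
  have c2796 := Lck c1421 c1679.symm b1888
  have c2805 := Lck c1693 c1301.symm b1890
  have c2817 := LP2 H i4 i85 i3 c1055.symm (Lsw H i3 i4 b8) (Lsw H i3 i85 b1883)
  have c2821 := Lck c1055 c1589.symm b1890
  have c2823 := LP2 H i4 i87 i1 c985.symm (Lsw H i1 i4 b4) (Lsw H i1 i87 b1862)
  have c2825 := Lck c985 c1785 b1890
  have c2844 := Lck c71 c1075 b1897
  have c2845 := Lck c71 c1077 b1898
  have c2849 := Lck c91 c1803 b1897
  have c2850 := Lck c91 c1174 b1898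
  have c2852 := LP3 H i5 i18 i6 c108 b42 (Lsw H i18 i23 b1930)
  have c2862 := LP3 H i27 i5 i4 c251 (Lsw H i4 i27 b510) (Lsw H i5 i77 b1899)
  have c2872 := Lck c471 c1273 b1896
  have c2882 := Lck c298.symm c1812.symm b1898
  have c2883 := LP3 H i5 i37 i2 c299 (Lsw H i2 i5 b7) b1916
  have c2884 := LP3 H i37 i5 i2 c299.symm (Lsw H i2 i37 b495) (Lsw H i5 i62 b1898)
  have c2890 := LP3 H i44 i5 i1 c204 (Lsw H i1 i44 b490) (Lsw H i5 i57 b1896)
  have c2893 := Lck c204 c1814.symm b1898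
  have c2903 := Lck c692 c657 b1898
  have c2905 := LP2 H i5 i60 i1 c755.symm (Lsw H i1 i5 b5) (Lsw H i1 i60 b1854)
  have c2908 := Lck c755 c661.symm b1896
  have c2920 := LP2 H i5 i69 i1 c1486.symm (Lsw H i1 i5 b5) (Lsw H i1 i69 b1857)
  have c2925 := Lco i111 i5 (LP1 H i5 i71 i1 c804 (Lsw H i1 i5 b5) (Lsw H i1 i71 b1858) (k_one i7 i71 c1780))
  have c2926 := LP2 H i5 i71 i4 c804 (Lsw H i4 i5 b9) (Lsw H i4 i71 b1891)
  have c2931 := Lck c806.symm c1847 b1895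
  have c2937 := LP2 H i5 i78 i2 c1033.symm (Lsw H i2 i5 b7) (Lsw H i2 i78 b1872)
  have c2942 := Lck c1033 c727.symm b1898
  have c2944 := LP2 H i5 i80 i1 c897.symm (Lsw H i1 i5 b5) (Lsw H i1 i80 b1860)
  have c2946 := Lck c897 c1569 b1897
  have c2947 := Lck c897 c1778 b1898
  have c2960 := Lck c25 c336 b1917
  have c2970 := LP3 H i16 i6 i5 c98.symm (Lsw H i5 i16 b158) (Lsw H i6 i44 b1901)
  have c2971 := Lck c98 c82 b1928
  have c3003 := Lck c678.symm c1817.symm b1902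
  have c3007 := LP2 H i6 i61 i3 c1774 b128 (Lsw H i3 i61 b1877)
  have c3029 := LP2 H i6 i85 i3 c1363.symm b128 (Lsw H i3 i85 b1883)
  have c3038 := Lck c24 c307 b1916
  have c3043 := LP3 H i7 i18 i4 c112 (Lsw H i4 i7 b39) (Lsw H i18 i20 b1929)
  have c3079 := Lck c683.symm c1821.symm b1905
  have c3081 := LP2 H i7 i57 i4 c1031 (Lsw H i4 i7 b39) (Lsw H i4 i57 b1889)
  have c3087 := LP2 H i7 i70 i2 c815 (Lsw H i2 i7 b34) (Lsw H i2 i70 b1869)
  have c3098 := LP2 H i7 i73 i2 c817 (Lsw H i2 i7 b34) (Lsw H i2 i73 b1871)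
  have c3109 := LP3 H i8 i9 i6 c29 (Lsw H i6 i8 b159) (Lsw H i9 i25 b1912)
  have c3118 := LP3 H i10 i8 i7 c27.symm (Lsw H i7 i10 b163) (Lsw H i8 i36 b1909)
  have c3124 := LP3 H i12 i8 i4 c86.symm (Lsw H i4 i12 b152) (Lsw H i8 i32 b1907)
  have c3132 := LP3 H i13 i8 i5 c87.symm (Lsw H i5 i13 b156) (Lsw H i8 i37 b1910)
  have c3145 := Lck c316.symm c416 b1908
  have c3154 := Lck c1592.symm c1668 b1908
  have c3161 := LP2 H i8 i52 i5 c686 (Lsw H i5 i8 b43) (Lsw H i5 i52 b1893)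
  have c3164 := Lck c686.symm c1632.symm b1908
  have c3165 := LP2 H i8 i54 i4 c687 (Lsw H i4 i8 b40) (Lsw H i4 i54 b1887)
  have c3173 := LP2 H i8 i57 i4 c1681 (Lsw H i4 i8 b40) (Lsw H i4 i57 b1889)
  have c3185 := Lck c860.symm c1634.symm b1908
  have c3220 := Lck c28.symm c231.symm b1914
  have c3221 := Lck c28.symm c405.symm b1916
  have b3222 := LP1 H i12 i9 i4 c45 (Lsw H i4 i12 b152) (Lsw H i4 i9 b41) (Lsw H i9 i32 b1915)
  have e3225 := (LP1 H i9 i17 i1 c103 (Lsw H i1 i9 b31) (Lsw H i1 i17 b140) (Lsw H i17 i12 b3222)).symm.trans (Lsw H i9 i26 b1913)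
  have m3226 : t126 = t166 := e3225
  subst m3226
  have c3233 := LP3 H i23 i9 i3 c97.symm (Lsw H i3 i23 b151) (Lsw H i9 i37 b1916)
  have c3246 := Lck c1600.symm c234.symm b1913
  have c3250 := Lck c1704.symm c429 b1914
  have c3251 := Lck c1704.symm c452.symm b1916
  have c3254 := Lck c475.symm c408.symm b1916
  have c3255 := Lco i154 i9 (LP1 H i9 i44 i6 c288 (Lsw H i6 i9 b160) (Lsw H i6 i44 b1901) (k_one i33 i44 c1668.symm))
  have c3277 := Lco i136 i9 (LP1 H i9 i85 i3 c779 (Lsw H i3 i9 b37) (Lsw H i3 i85 b1883) (k_one i18 i85 c1608))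
  have c3287 := Lck c30.symm c222.symm b1917
  have e3290 := (LP1 H i13 i10 i5 c47 (Lsw H i5 i13 b156) b136 (Lsw H i10 i37 b1920)).symm.trans (Lsw H i13 i19 b1926)
  have m3291 : t135 = t179 := e3290
  subst m3291
  have e3296 := (LP1 H i10 i19 i1 c114 (Lsw H i1 i10 b32) (Lsw H i1 i19 b142) b1926).symm.trans (Lsw H i10 i28 b1919)
  have m3297 : t135 = t172 := e3296
  subst m3297
  have c3299 := LP3 H i10 i20 i2 c111 (Lsw H i2 i10 b35) b1928
  have c3310 := Lck c1596.symm c227.symm b1919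
  have c3312 := Lck c337.symm c234.symm b1917
  have c3318 := LP2 H i10 i60 i1 c1150.symm (Lsw H i1 i10 b32) (Lsw H i1 i60 b1854)
  have c3320 := LP2 H i10 i69 i1 c928 (Lsw H i1 i10 b32) (Lsw H i1 i69 b1857)
  have c3321 := Lco i122 i10 (LP1 H i10 i70 i2 c933 (Lsw H i2 i10 b35) (Lsw H i2 i70 b1869) (k_one i16 i70 c834))
  have c3329 := LP2 H i10 i77 i5 c852 b136 (Lsw H i5 i77 b1899)
  have c3330 := Lco i125 i10 (LP1 H i10 i78 i2 c854 (Lsw H i2 i10 b35) (Lsw H i2 i78 b1872) (k_one i16 i78 c1604))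
  have c3355 := Lco i155 i11 (LP1 H i11 i51 i6 c386 (Lsw H i6 i11 b161) (Lsw H i6 i51 b1902) (k_one i39 i51 c1712))
  have c3356 := Lco i158 i11 (LP1 H i11 i51 i7 c386 (Lsw H i7 i11 b451) (Lsw H i7 i51 b1905) (k_one i43 i51 c1710))
  have c3364 := LP2 H i11 i69 i1 c818.symm (Lsw H i1 i11 b33) (Lsw H i1 i69 b1857)
  have c3407 := Lco i131 i12 (LP1 H i12 i62 i3 c1077 b420 (Lsw H i3 i62 b1878) (k_one i27 i62 c1775))
  have c3410 := Lco i136 i12 (LP1 H i12 i85 i3 c976 b420 (Lsw H i3 i85 b1883) (k_one i27 i85 c1685.symm))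
  have c3418 := Lck c74 c1662.symm b1928
  have c3424 := Lco i174 i13 (LP1 H i13 i25 i11 c259 (Lsw H i11 i13 b537) (Lsw H i11 i25 b1921) (k_one i78 i25 c1682))
  have c3431 := Lck c1711.symm c651 b1926
  have c3434 := Lck c1149.symm c664 b1924
  have c3461 := LP2 H i14 i37 i9 c1577 (Lsw H i9 i14 b531) (Lsw H i9 i37 b1916)
  have c3475 := LP2 H i14 i57 i5 c1180 (Lsw H i5 i14 b157) (Lsw H i5 i57 b1896)
  have c3482 := LP2 H i14 i78 i2 c1208.symm b419 (Lsw H i2 i78 b1872)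
  have c3484 := Lck c125.symm c120.symm b1928
  have c3495 := LP2 H i16 i61 i5 c1151 (Lsw H i5 i16 b158) (Lsw H i5 i61 b1897)
  have c3496 := Lck c1152.symm c1262 b1928
  have c3497 := Lck c1799.symm c1266 b1928
  have c3508 := LP2 H i17 i18 i13 c1583 (Lsw H i13 i17 b1924) (Lsw H i13 i18 b1925)
  have c3525 := Lco i131 i17 (LP1 H i17 i62 i3 c1174 (Lsw H i3 i17 b149) (Lsw H i3 i62 b1878) (k_one i35 i62 c1812.symm))
  have c3528 := LP2 H i17 i69 i1 c1526.symm (Lsw H i1 i17 b140) (Lsw H i1 i69 b1857)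
  have c3534 := LP2 H i17 i96 i3 c1806.symm (Lsw H i3 i17 b149) (Lsw H i3 i96 b1884)
  have c3573 := Lco i162 i19 (LP1 H i19 i36 i8 c403 b1419 (Lsw H i8 i36 b1909) (k_one i69 i36 c863.symm))
  have c3575 := Lco i169 i19 (LP1 H i19 i37 i9 c318 (Lsw H i9 i19 b532) (Lsw H i9 i37 b1916) (k_one i87 i37 c1430))
  have c3578 := Lco i155 i19 (LP1 H i19 i51 i6 c347 (Lsw H i6 i19 b525) (Lsw H i6 i51 b1902) (k_one i78 i51 c1116.symm))
  have c3581 := LP2 H i19 i60 i1 c1426.symm (Lsw H i1 i19 b142) (Lsw H i1 i60 b1854)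
  have c3582 := Lco i122 i19 (LP1 H i19 i70 i2 c1171 (Lsw H i2 i19 b145) (Lsw H i2 i70 b1869) (k_one i31 i70 c1809.symm))
  have c3594 := Lco i110 i20 (LP1 H i20 i69 i1 c1743.symm (Lsw H i1 i20 b143) (Lsw H i1 i69 b1857) (k_one i29 i69 c1841.symm))
  have c3620 := Lco i115 i23 (LP1 H i23 i87 i1 c1119 b467 (Lsw H i1 i87 b1862) (k_one i29 i87 c1742))
  have c3626 := LP2 H i25 i52 i5 c1215 (Lsw H i5 i25 b517) (Lsw H i5 i52 b1893)
  have c3630 := LP2 H i25 i61 i5 c1200 (Lsw H i5 i25 b517) (Lsw H i5 i61 b1897)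
  have c3683 := Lco i138 i29 (LP1 H i29 i97 i3 c1725 b1342 (Lsw H i3 i97 b1885) (k_one i55 i97 c1506))
  have c3689 := Lco i130 i31 (LP1 H i31 i61 i3 c1249 (Lsw H i3 i31 b502) (Lsw H i3 i61 b1877) (k_one i69 i61 c1586))
  have c3695 := Lco i133 i31 (LP1 H i31 i64 i3 c1254 (Lsw H i3 i31 b502) (Lsw H i3 i64 b1880) (k_one i69 i64 c1825))
  have c3697 := Lco i136 i31 (LP1 H i31 i85 i3 c1769 (Lsw H i3 i31 b502) (Lsw H i3 i85 b1883) (k_one i69 i85 c1674))
  have c3709 := Lco i110 i32 (LP1 H i32 i69 i1 c1776.symm b1578 (Lsw H i1 i69 b1857) (k_one i53 i69 c1848.symm))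
  have c3721 := Lco i107 i33 (LP1 H i33 i60 i1 c1274 (Lsw H i1 i33 b486) (Lsw H i1 i60 b1854) (k_one i53 i60 c1798))
  have c3743 := Lco i110 i35 (LP1 H i35 i69 i1 c1224 (Lsw H i1 i35 b487) (Lsw H i1 i69 b1857) (k_one i54 i69 c1277))
  have c3748 := Lco i123 i35 (LP1 H i35 i72 i2 c1228 (Lsw H i2 i35 b493) (Lsw H i2 i72 b1870) (k_one i60 i72 c1829))
  have c3750 := Lco i125 i35 (LP1 H i35 i78 i2 c1768 (Lsw H i2 i35 b493) (Lsw H i2 i78 b1872) (k_one i60 i78 c1670))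
  have c3759 := Lco i110 i36 (LP1 H i36 i69 i1 c863 b1579 (Lsw H i1 i69 b1857) (k_one i55 i69 c1800))
  have c3775 := Lco i107 i37 (LP1 H i37 i60 i1 c1782.symm (Lsw H i1 i37 b488) (Lsw H i1 i60 b1854) (k_one i55 i60 c1849.symm))
  have c3785 := Lco i118 i37 (LP1 H i37 i97 i1 c962 (Lsw H i1 i37 b488) (Lsw H i1 i97 b1865) (k_one i55 i97 c1506))
  have c3791 := Lco i134 i39 (LP1 H i39 i77 i3 c1504.symm (Lsw H i3 i39 b505) (Lsw H i3 i77 b1881) (k_one i72 i77 c1789))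
  have c3808 := Lco i136 i40 (LP1 H i40 i85 i3 c1630 b1591 (Lsw H i3 i85 b1883) (k_one i69 i85 c1674))
  have c3815 := Lco i136 i43 (LP1 H i43 i85 i3 c1028 (Lsw H i3 i43 b506) (Lsw H i3 i85 b1883) (k_one i73 i85 c1735.symm))
  have c3816 := LP2 H i43 i97 i2 c1614 (Lsw H i2 i43 b497) (Lsw H i2 i97 b1874)
  have c3837 := Lco i126 i50 (LP1 H i50 i85 i2 c1131 (Lsw H i2 i50 b499) (Lsw H i2 i85 b1873) (k_one i60 i85 c1561))
  have c3841 := Lco i137 i50 (LP1 H i50 i96 i3 c1163 (Lsw H i3 i50 b507) (Lsw H i3 i96 b1884) (k_one i69 i96 c1555))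
  have c3842 := Lco i151 i51 (LP1 H i51 i62 i5 c1819 (Lsw H i5 i51 b523) (Lsw H i5 i62 b1898) (k_one i87 i62 c1588))
  have c3845 := Lco i143 i51 (LP1 H i51 i70 i4 c1823 (Lsw H i4 i51 b516) (Lsw H i4 i70 b1890) (k_one i80 i70 c1437))
  have c3846 := Lco i123 i51 (LP1 H i51 i72 i2 c1845 (Lsw H i2 i51 b500) (Lsw H i2 i72 b1870) (k_one i60 i72 c1829))
  have c3852 := Lco i127 i51 (LP1 H i51 i97 i2 c1142 (Lsw H i2 i51 b500) (Lsw H i2 i97 b1874) (k_one i60 i97 c1537.symm))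
  have c3860 := LP2 H i52 i61 i5 c1289 (Lsw H i5 i52 b1893) (Lsw H i5 i61 b1897)
  have c3862 := LP2 H i52 i62 i5 c1291 (Lsw H i5 i52 b1893) (Lsw H i5 i62 b1898)
  have c3871 := LP2 H i54 i57 i4 c1307 (Lsw H i4 i54 b1887) (Lsw H i4 i57 b1889)
  have c3874 := LP2 H i54 i70 i4 c1279 (Lsw H i4 i54 b1887) (Lsw H i4 i70 b1890)
  have c3897 := LP2 H i61 i62 i5 c1310 (Lsw H i5 i61 b1897) (Lsw H i5 i62 b1898)
  have q3954 : Rl [t26, t32, t33, t53, t63, t126] := LJ H i1 i4 i9 b4 b31 b41 b140 b152 (Lsw H i6 i9 b160) (Lsw H i12 i6 b1343) (Lsw H i17 i6 b1383) (Lsw H i17 i12 b3222)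
  have q3955 : Rl [t28, t37, t36, t55, t73, t135] := LJ H i1 i5 i10 b5 b32 (Lsw H i10 i5 b136) b142 b156 (Lsw H i7 i10 b163) b1346 b528 b1926
  have q3956 : Rl [t64, t85, t85, t126, 1, 1] := LJ H i2 i5 i14 b7 (Lsw H i14 i2 b419) b157 b497 b518 (Lsw H i9 i14 b531) b1913 (k_one i9 i43 c475) (k_one i26 i43 c431.symm)
  have q3957 : Rl [1, t64, t85, t85, t126, 1] := q3956.mv 4 rfl
  have q3958 : Rl [t64, t85, t85, t126, 1] := q3957.del1
  have q3959 : Rl [1, t64, t85, t85, t126] := q3958.mv 4 rfl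
  have q3960 : Rl [t64, t85, t85, t126] := q3959.del1
  have q3961 : Rl [t85, t64, t85, t126] := q3960.mv 2 rfl
  have q3962 : Rl [t85, t85, t64, t126] := q3961.mv 2 rfl
  have q3963 : Rl [t64, t126] := q3962.del2
  have e3964 := q3963.two
  have m3965 : t64 = t126 := e3964
  subst m3965
  have q3966 : Rl [t72, t78, t78, t135, 1, 1] := LJ H i3 i4 i14 b8 b148 b153 b505 b511 b1528 b1919 (k_one i10 i39 c364) (k_one i28 i39 c429.symm)
  have q3967 : Rl [1, t72, t78, t78, t135, 1] := q3966.mv 4 rfl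
  have q3968 : Rl [t72, t78, t78, t135, 1] := q3967.del1
  have q3969 : Rl [1, t72, t78, t78, t135] := q3968.mv 4 rfl
  have q3970 : Rl [t72, t78, t78, t135] := q3969.del1
  have q3971 : Rl [t78, t72, t78, t135] := q3970.mv 2 rfl
  have q3972 : Rl [t78, t78, t72, t135] := q3971.mv 2 rfl
  have q3973 : Rl [t72, t135] := q3972.del2
  have e3974 := q3973.two
  have m3975 : t72 = t135 := e3974
  subst m3975
  have q3978 : Rl [t23, t14, t20, t29, t39, t43] := q461.mv 2 rfl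
  have c3979 := q3978.l1 (.cons c3364 (.cons c3594.symm (.cons c2220 (.cons c2228 (.cons c2235 .nil)))))
  have q3984 : Rl [t32, t26, t33, t53, t63, t64] := q3954.mv 1 rfl
  have c3985 := q3984.l1 (.cons c1231 (.cons c1811.symm (.cons c1751 (.cons c1770 (.cons c1846 .nil)))))
  have q3986 : Rl [t32, t26, t33, t53, t63, t64] := q3954.mv 1 rfl
  have c3987 := q3986.l1 (.cons c780 (.cons c1274 (.cons c1798 (.cons c1560.symm (.cons c1815 .nil)))))
  have c3988 := q3954.l1 (.cons c1404.symm (.cons c1752.symm (.cons c1777.symm (.cons c1282 (.cons c1689.symm .nil)))))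
  have q3989 : Rl [t32, t26, t33, t53, t63, t64] := q3954.mv 1 rfl
  have c3990 := q3989.l1 (.cons c2199 (.cons c3721.symm (.cons c2247 (.cons c2284 (.cons c2293 .nil)))))
  have q3991 : Rl [t33, t26, t32, t53, t63, t64] := q3954.mv 2 rfl
  have c3992 := q3991.l1 (.cons c3528 (.cons c3709.symm (.cons c2250 (.cons c2287 (.cons c2296 .nil)))))
  have q3999 : Rl [t37, t28, t36, t55, t73, t72] := q3955.mv 1 rfl
  have c4000 := q3999.l1 (.cons c855 (.cons c863 (.cons c1800 (.cons c1563.symm (.cons c1801 .nil)))))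
  have c4001 := q3955.l1 (.cons c1430.symm (.cons c1756.symm (.cons c1784.symm (.cons c1286 (.cons c1691.symm .nil)))))
  have q4002 : Rl [t36, t28, t37, t55, t73, t72] := q3955.mv 2 rfl
  have c4003 := q4002.l1 (.cons c3581 (.cons c3775.symm (.cons c2263 (.cons c2307 (.cons c2301 .nil)))))
  have q4004 : Rl [t37, t28, t36, t55, t73, t72] := q3955.mv 1 rfl
  have c4005 := q4004.l1 (.cons c2216 (.cons c3759.symm (.cons c2266 (.cons c2308 (.cons c2302 .nil)))))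
  have c4029 := q1649.l1 (.cons c3534 (.cons c3841.symm (.cons c2669 (.cons c2677 .nil))))
  have q4039 : Rl [t51, t31, t44, t60, t87] := q1652.mv 2 rfl
  have c4040 := q4039.l1 (.cons c4029 (.cons c2645 (.cons c2669 (.cons c2710 .nil))))
  have e4073 := (LP1 H i1 i2 i35 hab b487 b493 (Lsw H i2 i54 b1867)).symm.trans (Lsw H i1 i60 b1854)
  have m4074 : t107 = t120 := e4073.symm
  subst m4074
  have b4075 := LP1 H i2 i1 i36 hab.symm b494 (Lsw H i36 i1 b1579) (Lsw H i1 i61 b1855)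
  have e4077 := (LP1 H i2 i1 i37 hab.symm b495 b488 (Lsw H i1 i62 b1856)).symm.trans b4075
  have m4078 : t108 = t109 := e4077.symm
  subst m4078
  have e4079 := (LP1 H i1 i2 i44 hab b490 b498 (Lsw H i2 i57 b1868)).symm.trans (Lsw H i1 i60 b1854)
  have m4080 : t107 = t121 := e4079.symm
  subst m4080
  have e4082 := (LP1 H i1 i3 i31 hac b485 b502 (Lsw H i3 i52 b1876)).symm.trans (Lsw H i1 i69 b1857)
  have m4083 : t110 = t129 := e4082.symm
  subst m4083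
  have b4084 := LP1 H i3 i1 i33 hac.symm b504 b486 (Lsw H i1 i71 b1858)
  have b4085 := LP1 H i3 i1 i40 hac.symm (Lsw H i40 i3 b1591) b489 (Lsw H i1 i69 b1857)
  have e4087 := (LP1 H i1 i7 i16 c12.symm b139 b526 (Lsw H i7 i25 b1903)).symm.trans (Lsw H i1 i93 b1863)
  have m4088 : t116 = t156 := e4087.symm
  subst m4088
  have e4089 := (LP1 H i1 i8 i17 c22 b140 (Lsw H i17 i8 b1384) (Lsw H i8 i26 b1906)).symm.trans (Lsw H i1 i60 b1854)
  have m4090 : t107 = t159 := e4089.symm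
  subst m4090
  have b4091 := LP1 H i8 i1 i19 c22.symm (Lsw H i19 i8 b1419) b142 (Lsw H i1 i69 b1857)
  have b4092 := LP1 H i8 i1 i23 c22.symm b529 (Lsw H i23 i1 b467) (Lsw H i1 i96 b1864)
  have e4093 := (LP1 H i1 i12 i10 c44.symm b32 (Lsw H i10 i12 b533) (Lsw H i12 i13 b1922)).symm.trans (Lsw H i1 i100 b1866)
  have m4094 : t119 = t175 := e4093.symm
  subst m4094
  have e4095 := (LP1 H i1 i13 i9 c46.symm b31 (Lsw H i9 i13 b530) b1922).symm.trans (Lsw H i1 i97 b1865)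
  have m4096 : t118 = t119 := e4095.symm
  subst m4096
  have e4097 := (LP1 H i1 i25 i5 c166.symm b5 (Lsw H i5 i25 b517) b1903).symm.trans (Lsw H i1 i84 b1861)
  have m4098 : t114 = t116 := e4097.symm
  subst m4098
  have b4099 := LP1 H i27 i1 i4 c170 (Lsw H i4 i27 b510) b4 (Lsw H i1 i77 b1859)
  have c4100 := Lck c660.symm c3246.symm b487
  have c4106 := Lck c2098.symm c3748 b487
  have c4110 := Lck c2098.symm c2486.symm b1857
  have c4122 := Lck c2101.symm c3750 b487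
  have c4123 := Lck c2101.symm c2336 b488
  have c4127 := Lck c2101.symm c2488.symm b1857
  have c4139 := Lck c2117.symm c3695 b485
  have c4142 := Lck c2117.symm c2666.symm b1854
  have c4147 := Lck c2124.symm c3697 b485
  have c4149 := Lck c2124.symm c3808 b489
  have c4157 := Lck c2766 c2796.symm b1857
  have c4164 := Lck c2890 c2908.symm b1854
  have b4178 := LP1 H i4 i2 i28 hbd.symm b511 b492 (Lsw H i2 i78 b1872)
  have b4179 := LP1 H i4 i2 i37 hbd.symm b514 b495 (Lsw H i2 i78 b1872)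
  have b4180 := LP1 H i6 i2 i19 c23.symm b525 b145 (Lsw H i2 i78 b1872)
  have e4182 := (LP1 H i2 i9 i13 c16.symm b144 b530 (Lsw H i9 i25 b1912)).symm.trans (Lsw H i2 i97 b1874)
  have m4183 : t127 = t165 := e4182.symm
  subst m4183
  have b4184 := LP1 H i12 i2 i10 c73.symm (Lsw H i10 i12 b533) b35 (Lsw H i2 i100 b1875)
  have c4185 := LP3 H i2 i16 i7 c52.symm b34 (Lsw H i16 i12 b4184)
  have b4186 := LP1 H i2 i25 i5 c224 b7 (Lsw H i5 i25 b517) b1912
  have e4187 := (LP1 H i2 i32 i3 c180.symm b6 (Lsw H i3 i32 b503) b1907).symm.trans (Lsw H i2 i70 b1869)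
  have m4188 : t122 = t160 := e4187.symm
  subst m4188
  have b4189 := LP1 H i2 i33 i3 c182.symm b6 (Lsw H i3 i33 b504) b1908
  have c4191 := Lck c842 c4000.symm b495
  have c4192 := Lck c993 c4001.symm b492
  have c4214 := Lck c2884 c2942.symm b1872
  have c4232 := Lck c2883 c3575 b145
  have c4237 := Lck c3299 c2734 b34
  have c4238 := Lck c3299 c3418.symm b144
  have e4243 := (LP1 H i3 i5 i26 hce b501 b518 (Lsw H i5 i54 b1894)).symm.trans (Lsw H i3 i85 b1883)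
  have m4244 : t136 = t147 := e4243.symm
  subst m4244
  have b4245 := LP1 H i5 i3 i32 hce.symm (Lsw H i32 i5 b1478) b503 (Lsw H i3 i85 b1883)
  have e4247 := (LP1 H i3 i7 i17 c26 b149 b527 (Lsw H i7 i35 b1904)).symm.trans (Lsw H i3 i85 b1883)
  have m4248 : t136 = t157 := e4247.symm
  subst m4248
  have e4249 := (LP1 H i3 i8 i23 c15.symm b151 b529 (Lsw H i8 i37 b1910)).symm.trans (Lsw H i3 i96 b1884)
  have m4250 : t137 = t163 := e4249.symm
  subst m4250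
  have e4251 := (LP1 H i3 i10 i12 c18.symm (Lsw H i12 i3 b420) b533 (Lsw H i10 i27 b1918)).symm.trans (Lsw H i3 i100 b1886)
  have m4252 : t139 = t171 := e4251.symm
  subst m4252
  have e4253 := (LP1 H i3 i13 i9 c78 b37 (Lsw H i9 i13 b530) (Lsw H i13 i18 b1925)).symm.trans (Lsw H i3 i97 b1885)
  have m4254 : t138 = t178 := e4253.symm
  subst m4254
  have b4255 := LP1 H i3 i18 i6 c56.symm (Lsw H i6 i3 b128) (Lsw H i6 i18 b524) b1925
  have e4256 := (LP1 H i3 i27 i4 c235 b8 (Lsw H i4 i27 b510) b1918).symm.trans (Lsw H i3 i77 b1881)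
  have m4257 : t134 = t139 := e4256.symm
  subst m4257
  have e4258 := (LP1 H i3 i36 i2 c188.symm (Lsw H i2 i3 b6) (Lsw H i2 i36 b494) b1909).symm.trans (Lsw H i3 i61 b1877)
  have m4259 : t130 = t162 := e4258.symm
  subst m4259
  have e4260 := (LP1 H i3 i37 i2 c190.symm (Lsw H i2 i3 b6) (Lsw H i2 i37 b495) b1910).symm.trans (Lsw H i3 i62 b1878)
  have m4261 : t131 = t137 := e4260.symm
  subst m4261
  have c4263 := Lck c762 c3987.symm b503
  have c4264 := Lck c904 c3988.symm b501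
  have c4265 := Lck c1106 c4192 b1876
  have c4267 := Lck c2113.symm c3721 b504
  have c4280 := Lck c2757 c2821.symm b1883
  have c4295 := Lck c3233 c4232 b502
  have c4301 := Lck c3233 c3461.symm b1883
  have b4309 := LP1 H i4 i13 i9 c76.symm b41 (Lsw H i9 i13 b530) (Lsw H i13 i17 b1924)
  have b4310 := LP1 H i4 i16 i7 c95 b39 (Lsw H i7 i16 b526) (Lsw H i16 i20 b1928)
  have e4312 := (LP1 H i4 i25 i5 c249.symm b9 (Lsw H i5 i25 b517) b1921).symm.trans (Lsw H i4 i84 b1892)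
  have m4313 : t145 = t174 := e4312.symm
  subst m4313
  have b4315 := LP1 H i32 i4 i3 c270.symm (Lsw H i3 i32 b503) (Lsw H i3 i4 b8) (Lsw H i4 i70 b1890)
  have b4316 := LP1 H i40 i4 i1 c196 (Lsw H i1 i40 b489) (Lsw H i1 i4 b4) (Lsw H i4 i56 b1888)
  have c4317 := LP2 H i4 i53 i3 c1345.symm (Lsw H i3 i4 b8) b4084
  have c4318 := Lck c1458 c4263 b1890
  have c4325 := Lck c2341.symm c4106 b1887
  have b4336 := LP1 H i5 i12 i10 c71.symm (Lsw H i10 i5 b136) (Lsw H i10 i12 b533) (Lsw H i12 i19 b1923)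
  have b4338 := LP1 H i5 i18 i6 c108 b42 (Lsw H i6 i18 b524) (Lsw H i18 i23 b1930)
  have b4340 := LP1 H i27 i5 i4 c251 (Lsw H i4 i27 b510) (Lsw H i4 i5 b9) (Lsw H i5 i77 b1899)
  have e4342 := (LP1 H i5 i37 i2 c299 (Lsw H i2 i5 b7) (Lsw H i2 i37 b495) b1916).symm.trans (Lsw H i5 i62 b1898)
  have m4343 : t151 = t169 := e4342.symm
  subst m4343
  have b4344 := LP1 H i44 i5 i1 c204 (Lsw H i1 i44 b490) (Lsw H i1 i5 b5) (Lsw H i5 i57 b1896)
  have c4350 := Lck c2185 c2136 b158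
  have c4353 := Lck c2523.symm c4139 b1893
  have b4360 := LP1 H i10 i6 i9 c25.symm (Lsw H i9 i10 b165) b160 (Lsw H i6 i51 b1902)
  have b4361 := LP1 H i16 i6 i5 c98.symm (Lsw H i5 i16 b158) (Lsw H i5 i6 b42) (Lsw H i6 i44 b1901)
  have c4363 := Lco i122 i6 (LP1 H i6 i32 i8 c280 b159 (Lsw H i8 i32 b1907) (k_one i25 i32 c1722))
  have c4374 := Lck c2349.symm c3846 b1902
  have c4386 := Lck c2960.symm c3312.symm b1900
  have b4395 := LP1 H i9 i7 i10 c24.symm b165 b163 (Lsw H i7 i51 b1905)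
  have b4397 := LP1 H i7 i18 i4 c112 (Lsw H i4 i7 b39) (Lsw H i4 i18 b154) (Lsw H i18 i20 b1929)
  have c4400 := Lco i131 i7 (LP1 H i7 i37 i8 c307 b162 (Lsw H i8 i37 b1910) (k_one i27 i37 c1716))
  have c4409 := Lck c2734 c4238 b1903
  have e4411 := (LP1 H i8 i9 i6 c29 (Lsw H i6 i8 b159) (Lsw H i6 i9 b160) (Lsw H i9 i25 b1912)).symm.trans (Lsw H i8 i33 b1908)
  have m4412 : t127 = t161 := e4411
  subst m4412
  have e4415 := (LP1 H i8 i10 i7 c27 (Lsw H i7 i8 b162) (Lsw H i7 i10 b163) (Lsw H i10 i27 b1918)).symm.trans (Lsw H i8 i36 b1909)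
  have m4416 : t130 = t134 := e4415.symm
  subst m4416
  have e4417 := (LP1 H i8 i12 i4 c86 (Lsw H i4 i8 b40) (Lsw H i4 i12 b152) b4184).symm.trans (Lsw H i8 i32 b1907)
  have m4418 : t122 = t128 := e4417.symm
  subst m4418
  have e4419 := (LP1 H i8 i13 i5 c87 (Lsw H i5 i8 b43) (Lsw H i5 i13 b156) (Lsw H i13 i18 b1925)).symm.trans (Lsw H i8 i37 b1910)
  have m4420 : t131 = t138 := e4419.symm
  subst m4420
  have c4447 := Lco i176 i9 (LP1 H i9 i12 i19 c45.symm b532 b1923 (k_one i87 i12 c1804))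
  have e4450 := (LP1 H i9 i23 i3 c97 (Lsw H i3 i9 b37) (Lsw H i3 i23 b151) b1930).symm.trans (Lsw H i9 i37 b1916)
  have m4451 : t151 = t183 := e4450.symm
  subst m4451
  have c4454 := Lco i133 i9 (LP1 H i9 i64 i3 c748 (Lsw H i3 i9 b37) (Lsw H i3 i64 b1880) (k_one i18 i64 c2403))
  have c4465 := Lck c2174 c3785 b1916
  have c4468 := Lck c3277 c3029.symm b530
  have c4481 := Lco i177 i10 (LP1 H i10 i13 i17 c47.symm b534 b1924 (k_one i80 i13 c1805))
  have e4482 := (LP1 H i10 i20 i2 c111 (Lsw H i2 i10 b35) (Lsw H i2 i20 b146) b1928).symm.trans (Lsw H i10 i32 b4315)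
  have m4483 : t143 = t181 := e4482.symm
  subst m4483
  have c4486 := Lco i123 i10 (LP1 H i10 i72 i2 c826 (Lsw H i2 i10 b35) (Lsw H i2 i72 b1870) (k_one i16 i72 c2578))
  have c4489 := Lck c3321 c4185 (Lsw H i7 i10 b163)
  have c4492 := Lck c3330 c2335 b1919
  have c4493 := Lck c2817.symm c3410 b533
  have c4503 := Lco i143 i11 (LP1 H i11 i20 i16 c118 b538 (Lsw H i16 i20 b1928) (k_one i80 i20 c1146.symm))
  have c4508 := Lco i142 i12 (LP1 H i12 i57 i4 c1126 (Lsw H i4 i12 b152) (Lsw H i4 i57 b1889) (k_one i32 i57 c3985))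
  have c4510 := Lck c1707.symm c1806 (Lsw H i17 i12 b3222)
  have c4516 := Lck c3087.symm c3582 b1923
  have c4521 := Lck c3407 c3525 (Lsw H i17 i12 b3222)
  have c4533 := Lco i123 i13 (LP1 H i13 i72 i2 c831 (Lsw H i2 i13 b144) (Lsw H i2 i72 b1870) (k_one i25 i72 c2602))
  have c4544 := Lck c2731.symm c4508 (Lsw H i12 i13 b1922)
  have c4545 := Lck c2732.symm c4237 (Lsw H i12 i13 b1922)
  have c4553 := Lco i122 i17 (LP1 H i17 i16 i12 c125.symm b3222 b4184 (k_one i64 i16 c1799.symm))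
  have c4560 := Lck c3173.symm c3081.symm b1928
  have c4564 := Lco i117 i17 (LP1 H i17 i29 i8 c1623.symm b1384 b4092 (k_one i60 i29 c1840))
  have c4568 := Lco i26 i96 (LP1 H i96 i17 i1 c1806 (Lsw H i1 i96 b1864) (Lsw H i1 i17 b140) (k_one i117 i17 c4564))
  have c4569 := Lco i35 i96 (LP1 H i96 i17 i3 c1806 (Lsw H i3 i96 b1884) (Lsw H i3 i17 b149) (k_one i131 i17 c3525))
  have c4590 := Lco i31 i100 (LP1 H i100 i19 i2 c975.symm (Lsw H i2 i100 b1875) (Lsw H i2 i19 b145) (k_one i122 i19 c3582))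
  have c4599 := Lco i96 i28 (LP1 H i28 i23 i8 c1575.symm b4091 (Lsw H i8 i23 b529) (k_one i110 i23 c3979.symm))
  have c4601 := Lco i127 i26 (LP1 H i26 i25 i9 c412.symm (Lsw H i9 i26 b1913) (Lsw H i9 i25 b1912) (k_one i64 i25 c1727.symm))
  have c4614 := Lco i63 i35 (LP1 H i35 i26 i4 c234.symm (Lsw H i4 i35 b513) (Lsw H i4 i26 b509) (k_one i80 i26 c3988.symm))
  have c4624 := Lco i73 i31 (LP1 H i31 i28 i5 c227.symm (Lsw H i5 i31 b520) (Lsw H i5 i28 b519) (k_one i87 i28 c4001.symm))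
  have c4626 := Lco i131 i28 (LP1 H i28 i37 i8 c481 b4091 (Lsw H i8 i37 b1910) (k_one i110 i37 c4005.symm))
  have c4649 := Lco i71 i52 (LP1 H i52 i33 i3 c1632.symm (Lsw H i3 i52 b1876) (Lsw H i3 i33 b504) (k_one i110 i33 c3992.symm))
  have c4659 := Lco i108 i35 (LP1 H i35 i55 i2 c1641.symm (Lsw H i2 i35 b493) b4075 (k_one i60 i55 c1849))
  have c4660 := Lco i54 i62 (LP1 H i62 i35 i1 c1812 (Lsw H i1 i62 b1856) (Lsw H i1 i35 b487) (k_one i108 i35 c4659))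
  have c4667 := Lco i61 i54 (LP1 H i54 i36 i2 c1626.symm (Lsw H i2 i54 b1867) (Lsw H i2 i36 b494) (k_one i107 i36 c4003.symm))
  have c4668 := Lco i61 i100 (LP1 H i100 i36 i2 c1059.symm (Lsw H i2 i100 b1875) (Lsw H i2 i36 b494) (k_one i122 i36 c4489))
  have c4676 := Lco i127 i43 (LP1 H i43 i84 i2 c1512.symm (Lsw H i2 i43 b497) b4186 (k_one i64 i84 c1792))
  have c4681 := Lco i57 i93 (LP1 H i93 i44 i1 c956.symm (Lsw H i1 i93 b1863) (Lsw H i1 i44 b490) (k_one i114 i44 c4350))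
  have c4693 := Lco i140 i52 (LP1 H i52 i54 i4 c1638 b4178 (Lsw H i4 i54 b1887) (k_one i125 i54 c4122))
  have c4694 := Lco i146 i54 (LP1 H i54 i52 i5 c1638.symm (Lsw H i5 i54 b1894) (Lsw H i5 i52 b1893) (k_one i136 i52 c4147))
  have c4700 := Lco i148 i54 (LP1 H i54 i56 i5 c1642 (Lsw H i5 i54 b1894) (Lsw H i5 i56 b1895) (k_one i136 i56 c4149))
  have c4702 := Lco i127 i54 (LP1 H i54 i71 i2 c1280 (Lsw H i2 i54 b1867) b4189 (k_one i107 i71 c4267))
  have c4726 := Lco i131 i78 (LP1 H i78 i91 i3 c1235.symm (Lsw H i3 i78 b1882) b4255 (k_one i72 i91 c1836))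
  have c4729 := Lco i72 i97 (LP1 H i97 i78 i3 c1108 (Lsw H i3 i97 b1885) (Lsw H i3 i78 b1882) (k_one i131 i78 c4726))
  have c4730 := Lco i127 i85 (LP1 H i85 i84 i2 c1276.symm (Lsw H i2 i85 b1873) b4186 (k_one i64 i84 c1792))
  have c4732 := Lco i130 i85 (LP1 H i85 i100 i3 c1137.symm (Lsw H i3 i85 b1883) (Lsw H i3 i100 b1886) (k_one i136 i100 c4493))
  have q4734 : Rl [t52, t54, t58, t107, t110, 1] := LJ H i2 i3 i14 b6 (Lsw H i14 i2 b419) b148 b492 b501 b1344 b1906 (Lsw H i28 i8 b4091) (k_one i26 i28 c1728.symm)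
  have q4735 : Rl [1, t52, t54, t58, t107, t110] := q4734.mv 5 rfl
  have q4736 : Rl [t52, t54, t58, t107, t110] := q4735.del1
  have q4745 : Rl [t50, t31, t35, t60, t69] := q1649.mv 2 rfl
  have c4746 := q4745.l1 (.cons c1252 (.cons c4614.symm (.cons c1560 (.cons c1852 .nil))))
  have c4751 := q1649.l1 (.cons c4569 (.cons c1163 (.cons c1737 (.cons c1555 .nil))))
  have q4763 : Rl [t44, t31, t51, t60, t87] := q1652.mv 1 rfl
  have c4764 := q4763.l1 (.cons c1809.symm (.cons c1823 (.cons c4263 (.cons c1785 .nil))))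
  have q4765 : Rl [t44, t31, t51, t60, t87] := q1652.mv 1 rfl
  have c4766 := q4765.l1 (.cons c4624.symm (.cons c1757.symm (.cons c1853 (.cons c1286.symm .nil))))
  have q4767 : Rl [t51, t31, t44, t60, t87] := q1652.mv 2 rfl
  have c4768 := q4767.l1 (.cons c4751 (.cons c1635 (.cons c1737 (.cons c1519 .nil))))
  have q4773 : Rl [t44, t31, t51, t60, t87] := q1652.mv 1 rfl
  have c4774 := q4773.l1 (.cons c2756 (.cons c3845.symm (.cons c4318 (.cons c2825 .nil))))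
  have q4777 : Rl [t40, t35, t51, t69, t80] := q1655.mv 1 rfl
  have c4778 := q4777.l1 (.cons c1812.symm (.cons c1819 (.cons c4191 (.cons c1778 .nil))))
  have q4779 : Rl [t40, t35, t51, t69, t80] := q1655.mv 1 rfl
  have c4780 := q4779.l1 (.cons c4614.symm (.cons c1753.symm (.cons c1852 (.cons c1282.symm .nil))))
  have q4783 : Rl [t51, t35, t40, t69, t80] := q1655.mv 2 rfl
  have c4784 := q4783.l1 (.cons c3743.symm (.cons c2110.symm (.cons c1938.symm (.cons c2689 .nil))))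
  have q4787 : Rl [t40, t35, t51, t69, t80] := q1655.mv 1 rfl
  have c4788 := q4787.l1 (.cons c2882 (.cons c3842.symm (.cons c4295.symm (.cons c2947 .nil))))
  have c4814 := LP2 H i1 i7 i40 c12.symm b489 (Lsw H i40 i7 b4397)
  have c4817 := Lck c658.symm c4614 b487
  have c4821 := Lck c672.symm c4624 b485
  have b4833 := LP1 H i2 i16 i7 c52.symm b34 (Lsw H i7 i16 b526) (Lsw H i16 i12 b4184)
  have c4835 := Lco i33 i18 (LP1 H i18 i2 i23 c105 b1930 b147 (k_one i151 i2 c2884))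
  have c4836 := Lco i16 i27 (LP1 H i27 i2 i10 c226.symm (Lsw H i10 i27 b1918) b35 (k_one i130 i2 c2625))
  have c4839 := Lco i9 i91 (LP1 H i91 i2 i5 c733.symm b4338 b7 (k_one i151 i2 c2884))
  have c4844 := Lck c2625 c4732 b1873
  have c4850 := Lck c2884 c2903.symm (Lsw H i55 i2 b4075)
  have c4854 := Lco i36 i16 (LP1 H i16 i3 i20 c89 b1928 b150 (k_one i143 i3 c2757))
  have c4858 := Lco i10 i93 (LP1 H i93 i3 i4 c811.symm b4310 b8 (k_one i143 i3 c2757))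
  have c4866 := Lck c2439 c4730 b1883
  have c4868 := Lck c2757 c2772.symm (Lsw H i53 i3 b4084)
  have c4877 := Lco i10 i61 (LP1 H i61 i4 i3 c726.symm (Lsw H i3 i61 b1877) (Lsw H i3 i4 b8) (k_one i130 i4 c2606))
  have c4879 := Lck c1693 c4821 (Lsw H i52 i4 b4178)
  have c4881 := Lck c1055 c1773 (Lsw H i52 i4 b4178)
  have c4889 := Lck c3043 c4814.symm b1888
  have c4901 := Lck c2405 c3164.symm b1893
  have c4903 := Lck c2405 c3185.symm b1897
  have c4906 := Lck c25.symm c315 b4316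
  have c4909 := Lco i25 i37 (LP1 H i37 i6 i8 c294 (Lsw H i8 i37 b1910) b159 (k_one i131 i6 c2580))
  have c4910 := Lco i33 i37 (LP1 H i37 i6 i9 c294 (Lsw H i9 i37 b1916) b160 (k_one i151 i6 c2852))
  have c4913 := Lco i13 i62 (LP1 H i62 i6 i3 c736.symm (Lsw H i3 i62 b1878) b128 (k_one i131 i6 c2580))
  have c4924 := Lck c2794.symm c4784.symm b1902
  have c4937 := Lck c2971.symm c4503 b161
  have c4942 := Lck c24.symm c288 b4344
  have c4943 := Lck c80.symm c367 b4344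
  have c4944 := Lco i27 i32 (LP1 H i32 i7 i8 c265 (Lsw H i8 i32 b1907) b162 (k_one i122 i7 c4185))
  have c4945 := Lco i36 i32 (LP1 H i32 i7 i10 c265 (Lsw H i10 i32 b4315) b163 (k_one i143 i7 c2734))
  have c4957 := Lck c4185 c4553 b527
  have c4969 := Lck c2734 c4503 b451
  have c4987 := Lck c229 c4836.symm (Lsw H i16 i9 b1385)
  have c5005 := Lck c4317.symm c2109 (Lsw H i33 i10 b4360)
  have c5024 := Lck c77.symm c1582.symm (Lsw H i16 i12 b4184)
  have c5025 := Lco i77 i12 (LP1 H i12 i27 i4 c256 (Lsw H i4 i12 b152) (Lsw H i4 i27 b510) (k_one i32 i27 c4944.symm))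
  have c5027 := Lck c1077.symm c4913.symm b1922
  have c5028 := Lck c756.symm c4858.symm (Lsw H i10 i12 b533)
  have c5048 := Lco i136 i16 (LP1 H i16 i70 i5 c834 (Lsw H i5 i16 b158) b4245 (k_one i44 i70 c4764))
  have c5060 := Lco i107 i18 (LP1 H i18 i60 i1 c772 (Lsw H i1 i18 b141) (Lsw H i1 i60 b1854) (k_one i27 i60 c4987))
  have c5061 := Lco i125 i18 (LP1 H i18 i62 i4 c773 (Lsw H i4 i18 b154) b4179 (k_one i40 i62 c4778))
  have c5080 := Lco i130 i26 (LP1 H i26 i61 i3 c1620 (Lsw H i3 i26 b501) (Lsw H i3 i61 b1877) (k_one i54 i61 c4667.symm))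
  have c5082 := Lco i131 i26 (LP1 H i26 i62 i3 c1621 (Lsw H i3 i26 b501) (Lsw H i3 i62 b1878) (k_one i54 i62 c4660))
  have c5092 := Lco i127 i28 (LP1 H i28 i71 i2 c1619 (Lsw H i2 i28 b492) b4189 (k_one i52 i71 c4649.symm))
  have c5107 := Lco i61 i93 (LP1 H i93 i36 i2 c1144.symm b4833 (Lsw H i2 i36 b494) (k_one i122 i36 c4489))
  have c5110 := Lco i131 i39 (LP1 H i39 i97 i3 c1726 (Lsw H i3 i39 b505) (Lsw H i3 i97 b1885) (k_one i72 i97 c4729))
  have c5115 := Lco i87 i91 (LP1 H i91 i40 i5 c871.symm b4338 (Lsw H i5 i40 b522) (k_one i151 i40 c4788.symm))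
  have c5118 := Lco i80 i93 (LP1 H i93 i44 i4 c956.symm b4310 (Lsw H i4 i44 b515) (k_one i143 i44 c4774.symm))
  have c5133 := Lco i133 i61 (LP1 H i61 i64 i3 c1312 (Lsw H i3 i61 b1877) (Lsw H i3 i64 b1880) (k_one i130 i64 c4844))
  have c5137 := Lco i72 i62 (LP1 H i62 i78 i3 c727 (Lsw H i3 i62 b1878) (Lsw H i3 i78 b1882) (k_one i131 i78 c4726))
  have c5149 := Lco i64 i70 (LP1 H i70 i85 i2 c1589 (Lsw H i2 i70 b1869) (Lsw H i2 i85 b1873) (k_one i122 i85 c4957))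
  have c5166 := Lco i64 i100 (LP1 H i100 i85 i2 c1137 (Lsw H i2 i100 b1875) (Lsw H i2 i85 b1873) (k_one i122 i85 c4957))
  have q5169 : Rl [t62, t71, t96, t127, t131, 1] := LJ H i2 i3 i23 b6 b147 b151 b495 b504 (Lsw H i8 i23 b529) b1908 b1910 (k_one i33 i37 c4910)
  have q5170 : Rl [1, t62, t71, t96, t127, t131] := q5169.mv 5 rfl
  have q5171 : Rl [t62, t71, t96, t127, t131] := q5170.del1
  have q5172 : Rl [t62, t84, t97, t127, t151, 1] := LJ H i2 i5 i13 b7 b144 b156 b495 b517 (Lsw H i9 i13 b530) b1912 b1916 (k_one i25 i37 c4909)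
  have q5173 : Rl [1, t62, t84, t97, t127, t151] := q5172.mv 5 rfl
  have q5174 : Rl [t62, t84, t97, t127, t151] := q5173.del1
  have q5175 : Rl [t70, t77, t100, t130, t143, 1] := LJ H i3 i4 i12 b8 (Lsw H i12 i3 b420) b152 b503 b510 (Lsw H i10 i12 b533) b1918 b4315 (k_one i27 i32 c4944)
  have q5176 : Rl [1, t70, t77, t100, t130, t143] := q5175.mv 5 rfl
  have q5177 : Rl [t70, t77, t100, t130, t143] := q5176.del1
  have q5185 : Rl [t36, t28, t37, t55, t73, t72] := q3955.mv 2 rfl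
  have c5186 := q5185.l1 (.cons c2335.symm (.cons c2336.symm (.cons c4123.symm (.cons c4879 (.cons c4492.symm .nil)))))
  have q5192 : Rl [t71, t62, t96, t127, t131] := q5171.mv 1 rfl
  have c5193 := q5192.l1 (.cons c1077.symm (.cons c1707.symm (.cons c2386.symm (.cons c3407 .nil))))
  have q5194 : Rl [t71, t62, t96, t127, t131] := q5171.mv 1 rfl
  have c5195 := q5194.l1 (.cons c1174.symm (.cons c1806 (.cons c2396.symm (.cons c3525 .nil))))
  have q5196 : Rl [t71, t62, t96, t127, t131] := q5171.mv 1 rfl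
  have c5197 := q5196.l1 (.cons c1621.symm (.cons c4568.symm (.cons c4601 (.cons c5082 .nil))))
  have c5198 := q5171.l1 (.cons c1619.symm (.cons c4599 (.cons c5092 (.cons c4626 .nil))))
  have q5199 : Rl [t71, t62, t96, t127, t131] := q5171.mv 1 rfl
  have c5200 := q5199.l1 (.cons c1251.symm (.cons c4751.symm (.cons c3145.symm (.cons c4029.symm .nil))))
  have q5203 : Rl [t71, t62, t96, t127, t131] := q5171.mv 1 rfl
  have c5204 := q5203.l1 (.cons c1819.symm (.cons c4768.symm (.cons c3852 (.cons c4040.symm .nil))))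
  have q5211 : Rl [t71, t62, t96, t127, t131] := q5171.mv 1 rfl
  have c5212 := q5211.l1 (.cons c1316 (.cons c4510 (.cons c3816.symm (.cons c4521 .nil))))
  have q5238 : Rl [t84, t62, t97, t127, t151] := q5174.mv 1 rfl
  have c5239 := q5238.l1 (.cons c1077.symm (.cons c693.symm (.cons c2386.symm (.cons c2845.symm .nil))))
  have q5240 : Rl [t84, t62, t97, t127, t151] := q5174.mv 1 rfl
  have c5241 := q5240.l1 (.cons c1174.symm (.cons c893.symm (.cons c2396.symm (.cons c2850.symm .nil))))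
  have c5244 := q5174.l1 (.cons c1512 (.cons c1614.symm (.cons c4676 (.cons c3254.symm .nil))))
  have q5245 : Rl [t97, t62, t84, t127, t151] := q5174.mv 2 rfl
  have c5246 := q5245.l1 (.cons c1814 (.cons c1214.symm (.cons c3154.symm (.cons c2893.symm .nil))))
  have q5262 : Rl [t84, t62, t97, t127, t151] := q5174.mv 1 rfl
  have c5263 := q5262.l1 (.cons c5027 (.cons c1954.symm (.cons c2105.symm (.cons c4465.symm .nil))))
  have c5268 := q5174.l1 (.cons c2702 (.cons c4468.symm (.cons c4866 (.cons c4301 .nil))))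
  have q5273 : Rl [t77, t70, t100, t130, t143] := q5177.mv 1 rfl
  have c5274 := q5273.l1 (.cons c1047.symm (.cons c689.symm (.cons c3007.symm (.cons c2732.symm .nil))))
  have q5275 : Rl [t77, t70, t100, t130, t143] := q5177.mv 1 rfl
  have c5276 := q5275.l1 (.cons c1171.symm (.cons c975.symm (.cons c3573 (.cons c2740.symm .nil))))
  have q5277 : Rl [t77, t70, t100, t130, t143] := q5177.mv 1 rfl
  have c5278 := q5277.l1 (.cons c1809 (.cons c4590.symm (.cons c3689 (.cons c2756.symm .nil))))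
  have c5279 := q5177.l1 (.cons c1504 (.cons c1615.symm (.cons c3791 (.cons c4937 .nil))))
  have q5290 : Rl [t100, t70, t77, t130, t143] := q5177.mv 2 rfl
  have c5291 := q5290.l1 (.cons c1301 (.cons c1748.symm (.cons c2686.symm (.cons c2805.symm .nil))))
  have b5309 := LP1 H i1 i3 i32 hac (Lsw H i32 i1 b1578) b503 b4084
  have c5316 := Lck c168 c5197.symm b1858
  have c5317 := Lck c170 c4944 (Lsw H i32 i1 b1578)
  have c5318 := Lck c172 c5198.symm b1856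
  have c5344 := Lck c2124.symm c5048 b139
  have b5348 := LP1 H i4 i6 i18 c11.symm b154 b524 (Lsw H i6 i40 b4316)
  have b5366 := LP1 H i5 i7 i16 c13.symm b158 b526 (Lsw H i7 i44 b4344)
  have c5367 := Lck c320 c5279.symm (Lsw H i70 i5 b4245)
  have c5379 := Lco i130 i6 (LP1 H i6 i77 i3 c705 b128 (Lsw H i3 i77 b1881) (k_one i13 i77 c5274.symm))
  have c5384 := Lco i127 i7 (LP1 H i7 i71 i2 c1780 (Lsw H i2 i7 b34) b4189 (k_one i12 i71 c5193.symm))
  have c5412 := Lco i130 i11 (LP1 H i11 i77 i3 c1002 (Lsw H i3 i11 b38) (Lsw H i3 i77 b1881) (k_one i19 i77 c5276.symm))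
  have c5413 := Lco i127 i11 (LP1 H i11 i84 i2 c920 (Lsw H i2 i11 b36) b4186 (k_one i17 i84 c5241.symm))
  have c5414 := Lco i27 i33 (LP1 H i33 i12 i3 c374.symm (Lsw H i3 i33 b504) b420 (k_one i71 i12 c5193))
  have c5428 := LP2 H i16 i36 i9 c4854.symm b1385 b4395
  have c5431 := Lco i35 i33 (LP1 H i33 i17 i3 c404.symm (Lsw H i3 i33 b504) (Lsw H i3 i17 b149) (k_one i71 i17 c5195))
  have c5432 := Lco i111 i17 (LP1 H i17 i71 i1 c5195.symm (Lsw H i1 i17 b140) (Lsw H i1 i71 b1858) (k_one i26 i71 c5197.symm))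
  have c5434 := Lco i53 i18 (LP1 H i18 i33 i1 c4835.symm (Lsw H i1 i18 b141) (Lsw H i1 i33 b486) (k_one i27 i33 c5414))
  have c5435 := LP2 H i18 i33 i10 c4835.symm b1420 b4360
  have c5439 := Lco i127 i19 (LP1 H i19 i71 i2 c1802 (Lsw H i2 i19 b145) b4189 (k_one i31 i71 c5200.symm))
  have c5452 := Lco i84 i54 (LP1 H i54 i25 i5 c1217.symm (Lsw H i5 i54 b1894) (Lsw H i5 i25 b517) (k_one i136 i25 c5344))
  have c5457 := Lco i54 i33 (LP1 H i33 i26 i3 c480.symm (Lsw H i3 i33 b504) (Lsw H i3 i26 b501) (k_one i71 i26 c5197))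
  have c5458 := Lco i54 i53 (LP1 H i53 i26 i3 c703.symm b4084 (Lsw H i3 i26 b501) (k_one i111 i26 c5316.symm))
  have c5468 := Lco i52 i37 (LP1 H i37 i28 i2 c481.symm (Lsw H i2 i37 b495) (Lsw H i2 i28 b492) (k_one i62 i28 c5198))
  have c5469 := Lco i52 i55 (LP1 H i55 i28 i2 c710.symm b4075 (Lsw H i2 i28 b492) (k_one i108 i28 c5318.symm))
  have c5478 := Lco i69 i33 (LP1 H i33 i31 i3 c416.symm (Lsw H i3 i33 b504) (Lsw H i3 i31 b502) (k_one i71 i31 c5200))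
  have c5480 := Lco i152 i31 (LP1 H i31 i77 i5 c5278.symm (Lsw H i5 i31 b520) (Lsw H i5 i77 b1899) (k_one i87 i77 c1833))
  have c5495 := Lco i61 i78 (LP1 H i78 i36 i2 c938.symm (Lsw H i2 i78 b1872) (Lsw H i2 i36 b494) (k_one i125 i36 c5186.symm))
  have c5505 := Lco i72 i85 (LP1 H i85 i39 i3 c1024.symm (Lsw H i3 i85 b1883) (Lsw H i3 i39 b505) (k_one i136 i39 c5367.symm))
  have c5515 := Lco i130 i43 (LP1 H i43 i100 i3 c1721 (Lsw H i3 i43 b506) (Lsw H i3 i100 b1886) (k_one i73 i100 c5291.symm))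
  have c5518 := Lco i177 i44 (LP1 H i44 i97 i4 c5246.symm (Lsw H i4 i44 b515) b4309 (k_one i80 i97 c1838))
  have c5530 := Lco i151 i54 (LP1 H i54 i62 i5 c4660 (Lsw H i5 i54 b1894) (Lsw H i5 i62 b1898) (k_one i136 i62 c5268.symm))
  have q5560 : Rl [t63, t26, t32, t33, t53, t64] := q3954.mv 4 rfl
  have c5561 := q5560.l1 (.cons c1718.symm (.cons c4944.symm (.cons c5414.symm (.cons c5317.symm (.cons c2427.symm .nil)))))
  have q5562 : Rl [t32, t26, t33, t53, t63, t64] := q3954.mv 1 rfl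
  have c5563 := q5562.l1 (.cons c704 (.cons c5457.symm (.cons c5458.symm (.cons c4817 (.cons c4100 .nil)))))
  have c5564 := q3954.l1 (.cons c1776.symm (.cons c5478.symm (.cons c1848.symm (.cons c1852.symm (.cons c1825.symm .nil)))))
  have q5576 : Rl [t36, t28, t37, t55, t73, t72] := q3955.mv 2 rfl
  have c5577 := q5576.l1 (.cons c708 (.cons c5468.symm (.cons c5469.symm (.cons c4821 (.cons c3431.symm .nil)))))
  have q5588 : Rl [t50, t31, t35, t60, t69] := q1649.mv 2 rfl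
  have c5589 := q5588.l1 (.cons c459.symm (.cons c234.symm (.cons c780.symm (.cons c5564.symm .nil))))
  have q5590 : Rl [t50, t31, t35, t60, t69] := q1649.mv 2 rfl
  have c5591 := q5590.l1 (.cons c416 (.cons c5431 (.cons c1274.symm (.cons c5478 .nil))))
  have q5603 : Rl [t40, t35, t51, t69, t80] := q1655.mv 1 rfl
  have c5604 := q5603.l1 (.cons c5431 (.cons c363.symm (.cons c5478 (.cons c1752 .nil))))
  have q5611 : Rl [t58, t52, t54, t107, t110] := q4736.mv 2 rfl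
  have c5612 := q5611.l1 (.cons c1627.symm (.cons c5563.symm (.cons c3990.symm (.cons c3709 .nil))))
  have q5613 : Rl [t58, t52, t54, t107, t110] := q4736.mv 2 rfl
  have c5614 := q5613.l1 (.cons c1632.symm (.cons c5457 (.cons c3721 (.cons c3992.symm .nil))))
  have q5617 : Rl [t58, t52, t54, t107, t110] := q4736.mv 2 rfl
  have c5618 := q5617.l1 (.cons c5468 (.cons c1631.symm (.cons c3775 (.cons c4005.symm .nil))))
  have q5628 : Rl [t97, t62, t84, t127, t151] := q5174.mv 2 rfl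
  have c5629 := q5628.l1 (.cons c4660.symm (.cons c5452 (.cons c4702 (.cons c5530 .nil))))
  have c5649 := Lck c2625 c5412 b36
  have c5653 := Lck c1345 c5434 b154
  have c5655 := Lck c985 c5115 (Lsw H i91 i4 b5348)
  have c5658 := Lck c1033 c5495.symm b1897
  have c5659 := Lck c897 c5118 (Lsw H i93 i5 b5366)
  have c5664 := Lco i25 i36 (LP1 H i36 i6 i8 c1695.symm (Lsw H i8 i36 b1909) b159 (k_one i130 i6 c5379))
  have c5665 := Lco i13 i61 (LP1 H i61 i6 i3 c1774.symm (Lsw H i3 i61 b1877) b128 (k_one i130 i6 c5379))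
  have c5671 := Lco i141 i9 (LP1 H i9 i40 i6 c1584 (Lsw H i6 i9 b160) (Lsw H i6 i40 b4316) (k_one i33 i40 c5604.symm))
  have c5673 := Lco i17 i91 (LP1 H i91 i9 i4 c4839.symm b5348 (Lsw H i4 i9 b41) (k_one i141 i9 c5671))
  have c5680 := Lco i114 i10 (LP1 H i10 i25 i7 c221.symm (Lsw H i7 i10 b163) (Lsw H i7 i25 b1903) (k_one i36 i25 c5664.symm))
  have c5685 := Lco i108 i10 (LP1 H i10 i61 i1 c4877 (Lsw H i1 i10 b32) (Lsw H i1 i61 b1855) (k_one i13 i61 c5665))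
  have c5687 := Lco i13 i93 (LP1 H i93 i10 i1 c4858.symm (Lsw H i1 i93 b1863) (Lsw H i1 i10 b32) (k_one i114 i10 c5680))
  have c5697 := Lco i107 i11 (LP1 H i11 i26 i8 c222.symm (Lsw H i8 i11 b164) (Lsw H i8 i26 b1906) (k_one i50 i26 c5589))
  have c5698 := Lco i50 i36 (LP1 H i36 i11 i8 c1696.symm (Lsw H i8 i36 b1909) (Lsw H i8 i11 b164) (k_one i130 i11 c5412))
  have c5700 := Lco i14 i60 (LP1 H i60 i11 i1 c739 (Lsw H i1 i60 b1854) (Lsw H i1 i11 b33) (k_one i107 i11 c5697))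
  have c5701 := Lco i140 i12 (LP1 H i12 i54 i4 c1708 (Lsw H i4 i12 b152) (Lsw H i4 i54 b1887) (k_one i32 i54 c5563))
  have c5707 := Lco i55 i16 (LP1 H i16 i13 i7 c74.symm (Lsw H i7 i16 b526) (Lsw H i7 i13 b1346) (k_one i93 i13 c5687.symm))
  have c5708 := Lco i146 i13 (LP1 H i13 i52 i5 c1711 (Lsw H i5 i13 b156) (Lsw H i5 i52 b1893) (k_one i37 i52 c5468.symm))
  have c5715 := Lck c2729.symm c5701 (Lsw H i12 i13 b1922)
  have c5719 := Lco i122 i14 (LP1 H i14 i32 i8 c1576 b1344 (Lsw H i8 i32 b1907) (k_one i58 i32 c5612))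
  have c5722 := Lco i131 i14 (LP1 H i14 i37 i8 c1577 b1344 (Lsw H i8 i37 b1910) (k_one i58 i37 c5618))
  have c5726 := Lco i63 i18 (LP1 H i18 i17 i6 c1583.symm (Lsw H i6 i18 b524) b1383 (k_one i91 i17 c5673.symm))
  have c5727 := Lco i35 i53 (LP1 H i53 i17 i3 c1226 b4084 (Lsw H i3 i17 b149) (k_one i111 i17 c5432))
  have c5728 := Lco i35 i61 (LP1 H i61 i17 i3 c1803.symm (Lsw H i3 i61 b1877) (Lsw H i3 i17 b149) (k_one i130 i17 c5649))
  have c5751 := Lco i77 i26 (LP1 H i26 i27 i4 c1718.symm (Lsw H i4 i26 b509) (Lsw H i4 i27 b510) (k_one i63 i27 c5561))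
  have c5753 := Lco i70 i26 (LP1 H i26 i32 i3 c478 (Lsw H i3 i26 b501) (Lsw H i3 i32 b503) (k_one i54 i32 c5563.symm))
  have c5760 := Lco i61 i28 (LP1 H i28 i36 i2 c479 (Lsw H i2 i28 b492) (Lsw H i2 i36 b494) (k_one i52 i36 c5577.symm))
  have c5772 := Lco i53 i50 (LP1 H i50 i33 i1 c5591 (Lsw H i1 i50 b491) (Lsw H i1 i33 b486) (k_one i58 i33 c5614))
  have c5773 := Lco i140 i33 (LP1 H i33 i54 i4 c5457.symm (Lsw H i4 i33 b512) (Lsw H i4 i54 b1887) (k_one i63 i54 c4817))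
  have c5776 := Lco i60 i36 (LP1 H i36 i35 i2 c414.symm (Lsw H i2 i36 b494) (Lsw H i2 i35 b493) (k_one i61 i35 c5728.symm))
  have c5794 := Lco i140 i97 (LP1 H i97 i54 i4 c5629 b4309 (Lsw H i4 i54 b1887) (k_one i177 i54 c3434.symm))
  have q5809 : Rl [t20, t14, t23, t29, t39, t43] := q461.mv 1 rfl
  have c5810 := q5809.l1 (.cons c5700 (.cons c1744.symm (.cons c1840.symm (.cons c1788.symm (.cons c1851.symm .nil)))))
  have q5815 : Rl [t32, t26, t33, t53, t63, t64] := q3954.mv 1 rfl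
  have c5816 := q5815.l1 (.cons c234 (.cons c5431.symm (.cons c5727.symm (.cons c4614 (.cons c3246.symm .nil)))))
  have c5817 := q3954.l1 (.cons c407 (.cons c5604.symm (.cons c5653 (.cons c4780.symm (.cons c2447.symm .nil)))))
  have q5818 : Rl [t32, t26, t33, t53, t63, t64] := q3954.mv 1 rfl
  have c5819 := q5818.l1 (.cons c5589.symm (.cons c5591.symm (.cons c5772 (.cons c4746.symm (.cons c3837 .nil)))))
  have c5822 := q3955.l1 (.cons c1782.symm (.cons c5776.symm (.cons c1849.symm (.cons c1853.symm (.cons c1829.symm .nil)))))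
  have q5824 : Rl [t50, t31, t35, t60, t69] := q1649.mv 2 rfl
  have c5825 := q5824.l1 (.cons c227.symm (.cons c411.symm (.cons c5822.symm (.cons c855.symm .nil))))
  have c5826 := q1649.l1 (.cons c414 (.cons c5698 (.cons c5776 (.cons c863.symm .nil))))
  have q5834 : Rl [t44, t31, t51, t60, t87] := q1652.mv 1 rfl
  have c5835 := q5834.l1 (.cons c5826 (.cons c371.symm (.cons c5776 (.cons c1756 .nil))))
  have q5848 : Rl [t51, t35, t40, t69, t80] := q1655.mv 2 rfl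
  have c5849 := q5848.l1 (.cons c5816.symm (.cons c407.symm (.cons c1776 (.cons c1404 .nil))))
  have q5854 : Rl [t44, t40, t50, t80, t87] := q1658.mv 1 rfl
  have c5855 := q5854.l1 (.cons c5817.symm (.cons c5589 (.cons c3988.symm (.cons c1807 .nil))))
  have q5856 : Rl [t44, t40, t50, t80, t87] := q1658.mv 1 rfl
  have c5857 := q5856.l1 (.cons c407.symm (.cons c5819.symm (.cons c1404 (.cons c1750 .nil))))
  have c5901 := Lck c2766 c5655.symm b1862
  have c5913 := Lck c3124 c5719 b153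
  have c5918 := Lck c692 c5707 b158
  have c5922 := Lck c2185 c5680 (Lsw H i10 i5 b136)
  have c5926 := Lck c3132 c5722 b157
  have c5930 := Lck c280.symm c5849.symm b1902
  have c5938 := Lck c265 c5849.symm b1905
  have c5949 := Lck c2449.symm c5708 b530
  have c5953 := Lco i149 i10 (LP1 H i10 i44 i7 c1593 (Lsw H i7 i10 b163) (Lsw H i7 i44 b4344) (k_one i36 i44 c5835.symm))
  have c5958 := Lco i19 i93 (LP1 H i93 i10 i5 c4858.symm b5366 b136 (k_one i149 i10 c5953))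
  have c5961 := Lck c2646.symm c5773 (Lsw H i33 i10 b4360)
  have c5965 := Lco i110 i11 (LP1 H i11 i28 i8 c231.symm (Lsw H i8 i11 b164) b4091 (k_one i50 i28 c5825))
  have c5968 := Lco i14 i69 (LP1 H i69 i11 i1 c818 (Lsw H i1 i69 b1857) (Lsw H i1 i11 b33) (k_one i110 i11 c5965))
  have c5981 := Lco i73 i16 (LP1 H i16 i19 i7 c1590.symm (Lsw H i7 i16 b526) (Lsw H i7 i19 b528) (k_one i93 i19 c5958.symm))
  have c5982 := Lco i85 i16 (LP1 H i16 i32 i5 c398 (Lsw H i5 i16 b158) b1478 (k_one i44 i32 c5857))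
  have c5988 := Lco i70 i17 (LP1 H i17 i32 i3 c291 (Lsw H i3 i17 b149) (Lsw H i3 i32 b503) (k_one i35 i32 c5816.symm))
  have c5990 := Lco i57 i17 (LP1 H i17 i44 i1 c356 (Lsw H i1 i17 b140) (Lsw H i1 i44 b490) (k_one i26 i44 c5855.symm))
  have c5998 := Lco i61 i19 (LP1 H i19 i36 i2 c403 (Lsw H i2 i19 b145) (Lsw H i2 i36 b494) (k_one i31 i36 c5826))
  have c5999 := Lco i28 i84 (LP1 H i84 i19 i1 c1148.symm (Lsw H i1 i84 b1861) (Lsw H i1 i19 b142) (k_one i114 i19 c5922))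
  have c6016 := Lco i55 i31 (LP1 H i31 i36 i1 c5826 (Lsw H i1 i31 b485) b1579 (k_one i52 i36 c5577.symm))
  have c6018 := Lco i143 i33 (LP1 H i33 i32 i10 c482.symm b4360 (Lsw H i10 i32 b4315) (k_one i155 i32 c5930.symm))
  have c6019 := Lco i64 i36 (LP1 H i36 i32 i9 c4945 b4395 (Lsw H i9 i32 b1915) (k_one i158 i32 c5938.symm))
  have c6028 := Lco i61 i43 (LP1 H i43 i36 i2 c457.symm (Lsw H i2 i43 b497) (Lsw H i2 i36 b494) (k_one i64 i36 c6019))
  have c6033 := Lco i63 i70 (LP1 H i70 i39 i2 c5279 (Lsw H i2 i70 b1869) (Lsw H i2 i39 b496) (k_one i122 i39 c5913))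
  have c6038 := Lco i73 i62 (LP1 H i62 i43 i3 c5244 (Lsw H i3 i62 b1878) (Lsw H i3 i43 b506) (k_one i131 i43 c5926))
  have q6061 : Rl [t23, t14, t20, t29, t39, t43] := q461.mv 2 rfl
  have c6062 := q6061.l1 (.cons c5968 (.cons c1743.symm (.cons c1841.symm (.cons c1850.symm (.cons c1793.symm .nil)))))
  have q6067 : Rl [t33, t26, t32, t53, t63, t64] := q3954.mv 2 rfl
  have c6068 := q6067.l1 (.cons c5753.symm (.cons c577.symm (.cons c1580 (.cons c6033 (.cons c5149 .nil)))))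
  have c6069 := q3954.l1 (.cons c2759 (.cons c6018.symm (.cons c2772 (.cons c3496 (.cons c3497 .nil)))))
  have q6072 : Rl [t37, t28, t36, t55, t73, t72] := q3955.mv 1 rfl
  have c6073 := q6072.l1 (.cons c227 (.cons c5826.symm (.cons c6016 (.cons c4624 (.cons c3310.symm .nil)))))
  have c6074 := q3955.l1 (.cons c409 (.cons c5835.symm (.cons c5918 (.cons c4766.symm (.cons c2643.symm .nil)))))
  have q6077 : Rl [t36, t28, t37, t55, t73, t72] := q3955.mv 2 rfl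
  have c6078 := q6077.l1 (.cons c5198.symm (.cons c561.symm (.cons c657 (.cons c6038 (.cons c5137 .nil)))))
  have q6083 : Rl [t51, t31, t44, t60, t87] := q1652.mv 2 rfl
  have c6084 := q6083.l1 (.cons c227.symm (.cons c6074.symm (.cons c5822.symm (.cons c4001.symm .nil))))
  have q6085 : Rl [t51, t31, t44, t60, t87] := q1652.mv 2 rfl
  have c6086 := q6085.l1 (.cons c6073.symm (.cons c409.symm (.cons c1782 (.cons c1430 .nil))))
  have q6089 : Rl [t40, t35, t51, t69, t80] := q1655.mv 1 rfl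
  have c6090 := q6089.l1 (.cons c411.symm (.cons c6084 (.cons c855.symm (.cons c1808 .nil))))
  have q6091 : Rl [t40, t35, t51, t69, t80] := q1655.mv 1 rfl
  have c6092 := q6091.l1 (.cons c1736 (.cons c6086 (.cons c4000.symm (.cons c1758 .nil))))
  have c6121 := q5174.l1 (.cons c3626 (.cons c5949.symm (.cons c4901 (.cons c3862.symm .nil))))
  have q6123 : Rl [t100, t70, t77, t130, t143] := q5177.mv 2 rfl
  have c6124 := q6123.l1 (.cons c5988 (.cons c1120.symm (.cons c5649 (.cons c3484.symm .nil))))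
  have q6125 : Rl [t100, t70, t77, t130, t143] := q5177.mv 2 rfl
  have c6126 := q6125.l1 (.cons c5753 (.cons c5751 (.cons c5080 (.cons c6069.symm .nil))))
  have c6136 := Lck c978 c5982 b139
  have c6144 := Lck c2757 c6018 b504
  have c6151 := Lck c91 c6124.symm (Lsw H i100 i5 b4336)
  have c6158 := Lck c294 c6086.symm b1902
  have c6161 := Lck c307.symm c6086.symm b1905
  have c6168 := Lck c1584.symm c6090 b1914
  have c6174 := Lco i150 i10 (LP1 H i10 i61 i5 c4877 b136 (Lsw H i5 i61 b1897) (k_one i19 i61 c5998.symm))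
  have c6179 := Lco i170 i12 (LP1 H i12 i26 i10 c388 (Lsw H i10 i12 b533) (Lsw H i10 i26 b1917) (k_one i100 i26 c6126))
  have c6182 := Lck c2844.symm c6174 (Lsw H i10 i12 b533)
  have c6193 := Lco i64 i19 (LP1 H i19 i17 i12 c1595.symm (Lsw H i12 i19 b1923) b3222 (k_one i176 i17 c6151.symm))
  have c6197 := Lco i78 i18 (LP1 H i18 i37 i4 c391 (Lsw H i4 i18 b154) (Lsw H i4 i37 b514) (k_one i40 i37 c6092))
  have c6200 := Lco i62 i19 (LP1 H i19 i37 i2 c318 (Lsw H i2 i19 b145) (Lsw H i2 i37 b495) (k_one i31 i37 c6073.symm))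
  have c6201 := Lco i56 i19 (LP1 H i19 i40 i1 c341 (Lsw H i1 i19 b142) (Lsw H i1 i40 b489) (k_one i28 i40 c6090.symm))
  have c6202 := Lco i31 i43 (LP1 H i43 i19 i2 c360.symm (Lsw H i2 i43 b497) (Lsw H i2 i19 b145) (k_one i64 i19 c6193))
  have c6211 := Lco i84 i32 (LP1 H i32 i25 i5 c1722.symm b1478 (Lsw H i5 i25 b517) (k_one i85 i25 c6136))
  have c6222 := Lco i151 i28 (LP1 H i28 i62 i5 c5198.symm (Lsw H i5 i28 b519) (Lsw H i5 i62 b1898) (k_one i73 i62 c6038))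
  have c6226 := Lco i71 i32 (LP1 H i32 i33 i3 c482 (Lsw H i3 i32 b503) (Lsw H i3 i33 b504) (k_one i70 i33 c6068.symm))
  have c6229 := Lco i72 i33 (LP1 H i33 i37 i10 c4910 b4360 (Lsw H i10 i37 b1920) (k_one i155 i37 c6158.symm))
  have c6230 := Lco i71 i39 (LP1 H i39 i33 i3 c271.symm (Lsw H i3 i39 b505) (Lsw H i3 i33 b504) (k_one i72 i33 c6229))
  have c6234 := Lco i61 i37 (LP1 H i37 i36 i2 c483.symm (Lsw H i2 i37 b495) (Lsw H i2 i36 b494) (k_one i62 i36 c6078.symm))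
  have c6235 := Lco i151 i36 (LP1 H i36 i37 i9 c483 b4395 (Lsw H i9 i37 b1916) (k_one i158 i37 c6161.symm))
  have c6245 := Lco i73 i61 (LP1 H i61 i43 i3 c6028 (Lsw H i3 i61 b1877) (Lsw H i3 i43 b506) (k_one i130 i43 c5515))
  have q6274 : Rl [t63, t26, t32, t33, t53, t64] := q3954.mv 4 rfl
  have c6275 := q6274.l1 (.cons c5197.symm (.cons c6226.symm (.cons c579.symm (.cons c668 (.cons c5212.symm .nil)))))
  have q6291 : Rl [t44, t31, t51, t60, t87] := q1652.mv 1 rfl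
  have c6292 := q6291.l1 (.cons c6202 (.cons c1710.symm (.cons c1851 (.cons c1125.symm .nil))))
  have q6313 : Rl [t97, t62, t84, t127, t151] := q5174.mv 2 rfl
  have c6314 := q6313.l1 (.cons c6200 (.cons c1148.symm (.cons c5439 (.cons c3575 .nil))))
  have q6317 : Rl [t97, t62, t84, t127, t151] := q5174.mv 2 rfl
  have c6318 := q6317.l1 (.cons c5198 (.cons c5999.symm (.cons c5092 (.cons c6222 .nil))))
  have c6326 := Lck c348 c6292.symm b490
  have c6327 := Lck c912 c6197 b141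
  have c6328 := Lck c2884 c6235 b494
  have c6331 := Lck c106 c6314.symm (Lsw H i97 i4 b4309)
  have c6336 := Lck c942 c6229 b512
  have c6362 := Lco i149 i11 (LP1 H i11 i44 i7 c335 (Lsw H i7 i11 b451) (Lsw H i7 i44 b4344) (k_one i43 i44 c6292.symm))
  have c6364 := Lck c3287.symm c6179 b536
  have c6368 := Lco i145 i12 (LP1 H i12 i84 i4 c5239.symm (Lsw H i4 i12 b152) (Lsw H i4 i84 b1892) (k_one i32 i84 c6211.symm))
  have c6374 := Lco i167 i13 (LP1 H i13 i28 i9 c395 (Lsw H i9 i13 b530) (Lsw H i9 i28 b1914) (k_one i97 i28 c6318))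
  have c6376 := Lco i150 i13 (LP1 H i13 i61 i5 c5665 (Lsw H i5 i13 b156) (Lsw H i5 i61 b1897) (k_one i37 i61 c6234.symm))
  have c6380 := Lck c3424 c6368 (Lsw H i12 i13 b1922)
  have c6382 := Lco i149 i14 (LP1 H i14 i57 i5 c1180 (Lsw H i5 i14 b157) (Lsw H i5 i57 b1896) (k_one i43 i57 c6326))
  have c6386 := Lco i72 i17 (LP1 H i17 i19 i13 c1595 (Lsw H i13 i17 b1924) (Lsw H i13 i19 b1926) (k_one i177 i19 c6331.symm))
  have c6387 := Lco i35 i39 (LP1 H i39 i17 i3 c338.symm (Lsw H i3 i39 b505) (Lsw H i3 i17 b149) (k_one i72 i17 c6386))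
  have c6410 := Lco i77 i37 (LP1 H i37 i27 i4 c1716.symm (Lsw H i4 i37 b514) (Lsw H i4 i27 b510) (k_one i78 i27 c6327))
  have c6412 := Lco i150 i28 (LP1 H i28 i61 i5 c5760.symm (Lsw H i5 i28 b519) (Lsw H i5 i61 b1897) (k_one i73 i61 c6245))
  have c6433 := Lco i150 i62 (LP1 H i62 i61 i5 c1310.symm (Lsw H i5 i62 b1898) (Lsw H i5 i61 b1897) (k_one i151 i61 c6328))
  have q6449 : Rl [t40, t35, t51, t69, t80] := q1655.mv 1 rfl
  have c6450 := q6449.l1 (.cons c6387 (.cons c1712.symm (.cons c1850 (.cons c1153.symm .nil))))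
  have q6456 : Rl [t97, t62, t84, t127, t151] := q5174.mv 2 rfl
  have c6457 := q6456.l1 (.cons c6433.symm (.cons c3630 (.cons c4903 (.cons c3897.symm .nil))))
  have c6465 := Lck c328 c6450.symm b489
  have c6471 := Lck c320 c6465 b1895
  have c6496 := Lco i141 i11 (LP1 H i11 i40 i6 c357 (Lsw H i6 i11 b161) (Lsw H i6 i40 b4316) (k_one i39 i40 c6450.symm))
  have c6498 := Lck c3220.symm c6374 b537
  have c6501 := Lck c2844.symm c6376 b1922
  obtain ⟨t184, b6549⟩ : ∃ t, k a t122 = t := ⟨_, rfl⟩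
  have i184 := Linv H i1 i122 b6549
  obtain ⟨t185, b6550⟩ : ∃ t, k a t140 = t := ⟨_, rfl⟩
  have i185 := Linv H i1 i140 b6550
  obtain ⟨t186, b6551⟩ : ∃ t, k a t142 = t := ⟨_, rfl⟩
  have i186 := Linv H i1 i142 b6551
  obtain ⟨t187, b6552⟩ : ∃ t, k a t143 = t := ⟨_, rfl⟩
  have i187 := Linv H i1 i143 b6552
  obtain ⟨t188, b6553⟩ : ∃ t, k a t146 = t := ⟨_, rfl⟩
  have i188 := Linv H i1 i146 b6553
  obtain ⟨t189, b6554⟩ : ∃ t, k a t150 = t := ⟨_, rfl⟩
  have i189 := Linv H i1 i150 b6554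
  obtain ⟨t190, b6555⟩ : ∃ t, k a t151 = t := ⟨_, rfl⟩
  have i190 := Linv H i1 i151 b6555
  obtain ⟨t191, b6556⟩ : ∃ t, k a t152 = t := ⟨_, rfl⟩
  have i191 := Linv H i1 i152 b6556
  obtain ⟨t192, b6557⟩ : ∃ t, k a t154 = t := ⟨_, rfl⟩
  have i192 := Linv H i1 i154 b6557
  obtain ⟨t193, b6558⟩ : ∃ t, k a t155 = t := ⟨_, rfl⟩
  have i193 := Linv H i1 i155 b6558
  obtain ⟨t194, b6559⟩ : ∃ t, k a t180 = t := ⟨_, rfl⟩
  have i194 := Linv H i1 i180 b6559
  obtain ⟨t195, b6560⟩ : ∃ t, k b t133 = t := ⟨_, rfl⟩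
  have i195 := Linv H i2 i133 b6560
  obtain ⟨t196, b6561⟩ : ∃ t, k b t136 = t := ⟨_, rfl⟩
  have i196 := Linv H i2 i136 b6561
  obtain ⟨t197, b6562⟩ : ∃ t, k b t142 = t := ⟨_, rfl⟩
  have i197 := Linv H i2 i142 b6562
  obtain ⟨t198, b6563⟩ : ∃ t, k b t144 = t := ⟨_, rfl⟩
  have i198 := Linv H i2 i144 b6563
  obtain ⟨t199, b6564⟩ : ∃ t, k b t145 = t := ⟨_, rfl⟩
  have i199 := Linv H i2 i145 b6564
  obtain ⟨t200, b6565⟩ : ∃ t, k b t146 = t := ⟨_, rfl⟩
  have i200 := Linv H i2 i146 b6565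
  obtain ⟨t201, b6566⟩ : ∃ t, k b t148 = t := ⟨_, rfl⟩
  have i201 := Linv H i2 i148 b6566
  obtain ⟨t202, b6567⟩ : ∃ t, k b t149 = t := ⟨_, rfl⟩
  have i202 := Linv H i2 i149 b6567
  obtain ⟨t203, b6568⟩ : ∃ t, k b t152 = t := ⟨_, rfl⟩
  have i203 := Linv H i2 i152 b6568
  obtain ⟨t204, b6569⟩ : ∃ t, k b t153 = t := ⟨_, rfl⟩
  have i204 := Linv H i2 i153 b6569
  obtain ⟨t205, b6570⟩ : ∃ t, k b t154 = t := ⟨_, rfl⟩
  have i205 := Linv H i2 i154 b6570
  obtain ⟨t206, b6571⟩ : ∃ t, k b t167 = t := ⟨_, rfl⟩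
  have i206 := Linv H i2 i167 b6571
  obtain ⟨t207, b6572⟩ : ∃ t, k c t108 = t := ⟨_, rfl⟩
  have i207 := Linv H i3 i108 b6572
  obtain ⟨t208, b6573⟩ : ∃ t, k c t112 = t := ⟨_, rfl⟩
  have i208 := Linv H i3 i112 b6573
  obtain ⟨t209, b6574⟩ : ∃ t, k c t123 = t := ⟨_, rfl⟩
  have i209 := Linv H i3 i123 b6574
  obtain ⟨t210, b6575⟩ : ∃ t, k c t125 = t := ⟨_, rfl⟩
  have i210 := Linv H i3 i125 b6575
  obtain ⟨t211, b6576⟩ : ∃ t, k c t140 = t := ⟨_, rfl⟩
  have i211 := Linv H i3 i140 b6576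
  obtain ⟨t212, b6577⟩ : ∃ t, k c t141 = t := ⟨_, rfl⟩
  have i212 := Linv H i3 i141 b6577
  obtain ⟨t213, b6578⟩ : ∃ t, k c t142 = t := ⟨_, rfl⟩
  have i213 := Linv H i3 i142 b6578
  obtain ⟨t214, b6579⟩ : ∃ t, k c t145 = t := ⟨_, rfl⟩
  have i214 := Linv H i3 i145 b6579
  obtain ⟨t215, b6580⟩ : ∃ t, k c t148 = t := ⟨_, rfl⟩
  have i215 := Linv H i3 i148 b6580
  obtain ⟨t216, b6581⟩ : ∃ t, k c t152 = t := ⟨_, rfl⟩
  have i216 := Linv H i3 i152 b6581
  obtain ⟨t217, b6582⟩ : ∃ t, k c t155 = t := ⟨_, rfl⟩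
  have i217 := Linv H i3 i155 b6582
  obtain ⟨t218, b6583⟩ : ∃ t, k c t164 = t := ⟨_, rfl⟩
  have i218 := Linv H i3 i164 b6583
  obtain ⟨t219, b6584⟩ : ∃ t, k c t167 = t := ⟨_, rfl⟩
  have i219 := Linv H i3 i167 b6584
  obtain ⟨t220, b6585⟩ : ∃ t, k c t170 = t := ⟨_, rfl⟩
  have i220 := Linv H i3 i170 b6585
  obtain ⟨t221, b6586⟩ : ∃ t, k d t107 = t := ⟨_, rfl⟩
  have i221 := Linv H i4 i107 b6586
  obtain ⟨t222, b6587⟩ : ∃ t, k d t110 = t := ⟨_, rfl⟩
  have i222 := Linv H i4 i110 b6587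
  obtain ⟨t223, b6588⟩ : ∃ t, k d t115 = t := ⟨_, rfl⟩
  have i223 := Linv H i4 i115 b6588
  obtain ⟨t224, b6589⟩ : ∃ t, k d t118 = t := ⟨_, rfl⟩
  have i224 := Linv H i4 i118 b6589
  obtain ⟨t225, b6590⟩ : ∃ t, k d t148 = t := ⟨_, rfl⟩
  have i225 := Linv H i4 i148 b6590
  obtain ⟨t226, b6591⟩ : ∃ t, k d t149 = t := ⟨_, rfl⟩
  have i226 := Linv H i4 i149 b6591
  obtain ⟨t227, b6592⟩ : ∃ t, k d t150 = t := ⟨_, rfl⟩
  have i227 := Linv H i4 i150 b6592
  obtain ⟨t228, b6593⟩ : ∃ t, k d t151 = t := ⟨_, rfl⟩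
  have i228 := Linv H i4 i151 b6593
  obtain ⟨t229, b6594⟩ : ∃ t, k d t154 = t := ⟨_, rfl⟩
  have i229 := Linv H i4 i154 b6594
  obtain ⟨t230, b6595⟩ : ∃ t, k d t155 = t := ⟨_, rfl⟩
  have i230 := Linv H i4 i155 b6595
  obtain ⟨t231, b6596⟩ : ∃ t, k d t167 = t := ⟨_, rfl⟩
  have i231 := Linv H i4 i167 b6596
  obtain ⟨t232, b6597⟩ : ∃ t, k d t170 = t := ⟨_, rfl⟩
  have i232 := Linv H i4 i170 b6597
  obtain ⟨t233, b6598⟩ : ∃ t, k d t180 = t := ⟨_, rfl⟩
  have i233 := Linv H i4 i180 b6598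
  obtain ⟨t234, b6599⟩ : ∃ t, k e t107 = t := ⟨_, rfl⟩
  have i234 := Linv H i5 i107 b6599
  obtain ⟨t235, b6600⟩ : ∃ t, k e t108 = t := ⟨_, rfl⟩
  have i235 := Linv H i5 i108 b6600
  obtain ⟨t236, b6601⟩ : ∃ t, k e t110 = t := ⟨_, rfl⟩
  have i236 := Linv H i5 i110 b6601
  obtain ⟨t237, b6602⟩ : ∃ t, k e t112 = t := ⟨_, rfl⟩
  have i237 := Linv H i5 i112 b6602
  obtain ⟨t238, b6603⟩ : ∃ t, k e t113 = t := ⟨_, rfl⟩
  have i238 := Linv H i5 i113 b6603
  obtain ⟨t239, b6604⟩ : ∃ t, k e t123 = t := ⟨_, rfl⟩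
  have i239 := Linv H i5 i123 b6604
  obtain ⟨t240, b6605⟩ : ∃ t, k e t124 = t := ⟨_, rfl⟩
  have i240 := Linv H i5 i124 b6605
  obtain ⟨t241, b6606⟩ : ∃ t, k e t125 = t := ⟨_, rfl⟩
  have i241 := Linv H i5 i125 b6606
  obtain ⟨t242, b6607⟩ : ∃ t, k e t130 = t := ⟨_, rfl⟩
  have i242 := Linv H i5 i130 b6607
  obtain ⟨t243, b6608⟩ : ∃ t, k e t141 = t := ⟨_, rfl⟩
  have i243 := Linv H i5 i141 b6608
  obtain ⟨t244, b6609⟩ : ∃ t, k e t143 = t := ⟨_, rfl⟩
  have i244 := Linv H i5 i143 b6609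
  obtain ⟨t245, b6610⟩ : ∃ t, k e t155 = t := ⟨_, rfl⟩
  have i245 := Linv H i5 i155 b6610
  obtain ⟨t246, b6611⟩ : ∃ t, k e t158 = t := ⟨_, rfl⟩
  have i246 := Linv H i5 i158 b6611
  obtain ⟨t247, b6612⟩ : ∃ t, k e t164 = t := ⟨_, rfl⟩
  have i247 := Linv H i5 i164 b6612
  obtain ⟨t248, b6613⟩ : ∃ t, k e t170 = t := ⟨_, rfl⟩
  have i248 := Linv H i5 i170 b6613
  obtain ⟨t249, b6614⟩ : ∃ t, k t6 t57 = t := ⟨_, rfl⟩
  have i249 := Linv H i6 i57 b6614
  obtain ⟨t250, b6615⟩ : ∃ t, k t6 t71 = t := ⟨_, rfl⟩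
  have i250 := Linv H i6 i71 b6615
  obtain ⟨t251, b6616⟩ : ∃ t, k t6 t84 = t := ⟨_, rfl⟩
  have i251 := Linv H i6 i84 b6616
  obtain ⟨t252, b6617⟩ : ∃ t, k t6 t87 = t := ⟨_, rfl⟩
  have i252 := Linv H i6 i87 b6617
  obtain ⟨t253, b6618⟩ : ∃ t, k t6 t100 = t := ⟨_, rfl⟩
  have i253 := Linv H i6 i100 b6618
  obtain ⟨t254, b6619⟩ : ∃ t, k t7 t52 = t := ⟨_, rfl⟩
  have i254 := Linv H i7 i52 b6619
  obtain ⟨t255, b6620⟩ : ∃ t, k t7 t56 = t := ⟨_, rfl⟩
  have i255 := Linv H i7 i56 b6620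
  obtain ⟨t256, b6621⟩ : ∃ t, k t7 t58 = t := ⟨_, rfl⟩
  have i256 := Linv H i7 i58 b6621
  obtain ⟨t257, b6622⟩ : ∃ t, k t7 t61 = t := ⟨_, rfl⟩
  have i257 := Linv H i7 i61 b6622
  obtain ⟨t258, b6623⟩ : ∃ t, k t7 t62 = t := ⟨_, rfl⟩
  have i258 := Linv H i7 i62 b6623
  obtain ⟨t259, b6624⟩ : ∃ t, k t7 t77 = t := ⟨_, rfl⟩
  have i259 := Linv H i7 i77 b6624
  obtain ⟨t260, b6625⟩ : ∃ t, k t7 t87 = t := ⟨_, rfl⟩
  have i260 := Linv H i7 i87 b6625
  obtain ⟨t261, b6626⟩ : ∃ t, k t7 t97 = t := ⟨_, rfl⟩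
  have i261 := Linv H i7 i97 b6626
  obtain ⟨t262, b6627⟩ : ∃ t, k t7 t100 = t := ⟨_, rfl⟩
  have i262 := Linv H i7 i100 b6627
  obtain ⟨t263, b6628⟩ : ∃ t, k t8 t63 = t := ⟨_, rfl⟩
  have i263 := Linv H i8 i63 b6628
  obtain ⟨t264, b6629⟩ : ∃ t, k t8 t64 = t := ⟨_, rfl⟩
  have i264 := Linv H i8 i64 b6629
  obtain ⟨t265, b6630⟩ : ∃ t, k t8 t73 = t := ⟨_, rfl⟩
  have i265 := Linv H i8 i73 b6630
  obtain ⟨t266, b6631⟩ : ∃ t, k t8 t85 = t := ⟨_, rfl⟩
  have i266 := Linv H i8 i85 b6631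
  obtain ⟨t267, b6632⟩ : ∃ t, k t9 t56 = t := ⟨_, rfl⟩
  have i267 := Linv H i9 i56 b6632
  obtain ⟨t268, b6633⟩ : ∃ t, k t9 t57 = t := ⟨_, rfl⟩
  have i268 := Linv H i9 i57 b6633
  obtain ⟨t269, b6634⟩ : ∃ t, k t9 t61 = t := ⟨_, rfl⟩
  have i269 := Linv H i9 i61 b6634
  obtain ⟨t270, b6635⟩ : ∃ t, k t9 t78 = t := ⟨_, rfl⟩
  have i270 := Linv H i9 i78 b6635
  obtain ⟨t271, b6636⟩ : ∃ t, k t9 t93 = t := ⟨_, rfl⟩
  have i271 := Linv H i9 i93 b6636
  obtain ⟨t272, b6637⟩ : ∃ t, k t9 t100 = t := ⟨_, rfl⟩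
  have i272 := Linv H i9 i100 b6637
  obtain ⟨t273, b6638⟩ : ∃ t, k t10 t52 = t := ⟨_, rfl⟩
  have i273 := Linv H i10 i52 b6638
  obtain ⟨t274, b6639⟩ : ∃ t, k t10 t57 = t := ⟨_, rfl⟩
  have i274 := Linv H i10 i57 b6639
  obtain ⟨t275, b6640⟩ : ∃ t, k t10 t71 = t := ⟨_, rfl⟩
  have i275 := Linv H i10 i71 b6640
  obtain ⟨t276, b6641⟩ : ∃ t, k t10 t85 = t := ⟨_, rfl⟩
  have i276 := Linv H i10 i85 b6641
  obtain ⟨t277, b6642⟩ : ∃ t, k t11 t61 = t := ⟨_, rfl⟩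
  have i277 := Linv H i11 i61 b6642
  obtain ⟨t278, b6643⟩ : ∃ t, k t11 t71 = t := ⟨_, rfl⟩
  have i278 := Linv H i11 i71 b6643
  obtain ⟨t279, b6644⟩ : ∃ t, k t11 t96 = t := ⟨_, rfl⟩
  have i279 := Linv H i11 i96 b6644
  obtain ⟨t280, b6645⟩ : ∃ t, k t11 t97 = t := ⟨_, rfl⟩
  have i280 := Linv H i11 i97 b6645
  obtain ⟨t281, b6646⟩ : ∃ t, k t12 t31 = t := ⟨_, rfl⟩
  have i281 := Linv H i12 i31 b6646
  obtain ⟨t282, b6647⟩ : ∃ t, k t12 t37 = t := ⟨_, rfl⟩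
  have i282 := Linv H i12 i37 b6647
  obtain ⟨t283, b6648⟩ : ∃ t, k t12 t44 = t := ⟨_, rfl⟩
  have i283 := Linv H i12 i44 b6648
  obtain ⟨t284, b6649⟩ : ∃ t, k t12 t51 = t := ⟨_, rfl⟩
  have i284 := Linv H i12 i51 b6649
  obtain ⟨t285, b6650⟩ : ∃ t, k t13 t32 = t := ⟨_, rfl⟩
  have i285 := Linv H i13 i32 b6650
  obtain ⟨t286, b6651⟩ : ∃ t, k t13 t33 = t := ⟨_, rfl⟩
  have i286 := Linv H i13 i33 b6651
  obtain ⟨t287, b6652⟩ : ∃ t, k t13 t35 = t := ⟨_, rfl⟩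
  have i287 := Linv H i13 i35 b6652
  obtain ⟨t288, b6653⟩ : ∃ t, k t13 t40 = t := ⟨_, rfl⟩
  have i288 := Linv H i13 i40 b6653
  obtain ⟨t289, b6654⟩ : ∃ t, k t13 t44 = t := ⟨_, rfl⟩
  have i289 := Linv H i13 i44 b6654
  obtain ⟨t290, b6655⟩ : ∃ t, k t13 t51 = t := ⟨_, rfl⟩
  have i290 := Linv H i13 i51 b6655
  obtain ⟨t291, b6656⟩ : ∃ t, k t14 t25 = t := ⟨_, rfl⟩
  have i291 := Linv H i14 i25 b6656
  obtain ⟨t292, b6657⟩ : ∃ t, k t14 t40 = t := ⟨_, rfl⟩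
  have i292 := Linv H i14 i40 b6657
  obtain ⟨t293, b6658⟩ : ∃ t, k t14 t44 = t := ⟨_, rfl⟩
  have i293 := Linv H i14 i44 b6658
  obtain ⟨t294, b6659⟩ : ∃ t, k t16 t26 = t := ⟨_, rfl⟩
  have i294 := Linv H i16 i26 b6659
  obtain ⟨t295, b6660⟩ : ∃ t, k t16 t28 = t := ⟨_, rfl⟩
  have i295 := Linv H i16 i28 b6660
  obtain ⟨t296, b6661⟩ : ∃ t, k t16 t33 = t := ⟨_, rfl⟩
  have i296 := Linv H i16 i33 b6661
  obtain ⟨t297, b6662⟩ : ∃ t, k t16 t43 = t := ⟨_, rfl⟩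
  have i297 := Linv H i16 i43 b6662
  obtain ⟨t298, b6663⟩ : ∃ t, k t17 t36 = t := ⟨_, rfl⟩
  have i298 := Linv H i17 i36 b6663
  obtain ⟨t299, b6664⟩ : ∃ t, k t17 t37 = t := ⟨_, rfl⟩
  have i299 := Linv H i17 i37 b6664
  obtain ⟨t300, b6665⟩ : ∃ t, k t18 t26 = t := ⟨_, rfl⟩
  have i300 := Linv H i18 i26 b6665
  obtain ⟨t301, b6666⟩ : ∃ t, k t18 t28 = t := ⟨_, rfl⟩
  have i301 := Linv H i18 i28 b6666
  obtain ⟨t302, b6667⟩ : ∃ t, k t18 t29 = t := ⟨_, rfl⟩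
  have i302 := Linv H i18 i29 b6667
  obtain ⟨t303, b6668⟩ : ∃ t, k t19 t25 = t := ⟨_, rfl⟩
  have i303 := Linv H i19 i25 b6668
  obtain ⟨t304, b6669⟩ : ∃ t, k t19 t26 = t := ⟨_, rfl⟩
  have i304 := Linv H i19 i26 b6669
  obtain ⟨t305, b6670⟩ : ∃ t, k t19 t32 = t := ⟨_, rfl⟩
  have i305 := Linv H i19 i32 b6670
  obtain ⟨t306, b6671⟩ : ∃ t, k t20 t25 = t := ⟨_, rfl⟩
  have i306 := Linv H i20 i25 b6671
  obtain ⟨t307, b6672⟩ : ∃ t, k t20 t44 = t := ⟨_, rfl⟩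
  have i307 := Linv H i20 i44 b6672
  obtain ⟨t308, b6673⟩ : ∃ t, k t20 t51 = t := ⟨_, rfl⟩
  have i308 := Linv H i20 i51 b6673
  obtain ⟨t309, b6674⟩ : ∃ t, k t23 t27 = t := ⟨_, rfl⟩
  have i309 := Linv H i23 i27 b6674
  obtain ⟨t310, b6675⟩ : ∃ t, k t23 t35 = t := ⟨_, rfl⟩
  have i310 := Linv H i23 i35 b6675
  obtain ⟨t311, b6676⟩ : ∃ t, k t23 t40 = t := ⟨_, rfl⟩
  have i311 := Linv H i23 i40 b6676
  obtain ⟨t312, b6677⟩ : ∃ t, k t23 t51 = t := ⟨_, rfl⟩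
  have i312 := Linv H i23 i51 b6677
  have c6678 := Lkl H i1 i122 b6549
  have c6680 := Lkl H i1 i140 b6550
  have c6684 := Lkl H i1 i143 b6552
  have c6686 := Lkl H i1 i146 b6553
  have c6690 := Lkl H i1 i151 b6555
  have c6700 := Lkl H i2 i133 b6560
  have c6702 := Lkl H i2 i136 b6561
  have c6704 := Lkl H i2 i142 b6562
  have c6710 := Lkl H i2 i146 b6565
  have c6712 := Lkl H i2 i148 b6566
  have c6724 := Lkl H i3 i108 b6572
  have c6728 := Lkl H i3 i123 b6574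
  have c6730 := Lkl H i3 i125 b6575
  have c6732 := Lkl H i3 i140 b6576
  have c6736 := Lkl H i3 i142 b6578
  have c6740 := Lkl H i3 i148 b6580
  have c6754 := Lkl H i4 i110 b6587
  have c6758 := Lkl H i4 i118 b6589
  have c6760 := Lkl H i4 i148 b6590
  have c6764 := Lkl H i4 i150 b6592
  have c6768 := Lkl H i4 i154 b6594
  have c6772 := Lkl H i4 i167 b6596
  have c6778 := Lkl H i5 i107 b6599
  have c6780 := Lkl H i5 i108 b6600
  have c6790 := Lkl H i5 i124 b6605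
  have c6792 := Lkl H i5 i125 b6606
  have c6806 := Lkl H i5 i170 b6613
  have c6939 := Lck hab.symm c1961.symm b6549
  have c6940 := Lck hab c2117 b6560
  have c6941 := Lck hab c2124 b6561
  have c6943 := Lck hab.symm c3299.symm b6552
  have c6946 := Lck hab.symm c2884.symm b6555
  have c6953 := Lck hac c1933.symm b6572
  have c6955 := Lck hac.symm c2433.symm b6549
  have c6956 := Lck hac c2098 b6574
  have c6957 := Lck hac c2101 b6575
  have c6961 := Lck hac.symm c2757.symm b6552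
  have c6962 := Lck hac.symm c3233.symm b6555
  have c6974 := Lck c10 c2257 b6550
  have c6976 := Lck c10 c2971 b6552
  have c6980 := LP3 H i1 i7 i40 c12.symm b489 (Lsw H i7 i56 b6620)
  have c6993 := Lck c12 c3038 b6555
  have c6996 := Lck c22 c658 b6628
  have c6998 := Lck c22 c672 b6630
  have c7067 := LP3 H i27 i1 i11 c170 (Lsw H i11 i27 b4340) (Lsw H i1 i152 b6556)
  have c7119 := LP3 H i52 i1 i5 c540 (Lsw H i5 i52 b1893) (Lsw H i1 i146 b6553)
  have c7141 := LP3 H i54 i1 i4 c544 (Lsw H i4 i54 b1887) (Lsw H i1 i140 b6550)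
  have c7168 := LP3 H i57 i1 i4 c550 (Lsw H i4 i57 b1889) (Lsw H i1 i142 b6551)
  have c7268 := Lck c1933 c4850.symm b6555
  have c7271 := LP2 H i1 i110 i4 c1937.symm b4 (Lsw H i4 i110 b6587)
  have c7325 := Lck c1953 c5715.symm b6550
  have c7326 := Lck c1953 c4544.symm b6551
  have c7327 := Lck c1953 c4545.symm b6552
  have c7396 := LP2 H i1 i149 i4 c2890.symm b4 (Lsw H i4 i149 b6591)
  have c7417 := Lck hbd c2097 b6587
  have c7419 := Lck hbd.symm c2001.symm b6562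
  have c7439 := Lck c14.symm c562.symm b6628
  have c7449 := Lck c16.symm c558.symm b6634
  have c7516 := Lck c105 c3161 b6565
  have c7616 := LP3 H i52 i2 i5 c654.symm (Lsw H i5 i52 b1893) (Lsw H i2 i146 b6565)
  have c7642 := LP3 H i56 i2 i5 c659.symm (Lsw H i5 i56 b1895) (Lsw H i2 i148 b6566)
  have c7663 := LP3 H i2 i61 i5 c558.symm b7 b6634
  have c7685 := LP3 H i2 i63 i3 c562.symm b6 b6628
  have c7698 := LP3 H i64 i2 i3 c564 (Lsw H i3 i64 b1880) (Lsw H i2 i133 b6560)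
  have c7772 := Lck c2094.symm c4142.symm b6560
  have c7795 := Lck c2097.symm c2517 b6565
  have c7928 := Lck hce c2113 b6599
  have c7939 := Lck hce.symm c2013.symm b6580
  have c7950 := Lck c26 c1106.symm b6625
  have c7958 := Lck c15.symm c582.symm b6630
  have c7989 := Lck c78.symm c4533.symm b6574
  have c8008 := Lck c89 c3165 b6576
  have c8158 := LP3 H i54 i3 i4 c669.symm (Lsw H i4 i54 b1887) (Lsw H i3 i140 b6576)
  have c8170 := LP3 H i55 i3 i2 c670.symm b4075 (Lsw H i3 i108 b6572)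
  have c8185 := LP3 H i57 i3 i4 c673.symm (Lsw H i4 i57 b1889) (Lsw H i3 i142 b6578)
  have c8238 := LP3 H i3 i71 i4 c578.symm b8 b6640
  have c8251 := LP3 H i72 i3 i2 c580 (Lsw H i2 i72 b1870) (Lsw H i3 i123 b6574)
  have c8266 := LP3 H i3 i73 i2 c582.symm (Lsw H i2 i3 b6) b6630
  have c8340 := Lck c2113.symm c2337 b6576
  have c8351 := Lck c2118.symm c4110.symm b6574
  have c8357 := Lck c2118.symm c4924 b6582
  have c8513 := Lck c11 c2025.symm b6594
  have c8544 := Lck c76.symm c196.symm b6653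
  have c8548 := Lck c76 c3320 b6587
  have c8588 := Lck c106.symm c249.symm b6668
  have c8734 := LP3 H i60 i4 i1 c1458 (Lsw H i1 i60 b1854) (Lsw H i4 i107 b6586)
  have c8749 := LP3 H i61 i4 i5 c726.symm (Lsw H i5 i61 b1897) (Lsw H i4 i150 b6592)
  have c8788 := LP3 H i69 i4 i1 c1421 (Lsw H i1 i69 b1857) (Lsw H i4 i110 b6587)
  have c8894 := Lco i207 i4 (LP1 H i4 i108 i3 c2784.symm (Lsw H i3 i4 b8) (Lsw H i3 i108 b6572) (k_one i10 i108 c5685.symm))
  have c8895 := LP2 H i4 i108 i5 c2784.symm b9 (Lsw H i5 i108 b6600)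
  have c8919 := Lco i184 i4 (LP1 H i4 i122 i1 c3124.symm (Lsw H i1 i4 b4) (Lsw H i1 i122 b6549) (k_one i6 i122 c4363.symm))
  have c8931 := Lco i209 i4 (LP1 H i4 i123 i3 c2341 (Lsw H i3 i4 b8) (Lsw H i3 i123 b6574) (k_one i10 i123 c4486.symm))
  have c8943 := LP2 H i4 i124 i5 c2342 b9 (Lsw H i5 i124 b6605)
  have c8953 := Lco i210 i4 (LP1 H i4 i125 i3 c2343 (Lsw H i3 i4 b8) (Lsw H i3 i125 b6575) (k_one i10 i125 c3330.symm))
  have c8996 := Lco i187 i4 (LP1 H i4 i143 i1 c2003.symm (Lsw H i1 i4 b4) (Lsw H i1 i143 b6552) (k_one i6 i143 c2971))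
  have c9108 := Lck c71 c3098 b6605
  have c9226 := LP3 H i5 i35 i6 c298 b42 b6675
  have c9235 := Lck c298.symm c3750.symm b6606
  have c9316 := LP3 H i55 i5 i2 c692 b4075 (Lsw H i5 i108 b6600)
  have c9331 := LP3 H i60 i5 i1 c755 (Lsw H i1 i60 b1854) (Lsw H i5 i107 b6599)
  have c9379 := LP3 H i69 i5 i1 c1486 (Lsw H i1 i69 b1857) (Lsw H i5 i110 b6601)
  have c9395 := LP3 H i5 i71 i4 c804 (Lsw H i4 i5 b9) b6643
  have c9427 := LP3 H i73 i5 i2 c807.symm (Lsw H i2 i73 b1871) (Lsw H i5 i124 b6605)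
  have c9444 := LP3 H i78 i5 i2 c1033 (Lsw H i2 i78 b1872) (Lsw H i5 i125 b6606)
  have c9505 := LP3 H i5 i87 i1 c610.symm (Lsw H i1 i5 b5) b6625
  have c9590 := Lco i195 i5 (LP1 H i5 i133 i2 c2523 (Lsw H i2 i5 b7) (Lsw H i2 i133 b6560) (k_one i9 i133 c4454.symm))
  have c9602 := Lco i196 i5 (LP1 H i5 i136 i2 c2526 (Lsw H i2 i5 b7) (Lsw H i2 i136 b6561) (k_one i9 i136 c3277.symm))
  have c9633 := Lco i226 i5 (LP1 H i5 i149 i4 c2015.symm (Lsw H i4 i5 b9) (Lsw H i4 i149 b6591) (k_one i11 i149 c6362.symm))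
  have c9644 := LP2 H i5 i150 i1 c2017.symm (Lsw H i1 i5 b5) (Lsw H i1 i150 b6554)
  have c9649 := Lco i190 i5 (LP1 H i5 i151 i1 c2019.symm (Lsw H i1 i5 b5) (Lsw H i1 i151 b6555) (k_one i7 i151 c3038))
  have c9676 := LP2 H i5 i154 i1 c2970.symm (Lsw H i1 i5 b5) (Lsw H i1 i154 b6557)
  have c9677 := Lco i205 i5 (LP1 H i5 i154 i2 c2970.symm (Lsw H i2 i5 b7) (Lsw H i2 i154 b6570) (k_one i9 i154 c3255.symm))
  have c9678 := LP2 H i5 i154 i4 c2970.symm (Lsw H i4 i5 b9) (Lsw H i4 i154 b6594)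
  have c9712 := Lck c25 c1363.symm b6641
  have c9717 := Lck c81 c281 b6651
  have c9767 := LP3 H i6 i32 i3 c280 b128 b6650
  have c9918 := Lco i209 i6 (LP1 H i6 i123 i3 c2349 b128 (Lsw H i3 i123 b6574) (k_one i13 i123 c4533.symm))
  have c9952 := Lco i211 i6 (LP1 H i6 i140 i3 c2257 b128 (Lsw H i3 i140 b6576) (k_one i13 i140 c2729))
  have c10058 := LP3 H i28 i7 i2 c358.symm (Lsw H i2 i28 b492) (Lsw H i7 i52 b6619)
  have c10437 := Lck c29 c1681 b6633
  have c10443 := Lck c29 c1088 b6637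
  have c10451 := Lck c86 c316 b6646
  have c10460 := Lck c87 c290 b6652
  have c10503 := Lco i254 i8 (LP1 H i8 i52 i7 c686 (Lsw H i7 i8 b162) (Lsw H i7 i52 b6619) (k_one i27 i52 c1237))
  have c10657 := Lco i240 i8 (LP1 H i8 i124 i5 c2685 (Lsw H i5 i8 b43) (Lsw H i5 i124 b6605) (k_one i18 i124 c2402))
  have c10717 := Lck c45 c1075 b6634
  have c10749 := LP3 H i9 i31 i1 c359 (Lsw H i1 i9 b31) b6646
  have c10771 := LP3 H i40 i9 i1 c1584.symm (Lsw H i1 i40 b489) (Lsw H i9 i56 b6632)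
  have c10836 := Lck c748.symm c5166 b6637
  have c10864 := Lck c779.symm c1581 b6633
  have c10948 := Lco i210 i9 (LP1 H i9 i125 i3 c2937 (Lsw H i3 i9 b37) (Lsw H i3 i125 b6575) (k_one i18 i125 c5061.symm))
  have c10974 := Lck c4454 c5133 b6634
  have c11016 := Lco i227 i9 (LP1 H i9 i150 i4 c2473 (Lsw H i4 i9 b41) (Lsw H i4 i150 b6592) (k_one i17 i150 c2849))
  have c11090 := Lck c47.symm c219.symm b6655
  have c11123 := LP3 H i10 i35 i1 c337 (Lsw H i1 i10 b32) b6652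
  have c11133 := LP3 H i10 i40 i1 c315 (Lsw H i1 i10 b32) b6653
  have c11144 := LP3 H i44 i10 i1 c1593.symm (Lsw H i1 i44 b490) (Lsw H i10 i57 b6639)
  have c11258 := Lco i241 i10 (LP1 H i10 i125 i5 c3330.symm b136 (Lsw H i5 i125 b6606) (k_one i19 i125 c2345.symm))
  have c11275 := Lco i196 i10 (LP1 H i10 i136 i2 c2817 (Lsw H i2 i10 b35) (Lsw H i2 i136 b6561) (k_one i16 i136 c5048.symm))
  have c11416 := LP3 H i36 i11 i2 c1696.symm (Lsw H i2 i36 b494) (Lsw H i11 i61 b6642)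
  have c11585 := Lco i217 i11 (LP1 H i11 i155 i3 c3355.symm (Lsw H i3 i11 b38) (Lsw H i3 i155 b6582) (k_one i19 i155 c3578.symm))
  have c11600 := Lck c122.symm c1577 b6647
  have c11691 := Lck c5025 c6410 b6647
  have c11905 := LP3 H i16 i13 i5 c74.symm (Lsw H i5 i16 b158) (Lsw H i13 i44 b6654)
  have c11915 := LP3 H i20 i13 i2 c1662 (Lsw H i2 i20 b146) (Lsw H i13 i32 b6650)
  have c11937 := Lck c397.symm c453 b6651
  have c11949 := Lck c333.symm c271.symm b6651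
  have c12017 := Lck c1048.symm c5204 b6655
  have c12334 := LP3 H i14 i19 i2 c79 b419 (Lsw H i19 i26 b6669)
  have c12492 := LP3 H i16 i19 i1 c1590.symm (Lsw H i1 i16 b139) (Lsw H i19 i25 b6668)
  have c12751 := LP3 H i17 i19 i1 c1595 (Lsw H i1 i17 b140) (Lsw H i19 i26 b6669)
  have c12756 := LP3 H i20 i17 i3 c120 (Lsw H i3 i20 b150) (Lsw H i17 i36 b6663)
  have c12762 := LP3 H i23 i17 i3 c1664 (Lsw H i3 i23 b151) (Lsw H i17 i37 b6664)
  have c12785 := Lco i289 i17 (LP1 H i17 i44 i13 c356 (Lsw H i13 i17 b1924) (Lsw H i13 i44 b6654) (k_one i177 i44 c5518))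
  have c13382 := Lco i203 i19 (LP1 H i19 i152 i2 c3329 (Lsw H i2 i19 b145) (Lsw H i2 i152 b6568) (k_one i31 i152 c5480.symm))
  have c13856 := Lco i241 i26 (LP1 H i26 i125 i5 c3482 (Lsw H i5 i26 b518) (Lsw H i5 i125 b6606) (k_one i85 i125 c4881))
  have c13912 := LP2 H i28 i61 i9 c5760.symm (Lsw H i9 i28 b1914) (Lsw H i9 i61 b6634)
  have c13944 := Lco i227 i28 (LP1 H i28 i150 i4 c6412.symm (Lsw H i4 i28 b511) (Lsw H i4 i150 b6592) (k_one i78 i150 c5658))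
  have c13978 := LP2 H i31 i51 i12 c1557 (Lsw H i12 i31 b6646) (Lsw H i12 i51 b6649)
  have c14022 := LP2 H i32 i33 i13 c482 (Lsw H i13 i32 b6650) (Lsw H i13 i33 b6651)
  have c14123 := LP2 H i35 i51 i13 c1550 (Lsw H i13 i35 b6652) (Lsw H i13 i51 b6655)
  have c14278 := Lco i215 i39 (LP1 H i39 i148 i3 c6471 (Lsw H i3 i39 b505) (Lsw H i3 i148 b6580) (k_one i72 i148 c2931))
  have c14305 := Lco i236 i40 (LP1 H i40 i110 i5 c2110.symm (Lsw H i5 i40 b522) (Lsw H i5 i110 b6601) (k_one i87 i110 c4265))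
  have c14311 := Lco i240 i40 (LP1 H i40 i124 i5 c2445 (Lsw H i5 i40 b522) (Lsw H i5 i124 b6605) (k_one i87 i124 c2506))
  have c14391 := Lco i227 i44 (LP1 H i44 i150 i4 c3495 (Lsw H i4 i44 b515) (Lsw H i4 i150 b6592) (k_one i80 i150 c2946))
  have c14476 := Lco i222 i51 (LP1 H i51 i110 i4 c4784 (Lsw H i4 i51 b516) (Lsw H i4 i110 b6587) (k_one i80 i110 c2689))
  have c14481 := Lco i209 i51 (LP1 H i51 i123 i3 c3846.symm (Lsw H i3 i51 b508) (Lsw H i3 i123 b6574) (k_one i69 i123 c2486))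
  have c14519 := LP2 H i52 i61 i7 c1289 (Lsw H i7 i52 b6619) (Lsw H i7 i61 b6622)
  have c14543 := LP2 H i52 i140 i3 c4693.symm (Lsw H i3 i52 b1876) (Lsw H i3 i140 b6576)
  have c14570 := Lco i217 i53 (LP1 H i53 i155 i3 c3003 b4084 (Lsw H i3 i155 b6582) (k_one i111 i155 c5005))
  have c14590 := LP2 H i54 i146 i2 c4694.symm (Lsw H i2 i54 b1867) (Lsw H i2 i146 b6565)
  have c14591 := LP2 H i54 i148 i2 c4700.symm (Lsw H i2 i54 b1867) (Lsw H i2 i148 b6566)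
  have c14614 := LP2 H i56 i57 i9 c1644 (Lsw H i9 i56 b6632) (Lsw H i9 i57 b6633)
  have c14654 := LP2 H i57 i71 i6 c1828 (Lsw H i6 i57 b6614) (Lsw H i6 i71 b6615)
  have c14660 := LP2 H i57 i93 i9 c4681 (Lsw H i9 i57 b6633) (Lsw H i9 i93 b6636)
  have c14720 := LP2 H i61 i62 i7 c1310 (Lsw H i7 i61 b6622) (Lsw H i7 i62 b6623)
  have c14725 := LP2 H i61 i93 i9 c5107 (Lsw H i9 i61 b6634) (Lsw H i9 i93 b6636)
  have c14730 := LP2 H i61 i100 i9 c4668 (Lsw H i9 i61 b6634) (Lsw H i9 i100 b6637)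
  have c14753 := Lco i190 i61 (LP1 H i61 i151 i1 c6328.symm (Lsw H i1 i61 b1855) (Lsw H i1 i151 b6555) (k_one i108 i151 c4850.symm))
  have c14791 := LP2 H i62 i146 i1 c6121 (Lsw H i1 i62 b1856) (Lsw H i1 i146 b6553)
  have c14903 := Lco i187 i71 (LP1 H i71 i143 i1 c6144.symm (Lsw H i1 i71 b1858) (Lsw H i1 i143 b6552) (k_one i111 i143 c4868.symm))
  have c15023 := Lco i224 i84 (LP1 H i84 i118 i4 c5263 (Lsw H i4 i84 b1892) (Lsw H i4 i118 b6589) (k_one i145 i118 c6380))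
  have c15128 := LP2 H i93 i100 i9 c5028 (Lsw H i9 i93 b6636) (Lsw H i9 i100 b6637)
  have c15224 := Lco i185 i97 (LP1 H i97 i140 i1 c5794.symm (Lsw H i1 i97 b1865) (Lsw H i1 i140 b6550) (k_one i118 i140 c5715.symm))
  have c15241 := Lco i189 i97 (LP1 H i97 i150 i1 c6457 (Lsw H i1 i97 b1865) (Lsw H i1 i150 b6554) (k_one i118 i150 c6501.symm))
  have c15294 := Lco i189 i100 (LP1 H i100 i150 i1 c6182.symm (Lsw H i1 i100 b1866) (Lsw H i1 i150 b6554) (k_one i118 i150 c6501.symm))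
  have c15439 := LP2 H i123 i140 i3 c4325 (Lsw H i3 i123 b6574) (Lsw H i3 i140 b6576)
  have c15446 := LP2 H i123 i155 i3 c4374 (Lsw H i3 i123 b6574) (Lsw H i3 i155 b6582)
  have c15483 := LP2 H i133 i146 i2 c4353 (Lsw H i2 i133 b6560) (Lsw H i2 i146 b6565)
  have c15497 := LP2 H i140 i142 i1 c3871 (Lsw H i1 i140 b6550) (Lsw H i1 i142 b6551)
  have c15499 := LP2 H i140 i143 i1 c3874 (Lsw H i1 i140 b6550) (Lsw H i1 i143 b6552)
  have c15505 := LP2 H i140 i155 i3 c5961 (Lsw H i3 i140 b6576) (Lsw H i3 i155 b6582)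
  have c15519 := LP2 H i142 i143 i1 c4560 (Lsw H i1 i142 b6551) (Lsw H i1 i143 b6552)
  have c15555 := LP2 H i146 i150 i1 c3860 (Lsw H i1 i146 b6553) (Lsw H i1 i150 b6554)
  have c15556 := LP2 H i146 i151 i1 c3862 (Lsw H i1 i146 b6553) (Lsw H i1 i151 b6555)
  have c15582 := LP2 H i150 i151 i1 c3897 (Lsw H i1 i150 b6554) (Lsw H i1 i151 b6555)
  have q15627 : Rl [t71, t91, t97, t131, t286, 1] := LJ H i3 i6 i9 (Lsw H i6 i3 b128) b37 b160 b504 b524 b530 b1925 b6651 (k_one i18 i33 c4835.symm)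
  have q15628 : Rl [1, t71, t91, t97, t131, t286] := q15627.mv 5 rfl
  have q15629 : Rl [t71, t91, t97, t131, t286] := q15628.del1
  have q15630 : Rl [t234, t266, t300, 1, 1, 1] := LJ H i5 i8 i26 b43 b518 b1906 b6599 b6631 (Lsw H i18 i26 b6665) (k_one i18 i85 c1608) (k_one i18 i107 c5060.symm) (k_one i85 i107 c2326)
  have q15631 : Rl [1, t234, t266, t300, 1, 1] := q15630.mv 3 rfl
  have q15632 : Rl [t234, t266, t300, 1, 1] := q15631.del1
  have q15633 : Rl [1, t234, t266, t300, 1] := q15632.mv 3 rfl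
  have q15634 : Rl [t234, t266, t300, 1] := q15633.del1
  have q15635 : Rl [1, t234, t266, t300] := q15634.mv 3 rfl
  have q15636 : Rl [t234, t266, t300] := q15635.del1
  have c15637 : Commute t234 t266 := q15636.cm 0 1 rfl rfl
  have c15639 : Commute t266 t300 := q15636.cm 1 2 rfl rfl
  have q15663 : Rl [t33, t26, t32, t53, t63, t64] := q3954.mv 2 rfl
  have q15664 : Rl [t26, t33, t32, t53, t63, t64] := q15663.mv 1 rfl
  have e15665 := (Rl.l2 H i26 i33 i16 q15664 (.cons c398.symm (.cons c1731 (.cons c1152.symm (.cons c1799.symm .nil)))) (Lsw H i16 i26 b6659)).symm.trans (Lsw H i16 i33 b6661)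
  have m15666 : t294 = t296 := e15665
  subst m15666
  have q15667 : Rl [t32, t26, t33, t53, t63, t64] := q3954.mv 1 rfl
  have q15668 : Rl [t26, t32, t33, t53, t63, t64] := q15667.mv 1 rfl
  have b15669 := Rl.l2 H i26 i32 i18 q15668 (.cons c4835 (.cons c5434 (.cons c5726 (.cons c2403.symm .nil)))) (Lsw H i18 i26 b6665)
  have q15680 : Rl [t37, t28, t36, t55, t73, t72] := q3955.mv 1 rfl
  have q15681 : Rl [t28, t37, t36, t55, t73, t72] := q15680.mv 1 rfl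
  have b15682 := Rl.l2 H i28 i37 i16 q15681 (.cons c4854 (.cons c5707 (.cons c5981 (.cons c2578.symm .nil)))) (Lsw H i16 i28 b6660)
  have q15683 : Rl [t36, t28, t37, t55, t73, t72] := q3955.mv 2 rfl
  have q15684 : Rl [t28, t36, t37, t55, t73, t72] := q15683.mv 1 rfl
  have b15685 := Rl.l2 H i28 i36 i18 q15684 (.cons c391.symm (.cons c1739 (.cons c1124.symm (.cons c1797.symm .nil)))) (Lsw H i18 i28 b6666)
  have q15698 : Rl [t51, t31, t44, t60, t87] := q1652.mv 2 rfl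
  have b15699 := Rl.l2 H i51 i31 i23 q15698 (.cons c367.symm (.cons c1744 (.cons c1119.symm .nil))) (Lsw H i23 i51 b6677)
  have q15715 : Rl [t51, t35, t40, t69, t80] := q1655.mv 2 rfl
  have b15716 := Rl.l2 H i51 i35 i20 q15715 (.cons c373.symm (.cons c1743 (.cons c1146.symm .nil))) (Lsw H i20 i51 b6673)
  have q15731 : Rl [t58, t52, t54, t107, t110] := q4736.mv 2 rfl
  have q15732 : Rl [t52, t58, t54, t107, t110] := q15731.mv 1 rfl
  have e15733 := (Rl.l2 H i52 i58 i7 q15732 (.cons c1014.symm (.cons c2905.symm (.cons c2920.symm .nil))) (Lsw H i7 i52 b6619)).symm.trans (Lsw H i7 i58 b6621)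
  have m15734 : t254 = t256 := e15733
  subst m15734
  have q15740 : Rl [t96, t62, t71, t127, t131] := q5171.mv 2 rfl
  have q15741 : Rl [t62, t96, t71, t127, t131] := q15740.mv 1 rfl
  have b15742 := Rl.l2 H i62 i96 i7 q15741 (.cons c1780.symm (.cons c5384 (.cons c4400 .nil))) (Lsw H i7 i62 b6623)
  have q15749 : Rl [t97, t62, t84, t127, t151] := q5174.mv 2 rfl
  have q15750 : Rl [t84, t97, t62, t127, t151] := q15749.mv 2 rfl
  have b15751 := Rl.l2 H i84 i97 i6 q15750 (.cons c736.symm (.cons c3109 (.cons c2852 .nil))) (Lsw H i6 i84 b6616)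
  have q15752 : Rl [t97, t62, t84, t127, t151] := q5174.mv 2 rfl
  have q15753 : Rl [t62, t97, t84, t127, t151] := q15752.mv 1 rfl
  have e15754 := (Rl.l2 H i62 i97 i7 q15753 (.cons c698.symm (.cons c5384 (.cons c3038.symm .nil))) (Lsw H i7 i62 b6623)).symm.trans (Lsw H i7 i97 b6626)
  have m15755 : t258 = t261 := e15754
  subst m15755
  have q15756 : Rl [t97, t62, t84, t127, t151] := q5174.mv 2 rfl
  have b15757 := Rl.l2 H i97 i62 i11 q15756 (.cons c920.symm (.cons c5413 (.cons c3221.symm .nil))) (Lsw H i11 i97 b6645)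
  have q15769 : Rl [t100, t70, t77, t130, t143] := q5177.mv 2 rfl
  have b15770 := Rl.l2 H i100 i70 i6 q15769 (.cons c705.symm (.cons c5379 (.cons c2971.symm .nil))) (Lsw H i6 i100 b6618)
  have q15771 : Rl [t100, t70, t77, t130, t143] := q5177.mv 2 rfl
  have q15772 : Rl [t77, t100, t70, t130, t143] := q15771.mv 2 rfl
  have e15773 := (Rl.l2 H i77 i100 i7 q15772 (.cons c815.symm (.cons c3118 (.cons c2734 .nil))) (Lsw H i7 i77 b6624)).symm.trans (Lsw H i7 i100 b6627)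
  have m15774 : t259 = t262 := e15773
  subst m15774
  have q15783 : Rl [t97, t71, t91, t131, t286] := q15629.mv 2 rfl
  have q15784 : Rl [t71, t97, t91, t131, t286] := q15783.mv 1 rfl
  have e15785 := (Rl.l2 H i71 i97 i6 q15784 (.cons c618 (.cons c2580 (.cons c9717.symm .nil))) (Lsw H i6 i71 b6615)).symm.trans b15751
  have m15786 : t250 = t251 := e15785
  subst m15786
  have c15799 := q15629.l1 (.cons c1063.symm (.cons c1725.symm (.cons c3683 (.cons c11937.symm .nil))))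
  have q15808 : Rl [t91, t71, t97, t131, t286] := q15629.mv 1 rfl
  have c15809 := q15808.l1 (.cons c6230 (.cons c1726.symm (.cons c5110 (.cons c11949.symm .nil))))
  have b16050 := LP1 H i2 i1 i70 hab.symm b1869 (Lsw H i70 i1 b5309) (Lsw H i1 i122 b6549)
  have b16051 := LP1 H i1 i2 i71 hab b1858 (Lsw H i71 i2 b4189) b16050
  have b16052 := LP1 H i2 i1 i84 hab.symm (Lsw H i84 i2 b4186) b1861 b16051
  have b16055 := LP1 H i1 i3 i61 hac b1855 b1877 (Lsw H i3 i108 b6572)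
  have b16056 := LP1 H i1 i3 i62 hac b1856 b1878 (Lsw H i3 i108 b6572)
  have e16057 := (LP1 H i1 i3 i77 hac b1859 b1881 (Lsw H i3 i112 b6573)).symm.trans b16055
  have m16058 : t207 = t208 := e16057.symm
  subst m16058
  have e16061 := (LP1 H i1 i6 i44 c10.symm b490 b1901 (Lsw H i6 i57 b6614)).symm.trans (Lsw H i1 i154 b6557)
  have m16062 : t192 = t249 := e16061.symm
  subst m16062
  have b16066 := LP1 H i1 i7 i40 c12.symm b489 (Lsw H i40 i7 b4397) (Lsw H i7 i56 b6620)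
  have b16070 := LP1 H i12 i1 i16 c44 (Lsw H i16 i12 b4184) b139 (Lsw H i1 i122 b6549)
  have b16071 := LP1 H i13 i1 i18 c46 b1925 b141 b16056
  have b16072 := LP1 H i14 i1 i18 c48 b1927 b141 (Lsw H i1 i180 b6559)
  have b16074 := LP1 H i1 i25 i11 c166.symm b33 (Lsw H i11 i25 b1921) b6656
  have e16076 := (LP1 H i27 i1 i11 c170 (Lsw H i11 i27 b4340) b33 (Lsw H i1 i152 b6556)).symm.trans (Lsw H i27 i14 b16072)
  have m16077 : t191 = t194 := e16076
  subst m16077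
  have e16078 := (LP1 H i1 i52 i5 c540.symm b5 (Lsw H i5 i52 b1893) b6619).symm.trans (Lsw H i1 i146 b6553)
  have m16079 : t188 = t254 := e16078.symm
  subst m16079
  have b16080 := LP1 H i54 i1 i4 c544 (Lsw H i4 i54 b1887) b4 (Lsw H i1 i140 b6550)
  have b16081 := LP1 H i1 i56 i5 c548.symm b5 (Lsw H i5 i56 b1895) b6620
  have e16082 := (LP1 H i1 i57 i4 c550.symm b4 (Lsw H i4 i57 b1889) b6614).symm.trans (Lsw H i1 i142 b6551)
  have m16083 : t186 = t192 := e16082.symm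
  subst m16083
  have c16333 := Lck c11133 c8544.symm b4
  have c16425 := Lck c12492 c8588.symm b4
  have b16446 := LP1 H i2 i4 i54 hbd b1867 b1887 (Lsw H i4 i107 b6586)
  have e16447 := (LP1 H i2 i4 i57 hbd b1868 b1889 (Lsw H i4 i107 b6586)).symm.trans (Lsw H i2 i142 b6562)
  have m16448 : t197 = t221 := e16447.symm
  subst m16448
  have b16449 := LP1 H i4 i2 i71 hbd.symm b1891 (Lsw H i71 i2 b4189) (Lsw H i2 i144 b6563)
  have e16450 := (LP1 H i2 i4 i84 hbd (Lsw H i84 i2 b4186) b1892 b16449).symm.trans (Lsw H i2 i145 b6564)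
  have m16451 : t198 = t199 := e16450
  subst m16451
  have b16452 := LP1 H i2 i4 i97 hbd b1874 (Lsw H i97 i4 b4309) b16449
  have b16454 := LP1 H i6 i2 i35 c23.symm b1900 b493 (Lsw H i2 i153 b6569)
  have e16455 := (LP1 H i2 i6 i44 c23 b498 b1901 b16454).symm.trans (Lsw H i2 i154 b6570)
  have m16456 : t204 = t205 := e16455
  subst m16456
  have c16458 := Lco i185 i2 (LP1 H i2 i6 i54 c23 b1867 b16080 (k_one i107 i6 c2780.symm))
  have b16463 := LP1 H i2 i8 i85 c14.symm b1873 b6631 (Lsw H i8 i64 b6629)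
  have b16464 := LP1 H i9 i2 i28 c16 b1914 b492 (Lsw H i2 i167 b6571)
  have b16465 := LP1 H i2 i9 i36 c16.symm b494 (Lsw H i36 i9 b4395) (Lsw H i9 i61 b6634)
  have b16466 := LP1 H i2 i12 i19 c73 b145 b1923 (Lsw H i12 i31 b6646)
  have e16467 := (LP1 H i2 i16 i23 c52.symm b147 (Lsw H i23 i16 b4361) (Lsw H i16 i33 b6661)).symm.trans (Lsw H i2 i154 b6570)
  have m16468 : t204 = t294 := e16467.symm
  subst m16468
  have b16470 := LP1 H i17 i2 i13 c54 (Lsw H i13 i17 b1924) b144 b16452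
  have b16472 := LP1 H i2 i18 i20 c105.symm b146 b1929 b15669
  have b16476 := LP1 H i27 i2 i11 c226.symm (Lsw H i11 i27 b4340) b36 (Lsw H i2 i152 b6568)
  have b16480 := LP1 H i40 i2 i7 c268.symm b4397 b34 b16472
  have e16485 := (LP1 H i52 i2 i5 c654.symm (Lsw H i5 i52 b1893) b7 (Lsw H i2 i146 b6565)).symm.trans (Lsw H i52 i9 b16464)
  have m16486 : t200 = t206 := e16485
  subst m16486
  have e16487 := (LP1 H i2 i56 i5 c659 b7 (Lsw H i5 i56 b1895) b6632).symm.trans (Lsw H i2 i148 b6566)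
  have m16488 : t201 = t267 := e16487.symm
  subst m16488
  have b16490 := LP1 H i2 i61 i5 c558.symm b7 (Lsw H i5 i61 b1897) b6634
  have b16492 := LP1 H i2 i63 i3 c562.symm b6 (Lsw H i3 i63 b1879) b6628
  have e16493 := (LP1 H i2 i64 i3 c564.symm b6 (Lsw H i3 i64 b1880) b6629).symm.trans (Lsw H i2 i133 b6560)
  have m16494 : t195 = t264 := e16493.symm
  subst m16494
  have c16611 := Lck c7449.symm c10974.symm b6560
  have c16614 := Lck c7449.symm c13912.symm b6571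
  have b16763 := LP1 H i3 i5 i52 hce b1876 b1893 (Lsw H i5 i110 b6601)
  have e16764 := (LP1 H i3 i5 i56 hce (Lsw H i56 i3 b4085) b1895 (Lsw H i5 i110 b6601)).symm.trans (Lsw H i3 i148 b6580)
  have m16765 : t215 = t236 := e16764.symm
  subst m16765
  have b16766 := LP1 H i3 i5 i61 hce b1877 b1897 (Lsw H i5 i130 b6607)
  have e16767 := (LP1 H i3 i5 i77 hce b1881 b1899 (Lsw H i5 i130 b6607)).symm.trans (Lsw H i3 i152 b6581)
  have m16768 : t216 = t242 := e16767.symm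
  subst m16768
  have b16769 := LP1 H i3 i5 i100 hce b1886 (Lsw H i100 i5 b4336) (Lsw H i5 i130 b6607)
  have c16770 := Lco i188 i3 (LP1 H i3 i7 i52 c26 b1876 b6619 (k_one i110 i7 c2920.symm))
  have c16773 := Lco i258 i3 (LP1 H i3 i7 i62 c26 b1878 b6623 (k_one i131 i7 c4400))
  have b16775 := LP1 H i8 i3 i39 c15 b1911 b505 (Lsw H i3 i164 b6583)
  have b16776 := LP1 H i10 i3 i26 c18 b1917 b501 (Lsw H i3 i170 b6585)
  have e16777 := (LP1 H i3 i10 i33 c18.symm b504 (Lsw H i33 i10 b4360) (Lsw H i10 i71 b6640)).symm.trans (Lsw H i3 i155 b6582)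
  have m16778 : t217 = t275 := e16777.symm
  subst m16778
  have b16779 := LP1 H i3 i13 i17 c78 b149 b1924 (Lsw H i13 i35 b6652)
  have b16780 := LP1 H i3 i16 i23 c89.symm b151 (Lsw H i23 i16 b4361) b15682
  have b16784 := LP1 H i19 i3 i12 c58 (Lsw H i12 i19 b1923) (Lsw H i12 i3 b420) b16769
  have e16785 := (LP1 H i3 i25 i11 c233 b38 (Lsw H i11 i25 b1921) b6668).symm.trans (Lsw H i3 i145 b6579)
  have m16786 : t214 = t303 := e16785.symm
  subst m16786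
  have e16790 := (LP1 H i3 i28 i9 c236 b37 (Lsw H i9 i28 b1914) b6666).symm.trans (Lsw H i3 i167 b6584)
  have m16791 : t219 = t301 := e16790.symm
  subst m16791
  have e16795 := (LP1 H i3 i44 i6 c297 (Lsw H i6 i3 b128) (Lsw H i6 i44 b1901) b6654).symm.trans b16780
  have m16796 : t289 = t295 := e16795
  subst m16796
  have c16798 := Lco i293 i3 (LP1 H i3 i44 i14 c297 b148 (Lsw H i14 i44 b6658) (k_one i28 i44 c6074))
  have e16801 := (LP1 H i54 i3 i4 c669.symm (Lsw H i4 i54 b1887) b8 (Lsw H i3 i140 b6576)).symm.trans (Lsw H i54 i10 b16776)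
  have m16802 : t211 = t220 := e16801
  subst m16802
  have c16803 := Lco i185 i3 (LP1 H i3 i54 i6 c669 (Lsw H i6 i3 b128) (Lsw H i6 i54 b16080) (k_one i13 i54 c1149))
  have e16804 := (LP1 H i3 i57 i4 c673 b8 (Lsw H i4 i57 b1889) b6639).symm.trans (Lsw H i3 i142 b6578)
  have m16805 : t213 = t274 := e16804.symm
  subst m16805
  have b16809 := LP1 H i3 i71 i4 c578.symm b8 (Lsw H i4 i71 b1891) b6640
  have e16811 := (LP1 H i72 i3 i2 c580 (Lsw H i2 i72 b1870) (Lsw H i2 i3 b6) (Lsw H i3 i123 b6574)).symm.trans (Lsw H i72 i8 b16775)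
  have m16812 : t209 = t218 := e16811
  subst m16812
  have b16813 := LP1 H i3 i73 i2 c582.symm (Lsw H i2 i3 b6) (Lsw H i2 i73 b1871) b6630
  have b16814 := LP1 H i84 i3 i4 c800.symm (Lsw H i4 i84 b1892) b8 (Lsw H i3 i145 b6579)
  have b17034 := LP1 H i6 i4 i44 c11 b1901 b515 (Lsw H i4 i154 b6594)
  have e17035 := (LP1 H i4 i6 i51 c11.symm b516 b1902 b17034).symm.trans (Lsw H i4 i155 b6595)
  have m17036 : t229 = t230 := e17035
  subst m17036
  have b17039 := LP1 H i10 i4 i26 c19 b1917 b509 (Lsw H i4 i170 b6597)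
  have e17040 := (LP1 H i4 i10 i33 c19.symm b512 (Lsw H i33 i10 b4360) b17039).symm.trans (Lsw H i4 i155 b6595)
  have m17041 : t229 = t232 := e17040.symm
  subst m17041
  have e17044 := (LP1 H i4 i13 i12 c76.symm b152 (Lsw H i12 i13 b1922) (Lsw H i13 i32 b6650)).symm.trans (Lsw H i4 i118 b6589)
  have m17045 : t224 = t285 := e17044.symm
  subst m17045
  have b17046 := LP1 H i4 i13 i18 c76.symm b154 b1925 (Lsw H i13 i40 b6653)
  have b17050 := LP1 H i16 i4 i23 c95.symm (Lsw H i23 i16 b4361) b155 (Lsw H i4 i154 b6594)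
  have b17055 := LP1 H i4 i25 i7 c249.symm b39 (Lsw H i7 i25 b1903) b6671
  have c17057 := Lco i281 i4 (LP1 H i4 i31 i12 c269 b152 (Lsw H i12 i31 b6646) (k_one i32 i31 c1741.symm))
  have c17058 := Lco i300 i4 (LP1 H i4 i32 i18 c270 b154 b15669 (k_one i40 i32 c407.symm))
  have c17060 := Lco i219 i4 (LP1 H i4 i36 i18 c302.symm b154 b15685 (k_one i40 i36 c1672))
  have c17061 := LP3 H i4 i39 i8 c194.symm b40 (Lsw H i39 i16 b17050)
  have e17064 := (LP1 H i4 i60 i1 c1458.symm (Lsw H i1 i4 b4) (Lsw H i1 i60 b1854) (Lsw H i60 i6 b16454)).symm.trans (Lsw H i4 i107 b6586)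
  have m17065 : t197 = t204 := e17064.symm
  subst m17065
  have e17066 := (LP1 H i4 i61 i5 c726 b9 (Lsw H i5 i61 b1897) b6642).symm.trans (Lsw H i4 i150 b6592)
  have m17067 : t227 = t277 := e17066.symm
  subst m17067
  have c17069 := Lco i269 i4 (LP1 H i4 i61 i9 c726 b41 (Lsw H i9 i61 b6634) (k_one i17 i61 c1803))
  have c17070 := LP3 H i4 i63 i3 c728 (Lsw H i3 i4 b8) (Lsw H i63 i10 b17039)
  have c17071 := Lco i263 i4 (LP1 H i4 i63 i8 c728 b40 (Lsw H i8 i63 b6628) (k_one i16 i63 c1152))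
  have c17072 := Lco i195 i4 (LP1 H i4 i64 i8 c729 b40 (Lsw H i8 i64 b6629) (k_one i16 i64 c1799))
  have b17073 := LP1 H i69 i4 i1 c1421 (Lsw H i1 i69 b1857) (Lsw H i1 i4 b4) (Lsw H i4 i110 b6587)
  have c17074 := Lco i265 i4 (LP1 H i4 i73 i8 c1693.symm b40 (Lsw H i8 i73 b6630) (k_one i16 i73 c5981.symm))
  have c17075 := LP3 H i4 i80 i1 c596.symm (Lsw H i1 i4 b4) (Lsw H i80 i6 b17034)
  have b17076 := LP1 H i4 i85 i3 c1055.symm (Lsw H i3 i4 b8) (Lsw H i3 i85 b1883) b6641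
  have c17077 := Lco i266 i4 (LP1 H i4 i85 i8 c1055.symm b40 (Lsw H i8 i85 b6631) (k_one i16 i85 c5982.symm))
  have e17078 := (LP1 H i4 i87 i1 c985.symm (Lsw H i1 i4 b4) (Lsw H i1 i87 b1862) b6617).symm.trans (Lsw H i4 i115 b6588)
  have m17079 : t223 = t252 := e17078.symm
  subst m17079
  have c17083 := LP2 H i4 i182 i1 c3043.symm (Lsw H i1 i4 b4) b16066
  have c17096 := Lck c7141 c7325.symm b6589
  have c17099 := Lck c7168 c7326.symm b6589
  have c17108 := Lck c8996 c7327.symm b6589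
  have c17135 := Lck c8931 c8351.symm b6587
  have c17152 := Lck c8158 c14543.symm b6587
  have b17259 := LP1 H i5 i7 i40 c13.symm b522 (Lsw H i40 i7 b4397) (Lsw H i7 i87 b6625)
  have e17260 := (LP1 H i5 i7 i51 c13.symm b523 b1905 (Lsw H i7 i87 b6625)).symm.trans (Lsw H i5 i158 b6611)
  have m17261 : t246 = t260 := e17260.symm
  subst m17261
  have b17263 := LP1 H i9 i5 i36 c17 (Lsw H i36 i9 b4395) b521 (Lsw H i5 i158 b6611)
  have b17269 := LP1 H i5 i12 i13 c71.symm b156 b1922 (Lsw H i12 i37 b6647)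
  have b17270 := LP1 H i5 i12 i16 c71.symm b158 (Lsw H i16 i12 b4184) (Lsw H i12 i44 b6648)
  have c17271 := Lco i184 i5 (LP1 H i5 i12 i25 c71.symm b517 (Lsw H i25 i12 b16070) (k_one i84 i12 c5239))
  have e17280 := (LP1 H i5 i27 i6 c251.symm b42 (Lsw H i6 i27 b4099) b6674).symm.trans (Lsw H i5 i112 b6602)
  have m17281 : t237 = t309 := e17280.symm
  subst m17281
  have c17282 := Lco i207 i5 (LP1 H i5 i27 i13 c251.symm b156 b16071 (k_one i37 i27 c1716.symm))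
  have b17284 := LP1 H i33 i5 i10 c275 b4360 (Lsw H i10 i5 b136) (Lsw H i5 i155 b6610)
  have b17286 := LP1 H i5 i35 i6 c298 b42 (Lsw H i6 i35 b1900) b6675
  have c17287 := Lco i287 i5 (LP1 H i5 i35 i13 c298 b156 (Lsw H i13 i35 b6652) (k_one i37 i35 c1736.symm))
  have b17288 := LP1 H i39 i5 i8 c320 (Lsw H i8 i39 b1911) b43 (Lsw H i5 i164 b6612)
  have c17290 := Lco i293 i5 (LP1 H i5 i44 i14 c204.symm b157 (Lsw H i14 i44 b6658) (k_one i43 i44 c6292.symm))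
  have b17292 := LP1 H i55 i5 i2 c692 b4075 (Lsw H i2 i5 b7) (Lsw H i5 i108 b6600)
  have b17293 := LP1 H i60 i5 i1 c755 (Lsw H i1 i60 b1854) (Lsw H i1 i5 b5) (Lsw H i5 i107 b6599)
  have c17294 := Lco i263 i5 (LP1 H i5 i63 i8 c1700.symm b43 (Lsw H i8 i63 b6628) (k_one i18 i63 c5726.symm))
  have b17295 := LP1 H i69 i5 i1 c1486 (Lsw H i1 i69 b1857) (Lsw H i1 i5 b5) (Lsw H i5 i110 b6601)
  have c17296 := Lco i222 i5 (LP1 H i5 i69 i6 c1486.symm b42 (Lsw H i6 i69 b17073) (k_one i23 i69 c6062))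
  have b17297 := LP1 H i5 i71 i4 c804 (Lsw H i4 i5 b9) (Lsw H i4 i71 b1891) b6643
  have c17301 := Lco i209 i5 (LP1 H i5 i72 i8 c806 b43 b16775 (k_one i18 i72 c1797))
  have e17302 := (LP1 H i5 i73 i2 c807 (Lsw H i2 i5 b7) (Lsw H i2 i73 b1871) (Lsw H i73 i9 b17263)).symm.trans (Lsw H i5 i124 b6605)
  have m17303 : t240 = t246 := e17302.symm
  subst m17303
  have c17304 := Lco i265 i5 (LP1 H i5 i73 i8 c807 b43 (Lsw H i8 i73 b6630) (k_one i18 i73 c1124))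
  have e17305 := (LP1 H i5 i78 i2 c1033.symm (Lsw H i2 i5 b7) (Lsw H i2 i78 b1872) b6635).symm.trans (Lsw H i5 i125 b6606)
  have m17306 : t241 = t270 := e17305.symm
  subst m17306
  have b17307 := LP1 H i80 i5 i1 c897 (Lsw H i1 i80 b1860) (Lsw H i1 i5 b5) (Lsw H i5 i113 b6603)
  have b17309 := LP1 H i5 i87 i1 c610.symm (Lsw H i1 i5 b5) (Lsw H i1 i87 b1862) b6625
  have c17318 := Lck c7119 c14791.symm b6600
  have c17327 := Lck c9649 c7268.symm b6600
  have c17339 := Lck c9590 c7772.symm b6599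
  have c17364 := Lck c7616 c14590.symm b6599
  have c17370 := Lck c7642 c14591.symm b6599
  have c17411 := Lck c9633 c7396.symm b42
  have c17475 := Lck c7663 c17069 (Lsw H i4 i5 b9)
  have b17554 := LP1 H i10 i6 i12 c25.symm b533 (Lsw H i12 i6 b1343) (Lsw H i6 i100 b6618)
  have c17556 := Lco i250 i10 (LP1 H i10 i6 i84 c25.symm b16814 b6616 (k_one i214 i6 c16425))
  have e17557 := (LP1 H i6 i13 i9 c81 b160 (Lsw H i9 i13 b530) (Lsw H i13 i33 b6651)).symm.trans b15751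
  have m17558 : t250 = t286 := e17557.symm
  subst m17558
  have b17566 := LP1 H i26 i6 i3 c336.symm (Lsw H i3 i26 b501) b128 (Lsw H i6 i54 b16080)
  have e17569 := (LP1 H i6 i32 i3 c280 b128 (Lsw H i3 i32 b503) b6650).symm.trans b15770
  have m17570 : t224 = t253 := e17569
  subst m17570
  have c17580 := Lco i240 i6 (LP1 H i6 i115 i5 c2823 (Lsw H i5 i6 b42) b17309 (k_one i23 i115 c3620.symm))
  have c17588 := Lck c6974.symm c15224 (Lsw H i97 i6 b15751)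
  have c17592 := Lck c6976.symm c14903 b6615
  have e17690 := (LP1 H i7 i9 i13 c24 b1346 b530 (Lsw H i9 i55 b17292)).symm.trans (Lsw H i7 i97 b6626)
  have m17691 : t235 = t258 := e17690
  subst m17691
  have e17692 := (LP1 H i7 i9 i16 c24 b526 (Lsw H i16 i9 b1385) (Lsw H i9 i93 b6636)).symm.trans (Lsw H i7 i60 b17293)
  have m17693 : t234 = t271 := e17692.symm
  subst m17693
  have b17695 := LP1 H i12 i7 i10 c83.symm (Lsw H i10 i12 b533) b163 (Lsw H i7 i100 b6627)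
  have e17697 := (LP1 H i14 i7 i8 c119.symm b1344 b162 (Lsw H i7 i58 b6621)).symm.trans b16072
  have m17698 : t188 = t191 := e17697
  subst m17698
  have e17701 := (LP1 H i7 i18 i10 c112 b163 b1420 b15685).symm.trans (Lsw H i7 i69 b17295)
  have m17702 : t215 = t219 := e17701.symm
  subst m17702
  have e17704 := (LP1 H i7 i23 i8 c80 b162 (Lsw H i8 i23 b529) (Lsw H i23 i27 b6674)).symm.trans b15742
  have m17705 : t235 = t237 := e17704.symm
  subst m17705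
  have b17709 := LP1 H i28 i7 i2 c358.symm (Lsw H i2 i28 b492) (Lsw H i2 i7 b34) (Lsw H i7 i52 b6619)
  have e17710 := (LP1 H i7 i36 i2 c306 (Lsw H i2 i7 b34) (Lsw H i2 i36 b494) (Lsw H i36 i12 b17695)).symm.trans (Lsw H i7 i61 b6622)
  have m17711 : t257 = t259 := e17710.symm
  subst m17711
  have e17712 := (LP1 H i7 i37 i2 c307 (Lsw H i2 i7 b34) (Lsw H i2 i37 b495) b6647).symm.trans (Lsw H i7 i62 b6623)
  have m17713 : t235 = t282 := e17712.symm
  subst m17713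
  have c17717 := Lco i250 i7 (LP1 H i7 i71 i6 c1780 (Lsw H i6 i7 b423) (Lsw H i6 i71 b6615) (k_one i29 i71 c15799.symm))
  have c17721 := Lco i29 i84 (LP1 H i84 i7 i6 c698.symm (Lsw H i6 i84 b6616) (Lsw H i6 i7 b423) (k_one i250 i7 c17717))
  have c17734 := Lck c9644.symm c15241 b6626
  have c17735 := Lck c9644.symm c15294 b6627
  have c17738 := Lck c6993.symm c14753 b6622
  have b17816 := LP1 H i9 i8 i26 c29.symm b1913 b1906 (Lsw H i8 i64 b6629)
  have b17817 := LP1 H i9 i8 i32 c29.symm b1915 b1907 (Lsw H i8 i64 b6629)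
  have b17820 := LP1 H i10 i8 i28 c27.symm b1919 (Lsw H i28 i8 b4091) b16775
  have b17821 := LP1 H i10 i8 i37 c27.symm b1920 b1910 b16775
  have b17825 := LP1 H i12 i8 i17 c86.symm (Lsw H i17 i12 b3222) (Lsw H i17 i8 b1384) (Lsw H i8 i64 b6629)
  have b17826 := LP1 H i13 i8 i19 c87.symm b1926 (Lsw H i19 i8 b1419) b16775
  have c17827 := Lco i185 i8 (LP1 H i8 i13 i26 c87 b1906 b17566 (k_one i107 i13 c3318.symm))
  have c17957 := Lck c10437.symm c10864.symm b6631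
  have c17967 := Lck c10443.symm c10836.symm b6629
  have e18019 := (LP1 H i9 i11 i13 c28 b530 b537 (Lsw H i11 i97 b6645)).symm.trans (Lsw H i9 i78 b6635)
  have m18020 : t241 = t280 := e18019.symm
  subst m18020
  have e18021 := (LP1 H i9 i12 i10 c45.symm b165 (Lsw H i10 i12 b533) (Lsw H i12 i51 b6649)).symm.trans (Lsw H i9 i100 b6637)
  have m18022 : t272 = t284 := e18021.symm
  subst m18022
  have e18023 := (LP1 H i9 i23 i10 c97 b165 (Lsw H i10 i23 b535) (Lsw H i23 i51 b6677)).symm.trans (Lsw H i9 i78 b6635)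
  have m18024 : t241 = t312 := e18023.symm
  subst m18024
  have e18026 := (LP1 H i9 i29 i3 c1701 (Lsw H i3 i9 b37) b1342 b6667).symm.trans (Lsw H i9 i55 b17292)
  have m18027 : t235 = t302 := e18026.symm
  subst m18027
  have e18028 := (LP1 H i9 i31 i1 c359 (Lsw H i1 i9 b31) (Lsw H i1 i31 b485) b6646).symm.trans b16464
  have m18029 : t200 = t281 := e18028.symm
  subst m18029
  have e18033 := (LP1 H i9 i40 i1 c1584 (Lsw H i1 i9 b31) (Lsw H i1 i40 b489) b16480).symm.trans (Lsw H i9 i56 b6632)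
  have m18034 : t201 = t300 := e18033.symm
  subst m18034
  have e18038 := (LP1 H i9 i44 i1 c288 (Lsw H i1 i9 b31) (Lsw H i1 i44 b490) b6648).symm.trans (Lsw H i9 i57 b6633)
  have m18039 : t268 = t283 := e18038.symm
  subst m18039
  have c18158 := Lck c11016 c13944 b1914
  have b18226 := LP1 H i11 i10 i12 c30.symm b536 b533 (Lsw H i10 i85 b6641)
  have b18227 := LP1 H i10 i13 i9 c47.symm (Lsw H i9 i10 b165) (Lsw H i9 i13 b530) (Lsw H i13 i51 b6655)
  have c18229 := Lco i155 i13 (LP1 H i13 i10 i33 c47 b6651 (Lsw H i33 i10 b4360) (k_one i250 i10 c17556))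
  have e18230 := (LP1 H i10 i20 i9 c111 (Lsw H i9 i10 b165) b1505 (Lsw H i20 i51 b6673)).symm.trans (Lsw H i10 i85 b6641)
  have m18231 : t276 = t308 := e18230.symm
  subst m18231
  have b18233 := LP1 H i29 i10 i2 c1694.symm b1339 (Lsw H i2 i10 b35) b17554
  have b18234 := LP1 H i31 i10 i1 c1596.symm (Lsw H i1 i31 b485) (Lsw H i1 i10 b32) (Lsw H i10 i52 b6638)
  have e18236 := (LP1 H i10 i35 i1 c337 (Lsw H i1 i10 b32) (Lsw H i1 i35 b487) b6652).symm.trans b16776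
  have m18237 : t211 = t287 := e18236.symm
  subst m18237
  have c18239 := LP3 H i10 i39 i2 c364 (Lsw H i2 i10 b35) (Lsw H i39 i16 b17050)
  have b18240 := LP1 H i10 i40 i1 c315 (Lsw H i1 i10 b32) (Lsw H i1 i40 b489) b6653
  have b18244 := LP1 H i10 i43 i2 c1697 (Lsw H i2 i10 b35) (Lsw H i2 i43 b497) b6662
  have e18245 := (LP1 H i10 i44 i1 c1593 (Lsw H i1 i10 b32) (Lsw H i1 i44 b490) b6654).symm.trans (Lsw H i10 i57 b6639)
  have m18246 : t213 = t289 := e18245.symm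
  subst m18246
  have c18354 := Lck c11258 c13856 b1917
  have c18390 := Lck c11090.symm c12017.symm b6640
  have b18395 := LP1 H i23 i11 i8 c115.symm (Lsw H i8 i23 b529) (Lsw H i8 i11 b164) (Lsw H i11 i96 b6644)
  have b18396 := LP1 H i11 i26 i3 c222.symm (Lsw H i3 i11 b38) (Lsw H i3 i26 b501) b6669
  have c18397 := Lco i85 i28 (LP1 H i28 i11 i12 c231 (Lsw H i12 i28 b17709) b536 (k_one i188 i11 c7067))
  have c18400 := Lco i200 i11 (LP1 H i11 i31 i12 c1597 b536 (Lsw H i12 i31 b6646) (k_one i85 i31 c1769.symm))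
  have b18402 := LP1 H i11 i32 i3 c402.symm (Lsw H i3 i11 b38) (Lsw H i3 i32 b503) b6670
  have e18405 := (LP1 H i33 i11 i3 c1703.symm (Lsw H i3 i33 b504) (Lsw H i3 i11 b38) (Lsw H i11 i71 b6643)).symm.trans b17284
  have m18406 : t245 = t278 := e18405.symm
  subst m18406
  have b18407 := LP1 H i35 i11 i1 c1601.symm (Lsw H i1 i35 b487) (Lsw H i1 i11 b33) b18396
  have c18408 := Lco i211 i11 (LP1 H i11 i35 i13 c1601 b537 (Lsw H i13 i35 b6652) (k_one i78 i35 c1768.symm))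
  have e18409 := (LP1 H i11 i36 i2 c1696 (Lsw H i2 i11 b36) (Lsw H i2 i36 b494) b6663).symm.trans (Lsw H i11 i61 b6642)
  have m18410 : t227 = t298 := e18409.symm
  subst m18410
  have e18411 := (LP1 H i11 i37 i2 c405.symm (Lsw H i2 i11 b36) (Lsw H i2 i37 b495) b6664).symm.trans b15757
  have m18412 : t241 = t299 := e18411.symm
  subst m18412
  have c18413 := Lco i85 i37 (LP1 H i37 i11 i12 c405 (Lsw H i12 i37 b6647) b536 (k_one i235 i11 c8895.symm))
  have b18415 := LP1 H i11 i40 i1 c357 (Lsw H i1 i11 b33) (Lsw H i1 i40 b489) b6657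
  have c18426 := Lco i17 i167 (LP1 H i167 i11 i2 c3220.symm (Lsw H i2 i167 b6571) (Lsw H i2 i11 b36) (k_one i200 i11 c18400))
  have c18427 := Lco i19 i170 (LP1 H i170 i11 i3 c3287.symm (Lsw H i3 i170 b6585) (Lsw H i3 i11 b38) (k_one i211 i11 c18408))
  have e18608 := (LP1 H i13 i14 i2 c124 (Lsw H i2 i13 b144) b419 (Lsw H i14 i25 b6656)).symm.trans (Lsw H i13 i26 b17566)
  have m18609 : t185 = t291 := e18608.symm
  subst m18609
  have e18613 := (LP1 H i13 i20 i2 c1662.symm (Lsw H i2 i13 b144) (Lsw H i2 i20 b146) (Lsw H i20 i25 b6671)).symm.trans (Lsw H i13 i32 b6650)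
  have m18614 : t224 = t306 := e18613.symm
  subst m18614
  have c18667 := Lck c7989.symm c14481 b6655
  have c18678 := Lck c8548.symm c14476 b6655
  have b18768 := LP1 H i17 i14 i3 c75.symm (Lsw H i3 i17 b149) (Lsw H i3 i14 b148) (Lsw H i14 i35 b18407)
  have c18782 := Lco i85 i55 (LP1 H i55 i14 i9 c1173.symm (Lsw H i9 i55 b17292) (Lsw H i9 i14 b531) (k_one i235 i14 c11600.symm))
  have c18786 := Lco i136 i14 (LP1 H i14 i85 i3 c1206.symm (Lsw H i3 i14 b148) (Lsw H i3 i85 b1883) (k_one i28 i85 c18397.symm))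
  have e18899 := (LP1 H i17 i16 i1 c125.symm (Lsw H i1 i17 b140) (Lsw H i1 i16 b139) (Lsw H i16 i26 b6659)).symm.trans b16470
  have m18900 : t197 = t198 := e18899
  subst m18900
  have e18904 := (LP1 H i16 i19 i1 c1590.symm (Lsw H i1 i16 b139) (Lsw H i1 i19 b142) (Lsw H i19 i25 b6668)).symm.trans (Lsw H i16 i28 b6660)
  have m18905 : t213 = t214 := e18904.symm
  subst m18905
  have e18962 := (LP1 H i17 i18 i1 c1583 (Lsw H i1 i17 b140) (Lsw H i1 i18 b141) (Lsw H i18 i26 b6665)).symm.trans (Lsw H i17 i27 b16476)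
  have m18963 : t201 = t203 := e18962
  subst m18963
  have e18965 := (LP1 H i17 i20 i3 c120.symm (Lsw H i3 i17 b149) (Lsw H i3 i20 b150) b15716).symm.trans (Lsw H i17 i36 b6663)
  have m18966 : t227 = t276 := e18965.symm
  subst m18966
  have e18967 := (LP1 H i17 i23 i3 c1664.symm (Lsw H i3 i17 b149) (Lsw H i3 i23 b151) (Lsw H i23 i35 b6675)).symm.trans (Lsw H i17 i37 b6664)
  have m18968 : t241 = t310 := e18967.symm
  subst m18968
  have c18969 := Lco i80 i57 (LP1 H i57 i17 i10 c5990 (Lsw H i10 i57 b6639) (Lsw H i10 i17 b534) (k_one i213 i17 c12785))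
  have e19002 := (LP1 H i19 i18 i1 c123.symm (Lsw H i1 i19 b142) (Lsw H i1 i18 b141) (Lsw H i18 i28 b6666)).symm.trans b16784
  have m19003 : t215 = t216 := e19002
  subst m19003
  have b19035 := LP1 H i20 i19 i2 c1666 (Lsw H i2 i20 b146) (Lsw H i2 i19 b145) (Lsw H i19 i32 b6670)
  have e19036 := (LP1 H i19 i23 i2 c138.symm (Lsw H i2 i19 b145) (Lsw H i2 i23 b147) b15699).symm.trans (Lsw H i19 i33 b17284)
  have m19037 : t241 = t245 := e19036
  subst m19037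
  have c19039 := Lco i87 i56 (LP1 H i56 i19 i9 c6201 (Lsw H i9 i56 b6632) (Lsw H i9 i19 b532) (k_one i201 i19 c13382))
  have c19149 := Lco i136 i23 (LP1 H i23 i85 i3 c1045 (Lsw H i3 i23 b151) (Lsw H i3 i85 b1883) (k_one i37 i85 c18413.symm))
  have c19150 := Lco i141 i23 (LP1 H i23 i91 i4 c986 (Lsw H i4 i23 b155) b5348 (k_one i39 i91 c15809.symm))
  have c19154 := Lco i39 i149 (LP1 H i149 i23 i4 c4943.symm (Lsw H i4 i149 b6591) (Lsw H i4 i23 b155) (k_one i226 i23 c17411))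
  have c19298 := Lco i136 i29 (LP1 H i29 i85 i3 c1005 b1342 (Lsw H i3 i85 b1883) (k_one i55 i85 c18782.symm))
  have c19432 := Lck c14311 c17580 (Lsw H i6 i40 b4316)
  have c19435 := Lck c6980 c17083.symm (Lsw H i6 i40 b4316)
  have c19538 := Lco i111 i144 (LP1 H i144 i53 i3 c2773.symm b16809 b4084 (k_one i217 i53 c14570))
  have c19769 := Lco i152 i112 (LP1 H i112 i77 i5 c1942 (Lsw H i5 i112 b6602) (Lsw H i5 i77 b1899) (k_one i235 i77 c11691.symm))
  have c19787 := Lco i145 i114 (LP1 H i114 i84 i4 c1946 b17055 (Lsw H i4 i84 b1892) (k_one i224 i84 c15023))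
  have c19821 := Lck c8357.symm c8238 (Lsw H i4 i110 b6587)
  have c19944 := Lco i248 i153 (LP1 H i153 i170 i5 c4386.symm b17286 (Lsw H i5 i170 b6613) (k_one i241 i170 c18354))
  have q19960 : Rl [t113, t140, t153, t185, t229, 1] := LJ H i1 i4 i35 b4 b487 b513 b1860 b1887 (Lsw H i6 i35 b1900) b16080 (Lsw H i80 i6 b17034) (k_one i54 i80 c4264.symm)
  have q19961 : Rl [1, t113, t140, t153, t185, t229] := q19960.mv 5 rfl
  have q19962 : Rl [t113, t140, t153, t185, t229] := q19961.del1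
  have q19963 : Rl [t113, t142, t154, t186, t229, 1] := LJ H i1 i4 i44 b4 b490 b515 b1860 b1889 (Lsw H i6 i44 b1901) b6614 (Lsw H i80 i6 b17034) (k_one i57 i80 c18969.symm)
  have q19964 : Rl [1, t113, t142, t154, t186, t229] := q19963.mv 5 rfl
  have q19965 : Rl [t113, t142, t154, t186, t229] := q19964.del1
  have q19966 : Rl [t115, t148, t182, t255, t240, 1] := LJ H i1 i5 i40 b5 b489 b522 b1862 b1895 b4397 b6620 b6625 (k_one i56 i87 c19039.symm)
  have q19967 : Rl [1, t115, t148, t182, t255, t240] := q19966.mv 5 rfl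
  have q19968 : Rl [t115, t148, t182, t255, t240] := q19967.del1
  have q19982 : Rl [t123, t132, t164, t263, t209, 1] := LJ H i2 i3 i39 b6 b496 b505 b1870 b1879 (Lsw H i8 i39 b1911) b6628 (Lsw H i72 i8 b16775) (k_one i63 i72 c6336.symm)
  have q19983 : Rl [1, t123, t132, t164, t263, t209] := q19982.mv 5 rfl
  have q19984 : Rl [t123, t132, t164, t263, t209] := q19983.del1
  have q19985 : Rl [t124, t146, t167, t200, t240, 1] := LJ H i2 i5 i28 b7 b492 b519 b1871 b1893 (Lsw H i9 i28 b1914) (Lsw H i52 i9 b16464) (Lsw H i73 i9 b17263) (k_one i52 i73 c4821.symm)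
  have q19986 : Rl [1, t124, t146, t167, t200, t240] := q19985.mv 5 rfl
  have q19987 : Rl [t124, t146, t167, t200, t240] := q19986.del1
  have q19988 : Rl [t124, t150, t158, t269, t240, 1] := LJ H i2 i5 i36 b7 b494 b521 b1871 b1897 b4395 b6634 (Lsw H i73 i9 b17263) (k_one i61 i73 c6245.symm)
  have q19989 : Rl [1, t124, t150, t158, t269, t240] := q19988.mv 5 rfl
  have q19990 : Rl [t124, t150, t158, t269, t240] := q19989.del1
  have q19991 : Rl [t202, t234, t268, t195, 1, 1] := LJ H i2 i5 i57 b7 b1868 b1896 b6567 b6599 (Lsw H i9 i57 b6633) (Lsw H i107 i9 b17816) (k_one i9 i149 c4942) (k_one i107 i149 c4164.symm)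
  have q19992 : Rl [1, t202, t234, t268, t195, 1] := q19991.mv 4 rfl
  have q19993 : Rl [t202, t234, t268, t195, 1] := q19992.del1
  have q19994 : Rl [1, t202, t234, t268, t195] := q19993.mv 4 rfl
  have q19995 : Rl [t202, t234, t268, t195] := q19994.del1
  have q19996 : Rl [t200, t268, t272, t195, 1, 1] := LJ H i2 i5 i100 b7 b1875 (Lsw H i100 i5 b4336) (Lsw H i176 i2 b16466) (Lsw H i122 i5 b17270) (Lsw H i9 i100 b6637) (Lsw H i122 i9 b17817) (k_one i9 i176 c4447.symm) (k_one i122 i176 c4516)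
  have q19997 : Rl [1, t200, t268, t272, t195, 1] := q19996.mv 4 rfl
  have q19998 : Rl [t200, t268, t272, t195, 1] := q19997.del1
  have q19999 : Rl [1, t200, t268, t272, t195] := q19998.mv 4 rfl
  have q20000 : Rl [t200, t268, t272, t195] := q19999.del1
  have q20004 : Rl [t132, t140, t170, t211, t229, 1] := LJ H i3 i4 i26 b8 b501 b509 b1879 b1887 (Lsw H i10 i26 b1917) (Lsw H i54 i10 b16776) (Lsw H i63 i10 b17039) (k_one i54 i63 c4817.symm)
  have q20005 : Rl [1, t132, t140, t170, t211, t229] := q20004.mv 5 rfl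
  have q20006 : Rl [t132, t140, t170, t211, t229] := q20005.del1
  have q20007 : Rl [t132, t144, t155, t217, t229, 1] := LJ H i3 i4 i33 b8 b504 b512 b1879 b1891 b4360 b6640 (Lsw H i63 i10 b17039) (k_one i71 i63 c6275.symm)
  have q20008 : Rl [1, t132, t144, t155, t217, t229] := q20007.mv 5 rfl
  have q20009 : Rl [t132, t144, t155, t217, t229] := q20008.del1
  have q20010 : Rl [t210, t222, t273, t209, 1, 1] := LJ H i3 i4 i52 b8 b1876 (Lsw H i52 i4 b4178) b6575 b6587 (Lsw H i10 i52 b6638) (Lsw H i110 i10 b17820) (k_one i10 i125 c3330.symm) (k_one i110 i125 c4127.symm)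
  have q20011 : Rl [1, t210, t222, t273, t209, 1] := q20010.mv 4 rfl
  have q20012 : Rl [t210, t222, t273, t209, 1] := q20011.del1
  have q20013 : Rl [1, t210, t222, t273, t209] := q20012.mv 4 rfl
  have q20014 : Rl [t210, t222, t273, t209] := q20013.del1
  have q20015 : Rl [t212, t222, t288, t209, 1, 1] := LJ H i3 i4 i56 b8 (Lsw H i56 i3 b4085) b1888 b6577 b6587 b18240 (Lsw H i110 i10 b17820) (k_one i10 i141 c4906) (k_one i110 i141 c4157.symm)
  have q20016 : Rl [1, t212, t222, t288, t209, 1] := q20015.mv 4 rfl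
  have q20017 : Rl [t212, t222, t288, t209, 1] := q20016.del1
  have q20018 : Rl [1, t212, t222, t288, t209] := q20017.mv 4 rfl
  have q20019 : Rl [t212, t222, t288, t209] := q20018.del1
  have q20020 : Rl [t211, t288, t290, t209, 1, 1] := LJ H i3 i4 i97 b8 b1885 (Lsw H i97 i4 b4309) (Lsw H i177 i3 b16779) (Lsw H i131 i4 b17046) b18227 (Lsw H i131 i10 b17821) (k_one i10 i177 c4481.symm) (k_one i131 i177 c3508.symm)
  have q20021 : Rl [1, t211, t288, t290, t209, 1] := q20020.mv 4 rfl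
  have q20022 : Rl [t211, t288, t290, t209, 1] := q20021.del1
  have q20023 : Rl [1, t211, t288, t290, t209] := q20022.mv 4 rfl
  have q20024 : Rl [t211, t288, t290, t209] := q20023.del1
  have q20025 : Rl [t217, t222, t290, t209, 1, 1] := LJ H i3 i6 i51 (Lsw H i6 i3 b128) b508 b1902 b6582 b17073 (Lsw H i13 i51 b6655) (Lsw H i69 i13 b17826) (k_one i13 i155 c18229.symm) (k_one i69 i155 c5435)
  have q20026 : Rl [1, t217, t222, t290, t209, 1] := q20025.mv 4 rfl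
  have q20027 : Rl [t217, t222, t290, t209, 1] := q20026.del1
  have q20028 : Rl [1, t217, t222, t290, t209] := q20027.mv 4 rfl
  have q20029 : Rl [t217, t222, t290, t209] := q20028.del1
  have q20030 : Rl [t136, t167, t180, t215, 1, 1] := LJ H i3 i9 i14 b37 b148 b531 b1883 b1914 b1927 b6666 (k_one i18 i85 c1608) (k_one i28 i85 c18397.symm)
  have q20031 : Rl [1, t136, t167, t180, t215, 1] := q20030.mv 4 rfl
  have q20032 : Rl [t136, t167, t180, t215, 1] := q20031.del1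
  have q20033 : Rl [1, t136, t167, t180, t215] := q20032.mv 4 rfl
  have q20034 : Rl [t136, t167, t180, t215] := q20033.del1
  have q20035 : Rl [t228, t247, t311, 1, 1, 1] := LJ H i4 i18 i23 b154 b155 b1930 b6593 b17288 b6676 (k_one i40 i39 c6450) (k_one i40 i151 c4788) (k_one i39 i151 c3251)
  have q20036 : Rl [1, t228, t247, t311, 1, 1] := q20035.mv 3 rfl
  have q20037 : Rl [t228, t247, t311, 1, 1] := q20036.del1
  have q20038 : Rl [1, t228, t247, t311, 1] := q20037.mv 3 rfl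
  have q20039 : Rl [t228, t247, t311, 1] := q20038.del1
  have q20040 : Rl [1, t228, t247, t311] := q20039.mv 3 rfl
  have q20041 : Rl [t228, t247, t311] := q20040.del1
  have q20046 : Rl [t243, t223, t311, 1, 1, 1] := LJ H i5 i6 i40 b42 b522 b4316 b6608 b6617 (Lsw H i23 i40 b6676) (k_one i23 i87 c1119) (k_one i23 i141 c19150.symm) (k_one i87 i141 c5655)
  have q20047 : Rl [1, t243, t223, t311, 1, 1] := q20046.mv 3 rfl
  have q20048 : Rl [t243, t223, t311, 1, 1] := q20047.del1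
  have q20049 : Rl [1, t243, t223, t311, 1] := q20048.mv 3 rfl
  have q20050 : Rl [t243, t223, t311, 1] := q20049.del1
  have q20051 : Rl [1, t243, t223, t311] := q20050.mv 3 rfl
  have q20052 : Rl [t243, t223, t311] := q20051.del1
  have q20053 : Rl [t268, t266, t201, 1, 1, 1] := LJ H i5 i8 i32 b43 (Lsw H i32 i5 b1478) b1907 (Lsw H i122 i5 b17270) b6631 b15669 (k_one i18 i85 c1608) (k_one i18 i122 c5024) (k_one i85 i122 c4957.symm)
  have q20054 : Rl [1, t268, t266, t201, 1, 1] := q20053.mv 3 rfl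
  have q20055 : Rl [t268, t266, t201, 1, 1] := q20054.del1
  have q20056 : Rl [1, t268, t266, t201, 1] := q20055.mv 3 rfl
  have q20057 : Rl [t268, t266, t201, 1] := q20056.del1
  have q20058 : Rl [1, t268, t266, t201] := q20057.mv 3 rfl
  have q20059 : Rl [t268, t266, t201] := q20058.del1
  have q20062 : Rl [t20, t14, t23, t29, t39, t43] := q461.mv 1 rfl
  have c20063 := q20062.l1 (.cons c18786.symm (.cons c19149.symm (.cons c19298.symm (.cons c5367 (.cons c3815.symm .nil)))))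
  have q20067 : Rl [t20, t14, t23, t29, t39, t43] := q461.mv 1 rfl
  have c20068 := q20067.l1 (.cons c6382.symm (.cons c4943 (.cons c2872 (.cons c19154 (.cons c3475 .nil)))))
  have q20092 : Rl [t36, t28, t37, t55, t73, t72] := q3955.mv 2 rfl
  have c20093 := q20092.l1 (.cons c18397.symm (.cons c18413.symm (.cons c18782.symm (.cons c1735.symm (.cons c5505 .nil)))))
  have q20097 : Rl [t50, t31, t35, t60, t69] := q1649.mv 2 rfl
  have q20098 : Rl [t35, t50, t31, t60, t69] := q20097.mv 2 rfl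
  have q20099 : Rl [t31, t35, t50, t60, t69] := q20098.mv 2 rfl
  have q20100 : Rl [t241, t241, t279, 1] := Rl.l3 H i31 i35 i50 i23 q20099 (.cons c1744 (.cons c6062.symm .nil)) b15699 (Lsw H i23 i35 b6675) b18395 (k_one i241 i35 c9235.symm)
  have q20101 : Rl [1, t241, t241, t279] := q20100.mv 3 rfl
  have q20102 : Rl [t241, t241, t279] := q20101.del1
  have q20103 : Rl [t241, t241, t279] := q20102.mv 1 rfl
  have q20104 : Rl [t241, t241, t279] := q20103.mv 1 rfl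
  have q20105 : Rl [t279] := q20104.del2
  have e20106 := q20105.one
  have m20107 : 1 = t279 := e20106.symm
  subst m20107
  have c20109 := Lco i50 i23 b18395
  have q20134 : Rl [t80, t40, t44, t50, t87] := q1658.mv 3 rfl
  have q20135 : Rl [t40, t80, t44, t50, t87] := q20134.mv 1 rfl
  have b20136 := Rl.l2 H i40 i80 i23 q20135 (.cons c367.symm (.cons c20109 (.cons c1119.symm .nil))) (Lsw H i23 i40 b6676)
  have q20205 : Rl [t100, t70, t77, t130, t143] := q5177.mv 2 rfl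
  have q20206 : Rl [t70, t100, t77, t130, t143] := q20205.mv 1 rfl
  have e20207 := (Rl.l2 H i70 i100 i11 q20206 (.cons c1002.symm (.cons c5412 (.cons c4503 .nil))) b18402).symm.trans b18226
  have m20208 : t227 = t305 := e20207.symm
  subst m20208
  have q20301 : Rl [t154, t113, t142, t186, t229] := q19965.mv 2 rfl
  have b20302 := Rl.l2 H i154 i113 i4 q20301 (.cons c2001 (.cons c7168 (.cons c6768 .nil))) (Lsw H i4 i154 b6594)
  have q20380 : Rl [t148, t115, t182, t255, t240] := q19968.mv 1 rfl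
  have c20381 := q20380.l1 (.cons c5901.symm (.cons c4889 (.cons c19435 (.cons c19432 .nil))))
  have q20466 : Rl [t164, t123, t132, t263, t209] := q19984.mv 2 rfl
  have q20467 : Rl [t123, t164, t132, t263, t209] := q20466.mv 1 rfl
  have e20468 := (Rl.l2 H i123 i164 i5 q20467 (.cons c2522.symm (.cons c17294 (.cons c17301 .nil))) (Lsw H i5 i123 b6604)).symm.trans (Lsw H i5 i164 b6612)
  have m20469 : t239 = t247 := e20468
  subst m20469
  have c20536 := q19990.l1 (.cons c2786.symm (.cons c3356 (.cons c17475 (.cons c8943.symm .nil))))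
  have q20537 : Rl [t158, t124, t150, t269, t240] := q19990.mv 2 rfl
  have c20538 := q20537.l1 (.cons c3098.symm (.cons c2844.symm (.cons c10717.symm (.cons c9108.symm .nil))))
  have q20576 : Rl [t170, t132, t140, t211, t229] := q20006.mv 2 rfl
  have b20577 := Rl.l2 H i170 i132 i4 q20576 (.cons c1997 (.cons c8158 (.cons c6768 .nil))) (Lsw H i4 i170 b6597)
  have c20578 := q20006.l1 (.cons c2257.symm (.cons c2960.symm (.cons c9952 (.cons c8513.symm .nil))))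
  have c20596 := q20009.l1 (.cons c2926.symm (.cons c3355 (.cons c11585 (.cons c9678.symm .nil))))
  have q20619 : Rl [t180, t136, t167, t215] := q20034.mv 2 rfl
  have q20620 : Rl [t167, t180, t136, t215] := q20619.mv 2 rfl
  have q20621 : Rl [t136, t167, t180, t215] := q20620.mv 2 rfl
  have q20622 : Rl [t227, t231, t233, 1] := Rl.l3 H i136 i167 i180 i4 q20621 (.cons c17060 .nil) b17076 (Lsw H i4 i167 b6596) (Lsw H i4 i180 b6598) (k_one i227 i167 c18158)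
  have q20623 : Rl [1, t227, t231, t233] := q20622.mv 3 rfl
  have q20624 : Rl [t227, t231, t233] := q20623.del1
  have q20634 : Rl [t180, t136, t167, t215] := q20034.mv 2 rfl
  have c20635 := q20634.l1 (.cons c5367.symm (.cons c3250.symm (.cons c14278 .nil)))
  have q20636 : Rl [t180, t136, t167, t215] := q20034.mv 2 rfl
  have c20637 := q20636.l1 (.cons c3808 (.cons c6168.symm (.cons c14305 .nil)))
  have q20738 : Rl [t266, t234, t201] := q15636.mv 1 rfl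
  have b20739 := Rl.l2 H i266 i234 i2 q20738 (.cons c6712 .nil) b16463
  have c20740 := q15636.l1 (.cons c17077 (.cons c17058 .nil))
  have q20787 : Rl [t290, t211, t288, t209] := q20024.mv 2 rfl
  have c20788 := q20787.l1 (.cons c11123 (.cons c11133 (.cons c6956.symm .nil)))
  have q20789 : Rl [t290, t211, t288, t209] := q20024.mv 2 rfl
  have c20790 := q20789.l1 (.cons c9952 (.cons c16333 (.cons c9918 .nil)))
  have c20840 := q20029.l1 (.cons c8788 (.cons c20788 (.cons c6956.symm .nil)))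
  have c20843 := q20029.l1 (.cons c7271.symm (.cons c20790 (.cons c9918 .nil)))
  have q20929 : Rl [t234, t266, t201, t268, t266, t201] := q15636.add q20059 (.cons (.cons c14660 (.cons c15637.symm (.cons c17370 .nil))) (.cons (.cons c17957 (.cons (Commute.refl _) (.cons c15639.symm .nil))) (.cons (.cons c14614.symm (.cons c15639 (.cons (Commute.refl _) .nil))) .nil)))
  have q20930 : Rl [t266, t234, t266, t201, t268, t201] := q20929.mv 4 rfl
  have q20931 : Rl [t266, t266, t234, t201, t268, t201] := q20930.mv 2 rfl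
  have q20932 : Rl [t234, t201, t268, t201] := q20931.del2
  have q20933 : Rl [t201, t234, t201, t268] := q20932.mv 3 rfl
  have q20934 : Rl [t201, t201, t234, t268] := q20933.mv 2 rfl
  have q20935 : Rl [t234, t268] := q20934.del2
  have e20936 := q20935.two
  have m20937 : t234 = t268 := e20936
  subst m20937
  have q20938 : Rl [t234, t202, t234, t195] := q19995.mv 2 rfl
  have q20939 : Rl [t234, t234, t202, t195] := q20938.mv 2 rfl
  have q20940 : Rl [t202, t195] := q20939.del2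
  have e20941 := q20940.two
  have m20942 : t195 = t202 := e20941.symm
  subst m20942
  have c20949 := Lco i25 i39 (LP1 H i39 i1 i16 c328 b17050 b139 (k_one i229 i1 c17075))
  have c20992 := Lco i196 i4 (LP1 H i4 i2 i136 hbd.symm (Lsw H i136 i4 b17076) b6561 (k_one i227 i2 c11416))
  have c20993 := Lco i225 i2 (LP1 H i2 i4 i148 hbd b6566 b6590 (k_one i201 i4 c17058))
  have c20995 := Lco i231 i2 (LP1 H i2 i4 i167 hbd b6571 b6596 (k_one i200 i4 c17057))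
  have c21009 := Lco i210 i5 (LP1 H i5 i3 i125 hce.symm b6606 b6575 (k_one i241 i3 c12762))
  have c21010 := Lco i248 i3 (LP1 H i3 i5 i170 hce b6585 b6613 (k_one i211 i5 c17287))
  have b21014 := LP1 H i3 i69 i6 c574.symm (Lsw H i6 i3 b128) (Lsw H i6 i69 b17073) (Lsw H i69 i13 b17826)
  have c21024 := Lco i125 i11 (LP1 H i11 i4 i62 c20 (Lsw H i62 i11 b15757) (Lsw H i62 i4 b4179) (k_one i241 i4 c9395))
  have c21029 := Lco i78 i17 (LP1 H i17 i4 i37 c96.symm b6664 b514 (k_one i241 i4 c9395))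
  have c21030 := Lco i63 i19 (LP1 H i19 i4 i33 c106 b17284 b512 (k_one i241 i4 c9395))
  have b21039 := LP1 H i4 i53 i3 c1345.symm (Lsw H i3 i4 b8) b4084 (Lsw H i53 i10 b17554)
  have b21045 := LP1 H i4 i64 i3 c729 (Lsw H i3 i4 b8) (Lsw H i3 i64 b1880) (Lsw H i64 i10 b18244)
  have c21057 := Lco i240 i4 (LP1 H i4 i124 i5 c2342 b9 (Lsw H i5 i124 b6605) (k_one i11 i124 c20536.symm))
  have c21071 := Lco i6 i145 (LP1 H i145 i4 i1 c2007 b16074 (Lsw H i1 i4 b4) (k_one i185 i4 c7141))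
  have c21072 := Lco i11 i182 (LP1 H i182 i4 i5 c3043 b17259 b9 (k_one i240 i4 c21057))
  have c21138 := Lco i136 i11 (LP1 H i11 i5 i70 c21 (Lsw H i70 i11 b18402) (Lsw H i70 i5 b4245) (k_one i227 i5 c8749))
  have c21142 := Lco i85 i19 (LP1 H i19 i5 i32 c109.symm b6670 (Lsw H i32 i5 b1478) (k_one i227 i5 c8749))
  have c21144 := Lck c320 c20949.symm b517
  have c21147 := Lco i229 i5 (LP1 H i5 i63 i10 c1700.symm (Lsw H i10 i5 b136) b17039 (k_one i19 i63 c21030.symm))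
  have c21151 := Lco i23 i80 (LP1 H i80 i5 i6 c897 b17034 b42 (k_one i229 i5 c21147))
  have e21152 := Lone i23 i80 (Lsw H i80 i23 b20136) c21151
  have m21153 : 1 = t311 := e21152.symm
  subst m21153
  have c21154 := Lco i23 i40 b6676
  have c21162 := Lco i7 i152 (LP1 H i152 i5 i1 c2021 (Lsw H i1 i152 b6556) (Lsw H i1 i5 b5) (k_one i188 i5 c7119))
  have c21163 := Lco i11 i154 (LP1 H i154 i5 i4 c2970 (Lsw H i4 i154 b6594) (Lsw H i4 i5 b9) (k_one i229 i5 c21147))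
  have b21191 := LP1 H i6 i16 i7 c98 b423 (Lsw H i7 i16 b526) (Lsw H i16 i29 b18233)
  have c21194 := Lco i125 i23 (LP1 H i23 i6 i31 c67 (Lsw H i31 i23 b15699) (Lsw H i31 i6 b4180) (k_one i241 i6 c9226))
  have c21198 := Lco i78 i33 (LP1 H i33 i6 i19 c281.symm (Lsw H i19 i33 b17284) b525 (k_one i241 i6 c9226))
  have c21200 := Lco i63 i36 (LP1 H i36 i6 i17 c1695.symm (Lsw H i17 i36 b6663) (Lsw H i17 i6 b1383) (k_one i227 i6 c9712.symm))
  have c21225 := Lco i229 i7 (LP1 H i7 i63 i10 c1609.symm b163 b17039 (k_one i36 i63 c21200.symm))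
  have c21258 := Lco i87 i20 (LP1 H i20 i11 i18 c118.symm (Lsw H i18 i20 b1929) b539 (k_one i182 i11 c21072.symm))
  have c21260 := Lco i43 i40 (LP1 H i40 i11 i7 c357.symm b4397 (Lsw H i7 i11 b451) (k_one i182 i11 c21072.symm))
  have c21261 := Lco i39 i44 (LP1 H i44 i11 i6 c335.symm (Lsw H i6 i44 b1901) (Lsw H i6 i11 b161) (k_one i154 i11 c21163.symm))
  have c21284 := Lco i80 i14 (LP1 H i14 i17 i10 c75 b1528 (Lsw H i10 i17 b534) (k_one i78 i17 c21029))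
  have c21285 := Lco i87 i14 (LP1 H i14 i19 i9 c79 (Lsw H i9 i14 b531) (Lsw H i9 i19 b532) (k_one i85 i19 c21142))
  have q21475 : Rl [1, t243, t223] := q20052.mv 2 rfl
  have q21476 : Rl [t243, t223] := q21475.del1
  have e21477 := q21476.two
  have m21478 : t223 = t243 := e21477.symm
  subst m21478
  have q21479 : Rl [1, t228, t239] := q20041.mv 2 rfl
  have q21480 : Rl [t228, t239] := q21479.del1
  have e21481 := q21480.two
  have m21482 : t228 = t239 := e21481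
  subst m21482
  have q21483 : Rl [t115, t152, t180, t188, 1, 1] := LJ H i1 i11 i18 b33 b141 b539 b1862 b4340 (Lsw H i14 i18 b1927) (Lsw H i27 i14 b16072) (k_one i14 i87 c21285.symm) (k_one i27 i87 c1830.symm)
  have q21484 : Rl [1, t115, t152, t180, t188, 1] := q21483.mv 4 rfl
  have q21485 : Rl [t115, t152, t180, t188, 1] := q21484.del1
  have q21486 : Rl [1, t115, t152, t180, t188] := q21485.mv 4 rfl
  have q21487 : Rl [t115, t152, t180, t188] := q21486.del1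
  have q21488 : Rl [t269, t234, t272, t195, 1, 1] := LJ H i2 i7 i51 b34 b500 b1905 (Lsw H i158 i2 b16465) b17293 (Lsw H i12 i51 b6649) (Lsw H i60 i12 b17825) (k_one i12 i158 c20538.symm) (k_one i60 i158 c5428)
  have q21489 : Rl [1, t269, t234, t272, t195, 1] := q21488.mv 4 rfl
  have q21490 : Rl [t269, t234, t272, t195, 1] := q21489.del1
  have q21491 : Rl [1, t269, t234, t272, t195] := q21490.mv 4 rfl
  have q21492 : Rl [t269, t234, t272, t195] := q21491.del1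
  have q21493 : Rl [t125, t155, t154, t197, 1, 1] := LJ H i2 i10 i23 b35 b147 b535 b1872 (Lsw H i33 i10 b4360) b4361 b6661 (k_one i16 i78 c1604) (k_one i33 i78 c21198.symm)
  have q21494 : Rl [1, t125, t155, t154, t197, 1] := q21493.mv 4 rfl
  have q21495 : Rl [t125, t155, t154, t197, 1] := q21494.del1
  have q21496 : Rl [1, t125, t155, t154, t197] := q21495.mv 4 rfl
  have q21497 : Rl [t125, t155, t154, t197] := q21496.del1
  have q21508 : Rl [t136, t158, t182, t215, 1, 1] := LJ H i3 i9 i20 b37 b150 (Lsw H i20 i9 b1505) b1883 (Lsw H i36 i9 b4395) (Lsw H i18 i20 b1929) (Lsw H i36 i18 b15685) (k_one i18 i85 c1608) (k_one i36 i85 c20093)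
  have q21509 : Rl [1, t136, t158, t182, t215, 1] := q21508.mv 4 rfl
  have q21510 : Rl [t136, t158, t182, t215, 1] := q21509.del1
  have q21511 : Rl [1, t136, t158, t182, t215] := q21510.mv 4 rfl
  have q21512 : Rl [t136, t158, t182, t215] := q21511.del1
  have q21518 : Rl [t228, t241, t241, 1, 1, 1] := LJ H i4 i5 i62 b9 (Lsw H i62 i4 b4179) b1898 b6593 b6606 b15757 (k_one i11 i125 c21024.symm) (k_one i11 i151 c3221) (k_one i125 i151 c4214.symm)
  have q21519 : Rl [1, t228, t241, t241, 1, 1] := q21518.mv 3 rfl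
  have q21520 : Rl [t228, t241, t241, 1, 1] := q21519.del1
  have q21521 : Rl [1, t228, t241, t241, 1] := q21520.mv 3 rfl
  have q21522 : Rl [t228, t241, t241, 1] := q21521.del1
  have q21523 : Rl [1, t228, t241, t241] := q21522.mv 3 rfl
  have q21524 : Rl [t228, t241, t241] := q21523.del1
  have q21525 : Rl [t241, t228, t241] := q21524.mv 2 rfl
  have q21526 : Rl [t241, t241, t228] := q21525.mv 2 rfl
  have q21527 : Rl [t228] := q21526.del2
  have e21528 := q21527.one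
  have m21529 : 1 = t228 := e21528.symm
  subst m21529
  have c21530 := Lco i4 i151 b6593
  have c21531 := Lco i5 i123 b6604
  have c21534 := Lco i18 i39 b17288
  have q21535 : Rl [t227, t244, t227, 1, 1, 1] := LJ H i4 i5 i70 b9 b1890 (Lsw H i70 i5 b4245) (Lsw H i136 i4 b17076) b6609 b18402 (k_one i11 i143 c4503.symm) (k_one i11 i136 c21138.symm) (k_one i143 i136 c4280)
  have q21536 : Rl [1, t227, t244, t227, 1, 1] := q21535.mv 3 rfl
  have q21537 : Rl [t227, t244, t227, 1, 1] := q21536.del1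
  have q21538 : Rl [1, t227, t244, t227, 1] := q21537.mv 3 rfl
  have q21539 : Rl [t227, t244, t227, 1] := q21538.del1
  have q21540 : Rl [1, t227, t244, t227] := q21539.mv 3 rfl
  have q21541 : Rl [t227, t244, t227] := q21540.del1
  have q21542 : Rl [t227, t227, t244] := q21541.mv 2 rfl
  have q21543 : Rl [t227, t227, t244] := q21542.mv 1 rfl
  have q21544 : Rl [t244] := q21543.del2
  have e21545 := q21544.one
  have m21546 : 1 = t244 := e21545.symm
  subst m21546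
  have c21547 := Lco i5 i143 b6609
  have q21548 : Rl [t227, t238, t227, 1, 1, 1] := LJ H i4 i7 i35 b39 b513 b1904 (Lsw H i136 i4 b17076) b17307 b15716 (k_one i20 i80 c1146) (k_one i20 i136 c20063) (k_one i80 i136 c2696)
  have q21549 : Rl [1, t227, t238, t227, 1, 1] := q21548.mv 3 rfl
  have q21550 : Rl [t227, t238, t227, 1, 1] := q21549.del1
  have q21551 : Rl [1, t227, t238, t227, 1] := q21550.mv 3 rfl
  have q21552 : Rl [t227, t238, t227, 1] := q21551.del1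
  have q21553 : Rl [1, t227, t238, t227] := q21552.mv 3 rfl
  have q21554 : Rl [t227, t238, t227] := q21553.del1
  have q21555 : Rl [t227, t227, t238] := q21554.mv 2 rfl
  have q21556 : Rl [t227, t227, t238] := q21555.mv 1 rfl
  have q21557 : Rl [t238] := q21556.del2
  have e21558 := q21557.one
  have m21559 : 1 = t238 := e21558.symm
  subst m21559
  have c21560 := Lco i5 i113 b6603
  have c21561 := Lco i7 i80 b17307
  have q21562 : Rl [t226, 1, t307, 1, 1, 1] := LJ H i4 i7 i44 b39 b515 b4344 b6591 (k_one i7 i80 c21561) (Lsw H i20 i44 b6672) (k_one i20 i80 c1146) (k_one i20 i149 c20068) (k_one i80 i149 c5659)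
  have q21563 : Rl [1, t226, t307, 1, 1, 1] := q21562.mv 1 rfl
  have q21564 : Rl [t226, t307, 1, 1, 1] := q21563.del1
  have q21565 : Rl [1, t226, t307, 1, 1] := q21564.mv 2 rfl
  have q21566 : Rl [t226, t307, 1, 1] := q21565.del1
  have q21567 : Rl [1, t226, t307, 1] := q21566.mv 2 rfl
  have q21568 : Rl [t226, t307, 1] := q21567.del1
  have q21569 : Rl [1, t226, t307] := q21568.mv 2 rfl
  have q21570 : Rl [t226, t307] := q21569.del1
  have e21571 := q21570.two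
  have m21572 : t226 = t307 := e21571
  subst m21572
  have q21573 : Rl [t231, t241, t304, 1, 1, 1] := LJ H i4 i9 i28 b41 b511 b1914 b6596 b6635 b18768 (k_one i17 i78 c21029.symm) (k_one i17 i167 c18426) (k_one i78 i167 c6498.symm)
  have q21574 : Rl [1, t231, t241, t304, 1, 1] := q21573.mv 3 rfl
  have q21575 : Rl [t231, t241, t304, 1, 1] := q21574.del1
  have q21576 : Rl [1, t231, t241, t304, 1] := q21575.mv 3 rfl
  have q21577 : Rl [t231, t241, t304, 1] := q21576.del1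
  have q21578 : Rl [1, t231, t241, t304] := q21577.mv 3 rfl
  have q21579 : Rl [t231, t241, t304] := q21578.del1
  have q21580 : Rl [t233, t292, 1, 1, 1, 1] := LJ H i4 i14 i18 b153 b154 b1927 b6598 b6657 (k_one i18 i39 c21534) (k_one i39 i40 c6450.symm) (k_one i39 i180 c20635.symm) (k_one i40 i180 c20637.symm)
  have q21581 : Rl [1, t233, t292, 1, 1, 1] := q21580.mv 2 rfl
  have q21582 : Rl [t233, t292, 1, 1, 1] := q21581.del1
  have q21583 : Rl [1, t233, t292, 1, 1] := q21582.mv 2 rfl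
  have q21584 : Rl [t233, t292, 1, 1] := q21583.del1
  have q21585 : Rl [1, t233, t292, 1] := q21584.mv 2 rfl
  have q21586 : Rl [t233, t292, 1] := q21585.del1
  have q21587 : Rl [1, t233, t292] := q21586.mv 2 rfl
  have q21588 : Rl [t233, t292] := q21587.del1
  have e21589 := q21588.two
  have m21590 : t233 = t292 := e21589
  subst m21590
  have q21591 : Rl [t241, t223, t241, 1, 1, 1] := LJ H i5 i6 i31 b42 b520 (Lsw H i31 i6 b4180) b6606 b6617 b15699 (k_one i23 i87 c1119) (k_one i23 i125 c21194.symm) (k_one i87 i125 c2507)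
  have q21592 : Rl [1, t241, t223, t241, 1, 1] := q21591.mv 3 rfl
  have q21593 : Rl [t241, t223, t241, 1, 1] := q21592.del1
  have q21594 : Rl [1, t241, t223, t241, 1] := q21593.mv 3 rfl
  have q21595 : Rl [t241, t223, t241, 1] := q21594.del1
  have q21596 : Rl [1, t241, t223, t241] := q21595.mv 3 rfl
  have q21597 : Rl [t241, t223, t241] := q21596.del1
  have q21598 : Rl [t241, t241, t223] := q21597.mv 2 rfl
  have q21599 : Rl [t241, t241, t223] := q21598.mv 1 rfl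
  have q21600 : Rl [t223] := q21599.del2
  have e21601 := q21600.one
  have m21602 : 1 = t223 := e21601.symm
  subst m21602
  have c21603 := Lco i4 i115 b6588
  have c21604 := Lco i5 i141 b6608
  have q21606 : Rl [t248, t227, t304, 1, 1, 1] := LJ H i5 i10 i26 (Lsw H i10 i5 b136) b518 b1917 b6613 b6641 (Lsw H i19 i26 b6669) (k_one i19 i85 c21142.symm) (k_one i19 i170 c18427) (k_one i85 i170 c6364.symm)
  have q21607 : Rl [1, t248, t227, t304, 1, 1] := q21606.mv 3 rfl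
  have q21608 : Rl [t248, t227, t304, 1, 1] := q21607.del1
  have q21609 : Rl [1, t248, t227, t304, 1] := q21608.mv 3 rfl
  have q21610 : Rl [t248, t227, t304, 1] := q21609.del1
  have q21611 : Rl [1, t248, t227, t304] := q21610.mv 3 rfl
  have q21612 : Rl [t248, t227, t304] := q21611.del1
  have q21613 : Rl [1, t297, t226, 1, 1, 1] := LJ H i5 i16 i20 b158 (Lsw H i20 i5 b473) b1928 (k_one i5 i143 c21547) b6662 b6672 (k_one i44 i43 c6292) (k_one i44 i143 c4774) (k_one i43 i143 c4969.symm)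
  have q21614 : Rl [t297, t226, 1, 1, 1] := q21613.del1
  have q21615 : Rl [1, t297, t226, 1, 1] := q21614.mv 2 rfl
  have q21616 : Rl [t297, t226, 1, 1] := q21615.del1
  have q21617 : Rl [1, t297, t226, 1] := q21616.mv 2 rfl
  have q21618 : Rl [t297, t226, 1] := q21617.del1
  have q21619 : Rl [1, t297, t226] := q21618.mv 2 rfl
  have q21620 : Rl [t297, t226] := q21619.del1
  have e21621 := q21620.two
  have m21622 : t226 = t297 := e21621.symm
  subst m21622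
  have q21623 : Rl [t29, t14, t20, t23, t39, t43] := q461.mv 3 rfl
  have q21624 : Rl [t14, t29, t20, t23, t39, t43] := q21623.mv 1 rfl
  have b21625 := Rl.l2 H i14 i29 i40 q21624 (.cons c373 (.cons c21154 (.cons c6450.symm (.cons c21260 .nil)))) b6657
  have q21636 : Rl [t51, t31, t44, t60, t87] := q1652.mv 2 rfl
  have q21637 : Rl [t44, t51, t31, t60, t87] := q21636.mv 2 rfl
  have q21638 : Rl [t31, t44, t51, t60, t87] := q21637.mv 2 rfl
  have q21639 : Rl [t227, t226, t227, 1] := Rl.l3 H i31 i44 i51 i20 q21638 (.cons c5810.symm (.cons c21258 .nil)) b19035 (Lsw H i20 i44 b6672) (Lsw H i20 i51 b6673) (k_one i227 i44 c14391)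
  have q21640 : Rl [1, t227, t226, t227] := q21639.mv 3 rfl
  have q21641 : Rl [t227, t226, t227] := q21640.del1
  have q21642 : Rl [t227, t227, t226] := q21641.mv 2 rfl
  have q21643 : Rl [t227, t227, t226] := q21642.mv 1 rfl
  have q21644 : Rl [t226] := q21643.del2
  have e21645 := q21644.one
  have m21646 : 1 = t226 := e21645.symm
  subst m21646
  have c21647 := Lco i133 i4 b21045
  have c21648 := Lco i4 i149 b6591
  have c21651 := Lco i20 i44 b6672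
  have q21654 : Rl [t44, t40, t50, t80, t87] := q1658.mv 1 rfl
  have q21655 : Rl [t40, t44, t50, t80, t87] := q21654.mv 1 rfl
  have e21656 := (Rl.l2 H i40 i44 i14 q21655 (.cons c252.symm (.cons c21284 (.cons c21285 .nil))) (Lsw H i14 i40 b6657)).symm.trans (Lsw H i14 i44 b6658)
  have m21657 : t233 = t293 := e21656
  subst m21657
  have q21683 : Rl [t255, t115, t148, t182, t240] := q19968.mv 3 rfl
  have q21684 : Rl [t148, t255, t115, t182, t240] := q21683.mv 2 rfl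
  have b21685 := Rl.l2 H i148 i255 i4 q21684 (.cons c21603.symm (.cons c3043 (.cons c21057 .nil))) (Lsw H i4 i148 b6590)
  have q21690 : Rl [t188, t115, t152, t180] := q21487.mv 3 rfl
  have q21691 : Rl [t180, t188, t115, t152] := q21690.mv 3 rfl
  have b21692 := Rl.l2 H i180 i188 i4 q21691 (.cons c21603.symm (.cons c2862 .nil)) (Lsw H i4 i180 b6598)
  have q21696 : Rl [t146, t124, t167, t200, t240] := q19987.mv 1 rfl
  have q21697 : Rl [t167, t146, t124, t200, t240] := q21696.mv 2 rfl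
  have b21698 := Rl.l2 H i167 i146 i4 q21697 (.cons c2342.symm (.cons c17057 (.cons c21057 .nil))) (Lsw H i4 i167 b6596)
  have q21707 : Rl [t154, t125, t155, t197] := q21497.mv 2 rfl
  have q21708 : Rl [t155, t154, t125, t197] := q21707.mv 2 rfl
  have e21709 := (Rl.l2 H i155 i154 i1 q21708 (.cons c2101.symm (.cons c8734 .nil)) (Lsw H i1 i155 b6558)).symm.trans (Lsw H i1 i154 b6557)
  have m21710 : t186 = t193 := e21709.symm
  subst m21710
  have q21711 : Rl [t140, t132, t170, t211, t229] := q20006.mv 1 rfl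
  have q21712 : Rl [t170, t140, t132, t211, t229] := q21711.mv 2 rfl
  have b21713 := Rl.l2 H i170 i140 i5 q21712 (.cons c2522.symm (.cons c17287 (.cons c21147 .nil))) (Lsw H i5 i170 b6613)
  have q21714 : Rl [t140, t132, t170, t211, t229] := q20006.mv 1 rfl
  have c21715 := q21714.l1 (.cons c20596 (.cons c3287.symm (.cons c18408 (.cons c9678.symm .nil))))
  have q21716 : Rl [t144, t132, t155, t217, t229] := q20009.mv 1 rfl
  have q21717 : Rl [t155, t144, t132, t217, t229] := q21716.mv 2 rfl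
  have b21718 := Rl.l2 H i155 i144 i1 q21717 (.cons c2116.symm (.cons c20840 (.cons c17075 .nil))) (Lsw H i1 i155 b6558)
  have q21719 : Rl [t144, t132, t155, t217, t229] := q20009.mv 1 rfl
  have c21720 := q21719.l1 (.cons c20578 (.cons c2027 (.cons c20843 (.cons c8513.symm .nil))))
  have q21725 : Rl [t158, t136, t182, t215] := q21512.mv 1 rfl
  have q21726 : Rl [t182, t158, t136, t215] := q21725.mv 2 rfl
  have b21727 := Rl.l2 H i182 i158 i1 q21726 (.cons c2124.symm (.cons c9379 .nil)) b16066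
  have q21739 : Rl [t231, t227, t233] := q20624.mv 1 rfl
  have c21740 := q21739.l1 (.cons c12756 (.cons c16798 .nil))
  have q21741 : Rl [t231, t227, t233] := q20624.mv 1 rfl
  have c21742 := q21741.l1 (.cons c8749 (.cons c17290 .nil))
  have c21753 := q21612.l1 (.cons c11416 (.cons c12334 .nil))
  have q21767 : Rl [t200, t234, t272, t195, t269, t234, t272, t195] := q20000.add q21492 (.cons (.cons c16614 (.cons c17364.symm (.cons c13978.symm (.cons c15483 .nil)))) (.cons (.cons c14725 (.cons (Commute.refl _) (.cons c15128.symm (.cons c17339 .nil)))) (.cons (.cons c14730 (.cons c15128 (.cons (Commute.refl _) (.cons c17967.symm .nil)))) (.cons (.cons c16611 (.cons c17339.symm (.cons c17967 (.cons (Commute.refl _) .nil)))) .nil))))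
  have q21768 : Rl [t234, t200, t234, t272, t195, t269, t272, t195] := q21767.mv 5 rfl
  have q21769 : Rl [t234, t234, t200, t272, t195, t269, t272, t195] := q21768.mv 2 rfl
  have q21770 : Rl [t200, t272, t195, t269, t272, t195] := q21769.del2
  have q21771 : Rl [t272, t200, t272, t195, t269, t195] := q21770.mv 4 rfl
  have q21772 : Rl [t272, t272, t200, t195, t269, t195] := q21771.mv 2 rfl
  have q21773 : Rl [t200, t195, t269, t195] := q21772.del2
  have q21774 : Rl [t195, t200, t195, t269] := q21773.mv 3 rfl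
  have q21775 : Rl [t195, t195, t200, t269] := q21774.mv 2 rfl
  have q21776 : Rl [t200, t269] := q21775.del2
  have e21777 := q21776.two
  have m21778 : t200 = t269 := e21777
  subst m21778
  have b21805 := LP1 H i4 i29 i18 c243.symm b154 (Lsw H i18 i29 b6667) (Lsw H i29 i40 b21625)
  have c21809 := Lco i248 i4 (LP1 H i4 i140 i5 c1997.symm b9 b21713 (k_one i11 i140 c21715.symm))
  have c21810 := Lco i190 i4 (LP1 H i4 i151 i1 c21530 (Lsw H i1 i4 b4) (Lsw H i1 i151 b6555) (k_one i6 i151 c2852.symm))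
  have c21812 := LP3 H i182 i4 i1 c3043 b16066 b21685
  have c21813 := Lco i148 i11 (LP1 H i11 i5 i56 c21 (Lsw H i56 i11 b18415) b1895 (k_one i233 i5 c17290))
  have c21814 := Lco i187 i5 (LP1 H i5 i143 i1 c21547 (Lsw H i1 i5 b5) (Lsw H i1 i143 b6552) (k_one i7 i143 c2734.symm))
  have c21815 := Lco i225 i5 (LP1 H i5 i148 i4 c2013.symm (Lsw H i4 i5 b9) (Lsw H i4 i148 b6590) (k_one i11 i148 c21813.symm))
  have q21830 : Rl [t225, 1, t233, 1, 1, 1] := LJ H i4 i5 i56 b9 b1888 b1895 b6590 (k_one i5 i141 c21604) b18415 (k_one i11 i141 c6496.symm) (k_one i11 i148 c21813.symm) (k_one i141 i148 c20381.symm)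
  have q21831 : Rl [1, t225, t233, 1, 1, 1] := q21830.mv 1 rfl
  have q21832 : Rl [t225, t233, 1, 1, 1] := q21831.del1
  have q21833 : Rl [1, t225, t233, 1, 1] := q21832.mv 2 rfl
  have q21834 : Rl [t225, t233, 1, 1] := q21833.del1
  have q21835 : Rl [1, t225, t233, 1] := q21834.mv 2 rfl
  have q21836 : Rl [t225, t233, 1] := q21835.del1
  have q21837 : Rl [1, t225, t233] := q21836.mv 2 rfl
  have q21838 : Rl [t225, t233] := q21837.del1
  have e21839 := q21838.two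
  have m21840 : t225 = t233 := e21839
  subst m21840
  have q21841 : Rl [t29, t14, t20, t23, t39, t43] := q461.mv 3 rfl
  have q21842 : Rl [t14, t29, t20, t23, t39, t43] := q21841.mv 1 rfl
  have b21843 := Rl.l2 H i14 i29 i44 q21842 (.cons c21651 (.cons c367 (.cons c21261 (.cons c6292.symm .nil)))) b6658
  have q21868 : Rl [t158, t124, t150, t200, t240] := q19990.mv 2 rfl
  have q21869 : Rl [t150, t158, t124, t200, t240] := q21868.mv 2 rfl
  have e21870 := (Rl.l2 H i150 i158 i1 q21869 (.cons c2099.symm (.cons c10749 (.cons c9505 .nil))) (Lsw H i1 i150 b6554)).symm.trans b21727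
  have m21871 : t189 = t255 := e21870
  subst m21871
  have b21885 := LP1 H i5 i29 i16 c471.symm b158 (Lsw H i16 i29 b18233) (Lsw H i29 i44 b21843)
  have b21888 := LP1 H i114 i5 i4 c2185 b17055 (Lsw H i4 i5 b9) b21885
  have b21891 := LP1 H i84 i11 i1 c920.symm (Lsw H i1 i84 b1861) (Lsw H i1 i11 b33) (Lsw H i11 i114 b21888)
  have b21894 := LP1 H i20 i44 i1 c21651 (Lsw H i1 i20 b143) (Lsw H i1 i44 b490) b21843
  have q21897 : Rl [t20, t14, t23, t29, t39, t43] := q461.mv 1 rfl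
  have q21898 : Rl [t14, t20, t23, t29, t39, t43] := q21897.mv 1 rfl
  have b21899 := Rl.l2 H i14 i20 i84 q21898 (.cons c1043 (.cons c17721 (.cons c21144 (.cons c1512.symm .nil)))) b21891
  have b21902 := LP1 H i7 i57 i4 c1031 (Lsw H i4 i7 b39) (Lsw H i4 i57 b1889) (Lsw H i57 i20 b21894)
  have b21903 := LP1 H i7 i84 i4 c698 (Lsw H i4 i7 b39) (Lsw H i4 i84 b1892) b21899
  have q21904 : Rl [t154, t113, t142, t186, t229] := q19965.mv 2 rfl
  have q21905 : Rl [t142, t154, t113, t186, t229] := q21904.mv 2 rfl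
  have b21906 := Rl.l2 H i142 i154 i7 q21905 (.cons c2944.symm (.cons c9676.symm (.cons c21225 .nil))) b21902
  have b21907 := LP1 H i5 i145 i1 c2745.symm (Lsw H i1 i5 b5) b16074 (Lsw H i145 i7 b21903)
  have b21908 := LP1 H i5 i154 i1 c2970.symm (Lsw H i1 i5 b5) (Lsw H i1 i154 b6557) (Lsw H i154 i7 b21906)
  have q21912 : Rl [t185, t113, t140, t153, t229] := q19962.mv 3 rfl
  have q21913 : Rl [t153, t185, t113, t140, t229] := q21912.mv 3 rfl
  have q21914 : Rl [t140, t153, t185, t113, t229] := q21913.mv 3 rfl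
  have q21915 : Rl [t248, t241, t225, 1] := Rl.l3 H i140 i153 i185 i5 q21914 (.cons c21560.symm (.cons c21147 .nil)) b21713 b17286 b21907 (k_one i248 i153 c19944)
  have q21916 : Rl [1, t248, t241, t225] := q21915.mv 3 rfl
  have q21917 : Rl [t248, t241, t225] := q21916.del1
  have q21918 : Rl [t142, t113, t154, t186, t229] := q19965.mv 1 rfl
  have q21919 : Rl [t186, t142, t113, t154, t229] := q21918.mv 3 rfl
  have b21920 := Rl.l2 H i186 i142 i5 q21919 (.cons c21560.symm (.cons c2970 (.cons c21147 .nil))) b21908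
  obtain ⟨t313, b21921⟩ : ∃ t, k a t235 = t := ⟨_, rfl⟩
  have i313 := Linv H i1 i235 b21921
  obtain ⟨t314, b21922⟩ : ∃ t, k a t241 = t := ⟨_, rfl⟩
  have i314 := Linv H i1 i241 b21922
  obtain ⟨t315, b21923⟩ : ∃ t, k b t210 = t := ⟨_, rfl⟩
  have i315 := Linv H i2 i210 b21923
  obtain ⟨t316, b21924⟩ : ∃ t, k b t211 = t := ⟨_, rfl⟩
  have i316 := Linv H i2 i211 b21924
  obtain ⟨t317, b21925⟩ : ∃ t, k b t213 = t := ⟨_, rfl⟩
  have i317 := Linv H i2 i213 b21925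
  obtain ⟨t318, b21926⟩ : ∃ t, k b t273 = t := ⟨_, rfl⟩
  have i318 := Linv H i2 i273 b21926
  obtain ⟨t319, b21927⟩ : ∃ t, k c t196 = t := ⟨_, rfl⟩
  have i319 := Linv H i3 i196 b21927
  obtain ⟨t320, b21928⟩ : ∃ t, k c t200 = t := ⟨_, rfl⟩
  have i320 := Linv H i3 i200 b21928
  obtain ⟨t321, b21929⟩ : ∃ t, k t6 t114 = t := ⟨_, rfl⟩
  have i321 := Linv H i6 i114 b21929
  obtain ⟨t322, b21930⟩ : ∃ t, k t7 t108 = t := ⟨_, rfl⟩
  have i322 := Linv H i7 i108 b21930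
  obtain ⟨t323, b21931⟩ : ∃ t, k t7 t118 = t := ⟨_, rfl⟩
  have i323 := Linv H i7 i118 b21931
  obtain ⟨t324, b21932⟩ : ∃ t, k t8 t146 = t := ⟨_, rfl⟩
  have i324 := Linv H i8 i146 b21932
  obtain ⟨t325, b21933⟩ : ∃ t, k t8 t170 = t := ⟨_, rfl⟩
  have i325 := Linv H i8 i170 b21933
  obtain ⟨t326, b21934⟩ : ∃ t, k t10 t107 = t := ⟨_, rfl⟩
  have i326 := Linv H i10 i107 b21934
  obtain ⟨t327, b21935⟩ : ∃ t, k t18 t70 = t := ⟨_, rfl⟩
  have i327 := Linv H i18 i70 b21935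
  have c21938 := Lkl H i1 i241 b21922
  have c21940 := Lkl H i2 i210 b21923
  have c21948 := Lkl H i3 i196 b21927
  have c21966 := Lck hab c6957 b21923
  have c21970 := Lck hab.symm c9444.symm b21922
  have c21972 := Lck hac c6941 b21927
  have c21975 := Lck hac.symm c12762.symm b21922
  have b22059 := LP1 H i112 i1 i5 c1941 (Lsw H i5 i112 b6602) b5 (Lsw H i1 i235 b21921)
  have e22073 := (LP1 H i118 i1 i5 c1953 b17269 b5 (Lsw H i1 i235 b21921)).symm.trans b21931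
  have m22074 : t313 = t323 := e22073
  subst m22074
  have c22080 := LP3 H i125 i1 i5 c2101.symm (Lsw H i5 i125 b6606) (Lsw H i1 i241 b21922)
  have c22161 := Lck hbd.symm c8953.symm b21923
  have c22320 := LP3 H i125 i2 i3 c1967 (Lsw H i3 i125 b6575) (Lsw H i2 i210 b21923)
  have c22475 := Lck hce.symm c9602.symm b21927
  have c22561 := LP3 H i136 i3 i2 c1989 (Lsw H i2 i136 b6561) (Lsw H i3 i196 b21927)
  have c22638 := Lco i319 i4 (LP1 H i4 i196 i3 c20992.symm (Lsw H i3 i4 b8) (Lsw H i3 i196 b21927) (k_one i10 i196 c11275.symm))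
  have c22640 := Lco i314 i4 (LP1 H i4 i241 i1 c9395.symm (Lsw H i1 i4 b4) (Lsw H i1 i241 b21922) (k_one i6 i241 c9226.symm))
  have c22645 := Lco i315 i5 (LP1 H i5 i210 i2 c21009.symm (Lsw H i2 i5 b7) (Lsw H i2 i210 b21923) (k_one i9 i210 c10948.symm))
  have b22753 := LP1 H i12 i7 i13 c83.symm b1922 b1346 (Lsw H i7 i118 b21931)
  have e22773 := (LP1 H i7 i55 i2 c683 (Lsw H i2 i7 b34) b4075 (Lsw H i55 i12 b22753)).symm.trans (Lsw H i7 i108 b21930)
  have m22774 : t313 = t322 := e22773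
  subst m22774
  have c22837 := LP3 H i52 i8 i5 c686.symm (Lsw H i5 i52 b1893) (Lsw H i8 i146 b21932)
  have q23774 : Rl [t185, t224, t250, t321, 1, 1] := LJ H i1 i4 i84 b4 b1861 b1892 (Lsw H i145 i1 b16074) (Lsw H i114 i4 b17055) (Lsw H i6 i84 b6616) b21929 (k_one i6 i145 c21071) (k_one i114 i145 c19787.symm)
  have q23775 : Rl [1, t185, t224, t250, t321, 1] := q23774.mv 4 rfl
  have q23776 : Rl [t185, t224, t250, t321, 1] := q23775.del1
  have q23777 : Rl [1, t185, t224, t250, t321] := q23776.mv 4 rfl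
  have q23778 : Rl [t185, t224, t250, t321] := q23777.del1
  have q23779 : Rl [t187, t224, t224, t321, 1, 1] := LJ H i1 i4 i93 b4 b1863 (Lsw H i93 i4 b4310) b6552 (Lsw H i114 i4 b17055) b21191 b21929 (k_one i6 i143 c2971) (k_one i114 i143 c4409.symm)
  have q23780 : Rl [1, t187, t224, t224, t321, 1] := q23779.mv 4 rfl
  have q23781 : Rl [t187, t224, t224, t321, 1] := q23780.del1
  have q23782 : Rl [1, t187, t224, t224, t321] := q23781.mv 4 rfl
  have q23783 : Rl [t187, t224, t224, t321] := q23782.del1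
  have q23784 : Rl [t224, t187, t224, t321] := q23783.mv 2 rfl
  have q23785 : Rl [t224, t224, t187, t321] := q23784.mv 2 rfl
  have q23786 : Rl [t187, t321] := q23785.del2
  have e23787 := q23786.two
  have m23788 : t187 = t321 := e23787
  subst m23788
  have q23794 : Rl [t190, t235, t235, t313, 1, 1] := LJ H i1 i5 i62 b5 b1856 b1898 b6555 b6600 (Lsw H i7 i62 b6623) b21930 (k_one i7 i151 c3038) (k_one i108 i151 c4850.symm)
  have q23795 : Rl [1, t190, t235, t235, t313, 1] := q23794.mv 4 rfl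
  have q23796 : Rl [t190, t235, t235, t313, 1] := q23795.del1
  have q23797 : Rl [1, t190, t235, t235, t313] := q23796.mv 4 rfl
  have q23798 : Rl [t190, t235, t235, t313] := q23797.del1
  have q23799 : Rl [t235, t190, t235, t313] := q23798.mv 2 rfl
  have q23800 : Rl [t235, t235, t190, t313] := q23799.mv 2 rfl
  have q23801 : Rl [t190, t313] := q23800.del2
  have e23802 := q23801.two
  have m23803 : t190 = t313 := e23802
  subst m23803
  have q23804 : Rl [t188, t235, t257, t190, 1, 1] := LJ H i1 i5 i77 b5 b1859 b1899 b6556 b6602 (Lsw H i7 i77 b6624) b22059 (k_one i7 i152 c21162) (k_one i112 i152 c19769.symm)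
  have q23805 : Rl [1, t188, t235, t257, t190, 1] := q23804.mv 4 rfl
  have q23806 : Rl [t188, t235, t257, t190, 1] := q23805.del1
  have q23807 : Rl [1, t188, t235, t257, t190] := q23806.mv 4 rfl
  have q23808 : Rl [t188, t235, t257, t190] := q23807.del1
  have q23809 : Rl [t189, t235, t257, t190, 1, 1] := LJ H i1 i9 i36 b31 (Lsw H i36 i1 b1579) (Lsw H i36 i9 b4395) (Lsw H i158 i1 b21727) b17292 b17695 (Lsw H i55 i12 b22753) (k_one i12 i158 c20538.symm) (k_one i55 i158 c3079)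
  have q23810 : Rl [1, t189, t235, t257, t190, 1] := q23809.mv 4 rfl
  have q23811 : Rl [t189, t235, t257, t190, 1] := q23810.del1
  have q23812 : Rl [1, t189, t235, t257, t190] := q23811.mv 4 rfl
  have q23813 : Rl [t189, t235, t257, t190] := q23812.del1
  have q23835 : Rl [t167, t124, t146, t200, t240] := q19987.mv 2 rfl
  have q23836 : Rl [t146, t167, t124, t200, t240] := q23835.mv 2 rfl
  have b23837 := Rl.l2 H i146 i167 i8 q23836 (.cons c2685.symm (.cons c10451.symm (.cons c10657 .nil))) (Lsw H i8 i146 b21932)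
  have q23846 : Rl [t140, t132, t170, t211, t229] := q20006.mv 1 rfl
  have q23847 : Rl [t170, t140, t132, t211, t229] := q23846.mv 2 rfl
  have b23848 := Rl.l2 H i170 i140 i8 q23847 (.cons c2477.symm (.cons c10460.symm (.cons c17061 .nil))) (Lsw H i8 i170 b21933)
  have q23892 : Rl [t273, t210, t222, t209] := q20014.mv 2 rfl
  have q23893 : Rl [t210, t273, t222, t209] := q23892.mv 1 rfl
  have e23894 := (Rl.l2 H i210 i273 i2 q23893 (.cons c7417.symm (.cons c8251 .nil)) (Lsw H i2 i210 b21923)).symm.trans (Lsw H i2 i273 b21926)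
  have m23895 : t315 = t318 := e23894
  subst m23895
  have q23907 : Rl [t241, t248, t225] := q21917.mv 1 rfl
  have b23908 := Rl.l2 H i241 i248 i1 q23907 (.cons c21812 .nil) (Lsw H i1 i241 b21922)
  have q23910 : Rl [t227, t248, t304] := q21612.mv 1 rfl
  have q23911 : Rl [t248, t227, t304] := q23910.mv 1 rfl
  have b23912 := Rl.l2 H i248 i227 i1 q23911 (.cons c12751 .nil) b23908
  have q23915 : Rl [t241, t231, t304] := q21579.mv 1 rfl
  have b23916 := Rl.l2 H i241 i231 i1 q23915 (.cons c12751 .nil) (Lsw H i1 i241 b21922)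
  have q23918 : Rl [t188, t235, t257, t190, t189, t235, t257, t190] := q23808.add q23813 (.cons (.cons c15555.symm (.cons c17318.symm (.cons c14519.symm (.cons c15556.symm .nil)))) (.cons (.cons c17734 (.cons (Commute.refl _) (.cons c14720 (.cons c17327 .nil)))) (.cons (.cons c17735 (.cons c14720.symm (.cons (Commute.refl _) (.cons c17738 .nil)))) (.cons (.cons c15582 (.cons c17327.symm (.cons c17738.symm (.cons (Commute.refl _) .nil)))) .nil))))
  have q23919 : Rl [t235, t188, t235, t257, t190, t189, t257, t190] := q23918.mv 5 rfl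
  have q23920 : Rl [t235, t235, t188, t257, t190, t189, t257, t190] := q23919.mv 2 rfl
  have q23921 : Rl [t188, t257, t190, t189, t257, t190] := q23920.del2
  have q23922 : Rl [t257, t188, t257, t190, t189, t190] := q23921.mv 4 rfl
  have q23923 : Rl [t257, t257, t188, t190, t189, t190] := q23922.mv 2 rfl
  have q23924 : Rl [t188, t190, t189, t190] := q23923.del2
  have q23925 : Rl [t190, t188, t190, t189] := q23924.mv 3 rfl
  have q23926 : Rl [t190, t190, t188, t189] := q23925.mv 2 rfl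
  have q23927 : Rl [t188, t189] := q23926.del2
  have e23928 := q23927.two
  have m23929 : t188 = t189 := e23928
  subst m23929
  have b23931 := LP1 H i1 i6 i93 c10.symm b1863 (Lsw H i93 i6 b21191) (Lsw H i6 i114 b21929)
  have c23933 := Lco i325 i1 (LP1 H i1 i8 i140 c22 b6550 (Lsw H i140 i8 b23848) (k_one i185 i8 c17827))
  have c23934 := Lco i324 i1 (LP1 H i1 i8 i146 c22 b6553 b21932 (k_one i188 i8 c10503))
  have b23939 := LP1 H i111 i1 i4 c1939 b21039 b4 b23931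
  have c23948 := Lco i324 i2 (LP1 H i2 i8 i146 c14.symm b6565 b21932 (k_one i200 i8 c10451.symm))
  have b23952 := LP1 H i25 i2 i19 c224.symm (Lsw H i19 i25 b6668) b145 (Lsw H i2 i213 b21925)
  have e23953 := (LP1 H i2 i31 i13 c178.symm b144 (Lsw H i13 i31 b18234) (Lsw H i31 i25 b23952)).symm.trans (Lsw H i2 i273 b21926)
  have m23954 : t315 = t317 := e23953.symm
  subst m23954
  have c23960 := Lco i325 i3 (LP1 H i3 i8 i140 c15.symm b6576 (Lsw H i140 i8 b23848) (k_one i211 i8 c10460.symm))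
  have b23961 := LP1 H i3 i18 i32 c56.symm b503 (Lsw H i32 i18 b15669) (Lsw H i18 i70 b21935)
  have b23962 := LP1 H i27 i3 i17 c235.symm (Lsw H i17 i27 b16476) b149 b23961
  have b23963 := LP1 H i3 i107 i4 c2113 b8 (Lsw H i4 i107 b6586) b21934
  have b23964 := LP1 H i127 i3 i4 c2439 b16449 b8 b23963
  have b23965 := LP1 H i136 i3 i2 c1989 (Lsw H i2 i136 b6561) (Lsw H i2 i3 b6) (Lsw H i3 i196 b21927)
  have c23975 := Lco i325 i4 (LP1 H i4 i140 i8 c1997.symm b40 b23848 (k_one i16 i140 c3165))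
  have c23977 := Lco i326 i5 (LP1 H i5 i127 i10 c2405.symm (Lsw H i10 i5 b136) (Lsw H i10 i127 b23964) (k_one i19 i127 c5439.symm))
  have b23989 := LP1 H i9 i8 i28 c29.symm b1914 (Lsw H i28 i8 b4091) b23837
  have e23990 := (LP1 H i8 i10 i26 c27 b1906 b1917 (Lsw H i10 i107 b21934)).symm.trans (Lsw H i8 i170 b21933)
  have m23991 : t325 = t326 := e23990.symm
  subst m23991
  have e23995 := (LP1 H i8 i35 i7 c290 (Lsw H i7 i8 b162) (Lsw H i7 i35 b1904) (Lsw H i35 i27 b23962)).symm.trans (Lsw H i8 i136 b23965)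
  have m23996 : t319 = t327 := e23995.symm
  subst m23996
  have b23998 := LP1 H i52 i8 i5 c686.symm (Lsw H i5 i52 b1893) (Lsw H i5 i8 b43) (Lsw H i8 i146 b21932)
  have b23999 := LP1 H i54 i8 i4 c687.symm (Lsw H i4 i54 b1887) (Lsw H i4 i8 b40) b23848
  have b24027 := LP1 H i31 i18 i1 c292.symm (Lsw H i1 i31 b485) (Lsw H i1 i18 b141) (Lsw H i18 i52 b23998)
  have q24034 : Rl [t186, t224, t250, t187, 1, 1] := LJ H i1 i4 i71 b4 b1858 b1891 (Lsw H i144 i1 b21718) (Lsw H i111 i4 b21039) (Lsw H i6 i71 b6615) b23939 (k_one i6 i144 c21720.symm) (k_one i111 i144 c19538)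
  have q24035 : Rl [1, t186, t224, t250, t187, 1] := q24034.mv 4 rfl
  have q24036 : Rl [t186, t224, t250, t187, 1] := q24035.del1
  have q24037 : Rl [1, t186, t224, t250, t187] := q24036.mv 4 rfl
  have q24038 : Rl [t186, t224, t250, t187] := q24037.del1
  have q24073 : Rl [t185, t224, t250, t187, t186, t224, t250, t187] := q23778.add q24038 (.cons (.cons c15497.symm (.cons c17096.symm (.cons c17588.symm (.cons c15499.symm .nil)))) (.cons (.cons c17099 (.cons (Commute.refl _) (.cons c14022.symm (.cons c17108 .nil)))) (.cons (.cons c14654 (.cons c14022 (.cons (Commute.refl _) (.cons c17592 .nil)))) (.cons (.cons c15519 (.cons c17108.symm (.cons c17592.symm (.cons (Commute.refl _) .nil)))) .nil))))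
  have q24074 : Rl [t224, t185, t224, t250, t187, t186, t250, t187] := q24073.mv 5 rfl
  have q24075 : Rl [t224, t224, t185, t250, t187, t186, t250, t187] := q24074.mv 2 rfl
  have q24076 : Rl [t185, t250, t187, t186, t250, t187] := q24075.del2
  have q24077 : Rl [t250, t185, t250, t187, t186, t187] := q24076.mv 4 rfl
  have q24078 : Rl [t250, t250, t185, t187, t186, t187] := q24077.mv 2 rfl
  have q24079 : Rl [t185, t187, t186, t187] := q24078.del2
  have q24080 : Rl [t187, t185, t187, t186] := q24079.mv 3 rfl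
  have q24081 : Rl [t187, t187, t185, t186] := q24080.mv 2 rfl
  have q24082 : Rl [t185, t186] := q24081.del2
  have e24083 := q24082.two
  have m24084 : t185 = t186 := e24083
  subst m24084
  have b24085 := LP1 H i2 i18 i28 c105.symm b492 b6666 (Lsw H i18 i52 b23998)
  have c24087 := Lco i324 i4 (LP1 H i4 i31 i27 c269 b510 (Lsw H i27 i31 b24027) (k_one i77 i31 c5278))
  obtain ⟨t328, b24101⟩ : ∃ t, k t16 t107 = t := ⟨_, rfl⟩
  have i328 := Linv H i16 i107 b24101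
  obtain ⟨t329, b24102⟩ : ∃ t, k t18 t110 = t := ⟨_, rfl⟩
  have i329 := Linv H i18 i110 b24102
  have q24390 : Rl [t316, t325, t325, t328, 1, 1] := LJ H i2 i10 i54 b35 b1867 (Lsw H i54 i10 b16776) b21924 b21934 (Lsw H i16 i54 b23999) b24101 (k_one i16 i211 c8008) (k_one i107 i211 c8340)
  have q24391 : Rl [1, t316, t325, t325, t328, 1] := q24390.mv 4 rfl
  have q24392 : Rl [t316, t325, t325, t328, 1] := q24391.del1
  have q24393 : Rl [1, t316, t325, t325, t328] := q24392.mv 4 rfl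
  have q24394 : Rl [t316, t325, t325, t328] := q24393.del1
  have q24395 : Rl [t325, t316, t325, t328] := q24394.mv 2 rfl
  have q24396 : Rl [t325, t325, t316, t328] := q24395.mv 2 rfl
  have q24397 : Rl [t316, t328] := q24396.del2
  have e24398 := q24397.two
  have m24399 : t316 = t328 := e24398
  subst m24399
  have q24400 : Rl [t320, t324, t324, t329, 1, 1] := LJ H i3 i9 i52 b37 b1876 (Lsw H i52 i9 b16464) b21928 (Lsw H i110 i9 b23989) (Lsw H i18 i52 b23998) b24102 (k_one i18 i200 c7516) (k_one i110 i200 c7795)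
  have q24401 : Rl [1, t320, t324, t324, t329, 1] := q24400.mv 4 rfl
  have q24402 : Rl [t320, t324, t324, t329, 1] := q24401.del1
  have q24403 : Rl [1, t320, t324, t324, t329] := q24402.mv 4 rfl
  have q24404 : Rl [t320, t324, t324, t329] := q24403.del1
  have q24405 : Rl [t324, t320, t324, t329] := q24404.mv 2 rfl
  have q24406 : Rl [t324, t324, t320, t329] := q24405.mv 2 rfl
  have q24407 : Rl [t320, t329] := q24406.del2
  have e24408 := q24407.two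
  have m24409 : t320 = t329 := e24408
  subst m24409
  have q24410 : Rl [t197, t263, t197, 1, t316, 1] := LJ H i4 i8 i26 b40 b509 b1906 b6586 b6628 (Lsw H i16 i26 b6659) (k_one i16 i63 c1152) b24101 (k_one i63 i107 c2284)
  have q24411 : Rl [1, t197, t263, t197, t316, 1] := q24410.mv 3 rfl
  have q24412 : Rl [t197, t263, t197, t316, 1] := q24411.del1
  have q24413 : Rl [1, t197, t263, t197, t316] := q24412.mv 4 rfl
  have q24414 : Rl [t197, t263, t197, t316] := q24413.del1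
  have q24415 : Rl [t197, t197, t263, t316] := q24414.mv 2 rfl
  have q24416 : Rl [t197, t197, t263, t316] := q24415.mv 1 rfl
  have q24417 : Rl [t263, t316] := q24416.del2
  have e24418 := q24417.two
  have m24419 : t263 = t316 := e24418
  subst m24419
  have q24420 : Rl [t215, t265, t215, 1, t320, 1] := LJ H i5 i8 i28 b43 b519 (Lsw H i28 i8 b4091) b6601 b6630 (Lsw H i18 i28 b6666) (k_one i18 i73 c1124) b24102 (k_one i73 i110 c2308)
  have q24421 : Rl [1, t215, t265, t215, t320, 1] := q24420.mv 3 rfl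
  have q24422 : Rl [t215, t265, t215, t320, 1] := q24421.del1
  have q24423 : Rl [1, t215, t265, t215, t320] := q24422.mv 4 rfl
  have q24424 : Rl [t215, t265, t215, t320] := q24423.del1
  have q24425 : Rl [t215, t215, t265, t320] := q24424.mv 2 rfl
  have q24426 : Rl [t215, t215, t265, t320] := q24425.mv 1 rfl
  have q24427 : Rl [t265, t320] := q24426.del2
  have e24428 := q24427.two
  have m24429 : t265 = t320 := e24428
  subst m24429
  have b24430 := LP1 H i2 i16 i54 c52.symm b1867 b23999 (Lsw H i16 i107 b24101)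
  have b24434 := LP1 H i3 i18 i52 c56.symm b1876 b23998 (Lsw H i18 i110 b24102)
  have b24436 := LP1 H i27 i3 i31 c235.symm b24027 b502 b24434
  have q24439 : Rl [t110, t130, t131, t207, t209, t265] := LJ H i1 i10 i18 b32 b141 (Lsw H i18 i10 b1420) b1857 b1918 (Lsw H i13 i18 b1925) (Lsw H i27 i13 b16071) (Lsw H i69 i13 b17826) (Lsw H i69 i27 b24436)
  have q24440 : Rl [t131, t110, t130, t207, t209, t265] := q24439.mv 2 rfl
  have q24441 : Rl [t110, t131, t130, t207, t209, t265] := q24440.mv 1 rfl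
  have e24442 := (Rl.l2 H i110 i131 i4 q24441 (.cons c2606 (.cons c8894 (.cons c8931 (.cons c17074 .nil)))) (Lsw H i4 i110 b6587)).symm.trans b17046
  have m24443 : t222 = t288 := e24442
  subst m24443
  have q24444 : Rl [t222, t212, t222, t209] := q20019.mv 2 rfl
  have q24445 : Rl [t222, t222, t212, t209] := q24444.mv 2 rfl
  have q24446 : Rl [t212, t209] := q24445.del2
  have e24447 := q24446.two
  have m24448 : t209 = t212 := e24447.symm
  subst m24448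
  have q24449 : Rl [t211, t222, t290, t209, t217, t222, t290, t209] := q20024.add q20029 (.cons (.cons c15505.symm (.cons c17152.symm (.cons c14123.symm (.cons c15439 .nil)))) (.cons (.cons c19821 (.cons (Commute.refl _) (.cons c18678.symm (.cons c17135 .nil)))) (.cons (.cons c18390.symm (.cons c18678 (.cons (Commute.refl _) (.cons c18667 .nil)))) (.cons (.cons c15446.symm (.cons c17135.symm (.cons c18667.symm (.cons (Commute.refl _) .nil)))) .nil))))
  have q24450 : Rl [t222, t211, t222, t290, t209, t217, t290, t209] := q24449.mv 5 rfl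
  have q24451 : Rl [t222, t222, t211, t290, t209, t217, t290, t209] := q24450.mv 2 rfl
  have q24452 : Rl [t211, t290, t209, t217, t290, t209] := q24451.del2
  have q24453 : Rl [t290, t211, t290, t209, t217, t209] := q24452.mv 4 rfl
  have q24454 : Rl [t290, t290, t211, t209, t217, t209] := q24453.mv 2 rfl
  have q24455 : Rl [t211, t209, t217, t209] := q24454.del2
  have q24456 : Rl [t209, t211, t209, t217] := q24455.mv 3 rfl
  have q24457 : Rl [t209, t209, t211, t217] := q24456.mv 2 rfl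
  have q24458 : Rl [t211, t217] := q24457.del2
  have e24459 := q24458.two
  have m24460 : t211 = t217 := e24459
  subst m24460
  have r319 : t319 ∈ rad G := Lrad5 i1 i2 i3 i4 i5 hF i319 (Rc i319 i1 c21972.symm) (Rc i319 i2 c22561) (Rc i319 i3 c21948) (Rc i319 i4 c22638) (Rc i319 i5 c22475.symm)
  have r315 : t315 ∈ rad G := Lrad5 i1 i2 i3 i4 i5 hF i315 (Rc i315 i1 c21966.symm) (Rc i315 i2 c21940) (Rc i315 i3 c22320) (Rc i315 i4 c22161.symm) (Rc i315 i5 c22645)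
  have r314 : t314 ∈ rad G := Lrad5 i1 i2 i3 i4 i5 hF i314 (Rc i314 i1 c21938) (Rc i314 i2 c21970.symm) (Rc i314 i3 c21975.symm) (Rc i314 i4 c22640) (Rc i314 i5 c22080)
  have r265 : t265 ∈ rad G := Lrad5 i1 i2 i3 i4 i5 hF i265 (Rc i265 i1 c6998.symm) (Rc i265 i2 c8266) (Rc i265 i3 c7958.symm) (Rc i265 i4 c17074) (Rc i265 i5 c17304)
  have r263 : t263 ∈ rad G := Lrad5 i1 i2 i3 i4 i5 hF i263 (Rc i263 i1 c6996.symm) (Rc i263 i2 c7439.symm) (Rc i263 i3 c7685) (Rc i263 i4 c17071) (Rc i263 i5 c17294)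
  have r248 : t248 ∈ rad G := Lrad5 i1 i2 i3 i4 i5 hF i248 (Rb b23908 r314) (Rc i248 i2 c21753) (Rc i248 i3 c21010) (Rc i248 i4 c21809) (Rc i248 i5 c6806)
  have r241 : t241 ∈ rad G := Lrad5 i1 i2 i3 i4 i5 hF i241 (Rb (Lsw H i1 i241 b21922) r314) (Rc i241 i2 c9444) (Rc i241 i3 c12762) (Rc i241 i4 c9395) (Rc i241 i5 c6792)
  have r240 : t240 ∈ rad G := Lrad5 i1 i2 i3 i4 i5 hF i240 (Rc i240 i1 c9505) (Rc i240 i2 c9427) (Rc i240 i3 c7950.symm) (Rc i240 i4 c21057) (Rc i240 i5 c6790)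
  have r231 : t231 ∈ rad G := Lrad5 i1 i2 i3 i4 i5 hF i231 (Rb b23916 r314) (Rc i231 i2 c20995) (Rc i231 i3 c21740) (Rc i231 i4 c6772) (Rc i231 i5 c21742)
  have r229 : t229 ∈ rad G := Lrad5 i1 i2 i3 i4 i5 hF i229 (Rc i229 i1 c17075) (Rc i229 i2 c18239) (Rc i229 i3 c17070) (Rc i229 i4 c6768) (Rc i229 i5 c21147)
  have r227 : t227 ∈ rad G := Lrad5 i1 i2 i3 i4 i5 hF i227 (Rb b23912 r314) (Rc i227 i2 c11416) (Rc i227 i3 c12756) (Rc i227 i4 c6764) (Rc i227 i5 c8749)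
  have r225 : t225 ∈ rad G := Lrad5 i1 i2 i3 i4 i5 hF i225 (Rc i225 i1 c21812) (Rc i225 i2 c20993) (Rc i225 i3 c16798) (Rc i225 i4 c6760) (Rc i225 i5 c21815)
  have r213 : t213 ∈ rad G := Lrad5 i1 i2 i3 i4 i5 hF i213 (Rc i213 i1 c11144) (Rb (Lsw H i2 i213 b21925) r315) (Rc i213 i3 c6736) (Rc i213 i4 c8185) (Rc i213 i5 c11905)
  have r211 : t211 ∈ rad G := Lrad5 i1 i2 i3 i4 i5 hF i211 (Rc i211 i1 c11123) (Rb (Lsw H i2 i211 b21924) r263) (Rc i211 i3 c6732) (Rc i211 i4 c8158) (Rc i211 i5 c17287)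
  have r210 : t210 ∈ rad G := Lrad5 i1 i2 i3 i4 i5 hF i210 (Rc i210 i1 c6957.symm) (Rb (Lsw H i2 i210 b21923) r315) (Rc i210 i3 c6730) (Rc i210 i4 c8953) (Rc i210 i5 c21009)
  have r209 : t209 ∈ rad G := Lrad5 i1 i2 i3 i4 i5 hF i209 (Rc i209 i1 c6956.symm) (Rc i209 i2 c8251) (Rc i209 i3 c6728) (Rc i209 i4 c8931) (Rc i209 i5 c17301)
  have r207 : t207 ∈ rad G := Lrad5 i1 i2 i3 i4 i5 hF i207 (Rc i207 i1 c6953.symm) (Rc i207 i2 c8170) (Rc i207 i3 c6724) (Rc i207 i4 c8894) (Rc i207 i5 c17282)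
  have r201 : t201 ∈ rad G := Lrad5 i1 i2 i3 i4 i5 hF i201 (Rc i201 i1 c10771) (Rc i201 i2 c6712) (Rb b23961 r319) (Rc i201 i4 c17058) (Rc i201 i5 c7642)
  have r200 : t200 ∈ rad G := Lrad5 i1 i2 i3 i4 i5 hF i200 (Rc i200 i1 c10749) (Rc i200 i2 c6710) (Rb (Lsw H i3 i200 b21928) r265) (Rc i200 i4 c17057) (Rc i200 i5 c7616)
  have r196 : t196 ∈ rad G := Lrad5 i1 i2 i3 i4 i5 hF i196 (Rc i196 i1 c6941.symm) (Rc i196 i2 c6702) (Rb (Lsw H i3 i196 b21927) r319) (Rc i196 i4 c20992) (Rc i196 i5 c9602)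
  have r195 : t195 ∈ rad G := Lrad5 i1 i2 i3 i4 i5 hF i195 (Rc i195 i1 c6940.symm) (Rc i195 i2 c6700) (Rc i195 i3 c7698) (Rc i195 i4 c17072) (Rc i195 i5 c9590)
  have r190 : t190 ∈ rad G := Lrad5 i1 i2 i3 i4 i5 hF i190 (Rc i190 i1 c6690) (Rc i190 i2 c6946.symm) (Rc i190 i3 c6962.symm) (Rc i190 i4 c21810) (Rc i190 i5 c9649)
  have r188 : t188 ∈ rad G := Lrad5 i1 i2 i3 i4 i5 hF i188 (Rc i188 i1 c6686) (Rc i188 i2 c10058) (Rc i188 i3 c16770) (Rb b21692 r225) (Rc i188 i5 c7119)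
  have r187 : t187 ∈ rad G := Lrad5 i1 i2 i3 i4 i5 hF i187 (Rc i187 i1 c6684) (Rc i187 i2 c6943.symm) (Rc i187 i3 c6961.symm) (Rc i187 i4 c8996) (Rc i187 i5 c21814)
  have r185 : t185 ∈ rad G := Lrad5 i1 i2 i3 i4 i5 hF i185 (Rc i185 i1 c6680) (Rc i185 i2 c16458) (Rc i185 i3 c16803) (Rc i185 i4 c7141) (Rb b21907 r225)
  have r184 : t184 ∈ rad G := Lrad5 i1 i2 i3 i4 i5 hF i184 (Rc i184 i1 c6678) (Rc i184 i2 c6939.symm) (Rc i184 i3 c6955.symm) (Rc i184 i4 c8919) (Rc i184 i5 c17271)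
  have r151 : t151 ∈ rad G := Lrad5 i1 i2 i3 i4 i5 hF i151 (Rb (Lsw H i1 i151 b6555) r190) (Rc i151 i2 c2884) (Rc i151 i3 c3233) (Rc i151 i4 c21530.symm) (Rc i151 i5 c2019)
  have r149 : t149 ∈ rad G := Lrad5 i1 i2 i3 i4 i5 hF i149 (Rc i149 i1 c2890) (Rb (Lsw H i2 i149 b6567) r195) (Rc i149 i3 c2519.symm) (Rc i149 i4 c21648.symm) (Rc i149 i5 c2015)
  have r143 : t143 ∈ rad G := Lrad5 i1 i2 i3 i4 i5 hF i143 (Rb (Lsw H i1 i143 b6552) r187) (Rc i143 i2 c3299) (Rc i143 i3 c2757) (Rc i143 i4 c2003) (Rc i143 i5 c21547.symm)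
  have r141 : t141 ∈ rad G := Lrad5 i1 i2 i3 i4 i5 hF i141 (Rc i141 i1 c2766) (Rc i141 i2 c2338.symm) (Rb (Lsw H i3 i141 b6577) r209) (Rc i141 i4 c1999) (Rc i141 i5 c21604.symm)
  have r136 : t136 ∈ rad G := Lrad5 i1 i2 i3 i4 i5 hF i136 (Rc i136 i1 c2124.symm) (Rb (Lsw H i2 i136 b6561) r196) (Rc i136 i3 c1989) (Rb b17076 r227) (Rc i136 i5 c2526.symm)
  have r133 : t133 ∈ rad G := Lrad5 i1 i2 i3 i4 i5 hF i133 (Rc i133 i1 c2117.symm) (Rb (Lsw H i2 i133 b6560) r195) (Rc i133 i3 c1983) (Rc i133 i4 c21647) (Rc i133 i5 c2523.symm)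
  have r132 : t132 ∈ rad G := Lrad5 i1 i2 i3 i4 i5 hF i132 (Rc i132 i1 c2116.symm) (Rb b16492 r263) (Rc i132 i3 c1981) (Rb b20577 r229) (Rc i132 i5 c2522.symm)
  have r125 : t125 ∈ rad G := Lrad5 i1 i2 i3 i4 i5 hF i125 (Rc i125 i1 c2101.symm) (Rc i125 i2 c1967) (Rb (Lsw H i3 i125 b6575) r210) (Rc i125 i4 c2343.symm) (Rb (Lsw H i5 i125 b6606) r241)
  have r124 : t124 ∈ rad G := Lrad5 i1 i2 i3 i4 i5 hF i124 (Rc i124 i1 c2099.symm) (Rc i124 i2 c1965) (Rb b16813 r265) (Rc i124 i4 c2342.symm) (Rb (Lsw H i5 i124 b6605) r240)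
  have r123 : t123 ∈ rad G := Lrad5 i1 i2 i3 i4 i5 hF i123 (Rc i123 i1 c2098.symm) (Rc i123 i2 c1963) (Rb (Lsw H i3 i123 b6574) r209) (Rc i123 i4 c2341.symm) (Rc i123 i5 c21531.symm)
  have r115 : t115 ∈ rad G := Lrad5 i1 i2 i3 i4 i5 hF i115 (Rc i115 i1 c1947) (Rc i115 i2 c2104.symm) (Rc i115 i3 c2125.symm) (Rc i115 i4 c21603.symm) (Rb b17309 r240)
  have r113 : t113 ∈ rad G := Lrad5 i1 i2 i3 i4 i5 hF i113 (Rc i113 i1 c1943) (Rc i113 i2 c2102.symm) (Rc i113 i3 c2122.symm) (Rb b20302 r229) (Rc i113 i5 c21560.symm)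
  have r87 : t87 ∈ rad G := Lrad5 i1 i2 i3 i4 i5 hF i87 (Rb (Lsw H i1 i87 b1862) r115) (Rc i87 i2 c993) (Rc i87 i3 c1106) (Rc i87 i4 c985) (Rc i87 i5 c610)
  have r80 : t80 ∈ rad G := Lrad5 i1 i2 i3 i4 i5 hF i80 (Rb (Lsw H i1 i80 b1860) r113) (Rc i80 i2 c1136) (Rc i80 i3 c904) (Rc i80 i4 c596) (Rc i80 i5 c897)
  have r73 : t73 ∈ rad G := Lrad5 i1 i2 i3 i4 i5 hF i73 (Rc i73 i1 c672.symm) (Rb (Lsw H i2 i73 b1871) r124) (Rc i73 i3 c582) (Rc i73 i4 c1693) (Rc i73 i5 c807.symm)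
  have r72 : t72 ∈ rad G := Lrad5 i1 i2 i3 i4 i5 hF i72 (Rc i72 i1 c671.symm) (Rb (Lsw H i2 i72 b1870) r123) (Rc i72 i3 c580) (Rc i72 i4 c942) (Rc i72 i5 c806.symm)
  have r64 : t64 ∈ rad G := Lrad5 i1 i2 i3 i4 i5 hF i64 (Rc i64 i1 c660.symm) (Rc i64 i2 c564) (Rb (Lsw H i3 i64 b1880) r133) (Rc i64 i4 c729.symm) (Rc i64 i5 c1027)
  have r63 : t63 ∈ rad G := Lrad5 i1 i2 i3 i4 i5 hF i63 (Rc i63 i1 c658.symm) (Rc i63 i2 c562) (Rb (Lsw H i3 i63 b1879) r132) (Rc i63 i4 c728.symm) (Rc i63 i5 c1700)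
  have r43 : t43 ∈ rad G := Lrad5 i1 i2 i3 i4 i5 hF i43 (Rc i43 i1 c348) (Rb (Lsw H i2 i43 b497) r64) (Rb (Lsw H i3 i43 b506) r73) (Rc i43 i4 c472) (Rc i43 i5 c202)
  have r39 : t39 ∈ rad G := Lrad5 i1 i2 i3 i4 i5 hF i39 (Rc i39 i1 c328) (Rb (Lsw H i2 i39 b496) r63) (Rb (Lsw H i3 i39 b505) r72) (Rc i39 i4 c194) (Rc i39 i5 c320)
  have r325 : t325 ∈ rad G := Lrad5 i1 i2 i3 i4 i5 hF i325 (Rc i325 i1 c23933) (Rb b24430 r263) (Rc i325 i3 c23960) (Rc i325 i4 c23975) (Rc i325 i5 c23977)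
  have r324 : t324 ∈ rad G := Lrad5 i1 i2 i3 i4 i5 hF i324 (Rc i324 i1 c23934) (Rc i324 i2 c23948) (Rb b24434 r265) (Rc i324 i4 c24087) (Rc i324 i5 c22837)
  have r235 : t235 ∈ rad G := Lrad5 i1 i2 i3 i4 i5 hF i235 (Rb (Lsw H i1 i235 b21921) r190) (Rc i235 i2 c9316) (Rc i235 i3 c16773) (Rb b21805 r225) (Rc i235 i5 c6780)
  have r234 : t234 ∈ rad G := Lrad5 i1 i2 i3 i4 i5 hF i234 (Rc i234 i1 c9331) (Rb b20739 r195) (Rc i234 i3 c7928.symm) (Rc i234 i4 c20740) (Rc i234 i5 c6778)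
  have r224 : t224 ∈ rad G := Lrad5 i1 i2 i3 i4 i5 hF i224 (Rb b23931 r187) (Rc i224 i2 c11915) (Rc i224 i3 c9767) (Rc i224 i4 c6758) (Rb b21885 r225)
  have r222 : t222 ∈ rad G := Lrad5 i1 i2 i3 i4 i5 hF i222 (Rc i222 i1 c8788) (Rc i222 i2 c7417.symm) (Rb b21014 r209) (Rc i222 i4 c6754) (Rc i222 i5 c17296)
  have r215 : t215 ∈ rad G := Lrad5 i1 i2 i3 i4 i5 hF i215 (Rc i215 i1 c9379) (Rb b24085 r324) (Rc i215 i3 c6740) (Rc i215 i4 c17060) (Rc i215 i5 c7939.symm)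
  have r197 : t197 ∈ rad G := Lrad5 i1 i2 i3 i4 i5 hF i197 (Rc i197 i1 c8734) (Rc i197 i2 c6704) (Rb b23963 r325) (Rc i197 i4 c7419.symm) (Rc i197 i5 c9677)
  have r152 : t152 ∈ rad G := Lrad5 i1 i2 i3 i4 i5 hF i152 (Rb (Lsw H i1 i152 b6556) r188) (Rb (Lsw H i2 i152 b6568) r201) (Rb (Lsw H i3 i152 b6581) r215) (Rc i152 i4 c2862) (Rc i152 i5 c2021)
  have r150 : t150 ∈ rad G := Lrad5 i1 i2 i3 i4 i5 hF i150 (Rb (Lsw H i1 i150 b6554) r188) (Rb b16490 r200) (Rb b16766 r215) (Rb (Lsw H i4 i150 b6592) r227) (Rc i150 i5 c2017)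
  have r148 : t148 ∈ rad G := Lrad5 i1 i2 i3 i4 i5 hF i148 (Rb b16081 r188) (Rb (Lsw H i2 i148 b6566) r201) (Rb (Lsw H i3 i148 b6580) r215) (Rb (Lsw H i4 i148 b6590) r225) (Rc i148 i5 c2013)
  have r146 : t146 ∈ rad G := Lrad5 i1 i2 i3 i4 i5 hF i146 (Rb (Lsw H i1 i146 b6553) r188) (Rb (Lsw H i2 i146 b6565) r200) (Rb b16763 r215) (Rb b21698 r231) (Rc i146 i5 c2009)
  have r145 : t145 ∈ rad G := Lrad5 i1 i2 i3 i4 i5 hF i145 (Rb b16074 r185) (Rb (Lsw H i2 i145 b6564) r197) (Rb (Lsw H i3 i145 b6579) r213) (Rc i145 i4 c2007) (Rc i145 i5 c2745)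
  have r144 : t144 ∈ rad G := Lrad5 i1 i2 i3 i4 i5 hF i144 (Rb b21718 r185) (Rb (Lsw H i2 i144 b6563) r197) (Rb b16809 r211) (Rc i144 i4 c2005) (Rb b17297 r241)
  have r142 : t142 ∈ rad G := Lrad5 i1 i2 i3 i4 i5 hF i142 (Rb (Lsw H i1 i142 b6551) r185) (Rb (Lsw H i2 i142 b6562) r197) (Rb (Lsw H i3 i142 b6578) r213) (Rc i142 i4 c2001) (Rb b21920 r225)
  have r140 : t140 ∈ rad G := Lrad5 i1 i2 i3 i4 i5 hF i140 (Rb (Lsw H i1 i140 b6550) r185) (Rb b16446 r197) (Rb (Lsw H i3 i140 b6576) r211) (Rc i140 i4 c1997) (Rb b21713 r248)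
  have r131 : t131 ∈ rad G := Lrad5 i1 i2 i3 i4 i5 hF i131 (Rb b16056 r207) (Rc i131 i2 c2631) (Rc i131 i3 c1979) (Rb b17046 r222) (Rc i131 i5 c3132)
  have r130 : t130 ∈ rad G := Lrad5 i1 i2 i3 i4 i5 hF i130 (Rb b16055 r207) (Rc i130 i2 c2625) (Rc i130 i3 c1977) (Rc i130 i4 c2606) (Rb (Lsw H i5 i130 b6607) r215)
  have r127 : t127 ∈ rad G := Lrad5 i1 i2 i3 i4 i5 hF i127 (Rb b16051 r184) (Rc i127 i2 c1971) (Rc i127 i3 c2439) (Rb b16449 r197) (Rc i127 i5 c2405)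
  have r122 : t122 ∈ rad G := Lrad5 i1 i2 i3 i4 i5 hF i122 (Rb (Lsw H i1 i122 b6549) r184) (Rc i122 i2 c1961) (Rc i122 i3 c2433) (Rc i122 i4 c3124) (Rb b17270 r234)
  have r114 : t114 ∈ rad G := Lrad5 i1 i2 i3 i4 i5 hF i114 (Rc i114 i1 c1945) (Rb b16052 r184) (Rc i114 i3 c2123.symm) (Rb b17055 r224) (Rc i114 i5 c2185)
  have r112 : t112 ∈ rad G := Lrad5 i1 i2 i3 i4 i5 hF i112 (Rc i112 i1 c1941) (Rc i112 i2 c2100.symm) (Rb (Lsw H i3 i112 b6573) r207) (Rc i112 i4 c2203) (Rb (Lsw H i5 i112 b6602) r235)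
  have r111 : t111 ∈ rad G := Lrad5 i1 i2 i3 i4 i5 hF i111 (Rc i111 i1 c1939) (Rb b16050 r184) (Rc i111 i3 c2119.symm) (Rb b21039 r224) (Rc i111 i5 c2925)
  have r110 : t110 ∈ rad G := Lrad5 i1 i2 i3 i4 i5 hF i110 (Rc i110 i1 c1937) (Rc i110 i2 c2097.symm) (Rc i110 i3 c2118.symm) (Rb (Lsw H i4 i110 b6587) r222) (Rb (Lsw H i5 i110 b6601) r215)
  have r108 : t108 ∈ rad G := Lrad5 i1 i2 i3 i4 i5 hF i108 (Rc i108 i1 c1933) (Rc i108 i2 c2095.symm) (Rb (Lsw H i3 i108 b6572) r207) (Rc i108 i4 c2784) (Rb (Lsw H i5 i108 b6600) r235)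
  have r107 : t107 ∈ rad G := Lrad5 i1 i2 i3 i4 i5 hF i107 (Rc i107 i1 c1931) (Rc i107 i2 c2094.symm) (Rc i107 i3 c2113.symm) (Rb (Lsw H i4 i107 b6586) r197) (Rb (Lsw H i5 i107 b6599) r234)
  have r85 : t85 ∈ rad G := Lrad5 i1 i2 i3 i4 i5 hF i85 (Rc i85 i1 c978) (Rb (Lsw H i2 i85 b1873) r64) (Rb (Lsw H i3 i85 b1883) r136) (Rc i85 i4 c1055) (Rc i85 i5 c606)
  have r84 : t84 ∈ rad G := Lrad5 i1 i2 i3 i4 i5 hF i84 (Rb (Lsw H i1 i84 b1861) r114) (Rb b4186 r127) (Rc i84 i3 c800.symm) (Rb (Lsw H i4 i84 b1892) r145) (Rc i84 i5 c604)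
  have r78 : t78 ∈ rad G := Lrad5 i1 i2 i3 i4 i5 hF i78 (Rc i78 i1 c912) (Rb (Lsw H i2 i78 b1872) r125) (Rb (Lsw H i3 i78 b1882) r72) (Rc i78 i4 c592) (Rc i78 i5 c1033)
  have r77 : t77 ∈ rad G := Lrad5 i1 i2 i3 i4 i5 hF i77 (Rb (Lsw H i1 i77 b1859) r112) (Rc i77 i2 c722.symm) (Rb (Lsw H i3 i77 b1881) r130) (Rc i77 i4 c590) (Rb (Lsw H i5 i77 b1899) r152)
  have r71 : t71 ∈ rad G := Lrad5 i1 i2 i3 i4 i5 hF i71 (Rb (Lsw H i1 i71 b1858) r111) (Rb b4189 r127) (Rc i71 i3 c578) (Rb (Lsw H i4 i71 b1891) r144) (Rc i71 i5 c804.symm)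
  have r70 : t70 ∈ rad G := Lrad5 i1 i2 i3 i4 i5 hF i70 (Rb b5309 r111) (Rb (Lsw H i2 i70 b1869) r122) (Rc i70 i3 c576) (Rb (Lsw H i4 i70 b1890) r143) (Rb b4245 r136)
  have r69 : t69 ∈ rad G := Lrad5 i1 i2 i3 i4 i5 hF i69 (Rb (Lsw H i1 i69 b1857) r110) (Rc i69 i2 c842) (Rc i69 i3 c574) (Rc i69 i4 c1421) (Rc i69 i5 c1486)
  have r62 : t62 ∈ rad G := Lrad5 i1 i2 i3 i4 i5 hF i62 (Rb (Lsw H i1 i62 b1856) r108) (Rc i62 i2 c560) (Rb (Lsw H i3 i62 b1878) r131) (Rb b4179 r125) (Rb (Lsw H i5 i62 b1898) r151)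
  have r61 : t61 ∈ rad G := Lrad5 i1 i2 i3 i4 i5 hF i61 (Rb (Lsw H i1 i61 b1855) r108) (Rc i61 i2 c558) (Rb (Lsw H i3 i61 b1877) r130) (Rc i61 i4 c726.symm) (Rb (Lsw H i5 i61 b1897) r150)
  have r60 : t60 ∈ rad G := Lrad5 i1 i2 i3 i4 i5 hF i60 (Rb (Lsw H i1 i60 b1854) r107) (Rc i60 i2 c556) (Rc i60 i3 c762) (Rc i60 i4 c1458) (Rc i60 i5 c755)
  have r57 : t57 ∈ rad G := Lrad5 i1 i2 i3 i4 i5 hF i57 (Rc i57 i1 c550) (Rb (Lsw H i2 i57 b1868) r107) (Rc i57 i3 c673.symm) (Rb (Lsw H i4 i57 b1889) r142) (Rb (Lsw H i5 i57 b1896) r149)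
  have r56 : t56 ∈ rad G := Lrad5 i1 i2 i3 i4 i5 hF i56 (Rc i56 i1 c548) (Rc i56 i2 c659.symm) (Rb b4085 r110) (Rb (Lsw H i4 i56 b1888) r141) (Rb (Lsw H i5 i56 b1895) r148)
  have r55 : t55 ∈ rad G := Lrad5 i1 i2 i3 i4 i5 hF i55 (Rc i55 i1 c546) (Rb b4075 r108) (Rc i55 i3 c670.symm) (Rc i55 i4 c1692) (Rc i55 i5 c692)
  have r54 : t54 ∈ rad G := Lrad5 i1 i2 i3 i4 i5 hF i54 (Rc i54 i1 c544) (Rb (Lsw H i2 i54 b1867) r107) (Rc i54 i3 c669.symm) (Rb (Lsw H i4 i54 b1887) r140) (Rb (Lsw H i5 i54 b1894) r136)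
  have r53 : t53 ∈ rad G := Lrad5 i1 i2 i3 i4 i5 hF i53 (Rc i53 i1 c542) (Rc i53 i2 c655.symm) (Rb b4084 r111) (Rc i53 i4 c1345) (Rc i53 i5 c1699)
  have r52 : t52 ∈ rad G := Lrad5 i1 i2 i3 i4 i5 hF i52 (Rc i52 i1 c540) (Rc i52 i2 c654.symm) (Rb (Lsw H i3 i52 b1876) r110) (Rb b4178 r125) (Rb (Lsw H i5 i52 b1893) r146)
  have r44 : t44 ∈ rad G := Lrad5 i1 i2 i3 i4 i5 hF i44 (Rb (Lsw H i1 i44 b490) r57) (Rb (Lsw H i2 i44 b498) r60) (Rc i44 i3 c297.symm) (Rb (Lsw H i4 i44 b515) r80) (Rc i44 i5 c204)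
  have r40 : t40 ∈ rad G := Lrad5 i1 i2 i3 i4 i5 hF i40 (Rb (Lsw H i1 i40 b489) r56) (Rc i40 i2 c268.symm) (Rb b1591 r69) (Rc i40 i4 c196) (Rb (Lsw H i5 i40 b522) r87)
  have r37 : t37 ∈ rad G := Lrad5 i1 i2 i3 i4 i5 hF i37 (Rb (Lsw H i1 i37 b488) r55) (Rb (Lsw H i2 i37 b495) r62) (Rc i37 i3 c190) (Rb (Lsw H i4 i37 b514) r78) (Rc i37 i5 c299.symm)
  have r36 : t36 ∈ rad G := Lrad5 i1 i2 i3 i4 i5 hF i36 (Rb b1579 r55) (Rb (Lsw H i2 i36 b494) r61) (Rc i36 i3 c188) (Rc i36 i4 c302) (Rb (Lsw H i5 i36 b521) r73)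
  have r35 : t35 ∈ rad G := Lrad5 i1 i2 i3 i4 i5 hF i35 (Rb (Lsw H i1 i35 b487) r54) (Rb (Lsw H i2 i35 b493) r60) (Rc i35 i3 c186) (Rb (Lsw H i4 i35 b513) r80) (Rc i35 i5 c298.symm)
  have r33 : t33 ∈ rad G := Lrad5 i1 i2 i3 i4 i5 hF i33 (Rb (Lsw H i1 i33 b486) r53) (Rc i33 i2 c182) (Rb (Lsw H i3 i33 b504) r71) (Rb (Lsw H i4 i33 b512) r63) (Rc i33 i5 c275)
  have r32 : t32 ∈ rad G := Lrad5 i1 i2 i3 i4 i5 hF i32 (Rb b1578 r53) (Rc i32 i2 c180) (Rb (Lsw H i3 i32 b503) r70) (Rc i32 i4 c270.symm) (Rb b1478 r85)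
  have r31 : t31 ∈ rad G := Lrad5 i1 i2 i3 i4 i5 hF i31 (Rb (Lsw H i1 i31 b485) r52) (Rc i31 i2 c178) (Rb (Lsw H i3 i31 b502) r69) (Rc i31 i4 c269.symm) (Rb (Lsw H i5 i31 b520) r87)
  have r29 : t29 ∈ rad G := Lrad5 i1 i2 i3 i4 i5 hF i29 (Rc i29 i1 c174) (Rb b1339 r53) (Rb b1342 r55) (Rc i29 i4 c243) (Rc i29 i5 c471)
  have r28 : t28 ∈ rad G := Lrad5 i1 i2 i3 i4 i5 hF i28 (Rc i28 i1 c172) (Rb (Lsw H i2 i28 b492) r52) (Rc i28 i3 c236.symm) (Rb (Lsw H i4 i28 b511) r78) (Rb (Lsw H i5 i28 b519) r73)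
  have r27 : t27 ∈ rad G := Lrad5 i1 i2 i3 i4 i5 hF i27 (Rc i27 i1 c170) (Rc i27 i2 c226.symm) (Rc i27 i3 c235.symm) (Rb (Lsw H i4 i27 b510) r77) (Rc i27 i5 c251)
  have r26 : t26 ∈ rad G := Lrad5 i1 i2 i3 i4 i5 hF i26 (Rc i26 i1 c168) (Rc i26 i2 c225.symm) (Rb (Lsw H i3 i26 b501) r54) (Rb (Lsw H i4 i26 b509) r63) (Rb (Lsw H i5 i26 b518) r85)
  have r25 : t25 ∈ rad G := Lrad5 i1 i2 i3 i4 i5 hF i25 (Rc i25 i1 c166) (Rc i25 i2 c224.symm) (Rc i25 i3 c233.symm) (Rc i25 i4 c249) (Rb (Lsw H i5 i25 b517) r84)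
  have r23 : t23 ∈ rad G := Lrad5 i1 i2 i3 i4 i5 hF i23 (Rb b467 r29) (Rb (Lsw H i2 i23 b147) r33) (Rb (Lsw H i3 i23 b151) r37) (Rb (Lsw H i4 i23 b155) r39) (Rc i23 i5 c66)
  have r20 : t20 ∈ rad G := Lrad5 i1 i2 i3 i4 i5 hF i20 (Rb (Lsw H i1 i20 b143) r29) (Rb (Lsw H i2 i20 b146) r32) (Rb (Lsw H i3 i20 b150) r36) (Rc i20 i4 c60) (Rb b473 r43)
  have r19 : t19 ∈ rad G := Lrad5 i1 i2 i3 i4 i5 hF i19 (Rb (Lsw H i1 i19 b142) r28) (Rb (Lsw H i2 i19 b145) r31) (Rc i19 i3 c58) (Rc i19 i4 c106) (Rc i19 i5 c109.symm)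
  have r18 : t18 ∈ rad G := Lrad5 i1 i2 i3 i4 i5 hF i18 (Rb (Lsw H i1 i18 b141) r27) (Rc i18 i2 c105) (Rc i18 i3 c56) (Rb (Lsw H i4 i18 b154) r40) (Rc i18 i5 c108.symm)
  have r17 : t17 ∈ rad G := Lrad5 i1 i2 i3 i4 i5 hF i17 (Rb (Lsw H i1 i17 b140) r26) (Rc i17 i2 c54) (Rb (Lsw H i3 i17 b149) r35) (Rc i17 i4 c96.symm) (Rc i17 i5 c91)
  have r16 : t16 ∈ rad G := Lrad5 i1 i2 i3 i4 i5 hF i16 (Rb (Lsw H i1 i16 b139) r25) (Rc i16 i2 c52) (Rc i16 i3 c89) (Rc i16 i4 c95.symm) (Rb (Lsw H i5 i16 b158) r44)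
  have r14 : t14 ∈ rad G := Lrad5 i1 i2 i3 i4 i5 hF i14 (Rc i14 i1 c48) (Rb b419 r26) (Rb (Lsw H i3 i14 b148) r28) (Rb (Lsw H i4 i14 b153) r39) (Rb (Lsw H i5 i14 b157) r43)
  have r13 : t13 ∈ rad G := Lrad5 i1 i2 i3 i4 i5 hF i13 (Rc i13 i1 c46) (Rb (Lsw H i2 i13 b144) r25) (Rc i13 i3 c78.symm) (Rc i13 i4 c76) (Rb (Lsw H i5 i13 b156) r37)
  have r12 : t12 ∈ rad G := Lrad5 i1 i2 i3 i4 i5 hF i12 (Rc i12 i1 c44) (Rc i12 i2 c73.symm) (Rb b420 r27) (Rb (Lsw H i4 i12 b152) r32) (Rc i12 i5 c71)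
  have r11 : t11 ∈ rad G := Lrad5 i1 i2 i3 i4 i5 hF i11 (Rb (Lsw H i1 i11 b33) r14) (Rb (Lsw H i2 i11 b36) r17) (Rb (Lsw H i3 i11 b38) r19) (Rc i11 i4 c20) (Rc i11 i5 c21)
  have r10 : t10 ∈ rad G := Lrad5 i1 i2 i3 i4 i5 hF i10 (Rb (Lsw H i1 i10 b32) r13) (Rb (Lsw H i2 i10 b35) r16) (Rc i10 i3 c18) (Rc i10 i4 c19) (Rb b136 r19)
  have r9 : t9 ∈ rad G := Lrad5 i1 i2 i3 i4 i5 hF i9 (Rb (Lsw H i1 i9 b31) r12) (Rc i9 i2 c16) (Rb (Lsw H i3 i9 b37) r18) (Rb (Lsw H i4 i9 b41) r17) (Rc i9 i5 c17)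
  have r8 : t8 ∈ rad G := Lrad5 i1 i2 i3 i4 i5 hF i8 (Rc i8 i1 c22.symm) (Rc i8 i2 c14) (Rc i8 i3 c15) (Rb (Lsw H i4 i8 b40) r16) (Rb (Lsw H i5 i8 b43) r18)
  have r7 : t7 ∈ rad G := Lrad5 i1 i2 i3 i4 i5 hF i7 (Rc i7 i1 c12) (Rb (Lsw H i2 i7 b34) r12) (Rc i7 i3 c26.symm) (Rb (Lsw H i4 i7 b39) r20) (Rc i7 i5 c13)
  have r6 : t6 ∈ rad G := Lrad5 i1 i2 i3 i4 i5 hF i6 (Rc i6 i1 c10) (Rc i6 i2 c23.symm) (Rb b128 r13) (Rc i6 i4 c11) (Rb (Lsw H i5 i6 b42) r23)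
  have r5 : e ∈ rad G := Lrad5 i1 i2 i3 i4 i5 hF i5 (Rb (Lsw H i1 i5 b5) r7) (Rb (Lsw H i2 i5 b7) r9) (Rc i5 i3 hce.symm) (Rb (Lsw H i4 i5 b9) r11) (Rc i5 i5 (Commute.refl _))
  have r4 : d ∈ rad G := Lrad5 i1 i2 i3 i4 i5 hF i4 (Rb (Lsw H i1 i4 b4) r6) (Rc i4 i2 hbd.symm) (Rb (Lsw H i3 i4 b8) r10) (Rc i4 i4 (Commute.refl _)) (Rb b9 r11)
  have r3 : c ∈ rad G := Lrad5 i1 i2 i3 i4 i5 hF i3 (Rc i3 i1 hac.symm) (Rb (Lsw H i2 i3 b6) r8) (Rc i3 i3 (Commute.refl _)) (Rb b8 r10) (Rc i3 i5 hce)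
  have r2 : b ∈ rad G := Lrad5 i1 i2 i3 i4 i5 hF i2 (Rc i2 i1 hab.symm) (Rc i2 i2 (Commute.refl _)) (Rb b6 r8) (Rc i2 i4 hbd) (Rb b7 r9)
  have r1 : a ∈ rad G := Lrad5 i1 i2 i3 i4 i5 hF i1 (Rc i1 i1 (Commute.refl _)) (Rc i1 i2 hab) (Rc i1 i3 hac) (Rb b4 r6) (Rb b5 r7)
  exact ⟨r1, r2, r3, r4, r5⟩

end Pool.Agent.H678.Inv
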