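import Pool.Agent.H678.Inv.L5

/-!
# Five involutions, commuting pairs: ab ac ad ae bc

The derivation was found by a saturation program.  `t`: commutators of involutions, `i`: their
squares are `1`, `b`: brackets, `c`: commuting elements, `e`, `m`: equalities, `q`: relations
between commuting elements, `r`: elements of the radical.
-/

set_option autoImplicit false
set_option linter.unusedVariables false

namespace Pool.Agent.H678.Inv

open Pool.Agent.W5h59.Bu (LFn LF2 rad rad_lf rad_quot le_rad lf_of_comm)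

universe u

variable {G : Type u} [Group G]

theorem fin5_S (H : E2 G) {a b c d e : G} (i1 : a * a = 1) (i2 : b * b = 1) (i3 : c * c = 1) (i4 : d * d = 1) (i5 : e * e = 1)
    (hab : Commute a b) (hac : Commute a c) (had : Commute a d) (hae : Commute a e) (hbc : Commute b c)
    (hF : Subgroup.closure ({a, b, c, d, e} : Set G) = ⊤) :
    a ∈ rad G ∧ b ∈ rad G ∧ c ∈ rad G ∧ d ∈ rad G ∧ e ∈ rad G := by
  obtain ⟨t6, b5⟩ : ∃ t, k b d = t := ⟨_, rfl⟩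
  have i6 := Linv H i2 i4 b5
  obtain ⟨t7, b6⟩ : ∃ t, k b e = t := ⟨_, rfl⟩
  have i7 := Linv H i2 i5 b6
  obtain ⟨t8, b7⟩ : ∃ t, k c d = t := ⟨_, rfl⟩
  have i8 := Linv H i3 i4 b7
  obtain ⟨t9, b8⟩ : ∃ t, k c e = t := ⟨_, rfl⟩
  have i9 := Linv H i3 i5 b8
  obtain ⟨t10, b9⟩ : ∃ t, k d e = t := ⟨_, rfl⟩
  have i10 := Linv H i4 i5 b9
  have c10 := Lkl H i2 i4 b5
  have c11 := Lkr H i2 i4 b5
  have c12 := Lkl H i2 i5 b6
  have c13 := Lkr H i2 i5 b6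
  have c14 := Lkl H i3 i4 b7
  have c15 := Lkr H i3 i4 b7
  have c16 := Lkl H i3 i5 b8
  have c17 := Lkr H i3 i5 b8
  have c18 := Lkl H i4 i5 b9
  have c19 := Lkr H i4 i5 b9
  have c20 := Lck hab had b5
  have c21 := Lck hab hae b6
  have c22 := Lck hac had b7
  have c23 := Lck hac hae b8
  have c24 := Lck had hae b9
  have c25 := LP2 H i2 i3 i4 hbc b5 b7
  have c26 := LP2 H i2 i3 i5 hbc b6 b8
  obtain ⟨t11, b27⟩ : ∃ t, k b t8 = t := ⟨_, rfl⟩
  have i11 := Linv H i2 i8 b27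
  obtain ⟨t12, b28⟩ : ∃ t, k b t9 = t := ⟨_, rfl⟩
  have i12 := Linv H i2 i9 b28
  obtain ⟨t13, b29⟩ : ∃ t, k b t10 = t := ⟨_, rfl⟩
  have i13 := Linv H i2 i10 b29
  obtain ⟨t14, b30⟩ : ∃ t, k c t10 = t := ⟨_, rfl⟩
  have i14 := Linv H i3 i10 b30
  obtain ⟨t15, b31⟩ : ∃ t, k d t7 = t := ⟨_, rfl⟩
  have i15 := Linv H i4 i7 b31
  obtain ⟨t16, b32⟩ : ∃ t, k d t9 = t := ⟨_, rfl⟩
  have i16 := Linv H i4 i9 b32
  obtain ⟨t17, b33⟩ : ∃ t, k e t6 = t := ⟨_, rfl⟩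
  have i17 := Linv H i5 i6 b33
  obtain ⟨t18, b34⟩ : ∃ t, k e t8 = t := ⟨_, rfl⟩
  have i18 := Linv H i5 i8 b34
  have c35 := Lkl H i2 i8 b27
  have c36 := Lkr H i2 i8 b27
  have c37 := Lkl H i2 i9 b28
  have c38 := Lkr H i2 i9 b28
  have c39 := Lkl H i2 i10 b29
  have c40 := Lkr H i2 i10 b29
  have c41 := Lkl H i3 i10 b30
  have c42 := Lkr H i3 i10 b30
  have c43 := Lkl H i4 i7 b31
  have c44 := Lkr H i4 i7 b31
  have c45 := Lkl H i4 i9 b32
  have c46 := Lkr H i4 i9 b32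
  have c47 := Lkl H i5 i6 b33
  have c48 := Lkr H i5 i6 b33
  have c49 := Lkl H i5 i8 b34
  have c50 := Lkr H i5 i8 b34
  have c51 := Lck hab c22 b27
  have c52 := Lck hab c23 b28
  have c53 := Lck hab c24 b29
  have c54 := Lck hac c24 b30
  have c55 := Lck had c21 b31
  have c56 := Lck had c23 b32
  have c57 := Lck hae c20 b33
  have c58 := Lck hae c22 b34
  have c59 := LP3 H i3 i2 i4 hbc.symm b7 (Lsw H i2 i8 b27)
  have c60 := LP3 H i3 i2 i5 hbc.symm b8 (Lsw H i2 i9 b28)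
  have c61 := Lck hbc.symm c14.symm b27
  have c62 := Lck hbc.symm c16.symm b28
  have c63 := LP2 H i2 i3 i10 hbc b29 b30
  have c64 := LP2 H i2 i6 i5 c10.symm b6 (Lsw H i5 i6 b33)
  have c65 := Lck c10 c25 b27
  have c66 := LP2 H i2 i7 i4 c12.symm b5 (Lsw H i4 i7 b31)
  have c67 := Lck c12 c26 b28
  have c68 := LP2 H i3 i8 i5 c14.symm b8 (Lsw H i5 i8 b34)
  have c69 := LP2 H i3 i9 i4 c16.symm b7 (Lsw H i4 i9 b32)
  have c70 := LP2 H i4 i6 i5 c11.symm b9 (Lsw H i5 i6 b33)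
  have c71 := LP2 H i4 i8 i5 c15.symm b9 (Lsw H i5 i8 b34)
  have c72 := LP2 H i4 i10 i2 c18.symm (Lsw H i2 i4 b5) (Lsw H i2 i10 b29)
  have c73 := LP2 H i4 i10 i3 c18.symm (Lsw H i3 i4 b7) (Lsw H i3 i10 b30)
  have c74 := LP2 H i5 i7 i4 c13.symm (Lsw H i4 i5 b9) (Lsw H i4 i7 b31)
  have c75 := LP2 H i5 i9 i4 c17.symm (Lsw H i4 i5 b9) (Lsw H i4 i9 b32)
  have c76 := LP2 H i5 i10 i2 c19.symm (Lsw H i2 i5 b6) (Lsw H i2 i10 b29)
  have c77 := LP2 H i5 i10 i3 c19.symm (Lsw H i3 i5 b8) (Lsw H i3 i10 b30)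
  have c78 := LP2 H i6 i8 i5 c25 (Lsw H i5 i6 b33) (Lsw H i5 i8 b34)
  have c79 := LP2 H i7 i9 i4 c26 (Lsw H i4 i7 b31) (Lsw H i4 i9 b32)
  have b80 := LP1 H i3 i2 i4 hbc.symm b7 b5 (Lsw H i2 i8 b27)
  have b81 := LP1 H i3 i2 i5 hbc.symm b8 b6 (Lsw H i2 i9 b28)
  obtain ⟨t19, b82⟩ : ∃ t, k b t14 = t := ⟨_, rfl⟩
  have i19 := Linv H i2 i14 b82
  obtain ⟨t20, b83⟩ : ∃ t, k b t15 = t := ⟨_, rfl⟩
  have i20 := Linv H i2 i15 b83
  obtain ⟨t21, b84⟩ : ∃ t, k b t16 = t := ⟨_, rfl⟩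
  have i21 := Linv H i2 i16 b84
  obtain ⟨t22, b85⟩ : ∃ t, k b t18 = t := ⟨_, rfl⟩
  have i22 := Linv H i2 i18 b85
  obtain ⟨t23, b86⟩ : ∃ t, k c t15 = t := ⟨_, rfl⟩
  have i23 := Linv H i3 i15 b86
  obtain ⟨t24, b87⟩ : ∃ t, k c t16 = t := ⟨_, rfl⟩
  have i24 := Linv H i3 i16 b87
  obtain ⟨t25, b88⟩ : ∃ t, k c t17 = t := ⟨_, rfl⟩
  have i25 := Linv H i3 i17 b88
  obtain ⟨t26, b89⟩ : ∃ t, k c t18 = t := ⟨_, rfl⟩
  have i26 := Linv H i3 i18 b89
  obtain ⟨t27, b90⟩ : ∃ t, k d t12 = t := ⟨_, rfl⟩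
  have i27 := Linv H i4 i12 b90
  obtain ⟨t28, b91⟩ : ∃ t, k d t13 = t := ⟨_, rfl⟩
  have i28 := Linv H i4 i13 b91
  obtain ⟨t29, b92⟩ : ∃ t, k d t14 = t := ⟨_, rfl⟩
  have i29 := Linv H i4 i14 b92
  obtain ⟨t30, b93⟩ : ∃ t, k e t11 = t := ⟨_, rfl⟩
  have i30 := Linv H i5 i11 b93
  obtain ⟨t31, b94⟩ : ∃ t, k e t13 = t := ⟨_, rfl⟩
  have i31 := Linv H i5 i13 b94
  obtain ⟨t32, b95⟩ : ∃ t, k e t14 = t := ⟨_, rfl⟩
  have i32 := Linv H i5 i14 b95
  obtain ⟨t33, b96⟩ : ∃ t, k t6 t7 = t := ⟨_, rfl⟩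
  have i33 := Linv H i6 i7 b96
  obtain ⟨t34, b97⟩ : ∃ t, k t6 t9 = t := ⟨_, rfl⟩
  have i34 := Linv H i6 i9 b97
  obtain ⟨t35, b98⟩ : ∃ t, k t7 t8 = t := ⟨_, rfl⟩
  have i35 := Linv H i7 i8 b98
  have c99 := Lkl H i2 i14 b82
  have c101 := Lkl H i2 i15 b83
  have c102 := Lkr H i2 i15 b83
  have c103 := Lkl H i2 i16 b84
  have c104 := Lkr H i2 i16 b84
  have c105 := Lkl H i2 i18 b85
  have c106 := Lkr H i2 i18 b85
  have c107 := Lkl H i3 i15 b86
  have c108 := Lkr H i3 i15 b86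
  have c109 := Lkl H i3 i16 b87
  have c110 := Lkr H i3 i16 b87
  have c111 := Lkl H i3 i17 b88
  have c112 := Lkr H i3 i17 b88
  have c114 := Lkr H i3 i18 b89
  have c115 := Lkl H i4 i12 b90
  have c116 := Lkr H i4 i12 b90
  have c117 := Lkl H i4 i13 b91
  have c118 := Lkr H i4 i13 b91
  have c119 := Lkl H i4 i14 b92
  have c120 := Lkr H i4 i14 b92
  have c121 := Lkl H i5 i11 b93
  have c123 := Lkl H i5 i13 b94
  have c124 := Lkr H i5 i13 b94
  have c125 := Lkl H i5 i14 b95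
  have c126 := Lkr H i5 i14 b95
  have c131 := Lkl H i7 i8 b98
  have c132 := Lkr H i7 i8 b98
  have c133 := Lck hab c54 b82
  have c134 := Lck hab c55 b83
  have c135 := Lck hab c56 b84
  have c136 := Lck hab c58 b85
  have c137 := Lck hac c55 b86
  have c138 := Lck hac c56 b87
  have c139 := Lck hac c57 b88
  have c141 := Lck had c52 b90
  have c142 := Lck had c53 b91
  have c143 := Lck had c54 b92
  have c144 := Lck hae c51 b93
  have c145 := Lck hae c53 b94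
  have c146 := Lck hae c54 b95
  have c148 := Lck c20 c23 b97
  have c149 := Lck c21 c22 b98
  have c150 := LP3 H i3 i2 i10 hbc.symm b30 (Lsw H i2 i14 b82)
  have c151 := Lck hbc.symm c41.symm b82
  have c152 := LP2 H i2 i3 i15 hbc b83 b86
  have c153 := LP2 H i2 i3 i16 hbc b84 b87
  have c154 := LP2 H i2 i3 i18 hbc b85 b89
  have c155 := LP3 H i2 i6 i5 c10.symm b6 (Lsw H i6 i7 b96)
  have c158 := Lck c10 c66 b83
  have c160 := LP3 H i7 i2 i4 c12 (Lsw H i4 i7 b31) (Lsw H i2 i15 b83)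
  have c161 := LP2 H i2 i7 i8 c12.symm b27 b98
  have c162 := Lck c12 c44.symm b83
  have c163 := LP2 H i2 i11 i5 c35.symm b6 (Lsw H i5 i11 b93)
  have c164 := LP2 H i2 i12 i4 c37.symm b5 (Lsw H i4 i12 b90)
  have c165 := LP2 H i2 i13 i4 c39.symm b5 (Lsw H i4 i13 b91)
  have c166 := LP2 H i2 i13 i5 c39.symm b6 (Lsw H i5 i13 b94)
  have c167 := Lck c39 c63 b82
  have c168 := LP3 H i8 i3 i5 c14 (Lsw H i5 i8 b34) (Lsw H i3 i18 b89)
  have c169 := LP2 H i3 i8 i7 c14.symm (Lsw H i7 i3 b81) (Lsw H i7 i8 b98)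
  have c170 := Lck c14 c69 b87
  have c172 := LP3 H i9 i3 i4 c16 (Lsw H i4 i9 b32) (Lsw H i3 i16 b87)
  have c174 := Lck c16 c46.symm b87
  have c176 := LP2 H i3 i11 i5 c61 b8 (Lsw H i5 i11 b93)
  have c177 := LP2 H i3 i12 i4 c62 b7 (Lsw H i4 i12 b90)
  have c178 := LP2 H i3 i14 i4 c41.symm b7 (Lsw H i4 i14 b92)
  have c179 := LP2 H i3 i14 i5 c41.symm b8 (Lsw H i5 i14 b95)
  have c181 := LP2 H i4 i6 i9 c11.symm b32 b97
  have c183 := LP3 H i10 i4 i2 c18 (Lsw H i2 i10 b29) (Lsw H i4 i13 b91)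
  have c184 := LP3 H i10 i4 i3 c18 (Lsw H i3 i10 b30) (Lsw H i4 i14 b92)
  have c185 := Lck c18 c40.symm b91
  have c187 := LP2 H i4 i11 i5 c59.symm b9 (Lsw H i5 i11 b93)
  have c191 := LP2 H i5 i7 i8 c13.symm b34 b98
  have c192 := LP2 H i5 i9 i6 c17.symm b33 (Lsw H i6 i9 b97)
  have c193 := LP3 H i10 i5 i2 c19 (Lsw H i2 i10 b29) (Lsw H i5 i13 b94)
  have c194 := LP3 H i10 i5 i3 c19 (Lsw H i3 i10 b30) (Lsw H i5 i14 b95)
  have c195 := Lck c19 c40.symm b94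
  have c196 := Lck c19 c42.symm b95
  have c197 := LP2 H i5 i12 i4 c60.symm (Lsw H i4 i5 b9) (Lsw H i4 i12 b90)
  have c198 := LP2 H i5 i17 i3 c47.symm (Lsw H i3 i5 b8) (Lsw H i3 i17 b88)
  have c199 := LP2 H i5 i18 i2 c49.symm (Lsw H i2 i5 b6) (Lsw H i2 i18 b85)
  have c200 := LP2 H i6 i8 i7 c25 b96 (Lsw H i7 i8 b98)
  have c201 := LP2 H i6 i11 i5 c65 (Lsw H i5 i6 b33) (Lsw H i5 i11 b93)
  have c202 := LP2 H i6 i13 i5 c72 (Lsw H i5 i6 b33) (Lsw H i5 i13 b94)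
  have c204 := LP2 H i6 i15 i3 c66 b80 (Lsw H i3 i15 b86)
  have c205 := LP2 H i6 i17 i3 c48.symm b80 (Lsw H i3 i17 b88)
  have c207 := LP2 H i7 i12 i4 c67 (Lsw H i4 i7 b31) (Lsw H i4 i12 b90)
  have c208 := LP2 H i7 i13 i4 c76 (Lsw H i4 i7 b31) (Lsw H i4 i13 b91)
  have c209 := LP2 H i7 i15 i3 c44.symm b81 (Lsw H i3 i15 b86)
  have c211 := LP2 H i8 i11 i5 c36.symm (Lsw H i5 i8 b34) (Lsw H i5 i11 b93)
  have c212 := LP2 H i8 i14 i2 c73 (Lsw H i2 i8 b27) (Lsw H i2 i14 b82)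
  have c213 := LP2 H i8 i14 i5 c73 (Lsw H i5 i8 b34) (Lsw H i5 i14 b95)
  have c214 := LP2 H i8 i16 i2 c69 (Lsw H i2 i8 b27) (Lsw H i2 i16 b84)
  have c215 := LP2 H i8 i18 i2 c50.symm (Lsw H i2 i8 b27) (Lsw H i2 i18 b85)
  have c216 := LP2 H i9 i12 i4 c38.symm (Lsw H i4 i9 b32) (Lsw H i4 i12 b90)
  have c217 := LP2 H i9 i14 i2 c77 (Lsw H i2 i9 b28) (Lsw H i2 i14 b82)
  have c219 := LP2 H i9 i16 i2 c46.symm (Lsw H i2 i9 b28) (Lsw H i2 i16 b84)
  have c220 := LP2 H i9 i18 i2 c68 (Lsw H i2 i9 b28) (Lsw H i2 i18 b85)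
  have c222 := LP2 H i10 i15 i3 c74 (Lsw H i3 i10 b30) (Lsw H i3 i15 b86)
  have c223 := LP2 H i10 i16 i2 c75 (Lsw H i2 i10 b29) (Lsw H i2 i16 b84)
  have c225 := LP2 H i10 i17 i3 c70 (Lsw H i3 i10 b30) (Lsw H i3 i17 b88)
  have c226 := LP2 H i10 i18 i2 c71 (Lsw H i2 i10 b29) (Lsw H i2 i18 b85)
  have c228 := LP2 H i13 i14 i4 c63 (Lsw H i4 i13 b91) (Lsw H i4 i14 b92)
  have c229 := LP2 H i13 i14 i5 c63 (Lsw H i5 i13 b94) (Lsw H i5 i14 b95)
  have c230 := LP2 H i15 i16 i2 c79 (Lsw H i2 i15 b83) (Lsw H i2 i16 b84)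
  have c231 := LP2 H i15 i16 i3 c79 (Lsw H i3 i15 b86) (Lsw H i3 i16 b87)
  have c232 := LP2 H i17 i18 i3 c78 (Lsw H i3 i17 b88) (Lsw H i3 i18 b89)
  have b233 := LP1 H i3 i2 i10 hbc.symm b30 b29 (Lsw H i2 i14 b82)
  have b234 := LP1 H i2 i6 i5 c10.symm b6 (Lsw H i5 i6 b33) (Lsw H i6 i7 b96)
  have e235 := (LP1 H i2 i7 i4 c12.symm b5 (Lsw H i4 i7 b31) b96).symm.trans (Lsw H i2 i15 b83)
  have m236 : t20 = t33 := e235.symm
  subst m236
  have c237 := Lck c183 c208.symm b83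
  have b238 := LP1 H i8 i3 i5 c14 (Lsw H i5 i8 b34) b8 (Lsw H i3 i18 b89)
  have e240 := (LP1 H i9 i3 i4 c16 (Lsw H i4 i9 b32) b7 (Lsw H i3 i16 b87)).symm.trans (Lsw H i9 i8 b238)
  have m241 : t24 = t26 := e240
  subst m241
  have c243 := Lck c194 c213.symm b89
  have b244 := LP1 H i10 i4 i2 c18 (Lsw H i2 i10 b29) (Lsw H i2 i4 b5) (Lsw H i4 i13 b91)
  have b245 := LP1 H i10 i4 i3 c18 (Lsw H i3 i10 b30) (Lsw H i3 i4 b7) (Lsw H i4 i14 b92)
  have c246 := Lck c160 c155 b9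
  have c247 := Lck c172 c168 b9
  have b248 := LP1 H i10 i5 i2 c19 (Lsw H i2 i10 b29) (Lsw H i2 i5 b6) (Lsw H i5 i13 b94)
  have b249 := LP1 H i10 i5 i3 c19 (Lsw H i3 i10 b30) (Lsw H i3 i5 b8) (Lsw H i5 i14 b95)
  have c250 := LP2 H i5 i10 i6 c19.symm b33 (Lsw H i6 i10 b244)
  have c251 := LP2 H i5 i10 i8 c19.symm b34 (Lsw H i8 i10 b245)
  have c253 := LP2 H i7 i9 i8 c26 b98 b238
  have c254 := Lco i13 i15 (LP1 H i15 i10 i2 c74.symm (Lsw H i2 i15 b83) (Lsw H i2 i10 b29) (k_one i20 i10 c246))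
  have c255 := Lco i14 i16 (LP1 H i16 i10 i3 c75.symm (Lsw H i3 i16 b87) (Lsw H i3 i10 b30) (k_one i24 i10 c247))
  have c256 := Lco i13 i17 (LP1 H i17 i10 i2 c70.symm b234 (Lsw H i2 i10 b29) (k_one i20 i10 c246))
  have c257 := Lco i14 i18 (LP1 H i18 i10 i3 c71.symm (Lsw H i3 i18 b89) (Lsw H i3 i10 b30) (k_one i24 i10 c247))
  have c259 := LP2 H i17 i18 i2 c78 b234 (Lsw H i2 i18 b85)
  have q260 : Rl [t13, t15, t17, t20, t28, t31] := LJ H i2 i4 i5 b5 b6 b9 b29 b31 b33 b96 b244 b248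
  have c261 : Commute t15 t17 := q260.cm 1 2 rfl rfl
  have c262 : Commute t15 t31 := q260.cm 1 5 rfl rfl
  have c263 : Commute t28 t31 := q260.cm 4 5 rfl rfl
  have q264 : Rl [t14, t16, t18, t24, t29, t32] := LJ H i3 i4 i5 b7 b8 b9 b30 b32 b34 (Lsw H i9 i8 b238) b245 b249
  have c265 : Commute t16 t18 := q264.cm 1 2 rfl rfl
  have c266 : Commute t16 t32 := q264.cm 1 5 rfl rfl
  have c267 : Commute t29 t32 := q264.cm 4 5 rfl rfl
  have q268 : Rl [t31, t13, t15, t17, t20, t28] := q260.mv 5 rfl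
  have c269 := q268.l1 (.cons c72.symm (.cons c66.symm (.cons c48 (.cons c158.symm (.cons c165.symm .nil)))))
  have q270 : Rl [t28, t13, t15, t17, t20, t31] := q260.mv 4 rfl
  have c271 := q270.l1 (.cons c76.symm (.cons c44 (.cons c64.symm (.cons c162.symm (.cons c166.symm .nil)))))
  have q272 : Rl [t32, t14, t16, t18, t24, t29] := q264.mv 5 rfl
  have c273 := q272.l1 (.cons c73.symm (.cons c69.symm (.cons c50 (.cons c170.symm (.cons c178.symm .nil)))))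
  have q274 : Rl [t29, t14, t16, t18, t24, t32] := q264.mv 4 rfl
  have c275 := q274.l1 (.cons c77.symm (.cons c46 (.cons c68.symm (.cons c174.symm (.cons c179.symm .nil)))))
  have c276 := LP2 H i2 i3 i17 hbc (Lsw H i17 i2 b234) b88
  have c277 := LP3 H i4 i6 i5 c11.symm b9 (Lsw H i6 i10 b244)
  have c278 := LP3 H i4 i8 i5 c15.symm b9 (Lsw H i8 i10 b245)
  have c279 := Lco i31 i4 (LP1 H i4 i10 i7 c18.symm b31 (Lsw H i7 i10 b248) (k_one i15 i10 c74.symm))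
  have c280 := Lco i32 i4 (LP1 H i4 i10 i9 c18.symm b32 (Lsw H i9 i10 b249) (k_one i16 i10 c75.symm))
  have b281 := LP1 H i5 i7 i4 c13.symm (Lsw H i4 i5 b9) (Lsw H i4 i7 b31) (Lsw H i7 i10 b248)
  have b282 := LP1 H i5 i9 i4 c17.symm (Lsw H i4 i5 b9) (Lsw H i4 i9 b32) (Lsw H i9 i10 b249)
  have c283 := Lck c164.symm c197.symm b244
  have c284 := Lck c163.symm c187.symm b248
  have c285 := Lck c177.symm c197.symm b245
  have c287 := LP2 H i13 i15 i3 c254 b233 (Lsw H i3 i15 b86)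
  have c288 := LP2 H i13 i17 i3 c256 b233 (Lsw H i3 i17 b88)
  have c289 := LP2 H i14 i16 i2 c255 (Lsw H i2 i14 b82) (Lsw H i2 i16 b84)
  have c292 := LP2 H i16 i18 i2 c265 (Lsw H i2 i16 b84) (Lsw H i2 i18 b85)
  have q293 : Rl [t17, t13, t15, t20, t28, t31] := q260.mv 2 rfl
  have q294 : Rl [t13, t17, t15, t20, t28, t31] := q293.mv 1 rfl
  have b295 := Rl.l2 H i13 i17 i4 q294 (.cons c43 (.cons c160 (.cons c117 (.cons c279 .nil)))) (Lsw H i4 i13 b91)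
  have q296 : Rl [t18, t14, t16, t24, t29, t32] := q264.mv 2 rfl
  have q297 : Rl [t14, t18, t16, t24, t29, t32] := q296.mv 1 rfl
  have b298 := Rl.l2 H i14 i18 i4 q297 (.cons c45 (.cons c172 (.cons c119 (.cons c280 .nil)))) (Lsw H i4 i14 b92)
  obtain ⟨t36, b299⟩ : ∃ t, k b t24 = t := ⟨_, rfl⟩
  have i36 := Linv H i2 i24 b299
  obtain ⟨t37, b300⟩ : ∃ t, k b t27 = t := ⟨_, rfl⟩
  have i37 := Linv H i2 i27 b300
  obtain ⟨t38, b301⟩ : ∃ t, k b t29 = t := ⟨_, rfl⟩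
  have i38 := Linv H i2 i29 b301
  obtain ⟨t39, b302⟩ : ∃ t, k b t32 = t := ⟨_, rfl⟩
  have i39 := Linv H i2 i32 b302
  obtain ⟨t40, b303⟩ : ∃ t, k c t20 = t := ⟨_, rfl⟩
  have i40 := Linv H i3 i20 b303
  obtain ⟨t41, b304⟩ : ∃ t, k c t27 = t := ⟨_, rfl⟩
  have i41 := Linv H i3 i27 b304
  obtain ⟨t42, b305⟩ : ∃ t, k c t28 = t := ⟨_, rfl⟩
  have i42 := Linv H i3 i28 b305
  obtain ⟨t43, b306⟩ : ∃ t, k c t31 = t := ⟨_, rfl⟩
  have i43 := Linv H i3 i31 b306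
  obtain ⟨t44, b307⟩ : ∃ t, k c t34 = t := ⟨_, rfl⟩
  have i44 := Linv H i3 i34 b307
  obtain ⟨t45, b308⟩ : ∃ t, k d t19 = t := ⟨_, rfl⟩
  have i45 := Linv H i4 i19 b308
  obtain ⟨t46, b309⟩ : ∃ t, k d t21 = t := ⟨_, rfl⟩
  have i46 := Linv H i4 i21 b309
  obtain ⟨t47, b310⟩ : ∃ t, k d t22 = t := ⟨_, rfl⟩
  have i47 := Linv H i4 i22 b310
  obtain ⟨t48, b311⟩ : ∃ t, k d t23 = t := ⟨_, rfl⟩
  have i48 := Linv H i4 i23 b311
  obtain ⟨t49, b312⟩ : ∃ t, k d t25 = t := ⟨_, rfl⟩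
  have i49 := Linv H i4 i25 b312
  obtain ⟨t50, b313⟩ : ∃ t, k e t19 = t := ⟨_, rfl⟩
  have i50 := Linv H i5 i19 b313
  obtain ⟨t51, b314⟩ : ∃ t, k e t21 = t := ⟨_, rfl⟩
  have i51 := Linv H i5 i21 b314
  obtain ⟨t52, b315⟩ : ∃ t, k e t22 = t := ⟨_, rfl⟩
  have i52 := Linv H i5 i22 b315
  obtain ⟨t53, b316⟩ : ∃ t, k e t23 = t := ⟨_, rfl⟩
  have i53 := Linv H i5 i23 b316
  obtain ⟨t54, b317⟩ : ∃ t, k e t25 = t := ⟨_, rfl⟩
  have i54 := Linv H i5 i25 b317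
  obtain ⟨t55, b318⟩ : ∃ t, k t6 t12 = t := ⟨_, rfl⟩
  have i55 := Linv H i6 i12 b318
  obtain ⟨t56, b319⟩ : ∃ t, k t7 t11 = t := ⟨_, rfl⟩
  have i56 := Linv H i7 i11 b319
  obtain ⟨t57, b320⟩ : ∃ t, k t7 t14 = t := ⟨_, rfl⟩
  have i57 := Linv H i7 i14 b320
  obtain ⟨t58, b321⟩ : ∃ t, k t7 t16 = t := ⟨_, rfl⟩
  have i58 := Linv H i7 i16 b321
  obtain ⟨t59, b322⟩ : ∃ t, k t8 t13 = t := ⟨_, rfl⟩
  have i59 := Linv H i8 i13 b322
  obtain ⟨t60, b323⟩ : ∃ t, k t8 t17 = t := ⟨_, rfl⟩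
  have i60 := Linv H i8 i17 b323
  obtain ⟨t61, b324⟩ : ∃ t, k t10 t11 = t := ⟨_, rfl⟩
  have i61 := Linv H i10 i11 b324
  obtain ⟨t62, b325⟩ : ∃ t, k t10 t12 = t := ⟨_, rfl⟩
  have i62 := Linv H i10 i12 b325
  have c326 := Lkl H i2 i24 b299
  have c328 := Lkl H i2 i27 b300
  have c330 := Lkl H i2 i29 b301
  have c332 := Lkl H i2 i32 b302
  have c334 := Lkl H i3 i20 b303
  have c336 := Lkl H i3 i27 b304
  have c338 := Lkl H i3 i28 b305
  have c339 := Lkr H i3 i28 b305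
  have c340 := Lkl H i3 i31 b306
  have c342 := Lkl H i3 i34 b307
  have c344 := Lkl H i4 i19 b308
  have c345 := Lkr H i4 i19 b308
  have c346 := Lkl H i4 i21 b309
  have c347 := Lkr H i4 i21 b309
  have c348 := Lkl H i4 i22 b310
  have c349 := Lkr H i4 i22 b310
  have c350 := Lkl H i4 i23 b311
  have c351 := Lkr H i4 i23 b311
  have c352 := Lkl H i4 i25 b312
  have c354 := Lkl H i5 i19 b313
  have c356 := Lkl H i5 i21 b314
  have c358 := Lkl H i5 i22 b315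
  have c359 := Lkr H i5 i22 b315
  have c360 := Lkl H i5 i23 b316
  have c362 := Lkl H i5 i25 b317
  have c363 := Lkr H i5 i25 b317
  have c368 := Lkl H i7 i14 b320
  have c370 := Lkl H i7 i16 b321
  have c378 := Lkl H i10 i12 b325
  have c380 := Lck hab c138 b299
  have c381 := Lck hab c141 b300
  have c382 := Lck hab c143 b301
  have c383 := Lck hab c146 b302
  have c384 := Lck hac c134 b303
  have c385 := Lck hac c141 b304
  have c386 := Lck hac c142 b305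
  have c387 := Lck hac c145 b306
  have c388 := Lck hac c148 b307
  have c389 := Lck had c133 b308
  have c390 := Lck had c135 b309
  have c391 := Lck had c136 b310
  have c392 := Lck had c137 b311
  have c393 := Lck had c139 b312
  have c394 := Lck hae c133 b313
  have c395 := Lck hae c135 b314
  have c396 := Lck hae c136 b315
  have c397 := Lck hae c137 b316
  have c398 := Lck hae c139 b317
  have c400 := Lck c21 c51 b319
  have c401 := Lck c21 c54 b320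
  have c402 := Lck c21 c56 b321
  have c405 := Lck c24 c51 b324
  have c406 := Lck c24 c52 b325
  have c408 := LP3 H i3 i2 i16 hbc.symm b87 (Lsw H i2 i24 b299)
  have c409 := LP3 H i2 i3 i17 hbc (Lsw H i17 i2 b234) (Lsw H i3 i20 b303)
  have c411 := Lck hbc c101.symm b303
  have c412 := Lck hbc.symm c109.symm b299
  have c414 := Lck hbc c183.symm b305
  have c415 := Lck hbc.symm c184.symm b301
  have c416 := Lck hbc c193.symm b306
  have c417 := Lck hbc.symm c194.symm b302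
  have c418 := LP3 H i2 i6 i9 c10.symm b28 (Lsw H i6 i12 b318)
  have c421 := LP3 H i2 i7 i8 c12.symm b27 (Lsw H i7 i11 b319)
  have c422 := Lck c12.symm c35.symm b319
  have c423 := LP2 H i2 i7 i14 c12.symm b82 b320
  have c425 := LP3 H i2 i11 i5 c35.symm b6 b319
  have c426 := LP2 H i2 i11 i10 c35.symm b29 (Lsw H i10 i11 b324)
  have c428 := LP3 H i12 i2 i4 c37 (Lsw H i4 i12 b90) (Lsw H i2 i27 b300)
  have c430 := Lck c37 c116.symm b300
  have c431 := LP2 H i2 i13 i8 c39.symm b27 (Lsw H i8 i13 b322)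
  have c432 := LP2 H i2 i19 i4 c99.symm b5 (Lsw H i4 i19 b308)
  have c434 := LP2 H i2 i21 i4 c103.symm b5 (Lsw H i4 i21 b309)
  have c439 := Lck c105 c154 b299
  have c440 := Lck c183 c283.symm b300
  have c443 := LP2 H i3 i8 i13 c14.symm (Lsw H i13 i3 b233) b322
  have c446 := LP3 H i9 i3 i6 c16 (Lsw H i6 i9 b97) (Lsw H i3 i34 b307)
  have c448 := LP2 H i3 i11 i7 c61 (Lsw H i7 i3 b81) (Lsw H i7 i11 b319)
  have c451 := LP3 H i12 i3 i4 c62.symm (Lsw H i4 i12 b90) (Lsw H i3 i27 b304)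
  have c453 := LP2 H i3 i12 i10 c62 b30 (Lsw H i10 i12 b325)
  have c456 := LP2 H i3 i14 i7 c41.symm (Lsw H i7 i3 b81) (Lsw H i7 i14 b320)
  have c457 := LP2 H i3 i19 i4 c151 b7 (Lsw H i4 i19 b308)
  have c459 := LP2 H i3 i23 i4 c107.symm b7 (Lsw H i4 i23 b311)
  have c463 := LP2 H i3 i25 i4 c111.symm b7 (Lsw H i4 i25 b312)
  have c464 := LP2 H i3 i25 i5 c111.symm b8 (Lsw H i5 i25 b317)
  have c466 := Lck c184 c285.symm b304
  have c467 := Lck c184 c228.symm b305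
  have c468 := Lck c194 c229.symm b306
  have c471 := LP2 H i4 i8 i17 c15.symm (Lsw H i17 i4 b295) b323
  have c472 := Lck c18.symm c59.symm b324
  have c474 := Lck c18 c150.symm b308
  have c475 := LP3 H i4 i11 i5 c59.symm b9 b324
  have c476 := LP2 H i4 i11 i7 c59.symm b31 (Lsw H i7 i11 b319)
  have c477 := Lck c59 c212 b308
  have c478 := Lck c59 c214 b309
  have c480 := Lck c59 c204 b311
  have c481 := Lck c59 c205 b312
  have c482 := LP3 H i15 i4 i3 c43 (Lsw H i3 i15 b86) (Lsw H i4 i23 b311)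
  have c483 := Lck c43 c108.symm b311
  have c484 := LP3 H i16 i4 i2 c45 (Lsw H i2 i16 b84) (Lsw H i4 i21 b309)
  have c486 := Lck c45 c104.symm b309
  have c487 := LP2 H i4 i20 i3 c160.symm (Lsw H i3 i4 b7) (Lsw H i3 i20 b303)
  have c488 := Lck c160 c230 b309
  have c490 := Lck c160 c152 b311
  have c492 := LP2 H i4 i24 i2 c172.symm (Lsw H i2 i4 b5) (Lsw H i2 i24 b299)
  have c493 := Lck c172 c153.symm b309
  have c495 := Lck c172 c231.symm b311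
  have c496 := Lck c172 c232.symm b312
  have c497 := LP2 H i4 i28 i3 c117.symm (Lsw H i3 i4 b7) (Lsw H i3 i28 b305)
  have c498 := LP2 H i4 i29 i2 c119.symm (Lsw H i2 i4 b5) (Lsw H i2 i29 b301)
  have c499 := LP2 H i4 i31 i3 c279.symm (Lsw H i3 i4 b7) (Lsw H i3 i31 b306)
  have c500 := LP2 H i4 i32 i2 c280.symm (Lsw H i2 i4 b5) (Lsw H i2 i32 b302)
  have c501 := LP2 H i5 i7 i11 c13.symm b93 b319
  have c502 := LP2 H i5 i7 i14 c13.symm b95 b320
  have c503 := LP2 H i5 i7 i16 c13.symm (Lsw H i16 i5 b282) b321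
  have c504 := LP2 H i5 i10 i11 c19.symm b93 b324
  have c505 := Lck c19.symm c60.symm b325
  have c506 := Lck c19 c150.symm b313
  have c507 := LP3 H i5 i12 i4 c60.symm (Lsw H i4 i5 b9) b325
  have c508 := LP2 H i5 i12 i6 c60.symm b33 (Lsw H i6 i12 b318)
  have c511 := Lck c60 c220 b315
  have c514 := LP3 H i17 i5 i3 c47 (Lsw H i3 i17 b88) (Lsw H i5 i25 b317)
  have c516 := Lck c47 c112.symm b317
  have c517 := LP3 H i18 i5 i2 c49 (Lsw H i2 i18 b85) (Lsw H i5 i22 b315)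
  have c518 := Lck c49 c106.symm b315
  have c519 := LP2 H i5 i20 i3 c155.symm (Lsw H i3 i5 b8) (Lsw H i3 i20 b303)
  have c521 := Lck c155 c259 b315
  have c523 := Lck c155 c276 b317
  have c524 := LP2 H i5 i24 i2 c168.symm (Lsw H i2 i5 b6) (Lsw H i2 i24 b299)
  have c526 := Lck c168 c154.symm b315
  have c529 := LP2 H i5 i28 i3 c277.symm (Lsw H i3 i5 b8) (Lsw H i3 i28 b305)
  have c530 := LP2 H i5 i29 i2 c278.symm (Lsw H i2 i5 b6) (Lsw H i2 i29 b301)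
  have c531 := LP2 H i5 i31 i3 c123.symm (Lsw H i3 i5 b8) (Lsw H i3 i31 b306)
  have c532 := LP2 H i5 i32 i2 c125.symm (Lsw H i2 i5 b6) (Lsw H i2 i32 b302)
  have c533 := LP3 H i6 i8 i5 c25 (Lsw H i5 i6 b33) (Lsw H i8 i17 b323)
  have c535 := Lck c25 c48.symm b323
  have c536 := LP2 H i6 i11 i7 c65 b96 (Lsw H i7 i11 b319)
  have c537 := LP2 H i6 i11 i10 c65 b244 (Lsw H i10 i11 b324)
  have c541 := LP2 H i6 i27 i3 c164 b80 (Lsw H i3 i27 b304)
  have c542 := LP2 H i6 i28 i3 c165 b80 (Lsw H i3 i28 b305)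
  have c543 := LP2 H i6 i31 i3 c269.symm b80 (Lsw H i3 i31 b306)
  have c545 := LP3 H i9 i7 i4 c26.symm (Lsw H i4 i9 b32) (Lsw H i7 i16 b321)
  have c546 := Lck c26.symm c77 b320
  have c547 := Lck c26.symm c46.symm b321
  have c551 := Lck c76.symm c63 b320
  have c552 := LP2 H i7 i17 i8 c64 b98 (Lsw H i8 i17 b323)
  have c555 := Lck c199.symm c215.symm b319
  have c557 := LP2 H i7 i31 i3 c166 b81 (Lsw H i3 i31 b306)
  have c558 := Lck c131 c161.symm b319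
  have c564 := LP2 H i8 i24 i2 c170 (Lsw H i2 i8 b27) (Lsw H i2 i24 b299)
  have c566 := LP2 H i8 i29 i2 c178 (Lsw H i2 i8 b27) (Lsw H i2 i29 b301)
  have c570 := LP2 H i9 i25 i4 c198 (Lsw H i4 i9 b32) (Lsw H i4 i25 b312)
  have c571 := LP2 H i9 i29 i2 c275.symm (Lsw H i2 i9 b28) (Lsw H i2 i29 b301)
  have c572 := LP2 H i9 i32 i2 c179 (Lsw H i2 i9 b28) (Lsw H i2 i32 b302)
  have c574 := LP2 H i10 i14 i7 c42.symm (Lsw H i7 i10 b248) (Lsw H i7 i14 b320)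
  have c577 := Lck c150 c212.symm b324
  have c578 := Lck c150 c217.symm b325
  have c579 := LP2 H i10 i20 i3 c246.symm (Lsw H i3 i10 b30) (Lsw H i3 i20 b303)
  have c580 := LP2 H i10 i24 i2 c247.symm (Lsw H i2 i10 b29) (Lsw H i2 i24 b299)
  have c581 := LP2 H i10 i27 i2 c197 (Lsw H i2 i10 b29) (Lsw H i2 i27 b300)
  have c582 := LP2 H i10 i27 i3 c197 (Lsw H i3 i10 b30) (Lsw H i3 i27 b304)
  have c583 := LP2 H i10 i28 i3 c185 (Lsw H i3 i10 b30) (Lsw H i3 i28 b305)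
  have c585 := LP2 H i10 i31 i3 c195 (Lsw H i3 i10 b30) (Lsw H i3 i31 b306)
  have c586 := LP2 H i10 i32 i2 c196 (Lsw H i2 i10 b29) (Lsw H i2 i32 b302)
  have c589 := LP2 H i11 i22 i5 c215 (Lsw H i5 i11 b93) (Lsw H i5 i22 b315)
  have c597 := LP2 H i13 i17 i8 c256 (Lsw H i8 i13 b322) (Lsw H i8 i17 b323)
  have c598 := LP2 H i13 i19 i4 c167 (Lsw H i4 i13 b91) (Lsw H i4 i19 b308)
  have c605 := LP2 H i13 i28 i3 c118.symm b233 (Lsw H i3 i28 b305)
  have c606 := LP2 H i13 i31 i3 c124.symm b233 (Lsw H i3 i31 b306)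
  have c607 := LP2 H i14 i16 i7 c255 (Lsw H i7 i14 b320) (Lsw H i7 i16 b321)
  have c610 := LP2 H i14 i23 i4 c222 (Lsw H i4 i14 b92) (Lsw H i4 i23 b311)
  have c613 := LP2 H i14 i25 i4 c225 (Lsw H i4 i14 b92) (Lsw H i4 i25 b312)
  have c614 := LP2 H i14 i25 i5 c225 (Lsw H i5 i14 b95) (Lsw H i5 i25 b317)
  have c615 := LP2 H i14 i29 i2 c120.symm (Lsw H i2 i14 b82) (Lsw H i2 i29 b301)
  have c616 := LP2 H i14 i32 i2 c126.symm (Lsw H i2 i14 b82) (Lsw H i2 i32 b302)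
  have c618 := LP2 H i15 i27 i2 c207 (Lsw H i2 i15 b83) (Lsw H i2 i27 b300)
  have c620 := LP2 H i15 i28 i3 c208 (Lsw H i3 i15 b86) (Lsw H i3 i28 b305)
  have c621 := LP2 H i15 i31 i3 c262 (Lsw H i3 i15 b86) (Lsw H i3 i31 b306)
  have c624 := LP2 H i16 i27 i3 c216 (Lsw H i3 i16 b87) (Lsw H i3 i27 b304)
  have c626 := LP2 H i16 i32 i2 c266 (Lsw H i2 i16 b84) (Lsw H i2 i32 b302)
  have c629 := LP2 H i17 i28 i3 c250 (Lsw H i3 i17 b88) (Lsw H i3 i28 b305)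
  have c630 := LP2 H i17 i31 i3 c202 (Lsw H i3 i17 b88) (Lsw H i3 i31 b306)
  have c632 := LP2 H i18 i22 i4 c106.symm b298 (Lsw H i4 i22 b310)
  have c633 := LP2 H i18 i29 i2 c251 (Lsw H i2 i18 b85) (Lsw H i2 i29 b301)
  have c635 := LP2 H i19 i21 i4 c289 (Lsw H i4 i19 b308) (Lsw H i4 i21 b309)
  have c636 := LP2 H i19 i21 i5 c289 (Lsw H i5 i19 b313) (Lsw H i5 i21 b314)
  have c639 := LP2 H i19 i23 i4 c287 (Lsw H i4 i19 b308) (Lsw H i4 i23 b311)
  have c641 := LP2 H i19 i25 i4 c288 (Lsw H i4 i19 b308) (Lsw H i4 i25 b312)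
  have c642 := LP2 H i19 i25 i5 c288 (Lsw H i5 i19 b313) (Lsw H i5 i25 b317)
  have c654 := LP2 H i28 i31 i3 c263 (Lsw H i3 i28 b305) (Lsw H i3 i31 b306)
  have c655 := LP2 H i29 i32 i2 c267 (Lsw H i2 i29 b301) (Lsw H i2 i32 b302)
  have b656 := LP1 H i2 i3 i15 hbc b83 b86 (Lsw H i3 i20 b303)
  have b657 := LP1 H i3 i2 i16 hbc.symm b87 b84 (Lsw H i2 i24 b299)
  have b658 := LP1 H i2 i3 i17 hbc (Lsw H i17 i2 b234) b88 (Lsw H i3 i20 b303)
  have b659 := LP1 H i3 i2 i18 hbc.symm b89 b85 (Lsw H i2 i24 b299)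
  have b660 := LP1 H i2 i6 i9 c10.symm b28 b97 (Lsw H i6 i12 b318)
  have b661 := LP1 H i2 i7 i8 c12.symm b27 b98 (Lsw H i7 i11 b319)
  have b662 := LP1 H i2 i11 i5 c35.symm b6 (Lsw H i5 i11 b93) b319
  have e663 := (LP1 H i2 i12 i4 c37.symm b5 (Lsw H i4 i12 b90) b318).symm.trans (Lsw H i2 i27 b300)
  have m664 : t37 = t55 := e663.symm
  subst m664
  have c667 := Lck c484 c493.symm b299
  have c669 := Lck c517 c526.symm b299
  have b670 := LP1 H i9 i3 i6 c16 (Lsw H i6 i9 b97) (Lsw H i6 i3 b80) (Lsw H i3 i34 b307)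
  have c671 := LP3 H i3 i11 i5 c61 b8 (Lsw H i11 i9 b670)
  have b672 := LP1 H i12 i3 i4 c62.symm (Lsw H i4 i12 b90) b7 (Lsw H i3 i27 b304)
  have c675 := Lck c514 c523.symm b303
  have b676 := LP1 H i4 i11 i5 c59.symm b9 (Lsw H i5 i11 b93) b324
  have b677 := LP1 H i15 i4 i3 c43 (Lsw H i3 i15 b86) (Lsw H i3 i4 b7) (Lsw H i4 i23 b311)
  have b678 := LP1 H i16 i4 i2 c45 (Lsw H i2 i16 b84) (Lsw H i2 i4 b5) (Lsw H i4 i21 b309)
  have c679 := Lck c428 c418 b32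
  have c683 := Lck c507 c453.symm b92
  have c684 := Lck c507 c578.symm b308
  have b686 := LP1 H i5 i12 i4 c60.symm (Lsw H i4 i5 b9) (Lsw H i4 i12 b90) b325
  have c687 := LP2 H i5 i12 i8 c60.symm b34 (Lsw H i8 i12 b672)
  have b688 := LP1 H i17 i5 i3 c47 (Lsw H i3 i17 b88) (Lsw H i3 i5 b8) (Lsw H i5 i25 b317)
  have b689 := LP1 H i18 i5 i2 c49 (Lsw H i2 i18 b85) (Lsw H i2 i5 b6) (Lsw H i5 i22 b315)
  have c690 := Lck c425 c421 b34
  have c691 := Lck c425 c476.symm (Lsw H i15 i5 b281)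
  have c692 := Lck c425 c555.symm b315
  have c694 := Lck c475 c426.symm b94
  have c696 := Lck c475 c577.symm b313
  have b698 := LP1 H i6 i8 i5 c25 (Lsw H i5 i6 b33) (Lsw H i5 i8 b34) (Lsw H i8 i17 b323)
  have c700 := LP2 H i6 i27 i5 c164 (Lsw H i5 i6 b33) b686
  have c701 := Lck c492.symm c524.symm b96
  have c705 := Lck c500.symm c572.symm b318
  have c706 := Lck c446 c671 (Lsw H i5 i6 b33)
  have b708 := LP1 H i9 i7 i4 c26.symm (Lsw H i4 i9 b32) (Lsw H i4 i7 b31) (Lsw H i7 i16 b321)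
  have c711 := LP2 H i7 i15 i8 c44.symm b98 (Lsw H i8 i15 b677)
  have c712 := LP2 H i7 i30 i4 c163 (Lsw H i4 i7 b31) b676
  have c713 := Lck c524.symm c564.symm b319
  have c715 := Lck c530.symm c566.symm b319
  have c717 := LP2 H i8 i18 i7 c50.symm (Lsw H i7 i8 b98) (Lsw H i7 i18 b689)
  have c718 := LP2 H i8 i27 i5 c177 (Lsw H i5 i8 b34) b686
  have c719 := Lck c487.symm c519.symm (Lsw H i9 i8 b238)
  have c721 := Lck c497.symm c529.symm (Lsw H i9 i8 b238)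
  have c722 := Lck c499.symm c531.symm (Lsw H i9 i8 b238)
  have c723 := LP2 H i9 i16 i6 c46.symm (Lsw H i6 i9 b97) (Lsw H i6 i16 b678)
  have c726 := LP2 H i10 i30 i2 c187 (Lsw H i2 i10 b29) b662
  have c727 := LP2 H i13 i15 i8 c254 (Lsw H i8 i13 b322) (Lsw H i8 i15 b677)
  have c731 := Lco i21 i27 (LP1 H i27 i16 i2 c216.symm (Lsw H i2 i27 b300) (Lsw H i2 i16 b84) (k_one i37 i16 c679))
  have c734 := Lco i25 i34 (LP1 H i34 i17 i3 c192.symm (Lsw H i3 i34 b307) (Lsw H i3 i17 b88) (k_one i44 i17 c706))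
  have c735 := Lco i22 i30 (LP1 H i30 i18 i2 c211.symm b662 (Lsw H i2 i18 b85) (k_one i56 i18 c690))
  have c736 := Lco i22 i35 (LP1 H i35 i18 i2 c191.symm b661 (Lsw H i2 i18 b85) (k_one i56 i18 c690))
  have c741 := Lco i36 i25 (LP1 H i25 i24 i2 c232 b658 (Lsw H i2 i24 b299) (k_one i40 i24 c719))
  have c743 := LP2 H i2 i6 i18 c10.symm b85 (Lsw H i18 i6 b698)
  have c746 := LP3 H i3 i8 i7 c14.symm (Lsw H i7 i3 b81) (Lsw H i8 i12 b672)
  have c747 := LP2 H i3 i9 i15 c16.symm b86 (Lsw H i15 i9 b708)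
  have b748 := LP1 H i3 i11 i5 c61 b8 (Lsw H i5 i11 b93) (Lsw H i11 i9 b670)
  have c751 := LP3 H i4 i6 i9 c11.symm b32 (Lsw H i6 i16 b678)
  have c752 := LP3 H i4 i8 i7 c15.symm b31 (Lsw H i8 i15 b677)
  have c753 := Lck c451 c746 b31
  have c754 := Lck c545 c747.symm b311
  have c755 := LP3 H i5 i7 i8 c13.symm b34 (Lsw H i7 i18 b689)
  have c756 := LP3 H i5 i9 i6 c17.symm b33 (Lsw H i9 i17 b688)
  have c757 := Lck c533 c743.symm b315
  have c758 := Lck c25 c66 b677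
  have c759 := Lck c25.symm c69 b678
  have c761 := Lck c66.symm c79 b678
  have c764 := Lck c26 c64 b688
  have c765 := Lck c26.symm c68 b689
  have c766 := Lck c64.symm c78 b689
  have c767 := Lck c69.symm c79.symm b677
  have c769 := Lck c499.symm c557.symm b672
  have c770 := Lck c421 c448.symm b672
  have c772 := Lck c421 c476.symm b677
  have c773 := Lck c68.symm c78.symm b688
  have c774 := Lck c418 c508.symm b688
  have c776 := Lck c529.symm c542.symm (Lsw H i11 i9 b670)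
  have c778 := LP2 H i10 i30 i3 c187 (Lsw H i3 i10 b30) b748
  have c779 := Lco i52 i11 (LP1 H i11 i22 i5 c215 (Lsw H i5 i11 b93) (Lsw H i5 i22 b315) (k_one i30 i22 c735.symm))
  have c780 := Lco i46 i12 (LP1 H i12 i21 i4 c219 (Lsw H i4 i12 b90) (Lsw H i4 i21 b309) (k_one i27 i21 c731.symm))
  have c781 := Lck c511.symm c755 (Lsw H i8 i12 b672)
  have c783 := LP2 H i15 i17 i9 c261 b708 (Lsw H i9 i17 b688)
  have c784 := Lco i23 i27 (LP1 H i27 i15 i3 c207.symm (Lsw H i3 i27 b304) (Lsw H i3 i15 b86) (k_one i41 i15 c753))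
  have c786 := Lco i25 i30 (LP1 H i30 i17 i3 c201.symm b748 (Lsw H i3 i17 b88) (k_one i44 i17 c706))
  have b792 := LP1 H i3 i8 i7 c14.symm (Lsw H i7 i3 b81) (Lsw H i7 i8 b98) (Lsw H i8 i12 b672)
  have c793 := Lck c482 c752 (Lsw H i7 i3 b81)
  have c794 := Lck c514 c756 (Lsw H i6 i3 b80)
  have b795 := LP1 H i4 i6 i9 c11.symm b32 b97 (Lsw H i6 i16 b678)
  have b796 := LP1 H i4 i8 i7 c15.symm b31 (Lsw H i7 i8 b98) (Lsw H i8 i15 b677)
  have b797 := LP1 H i5 i7 i8 c13.symm b34 b98 (Lsw H i7 i18 b689)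
  have b798 := LP1 H i5 i9 i6 c17.symm b33 (Lsw H i6 i9 b97) (Lsw H i9 i17 b688)
  have c802 := Lck c764.symm c773.symm b689
  have c806 := Lco i30 i35 (LP1 H i35 i11 i5 c161.symm b797 (Lsw H i5 i11 b93) (k_one i52 i11 c779))
  have c808 := Lco i27 i35 (LP1 H i35 i12 i4 c169.symm b796 (Lsw H i4 i12 b90) (k_one i48 i12 c793))
  have c811 := LP2 H i22 i35 i4 c736 (Lsw H i4 i22 b310) b796
  have c814 := LP2 H i25 i30 i4 c786 (Lsw H i4 i25 b312) b676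
  have c815 := LP2 H i25 i34 i4 c734 (Lsw H i4 i25 b312) b795
  obtain ⟨t63, b823⟩ : ∃ t, k b t41 = t := ⟨_, rfl⟩
  have i63 := Linv H i2 i41 b823
  obtain ⟨t64, b824⟩ : ∃ t, k b t45 = t := ⟨_, rfl⟩
  have i64 := Linv H i2 i45 b824
  obtain ⟨t65, b825⟩ : ∃ t, k b t48 = t := ⟨_, rfl⟩
  have i65 := Linv H i2 i48 b825
  obtain ⟨t66, b826⟩ : ∃ t, k b t49 = t := ⟨_, rfl⟩
  have i66 := Linv H i2 i49 b826
  obtain ⟨t67, b827⟩ : ∃ t, k b t54 = t := ⟨_, rfl⟩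
  have i67 := Linv H i2 i54 b827
  obtain ⟨t68, b828⟩ : ∃ t, k b t57 = t := ⟨_, rfl⟩
  have i68 := Linv H i2 i57 b828
  obtain ⟨t69, b829⟩ : ∃ t, k b t58 = t := ⟨_, rfl⟩
  have i69 := Linv H i2 i58 b829
  obtain ⟨t70, b830⟩ : ∃ t, k c t45 = t := ⟨_, rfl⟩
  have i70 := Linv H i3 i45 b830
  obtain ⟨t71, b831⟩ : ∃ t, k c t46 = t := ⟨_, rfl⟩
  have i71 := Linv H i3 i46 b831
  obtain ⟨t72, b832⟩ : ∃ t, k c t49 = t := ⟨_, rfl⟩
  have i72 := Linv H i3 i49 b832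
  obtain ⟨t73, b833⟩ : ∃ t, k c t50 = t := ⟨_, rfl⟩
  have i73 := Linv H i3 i50 b833
  obtain ⟨t74, b834⟩ : ∃ t, k c t51 = t := ⟨_, rfl⟩
  have i74 := Linv H i3 i51 b834
  obtain ⟨t75, b835⟩ : ∃ t, k c t52 = t := ⟨_, rfl⟩
  have i75 := Linv H i3 i52 b835
  obtain ⟨t76, b836⟩ : ∃ t, k d t42 = t := ⟨_, rfl⟩
  have i76 := Linv H i4 i42 b836
  obtain ⟨t77, b837⟩ : ∃ t, k d t43 = t := ⟨_, rfl⟩
  have i77 := Linv H i4 i43 b837
  obtain ⟨t78, b838⟩ : ∃ t, k d t50 = t := ⟨_, rfl⟩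
  have i78 := Linv H i4 i50 b838
  obtain ⟨t79, b839⟩ : ∃ t, k d t51 = t := ⟨_, rfl⟩
  have i79 := Linv H i4 i51 b839
  obtain ⟨t80, b840⟩ : ∃ t, k d t52 = t := ⟨_, rfl⟩
  have i80 := Linv H i4 i52 b840
  obtain ⟨t81, b841⟩ : ∃ t, k d t53 = t := ⟨_, rfl⟩
  have i81 := Linv H i4 i53 b841
  obtain ⟨t82, b842⟩ : ∃ t, k d t54 = t := ⟨_, rfl⟩
  have i82 := Linv H i4 i54 b842
  obtain ⟨t83, b843⟩ : ∃ t, k d t57 = t := ⟨_, rfl⟩
  have i83 := Linv H i4 i57 b843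
  obtain ⟨t84, b844⟩ : ∃ t, k d t59 = t := ⟨_, rfl⟩
  have i84 := Linv H i4 i59 b844
  obtain ⟨t85, b845⟩ : ∃ t, k e t42 = t := ⟨_, rfl⟩
  have i85 := Linv H i5 i42 b845
  obtain ⟨t86, b846⟩ : ∃ t, k e t45 = t := ⟨_, rfl⟩
  have i86 := Linv H i5 i45 b846
  obtain ⟨t87, b847⟩ : ∃ t, k e t46 = t := ⟨_, rfl⟩
  have i87 := Linv H i5 i46 b847
  obtain ⟨t88, b848⟩ : ∃ t, k e t47 = t := ⟨_, rfl⟩
  have i88 := Linv H i5 i47 b848
  obtain ⟨t89, b849⟩ : ∃ t, k e t48 = t := ⟨_, rfl⟩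
  have i89 := Linv H i5 i48 b849
  obtain ⟨t90, b850⟩ : ∃ t, k e t49 = t := ⟨_, rfl⟩
  have i90 := Linv H i5 i49 b850
  obtain ⟨t91, b851⟩ : ∃ t, k e t57 = t := ⟨_, rfl⟩
  have i91 := Linv H i5 i57 b851
  obtain ⟨t92, b852⟩ : ∃ t, k e t59 = t := ⟨_, rfl⟩
  have i92 := Linv H i5 i59 b852
  obtain ⟨t93, b853⟩ : ∃ t, k t6 t32 = t := ⟨_, rfl⟩
  have i93 := Linv H i6 i32 b853
  obtain ⟨t94, b854⟩ : ∃ t, k t6 t35 = t := ⟨_, rfl⟩
  have i94 := Linv H i6 i35 b854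
  obtain ⟨t95, b855⟩ : ∃ t, k t7 t24 = t := ⟨_, rfl⟩
  have i95 := Linv H i7 i24 b855
  obtain ⟨t96, b856⟩ : ∃ t, k t7 t25 = t := ⟨_, rfl⟩
  have i96 := Linv H i7 i25 b856
  obtain ⟨t97, b857⟩ : ∃ t, k t7 t27 = t := ⟨_, rfl⟩
  have i97 := Linv H i7 i27 b857
  obtain ⟨t98, b858⟩ : ∃ t, k t7 t29 = t := ⟨_, rfl⟩
  have i98 := Linv H i7 i29 b858
  obtain ⟨t99, b859⟩ : ∃ t, k t8 t30 = t := ⟨_, rfl⟩
  have i99 := Linv H i8 i30 b859
  obtain ⟨t100, b860⟩ : ∃ t, k t10 t22 = t := ⟨_, rfl⟩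
  have i100 := Linv H i10 i22 b860
  obtain ⟨t101, b861⟩ : ∃ t, k t10 t23 = t := ⟨_, rfl⟩
  have i101 := Linv H i10 i23 b861
  obtain ⟨t102, b862⟩ : ∃ t, k t10 t25 = t := ⟨_, rfl⟩
  have i102 := Linv H i10 i25 b862
  obtain ⟨t103, b863⟩ : ∃ t, k t10 t34 = t := ⟨_, rfl⟩
  have i103 := Linv H i10 i34 b863
  obtain ⟨t104, b864⟩ : ∃ t, k t10 t35 = t := ⟨_, rfl⟩
  have i104 := Linv H i10 i35 b864
  obtain ⟨t105, b865⟩ : ∃ t, k t11 t16 = t := ⟨_, rfl⟩
  have i105 := Linv H i11 i16 b865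
  obtain ⟨t106, b866⟩ : ∃ t, k t13 t16 = t := ⟨_, rfl⟩
  have i106 := Linv H i13 i16 b866
  have c867 := Lkl H i2 i41 b823
  have c869 := Lkl H i2 i45 b824
  have c871 := Lkl H i2 i48 b825
  have c872 := Lkr H i2 i48 b825
  have c873 := Lkl H i2 i49 b826
  have c875 := Lkl H i2 i54 b827
  have c877 := Lkl H i2 i57 b828
  have c878 := Lkr H i2 i57 b828
  have c881 := Lkl H i3 i45 b830
  have c882 := Lkr H i3 i45 b830
  have c883 := Lkl H i3 i46 b831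
  have c887 := Lkl H i3 i50 b833
  have c889 := Lkl H i3 i51 b834
  have c891 := Lkl H i3 i52 b835
  have c893 := Lkl H i4 i42 b836
  have c894 := Lkr H i4 i42 b836
  have c895 := Lkl H i4 i43 b837
  have c896 := Lkr H i4 i43 b837
  have c897 := Lkl H i4 i50 b838
  have c899 := Lkl H i4 i51 b839
  have c901 := Lkl H i4 i52 b840
  have c902 := Lkr H i4 i52 b840
  have c903 := Lkl H i4 i53 b841
  have c905 := Lkl H i4 i54 b842
  have c907 := Lkl H i4 i57 b843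
  have c910 := Lkr H i4 i59 b844
  have c911 := Lkl H i5 i42 b845
  have c912 := Lkr H i5 i42 b845
  have c915 := Lkl H i5 i46 b847
  have c917 := Lkl H i5 i47 b848
  have c919 := Lkl H i5 i48 b849
  have c921 := Lkl H i5 i49 b850
  have c923 := Lkl H i5 i57 b851
  have c924 := Lkr H i5 i57 b851
  have c935 := Lkl H i7 i27 b857
  have c939 := Lkl H i8 i30 b859
  have c941 := Lkl H i10 i22 b860
  have c942 := Lkr H i10 i22 b860
  have c944 := Lkr H i10 i23 b861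
  have c949 := Lkl H i10 i35 b864
  have c952 := Lkr H i11 i16 b865
  have c955 := Lck hab c385 b823
  have c956 := Lck hab c389 b824
  have c957 := Lck hab c392 b825
  have c958 := Lck hab c393 b826
  have c959 := Lck hab c398 b827
  have c960 := Lck hab c401 b828
  have c962 := Lck hac c389 b830
  have c963 := Lck hac c390 b831
  have c964 := Lck hac c393 b832
  have c965 := Lck hac c394 b833
  have c966 := Lck hac c395 b834
  have c967 := Lck hac c396 b835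
  have c968 := Lck had c386 b836
  have c969 := Lck had c387 b837
  have c970 := Lck had c394 b838
  have c971 := Lck had c395 b839
  have c972 := Lck had c396 b840
  have c973 := Lck had c397 b841
  have c974 := Lck had c398 b842
  have c977 := Lck hae c386 b845
  have c979 := Lck hae c390 b847
  have c980 := Lck hae c391 b848
  have c981 := Lck hae c392 b849
  have c982 := Lck hae c393 b850
  have c983 := Lck hae c401 b851
  have c985 := Lck c20 c146 b853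
  have c986 := Lck c20 c149 b854
  have c987 := Lck c21 c138 b855
  have c988 := Lck c21 c139 b856
  have c990 := Lck c21 c143 b858
  have c993 := Lck c24 c137 b861
  have c997 := Lck c51 c56 b865
  have c1001 := Lck hbc.symm c336.symm b823
  have c1003 := Lck hbc c484.symm b831
  have c1004 := Lck hbc.symm c482.symm b825
  have c1006 := Lck hbc c517.symm b835
  have c1007 := Lck hbc.symm c514.symm b827
  have c1013 := LP3 H i7 i2 i14 c12 b320 (Lsw H i2 i57 b828)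
  have c1014 := LP3 H i7 i2 i16 c12 b321 (Lsw H i2 i58 b829)
  have c1020 := Lck c12 c752.symm b825
  have c1021 := Lck c12 c764 b827
  have c1022 := Lck c12 c368.symm b828
  have c1036 := Lck c39 c551 b828
  have c1037 := LP3 H i19 i2 i4 c99 (Lsw H i4 i19 b308) (Lsw H i2 i45 b824)
  have c1038 := Lck c99 c345.symm b824
  have c1047 := Lck c193 c574 b828
  have c1058 := LP2 H i2 i42 i4 c414 b5 (Lsw H i4 i42 b836)
  have c1059 := LP2 H i2 i42 i5 c414 b6 (Lsw H i5 i42 b845)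
  have c1061 := LP2 H i2 i43 i4 c416 b5 (Lsw H i4 i43 b837)
  have c1080 := Lck c14 c463 b832
  have c1082 := Lck c16 c751.symm b831
  have c1085 := LP2 H i3 i11 i16 c61 b87 b865
  have c1087 := Lck c61.symm c478 b831
  have c1088 := Lck c61.symm c481 b832
  have c1094 := LP3 H i19 i3 i4 c151.symm (Lsw H i4 i19 b308) (Lsw H i3 i45 b830)
  have c1095 := LP3 H i19 i3 i5 c151.symm (Lsw H i5 i19 b313) (Lsw H i3 i50 b833)
  have c1096 := Lck c151.symm c345.symm b830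
  have c1104 := LP3 H i25 i3 i4 c111 (Lsw H i4 i25 b312) (Lsw H i3 i49 b832)
  have c1105 := LP2 H i3 i25 i7 c111.symm (Lsw H i7 i3 b81) (Lsw H i7 i25 b856)
  have c1124 := Lck c482 c639.symm b830
  have c1131 := Lck c11.symm c280.symm b853
  have c1133 := Lck c11 c756.symm b842
  have c1135 := LP3 H i8 i4 i13 c15 b322 (Lsw H i4 i59 b844)
  have c1140 := LP2 H i4 i10 i23 c18.symm b311 b861
  have c1145 := LP3 H i4 i11 i9 c59.symm b32 (Lsw H i11 i16 b865)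
  have c1146 := Lck c59.symm c45.symm b865
  have c1150 := Lck c59 c794.symm b842
  have c1156 := Lck c160 c523 b842
  have c1158 := Lck c172 c721.symm b836
  have c1159 := Lck c172 c722.symm b837
  have c1161 := Lck c172 c526 b840
  have c1164 := LP2 H i4 i27 i7 c115.symm b31 (Lsw H i7 i27 b857)
  have c1165 := LP3 H i28 i4 i3 c117 (Lsw H i3 i28 b305) (Lsw H i4 i42 b836)
  have c1169 := Lck c119 c467 b836
  have c1171 := LP3 H i31 i4 i3 c279 (Lsw H i3 i31 b306) (Lsw H i4 i43 b837)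
  have c1178 := LP3 H i4 i32 i2 c280.symm (Lsw H i2 i4 b5) b853
  have c1179 := Lck c280 c468 b837
  have c1183 := Lck c280 c614 b842
  have c1188 := Lck c451 c769.symm b837
  have c1192 := Lco i71 i4 (LP1 H i4 i46 i3 c346.symm (Lsw H i3 i4 b7) (Lsw H i3 i46 b831) (k_one i8 i46 c759))
  have c1194 := LP2 H i4 i47 i5 c348.symm b9 (Lsw H i5 i47 b848)
  have c1195 := Lco i65 i4 (LP1 H i4 i48 i2 c350.symm (Lsw H i2 i4 b5) (Lsw H i2 i48 b825) (k_one i6 i48 c758))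
  have c1196 := LP2 H i4 i48 i5 c350.symm b9 (Lsw H i5 i48 b849)
  have c1200 := LP2 H i4 i58 i2 c545.symm (Lsw H i2 i4 b5) (Lsw H i2 i58 b829)
  have c1210 := LP3 H i7 i5 i14 c13 b320 (Lsw H i5 i57 b851)
  have c1211 := Lck c13.symm c168.symm b855
  have c1214 := Lck c13.symm c278.symm b858
  have c1215 := Lck c13 c752.symm b849
  have c1216 := Lck c13 c368.symm b851
  have c1217 := Lck c17 c751.symm b847
  have c1218 := Lck c17 c546 b851
  have c1219 := LP2 H i5 i10 i22 c19.symm b315 b860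
  have c1223 := LP2 H i5 i10 i35 c19.symm (Lsw H i35 i5 b797) b864
  have c1225 := Lck c60 c780.symm b847
  have c1226 := Lck c60 c793.symm b849
  have c1230 := Lck c155 c490 b849
  have c1232 := LP3 H i5 i24 i2 c168.symm (Lsw H i2 i5 b6) b855
  have c1233 := Lck c168 c721.symm b845
  have c1238 := LP3 H i28 i5 i3 c277 (Lsw H i3 i28 b305) (Lsw H i5 i42 b845)
  have c1239 := Lck c277 c339.symm b845
  have c1245 := LP3 H i5 i29 i2 c278.symm (Lsw H i2 i5 b6) b858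
  have c1246 := Lck c278 c467 b845
  have c1248 := Lck c278 c632 b848
  have c1249 := Lck c278 c610 b849
  have c1252 := LP2 H i5 i30 i8 c121.symm b34 (Lsw H i8 i30 b859)
  have c1254 := LP2 H i5 i32 i6 c125.symm b33 (Lsw H i6 i32 b853)
  have c1255 := Lck c125 c502 b851
  have c1258 := Lco i78 i5 (LP1 H i5 i50 i4 c354.symm (Lsw H i4 i5 b9) (Lsw H i4 i50 b838) (k_one i10 i50 c506))
  have c1261 := Lco i75 i5 (LP1 H i5 i52 i3 c358.symm (Lsw H i3 i5 b8) (Lsw H i3 i52 b835) (k_one i9 i52 c765))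
  have c1265 := Lco i67 i5 (LP1 H i5 i54 i2 c362.symm (Lsw H i2 i5 b6) (Lsw H i2 i54 b827) (k_one i7 i54 c764))
  have c1278 := LP3 H i8 i6 i7 c25.symm (Lsw H i7 i8 b98) (Lsw H i6 i35 b854)
  have c1288 := Lck c269 c229 b853
  have c1291 := Lco i70 i6 (LP1 H i6 i45 i3 c432 b80 (Lsw H i3 i45 b830) (k_one i11 i45 c477))
  have c1296 := LP2 H i6 i48 i5 c758 (Lsw H i5 i6 b33) (Lsw H i5 i48 b849)
  have c1301 := LP3 H i9 i7 i8 c26.symm b238 (Lsw H i7 i24 b855)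
  have c1305 := LP3 H i12 i7 i4 c67.symm (Lsw H i4 i12 b90) (Lsw H i7 i27 b857)
  have c1308 := LP3 H i17 i7 i3 c64.symm (Lsw H i3 i17 b88) (Lsw H i7 i25 b856)
  have c1335 := LP2 H i7 i54 i4 c764 (Lsw H i4 i7 b31) (Lsw H i4 i54 b842)
  have c1338 := LP3 H i11 i8 i5 c36 (Lsw H i5 i11 b93) (Lsw H i8 i30 b859)
  have c1339 := Lck c36.symm c69 b865
  have c1341 := LP3 H i8 i16 i2 c69 (Lsw H i2 i8 b27) b865
  have c1342 := LP2 H i8 i16 i13 c69 b322 (Lsw H i13 i16 b866)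
  have c1344 := Lco i97 i8 (LP1 H i8 i27 i7 c177 (Lsw H i7 i8 b98) (Lsw H i7 i27 b857) (k_one i35 i27 c808.symm))
  have c1345 := LP2 H i8 i29 i7 c178 (Lsw H i7 i8 b98) (Lsw H i7 i29 b858)
  have c1348 := LP2 H i8 i42 i5 c497 (Lsw H i5 i8 b34) (Lsw H i5 i42 b845)
  have c1349 := Lco i64 i8 (LP1 H i8 i45 i2 c457 (Lsw H i2 i8 b27) (Lsw H i2 i45 b824) (k_one i11 i45 c477))
  have c1352 := Lco i65 i8 (LP1 H i8 i48 i2 c459 (Lsw H i2 i8 b27) (Lsw H i2 i48 b825) (k_one i11 i48 c480))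
  have c1353 := LP2 H i8 i48 i5 c459 (Lsw H i5 i8 b34) (Lsw H i5 i48 b849)
  have c1356 := Lck c755 c589.symm b859
  have c1361 := LP2 H i9 i30 i8 c176 b238 (Lsw H i8 i30 b859)
  have c1364 := LP2 H i9 i42 i4 c529 (Lsw H i4 i9 b32) (Lsw H i4 i42 b836)
  have c1365 := LP2 H i9 i43 i4 c531 (Lsw H i4 i9 b32) (Lsw H i4 i43 b837)
  have c1367 := LP2 H i9 i52 i4 c765 (Lsw H i4 i9 b32) (Lsw H i4 i52 b840)
  have c1371 := Lco i68 i9 (LP1 H i9 i57 i2 c546 (Lsw H i2 i9 b28) (Lsw H i2 i57 b828) (k_one i12 i57 c456))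
  have c1373 := LP2 H i9 i58 i2 c547 (Lsw H i2 i9 b28) (Lsw H i2 i58 b829)
  have c1375 := LP3 H i15 i10 i3 c74.symm (Lsw H i3 i15 b86) (Lsw H i10 i23 b861)
  have c1378 := LP3 H i10 i16 i2 c75 (Lsw H i2 i10 b29) b866
  have c1381 := LP3 H i17 i10 i3 c70.symm (Lsw H i3 i17 b88) (Lsw H i10 i25 b862)
  have c1384 := LP3 H i18 i10 i2 c71.symm (Lsw H i2 i18 b85) (Lsw H i10 i22 b860)
  have c1385 := Lck c71.symm c106.symm b860
  have c1401 := LP2 H i10 i27 i7 c197 (Lsw H i7 i10 b248) (Lsw H i7 i27 b857)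
  have c1402 := Lck c197.symm c784.symm b861
  have c1406 := LP2 H i10 i30 i8 c187 (Lsw H i8 i10 b245) (Lsw H i8 i30 b859)
  have c1407 := Lck c187.symm c735.symm b860
  have c1411 := LP2 H i10 i32 i6 c196 (Lsw H i6 i10 b244) (Lsw H i6 i32 b853)
  have c1434 := LP2 H i12 i23 i10 c209 (Lsw H i10 i12 b325) (Lsw H i10 i23 b861)
  have c1440 := LP2 H i12 i43 i4 c557 (Lsw H i4 i12 b90) (Lsw H i4 i43 b837)
  have c1459 := Lco i76 i14 (LP1 H i14 i42 i4 c583 (Lsw H i4 i14 b92) (Lsw H i4 i42 b836) (k_one i29 i42 c467))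
  have c1460 := LP2 H i14 i42 i5 c583 (Lsw H i5 i14 b95) (Lsw H i5 i42 b845)
  have c1461 := LP2 H i14 i43 i4 c585 (Lsw H i4 i14 b92) (Lsw H i4 i43 b837)
  have c1470 := LP2 H i15 i48 i5 c483 b281 (Lsw H i5 i48 b849)
  have c1476 := Lco i71 i16 (LP1 H i16 i46 i3 c486 (Lsw H i3 i16 b87) (Lsw H i3 i46 b831) (k_one i24 i46 c493))
  have c1481 := Lco i72 i16 (LP1 H i16 i49 i3 c570 (Lsw H i3 i16 b87) (Lsw H i3 i49 b832) (k_one i24 i49 c496))
  have c1489 := LP2 H i17 i54 i4 c516 b295 (Lsw H i4 i54 b842)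
  have c1491 := LP2 H i18 i29 i7 c251 (Lsw H i7 i18 b689) (Lsw H i7 i29 b858)
  have c1493 := Lco i94 i18 (LP1 H i18 i35 i6 c191 b698 (Lsw H i6 i35 b854) (k_one i60 i35 c552.symm))
  have c1496 := LP2 H i18 i52 i4 c518 b298 (Lsw H i4 i52 b840)
  have c1500 := LP2 H i19 i42 i4 c605 (Lsw H i4 i19 b308) (Lsw H i4 i42 b836)
  have c1502 := LP2 H i19 i43 i4 c606 (Lsw H i4 i19 b308) (Lsw H i4 i43 b837)
  have c1506 := LP2 H i19 i57 i5 c423 (Lsw H i5 i19 b313) (Lsw H i5 i57 b851)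
  have c1517 := LP2 H i22 i35 i10 c736 (Lsw H i10 i22 b860) (Lsw H i10 i35 b864)
  have c1518 := LP2 H i22 i47 i5 c349.symm (Lsw H i5 i22 b315) (Lsw H i5 i47 b848)
  have c1520 := LP2 H i22 i52 i4 c359.symm (Lsw H i4 i22 b310) (Lsw H i4 i52 b840)
  have c1524 := LP2 H i23 i42 i4 c620 (Lsw H i4 i23 b311) (Lsw H i4 i42 b836)
  have c1526 := LP2 H i23 i43 i4 c621 (Lsw H i4 i23 b311) (Lsw H i4 i43 b837)
  have c1538 := LP2 H i25 i42 i4 c629 (Lsw H i4 i25 b312) (Lsw H i4 i42 b836)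
  have c1543 := Lco i67 i25 (LP1 H i25 i54 i2 c363.symm b658 (Lsw H i2 i54 b827) (k_one i40 i54 c675.symm))
  have c1557 := LP2 H i28 i45 i3 c598 (Lsw H i3 i28 b305) (Lsw H i3 i45 b830)
  have c1577 := LP2 H i32 i57 i2 c502 (Lsw H i2 i32 b302) (Lsw H i2 i57 b828)
  have c1585 := LP2 H i35 i48 i5 c711 b797 (Lsw H i5 i48 b849)
  have c1587 := LP2 H i35 i52 i4 c717 b796 (Lsw H i4 i52 b840)
  have c1596 := LP2 H i42 i43 i4 c654 (Lsw H i4 i42 b836) (Lsw H i4 i43 b837)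
  have c1597 := LP2 H i45 i46 i3 c635 (Lsw H i3 i45 b830) (Lsw H i3 i46 b831)
  have c1603 := LP2 H i45 i49 i3 c641 (Lsw H i3 i45 b830) (Lsw H i3 i49 b832)
  have c1607 := LP2 H i46 i49 i3 c815.symm (Lsw H i3 i46 b831) (Lsw H i3 i49 b832)
  have c1609 := LP2 H i47 i48 i5 c811 (Lsw H i5 i47 b848) (Lsw H i5 i48 b849)
  have c1627 := LP2 H i54 i58 i2 c783.symm (Lsw H i2 i54 b827) (Lsw H i2 i58 b829)
  have c1628 := LP2 H i57 i58 i2 c607 (Lsw H i2 i57 b828) (Lsw H i2 i58 b829)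
  have b1629 := LP1 H i3 i2 i27 hbc.symm b304 b300 (Lsw H i2 i41 b823)
  have b1631 := LP1 H i3 i2 i35 hbc.symm (Lsw H i35 i3 b792) (Lsw H i35 i2 b661) (Lsw H i2 i41 b823)
  have b1632 := LP1 H i7 i2 i14 c12 b320 b82 (Lsw H i2 i57 b828)
  have b1633 := LP1 H i7 i2 i16 c12 b321 b84 (Lsw H i2 i58 b829)
  have b1634 := LP1 H i12 i2 i8 c37 (Lsw H i8 i12 b672) b27 (Lsw H i2 i41 b823)
  have b1635 := LP1 H i19 i2 i4 c99 (Lsw H i4 i19 b308) b5 (Lsw H i2 i45 b824)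
  have c1636 := LP3 H i2 i19 i5 c99.symm b6 (Lsw H i19 i7 b1632)
  have c1637 := LP3 H i2 i21 i5 c103.symm b6 (Lsw H i21 i7 b1633)
  have c1644 := Lck c1178 c1254.symm (Lsw H i17 i2 b234)
  have c1647 := Lck c1232 c1301 b27
  have c1656 := Lck c1245 c1345.symm (Lsw H i35 i2 b661)
  have c1662 := Lck c1384 c1407.symm (Lsw H i30 i2 b662)
  have b1670 := LP1 H i19 i3 i4 c151.symm (Lsw H i4 i19 b308) b7 (Lsw H i3 i45 b830)
  have b1671 := LP1 H i19 i3 i5 c151.symm (Lsw H i5 i19 b313) b8 (Lsw H i3 i50 b833)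
  have c1672 := Lco i64 i3 (LP1 H i3 i19 i6 c151 (Lsw H i6 i3 b80) (Lsw H i6 i19 b1635) (k_one i11 i19 c212))
  have c1673 := Lco i68 i3 (LP1 H i3 i19 i7 c151 (Lsw H i7 i3 b81) b1632 (k_one i12 i19 c217))
  have b1674 := LP1 H i25 i3 i4 c111 (Lsw H i4 i25 b312) b7 (Lsw H i3 i49 b832)
  have c1678 := Lck c1165 c1500.symm b830
  have c1680 := Lck c1171 c1502.symm b830
  have c1685 := Lck c1375 c1402.symm b304
  have c1689 := Lco i94 i4 (LP1 H i4 i6 i35 c11.symm (Lsw H i35 i4 b796) b854 (k_one i48 i6 c758.symm))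
  have b1690 := LP1 H i8 i4 i13 c15 b322 b91 (Lsw H i4 i59 b844)
  have c1691 := LP3 H i4 i8 i17 c15.symm (Lsw H i17 i4 b295) b1690
  have b1692 := LP1 H i4 i11 i9 c59.symm b32 b670 (Lsw H i11 i16 b865)
  have e1694 := (LP1 H i28 i4 i3 c117 (Lsw H i3 i28 b305) (Lsw H i3 i4 b7) (Lsw H i4 i42 b836)).symm.trans (Lsw H i28 i8 b1690)
  have m1695 : t76 = t84 := e1694
  subst m1695
  have b1696 := LP1 H i31 i4 i3 c279 (Lsw H i3 i31 b306) (Lsw H i3 i4 b7) (Lsw H i4 i43 b837)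
  have b1697 := LP1 H i4 i32 i2 c280.symm (Lsw H i2 i4 b5) (Lsw H i2 i32 b302) b853
  have b1702 := LP1 H i7 i5 i14 c13 b320 b95 (Lsw H i5 i57 b851)
  have c1703 := LP3 H i5 i7 i16 c13.symm (Lsw H i16 i5 b282) b1702
  have c1704 := LP2 H i5 i7 i19 c13.symm b313 (Lsw H i19 i7 b1632)
  have c1706 := Lco i96 i5 (LP1 H i5 i7 i25 c13.symm b317 b856 (k_one i54 i7 c764.symm))
  have b1708 := LP1 H i5 i24 i2 c168.symm (Lsw H i2 i5 b6) (Lsw H i2 i24 b299) b855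
  have b1709 := LP1 H i28 i5 i3 c277 (Lsw H i3 i28 b305) (Lsw H i3 i5 b8) (Lsw H i5 i42 b845)
  have c1710 := LP2 H i5 i28 i8 c277.symm b34 b1690
  have b1711 := LP1 H i5 i29 i2 c278.symm (Lsw H i2 i5 b6) (Lsw H i2 i29 b301) b858
  have c1712 := LP2 H i5 i31 i8 c123.symm b34 (Lsw H i8 i31 b1696)
  have c1713 := LP3 H i5 i32 i2 c125.symm (Lsw H i2 i5 b6) (Lsw H i32 i7 b1702)
  have c1714 := LP2 H i5 i44 i4 c671.symm (Lsw H i4 i5 b9) b1692
  have b1722 := LP1 H i8 i6 i7 c25.symm (Lsw H i7 i8 b98) b96 (Lsw H i6 i35 b854)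
  have c1723 := LP3 H i6 i8 i10 c25 b244 b1690
  have b1724 := LP1 H i13 i6 i3 c72.symm b233 b80 (Lsw H i6 i19 b1635)
  have c1727 := LP2 H i6 i38 i5 c498 (Lsw H i5 i6 b33) b1711
  have c1730 := Lck c1200.symm c1637 (Lsw H i5 i6 b33)
  have c1732 := Lck c1058.symm c1710.symm (Lsw H i18 i6 b698)
  have b1738 := LP1 H i9 i7 i8 c26.symm b238 b98 (Lsw H i7 i24 b855)
  have c1739 := LP3 H i9 i7 i10 c26.symm b249 b1702
  have b1740 := LP1 H i12 i7 i4 c67.symm (Lsw H i4 i12 b90) (Lsw H i4 i7 b31) (Lsw H i7 i27 b857)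
  have b1741 := LP1 H i13 i7 i3 c76.symm b233 b81 b1632
  have c1743 := LP3 H i7 i15 i3 c44.symm b81 (Lsw H i15 i12 b1740)
  have b1744 := LP1 H i17 i7 i3 c64.symm (Lsw H i3 i17 b88) b81 (Lsw H i7 i25 b856)
  have c1745 := Lco i99 i7 (LP1 H i7 i30 i8 c163 b98 (Lsw H i8 i30 b859) (k_one i35 i30 c806.symm))
  have c1746 := LP2 H i7 i31 i8 c166 b98 (Lsw H i8 i31 b1696)
  have c1747 := LP2 H i7 i39 i4 c532 (Lsw H i4 i7 b31) b1697
  have c1750 := Lck c1021.symm c1543 b856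
  have c1761 := Lck c1216.symm c1703 b321
  have c1762 := Lck c1278 c1493 b689
  have b1764 := LP1 H i11 i8 i5 c36 (Lsw H i5 i11 b93) (Lsw H i5 i8 b34) (Lsw H i8 i30 b859)
  have c1766 := LP3 H i14 i8 i2 c73.symm (Lsw H i2 i14 b82) (Lsw H i8 i19 b1670)
  have b1767 := LP1 H i8 i16 i2 c69 (Lsw H i2 i8 b27) (Lsw H i2 i16 b84) b865
  have c1768 := LP3 H i8 i18 i2 c50.symm (Lsw H i2 i8 b27) (Lsw H i18 i11 b1764)
  have c1775 := Lck c1339.symm c1714.symm b245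
  have c1777 := LP3 H i14 i9 i2 c77.symm (Lsw H i2 i14 b82) (Lsw H i9 i19 b1671)
  have c1778 := Lco i72 i9 (LP1 H i9 i25 i8 c198 b238 (Lsw H i8 i25 b1674) (k_one i24 i25 c232.symm))
  have c1782 := Lck c1145 c1714.symm b249
  have b1785 := LP1 H i15 i10 i3 c74.symm (Lsw H i3 i15 b86) (Lsw H i3 i10 b30) (Lsw H i10 i23 b861)
  have b1786 := LP1 H i10 i16 i2 c75 (Lsw H i2 i10 b29) (Lsw H i2 i16 b84) b866
  have b1789 := LP1 H i18 i10 i2 c71.symm (Lsw H i2 i18 b85) (Lsw H i2 i10 b29) (Lsw H i10 i22 b860)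
  have c1792 := Lco i30 i36 (LP1 H i36 i11 i5 c564.symm b1708 (Lsw H i5 i11 b93) (k_one i95 i11 c1647))
  have c1793 := LP2 H i11 i38 i5 c566 (Lsw H i5 i11 b93) b1711
  have c1794 := Lck c1087.symm c1476 b865
  have c1796 := Lck c1088.symm c1481 b865
  have c1807 := LP2 H i13 i19 i8 c167 (Lsw H i8 i13 b322) (Lsw H i8 i19 b1670)
  have c1809 := LP2 H i13 i31 i8 c124.symm (Lsw H i8 i13 b322) (Lsw H i8 i31 b1696)
  have c1811 := Lck c1013 c1636 (Lsw H i5 i14 b95)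
  have c1812 := Lck c1210 c1713 (Lsw H i2 i14 b82)
  have c1814 := Lck c1164.symm c1743 (Lsw H i3 i15 b86)
  have c1815 := LP2 H i16 i18 i11 c265 (Lsw H i11 i16 b865) b1764
  have c1817 := LP2 H i16 i36 i5 c408.symm b282 b1708
  have c1818 := Lck c1014 c1637 b282
  have c1823 := Lck c1252.symm c1768 (Lsw H i2 i18 b85)
  have c1824 := LP2 H i19 i25 i7 c288 b1632 (Lsw H i7 i25 b856)
  have c1831 := LP2 H i21 i27 i7 c731 b1633 (Lsw H i7 i27 b857)
  have c1839 := Lco i91 i24 (LP1 H i24 i32 i7 c243.symm (Lsw H i7 i24 b855) b1702 (k_one i95 i32 c1817.symm))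
  have c1840 := Lck c1361.symm c1768 (Lsw H i2 i24 b299)
  have c1841 := LP2 H i25 i30 i8 c786 (Lsw H i8 i25 b1674) (Lsw H i8 i30 b859)
  have c1846 := Lck c1406.symm c1768 (Lsw H i2 i29 b301)
  have c1847 := Lck c1406.symm c1745 (Lsw H i7 i29 b858)
  have c1851 := Lck c1401.symm c1743 (Lsw H i3 i31 b306)
  have c1852 := Lco i39 i57 (LP1 H i57 i32 i2 c502.symm (Lsw H i2 i57 b828) (Lsw H i2 i32 b302) (k_one i68 i32 c1811))
  have c1853 := Lco i39 i58 (LP1 H i58 i32 i2 c503.symm (Lsw H i2 i58 b829) (Lsw H i2 i32 b302) (k_one i69 i32 c1818))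
  have c1855 := Lck c1255.symm c1713 (Lsw H i2 i32 b302)
  have c1867 := Lck c878 c1636 (Lsw H i5 i57 b851)
  have q1869 : Rl [t22, t30, t35, t56, t52, t99] := LJ H i2 i5 i8 b6 b27 b34 b85 b93 (Lsw H i7 i8 b98) b319 b689 (Lsw H i18 i11 b1764)
  have q1870 : Rl [t23, t27, t35, t41, t48, t97] := LJ H i3 i4 i7 b7 (Lsw H i7 i3 b81) b31 b86 b90 b98 b672 b677 (Lsw H i15 i12 b1740)
  have c1871 := q260.l1 (.cons c1747 (.cons c1254 (.cons c1644.symm (.cons c1411 (.cons c1288 .nil)))))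
  have q1873 : Rl [t32, t14, t16, t18, t24, t29] := q264.mv 5 rfl
  have c1874 := q1873.l1 (.cons c1459.symm (.cons c1364 (.cons c1710 (.cons c1158 (.cons c1169 .nil)))))
  have c1875 := q264.l1 (.cons c1365 (.cons c1712 (.cons c1159 (.cons c1461 (.cons c1179 .nil)))))
  have q1876 : Rl [t30, t22, t35, t56, t52, t99] := q1869.mv 1 rfl
  have b1877 := Rl.l2 H i30 i22 i8 q1876 (.cons c132 (.cons c421 (.cons c755 (.cons c939 .nil)))) (Lsw H i8 i30 b859)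
  have q1878 : Rl [t35, t22, t30, t56, t52, t99] := q1869.mv 2 rfl
  have c1879 := q1878.l1 (.cons c439 (.cons c1792 (.cons c713.symm (.cons c669 (.cons c1840 .nil)))))
  have c1880 := q1869.l1 (.cons c1793 (.cons c1345 (.cons c1656.symm (.cons c1491 (.cons c1847 .nil)))))
  have q1881 : Rl [t27, t23, t35, t41, t48, t97] := q1870.mv 1 rfl
  have b1882 := Rl.l2 H i27 i23 i7 q1881 (.cons c131 (.cons c746 (.cons c752 (.cons c935 .nil)))) (Lsw H i7 i27 b857)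
  have b1883 := LP1 H i2 i3 i30 hbc (Lsw H i30 i2 b662) (Lsw H i30 i3 b748) b1631
  have c1884 := LP3 H i2 i11 i10 c35.symm b29 (Lsw H i11 i13 b1724)
  have c1885 := LP3 H i2 i12 i10 c37.symm b29 (Lsw H i12 i13 b1741)
  have b1887 := LP1 H i2 i19 i5 c99.symm b6 (Lsw H i5 i19 b313) (Lsw H i19 i7 b1632)
  have b1888 := LP1 H i2 i21 i5 c103.symm b6 (Lsw H i5 i21 b314) (Lsw H i21 i7 b1633)
  have c1890 := Lck c1713 c1703 b84
  have c1897 := Lck c1341 c1714.symm b29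
  have c1902 := LP3 H i3 i8 i17 c14.symm b88 (Lsw H i8 i25 b1674)
  have c1906 := Lck c1672 c1884 b30
  have c1909 := Lck c1165 c1135 (Lsw H i13 i3 b233)
  have c1910 := Lck c1165 c1691 b88
  have c1916 := Lco i28 i11 (LP1 H i11 i4 i13 c59 b1724 b91 (k_one i64 i4 c1037))
  have c1917 := LP3 H i4 i20 i3 c160.symm (Lsw H i3 i4 b7) (Lsw H i20 i8 b1722)
  have c1918 := LP2 H i4 i28 i9 c117.symm b32 (Lsw H i9 i28 b1709)
  have c1922 := Lck c1037 c1906 b92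
  have c1925 := Lck c1104 c1902 (Lsw H i17 i4 b295)
  have c1929 := Lck c1305 c1851 b837
  have b1930 := LP1 H i5 i7 i16 c13.symm (Lsw H i16 i5 b282) b321 b1702
  have b1932 := LP1 H i9 i5 i15 c17 (Lsw H i15 i9 b708) (Lsw H i15 i5 b281) b1930
  have c1934 := LP3 H i5 i12 i6 c60.symm b33 (Lsw H i12 i17 b1744)
  have c1935 := Lco i31 i12 (LP1 H i12 i5 i13 c60 b1741 b94 (k_one i68 i5 c1636))
  have c1936 := Lco i97 i5 (LP1 H i5 i12 i15 c60.symm (Lsw H i15 i5 b281) (Lsw H i15 i12 b1740) (k_one i31 i12 c1935))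
  have c1937 := Lck c277 c1916 b93
  have c1938 := LP3 H i5 i31 i3 c123.symm (Lsw H i3 i5 b8) (Lsw H i31 i9 b1932)
  have b1939 := LP1 H i5 i32 i2 c125.symm (Lsw H i2 i5 b6) (Lsw H i2 i32 b302) (Lsw H i32 i7 b1702)
  have c1942 := Lck c923 c1890 b314
  have b1944 := LP1 H i6 i8 i10 c25 b244 b245 b1690
  have c1946 := LP2 H i6 i13 i12 c72 b318 (Lsw H i12 i13 b1741)
  have c1950 := Lco i42 i6 (LP1 H i6 i28 i3 c165 b80 (Lsw H i3 i28 b305) (k_one i11 i28 c1916.symm))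
  have c1951 := LP2 H i6 i31 i9 c269.symm b97 b1932
  have c1952 := Lck c269 c1935 b318
  have c1955 := LP2 H i6 i39 i5 c500 (Lsw H i5 i6 b33) b1939
  have c1956 := Lck c500.symm c616.symm b1635
  have c1961 := Lco i62 i7 (LP1 H i7 i12 i10 c67 b248 (Lsw H i10 i12 b325) (k_one i31 i12 c1935))
  have c1962 := Lco i64 i7 (LP1 H i7 i13 i11 c76 b319 (Lsw H i11 i13 b1724) (k_one i56 i13 c726.symm))
  have c1964 := LP2 H i7 i15 i14 c44.symm b320 (Lsw H i14 i15 b1785)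
  have c1968 := Lck c271 c1916 b319
  have c1970 := Lco i43 i7 (LP1 H i7 i31 i3 c166 b81 (Lsw H i3 i31 b306) (k_one i12 i31 c1935.symm))
  have c1973 := Lck c530.symm c615.symm (Lsw H i19 i7 b1632)
  have c1982 := Lck c1278 c1917 b81
  have b1985 := LP1 H i14 i8 i2 c73.symm (Lsw H i2 i14 b82) (Lsw H i2 i8 b27) (Lsw H i8 i19 b1670)
  have c1988 := LP2 H i8 i18 i13 c50.symm b322 (Lsw H i13 i18 b1789)
  have c1996 := Lck c499.symm c1970 (Lsw H i7 i8 b98)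
  have c1997 := Lck c499.symm c606.symm b1670
  have c2019 := Lck c1344 c1936 (Lsw H i5 i8 b34)
  have b2020 := LP1 H i14 i9 i2 c77.symm (Lsw H i2 i14 b82) (Lsw H i2 i9 b28) (Lsw H i9 i19 b1671)
  have c2021 := LP2 H i9 i14 i11 c77 (Lsw H i11 i9 b670) (Lsw H i11 i14 b1985)
  have c2023 := Lck c198.symm c288.symm b1671
  have c2024 := LP2 H i9 i29 i6 c275.symm (Lsw H i6 i9 b97) b1944
  have c2027 := Lck c529.symm c1950 (Lsw H i6 i9 b97)
  have c2028 := Lck c529.symm c605.symm b1671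
  have c2039 := Lco i96 i10 (LP1 H i10 i17 i12 c70 b325 (Lsw H i12 i17 b1744) (k_one i62 i17 c700.symm))
  have c2040 := Lco i28 i19 (LP1 H i19 i10 i6 c150 (Lsw H i6 i19 b1635) (Lsw H i6 i10 b244) (k_one i64 i10 c1884))
  have c2041 := Lco i31 i19 (LP1 H i19 i10 i7 c150 b1632 (Lsw H i7 i10 b248) (k_one i68 i10 c1885))
  have c2044 := Lco i13 i45 (LP1 H i45 i10 i2 c474.symm (Lsw H i2 i45 b824) (Lsw H i2 i10 b29) (k_one i64 i10 c1884))
  have c2052 := Lck c215.symm c226.symm b1724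
  have c2053 := LP2 H i11 i23 i7 c204 (Lsw H i7 i11 b319) b1882
  have c2054 := Lck c543.symm c1970 (Lsw H i7 i11 b319)
  have c2055 := Lck c794 c773.symm (Lsw H i18 i11 b1764)
  have c2058 := Lck c219.symm c223.symm b1741
  have c2059 := Lco i37 i35 (LP1 H i35 i12 i6 c169.symm (Lsw H i6 i35 b854) (Lsw H i6 i12 b318) (k_one i94 i12 c1982))
  have c2064 := Lck c1373.symm c1730 b1744
  have c2071 := Lco i73 i13 (LP1 H i13 i14 i12 c63 (Lsw H i12 i13 b1741) (Lsw H i12 i14 b2020) (k_one i68 i14 c1013))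
  have c2074 := Lck c63.symm c257 b1789
  have c2075 := LP2 H i13 i15 i12 c254 (Lsw H i12 i13 b1741) b1740
  have c2076 := Lck c256.symm c78 b1789
  have c2077 := Lco i59 i21 (LP1 H i21 i13 i8 c223.symm b1767 (Lsw H i8 i13 b322) (k_one i105 i13 c1897))
  have c2079 := Lco i42 i13 (LP1 H i13 i28 i3 c118.symm b233 (Lsw H i3 i28 b305) (k_one i19 i28 c2040.symm))
  have c2080 := Lco i43 i13 (LP1 H i13 i31 i3 c124.symm b233 (Lsw H i3 i31 b306) (k_one i19 i31 c2041.symm))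
  have c2082 := Lco i28 i39 (LP1 H i39 i13 i4 c586.symm b1697 (Lsw H i4 i13 b91) (k_one i93 i13 c1871.symm))
  have c2084 := LP2 H i14 i16 i11 c255 (Lsw H i11 i14 b1985) (Lsw H i11 i16 b865)
  have c2086 := LP2 H i14 i18 i11 c257 (Lsw H i11 i14 b1985) b1764
  have c2089 := Lco i29 i43 (LP1 H i43 i14 i4 c585.symm (Lsw H i4 i43 b837) (Lsw H i4 i14 b92) (k_one i77 i14 c1875.symm))
  have c2095 := LP2 H i15 i17 i12 c261 b1740 (Lsw H i12 i17 b1744)
  have c2097 := Lco i61 i17 (LP1 H i17 i30 i4 c201 b295 b676 (k_one i28 i30 c1937))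
  have c2098 := Lco i54 i31 (LP1 H i31 i17 i9 c202.symm b1932 (Lsw H i9 i17 b688) (k_one i91 i17 c1955.symm))
  have c2102 := Lco i50 i39 (LP1 H i39 i19 i5 c616.symm b1939 (Lsw H i5 i19 b313) (k_one i91 i19 c1812))
  have c2103 := Lco i45 i42 (LP1 H i42 i19 i4 c605.symm (Lsw H i4 i42 b836) (Lsw H i4 i19 b308) (k_one i76 i19 c1909))
  have c2105 := Lck c1038.symm c1962 b1632
  have c2108 := Lco i51 i39 (LP1 H i39 i21 i5 c626.symm b1939 (Lsw H i5 i21 b314) (k_one i91 i21 c1890))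
  have c2110 := Lco i41 i22 (LP1 H i22 i35 i3 c736 b659 b792 (k_one i36 i35 c1879.symm))
  have c2111 := Lco i52 i38 (LP1 H i38 i22 i5 c633.symm b1711 (Lsw H i5 i22 b315) (k_one i98 i22 c1880.symm))
  have c2115 := Lco i56 i24 (LP1 H i24 i35 i2 c253.symm (Lsw H i2 i24 b299) b661 (k_one i36 i35 c1879.symm))
  have c2116 := Lco i49 i42 (LP1 H i42 i25 i4 c629.symm (Lsw H i4 i42 b836) (Lsw H i4 i25 b312) (k_one i76 i25 c1910))
  have c2120 := Lco i56 i27 (LP1 H i27 i35 i2 c808 (Lsw H i2 i27 b300) b661 (k_one i37 i35 c2059))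
  have c2127 := Lco i63 i31 (LP1 H i31 i56 i3 c691.symm (Lsw H i3 i31 b306) b1631 (k_one i43 i56 c2054))
  have c2135 := LP2 H i50 i54 i2 c642 b1887 (Lsw H i2 i54 b827)
  have q2140 : Rl [t42, t45, t59, t70, t76, 1] := LJ H i3 i4 i13 b7 (Lsw H i13 i3 b233) b91 b305 b308 (Lsw H i8 i13 b322) b1670 (Lsw H i28 i8 b1690) (k_one i19 i28 c2040.symm)
  have q2141 : Rl [1, t42, t45, t59, t70, t76] := q2140.mv 5 rfl
  have q2142 : Rl [t42, t45, t59, t70, t76] := q2141.del1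
  have c2143 : Commute t42 t59 := q2142.cm 0 2 rfl rfl
  have q2144 : Rl [t15, t13, t17, t20, t28, t31] := q260.mv 1 rfl
  have c2145 := q2144.l1 (.cons c581 (.cons c508 (.cons c618 (.cons c440 (.cons c1952 .nil)))))
  have q2146 : Rl [t17, t13, t15, t20, t28, t31] := q260.mv 2 rfl
  have c2147 := q2146.l1 (.cons c726 (.cons c476 (.cons c536 (.cons c1968 (.cons c691.symm .nil)))))
  have q2148 : Rl [t20, t13, t15, t17, t28, t31] := q260.mv 3 rfl
  have c2149 := q2148.l1 (.cons c426 (.cons c712 (.cons c2097.symm (.cons c537 (.cons c694.symm .nil)))))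
  have c2150 := q264.l1 (.cons c1918 (.cons c1348 (.cons c1233 (.cons c1246 (.cons c1460 .nil)))))
  have q2151 : Rl [t30, t22, t35, t56, t52, t99] := q1869.mv 1 rfl
  have c2152 := q2151.l1 (.cons c154 (.cons c253 (.cons c2115 (.cons c526.symm (.cons c1361.symm .nil)))))
  have c2157 := q1870.l1 (.cons c2120.symm (.cons c558 (.cons c770.symm (.cons c772.symm (.cons c2053.symm .nil)))))
  have c2159 := q1870.l1 (.cons c1440 (.cons c1746 (.cons c1188 (.cons c1526 (.cons c1929 .nil)))))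
  have c2167 := q2142.l1 (.cons c639 (.cons c727 (.cons c1124.symm (.cons c1524.symm .nil))))
  have c2168 := q2142.l1 (.cons c1502 (.cons c1809 (.cons c1680.symm (.cons c1596 .nil))))
  have c2170 := Lco i76 i2 (LP1 H i2 i6 i29 c10.symm b301 (Lsw H i29 i6 b1944) (k_one i38 i6 c498.symm))
  have b2171 := LP1 H i2 i11 i10 c35.symm b29 (Lsw H i10 i11 b324) (Lsw H i11 i13 b1724)
  have b2172 := LP1 H i2 i12 i10 c37.symm b29 (Lsw H i10 i12 b325) (Lsw H i12 i13 b1741)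
  have c2179 := Lck c1713 c1951.symm (Lsw H i34 i2 b660)
  have b2187 := LP1 H i3 i8 i17 c14.symm b88 b323 (Lsw H i8 i25 b1674)
  have c2188 := LP3 H i3 i11 i10 c61 b30 (Lsw H i11 i14 b1985)
  have c2189 := LP3 H i3 i12 i10 c62 b30 (Lsw H i12 i14 b2020)
  have b2190 := LP1 H i3 i14 i7 c41.symm (Lsw H i7 i3 b81) (Lsw H i7 i14 b320) b2020
  have c2191 := Lco i11 i29 (LP1 H i29 i3 i6 c184 b1944 (Lsw H i6 i3 b80) (k_one i76 i3 c1165))
  have c2193 := Lco i12 i32 (LP1 H i32 i3 i7 c194 b1702 (Lsw H i7 i3 b81) (k_one i91 i3 c1938))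
  have c2196 := Lco i9 i39 (LP1 H i39 i3 i5 c417.symm b1939 b8 (k_one i91 i3 c1938))
  have c2200 := Lck c1672 c1962 (Lsw H i7 i3 b81)
  have c2203 := Lck c1165 c2024.symm b307
  have c2216 := Lck c1308 c2039 b30
  have c2217 := Lck c1743 c1936 b8
  have c2218 := Lck c1743 c2019 b89
  have c2221 := Lco i99 i4 (LP1 H i4 i11 i18 c59.symm (Lsw H i18 i4 b298) (Lsw H i18 i11 b1764) (k_one i29 i11 c2191.symm))
  have b2222 := LP1 H i4 i20 i3 c160.symm (Lsw H i3 i4 b7) (Lsw H i3 i20 b303) (Lsw H i20 i8 b1722)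
  have c2223 := Lck c172 c2152.symm (Lsw H i30 i4 b676)
  have b2224 := LP1 H i4 i29 i2 c119.symm (Lsw H i2 i4 b5) (Lsw H i2 i29 b301) (Lsw H i29 i6 b1944)
  have c2225 := Lck c279 c1935 b90
  have c2226 := Lck c279 c2041 b308
  have c2227 := Lck c279 c2098.symm b842
  have c2228 := Lck c280 c2193.symm b90
  have c2232 := LP2 H i4 i62 i2 c507.symm (Lsw H i2 i4 b5) b2172
  have c2233 := Lck c507 c1961 b31
  have c2241 := Lck c1305 c1936 b9
  have c2242 := Lck c1305 c2217 b32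
  have c2243 := Lck c1305 c2019 (Lsw H i18 i4 b298)
  have b2248 := LP1 H i5 i12 i6 c60.symm b33 (Lsw H i6 i12 b318) (Lsw H i12 i17 b1744)
  have c2250 := Lck c277 c2082 (Lsw H i39 i5 b1939)
  have c2251 := Lck c278 c2191.symm b93
  have b2253 := LP1 H i5 i31 i3 c123.symm (Lsw H i3 i5 b8) (Lsw H i3 i31 b306) (Lsw H i31 i9 b1932)
  have c2258 := Lck c1636 c2232.symm b33
  have c2259 := Lck c1636 c2058.symm b314
  have c2264 := Lck c1936 c2242 (Lsw H i16 i5 b282)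
  have c2266 := Lck c1338 c2221 (Lsw H i4 i5 b9)
  have c2268 := Lco i97 i6 (LP1 H i6 i15 i12 c66 b318 b1740 (k_one i37 i15 c2145.symm))
  have c2269 := Lco i20 i27 (LP1 H i27 i6 i7 c164.symm (Lsw H i7 i27 b857) b96 (k_one i97 i6 c2268))
  have c2270 := Lck c269 c2041 b1635
  have c2272 := LP2 H i6 i42 i5 c1950.symm (Lsw H i5 i6 b33) (Lsw H i5 i42 b845)
  have c2276 := Lck c1934 c2039 b244
  have c2278 := Lck c271 c2040 (Lsw H i19 i7 b1632)
  have c2279 := LP2 H i7 i38 i4 c530 (Lsw H i4 i7 b31) b2224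
  have c2280 := LP2 H i7 i43 i4 c1970.symm (Lsw H i4 i7 b31) (Lsw H i4 i43 b837)
  have c2282 := Lck c1962 c1906 b320
  have c2284 := Lck c1962 c1922 b858
  have c2285 := Lck c1022.symm c2232.symm (Lsw H i6 i7 b96)
  have c2291 := Lco i61 i8 (LP1 H i8 i11 i10 c36.symm b245 (Lsw H i10 i11 b324) (k_one i29 i11 c2191.symm))
  have c2293 := Lco i38 i8 (LP1 H i8 i29 i2 c178 (Lsw H i2 i8 b27) (Lsw H i2 i29 b301) (k_one i11 i29 c2191))
  have c2294 := Lck c273 c2193.symm b672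
  have c2295 := LP2 H i8 i43 i5 c499 (Lsw H i5 i8 b34) b2253
  have c2296 := Lck c499.symm c2080 b322
  have c2302 := Lco i58 i12 (LP1 H i12 i9 i15 c38 (Lsw H i15 i12 b1740) (Lsw H i15 i9 b708) (k_one i97 i9 c2217))
  have c2303 := Lco i70 i9 (LP1 H i9 i14 i11 c77 (Lsw H i11 i9 b670) (Lsw H i11 i14 b1985) (k_one i44 i14 c778.symm))
  have c2304 := Lck c275 c2191.symm (Lsw H i11 i9 b670)
  have c2305 := Lco i99 i9 (LP1 H i9 i30 i8 c176 b238 (Lsw H i8 i30 b859) (k_one i24 i30 c2152.symm))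
  have c2314 := Lco i61 i18 (LP1 H i18 i10 i11 c71.symm b1764 b324 (k_one i99 i10 c2266))
  have c2315 := Lco i29 i19 (LP1 H i19 i10 i8 c150 (Lsw H i8 i19 b1670) (Lsw H i8 i10 b245) (k_one i70 i10 c2188))
  have c2316 := Lco i32 i19 (LP1 H i19 i10 i9 c150 (Lsw H i9 i19 b1671) (Lsw H i9 i10 b249) (k_one i73 i10 c2189))
  have c2327 := Lco i97 i11 (LP1 H i11 i23 i7 c204 (Lsw H i7 i11 b319) b1882 (k_one i56 i23 c2157.symm))
  have c2329 := Lck c205.symm c225.symm b1985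
  have c2333 := Lco i37 i19 (LP1 H i19 i12 i6 c217.symm (Lsw H i6 i19 b1635) (Lsw H i6 i12 b318) (k_one i64 i12 c2200))
  have c2334 := Lco i99 i12 (LP1 H i12 i22 i8 c220 (Lsw H i8 i12 b672) b1877 (k_one i41 i22 c2110))
  have c2335 := Lck c209.symm c222.symm b2020
  have c2336 := Lck c571.symm c2293 (Lsw H i8 i12 b672)
  have c2339 := Lco i96 i13 (LP1 H i13 i17 i12 c256 (Lsw H i12 i13 b1741) (Lsw H i12 i17 b1744) (k_one i68 i17 c2258))
  have c2341 := LP2 H i13 i42 i5 c2079.symm (Lsw H i5 i13 b94) (Lsw H i5 i42 b845)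
  have c2346 := Lck c426.symm c2291 (Lsw H i8 i13 b322)
  have c2348 := Lco i57 i25 (LP1 H i25 i14 i7 c225.symm (Lsw H i7 i25 b856) (Lsw H i7 i14 b320) (k_one i96 i14 c2216))
  have c2349 := Lco i38 i14 (LP1 H i14 i29 i2 c120.symm (Lsw H i2 i14 b82) (Lsw H i2 i29 b301) (k_one i19 i29 c2315.symm))
  have c2351 := Lco i32 i42 (LP1 H i42 i14 i5 c583.symm (Lsw H i5 i42 b845) (Lsw H i5 i14 b95) (k_one i85 i14 c2150.symm))
  have c2352 := Lco i105 i14 (LP1 H i14 i44 i4 c778 (Lsw H i4 i14 b92) b1692 (k_one i29 i44 c2304))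
  have c2359 := Lco i48 i28 (LP1 H i28 i15 i8 c208.symm b1690 (Lsw H i8 i15 b677) (k_one i76 i15 c2279.symm))
  have c2360 := Lco i48 i31 (LP1 H i31 i15 i8 c262.symm (Lsw H i8 i31 b1696) (Lsw H i8 i15 b677) (k_one i77 i15 c2280.symm))
  have c2362 := Lco i96 i15 (LP1 H i15 i37 i5 c2145 b281 b2248 (k_one i31 i37 c1952))
  have c2364 := Lco i89 i15 (LP1 H i15 i48 i5 c483 b281 (Lsw H i5 i48 b849) (k_one i31 i48 c2360.symm))
  have c2368 := Lco i54 i28 (LP1 H i28 i17 i9 c250.symm (Lsw H i9 i28 b1709) (Lsw H i9 i17 b688) (k_one i85 i17 c2272.symm))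
  have c2369 := Lco i20 i30 (LP1 H i30 i17 i2 c201.symm b662 b234 (k_one i56 i17 c2147.symm))
  have c2371 := Lco i82 i17 (LP1 H i17 i54 i4 c516 b295 (Lsw H i4 i54 b842) (k_one i28 i54 c2368.symm))
  have c2373 := Lco i64 i17 (LP1 H i17 i61 i2 c2097.symm b234 b2171 (k_one i20 i61 c2149))
  have c2374 := Lck c2097 c2291 (Lsw H i8 i17 b323)
  have c2379 := Lco i52 i32 (LP1 H i32 i18 i7 c213.symm b1702 (Lsw H i7 i18 b689) (k_one i91 i18 c2295.symm))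
  have c2380 := Lco i63 i18 (LP1 H i18 i41 i2 c687 (Lsw H i2 i18 b85) (Lsw H i2 i41 b823) (k_one i22 i41 c2110.symm))
  have c2381 := Lck c1710.symm c2170 (Lsw H i2 i18 b85)
  have c2389 := Lck c1096.symm c2303 (Lsw H i9 i19 b1671)
  have c2399 := LP2 H i22 i60 i3 c743 b659 b2187
  have c2401 := Lck c1823 c2266 (Lsw H i10 i22 b860)
  have c2405 := Lco i48 i43 (LP1 H i43 i23 i4 c621.symm (Lsw H i4 i43 b837) (Lsw H i4 i23 b311) (k_one i77 i23 c2159.symm))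
  have c2410 := Lck c1814 c2241 (Lsw H i10 i23 b861)
  have c2420 := Lco i42 i60 (LP1 H i60 i28 i3 c471.symm b2187 (Lsw H i3 i28 b305) (k_one i72 i28 c1925))
  have c2423 := Lco i63 i29 (LP1 H i29 i41 i2 c466 (Lsw H i2 i29 b301) (Lsw H i2 i41 b823) (k_one i38 i41 c2336))
  have c2427 := Lco i43 i37 (LP1 H i37 i31 i3 c1952.symm b1629 (Lsw H i3 i31 b306) (k_one i63 i31 c2127))
  have c2433 := Lck c1874.symm c2170 (Lsw H i2 i32 b302)
  have c2434 := Lco i46 i42 (LP1 H i42 i34 i4 c2027 (Lsw H i4 i42 b836) b795 (k_one i76 i34 c2024.symm))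
  have c2451 := Lco i76 i43 (LP1 H i43 i42 i4 c654.symm (Lsw H i4 i43 b837) (Lsw H i4 i42 b836) (k_one i77 i42 c2168.symm))
  have c2454 := LP2 H i42 i48 i5 c2167 (Lsw H i5 i42 b845) (Lsw H i5 i48 b849)
  have c2466 := Lck c1356.symm c2221 (Lsw H i4 i52 b840)
  have q2470 : Rl [t39, t50, t57, t68, t91, 1] := LJ H i2 i5 i14 b6 b82 b95 b302 b313 (Lsw H i7 i14 b320) (Lsw H i19 i7 b1632) (Lsw H i32 i7 b1702) (k_one i19 i32 c2316.symm)
  have q2471 : Rl [1, t39, t50, t57, t68, t91] := q2470.mv 5 rfl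
  have q2472 : Rl [t39, t50, t57, t68, t91] := q2471.del1
  have q2473 : Rl [t15, t13, t17, t20, t28, t31] := q260.mv 1 rfl
  have c2474 := q2473.l1 (.cons c1036 (.cons c2258.symm (.cons c2285.symm (.cons c2278 (.cons c1047 .nil)))))
  have c2475 := q260.l1 (.cons c1335 (.cons c2371.symm (.cons c1156 (.cons c1489 (.cons c2227 .nil)))))
  have q2476 : Rl [t16, t14, t18, t24, t29, t32] := q264.mv 1 rfl
  have c2477 := q2476.l1 (.cons c582 (.cons c687 (.cons c624 (.cons c466 (.cons c2294 .nil)))))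
  have q2480 : Rl [t29, t14, t16, t18, t24, t32] := q264.mv 4 rfl
  have c2481 := q2480.l1 (.cons c1210.symm (.cons c1703.symm (.cons c2295 (.cons c1839.symm (.cons c1255 .nil)))))
  have c2482 := q264.l1 (.cons c2242.symm (.cons c2019.symm (.cons c2218.symm (.cons c2243.symm (.cons c2264.symm .nil)))))
  have q2483 : Rl [t18, t14, t16, t24, t29, t32] := q264.mv 2 rfl
  have c2484 := q2483.l1 (.cons c2352.symm (.cons c952.symm (.cons c1085 (.cons c1775.symm (.cons c1782.symm .nil)))))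
  have q2485 : Rl [t30, t22, t35, t56, t52, t99] := q1869.mv 1 rfl
  have c2486 := q2485.l1 (.cons c220.symm (.cons c169.symm (.cons c448.symm (.cons c511.symm (.cons c2334 .nil)))))
  have q2487 : Rl [t99, t22, t30, t35, t56, t52] := q1869.mv 5 rfl
  have c2488 := q2487.l1 (.cons c259.symm (.cons c2369.symm (.cons c200.symm (.cons c536.symm (.cons c521.symm .nil)))))
  have q2496 : Rl [t35, t22, t30, t56, t52, t99] := q1869.mv 2 rfl
  have c2497 := q2496.l1 (.cons c942.symm (.cons c1407 (.cons c1662.symm (.cons c1219 (.cons c2401 .nil)))))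
  have q2498 : Rl [t27, t23, t35, t41, t48, t97] := q1870.mv 1 rfl
  have c2499 := q2498.l1 (.cons c204.symm (.cons c161.symm (.cons c541.symm (.cons c480.symm (.cons c2327 .nil)))))
  have q2500 : Rl [t27, t23, t35, t41, t48, t97] := q1870.mv 1 rfl
  have c2501 := q2500.l1 (.cons c231 (.cons c253 (.cons c624.symm (.cons c495.symm (.cons c2218 .nil)))))
  have q2502 : Rl [t27, t23, t35, t41, t48, t97] := q1870.mv 1 rfl
  have c2503 := q2502.l1 (.cons c621 (.cons c1996.symm (.cons c769.symm (.cons c2405 (.cons c1851 .nil)))))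
  have q2512 : Rl [t35, t23, t27, t41, t48, t97] := q1870.mv 2 rfl
  have c2513 := q2512.l1 (.cons c944.symm (.cons c1402 (.cons c1685.symm (.cons c1140 (.cons c2410 .nil)))))
  have q2516 : Rl [t57, t39, t50, t68, t91] := q2472.mv 2 rfl
  have c2517 := q2516.l1 (.cons c2108.symm (.cons c636 (.cons c2259 (.cons c1942 .nil))))
  have q2525 : Rl [t45, t42, t59, t70, t76] := q2142.mv 1 rfl
  have c2526 := q2525.l1 (.cons c654 (.cons c2296.symm (.cons c1997.symm (.cons c2451 .nil))))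
  have c2538 := Lck c1766 c2303 b28
  have c2541 := Lck c1713 c2481.symm b301
  have c2545 := Lck c1768 c2221 b5
  have c2546 := Lck c1768 c2266 b29
  have c2548 := Lck c1341 c2352 b82
  have c2549 := Lck c1341 c2484.symm b85
  have b2550 := LP1 H i3 i11 i10 c61 b30 (Lsw H i10 i11 b324) (Lsw H i11 i14 b1985)
  have b2551 := LP1 H i3 i12 i10 c62 b30 (Lsw H i10 i12 b325) (Lsw H i12 i14 b2020)
  have c2554 := Lck c1672 c2373 b88
  have c2557 := Lck c1673 c2232.symm (Lsw H i6 i3 b80)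
  have c2568 := Lck c1938 c2250.symm b305
  have c2569 := Lck c1308 c2339 (Lsw H i13 i3 b233)
  have c2573 := Lck c1375 c1964.symm (Lsw H i57 i3 b2190)
  have c2574 := Lco i47 i8 (LP1 H i8 i4 i22 c15 (Lsw H i22 i8 b1877) b310 (k_one i99 i4 c2221))
  have c2575 := Lco i63 i4 (LP1 H i4 i11 i12 c59.symm b90 b1634 (k_one i27 i11 c2499))
  have c2576 := Lck c280 c2316 b308
  have c2577 := Lck c280 c2379.symm b840
  have c2578 := Lco i8 i37 (LP1 H i37 i4 i3 c428 b1629 (Lsw H i3 i4 b7) (k_one i63 i4 c2575))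
  have c2581 := Lco i6 i41 (LP1 H i41 i4 i2 c451 (Lsw H i2 i41 b823) (Lsw H i2 i4 b5) (k_one i63 i4 c2575))
  have c2584 := LP2 H i4 i62 i3 c507.symm (Lsw H i3 i4 b7) b2551
  have c2586 := Lck c1037 c2554 b312
  have c2591 := Lck c1094 c2329.symm b312
  have c2597 := Lco i63 i5 (LP1 H i5 i12 i11 c60.symm b93 (Lsw H i11 i12 b1634) (k_one i30 i12 c2486))
  have c2598 := Lck c277 c2359.symm b849
  have c2599 := Lck c278 c2315 b313
  have c2601 := Lco i9 i56 (LP1 H i56 i5 i3 c425 b1631 (Lsw H i3 i5 b8) (k_one i63 i5 c2597))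
  have c2616 := Lck c1936 c2268 b33
  have c2619 := Lck c1338 c2545 b33
  have c2622 := Lco i60 i11 (LP1 H i11 i6 i18 c65.symm (Lsw H i18 i11 b1764) (Lsw H i18 i6 b698) (k_one i99 i6 c2545))
  have c2626 := Lco i72 i6 (LP1 H i6 i60 i3 c535 b80 b2187 (k_one i11 i60 c2622.symm))
  have c2636 := Lck c530.symm c2293 b98
  have c2637 := Lck c530.symm c2349 b320
  have c2641 := Lck c273 c2316 b1670
  have c2642 := LP2 H i8 i38 i5 c2293.symm (Lsw H i5 i8 b34) b1711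
  have c2651 := Lck c275 c2315 b1671
  have c2653 := Lck c418 c2333 b1671
  have c2654 := LP2 H i9 i39 i4 c2196 (Lsw H i4 i9 b32) b1697
  have c2657 := Lck c1371 c2474.symm (Lsw H i15 i9 b708)
  have c2659 := Lck c1778 c2626 (Lsw H i6 i9 b97)
  have c2666 := Lck c2217 c2616 b688
  have c2673 := Lck c1885 c2557 b324
  have c2675 := Lck c2188 c2538 b325
  have c2689 := Lco i41 i19 (LP1 H i19 i12 i8 c217.symm (Lsw H i8 i19 b1670) (Lsw H i8 i12 b672) (k_one i70 i12 c2538))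
  have c2691 := Lco i77 i12 (LP1 H i12 i43 i4 c557 (Lsw H i4 i12 b90) (Lsw H i4 i43 b837) (k_one i27 i43 c2503))
  have c2696 := Lco i59 i22 (LP1 H i22 i13 i8 c226.symm b1877 (Lsw H i8 i13 b322) (k_one i99 i13 c2546))
  have c2703 := Lck c2071 c2584.symm (Lsw H i8 i13 b322)
  have c2708 := Lco i57 i23 (LP1 H i23 i14 i7 c222.symm b1882 (Lsw H i7 i14 b320) (k_one i97 i14 c2482.symm))
  have c2710 := Lco i63 i14 (LP1 H i14 i41 i2 c582 (Lsw H i2 i14 b82) (Lsw H i2 i41 b823) (k_one i19 i41 c2689.symm))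
  have c2711 := Lco i19 i44 (LP1 H i44 i14 i2 c778.symm b1883 (Lsw H i2 i14 b82) (k_one i63 i14 c2710))
  have c2715 := Lck c1875.symm c2691 (Lsw H i12 i14 b2020)
  have c2719 := Lco i46 i32 (LP1 H i32 i16 i6 c266.symm (Lsw H i6 i32 b853) (Lsw H i6 i16 b678) (k_one i93 i16 c2654.symm))
  have c2722 := Lco i87 i16 (LP1 H i16 i46 i5 c486 b282 (Lsw H i5 i46 b847) (k_one i32 i46 c2719.symm))
  have c2732 := Lco i52 i29 (LP1 H i29 i18 i7 c251.symm (Lsw H i7 i29 b858) (Lsw H i7 i18 b689) (k_one i98 i18 c2642.symm))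
  have c2734 := Lco i80 i18 (LP1 H i18 i52 i4 c518 b298 (Lsw H i4 i52 b840) (k_one i29 i52 c2732.symm))
  have c2735 := Lco i70 i18 (LP1 H i18 i61 i3 c2314.symm (Lsw H i3 i18 b89) b2550 (k_one i24 i61 c2223))
  have c2739 := Lco i50 i37 (LP1 H i37 i19 i5 c2333 b2248 (Lsw H i5 i19 b313) (k_one i96 i19 c2569))
  have c2744 := Lco i94 i30 (LP1 H i30 i20 i8 c2369.symm (Lsw H i8 i30 b859) b1722 (k_one i99 i20 c2488))
  have c2747 := Lco i99 i21 (LP1 H i21 i22 i8 c292 b1767 b1877 (k_one i105 i22 c2549))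
  have c2765 := Lco i91 i27 (LP1 H i27 i32 i7 c2228.symm (Lsw H i7 i27 b857) b1702 (k_one i97 i32 c2264))
  have c2767 := Lco i62 i43 (LP1 H i43 i27 i5 c2503.symm b2253 b686 (k_one i91 i27 c2765))
  have c2773 := Lco i38 i44 (LP1 H i44 i29 i2 c2304.symm b1883 (Lsw H i2 i29 b301) (k_one i63 i29 c2423))
  have c2777 := Lco i70 i31 (LP1 H i31 i45 i3 c2226 (Lsw H i3 i31 b306) (Lsw H i3 i45 b830) (k_one i43 i45 c2526.symm))
  have c2779 := Lco i43 i61 (LP1 H i61 i31 i3 c694 b2550 (Lsw H i3 i31 b306) (k_one i70 i31 c2777))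
  have c2799 := Lco i73 i45 (LP1 H i45 i62 i3 c684.symm (Lsw H i3 i45 b830) b2551 (k_one i70 i62 c2675))
  have c2809 := Lco i72 i61 (LP1 H i61 i49 i3 c814.symm b2550 (Lsw H i3 i49 b832) (k_one i70 i49 c2591))
  have c2811 := Lco i64 i50 (LP1 H i50 i61 i2 c696.symm b1887 b2171 (k_one i68 i61 c2673))
  have c2818 := Lco i70 i60 (LP1 H i60 i61 i3 c2374.symm b2187 b2550 (k_one i72 i61 c2809))
  have c2819 := q260.l1 (.cons c2364.symm (.cons c1296 (.cons c1230 (.cons c2598 (.cons c1470 .nil)))))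
  have c2820 := q264.l1 (.cons c1367 (.cons c2734.symm (.cons c1161 (.cons c1496 (.cons c2577 .nil)))))
  have q2823 : Rl [t35, t22, t30, t56, t52, t99] := q1869.mv 2 rfl
  have b2824 := Rl.l2 H i35 i22 i9 q2823 (.cons c176.symm (.cons c2601.symm (.cons c765.symm (.cons c2305 .nil)))) b1738
  have q2825 : Rl [t30, t22, t35, t56, t52, t99] := q1869.mv 1 rfl
  have c2826 := q2825.l1 (.cons c633 (.cons c2636.symm (.cons c715.symm (.cons c2111 (.cons c1846 .nil)))))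
  have q2836 : Rl [t35, t23, t27, t41, t48, t97] := q1870.mv 2 rfl
  have b2837 := Rl.l2 H i35 i23 i6 q2836 (.cons c164.symm (.cons c2581.symm (.cons c758.symm (.cons c2268 .nil)))) (Lsw H i6 i35 b854)
  have q2847 : Rl [t57, t39, t50, t68, t91] := q2472.mv 2 rfl
  have c2848 := q2847.l1 (.cons c705 (.cons c2739 (.cons c1946.symm (.cons c2179 .nil))))
  have q2849 : Rl [t50, t39, t57, t68, t91] := q2472.mv 1 rfl
  have c2850 := q2849.l1 (.cons c655.symm (.cons c2637.symm (.cons c1973.symm (.cons c2541 .nil))))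
  have q2857 : Rl [t50, t39, t57, t68, t91] := q2472.mv 1 rfl
  have c2858 := q2857.l1 (.cons c1853 (.cons c607 (.cons c2657 (.cons c1761 .nil))))
  have q2861 : Rl [t91, t39, t50, t57, t68] := q2472.mv 4 rfl
  have c2862 := q2861.l1 (.cons c1956 (.cons c2811.symm (.cons c2282.symm (.cons c2105.symm .nil))))
  have q2863 : Rl [t59, t42, t45, t70, t76] := q2142.mv 2 rfl
  have c2864 := q2863.l1 (.cons c2351.symm (.cons c2576.symm (.cons c2641.symm (.cons c1874.symm .nil))))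
  have q2869 : Rl [t59, t42, t45, t70, t76] := q2142.mv 2 rfl
  have c2870 := q2869.l1 (.cons c2116.symm (.cons c641 (.cons c2591 (.cons c1538.symm .nil))))
  have q2873 : Rl [t45, t42, t59, t70, t76] := q2142.mv 1 rfl
  have c2874 := q2873.l1 (.cons c2420 (.cons c597 (.cons c2818 (.cons c1732 .nil))))
  have q2877 : Rl [t76, t42, t45, t59, t70] := q2142.mv 4 rfl
  have c2878 := q2877.l1 (.cons c2028 (.cons c2799.symm (.cons c2703.symm (.cons c2389 .nil))))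
  have c2885 := Lck c1777 c2584.symm b27
  have c2908 := Lck c507 c2767 b837
  have c2924 := Lck c2221 c2747 b309
  have c2931 := Lck c475 c2779.symm (Lsw H i43 i5 b2253)
  have b2953 := LP1 H i15 i6 i3 c66.symm (Lsw H i3 i15 b86) b80 b2837
  have c2954 := Lck c446 c2711.symm b1635
  have c2967 := LP2 H i8 i47 i5 c2574.symm (Lsw H i5 i8 b34) (Lsw H i5 i47 b848)
  have b2970 := LP1 H i18 i9 i2 c68.symm (Lsw H i2 i18 b85) (Lsw H i2 i9 b28) b2824
  have c2972 := Lck c2303 c2777 (Lsw H i31 i9 b1932)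
  have c2975 := Lco i94 i10 (LP1 H i10 i15 i11 c74 b324 (Lsw H i11 i15 b2953) (k_one i61 i15 c712.symm))
  have c2976 := Lco i95 i10 (LP1 H i10 i18 i12 c71 b325 (Lsw H i12 i18 b2970) (k_one i62 i18 c718.symm))
  have c2977 := Lco i29 i20 (LP1 H i20 i10 i8 c246 b1722 (Lsw H i8 i10 b245) (k_one i94 i10 c2975))
  have c2978 := Lco i31 i24 (LP1 H i24 i10 i7 c247 (Lsw H i7 i24 b855) (Lsw H i7 i10 b248) (k_one i95 i10 c2976))
  have c2982 := Lck c2189 c2885 b324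
  have c2988 := Lck c1647 c2976 (Lsw H i10 i11 b324)
  have c2994 := Lck c2819.symm c1353.symm b1789
  have c3015 := Lco i45 i44 (LP1 H i44 i19 i4 c2711.symm b1692 (Lsw H i4 i19 b308) (k_one i105 i19 c2548))
  have c3020 := Lco i47 i59 (LP1 H i59 i22 i4 c2696 (Lsw H i4 i59 b844) (Lsw H i4 i22 b310) (k_one i76 i22 c2381))
  have c3030 := Lco i56 i29 (LP1 H i29 i30 i2 c2251 (Lsw H i2 i29 b301) b662 (k_one i38 i30 c2826.symm))
  have c3031 := Lco i68 i29 (LP1 H i29 i50 i2 c2599 (Lsw H i2 i29 b301) b1887 (k_one i38 i50 c2850.symm))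
  have c3032 := Lco i38 i62 (LP1 H i62 i29 i2 c683 b2172 (Lsw H i2 i29 b301) (k_one i68 i29 c3031))
  have c3060 := Lco i70 i50 (LP1 H i50 i61 i3 c696.symm (Lsw H i3 i50 b833) b2550 (k_one i73 i61 c2982))
  have q3077 : Rl [t59, t42, t45, t70, t76] := q2142.mv 2 rfl
  have c3078 := q3077.l1 (.cons c776 (.cons c3015 (.cons c2021.symm (.cons c2203 .nil))))
  have c3081 := Lck c193 c2978 b299
  have c3085 := Lck c184 c2977 b303
  have b3090 := LP1 H i4 i11 i7 c59.symm b31 (Lsw H i7 i11 b319) (Lsw H i11 i15 b2953)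
  have c3093 := Lck c507 c3032.symm (Lsw H i38 i4 b2224)
  have b3103 := LP1 H i5 i12 i8 c60.symm b34 (Lsw H i8 i12 b672) (Lsw H i12 i18 b2970)
  have c3110 := Lck c2232.symm c3031 (Lsw H i29 i6 b1944)
  have c3117 := Lco i95 i16 (LP1 H i16 i41 i5 c2477 b282 b3103 (k_one i32 i41 c2294))
  have c3118 := Lco i94 i17 (LP1 H i17 i56 i4 c2147 b295 b3090 (k_one i28 i56 c1968))
  have c3129 := Lco i61 i56 (LP1 H i56 i30 i4 c501.symm b3090 b676 (k_one i94 i30 c2744))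
  have c3130 := Lco i64 i30 (LP1 H i30 i61 i2 c504 b662 b2171 (k_one i56 i61 c3129.symm))
  have c3151 := Lco i80 i56 (LP1 H i56 i52 i4 c692 b3090 (Lsw H i4 i52 b840) (k_one i94 i52 c1762))
  have c3188 := Lco i58 i24 (LP1 H i24 i16 i7 c110 (Lsw H i7 i24 b855) (Lsw H i7 i16 b321) (k_one i95 i16 c3117))
  have c3191 := Lco i28 i40 (LP1 H i40 i17 i4 c409 b2222 b295 (k_one i94 i17 c3118))
  have c3193 := Lco i42 i20 (LP1 H i20 i28 i3 c237.symm (Lsw H i3 i20 b303) (Lsw H i3 i28 b305) (k_one i40 i28 c3191.symm))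
  have c3213 := Lck c155 c3193.symm b845
  obtain ⟨t107, b3224⟩ : ∃ t, k b t77 = t := ⟨_, rfl⟩
  have i107 := Linv H i2 i77 b3224
  obtain ⟨t108, b3225⟩ : ∃ t, k b t87 = t := ⟨_, rfl⟩
  have i108 := Linv H i2 i87 b3225
  obtain ⟨t109, b3226⟩ : ∃ t, k b t89 = t := ⟨_, rfl⟩
  have i109 := Linv H i2 i89 b3226
  obtain ⟨t110, b3227⟩ : ∃ t, k b t101 = t := ⟨_, rfl⟩
  have i110 := Linv H i2 i101 b3227
  obtain ⟨t111, b3228⟩ : ∃ t, k c t79 = t := ⟨_, rfl⟩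
  have i111 := Linv H i3 i79 b3228
  obtain ⟨t112, b3229⟩ : ∃ t, k c t82 = t := ⟨_, rfl⟩
  have i112 := Linv H i3 i82 b3229
  obtain ⟨t113, b3230⟩ : ∃ t, k c t87 = t := ⟨_, rfl⟩
  have i113 := Linv H i3 i87 b3230
  obtain ⟨t114, b3231⟩ : ∃ t, k c t89 = t := ⟨_, rfl⟩
  have i114 := Linv H i3 i89 b3231
  obtain ⟨t115, b3232⟩ : ∃ t, k c t103 = t := ⟨_, rfl⟩
  have i115 := Linv H i3 i103 b3232
  obtain ⟨t116, b3233⟩ : ∃ t, k d t85 = t := ⟨_, rfl⟩
  have i116 := Linv H i4 i85 b3233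
  obtain ⟨t117, b3234⟩ : ∃ t, k d t89 = t := ⟨_, rfl⟩
  have i117 := Linv H i4 i89 b3234
  obtain ⟨t118, b3235⟩ : ∃ t, k d t100 = t := ⟨_, rfl⟩
  have i118 := Linv H i4 i100 b3235
  obtain ⟨t119, b3236⟩ : ∃ t, k d t101 = t := ⟨_, rfl⟩
  have i119 := Linv H i4 i101 b3236
  obtain ⟨t120, b3237⟩ : ∃ t, k e t64 = t := ⟨_, rfl⟩
  have i120 := Linv H i5 i64 b3237
  obtain ⟨t121, b3238⟩ : ∃ t, k e t72 = t := ⟨_, rfl⟩
  have i121 := Linv H i5 i72 b3238
  obtain ⟨t122, b3239⟩ : ∃ t, k e t82 = t := ⟨_, rfl⟩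
  have i122 := Linv H i5 i82 b3239
  obtain ⟨t123, b3240⟩ : ∃ t, k t6 t52 = t := ⟨_, rfl⟩
  have i123 := Linv H i6 i52 b3240
  obtain ⟨t124, b3241⟩ : ∃ t, k t7 t37 = t := ⟨_, rfl⟩
  have i124 := Linv H i7 i37 b3241
  obtain ⟨t125, b3242⟩ : ∃ t, k t8 t36 = t := ⟨_, rfl⟩
  have i125 := Linv H i8 i36 b3242
  obtain ⟨t126, b3243⟩ : ∃ t, k t8 t58 = t := ⟨_, rfl⟩
  have i126 := Linv H i8 i58 b3243
  obtain ⟨t127, b3244⟩ : ∃ t, k t9 t41 = t := ⟨_, rfl⟩
  have i127 := Linv H i9 i41 b3244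
  obtain ⟨t128, b3245⟩ : ∃ t, k t10 t37 = t := ⟨_, rfl⟩
  have i128 := Linv H i10 i37 b3245
  obtain ⟨t129, b3246⟩ : ∃ t, k t10 t47 = t := ⟨_, rfl⟩
  have i129 := Linv H i10 i47 b3246
  obtain ⟨t130, b3247⟩ : ∃ t, k t10 t52 = t := ⟨_, rfl⟩
  have i130 := Linv H i10 i52 b3247
  obtain ⟨t131, b3248⟩ : ∃ t, k t10 t59 = t := ⟨_, rfl⟩
  have i131 := Linv H i10 i59 b3248
  obtain ⟨t132, b3249⟩ : ∃ t, k t11 t20 = t := ⟨_, rfl⟩
  have i132 := Linv H i11 i20 b3249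
  obtain ⟨t133, b3250⟩ : ∃ t, k t12 t28 = t := ⟨_, rfl⟩
  have i133 := Linv H i12 i28 b3250
  obtain ⟨t134, b3251⟩ : ∃ t, k t13 t32 = t := ⟨_, rfl⟩
  have i134 := Linv H i13 i32 b3251
  obtain ⟨t135, b3252⟩ : ∃ t, k t15 t32 = t := ⟨_, rfl⟩
  have i135 := Linv H i15 i32 b3252
  obtain ⟨t136, b3253⟩ : ∃ t, k t18 t28 = t := ⟨_, rfl⟩
  have i136 := Linv H i18 i28 b3253
  have c3260 := Lkl H i2 i101 b3227
  have c3262 := Lkl H i3 i79 b3228
  have c3272 := Lkl H i4 i85 b3233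
  have c3275 := Lkr H i4 i89 b3234
  have c3280 := Lkl H i5 i64 b3237
  have c3282 := Lkl H i5 i72 b3238
  have c3284 := Lkl H i5 i82 b3239
  have c3312 := Lkl H i18 i28 b3253
  have c3317 := Lck hab c993 b3227
  have c3318 := Lck hac c971 b3228
  have c3323 := Lck had c977 b3233
  have c3327 := Lck hae c956 b3237
  have c3328 := Lck hae c964 b3238
  have c3329 := Lck hae c974 b3239
  have c3333 := Lck c22 c402 b3243
  have c3335 := Lck c24 c381 b3245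
  have c3342 := Lck c55 c146 b3252
  have c3343 := Lck c58 c142 b3253
  have c3347 := Lck hbc.symm c1375.symm b3227
  have c3384 := LP3 H i2 i37 i5 c328.symm b6 b3241
  have c3401 := LP2 H i2 i52 i10 c517.symm b29 (Lsw H i10 i52 b3247)
  have c3444 := LP2 H i2 i100 i4 c1384.symm b5 (Lsw H i4 i100 b3235)
  have c3472 := LP2 H i3 i32 i15 c194.symm b86 (Lsw H i15 i32 b3252)
  have c3503 := LP2 H i3 i64 i5 c1672.symm b8 (Lsw H i5 i64 b3237)
  have c3515 := LP2 H i3 i85 i4 c1238.symm b7 (Lsw H i4 i85 b3233)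
  have c3536 := Lck c15.symm c545.symm b3243
  have c3538 := LP3 H i10 i4 i22 c18 b860 (Lsw H i4 i100 b3235)
  have c3540 := Lck c18.symm c428.symm b3245
  have c3542 := LP2 H i4 i10 i52 c18.symm b840 b3247
  have c3544 := Lck c18 c1196 b3234
  have c3549 := Lck c43.symm c280.symm b3252
  have c3554 := Lck c160 c3213 b3233
  have c3566 := Lck c117 c1239 b3233
  have c3571 := Lck c279 c2341 b3233
  have c3578 := LP3 H i4 i37 i5 c428.symm b9 b3245
  have c3585 := LP3 H i4 i47 i5 c348.symm b9 b3246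
  have c3587 := LP3 H i48 i4 i5 c350 (Lsw H i5 i48 b849) (Lsw H i4 i89 b3234)
  have c3641 := LP3 H i5 i10 i22 c19.symm b315 (Lsw H i10 i52 b3247)
  have c3642 := LP3 H i5 i10 i35 c19.symm (Lsw H i35 i5 b797) (Lsw H i10 i52 b3247)
  have c3647 := Lck c60.symm c277.symm b3250
  have c3652 := Lck c49.symm c277.symm b3253
  have c3663 := Lck c278 c1922.symm b3237
  have c3670 := LP2 H i5 i32 i13 c125.symm b94 (Lsw H i13 i32 b3251)
  have c3676 := LP3 H i5 i52 i4 c358.symm (Lsw H i4 i5 b9) b3247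
  have c3680 := LP3 H i54 i5 i4 c362 (Lsw H i4 i54 b842) (Lsw H i5 i82 b3239)
  have c3685 := LP3 H i60 i5 i3 c533 b2187 (Lsw H i5 i72 b3238)
  have c3689 := LP3 H i61 i5 i2 c475 b2171 (Lsw H i5 i64 b3237)
  have c3706 := LP2 H i5 i85 i4 c911.symm (Lsw H i4 i5 b9) (Lsw H i4 i85 b3233)
  have c3722 := Lck c25 c492 b3242
  have c3756 := Lco i112 i6 (LP1 H i6 i82 i3 c1133 b80 (Lsw H i3 i82 b3229) (k_one i11 i82 c1150))
  have c3772 := LP3 H i7 i28 i3 c271.symm b81 b3250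
  have c3790 := Lck c764.symm c774.symm b3241
  have c3793 := LP2 H i7 i58 i8 c370.symm b98 (Lsw H i8 i58 b3243)
  have c3802 := LP2 H i7 i85 i4 c1059 (Lsw H i4 i7 b31) (Lsw H i4 i85 b3233)
  have c3805 := Lco i114 i7 (LP1 H i7 i89 i3 c1215 b81 (Lsw H i3 i89 b3231) (k_one i12 i89 c1226))
  have c3827 := LP2 H i8 i32 i15 c273.symm b677 (Lsw H i15 i32 b3252)
  have c3830 := Lco i124 i8 (LP1 H i8 i37 i7 c2578 (Lsw H i7 i8 b98) (Lsw H i7 i37 b3241) (k_one i35 i37 c2059.symm))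
  have c3843 := Lck c759.symm c667 b3242
  have c3858 := LP2 H i8 i64 i5 c1349.symm (Lsw H i5 i8 b34) (Lsw H i5 i64 b3237)
  have c3865 := LP2 H i8 i72 i5 c1080 (Lsw H i5 i8 b34) (Lsw H i5 i72 b3238)
  have c3891 := LP2 H i9 i18 i28 c68 b1709 b3253
  have c3897 := LP2 H i9 i37 i10 c418.symm b249 (Lsw H i10 i37 b3245)
  have c3907 := LP2 H i9 i52 i10 c765 b249 (Lsw H i10 i52 b3247)
  have c3926 := Lco i108 i9 (LP1 H i9 i87 i2 c1217 (Lsw H i2 i9 b28) (Lsw H i2 i87 b3225) (k_one i12 i87 c1225))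
  have c3937 := Lck c40.symm c196 b3251
  have c3941 := Lck c74 c196 b3252
  have c3952 := Lck c150 c443 b3248
  have c3961 := LP3 H i27 i10 i2 c197.symm (Lsw H i2 i27 b300) (Lsw H i10 i37 b3245)
  have c3968 := LP3 H i10 i32 i2 c196 (Lsw H i2 i10 b29) b3251
  have c4009 := Lck c1194.symm c1518.symm b3247
  have c4012 := Lck c1196.symm c1585.symm b3247
  have c4032 := Lck c941 c1219.symm b3247
  have c4036 := Lck c949 c1223.symm b3247
  have c4072 := Lco i131 i11 (LP1 H i11 i59 i10 c431 (Lsw H i10 i11 b324) (Lsw H i10 i59 b3248) (k_one i61 i59 c2346))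
  have c4103 := LP2 H i12 i32 i15 c2193 (Lsw H i15 i12 b1740) (Lsw H i15 i32 b3252)
  have c4137 := LP3 H i14 i13 i5 c63.symm (Lsw H i5 i14 b95) (Lsw H i13 i32 b3251)
  have c4139 := LP2 H i13 i15 i32 c254 b3251 b3252
  have c4142 := LP2 H i13 i28 i18 c118.symm b1789 (Lsw H i18 i28 b3253)
  have c4147 := Lck c2044.symm c2576.symm b3251
  have c4157 := Lck c1135 c1874.symm b3251
  have c4160 := Lco i122 i13 (LP1 H i13 i82 i5 c2475 (Lsw H i5 i13 b94) (Lsw H i5 i82 b3239) (k_one i31 i82 c2227))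
  have c4161 := Lck c2475.symm c1183.symm b3251
  have c4165 := Lco i117 i13 (LP1 H i13 i89 i4 c2819 (Lsw H i4 i13 b91) (Lsw H i4 i89 b3234) (k_one i28 i89 c2598))
  have c4178 := LP2 H i14 i64 i5 c1906.symm (Lsw H i5 i14 b95) (Lsw H i5 i64 b3237)
  have c4185 := LP3 H i16 i15 i5 c79.symm b282 (Lsw H i15 i32 b3252)
  have c4187 := Lck c207.symm c2228.symm b3252
  have c4190 := Lck c753 c2294.symm b3252
  have c4208 := Lck c1335.symm c1183.symm b3252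
  have c4230 := LP3 H i17 i18 i4 c78 b295 (Lsw H i18 i28 b3253)
  have c4231 := Lck c78 c250 b3253
  have c4234 := Lco i116 i17 (LP1 H i17 i85 i4 c2272 b295 (Lsw H i4 i85 b3233) (k_one i28 i85 c1239))
  have c4243 := Lco i123 i18 (LP1 H i18 i52 i6 c518 b698 (Lsw H i6 i52 b3240) (k_one i60 i52 c757))
  have c4262 := Lco i117 i18 (LP1 H i18 i89 i4 c1353 b298 (Lsw H i4 i89 b3234) (k_one i29 i89 c1249))
  have c4263 := Lck c1353.symm c2598.symm b3253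
  have c4289 := Lco i131 i21 (LP1 H i21 i59 i10 c2077.symm b1786 (Lsw H i10 i59 b3248) (k_one i106 i59 c1342.symm))
  have c4292 := Lco i131 i22 (LP1 H i22 i59 i10 c2696.symm (Lsw H i10 i22 b860) (Lsw H i10 i59 b3248) (k_one i100 i59 c1988.symm))
  have c4306 := Lco i125 i25 (LP1 H i25 i36 i8 c741.symm (Lsw H i8 i25 b1674) (Lsw H i8 i36 b3242) (k_one i72 i36 c2399.symm))
  have c4360 := LP2 H i35 i100 i4 c2497 b796 (Lsw H i4 i100 b3235)
  have c4362 := Lco i119 i35 (LP1 H i35 i101 i4 c2513 b796 (Lsw H i4 i101 b3236) (k_one i48 i101 c1140))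
  have c4405 := LP2 H i47 i59 i10 c3020 (Lsw H i10 i47 b3246) (Lsw H i10 i59 b3248)
  have c4426 := LP2 H i52 i89 i4 c1585 (Lsw H i4 i52 b840) (Lsw H i4 i89 b3234)
  have c4479 := LP2 H i85 i89 i4 c2454 (Lsw H i4 i85 b3233) (Lsw H i4 i89 b3234)
  have c4482 := LP2 H i89 i100 i4 c2994 (Lsw H i4 i89 b3234) (Lsw H i4 i100 b3235)
  have q4483 : Rl [t65, t94, t94, t132, 1, 1] := LJ H i2 i8 i15 b27 b83 b677 b825 (Lsw H i20 i8 b1722) (Lsw H i11 i15 b2953) b3249 (k_one i11 i48 c480) (k_one i20 i48 c490)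
  have q4484 : Rl [1, t65, t94, t94, t132, 1] := q4483.mv 4 rfl
  have q4485 : Rl [t65, t94, t94, t132, 1] := q4484.del1
  have q4486 : Rl [1, t65, t94, t94, t132] := q4485.mv 4 rfl
  have q4487 : Rl [t65, t94, t94, t132] := q4486.del1
  have q4488 : Rl [t94, t65, t94, t132] := q4487.mv 2 rfl
  have q4489 : Rl [t94, t94, t65, t132] := q4488.mv 2 rfl
  have q4490 : Rl [t65, t132] := q4489.del2
  have e4491 := q4490.two
  have m4492 : t65 = t132 := e4491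
  subst m4492
  have q4493 : Rl [t75, t95, t95, t127, 1, 1] := LJ H i3 i5 i35 b8 (Lsw H i35 i3 b792) (Lsw H i35 i5 b797) b835 (Lsw H i41 i5 b3103) b1738 b3244 (k_one i9 i52 c765) (k_one i41 i52 c781.symm)
  have q4494 : Rl [1, t75, t95, t95, t127, 1] := q4493.mv 4 rfl
  have q4495 : Rl [t75, t95, t95, t127, 1] := q4494.del1
  have q4496 : Rl [1, t75, t95, t95, t127] := q4495.mv 4 rfl
  have q4497 : Rl [t75, t95, t95, t127] := q4496.del1
  have q4498 : Rl [t95, t75, t95, t127] := q4497.mv 2 rfl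
  have q4499 : Rl [t95, t95, t75, t127] := q4498.mv 2 rfl
  have q4500 : Rl [t75, t127] := q4499.del2
  have e4501 := q4500.two
  have m4502 : t75 = t127 := e4501
  subst m4502
  have c4507 := q260.l1 (.cons c3802 (.cons c4234.symm (.cons c3554 (.cons c3566 (.cons c3571 .nil)))))
  have q4528 : Rl [t35, t23, t27, t41, t48, t97] := q1870.mv 2 rfl
  have c4529 := q4528.l1 (.cons c3472 (.cons c4187 (.cons c4190 (.cons c3827 (.cons c4103 .nil)))))
  have q4530 : Rl [t59, t42, t45, t70, t76] := q2142.mv 2 rfl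
  have b4531 := Rl.l2 H i59 i42 i10 q4530 (.cons c474.symm (.cons c2188 (.cons c1723 .nil))) (Lsw H i10 i59 b3248)
  have b4534 := LP1 H i2 i7 i27 c12.symm b300 b857 (Lsw H i7 i37 b3241)
  have b4535 := LP1 H i2 i11 i15 c35.symm b83 b2953 (Lsw H i11 i20 b3249)
  have b4536 := LP1 H i12 i2 i15 c37 (Lsw H i15 i12 b1740) b83 b4534
  have b4537 := LP1 H i2 i12 i17 c37.symm (Lsw H i17 i2 b234) b1744 b4536
  have b4538 := LP1 H i2 i28 i9 c183.symm b28 (Lsw H i9 i28 b1709) b3250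
  have b4539 := LP1 H i31 i2 i8 c193 (Lsw H i8 i31 b1696) b27 (Lsw H i2 i77 b3224)
  have c4542 := Lco i131 i2 (LP1 H i2 i42 i10 c414 b29 b4531 (k_one i13 i42 c2079.symm))
  have b4544 := LP1 H i46 i2 i5 c484 (Lsw H i5 i46 b847) b6 (Lsw H i2 i87 b3225)
  have b4545 := LP1 H i2 i52 i4 c517.symm b5 (Lsw H i4 i52 b840) b3240
  have c4563 := Lck c3961 c3897.symm b302
  have c4568 := Lck c3968 c4137 b6
  have b4571 := LP1 H i3 i8 i21 c14.symm (Lsw H i21 i3 b657) (Lsw H i21 i8 b1767) (Lsw H i8 i36 b3242)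
  have b4572 := LP1 H i3 i8 i22 c14.symm (Lsw H i22 i3 b659) (Lsw H i22 i8 b1877) (Lsw H i8 i36 b3242)
  have b4573 := LP1 H i8 i3 i30 c14 b859 (Lsw H i30 i3 b748) b4572
  have b4574 := LP1 H i3 i9 i35 c16.symm (Lsw H i35 i3 b792) (Lsw H i35 i9 b1738) (Lsw H i9 i41 b3244)
  have b4575 := LP1 H i11 i3 i16 c61.symm b865 b87 b4571
  have b4576 := LP1 H i12 i3 i18 c62.symm b2970 b89 b4574
  have c4578 := Lco i134 i3 (LP1 H i3 i32 i13 c194.symm (Lsw H i13 i3 b233) (Lsw H i13 i32 b3251) (k_one i19 i32 c2316.symm))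
  have c4580 := Lco i131 i3 (LP1 H i3 i42 i10 c338.symm b30 b4531 (k_one i14 i42 c583))
  have c4581 := LP3 H i3 i44 i4 c342.symm b7 (Lsw H i44 i8 b4573)
  have b4582 := LP1 H i48 i3 i5 c482 (Lsw H i5 i48 b849) b8 (Lsw H i3 i89 b3231)
  have b4583 := LP1 H i54 i3 i4 c514 (Lsw H i4 i54 b842) b7 (Lsw H i3 i82 b3229)
  have e4601 := (LP1 H i4 i10 i22 c18.symm b310 b860 (Lsw H i10 i47 b3246)).symm.trans (Lsw H i4 i100 b3235)
  have m4602 : t118 = t129 := e4601.symm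
  subst m4602
  have b4603 := LP1 H i10 i4 i23 c18 b861 b311 (Lsw H i4 i101 b3236)
  have b4604 := LP1 H i4 i10 i35 c18.symm (Lsw H i35 i4 b796) b864 b4603
  have c4605 := Lco i131 i4 (LP1 H i4 i10 i42 c18.symm b836 (Lsw H i42 i10 b4531) (k_one i76 i10 c1723))
  have b4606 := LP1 H i15 i4 i14 c43 (Lsw H i14 i15 b1785) b92 (Lsw H i4 i101 b3236)
  have c4607 := Lco i124 i4 (LP1 H i4 i20 i12 c160.symm b90 b4536 (k_one i27 i20 c2269.symm))
  have b4609 := LP1 H i28 i4 i9 c117 (Lsw H i9 i28 b1709) b32 (Lsw H i4 i85 b3233)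
  have c4610 := Lco i133 i4 (LP1 H i4 i28 i12 c117.symm b90 (Lsw H i12 i28 b3250) (k_one i27 i28 c283))
  have b4612 := LP1 H i4 i32 i7 c280.symm b31 b1702 b3252
  have b4613 := LP1 H i4 i37 i5 c428.symm b9 b2248 b3245
  have c4614 := Lco i75 i4 (LP1 H i4 i41 i9 c451.symm b32 (Lsw H i9 i41 b3244) (k_one i16 i41 c2477))
  have c4615 := Lco i108 i4 (LP1 H i4 i46 i7 c346.symm b31 (Lsw H i7 i46 b4544) (k_one i15 i46 c761))
  have b4616 := LP1 H i4 i47 i5 c348.symm b9 (Lsw H i5 i47 b848) b3246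
  have e4618 := (LP1 H i48 i4 i5 c350 (Lsw H i5 i48 b849) b9 (Lsw H i4 i89 b3234)).symm.trans (Lsw H i48 i10 b4603)
  have m4619 : t117 = t119 := e4618
  subst m4619
  have c4620 := Lco i114 i4 (LP1 H i4 i48 i9 c350.symm b32 (Lsw H i9 i48 b4582) (k_one i16 i48 c767))
  have b4621 := LP1 H i58 i4 i5 c545 b1930 b9 b4612
  have c4622 := Lco i120 i4 (LP1 H i4 i64 i5 c1037.symm b9 (Lsw H i5 i64 b3237) (k_one i10 i64 c1884.symm))
  have c4644 := Lck c3676 c3641 b310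
  have c4645 := Lck c3676 c3642 (Lsw H i35 i4 b796)
  have c4647 := Lck c3676 c4012.symm b3234
  have c4653 := Lck c4230 c3891.symm b3233
  have c4654 := Lck c4230 c4263.symm b3234
  have c4655 := Lck c4230 c4142.symm b3235
  have b4656 := LP1 H i5 i10 i22 c19.symm b315 b860 (Lsw H i10 i52 b3247)
  have b4659 := LP1 H i18 i5 i13 c49 (Lsw H i13 i18 b1789) b94 b4656
  have c4660 := Lco i65 i5 (LP1 H i5 i20 i11 c155.symm b93 (Lsw H i11 i20 b3249) (k_one i30 i20 c2369.symm))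
  have c4661 := Lco i125 i5 (LP1 H i5 i24 i11 c168.symm b93 b4575 (k_one i30 i24 c2152))
  have b4662 := LP1 H i5 i28 i8 c277.symm b34 b1690 b3253
  have b4663 := LP1 H i29 i5 i6 c278 b1944 b33 b4662
  have c4664 := Lco i31 i29 (LP1 H i29 i5 i15 c278 b4606 (Lsw H i15 i5 b281) (k_one i117 i5 c3587))
  have b4667 := LP1 H i5 i52 i4 c358.symm (Lsw H i4 i5 b9) (Lsw H i4 i52 b840) b3247
  have b4669 := LP1 H i54 i5 i4 c362 (Lsw H i4 i54 b842) (Lsw H i4 i5 b9) (Lsw H i5 i82 b3239)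
  have c4670 := Lco i112 i5 (LP1 H i5 i54 i8 c362.symm b34 (Lsw H i8 i54 b4583) (k_one i18 i54 c773))
  have b4671 := LP1 H i60 i5 i3 c533 b2187 (Lsw H i3 i5 b8) (Lsw H i5 i72 b3238)
  have b4673 := LP1 H i61 i5 i2 c475 b2171 (Lsw H i2 i5 b6) (Lsw H i5 i64 b3237)
  have c4687 := Lck c3587 c4362 (Lsw H i35 i5 b797)
  have c4692 := Lck c3384 c3830 b34
  have c4706 := Lck c3647.symm c4610 (Lsw H i4 i5 b9)
  have c4709 := Lck c4137 c4578 (Lsw H i3 i5 b8)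
  have c4713 := Lck c4137 c4161.symm b3239
  have c4715 := Lck c4185 c4529.symm (Lsw H i35 i5 b797)
  have c4717 := Lck c4185 c4208.symm b3239
  have c4727 := Lco i108 i6 (LP1 H i6 i46 i7 c434 b96 (Lsw H i7 i46 b4544) (k_one i20 i46 c488))
  have c4732 := Lck c3756 c4670 (Lsw H i5 i6 b33)
  have c4734 := Lck c3444.symm c3585 (Lsw H i5 i6 b33)
  have c4751 := Lck c3722.symm c4661 (Lsw H i5 i6 b33)
  have c4756 := Lco i136 i7 (LP1 H i7 i17 i29 c64 b858 b4663 (k_one i98 i17 c1727.symm))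
  have b4757 := LP1 H i7 i20 i3 c162 b81 (Lsw H i3 i20 b303) (Lsw H i20 i12 b4536)
  have b4759 := LP1 H i30 i7 i4 c163.symm b676 (Lsw H i4 i7 b31) (Lsw H i7 i61 b4673)
  have c4761 := Lco i125 i7 (LP1 H i7 i36 i8 c524 b98 (Lsw H i8 i36 b3242) (k_one i35 i36 c1879))
  have c4770 := Lck c3805 c4620 (Lsw H i4 i7 b31)
  have b4782 := LP1 H i16 i8 i7 c69.symm (Lsw H i7 i16 b321) (Lsw H i7 i8 b98) (Lsw H i8 i58 b3243)
  have c4784 := Lco i134 i8 (LP1 H i8 i32 i13 c273.symm b322 (Lsw H i13 i32 b3251) (k_one i59 i32 c2864))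
  have c4788 := Lck c1352 c4660 (Lsw H i5 i8 b34)
  have c4791 := Lck c3515.symm c4507.symm b322
  have c4810 := Lco i131 i9 (LP1 H i9 i42 i10 c529 b249 b4531 (k_one i32 i42 c2351))
  have c4814 := Lck c3926 c4615 (Lsw H i4 i9 b32)
  have c4815 := Lck c3926 c4727 (Lsw H i6 i9 b97)
  have c4822 := Lck c3503.symm c4622 (Lsw H i4 i9 b32)
  have b4830 := LP1 H i13 i10 i8 c40 (Lsw H i8 i13 b322) (Lsw H i8 i10 b245) (Lsw H i10 i59 b3248)
  have b4831 := LP1 H i10 i16 i6 c75 (Lsw H i6 i10 b244) (Lsw H i6 i16 b678) (Lsw H i16 i28 b4609)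
  have b4832 := LP1 H i16 i10 i7 c75.symm (Lsw H i7 i16 b321) (Lsw H i7 i10 b248) (Lsw H i10 i58 b4621)
  have b4834 := LP1 H i17 i10 i9 c70.symm (Lsw H i9 i17 b688) (Lsw H i9 i10 b249) (Lsw H i10 i54 b4669)
  have b4840 := LP1 H i27 i10 i2 c197.symm (Lsw H i2 i27 b300) (Lsw H i2 i10 b29) (Lsw H i10 i37 b3245)
  have b4841 := LP1 H i28 i10 i3 c185.symm (Lsw H i3 i28 b305) (Lsw H i3 i10 b30) b4531
  have c4844 := Lco i77 i10 (LP1 H i10 i31 i8 c195 (Lsw H i8 i10 b245) (Lsw H i8 i31 b1696) (k_one i29 i31 c4664.symm))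
  have c4845 := Lco i107 i10 (LP1 H i10 i31 i11 c195 b324 (Lsw H i11 i31 b4539) (k_one i61 i31 c694))
  have b4846 := LP1 H i10 i32 i2 c196 (Lsw H i2 i10 b29) (Lsw H i2 i32 b302) b3251
  have c4851 := Lck c1739 c2568 (Lsw H i42 i10 b4531)
  have c4861 := Lck c3706.symm c4791 b3248
  have c4862 := Lck c3544.symm c4362 b864
  have c4872 := Lck c3937.symm c4784 (Lsw H i8 i10 b245)
  have c4877 := Lck c3941.symm c4715 b3247
  have c4898 := Lck c4072 c4810 b670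
  have b4924 := LP1 H i14 i13 i5 c63.symm (Lsw H i5 i14 b95) (Lsw H i5 i13 b94) (Lsw H i13 i32 b3251)
  have c4925 := Lco i134 i17 (LP1 H i17 i13 i32 c256.symm (Lsw H i32 i17 b4834) b3251 (k_one i122 i13 c4160))
  have c4941 := Lck c4165 c4262 b1789
  have c4956 := Lck c3401.symm c3907.symm b3251
  have c4959 := LP2 H i14 i18 i28 c257 b4841 b3253
  have c4965 := Lco i136 i14 (LP1 H i14 i76 i5 c1459.symm (Lsw H i5 i14 b95) b4662 (k_one i32 i76 c1874))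
  have c4967 := Lco i130 i14 (LP1 H i14 i80 i5 c2820 (Lsw H i5 i14 b95) b4667 (k_one i32 i80 c2577))
  have c4970 := Lco i32 i100 (LP1 H i100 i14 i5 c2074.symm b4656 (Lsw H i5 i14 b95) (k_one i130 i14 c4967))
  have c4985 := LP2 H i15 i31 i14 c262 (Lsw H i14 i15 b1785) b4924
  have c4988 := Lco i23 i89 (LP1 H i89 i15 i3 c2364 (Lsw H i3 i89 b3231) (Lsw H i3 i15 b86) (k_one i114 i15 c4770))
  have c5012 := Lco i21 i87 (LP1 H i87 i16 i2 c2722 (Lsw H i2 i87 b3225) (Lsw H i2 i16 b84) (k_one i108 i16 c4814))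
  have c5022 := Lco i25 i82 (LP1 H i82 i17 i3 c2371 (Lsw H i3 i82 b3229) (Lsw H i3 i17 b88) (k_one i112 i17 c4732))
  have c5025 := Lco i28 i100 (LP1 H i100 i17 i4 c2076.symm (Lsw H i4 i100 b3235) b295 (k_one i118 i17 c4734))
  have c5030 := Lco i134 i18 (LP1 H i18 i32 i13 c213 (Lsw H i13 i18 b1789) (Lsw H i13 i32 b3251) (k_one i100 i32 c4970.symm))
  have c5032 := Lco i52 i61 (LP1 H i61 i18 i7 c2314 (Lsw H i7 i61 b4673) (Lsw H i7 i18 b689) (k_one i120 i18 c3858.symm))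
  have c5034 := Lco i22 i80 (LP1 H i80 i18 i2 c2734 b4545 (Lsw H i2 i18 b85) (k_one i123 i18 c4243))
  have c5037 := Lco i118 i18 (LP1 H i18 i88 i4 c2967 b298 b4616 (k_one i29 i88 c1248))
  have c5041 := Lco i29 i100 (LP1 H i100 i18 i4 c1385.symm (Lsw H i4 i100 b3235) b298 (k_one i118 i18 c5037))
  have c5072 := Lco i51 i46 (LP1 H i46 i21 i5 c347 (Lsw H i5 i46 b847) (Lsw H i5 i21 b314) (k_one i87 i21 c5012.symm))
  have c5086 := Lck c4289 c4605 (Lsw H i4 i21 b309)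
  have c5088 := Lco i47 i52 (LP1 H i52 i22 i4 c359 (Lsw H i4 i52 b840) (Lsw H i4 i22 b310) (k_one i80 i22 c5034.symm))
  have c5095 := Lck c3538 c3585 (Lsw H i5 i22 b315)
  have c5099 := Lco i53 i48 (LP1 H i48 i23 i5 c351 (Lsw H i5 i48 b849) (Lsw H i5 i23 b316) (k_one i89 i23 c4988.symm))
  have c5110 := Lco i120 i24 (LP1 H i24 i61 i7 c2223 (Lsw H i7 i24 b855) (Lsw H i7 i61 b4673) (k_one i95 i61 c2988))
  have c5112 := Lco i49 i54 (LP1 H i54 i25 i4 c363 (Lsw H i4 i54 b842) (Lsw H i4 i25 b312) (k_one i82 i25 c5022.symm))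
  have c5123 := Lck c4306 c4661 (Lsw H i5 i25 b317)
  have c5143 := Lco i80 i30 (LP1 H i30 i52 i4 c589 b676 (Lsw H i4 i52 b840) (k_one i61 i52 c5032.symm))
  have c5151 := Lck c3670.symm c4784 (Lsw H i8 i31 b1696)
  have c5192 := Lco i134 i37 (LP1 H i37 i39 i10 c705.symm (Lsw H i10 i37 b3245) b4846 (k_one i128 i39 c4563))
  have c5226 := Lco i116 i42 (LP1 H i42 i46 i10 c2434.symm b4531 b4831 (k_one i131 i46 c5086))
  have c5227 := LP2 H i42 i48 i10 c2167 b4531 b4603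
  have c5231 := Lco i76 i85 (LP1 H i85 i42 i4 c912 (Lsw H i4 i85 b3233) (Lsw H i4 i42 b836) (k_one i116 i42 c5226))
  have c5254 := Lco i71 i99 (LP1 H i99 i46 i3 c2924 b4572 (Lsw H i3 i46 b831) (k_one i125 i46 c3843.symm))
  have c5256 := Lck c3843.symm c4661 (Lsw H i5 i46 b847)
  have c5260 := Lco i88 i80 (LP1 H i80 i47 i5 c1520.symm b4667 (Lsw H i5 i47 b848) (k_one i130 i47 c4644))
  have c5265 := Lck c872 c4660 (Lsw H i5 i48 b849)
  have c5267 := Lco i89 i80 (LP1 H i80 i48 i5 c1587.symm b4667 (Lsw H i5 i48 b849) (k_one i130 i48 c4645))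
  have c5273 := Lck c4360.symm c3585 (Lsw H i5 i48 b849)
  have c5290 := LP2 H i52 i54 i10 c802.symm (Lsw H i10 i52 b3247) (Lsw H i10 i54 b4669)
  have c5298 := Lco i80 i100 (LP1 H i100 i52 i4 c1219.symm (Lsw H i4 i100 b3235) (Lsw H i4 i52 b840) (k_one i118 i52 c5095))
  have c5299 := Lco i80 i104 (LP1 H i104 i52 i4 c1223.symm b4604 (Lsw H i4 i52 b840) (k_one i117 i52 c4687))
  have c5318 := Lco i67 i97 (LP1 H i97 i54 i2 c2666 b4534 (Lsw H i2 i54 b827) (k_one i124 i54 c3790.symm))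
  have c5381 := Lco i117 i88 (LP1 H i88 i89 i4 c1609 b4616 (Lsw H i4 i89 b3234) (k_one i118 i89 c5273))
  have c5395 := Lco i118 i104 (LP1 H i104 i100 i4 c1517.symm b4604 (Lsw H i4 i100 b3235) (k_one i117 i100 c4941))
  have q5396 : Rl [t109, 1, 1, 1, 1, 1] := LJ H i2 i5 i48 b6 b825 b849 b3226 (k_one i5 i65 c4660.symm) (k_one i48 i7 c752) (k_one i7 i65 c1020) (k_one i7 i89 c1215) (k_one i65 i89 c5265)
  have q5397 : Rl [1, t109, 1, 1, 1, 1] := q5396.mv 1 rfl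
  have q5398 : Rl [t109, 1, 1, 1, 1] := q5397.del1
  have q5399 : Rl [1, t109, 1, 1, 1] := q5398.mv 1 rfl
  have q5400 : Rl [t109, 1, 1, 1] := q5399.del1
  have q5401 : Rl [1, t109, 1, 1] := q5400.mv 1 rfl
  have q5402 : Rl [t109, 1, 1] := q5401.del1
  have q5403 : Rl [1, t109, 1] := q5402.mv 1 rfl
  have q5404 : Rl [t109, 1] := q5403.del1
  have q5405 : Rl [1, t109] := q5404.mv 1 rfl
  have q5406 : Rl [t109] := q5405.del1
  have e5407 := q5406.one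
  have m5408 : 1 = t109 := e5407.symm
  subst m5408
  have c5409 := Lco i2 i89 b3226
  have q5410 : Rl [t36, t41, t44, t63, t125, t75] := LJ H i2 i8 i9 b27 b28 (Lsw H i9 i8 b238) b299 b672 (Lsw H i11 i9 b670) b1634 (Lsw H i24 i11 b4575) (Lsw H i24 i12 b4576)
  have q5411 : Rl [t38, t59, t61, t64, 1, t131] := LJ H i2 i8 i10 b27 b29 b245 b301 b322 b324 b1724 (k_one i11 i29 c2191) (Lsw H i29 i13 b4830)
  have q5412 : Rl [1, t38, t59, t61, t64, t131] := q5411.mv 4 rfl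
  have q5413 : Rl [t38, t59, t61, t64, t131] := q5412.del1
  have q5414 : Rl [t40, t37, t56, t63, t65, t124] := LJ H i3 i6 i7 (Lsw H i6 i3 b80) (Lsw H i7 i3 b81) b96 b303 b318 b319 b1634 b3249 (Lsw H i20 i12 b4536)
  have q5415 : Rl [t43, t57, t62, t73, 1, t134] := LJ H i3 i7 i10 (Lsw H i7 i3 b81) b30 b248 b306 b320 b325 b2020 (k_one i12 i31 c1935.symm) (Lsw H i31 i14 b4924)
  have q5416 : Rl [1, t43, t57, t62, t73, t134] := q5415.mv 4 rfl
  have q5417 : Rl [t43, t57, t62, t73, t134] := q5416.del1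
  have q5418 : Rl [t80, t88, t100, t118, t130, 1] := LJ H i4 i5 i22 b9 b310 b315 b840 b848 (Lsw H i10 i22 b860) b3246 b3247 (k_one i47 i52 c5088)
  have q5419 : Rl [1, t80, t88, t100, t118, t130] := q5418.mv 5 rfl
  have q5420 : Rl [t80, t88, t100, t118, t130] := q5419.del1
  have q5421 : Rl [t118, t131, t136, 1, 1, 1] := LJ H i4 i13 i18 b91 (Lsw H i18 i4 b298) b1789 b3235 (Lsw H i29 i13 b4830) b3253 (k_one i28 i29 c228) (k_one i28 i100 c5025) (k_one i29 i100 c5041)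
  have q5422 : Rl [1, t118, t131, t136, 1, 1] := q5421.mv 3 rfl
  have q5423 : Rl [t118, t131, t136, 1, 1] := q5422.del1
  have q5424 : Rl [1, t118, t131, t136, 1] := q5423.mv 3 rfl
  have q5425 : Rl [t118, t131, t136, 1] := q5424.del1
  have q5426 : Rl [1, t118, t131, t136] := q5425.mv 3 rfl
  have q5427 : Rl [t118, t131, t136] := q5426.del1
  have q5428 : Rl [t17, t13, t15, t20, t28, t31] := q260.mv 2 rfl
  have q5429 : Rl [t13, t17, t15, t20, t28, t31] := q5428.mv 1 rfl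
  have b5430 := Rl.l2 H i13 i17 i27 q5429 (.cons c207 (.cons c2269 (.cons c283.symm (.cons c2225 .nil)))) b4840
  have q5431 : Rl [t17, t13, t15, t20, t28, t31] := q260.mv 2 rfl
  have q5432 : Rl [t13, t17, t15, t20, t28, t31] := q5431.mv 1 rfl
  have q5433 : Rl [t15, t13, t17, t20, t28, t31] := q5432.mv 2 rfl
  have q5434 : Rl [t117, t131, t136, 1] := Rl.l3 H i15 i13 i17 i29 q5433 (.cons c2977.symm (.cons c228 (.cons c4664 .nil))) (Lsw H i29 i15 b4606) (Lsw H i29 i13 b4830) b4663 (k_one i117 i13 c4165)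
  have q5435 : Rl [1, t117, t131, t136] := q5434.mv 3 rfl
  have q5436 : Rl [t117, t131, t136] := q5435.del1
  have q5437 : Rl [t15, t13, t17, t20, t28, t31] := q260.mv 1 rfl
  have b5438 := Rl.l2 H i15 i13 i30 q5437 (.cons c201 (.cons c2369 (.cons c1937 (.cons c284.symm .nil)))) b4759
  have q5450 : Rl [t16, t14, t18, t24, t29, t32] := q264.mv 1 rfl
  have q5451 : Rl [t18, t16, t14, t24, t29, t32] := q5450.mv 2 rfl
  have q5452 : Rl [t14, t18, t16, t24, t29, t32] := q5451.mv 2 rfl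
  have q5453 : Rl [t134, t130, t135, 1] := Rl.l3 H i14 i18 i16 i31 q5452 (.cons c2978.symm (.cons c4664.symm (.cons c229.symm .nil))) (Lsw H i31 i14 b4924) (Lsw H i31 i18 b4659) (Lsw H i31 i16 b4832) (k_one i134 i18 c5030)
  have q5454 : Rl [1, t134, t130, t135] := q5453.mv 3 rfl
  have q5455 : Rl [t134, t130, t135] := q5454.del1
  have c5467 := q264.l1 (.cons c4822.symm (.cons c3858 (.cons c5110.symm (.cons c3663 (.cons c4178 .nil)))))
  have q5471 : Rl [t35, t22, t30, t56, t52, t99] := q1869.mv 2 rfl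
  have c5472 := q5471.l1 (.cons c5034 (.cons c5143.symm (.cons c3151.symm (.cons c902.symm (.cons c2466 .nil)))))
  have q5479 : Rl [t35, t23, t27, t41, t48, t97] := q1870.mv 2 rfl
  have b5480 := Rl.l2 H i35 i23 i16 q5479 (.cons c216.symm (.cons c2477.symm (.cons c767.symm (.cons c2242 .nil)))) b4782
  have q5489 : Rl [t44, t36, t41, t63, t125, t75] := q5410.mv 2 rfl
  have b5490 := Rl.l2 H i44 i36 i4 q5489 (.cons c451 (.cons c2575 (.cons c4581 (.cons c4614 .nil)))) b1692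
  have q5518 : Rl [t37, t40, t56, t63, t65, t124] := q5414.mv 1 rfl
  have b5519 := Rl.l2 H i37 i40 i5 q5518 (.cons c425 (.cons c2597 (.cons c4660 (.cons c3384 .nil)))) b2248
  have q5545 : Rl [t61, t38, t59, t64, t131] := q5413.mv 2 rfl
  have c5546 := q5545.l1 (.cons c633.symm (.cons c2696 (.cons c2052.symm (.cons c4292 .nil))))
  have q5551 : Rl [t61, t38, t59, t64, t131] := q5413.mv 2 rfl
  have c5552 := q5551.l1 (.cons c2773 (.cons c3078 (.cons c2954.symm (.cons c4898 .nil))))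
  have q5562 : Rl [t59, t38, t61, t64, t131] := q5413.mv 1 rfl
  have c5563 := q5562.l1 (.cons c2541.symm (.cons c2931 (.cons c2862.symm (.cons c4851.symm .nil))))
  have q5576 : Rl [t57, t39, t50, t68, t91] := q2472.mv 2 rfl
  have q5577 : Rl [t39, t57, t50, t68, t91] := q5576.mv 1 rfl
  have b5578 := Rl.l2 H i39 i57 i10 q5577 (.cons c506.symm (.cons c1885 (.cons c1739 .nil))) b4846
  have q5594 : Rl [t57, t43, t62, t73, t134] := q5417.mv 1 rfl
  have b5595 := Rl.l2 H i57 i43 i10 q5594 (.cons c378 (.cons c2189 (.cons c3937.symm .nil))) b5578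
  have q5600 : Rl [t57, t43, t62, t73, t134] := q5417.mv 1 rfl
  have c5601 := q5600.l1 (.cons c2089.symm (.cons c683 (.cons c2651.symm (.cons c4872 .nil))))
  have q5602 : Rl [t62, t43, t57, t73, t134] := q5417.mv 2 rfl
  have c5603 := q5602.l1 (.cons c2427 (.cons c2848 (.cons c2653.symm (.cons c5192 .nil))))
  have q5610 : Rl [t57, t43, t62, t73, t134] := q5417.mv 1 rfl
  have c5611 := q5610.l1 (.cons c2526.symm (.cons c684 (.cons c2799 (.cons c4147.symm .nil))))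
  have q5631 : Rl [t57, t43, t62, t73, t134] := q5417.mv 1 rfl
  have c5632 := q5631.l1 (.cons c2451.symm (.cons c3093 (.cons c2878.symm (.cons c4157.symm .nil))))
  have q5633 : Rl [t57, t43, t62, t73, t134] := q5417.mv 1 rfl
  have c5634 := q5633.l1 (.cons c896.symm (.cons c2908 (.cons c2715.symm (.cons c5151 .nil))))
  have c5637 := q5417.l1 (.cons c1964 (.cons c1434 (.cons c2573.symm (.cons c4985.symm .nil))))
  have q5669 : Rl [t88, t80, t100, t118, t130] := q5420.mv 1 rfl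
  have c5670 := q5669.l1 (.cons c5299 (.cons c1517 (.cons c5395 (.cons c4036.symm .nil))))
  have q5673 : Rl [t131, t118, t136] := q5427.mv 1 rfl
  have c5674 := q5673.l1 (.cons c3585 (.cons c3652.symm .nil))
  have q5679 : Rl [t131, t118, t136] := q5427.mv 1 rfl
  have c5680 := q5679.l1 (.cons c4734 (.cons c4231.symm .nil))
  have q5681 : Rl [t131, t118, t136] := q5427.mv 1 rfl
  have c5682 := q5681.l1 (.cons c5037 (.cons c3312 .nil))
  have q5730 : Rl [t117, t131, t136, t118, t131, t136] := q5436.add q5427 (.cons (.cons c4482.symm (.cons c5227 (.cons c4654 .nil))) (.cons (.cons c4405 (.cons (Commute.refl _) (.cons c4959.symm .nil))) (.cons (.cons c4655.symm (.cons c4959 (.cons (Commute.refl _) .nil))) .nil)))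
  have q5731 : Rl [t131, t117, t131, t136, t118, t136] := q5730.mv 4 rfl
  have q5732 : Rl [t131, t131, t117, t136, t118, t136] := q5731.mv 2 rfl
  have q5733 : Rl [t117, t136, t118, t136] := q5732.del2
  have q5734 : Rl [t136, t117, t136, t118] := q5733.mv 3 rfl
  have q5735 : Rl [t136, t136, t117, t118] := q5734.mv 2 rfl
  have q5736 : Rl [t117, t118] := q5735.del2
  have e5737 := q5736.two
  have m5738 : t117 = t118 := e5737
  subst m5738
  have c5771 := Lco i126 i3 (LP1 H i3 i23 i16 c107.symm b87 b5480 (k_one i24 i23 c231.symm))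
  have c5783 := LP2 H i3 i91 i4 c1938.symm b7 b4612
  have c5784 := LP2 H i3 i96 i4 c1308.symm b7 b4613
  have c5802 := Lck c4580 c5680 b88
  have c5806 := Lck c3772 c4706 b30
  have c5808 := Lck c4578 c4925 b88
  have c5813 := Lco i134 i4 (LP1 H i4 i10 i43 c18.symm b837 (Lsw H i43 i10 b5595) (k_one i77 i10 c4844))
  have b5815 := LP1 H i24 i4 i2 c172 (Lsw H i2 i24 b299) (Lsw H i2 i4 b5) b5490
  have b5817 := LP1 H i4 i29 i7 c119.symm b31 (Lsw H i7 i29 b858) (Lsw H i29 i15 b4606)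
  have c5819 := Lco i28 i32 (LP1 H i32 i4 i13 c280 (Lsw H i13 i32 b3251) b91 (k_one i134 i4 c5813))
  have c5823 := LP3 H i4 i46 i5 c346.symm b9 (Lsw H i46 i10 b4831)
  have c5885 := Lck c4605 c5802 b312
  have b5898 := LP1 H i5 i10 i25 c19.symm b317 b862 (Lsw H i10 i54 b4669)
  have c5901 := Lco i85 i10 (LP1 H i10 i5 i42 c19 (Lsw H i42 i10 b4531) b845 (k_one i131 i5 c5674))
  have b5904 := LP1 H i20 i5 i3 c155 (Lsw H i3 i20 b303) (Lsw H i3 i5 b8) b5519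
  have c5905 := LP2 H i5 i24 i6 c168.symm b33 (Lsw H i6 i24 b5815)
  have b5907 := LP1 H i5 i31 i8 c123.symm b34 (Lsw H i8 i31 b1696) (Lsw H i31 i18 b4659)
  have b5908 := LP1 H i5 i32 i6 c125.symm b33 (Lsw H i6 i32 b853) (Lsw H i32 i17 b4834)
  have c5969 := Lck c5674 c3952.symm b313
  have b5986 := LP1 H i8 i6 i9 c25.symm (Lsw H i9 i8 b238) b97 (Lsw H i6 i24 b5815)
  have b6008 := LP1 H i7 i9 i6 c26 (Lsw H i6 i7 b96) (Lsw H i6 i9 b97) (Lsw H i9 i20 b5904)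
  have c6017 := Lck c4568 c5813 (Lsw H i4 i7 b31)
  have c6020 := Lck c4756 c4965 b320
  have c6025 := Lco i48 i32 (LP1 H i32 i8 i15 c273 (Lsw H i15 i32 b3252) b677 (k_one i135 i8 c5783.symm))
  have c6052 := Lck c1145 c5905.symm b688
  have c6061 := Lck c4709 c6017 (Lsw H i15 i9 b708)
  have b6067 := LP1 H i10 i30 i2 c187 (Lsw H i2 i10 b29) b662 b5438
  have c6068 := Lco i93 i10 (LP1 H i10 i32 i6 c196 (Lsw H i6 i10 b244) (Lsw H i6 i32 b853) (k_one i28 i32 c5819))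
  have c6072 := Lco i13 i77 (LP1 H i77 i10 i2 c4844 (Lsw H i2 i77 b3224) (Lsw H i2 i10 b29) (k_one i107 i10 c4845))
  have c6116 := Lco i128 i12 (LP1 H i12 i37 i10 c430 (Lsw H i10 i12 b325) (Lsw H i10 i37 b3245) (k_one i62 i37 c5603))
  have c6119 := Lco i27 i96 (LP1 H i96 i12 i4 c1105.symm b4613 (Lsw H i4 i12 b90) (k_one i128 i12 c6116))
  have c6125 := Lco i59 i31 (LP1 H i31 i13 i8 c124 (Lsw H i8 i31 b1696) (Lsw H i8 i13 b322) (k_one i77 i13 c6072.symm))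
  have c6127 := Lco i28 i36 (LP1 H i36 i13 i4 c580.symm b5490 (Lsw H i4 i13 b91) (k_one i105 i13 c1897))
  have c6150 := Lco i32 i40 (LP1 H i40 i14 i5 c579.symm b5519 (Lsw H i5 i14 b95) (k_one i96 i14 c2216))
  have c6155 := Lco i19 i85 (LP1 H i85 i14 i2 c2150.symm b4538 (Lsw H i2 i14 b82) (k_one i133 i14 c5806))
  have b6162 := LP1 H i15 i16 i3 c79 (Lsw H i3 i15 b86) (Lsw H i3 i16 b87) b5480
  have c6163 := Lco i58 i20 (LP1 H i20 i15 i9 c102 (Lsw H i9 i20 b5904) b708 (k_one i96 i15 c2362))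
  have c6217 := Lco i60 i24 (LP1 H i24 i18 i6 c114 (Lsw H i6 i24 b5815) b698 (k_one i105 i18 c2484.symm))
  have c6219 := Lco i64 i18 (LP1 H i18 i61 i2 c2314.symm (Lsw H i2 i18 b85) b2171 (k_one i22 i61 c5546.symm))
  have c6229 := Lco i50 i42 (LP1 H i42 i19 i5 c605.symm (Lsw H i5 i42 b845) (Lsw H i5 i19 b313) (k_one i85 i19 c6155.symm))
  have c6252 := Lco i134 i23 (LP1 H i23 i43 i10 c621 (Lsw H i10 i23 b861) b5595 (k_one i101 i43 c5637.symm))
  have c6269 := Lco i105 i25 (LP1 H i25 i34 i8 c734 (Lsw H i8 i25 b1674) b5986 (k_one i72 i34 c2659))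
  have c6270 := Lco i49 i36 (LP1 H i36 i25 i4 c741 b5490 (Lsw H i4 i25 b312) (k_one i105 i25 c6269))
  have c6303 := Lco i96 i46 (LP1 H i46 i34 i7 c723.symm (Lsw H i7 i46 b4544) b6008 (k_one i108 i34 c4815))
  have c6313 := Lco i48 i52 (LP1 H i52 i35 i4 c717.symm (Lsw H i4 i52 b840) b796 (k_one i80 i35 c5472.symm))
  have c6340 := Lco i135 i39 (LP1 H i39 i58 i10 c1853 b4846 (Lsw H i10 i58 b4621) (k_one i134 i58 c6061))
  have c6342 := Lco i93 i91 (LP1 H i91 i39 i4 c1855 b4612 b1697 (k_one i135 i39 c6340))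
  have c6407 := Lco i91 i76 (LP1 H i76 i57 i5 c5632.symm b4662 (Lsw H i5 i57 b851) (k_one i136 i57 c6020))
  have q6432 : Rl [t67, t96, t96, t124, 1, 1] := LJ H i2 i5 i25 b6 (Lsw H i25 i2 b658) b317 b827 (Lsw H i40 i5 b5519) (Lsw H i7 i25 b856) (Lsw H i40 i7 b4757) (k_one i7 i54 c764) (k_one i40 i54 c675.symm)
  have q6433 : Rl [1, t67, t96, t96, t124, 1] := q6432.mv 4 rfl
  have q6434 : Rl [t67, t96, t96, t124, 1] := q6433.del1
  have q6435 : Rl [1, t67, t96, t96, t124] := q6434.mv 4 rfl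
  have q6436 : Rl [t67, t96, t96, t124] := q6435.del1
  have q6437 : Rl [t96, t67, t96, t124] := q6436.mv 2 rfl
  have q6438 : Rl [t96, t96, t67, t124] := q6437.mv 2 rfl
  have q6439 : Rl [t67, t124] := q6438.del2
  have e6440 := q6439.two
  have m6441 : t67 = t124 := e6440
  subst m6441
  have q6442 : Rl [t68, t96, t97, t67, 1, 1] := LJ H i2 i5 i27 b6 b300 (Lsw H i27 i5 b686) (Lsw H i62 i2 b2172) (Lsw H i37 i5 b2248) (Lsw H i7 i27 b857) b3241 (k_one i7 i62 c1961.symm) (k_one i37 i62 c5603.symm)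
  have q6443 : Rl [1, t68, t96, t97, t67, 1] := q6442.mv 4 rfl
  have q6444 : Rl [t68, t96, t97, t67, 1] := q6443.del1
  have q6445 : Rl [1, t68, t96, t97, t67] := q6444.mv 4 rfl
  have q6446 : Rl [t68, t96, t97, t67] := q6445.del1
  have q6447 : Rl [t69, t96, t97, t67, 1, 1] := LJ H i2 i9 i15 b28 b83 (Lsw H i15 i9 b708) b829 b5904 b1740 (Lsw H i20 i12 b4536) (k_one i12 i58 c2302.symm) (k_one i20 i58 c6163.symm)
  have q6448 : Rl [1, t69, t96, t97, t67, 1] := q6447.mv 4 rfl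
  have q6449 : Rl [t69, t96, t97, t67, 1] := q6448.del1
  have q6450 : Rl [1, t69, t96, t97, t67] := q6449.mv 4 rfl
  have q6451 : Rl [t69, t96, t97, t67] := q6450.del1
  have q6452 : Rl [t71, t105, t105, t125, 1, 1] := LJ H i3 i4 i21 b7 (Lsw H i21 i3 b657) b309 b831 (Lsw H i36 i4 b5490) b1767 b3242 (k_one i8 i46 c759) (k_one i36 i46 c667.symm)
  have q6453 : Rl [1, t71, t105, t105, t125, 1] := q6452.mv 4 rfl
  have q6454 : Rl [t71, t105, t105, t125, 1] := q6453.del1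
  have q6455 : Rl [1, t71, t105, t105, t125] := q6454.mv 4 rfl
  have q6456 : Rl [t71, t105, t105, t125] := q6455.del1
  have q6457 : Rl [t105, t71, t105, t125] := q6456.mv 2 rfl
  have q6458 : Rl [t105, t105, t71, t125] := q6457.mv 2 rfl
  have q6459 : Rl [t71, t125] := q6458.del2
  have e6460 := q6459.two
  have m6461 : t71 = t125 := e6460
  subst m6461
  have q6462 : Rl [t70, t105, t99, t71, 1, 1] := LJ H i3 i4 i30 b7 (Lsw H i30 i3 b748) (Lsw H i30 i4 b676) (Lsw H i61 i3 b2550) (Lsw H i44 i4 b1692) (Lsw H i8 i30 b859) (Lsw H i44 i8 b4573) (k_one i8 i61 c2291.symm) (k_one i44 i61 c5552.symm)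
  have q6463 : Rl [1, t70, t105, t99, t71, 1] := q6462.mv 4 rfl
  have q6464 : Rl [t70, t105, t99, t71, 1] := q6463.del1
  have q6465 : Rl [1, t70, t105, t99, t71] := q6464.mv 4 rfl
  have q6466 : Rl [t70, t105, t99, t71] := q6465.del1
  have q6467 : Rl [t113, 1, 1, 1, 1, 1] := LJ H i3 i5 i46 b8 b831 b847 b3230 (k_one i5 i71 c4661.symm) (k_one i46 i9 c751) (k_one i9 i71 c1082) (k_one i9 i87 c1217) (k_one i71 i87 c5256)
  have q6468 : Rl [1, t113, 1, 1, 1, 1] := q6467.mv 1 rfl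
  have q6469 : Rl [t113, 1, 1, 1, 1] := q6468.del1
  have q6470 : Rl [1, t113, 1, 1, 1] := q6469.mv 1 rfl
  have q6471 : Rl [t113, 1, 1, 1] := q6470.del1
  have q6472 : Rl [1, t113, 1, 1] := q6471.mv 1 rfl
  have q6473 : Rl [t113, 1, 1] := q6472.del1
  have q6474 : Rl [1, t113, 1] := q6473.mv 1 rfl
  have q6475 : Rl [t113, 1] := q6474.del1
  have q6476 : Rl [1, t113] := q6475.mv 1 rfl
  have q6477 : Rl [t113] := q6476.del1
  have e6478 := q6477.one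
  have m6479 : 1 = t113 := e6478.symm
  subst m6479
  have c6480 := Lco i3 i87 b3230
  have q6481 : Rl [t40, t37, t56, t63, t65, t67] := LJ H i3 i6 i7 (Lsw H i6 i3 b80) (Lsw H i7 i3 b81) b96 b303 b318 b319 b1634 b3249 (Lsw H i20 i12 b4536)
  have q6482 : Rl [t72, t105, t99, t71, 1, 1] := LJ H i3 i6 i18 (Lsw H i6 i3 b80) b89 (Lsw H i18 i6 b698) (Lsw H i60 i3 b2187) b5815 b1764 (Lsw H i24 i11 b4575) (k_one i11 i60 c2622.symm) (k_one i24 i60 c6217.symm)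
  have q6483 : Rl [1, t72, t105, t99, t71, 1] := q6482.mv 4 rfl
  have q6484 : Rl [t72, t105, t99, t71, 1] := q6483.del1
  have q6485 : Rl [1, t72, t105, t99, t71] := q6484.mv 4 rfl
  have q6486 : Rl [t72, t105, t99, t71] := q6485.del1
  have q6487 : Rl [t80, t89, t104, t117, t130, 1] := LJ H i4 i5 i35 b9 (Lsw H i35 i4 b796) (Lsw H i35 i5 b797) b840 b849 (Lsw H i10 i35 b864) (Lsw H i48 i10 b4603) b3247 (k_one i48 i52 c6313)
  have q6488 : Rl [1, t80, t89, t104, t117, t130] := q6487.mv 5 rfl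
  have q6489 : Rl [t80, t89, t104, t117, t130] := q6488.del1
  have q6490 : Rl [t135, t122, t134, 1, 1, 1] := LJ H i4 i5 i39 b9 (Lsw H i39 i4 b1697) (Lsw H i39 i5 b1939) (Lsw H i91 i4 b4612) (Lsw H i93 i5 b5908) b4846 (k_one i10 i93 c6068.symm) (k_one i10 i91 c1739.symm) (k_one i93 i91 c6342)
  have q6491 : Rl [1, t135, t122, t134, 1, 1] := q6490.mv 3 rfl
  have q6492 : Rl [t135, t122, t134, 1, 1] := q6491.del1
  have q6493 : Rl [1, t135, t122, t134, 1] := q6492.mv 3 rfl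
  have q6494 : Rl [t135, t122, t134, 1] := q6493.del1
  have q6495 : Rl [1, t135, t122, t134] := q6494.mv 3 rfl
  have q6496 : Rl [t135, t122, t134] := q6495.del1
  have q6497 : Rl [t116, t136, t131, 1, 1, 1] := LJ H i4 i5 i42 b9 b836 b845 b3233 (Lsw H i76 i5 b4662) b4531 (k_one i10 i76 c1723.symm) (k_one i10 i85 c5901.symm) (k_one i76 i85 c5231)
  have q6498 : Rl [1, t116, t136, t131, 1, 1] := q6497.mv 3 rfl
  have q6499 : Rl [t116, t136, t131, 1, 1] := q6498.del1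
  have q6500 : Rl [1, t116, t136, t131, 1] := q6499.mv 3 rfl
  have q6501 : Rl [t116, t136, t131, 1] := q6500.del1
  have q6502 : Rl [1, t116, t136, t131] := q6501.mv 3 rfl
  have q6503 : Rl [t116, t136, t131] := q6502.del1
  have q6504 : Rl [t128, t133, t128, 1, 1, 1] := LJ H i4 i12 i17 b90 (Lsw H i17 i4 b295) b1744 (Lsw H i96 i4 b4613) b3250 b5430 (k_one i27 i28 c283) (k_one i27 i96 c6119) (k_one i28 i96 c2276.symm)
  have q6505 : Rl [1, t128, t133, t128, 1, 1] := q6504.mv 3 rfl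
  have q6506 : Rl [t128, t133, t128, 1, 1] := q6505.del1
  have q6507 : Rl [1, t128, t133, t128, 1] := q6506.mv 3 rfl
  have q6508 : Rl [t128, t133, t128, 1] := q6507.del1
  have q6509 : Rl [1, t128, t133, t128] := q6508.mv 3 rfl
  have q6510 : Rl [t128, t133, t128] := q6509.del1
  have q6511 : Rl [t128, t128, t133] := q6510.mv 2 rfl
  have q6512 : Rl [t128, t128, t133] := q6511.mv 1 rfl
  have q6513 : Rl [t133] := q6512.del2
  have e6514 := q6513.one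
  have m6515 : 1 = t133 := e6514.symm
  subst m6515
  have c6516 := Lco i85 i2 b4538
  have q6519 : Rl [t120, t107, t120, 1, 1, 1] := LJ H i5 i11 i13 b93 b94 b1724 b3237 b4539 b5438 (k_one i30 i31 c284) (k_one i30 i64 c3130.symm) (k_one i31 i64 c2270)
  have q6520 : Rl [1, t120, t107, t120, 1, 1] := q6519.mv 3 rfl
  have q6521 : Rl [t120, t107, t120, 1, 1] := q6520.del1
  have q6522 : Rl [1, t120, t107, t120, 1] := q6521.mv 3 rfl
  have q6523 : Rl [t120, t107, t120, 1] := q6522.del1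
  have q6524 : Rl [1, t120, t107, t120] := q6523.mv 3 rfl
  have q6525 : Rl [t120, t107, t120] := q6524.del1
  have q6526 : Rl [t120, t120, t107] := q6525.mv 2 rfl
  have q6527 : Rl [t120, t120, t107] := q6526.mv 1 rfl
  have q6528 : Rl [t107] := q6527.del2
  have e6529 := q6528.one
  have m6530 : 1 = t107 := e6529.symm
  subst m6530
  have c6531 := Lco i2 i77 b3224
  have q6534 : Rl [t126, t114, t126, 1, 1, 1] := LJ H i8 i9 i15 (Lsw H i9 i8 b238) b677 (Lsw H i15 i9 b708) b3243 b4582 (Lsw H i24 i15 b6162) (k_one i24 i48 c495) (k_one i24 i58 c3188.symm) (k_one i48 i58 c754.symm)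
  have q6535 : Rl [1, t126, t114, t126, 1, 1] := q6534.mv 3 rfl
  have q6536 : Rl [t126, t114, t126, 1, 1] := q6535.del1
  have q6537 : Rl [1, t126, t114, t126, 1] := q6536.mv 3 rfl
  have q6538 : Rl [t126, t114, t126, 1] := q6537.del1
  have q6539 : Rl [1, t126, t114, t126] := q6538.mv 3 rfl
  have q6540 : Rl [t126, t114, t126] := q6539.del1
  have q6541 : Rl [t126, t126, t114] := q6540.mv 2 rfl
  have q6542 : Rl [t126, t126, t114] := q6541.mv 1 rfl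
  have q6543 : Rl [t114] := q6542.del2
  have e6544 := q6543.one
  have m6545 : 1 = t114 := e6544.symm
  subst m6545
  have c6546 := Lco i3 i89 b3231
  have q6619 : Rl [t59, t38, t61, t64, t131] := q5413.mv 1 rfl
  have q6620 : Rl [t64, t59, t38, t61, t131] := q6619.mv 3 rfl
  have q6621 : Rl [t38, t64, t59, t61, t131] := q6620.mv 2 rfl
  have q6622 : Rl [t98, t120, t92, 1] := Rl.l3 H i38 i64 i59 i5 q6621 (.cons c475 (.cons c5674 .nil)) b1711 (Lsw H i5 i64 b3237) (Lsw H i5 i59 b852) (k_one i98 i64 c2284.symm)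
  have q6623 : Rl [1, t98, t120, t92] := q6622.mv 3 rfl
  have q6624 : Rl [t98, t120, t92] := q6623.del1
  have c6632 := q5413.l1 (.cons c2870 (.cons c814.symm (.cons c2586 (.cons c5885 .nil))))
  have q6633 : Rl [t59, t38, t61, t64, t131] := q5413.mv 1 rfl
  have c6634 := q6633.l1 (.cons c2850.symm (.cons c696 (.cons c2811 (.cons c5969 .nil))))
  have q6656 : Rl [t50, t39, t57, t68, t91] := q2472.mv 1 rfl
  have c6657 := q6656.l1 (.cons c2433.symm (.cons c5632 (.cons c3110 (.cons c6407 .nil))))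
  have q6680 : Rl [t45, t42, t59, t70, t76] := q2142.mv 1 rfl
  have c6681 := q6680.l1 (.cons c6229.symm (.cons c6634 (.cons c3060 (.cons c6657.symm .nil))))
  have q6690 : Rl [t45, t42, t59, t70, t76] := q2142.mv 1 rfl
  have c6691 := q6690.l1 (.cons c2568.symm (.cons c5563 (.cons c2972 (.cons c6407.symm .nil))))
  have q6698 : Rl [t62, t43, t57, t73, t134] := q5417.mv 2 rfl
  have c6699 := q6698.l1 (.cons c621.symm (.cons c2708 (.cons c2335.symm (.cons c6252 .nil))))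
  have q6700 : Rl [t62, t43, t57, t73, t134] := q5417.mv 2 rfl
  have c6701 := q6700.l1 (.cons c630.symm (.cons c2348 (.cons c2023.symm (.cons c5808 .nil))))
  have q6714 : Rl [t96, t68, t97, t67] := q6446.mv 1 rfl
  have b6715 := Rl.l2 H i96 i68 i4 q6714 (.cons c1305 (.cons c4607 .nil)) b4613
  have c6770 := q6466.l1 (.cons c5905.symm (.cons c2619 (.cons c4751 .nil)))
  have c6771 := q6466.l1 (.cons c6052 (.cons c2055.symm (.cons c5123 .nil)))
  have q6780 : Rl [t105, t72, t99, t71] := q6486.mv 1 rfl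
  have q6781 : Rl [t72, t105, t99, t71] := q6780.mv 1 rfl
  have b6782 := Rl.l2 H i72 i105 i5 q6781 (.cons c1338 (.cons c4661 .nil)) (Lsw H i5 i72 b3238)
  have q6948 : Rl [t68, t96, t97, t67, t69, t96, t97, t67] := q6446.add q6451 (.cons (.cons c1628.symm (.cons c1824.symm (.cons c2075.symm (.cons c2135.symm .nil)))) (.cons (.cons c2064 (.cons (Commute.refl _) (.cons c2095 (.cons c1750 .nil)))) (.cons (.cons c1831 (.cons c2095.symm (.cons (Commute.refl _) (.cons c5318 .nil)))) (.cons (.cons c1627.symm (.cons c1750.symm (.cons c5318.symm (.cons (Commute.refl _) .nil)))) .nil))))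
  have q6949 : Rl [t96, t68, t96, t97, t67, t69, t97, t67] := q6948.mv 5 rfl
  have q6950 : Rl [t96, t96, t68, t97, t67, t69, t97, t67] := q6949.mv 2 rfl
  have q6951 : Rl [t68, t97, t67, t69, t97, t67] := q6950.del2
  have q6952 : Rl [t97, t68, t97, t67, t69, t67] := q6951.mv 4 rfl
  have q6953 : Rl [t97, t97, t68, t67, t69, t67] := q6952.mv 2 rfl
  have q6954 : Rl [t68, t67, t69, t67] := q6953.del2
  have q6955 : Rl [t67, t68, t67, t69] := q6954.mv 3 rfl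
  have q6956 : Rl [t67, t67, t68, t69] := q6955.mv 2 rfl
  have q6957 : Rl [t68, t69] := q6956.del2
  have e6958 := q6957.two
  have m6959 : t68 = t69 := e6958
  subst m6959
  have q6960 : Rl [t70, t105, t99, t71, t72, t105, t99, t71] := q6466.add q6486 (.cons (.cons c1603.symm (.cons c2084.symm (.cons c2086.symm (.cons c1597.symm .nil)))) (.cons (.cons c1796 (.cons (Commute.refl _) (.cons c1815.symm (.cons c1794 .nil)))) (.cons (.cons c1841 (.cons c1815 (.cons (Commute.refl _) (.cons c5254 .nil)))) (.cons (.cons c1607.symm (.cons c1794.symm (.cons c5254.symm (.cons (Commute.refl _) .nil)))) .nil))))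
  have q6961 : Rl [t105, t70, t105, t99, t71, t72, t99, t71] := q6960.mv 5 rfl
  have q6962 : Rl [t105, t105, t70, t99, t71, t72, t99, t71] := q6961.mv 2 rfl
  have q6963 : Rl [t70, t99, t71, t72, t99, t71] := q6962.del2
  have q6964 : Rl [t99, t70, t99, t71, t72, t71] := q6963.mv 4 rfl
  have q6965 : Rl [t99, t99, t70, t71, t72, t71] := q6964.mv 2 rfl
  have q6966 : Rl [t70, t71, t72, t71] := q6965.del2
  have q6967 : Rl [t71, t70, t71, t72] := q6966.mv 3 rfl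
  have q6968 : Rl [t71, t71, t70, t72] := q6967.mv 2 rfl
  have q6969 : Rl [t70, t72] := q6968.del2
  have e6970 := q6969.two
  have m6971 : t70 = t72 := e6970
  subst m6971
  have q6972 : Rl [t80, t88, t100, t117, t130, t80, t89, t104, t117, t130] := q5420.add q6489 (.cons (.cons (Commute.refl _) (.cons c5267 (.cons c5299.symm (.cons c4426.symm (.cons c3542.symm .nil))))) (.cons (.cons c5260.symm (.cons c1609.symm (.cons c5670.symm (.cons c5381 (.cons c4009.symm .nil))))) (.cons (.cons c5298 (.cons c2994 (.cons c1517.symm (.cons c4941 (.cons c4032.symm .nil))))) (.cons (.cons c4426 (.cons c3275.symm (.cons c4862.symm (.cons (Commute.refl _) (.cons c4647 .nil))))) (.cons (.cons c3542 (.cons c4012 (.cons c4036 (.cons c4647.symm (.cons (Commute.refl _) .nil))))) .nil)))))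
  have q6973 : Rl [t80, t80, t88, t100, t117, t130, t89, t104, t117, t130] := q6972.mv 5 rfl
  have q6974 : Rl [t80, t80, t88, t100, t117, t130, t89, t104, t117, t130] := q6973.mv 1 rfl
  have q6975 : Rl [t88, t100, t117, t130, t89, t104, t117, t130] := q6974.del2
  have q6976 : Rl [t117, t88, t100, t117, t130, t89, t104, t130] := q6975.mv 6 rfl
  have q6977 : Rl [t117, t117, t88, t100, t130, t89, t104, t130] := q6976.mv 3 rfl
  have q6978 : Rl [t88, t100, t130, t89, t104, t130] := q6977.del2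
  have q6979 : Rl [t130, t88, t100, t130, t89, t104] := q6978.mv 5 rfl
  have q6980 : Rl [t130, t130, t88, t100, t89, t104] := q6979.mv 3 rfl
  have q6981 : Rl [t88, t100, t89, t104] := q6980.del2
  have q6982 : Rl [t116, t136, t131, t117, t131, t136] := q6503.add q5436 (.cons (.cons c4479.symm (.cons c4861.symm (.cons c4653 .nil))) (.cons (.cons c4654.symm (.cons c4959 (.cons (Commute.refl _) .nil))) (.cons (.cons c5227.symm (.cons (Commute.refl _) (.cons c4959.symm .nil))) .nil)))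
  have q6983 : Rl [t136, t116, t136, t131, t117, t131] := q6982.mv 5 rfl
  have q6984 : Rl [t136, t136, t116, t131, t117, t131] := q6983.mv 2 rfl
  have q6985 : Rl [t116, t131, t117, t131] := q6984.del2
  have q6986 : Rl [t131, t116, t131, t117] := q6985.mv 3 rfl
  have q6987 : Rl [t131, t131, t116, t117] := q6986.mv 2 rfl
  have q6988 : Rl [t116, t117] := q6987.del2
  have e6989 := q6988.two
  have m6990 : t116 = t117 := e6989
  subst m6990
  have q6991 : Rl [t135, t122, t134, t134, t130, t135] := q6496.add q5455 (.cons (.cons c4139 (.cons c4877.symm (.cons (Commute.refl _) .nil))) (.cons (.cons c4713 (.cons c5290 (.cons c4717 .nil))) (.cons (.cons (Commute.refl _) (.cons c4956 (.cons c4139.symm .nil))) .nil)))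
  have q6992 : Rl [t135, t135, t122, t134, t134, t130] := q6991.mv 5 rfl
  have q6993 : Rl [t135, t135, t122, t134, t134, t130] := q6992.mv 1 rfl
  have q6994 : Rl [t122, t134, t134, t130] := q6993.del2
  have q6995 : Rl [t134, t122, t134, t130] := q6994.mv 2 rfl
  have q6996 : Rl [t134, t134, t122, t130] := q6995.mv 2 rfl
  have q6997 : Rl [t122, t130] := q6996.del2
  have e6998 := q6997.two
  have m6999 : t122 = t130 := e6998
  subst m6999
  have c7000 := Lco i66 i3 (LP1 H i3 i2 i49 hbc.symm b832 b826 (k_one i70 i2 c1766))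
  have c7001 := Lco i74 i2 (LP1 H i2 i3 i51 hbc (Lsw H i51 i2 b1888) b834 (k_one i68 i3 c1673))
  have b7035 := LP1 H i4 i24 i7 c172.symm b31 (Lsw H i7 i24 b855) (Lsw H i24 i15 b6162)
  have c7037 := LP3 H i41 i4 i5 c451 b3103 b7035
  have b7039 := LP1 H i4 i46 i5 c346.symm b9 (Lsw H i5 i46 b847) (Lsw H i46 i10 b4831)
  have b7040 := LP1 H i58 i4 i2 c545 (Lsw H i2 i58 b829) (Lsw H i2 i4 b5) b6715
  have c7045 := Lco i121 i4 (LP1 H i4 i70 i5 c1094.symm b9 (Lsw H i5 i70 b3238) (k_one i10 i70 c2188.symm))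
  have b7058 := LP1 H i24 i5 i6 c168 (Lsw H i6 i24 b5815) b33 b6782
  have b7066 := LP1 H i5 i56 i4 c425.symm (Lsw H i4 i5 b9) b3090 (Lsw H i56 i10 b6067)
  have c7082 := Lco i126 i6 (LP1 H i6 i8 i58 c25 b7040 b3243 (k_one i128 i8 c5784.symm))
  have b7083 := LP1 H i15 i6 i9 c66.symm b708 b97 (Lsw H i6 i58 b7040)
  have c7155 := Lco i73 i15 (LP1 H i15 i62 i3 c2233.symm (Lsw H i3 i15 b86) b2551 (k_one i23 i62 c6699.symm))
  have b7168 := LP1 H i18 i17 i3 c78.symm (Lsw H i3 i18 b89) (Lsw H i3 i17 b88) (Lsw H i17 i24 b7058)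
  have c7169 := Lco i25 i61 (LP1 H i61 i17 i3 c2097 b2550 (Lsw H i3 i17 b88) (k_one i70 i17 c6770))
  have c7170 := Lco i73 i17 (LP1 H i17 i62 i3 c700 (Lsw H i3 i17 b88) b2551 (k_one i25 i62 c6701.symm))
  have c7236 := Lco i66 i24 (LP1 H i24 i49 i2 c496 (Lsw H i2 i24 b299) (Lsw H i2 i49 b826) (k_one i36 i49 c6270.symm))
  have c7255 := Lco i66 i29 (LP1 H i29 i49 i2 c613 (Lsw H i2 i29 b301) (Lsw H i2 i49 b826) (k_one i38 i49 c6632))
  have c7319 := Lco i86 i57 (LP1 H i57 i45 i5 c5611 (Lsw H i5 i57 b851) (Lsw H i5 i45 b846) (k_one i91 i45 c6691.symm))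
  have c7338 := Lco i78 i59 (LP1 H i59 i50 i4 c6634 (Lsw H i4 i59 b844) (Lsw H i4 i50 b838) (k_one i76 i50 c6657.symm))
  have q7383 : Rl [t78, t86, 1, 1, 1, 1] := LJ H i4 i5 i19 b9 b308 b313 b838 b846 (k_one i19 i10 c150) (k_one i10 i45 c474) (k_one i10 i50 c506) (k_one i45 i50 c6681)
  have q7384 : Rl [1, t78, t86, 1, 1, 1] := q7383.mv 2 rfl
  have q7385 : Rl [t78, t86, 1, 1, 1] := q7384.del1
  have q7386 : Rl [1, t78, t86, 1, 1] := q7385.mv 2 rfl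
  have q7387 : Rl [t78, t86, 1, 1] := q7386.del1
  have q7388 : Rl [1, t78, t86, 1] := q7387.mv 2 rfl
  have q7389 : Rl [t78, t86, 1] := q7388.del1
  have q7390 : Rl [1, t78, t86] := q7389.mv 2 rfl
  have q7391 : Rl [t78, t86] := q7390.del1
  have e7392 := q7391.two
  have m7393 : t78 = t86 := e7392
  subst m7393
  have q7394 : Rl [t128, t108, t128, 1, 1, 1] := LJ H i4 i7 i34 b31 (Lsw H i34 i4 b795) (Lsw H i34 i7 b6008) (Lsw H i96 i4 b4613) b4544 b7083 (k_one i15 i46 c761) (k_one i15 i96 c2362.symm) (k_one i46 i96 c6303.symm)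
  have q7395 : Rl [1, t128, t108, t128, 1, 1] := q7394.mv 3 rfl
  have q7396 : Rl [t128, t108, t128, 1, 1] := q7395.del1
  have q7397 : Rl [1, t128, t108, t128, 1] := q7396.mv 3 rfl
  have q7398 : Rl [t128, t108, t128, 1] := q7397.del1
  have q7399 : Rl [1, t128, t108, t128] := q7398.mv 3 rfl
  have q7400 : Rl [t128, t108, t128] := q7399.del1
  have q7401 : Rl [t128, t128, t108] := q7400.mv 2 rfl
  have q7402 : Rl [t128, t128, t108] := q7401.mv 1 rfl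
  have q7403 : Rl [t108] := q7402.del2
  have e7404 := q7403.one
  have m7405 : 1 = t108 := e7404.symm
  subst m7405
  have c7406 := Lco i2 i87 b3225
  have q7408 : Rl [t121, t112, t121, 1, 1, 1] := LJ H i5 i8 i25 b34 b317 b1674 b3238 b4583 b7168 (k_one i18 i54 c773) (k_one i18 i70 c2735.symm) (k_one i54 i70 c6771.symm)
  have q7409 : Rl [1, t121, t112, t121, 1, 1] := q7408.mv 3 rfl
  have q7410 : Rl [t121, t112, t121, 1, 1] := q7409.del1
  have q7411 : Rl [1, t121, t112, t121, 1] := q7410.mv 3 rfl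
  have q7412 : Rl [t121, t112, t121, 1] := q7411.del1
  have q7413 : Rl [1, t121, t112, t121] := q7412.mv 3 rfl
  have q7414 : Rl [t121, t112, t121] := q7413.del1
  have q7415 : Rl [t121, t121, t112] := q7414.mv 2 rfl
  have q7416 : Rl [t121, t121, t112] := q7415.mv 1 rfl
  have q7417 : Rl [t112] := q7416.del2
  have e7418 := q7417.one
  have m7419 : 1 = t112 := e7418.symm
  subst m7419
  have c7420 := Lco i3 i82 b3229
  have q7509 : Rl [t92, t98, t120] := q6624.mv 2 rfl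
  have c7510 := q7509.l1 (.cons c1245 (.cons c3689 .nil))
  have q7511 : Rl [t92, t98, t120] := q6624.mv 2 rfl
  have q7512 : Rl [t98, t92, t120] := q7511.mv 1 rfl
  have b7513 := Rl.l2 H i98 i92 i4 q7512 (.cons c4622 .nil) b5817
  have b7578 := LP1 H i41 i4 i5 c451 b3103 b9 b7035
  have b7589 := LP1 H i20 i5 i8 c155 b1722 b34 b7066
  have b7594 := LP1 H i27 i10 i3 c197.symm (Lsw H i3 i27 b304) (Lsw H i3 i10 b30) (Lsw H i10 i41 b7578)
  have b7616 := LP1 H i17 i18 i2 c78 b234 (Lsw H i2 i18 b85) (Lsw H i18 i20 b7589)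
  have q7701 : Rl [t18, t14, t16, t24, t29, t32] := q264.mv 2 rfl
  have q7702 : Rl [t14, t18, t16, t24, t29, t32] := q7701.mv 1 rfl
  have b7703 := Rl.l2 H i14 i18 i27 q7702 (.cons c216 (.cons c2501.symm (.cons c285.symm (.cons c2228 .nil)))) b7594
  have q7704 : Rl [t35, t22, t30, t56, t52, t99] := q1869.mv 2 rfl
  have q7705 : Rl [t22, t35, t30, t56, t52, t99] := q7704.mv 1 rfl
  have b7706 := Rl.l2 H i22 i35 i17 q7705 (.cons c201.symm (.cons c2147.symm (.cons c766.symm (.cons c2619 .nil)))) b7616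
  have b7769 := LP1 H i7 i17 i8 c64 b98 (Lsw H i8 i17 b323) b7706
  have b7770 := LP1 H i8 i27 i5 c177 (Lsw H i5 i8 b34) b686 b7703
  have q7818 : Rl [t120, t123, t120, 1, 1, 1] := LJ H i5 i6 i35 b33 (Lsw H i35 i5 b797) b854 (Lsw H i94 i5 b7066) b3240 b7706 (k_one i17 i52 c766) (k_one i17 i94 c3118.symm) (k_one i52 i94 c1762.symm)
  have q7819 : Rl [1, t120, t123, t120, 1, 1] := q7818.mv 3 rfl
  have q7820 : Rl [t120, t123, t120, 1, 1] := q7819.del1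
  have q7821 : Rl [1, t120, t123, t120, 1] := q7820.mv 3 rfl
  have q7822 : Rl [t120, t123, t120, 1] := q7821.del1
  have q7823 : Rl [1, t120, t123, t120] := q7822.mv 3 rfl
  have q7824 : Rl [t120, t123, t120] := q7823.del1
  have q7825 : Rl [t120, t120, t123] := q7824.mv 2 rfl
  have q7826 : Rl [t120, t120, t123] := q7825.mv 1 rfl
  have q7827 : Rl [t123] := q7826.del2
  have e7828 := q7827.one
  have m7829 : 1 = t123 := e7828.symm
  subst m7829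
  have c7830 := Lco i80 i2 b4545
  have q7846 : Rl [t57, t43, t62, t73, t134] := q5417.mv 1 rfl
  have q7847 : Rl [t62, t57, t43, t73, t134] := q7846.mv 2 rfl
  have b7848 := Rl.l2 H i62 i57 i8 q7847 (.cons c499.symm (.cons c2584.symm (.cons c4784 .nil))) b7770
  have b7860 := LP1 H i4 i62 i3 c507.symm (Lsw H i3 i4 b7) b2551 (Lsw H i62 i8 b7770)
  have b7863 := LP1 H i14 i8 i7 c73.symm (Lsw H i7 i14 b320) (Lsw H i7 i8 b98) b7848
  have q7878 : Rl [t73, t43, t57, t62, t134] := q5417.mv 3 rfl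
  have q7879 : Rl [t57, t73, t43, t62, t134] := q7878.mv 2 rfl
  have q7880 : Rl [t43, t57, t73, t62, t134] := q7879.mv 2 rfl
  have q7881 : Rl [t77, t83, t126, 1] := Rl.l3 H i43 i57 i73 i4 q7880 (.cons c507 (.cons c5813 .nil)) (Lsw H i4 i43 b837) (Lsw H i4 i57 b843) b7860 (k_one i77 i57 c5634.symm)
  have q7882 : Rl [1, t77, t83, t126] := q7881.mv 3 rfl
  have q7883 : Rl [t77, t83, t126] := q7882.del1
  have q7907 : Rl [t83, t77, t126] := q7883.mv 1 rfl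
  have c7908 := q7907.l1 (.cons c1171 (.cons c5771 .nil))
  have q7909 : Rl [t83, t77, t126] := q7883.mv 1 rfl
  have q7910 : Rl [t77, t83, t126] := q7909.mv 1 rfl
  have b7911 := Rl.l2 H i77 i83 i5 q7910 (.cons c7037 .nil) b5907
  have q7912 : Rl [t83, t77, t126] := q7883.mv 1 rfl
  have c7913 := q7912.l1 (.cons c1061.symm (.cons c7082 .nil))
  obtain ⟨t137, b7945⟩ : ∃ t, k t14 t48 = t := ⟨_, rfl⟩
  have i137 := Linv H i14 i48 b7945
  have q8027 : Rl [t18, t14, t16, t24, t29, t32] := q264.mv 2 rfl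
  have q8028 : Rl [t14, t18, t16, t24, t29, t32] := q8027.mv 1 rfl
  have b8029 := Rl.l2 H i14 i18 i48 q8028 (.cons c767 (.cons c495 (.cons c610 (.cons c6025.symm .nil)))) b7945
  have q8032 : Rl [t48, t23, t27, t35, t41, t97] := q1870.mv 4 rfl
  have q8033 : Rl [t35, t48, t23, t27, t41, t97] := q8032.mv 3 rfl
  have q8034 : Rl [t27, t35, t48, t23, t41, t97] := q8033.mv 3 rfl
  have q8035 : Rl [t126, t126, t137, 1] := Rl.l3 H i27 i35 i48 i14 q8034 (.cons c222.symm (.cons c582.symm (.cons c2482.symm .nil))) (Lsw H i14 i27 b7594) b7863 (Lsw H i14 i48 b7945) (k_one i126 i35 c3793.symm)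
  have q8036 : Rl [1, t126, t126, t137] := q8035.mv 3 rfl
  have q8037 : Rl [t126, t126, t137] := q8036.del1
  have q8038 : Rl [t126, t126, t137] := q8037.mv 1 rfl
  have q8039 : Rl [t126, t126, t137] := q8038.mv 1 rfl
  have q8040 : Rl [t137] := q8039.del2
  have e8041 := q8040.one
  have m8042 : 1 = t137 := e8041.symm
  subst m8042
  have c8043 := Lco i14 i48 b7945
  have c8044 := Lco i18 i48 b8029
  have c8047 := Lco i116 i3 (LP1 H i3 i48 i10 c482.symm b30 b4603 (k_one i14 i48 c8043))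
  have c8057 := Lco i29 i35 (LP1 H i35 i18 i4 c191.symm b796 b298 (k_one i48 i18 c8044.symm))
  have c8064 := q1869.l1 (.cons c2251.symm (.cons c8057.symm (.cons c3030 (.cons c2732 (.cons c1406.symm .nil)))))
  have q8067 : Rl [t136, t116, t131] := q6503.mv 1 rfl
  have c8068 := q8067.l1 (.cons c8047 (.cons c4580 .nil))
  have c8075 := Lco i25 i29 (LP1 H i29 i3 i17 c184 (Lsw H i17 i29 b4663) b88 (k_one i136 i3 c8068))
  have c8076 := Lco i9 i76 (LP1 H i76 i3 i5 c1165 b4662 b8 (k_one i136 i3 c8068))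
  have c8081 := Lco i98 i8 (LP1 H i8 i29 i7 c178 (Lsw H i7 i8 b98) (Lsw H i7 i29 b858) (k_one i35 i29 c8057.symm))
  have c8082 := Lco i18 i38 (LP1 H i38 i8 i5 c2293 b1711 (Lsw H i5 i8 b34) (k_one i98 i8 c8081))
  have c8086 := Lco i49 i14 (LP1 H i14 i25 i4 c225 (Lsw H i4 i14 b92) (Lsw H i4 i25 b312) (k_one i29 i25 c8075.symm))
  have q8098 : Rl [t59, t38, t61, t64, t131] := q5413.mv 1 rfl
  have c8099 := q8098.l1 (.cons c8082.symm (.cons c2314 (.cons c6219 (.cons c5682 .nil))))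
  have c8119 := Lco i38 i25 (LP1 H i25 i29 i2 c8075 b658 (Lsw H i2 i29 b301) (k_one i40 i29 c3085.symm))
  have q8123 : Rl [t92, t77, t100, t122, 1, 1] := LJ H i5 i8 i13 b34 b94 b322 b852 b1696 b1789 (Lsw H i31 i18 b4659) (k_one i18 i59 c8099.symm) (k_one i31 i59 c6125.symm)
  have q8124 : Rl [1, t92, t77, t100, t122, 1] := q8123.mv 4 rfl
  have q8125 : Rl [t92, t77, t100, t122, 1] := q8124.del1
  have q8126 : Rl [1, t92, t77, t100, t122] := q8125.mv 4 rfl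
  have q8127 : Rl [t92, t77, t100, t122] := q8126.del1
  have q8128 : Rl [t59, t38, t61, t64, t131] := q5413.mv 1 rfl
  have c8129 := q8128.l1 (.cons c8119 (.cons c7169.symm (.cons c2554 (.cons c5802 .nil))))
  have q8132 : Rl [t45, t42, t59, t70, t76] := q2142.mv 1 rfl
  have c8133 := q8132.l1 (.cons c629.symm (.cons c8129 (.cons c2329.symm (.cons c1910 .nil))))
  have q8138 : Rl [t122, t92, t77, t100] := q8127.mv 3 rfl
  have c8139 := q8138.l1 (.cons c7510 (.cons c6531.symm (.cons c1384 .nil)))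
  have c8152 := q6496.l1 (.cons c8139 (.cons c3968 .nil))
  have c8156 := Lco i7 i77 (LP1 H i77 i2 i5 c6531.symm b5907 b6 (k_one i122 i2 c8139))
  have c8169 := Lco i35 i31 (LP1 H i31 i7 i8 c166.symm (Lsw H i8 i31 b1696) b98 (k_one i77 i7 c8156.symm))
  have c8172 := Lco i15 i43 (LP1 H i43 i7 i4 c1970 (Lsw H i4 i43 b837) (Lsw H i4 i7 b31) (k_one i77 i7 c8156.symm))
  have c8176 := Lco i23 i31 (LP1 H i31 i15 i3 c262.symm (Lsw H i3 i31 b306) (Lsw H i3 i15 b86) (k_one i43 i15 c8172.symm))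
  have c8178 := Lco i49 i19 (LP1 H i19 i25 i4 c288 (Lsw H i4 i19 b308) (Lsw H i4 i25 b312) (k_one i45 i25 c8133))
  have q8189 : Rl [t98, t77, t104, 1, 1, 1] := LJ H i7 i8 i10 b98 b248 b245 b858 b1696 b864 (k_one i35 i31 c8169) (k_one i35 i29 c8057.symm) (k_one i31 i29 c4664)
  have q8190 : Rl [1, t98, t77, t104, 1, 1] := q8189.mv 3 rfl
  have q8191 : Rl [t98, t77, t104, 1, 1] := q8190.del1
  have q8192 : Rl [1, t98, t77, t104, 1] := q8191.mv 3 rfl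
  have q8193 : Rl [t98, t77, t104, 1] := q8192.del1
  have q8194 : Rl [1, t98, t77, t104] := q8193.mv 3 rfl
  have q8195 : Rl [t98, t77, t104] := q8194.del1
  have q8200 : Rl [t57, t43, t62, t73, t134] := q5417.mv 1 rfl
  have c8201 := q8200.l1 (.cons c8172.symm (.cons c2233 (.cons c7155 (.cons c6017 .nil))))
  have q8212 : Rl [t104, t98, t77] := q8195.mv 2 rfl
  have c8213 := q8212.l1 (.cons c1245 (.cons c6531.symm .nil))
  have q8222 : Rl [t116, t80, t89, t104, t122] := q6489.mv 3 rfl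
  have c8223 := q8222.l1 (.cons c7830 (.cons c5409.symm (.cons c8213 (.cons c8139 .nil))))
  have c8225 := q6981.l1 (.cons c1384 (.cons c5409.symm (.cons c8213 .nil)))
  have q8227 : Rl [t136, t116, t131] := q6503.mv 1 rfl
  have c8228 := q8227.l1 (.cons c8223 (.cons c4542 .nil))
  have c8233 := Lco i6 i85 (LP1 H i85 i2 i4 c6516 (Lsw H i4 i85 b3233) b5 (k_one i116 i2 c8223))
  have c8234 := Lco i6 i87 (LP1 H i87 i2 i4 c7406.symm b7039 b5 (k_one i116 i2 c8223))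
  have c8258 := Lco i34 i28 (LP1 H i28 i6 i9 c165.symm (Lsw H i9 i28 b1709) b97 (k_one i85 i6 c8233.symm))
  have c8261 := Lco i17 i42 (LP1 H i42 i6 i5 c1950 (Lsw H i5 i42 b845) (Lsw H i5 i6 b33) (k_one i85 i6 c8233.symm))
  have c8262 := Lco i17 i46 (LP1 H i46 i6 i5 c434.symm (Lsw H i5 i46 b847) (Lsw H i5 i6 b33) (k_one i87 i6 c8234.symm))
  have c8274 := Lck c751 c8262.symm b688
  have c8280 := Lco i66 i14 (LP1 H i14 i49 i2 c8086.symm (Lsw H i2 i14 b82) (Lsw H i2 i49 b826) (k_one i19 i49 c8178.symm))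
  have c8285 := Lco i25 i28 (LP1 H i28 i17 i3 c250.symm (Lsw H i3 i28 b305) (Lsw H i3 i17 b88) (k_one i42 i17 c8261.symm))
  have q8295 : Rl [t42, t49, t60, t70, t76, 1] := LJ H i3 i4 i17 b7 b88 (Lsw H i17 i4 b295) b305 b312 (Lsw H i8 i17 b323) b1674 (Lsw H i28 i8 b1690) (k_one i25 i28 c8285)
  have q8296 : Rl [1, t42, t49, t60, t70, t76] := q8295.mv 5 rfl
  have q8297 : Rl [t42, t49, t60, t70, t76] := q8296.del1
  have q8298 : Rl [t82, t87, t103, t116, t122, 1] := LJ H i4 i5 i34 b9 (Lsw H i34 i4 b795) (Lsw H i34 i5 b798) b842 b847 (Lsw H i10 i34 b863) (Lsw H i46 i10 b4831) b4669 (k_one i46 i54 c8274)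
  have q8299 : Rl [1, t82, t87, t103, t116, t122] := q8298.mv 5 rfl
  have q8300 : Rl [t82, t87, t103, t116, t122] := q8299.del1
  have q8301 : Rl [t83, t98, t101, t116, 1, 1] := LJ H i4 i7 i14 b31 b92 b320 b843 b858 b1785 (Lsw H i29 i15 b4606) (k_one i15 i57 c8201.symm) (k_one i29 i57 c5601.symm)
  have q8302 : Rl [1, t83, t98, t101, t116, 1] := q8301.mv 4 rfl
  have q8303 : Rl [t83, t98, t101, t116, 1] := q8302.del1
  have q8304 : Rl [1, t83, t98, t101, t116] := q8303.mv 4 rfl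
  have q8305 : Rl [t83, t98, t101, t116] := q8304.del1
  have q8330 : Rl [t60, t42, t49, t70, t76] := q8297.mv 2 rfl
  have q8331 : Rl [t49, t60, t42, t70, t76] := q8330.mv 2 rfl
  have b8332 := Rl.l2 H i49 i60 i2 q8331 (.cons c414.symm (.cons c1766 (.cons c2170 .nil))) (Lsw H i2 i49 b826)
  have q8333 : Rl [t49, t42, t60, t70, t76] := q8297.mv 1 rfl
  have c8334 := q8333.l1 (.cons c1950 (.cons c535.symm (.cons c1291 (.cons c1058.symm .nil))))
  have q8335 : Rl [t49, t42, t60, t70, t76] := q8297.mv 1 rfl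
  have q8336 : Rl [t60, t49, t42, t70, t76] := q8335.mv 2 rfl
  have b8337 := Rl.l2 H i60 i49 i9 q8336 (.cons c529.symm (.cons c2303 (.cons c8076.symm .nil))) (Lsw H i9 i60 b4671)
  have q8380 : Rl [t122, t82, t87, t103, t116] := q8300.mv 4 rfl
  have q8381 : Rl [t103, t122, t82, t87, t116] := q8380.mv 3 rfl
  have b8382 := Rl.l2 H i103 i122 i3 q8381 (.cons c7420.symm (.cons c6480.symm (.cons c8047 .nil))) (Lsw H i3 i103 b3232)
  have q8405 : Rl [t101, t83, t98, t116] := q8305.mv 2 rfl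
  have b8406 := Rl.l2 H i101 i83 i2 q8405 (.cons c1245 (.cons c8223 .nil)) (Lsw H i2 i101 b3227)
  have q8407 : Rl [t98, t83, t101, t116] := q8305.mv 1 rfl
  have c8408 := q8407.l1 (.cons c7908 (.cons c1375 (.cons c8047 .nil)))
  have q8409 : Rl [t101, t83, t98, t116] := q8305.mv 2 rfl
  have q8410 : Rl [t83, t101, t98, t116] := q8409.mv 1 rfl
  have b8411 := Rl.l2 H i83 i101 i5 q8410 (.cons c1214.symm (.cons c5823 .nil)) b7911
  have q8434 : Rl [t122, t135, t134] := q6496.mv 1 rfl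
  have b8435 := Rl.l2 H i122 i135 i3 q8434 (.cons c4578 .nil) b8382
  have q8436 : Rl [t42, t45, t59, t70, t76, t42, t49, t60, t70, t76] := q2142.add q8297 (.cons (.cons (Commute.refl _) (.cons c2116 (.cons c2420.symm (.cons c1557.symm (.cons c894 .nil))))) (.cons (.cons c2103.symm (.cons c641.symm (.cons c2874.symm (.cons c882 (.cons c1500.symm .nil))))) (.cons (.cons c2143 (.cons c2870.symm (.cons c597.symm (.cons c1807.symm (.cons c910 .nil))))) (.cons (.cons c1557 (.cons c2591.symm (.cons c2818.symm (.cons (Commute.refl _) (.cons c1678 .nil))))) (.cons (.cons c894.symm (.cons c1538 (.cons c1732.symm (.cons c1678.symm (.cons (Commute.refl _) .nil))))) .nil)))))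
  have q8437 : Rl [t42, t42, t45, t59, t70, t76, t49, t60, t70, t76] := q8436.mv 5 rfl
  have q8438 : Rl [t42, t42, t45, t59, t70, t76, t49, t60, t70, t76] := q8437.mv 1 rfl
  have q8439 : Rl [t45, t59, t70, t76, t49, t60, t70, t76] := q8438.del2
  have q8440 : Rl [t70, t45, t59, t70, t76, t49, t60, t76] := q8439.mv 6 rfl
  have q8441 : Rl [t70, t70, t45, t59, t76, t49, t60, t76] := q8440.mv 3 rfl
  have q8442 : Rl [t45, t59, t76, t49, t60, t76] := q8441.del2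
  have q8443 : Rl [t76, t45, t59, t76, t49, t60] := q8442.mv 5 rfl
  have q8444 : Rl [t76, t76, t45, t59, t49, t60] := q8443.mv 3 rfl
  have q8445 : Rl [t45, t59, t49, t60] := q8444.del2
  have c8447 := LP3 H i6 i2 i18 c10 (Lsw H i18 i6 b698) b8332
  have b8470 := LP1 H i82 i3 i5 c7420.symm (Lsw H i5 i82 b3239) b8 b8382
  have b8476 := LP1 H i102 i3 i5 c1381 b5898 b8 b8382
  have c8478 := Lco i66 i4 (LP1 H i4 i49 i2 c352.symm (Lsw H i2 i4 b5) (Lsw H i2 i49 b826) (k_one i6 i49 c8334.symm))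
  have c8479 := Lco i110 i4 (LP1 H i4 i83 i2 c907.symm (Lsw H i2 i4 b5) b8406 (k_one i6 i83 c7913.symm))
  have b8481 := LP1 H i10 i5 i23 c19 b861 b316 b8411
  have b8485 := LP1 H i5 i53 i4 c360.symm (Lsw H i4 i5 b9) (Lsw H i4 i53 b841) (Lsw H i53 i10 b8481)
  have b8487 := LP1 H i5 i60 i2 c533.symm (Lsw H i2 i5 b6) b8332 (Lsw H i60 i7 b7769)
  have b8501 := LP1 H i25 i9 i4 c198.symm (Lsw H i4 i25 b312) (Lsw H i4 i9 b32) b8337
  have b8502 := LP1 H i25 i9 i10 c198.symm (Lsw H i10 i25 b862) b249 (Lsw H i9 i102 b8476)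
  have b8503 := LP1 H i54 i9 i4 c464.symm (Lsw H i4 i54 b842) (Lsw H i4 i9 b32) (Lsw H i9 i82 b8470)
  have c8511 := Lco i32 i66 (LP1 H i66 i14 i5 c8280 b8487 (Lsw H i5 i14 b95) (k_one i120 i14 c5467.symm))
  have b8517 := LP1 H i34 i16 i5 c181.symm b798 b282 (Lsw H i16 i54 b8503)
  have q8563 : Rl [t81, t89, t101, t116, t122, 1] := LJ H i4 i5 i23 b9 b311 b316 b841 b849 (Lsw H i10 i23 b861) (Lsw H i48 i10 b4603) (Lsw H i53 i10 b8481) (k_one i48 i53 c5099.symm)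
  have q8564 : Rl [1, t81, t89, t101, t116, t122] := q8563.mv 5 rfl
  have q8565 : Rl [t81, t89, t101, t116, t122] := q8564.del1
  have q8566 : Rl [t93, t85, t103, 1, t115, 1] := LJ H i6 i9 i10 b97 b244 b249 b853 b1709 b863 (k_one i34 i28 c8258) (Lsw H i32 i34 b8517) (k_one i28 i32 c5819)
  have q8567 : Rl [1, t93, t85, t103, t115, 1] := q8566.mv 3 rfl
  have q8568 : Rl [t93, t85, t103, t115, 1] := q8567.del1
  have q8569 : Rl [1, t93, t85, t103, t115] := q8568.mv 4 rfl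
  have q8570 : Rl [t93, t85, t103, t115] := q8569.del1
  have q8571 : Rl [t32, t14, t16, t18, t24, t29] := q264.mv 5 rfl
  have q8572 : Rl [t18, t32, t14, t16, t24, t29] := q8571.mv 3 rfl
  have q8573 : Rl [t16, t18, t32, t14, t24, t29] := q8572.mv 3 rfl
  have q8574 : Rl [t121, t121, t115, 1] := Rl.l3 H i16 i18 i32 i25 q8573 (.cons c225 (.cons c232.symm (.cons c8075.symm .nil))) b8501 (Lsw H i25 i18 b7168) b8502 (k_one i121 i18 c3865.symm)
  have q8575 : Rl [1, t121, t121, t115] := q8574.mv 3 rfl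
  have q8576 : Rl [t121, t121, t115] := q8575.del1
  have q8577 : Rl [t121, t121, t115] := q8576.mv 1 rfl
  have q8578 : Rl [t121, t121, t115] := q8577.mv 1 rfl
  have q8579 : Rl [t115] := q8578.del2
  have e8580 := q8579.one
  have m8581 : 1 = t115 := e8580.symm
  subst m8581
  have c8582 := Lco i3 i103 b3232
  have c8583 := Lco i122 i3 b8382
  have c8584 := Lco i135 i3 b8435
  have c8594 := Lco i32 i34 b8517
  have q8601 : Rl [t16, t14, t18, t24, t29, t32] := q264.mv 1 rfl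
  have c8602 := q8601.l1 (.cons c8280.symm (.cons c8447.symm (.cons c7236.symm (.cons c7255.symm (.cons c8511 .nil)))))
  have q8611 : Rl [t49, t45, t59, t60] := q8445.mv 2 rfl
  have q8612 : Rl [t59, t49, t45, t60] := q8611.mv 2 rfl
  have q8613 : Rl [t45, t59, t49, t60] := q8612.mv 2 rfl
  have q8614 : Rl [t78, t92, t90, 1] := Rl.l3 H i45 i59 i49 i5 q8613 (.cons c533 .nil) (Lsw H i5 i45 b846) (Lsw H i5 i59 b852) (Lsw H i5 i49 b850) (k_one i78 i59 c7338)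
  have q8615 : Rl [1, t78, t92, t90] := q8614.mv 3 rfl
  have q8616 : Rl [t78, t92, t90] := q8615.del1
  have q8617 : Rl [t126, t77, t83] := q7883.mv 2 rfl
  have q8618 : Rl [t83, t126, t77] := q8617.mv 2 rfl
  have b8619 := Rl.l2 H i83 i126 i2 q8618 (.cons c6531.symm .nil) b8406
  have q8623 : Rl [t104, t98, t77] := q8195.mv 2 rfl
  have c8624 := q8623.l1 (.cons c8408 (.cons c1171 .nil))
  have c8629 := q6489.l1 (.cons c6546.symm (.cons c8624 (.cons c8047 (.cons c8583 .nil))))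
  have q8631 : Rl [t101, t81, t89, t116, t122] := q8565.mv 2 rfl
  have b8632 := Rl.l2 H i101 i81 i2 q8631 (.cons c5409.symm (.cons c8223 (.cons c8139 .nil))) (Lsw H i2 i101 b3227)
  have c8633 := q8565.l1 (.cons c6546.symm (.cons c1375 (.cons c8047 (.cons c8583 .nil))))
  have q8656 : Rl [1, t93, t85, t103] := q8570.mv 3 rfl
  have q8657 : Rl [t93, t85, t103] := q8656.del1
  have b8668 := LP1 H i6 i2 i18 c10 (Lsw H i18 i6 b698) b85 b8332
  have b8669 := LP1 H i2 i22 i4 c105.symm b5 (Lsw H i4 i22 b310) (Lsw H i22 i6 b8668)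
  have b8670 := LP1 H i73 i2 i4 c1777 b7860 b5 b8619
  have b8671 := LP1 H i95 i2 i4 c1232 b7035 b5 b8619
  have c8689 := Lco i110 i5 (LP1 H i5 i73 i6 c1095.symm b33 (Lsw H i6 i73 b8670) (k_one i17 i73 c7170.symm))
  have b8690 := LP1 H i36 i6 i5 c492.symm b1708 (Lsw H i5 i6 b33) (Lsw H i6 i95 b8671)
  have c8694 := Lco i93 i9 (LP1 H i9 i32 i6 c179 (Lsw H i6 i9 b97) (Lsw H i6 i32 b853) (k_one i34 i32 c8594.symm))
  have c8695 := Lco i16 i39 (LP1 H i39 i9 i4 c2196.symm b1697 (Lsw H i4 i9 b32) (k_one i93 i9 c8694))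
  have c8704 := Lco i21 i32 (LP1 H i32 i16 i2 c266.symm (Lsw H i2 i32 b302) (Lsw H i2 i16 b84) (k_one i39 i16 c8695.symm))
  have q8719 : Rl [t38, t47, t60, t66, t76, 1] := LJ H i2 i4 i18 b5 b85 (Lsw H i18 i4 b298) b301 b310 b698 (Lsw H i22 i6 b8668) (Lsw H i29 i6 b1944) (k_one i22 i29 c8064)
  have q8720 : Rl [1, t38, t47, t60, t66, t76] := q8719.mv 5 rfl
  have q8721 : Rl [t38, t47, t60, t66, t76] := q8720.del1
  have q8722 : Rl [t39, t51, t58, t68, t91, 1] := LJ H i2 i5 i16 b6 b84 (Lsw H i16 i5 b282) b302 b314 (Lsw H i7 i16 b321) (Lsw H i21 i7 b1633) (Lsw H i32 i7 b1702) (k_one i21 i32 c8704)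
  have q8723 : Rl [1, t39, t51, t58, t68, t91] := q8722.mv 5 rfl
  have q8724 : Rl [t39, t51, t58, t68, t91] := q8723.del1
  have q8725 : Rl [t15, t13, t17, t20, t28, t31] := q260.mv 1 rfl
  have q8726 : Rl [t17, t15, t13, t20, t28, t31] := q8725.mv 2 rfl
  have b8727 := Rl.l2 H i17 i15 i36 q8726 (.cons c580 (.cons c701.symm (.cons c6127 (.cons c3081 .nil)))) b8690
  have q8740 : Rl [t47, t38, t60, t66, t76] := q8721.mv 1 rfl
  have q8741 : Rl [t60, t47, t38, t66, t76] := q8740.mv 2 rfl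
  have b8742 := Rl.l2 H i60 i47 i3 q8741 (.cons c415.symm (.cons c7000 (.cons c1165 .nil))) b2187
  have q8763 : Rl [t58, t39, t51, t68, t91] := q8724.mv 2 rfl
  have q8764 : Rl [t51, t58, t39, t68, t91] := q8763.mv 2 rfl
  have b8765 := Rl.l2 H i51 i58 i3 q8764 (.cons c417.symm (.cons c1673 (.cons c1938 .nil))) (Lsw H i3 i51 b834)
  have q8766 : Rl [t51, t39, t58, t68, t91] := q8724.mv 1 rfl
  have c8767 := q8766.l1 (.cons c2196.symm (.cons c547.symm (.cons c1371 (.cons c1218.symm .nil))))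
  have q8798 : Rl [t90, t78, t92] := q8616.mv 2 rfl
  have q8799 : Rl [t92, t90, t78] := q8798.mv 2 rfl
  have b8800 := Rl.l2 H i92 i90 i4 q8799 (.cons c897 .nil) b7513
  have q8812 : Rl [t103, t93, t85] := q8657.mv 2 rfl
  have c8813 := q8812.l1 (.cons c1178 (.cons c6516 .nil))
  have c8814 := q8657.l1 (.cons c1238 (.cons c8582.symm .nil))
  have q8820 : Rl [t39, t50, t57, t68, t91, t39, t51, t58, t68, t91] := q2472.add q8724 (.cons (.cons (Commute.refl _) (.cons c2108 (.cons c1853.symm (.cons c1577.symm (.cons c1855 .nil))))) (.cons (.cons c2102.symm (.cons c636.symm (.cons c2858.symm (.cons c1704.symm (.cons c1506.symm .nil))))) (.cons (.cons c1852 (.cons c2517.symm (.cons c607.symm (.cons c878 (.cons c924 .nil))))) (.cons (.cons c1577 (.cons c2259.symm (.cons c2657.symm (.cons (Commute.refl _) (.cons c1867.symm .nil))))) (.cons (.cons c1855.symm (.cons c1942.symm (.cons c1761.symm (.cons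 c1867 (.cons (Commute.refl _) .nil))))) .nil)))))
  have q8821 : Rl [t39, t39, t50, t57, t68, t91, t51, t58, t68, t91] := q8820.mv 5 rfl
  have q8822 : Rl [t39, t39, t50, t57, t68, t91, t51, t58, t68, t91] := q8821.mv 1 rfl
  have q8823 : Rl [t50, t57, t68, t91, t51, t58, t68, t91] := q8822.del2
  have q8824 : Rl [t68, t50, t57, t68, t91, t51, t58, t91] := q8823.mv 6 rfl
  have q8825 : Rl [t68, t68, t50, t57, t91, t51, t58, t91] := q8824.mv 3 rfl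
  have q8826 : Rl [t50, t57, t91, t51, t58, t91] := q8825.del2
  have q8827 : Rl [t91, t50, t57, t91, t51, t58] := q8826.mv 5 rfl
  have q8828 : Rl [t91, t91, t50, t57, t51, t58] := q8827.mv 3 rfl
  have q8829 : Rl [t50, t57, t51, t58] := q8828.del2
  have b8844 := LP1 H i49 i4 i5 c352 (Lsw H i5 i49 b850) b9 b8800
  have b8845 := LP1 H i4 i58 i3 c545.symm (Lsw H i3 i4 b7) b8765 b3243
  have c8846 := Lco i74 i5 (LP1 H i5 i51 i3 c356.symm (Lsw H i3 i5 b8) (Lsw H i3 i51 b834) (k_one i9 i51 c8767.symm))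
  have b8849 := LP1 H i7 i36 i4 c524 (Lsw H i4 i7 b31) b5490 b8727
  have q8879 : Rl [t82, t90, t102, t116, t122, 1] := LJ H i4 i5 i25 b9 b312 b317 b842 b850 (Lsw H i10 i25 b862) b8844 b4669 (k_one i49 i54 c5112)
  have q8880 : Rl [1, t82, t90, t102, t116, t122] := q8879.mv 5 rfl
  have q8881 : Rl [t82, t90, t102, t116, t122] := q8880.del1
  have q8888 : Rl [t51, t50, t57, t58] := q8829.mv 2 rfl
  have q8889 : Rl [t57, t51, t50, t58] := q8888.mv 2 rfl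
  have q8890 : Rl [t50, t57, t51, t58] := q8889.mv 2 rfl
  have q8891 : Rl [t78, t83, t79, 1] := Rl.l3 H i50 i57 i51 i4 q8890 (.cons c545 .nil) (Lsw H i4 i50 b838) (Lsw H i4 i57 b843) (Lsw H i4 i51 b839) (k_one i78 i57 c7319)
  have q8892 : Rl [1, t78, t83, t79] := q8891.mv 3 rfl
  have q8893 : Rl [t78, t83, t79] := q8892.del1
  have q8894 : Rl [t105, t70, t99, t71] := q6466.mv 1 rfl
  have b8895 := Rl.l2 H i105 i70 i7 q8894 (.cons c1745 (.cons c4761 .nil)) b8849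
  have c8902 := q8300.l1 (.cons c7406.symm (.cons c8813 (.cons c8223 (.cons c8139 .nil))))
  have q8904 : Rl [t90, t82, t102, t116, t122] := q8881.mv 1 rfl
  have c8905 := q8904.l1 (.cons c7420.symm (.cons c1381 (.cons c8047 (.cons c8583 .nil))))
  have b8923 := LP1 H i2 i70 i5 c1766.symm b6 (Lsw H i5 i70 b3238) (Lsw H i70 i7 b8895)
  have b8926 := LP1 H i9 i3 i15 c16 (Lsw H i15 i9 b708) b86 b8765
  have b8928 := LP1 H i3 i23 i5 c107.symm b8 (Lsw H i5 i23 b316) (Lsw H i23 i9 b8926)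
  have q8944 : Rl [t43, t53, t58, t74, t91, 1] := LJ H i3 i5 i15 b8 b86 (Lsw H i15 i5 b281) b306 b316 b708 (Lsw H i23 i9 b8926) (Lsw H i31 i9 b1932) (k_one i23 i31 c8176)
  have q8945 : Rl [1, t43, t53, t58, t74, t91] := q8944.mv 5 rfl
  have q8946 : Rl [t43, t53, t58, t74, t91] := q8945.del1
  have q8949 : Rl [t53, t43, t58, t74, t91] := q8946.mv 1 rfl
  have q8950 : Rl [t58, t53, t43, t74, t91] := q8949.mv 2 rfl
  have b8951 := Rl.l2 H i58 i53 i2 q8950 (.cons c416.symm (.cons c7001 (.cons c1713 .nil))) (Lsw H i2 i58 b829)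
  have q8962 : Rl [t79, t78, t83] := q8893.mv 2 rfl
  have b8963 := Rl.l2 H i79 i78 i3 q8962 (.cons c7908 .nil) (Lsw H i3 i79 b3228)
  have q8964 : Rl [t79, t78, t83] := q8893.mv 2 rfl
  have q8965 : Rl [t83, t79, t78] := q8964.mv 2 rfl
  have b8966 := Rl.l2 H i83 i79 i5 q8965 (.cons c1258 .nil) b7911
  have q8974 : Rl [t92, t78, t90] := q8616.mv 1 rfl
  have q8975 : Rl [t78, t92, t90] := q8974.mv 1 rfl
  have b8976 := Rl.l2 H i78 i92 i3 q8975 (.cons c8905 .nil) b8963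
  have q8977 : Rl [t120, t98, t92] := q6624.mv 1 rfl
  have q8978 : Rl [t92, t120, t98] := q8977.mv 2 rfl
  have b8979 := Rl.l2 H i92 i120 i3 q8978 (.cons c8408 .nil) b8976
  have c8980 := Lck hbc c7510.symm (Lsw H i92 i3 b8976)
  have c8981 := LP3 H i64 i3 i5 c1672 (Lsw H i5 i64 b3237) b8979
  have b8982 := LP1 H i66 i3 i5 c7000 b8487 b8 b8979
  have b8983 := LP1 H i94 i3 i5 c1917 b7066 b8 b8979
  have c8984 := Lco i111 i4 (LP1 H i4 i66 i9 c8478.symm b32 (Lsw H i9 i66 b8982) (k_one i16 i66 c8602))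
  have b8985 := LP1 H i51 i5 i4 c356 (Lsw H i4 i51 b839) (Lsw H i4 i5 b9) b8966
  have b8987 := LP1 H i40 i9 i4 c519.symm b2222 (Lsw H i4 i9 b32) (Lsw H i9 i94 b8983)
  have q8989 : Rl [t79, t87, t106, t116, t122, 1] := LJ H i4 i5 i21 b9 b309 b314 b839 b847 b1786 (Lsw H i46 i10 b4831) b8985 (k_one i46 i51 c5072.symm)
  have q8990 : Rl [1, t79, t87, t106, t116, t122] := q8989.mv 5 rfl
  have q8991 : Rl [t79, t87, t106, t116, t122] := q8990.del1
  have q8992 : Rl [t18, t14, t16, t24, t29, t32] := q264.mv 2 rfl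
  have q8993 : Rl [t16, t18, t14, t24, t29, t32] := q8992.mv 2 rfl
  have b8994 := Rl.l2 H i16 i18 i40 q8993 (.cons c579 (.cons c719.symm (.cons c3085 (.cons c6150 .nil)))) b8987
  have q9000 : Rl [t37, t40, t56, t63, t65, t67] := q6481.mv 1 rfl
  have q9001 : Rl [t40, t37, t56, t63, t65, t67] := q9000.mv 1 rfl
  have b9002 := Rl.l2 H i40 i37 i18 q9001 (.cons c690 (.cons c2380 (.cons c4788 (.cons c4692 .nil)))) (Lsw H i18 i40 b8994)
  have q9003 : Rl [t100, t92, t77, t122] := q8127.mv 2 rfl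
  have q9004 : Rl [t92, t100, t77, t122] := q9003.mv 1 rfl
  have b9005 := Rl.l2 H i92 i100 i3 q9004 (.cons c1171 (.cons c8583 .nil)) b8976
  have c9006 := q8991.l1 (.cons c7406.symm (.cons c1378 (.cons c8223 (.cons c8139 .nil))))
  have q9017 : Rl [t88, t80, t100, t116, t122] := q5420.mv 1 rfl
  have q9018 : Rl [t100, t88, t80, t116, t122] := q9017.mv 2 rfl
  have b9019 := Rl.l2 H i100 i88 i3 q9018 (.cons c8629 (.cons c8047 (.cons c8583 .nil))) b9005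
  have b9031 := LP1 H i8 i37 i5 c2578 (Lsw H i5 i8 b34) b2248 (Lsw H i37 i18 b9002)
  have q9032 : Rl [t96, t68, t97, t67] := q6446.mv 1 rfl
  have b9033 := Rl.l2 H i96 i68 i8 q9032 (.cons c1344 (.cons c3830 .nil)) b9031
  have q9034 : Rl [t83, t78, t79] := q8893.mv 1 rfl
  have b9035 := Rl.l2 H i83 i78 i2 q9034 (.cons c9006 .nil) b8406
  have q9036 : Rl [t90, t78, t92] := q8616.mv 2 rfl
  have q9037 : Rl [t78, t90, t92] := q9036.mv 1 rfl
  have b9038 := Rl.l2 H i78 i90 i2 q9037 (.cons c7510 .nil) b9035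
  have b9042 := LP1 H i3 i68 i4 c1673.symm b7 b6715 (Lsw H i68 i8 b9033)
  have r136 : t136 ∈ rad G := Lrad5 i1 i2 i3 i4 i5 hF i136 (Rc i136 i1 c3343.symm) (Rc i136 i2 c8228) (Rc i136 i3 c8068) (Rc i136 i4 c4230) (Rc i136 i5 c3652.symm)
  have r135 : t135 ∈ rad G := Lrad5 i1 i2 i3 i4 i5 hF i135 (Rc i135 i1 c3342.symm) (Rc i135 i2 c8152) (Rc i135 i3 c8584) (Rc i135 i4 c3549.symm) (Rc i135 i5 c4185)
  have r122 : t122 ∈ rad G := Lrad5 i1 i2 i3 i4 i5 hF i122 (Rc i122 i1 c3329.symm) (Rc i122 i2 c8139) (Rc i122 i3 c8583) (Rc i122 i4 c3680) (Rc i122 i5 c3284)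
  have r116 : t116 ∈ rad G := Lrad5 i1 i2 i3 i4 i5 hF i116 (Rc i116 i1 c3323.symm) (Rc i116 i2 c8223) (Rc i116 i3 c8047) (Rc i116 i4 c3272) (Rc i116 i5 c5823)
  have r111 : t111 ∈ rad G := Lrad5 i1 i2 i3 i4 i5 hF i111 (Rc i111 i1 c3318.symm) (Rc i111 i2 c8980.symm) (Rc i111 i3 c3262) (Rc i111 i4 c8984) (Rc i111 i5 c8981)
  have r110 : t110 ∈ rad G := Lrad5 i1 i2 i3 i4 i5 hF i110 (Rc i110 i1 c3317.symm) (Rc i110 i2 c3260) (Rc i110 i3 c3347.symm) (Rc i110 i4 c8479) (Rc i110 i5 c8689)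
  have r98 : t98 ∈ rad G := Lrad5 i1 i2 i3 i4 i5 hF i98 (Rc i98 i1 c990.symm) (Rc i98 i2 c1245) (Rc i98 i3 c8408) (Rb b5817 r116) (Rc i98 i5 c1214.symm)
  have r93 : t93 ∈ rad G := Lrad5 i1 i2 i3 i4 i5 hF i93 (Rc i93 i1 c985.symm) (Rc i93 i2 c1178) (Rc i93 i3 c8814) (Rc i93 i4 c1131.symm) (Rb b5908 r122)
  have r91 : t91 ∈ rad G := Lrad5 i1 i2 i3 i4 i5 hF i91 (Rc i91 i1 c983.symm) (Rc i91 i2 c1713) (Rc i91 i3 c1938) (Rb b4612 r135) (Rc i91 i5 c923)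
  have r90 : t90 ∈ rad G := Lrad5 i1 i2 i3 i4 i5 hF i90 (Rc i90 i1 c982.symm) (Rb b9038 r110) (Rc i90 i3 c8905) (Rb b8800 r116) (Rc i90 i5 c921)
  have r89 : t89 ∈ rad G := Lrad5 i1 i2 i3 i4 i5 hF i89 (Rc i89 i1 c981.symm) (Rc i89 i2 c5409.symm) (Rc i89 i3 c6546.symm) (Rb (Lsw H i4 i89 b3234) r116) (Rc i89 i5 c919)
  have r88 : t88 ∈ rad G := Lrad5 i1 i2 i3 i4 i5 hF i88 (Rc i88 i1 c980.symm) (Rc i88 i2 c8225) (Rb b9019 r111) (Rb b4616 r116) (Rc i88 i5 c917)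
  have r87 : t87 ∈ rad G := Lrad5 i1 i2 i3 i4 i5 hF i87 (Rc i87 i1 c979.symm) (Rc i87 i2 c7406.symm) (Rc i87 i3 c6480.symm) (Rb b7039 r116) (Rc i87 i5 c915)
  have r85 : t85 ∈ rad G := Lrad5 i1 i2 i3 i4 i5 hF i85 (Rc i85 i1 c977.symm) (Rc i85 i2 c6516) (Rc i85 i3 c1238) (Rb (Lsw H i4 i85 b3233) r116) (Rc i85 i5 c911)
  have r82 : t82 ∈ rad G := Lrad5 i1 i2 i3 i4 i5 hF i82 (Rc i82 i1 c974.symm) (Rc i82 i2 c8902) (Rc i82 i3 c7420.symm) (Rc i82 i4 c905) (Rb (Lsw H i5 i82 b3239) r122)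
  have r81 : t81 ∈ rad G := Lrad5 i1 i2 i3 i4 i5 hF i81 (Rc i81 i1 c973.symm) (Rb b8632 r110) (Rc i81 i3 c8633) (Rc i81 i4 c903) (Rb b8485 r122)
  have r80 : t80 ∈ rad G := Lrad5 i1 i2 i3 i4 i5 hF i80 (Rc i80 i1 c972.symm) (Rc i80 i2 c7830) (Rc i80 i3 c8629) (Rc i80 i4 c901) (Rb b4667 r122)
  have r79 : t79 ∈ rad G := Lrad5 i1 i2 i3 i4 i5 hF i79 (Rc i79 i1 c971.symm) (Rc i79 i2 c9006) (Rb (Lsw H i3 i79 b3228) r111) (Rc i79 i4 c899) (Rb b8966 r122)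
  have r78 : t78 ∈ rad G := Lrad5 i1 i2 i3 i4 i5 hF i78 (Rc i78 i1 c970.symm) (Rb b9035 r110) (Rb b8963 r111) (Rc i78 i4 c897) (Rc i78 i5 c1258)
  have r77 : t77 ∈ rad G := Lrad5 i1 i2 i3 i4 i5 hF i77 (Rc i77 i1 c969.symm) (Rc i77 i2 c6531.symm) (Rc i77 i3 c1171) (Rc i77 i4 c895) (Rb b5907 r122)
  have r76 : t76 ∈ rad G := Lrad5 i1 i2 i3 i4 i5 hF i76 (Rc i76 i1 c968.symm) (Rc i76 i2 c2170) (Rc i76 i3 c1165) (Rc i76 i4 c893) (Rb b4662 r136)
  have r75 : t75 ∈ rad G := Lrad5 i1 i2 i3 i4 i5 hF i75 (Rc i75 i1 c967.symm) (Rc i75 i2 c1006.symm) (Rc i75 i3 c891) (Rc i75 i4 c4614) (Rc i75 i5 c1261)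
  have r71 : t71 ∈ rad G := Lrad5 i1 i2 i3 i4 i5 hF i71 (Rc i71 i1 c963.symm) (Rc i71 i2 c1003.symm) (Rc i71 i3 c883) (Rc i71 i4 c1192) (Rc i71 i5 c4661)
  have r67 : t67 ∈ rad G := Lrad5 i1 i2 i3 i4 i5 hF i67 (Rc i67 i1 c959.symm) (Rc i67 i2 c875) (Rc i67 i3 c1007.symm) (Rc i67 i4 c4607) (Rc i67 i5 c1265)
  have r65 : t65 ∈ rad G := Lrad5 i1 i2 i3 i4 i5 hF i65 (Rc i65 i1 c957.symm) (Rc i65 i2 c871) (Rc i65 i3 c1004.symm) (Rc i65 i4 c1195) (Rc i65 i5 c4660)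
  have r63 : t63 ∈ rad G := Lrad5 i1 i2 i3 i4 i5 hF i63 (Rc i63 i1 c955.symm) (Rc i63 i2 c867) (Rc i63 i3 c1001.symm) (Rc i63 i4 c2575) (Rc i63 i5 c2597)
  have r54 : t54 ∈ rad G := Lrad5 i1 i2 i3 i4 i5 hF i54 (Rc i54 i1 c398.symm) (Rb (Lsw H i2 i54 b827) r67) (Rc i54 i3 c514) (Rb (Lsw H i4 i54 b842) r82) (Rc i54 i5 c362)
  have r52 : t52 ∈ rad G := Lrad5 i1 i2 i3 i4 i5 hF i52 (Rc i52 i1 c396.symm) (Rc i52 i2 c517) (Rb (Lsw H i3 i52 b835) r75) (Rb (Lsw H i4 i52 b840) r80) (Rc i52 i5 c358)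
  have r48 : t48 ∈ rad G := Lrad5 i1 i2 i3 i4 i5 hF i48 (Rc i48 i1 c392.symm) (Rb (Lsw H i2 i48 b825) r65) (Rc i48 i3 c482) (Rc i48 i4 c350) (Rb (Lsw H i5 i48 b849) r89)
  have r46 : t46 ∈ rad G := Lrad5 i1 i2 i3 i4 i5 hF i46 (Rc i46 i1 c390.symm) (Rc i46 i2 c484) (Rb (Lsw H i3 i46 b831) r71) (Rc i46 i4 c346) (Rb (Lsw H i5 i46 b847) r87)
  have r43 : t43 ∈ rad G := Lrad5 i1 i2 i3 i4 i5 hF i43 (Rc i43 i1 c387.symm) (Rc i43 i2 c416.symm) (Rc i43 i3 c340) (Rb (Lsw H i4 i43 b837) r77) (Rb b2253 r91)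
  have r42 : t42 ∈ rad G := Lrad5 i1 i2 i3 i4 i5 hF i42 (Rc i42 i1 c386.symm) (Rc i42 i2 c414.symm) (Rc i42 i3 c338) (Rb (Lsw H i4 i42 b836) r76) (Rb (Lsw H i5 i42 b845) r85)
  have r39 : t39 ∈ rad G := Lrad5 i1 i2 i3 i4 i5 hF i39 (Rc i39 i1 c383.symm) (Rc i39 i2 c332) (Rc i39 i3 c417.symm) (Rb b1697 r93) (Rb b1939 r91)
  have r38 : t38 ∈ rad G := Lrad5 i1 i2 i3 i4 i5 hF i38 (Rc i38 i1 c382.symm) (Rc i38 i2 c330) (Rc i38 i3 c415.symm) (Rb b2224 r76) (Rb b1711 r98)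
  have r32 : t32 ∈ rad G := Lrad5 i1 i2 i3 i4 i5 hF i32 (Rc i32 i1 c146.symm) (Rb (Lsw H i2 i32 b302) r39) (Rc i32 i3 c194) (Rc i32 i4 c280) (Rc i32 i5 c125)
  have r31 : t31 ∈ rad G := Lrad5 i1 i2 i3 i4 i5 hF i31 (Rc i31 i1 c145.symm) (Rc i31 i2 c193) (Rb (Lsw H i3 i31 b306) r43) (Rc i31 i4 c279) (Rc i31 i5 c123)
  have r29 : t29 ∈ rad G := Lrad5 i1 i2 i3 i4 i5 hF i29 (Rc i29 i1 c143.symm) (Rb (Lsw H i2 i29 b301) r38) (Rc i29 i3 c184) (Rc i29 i4 c119) (Rc i29 i5 c278)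
  have r28 : t28 ∈ rad G := Lrad5 i1 i2 i3 i4 i5 hF i28 (Rc i28 i1 c142.symm) (Rc i28 i2 c183) (Rb (Lsw H i3 i28 b305) r42) (Rc i28 i4 c117) (Rc i28 i5 c277)
  have r1 : a ∈ rad G := Lrad5 i1 i2 i3 i4 i5 hF i1 (Rc i1 i1 (Commute.refl _)) (Rc i1 i2 hab) (Rc i1 i3 hac) (Rc i1 i4 had) (Rc i1 i5 hae)
  have r128 : t128 ∈ rad G := Lrad5 i1 i2 i3 i4 i5 hF i128 (Rc i128 i1 c3335.symm) (Rc i128 i2 c3961) (Rb b9042 r111) (Rc i128 i4 c3540.symm) (Rc i128 i5 c3578)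
  have r126 : t126 ∈ rad G := Lrad5 i1 i2 i3 i4 i5 hF i126 (Rc i126 i1 c3333.symm) (Rb b8619 r110) (Rc i126 i3 c5771) (Rc i126 i4 c3536.symm) (Rc i126 i5 c7037)
  have r121 : t121 ∈ rad G := Lrad5 i1 i2 i3 i4 i5 hF i121 (Rc i121 i1 c3328.symm) (Rb b8923 r110) (Rc i121 i3 c3685) (Rc i121 i4 c7045) (Rc i121 i5 c3282)
  have r120 : t120 ∈ rad G := Lrad5 i1 i2 i3 i4 i5 hF i120 (Rc i120 i1 c3327.symm) (Rc i120 i2 c3689) (Rb b8979 r111) (Rc i120 i4 c4622) (Rc i120 i5 c3280)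
  have r105 : t105 ∈ rad G := Lrad5 i1 i2 i3 i4 i5 hF i105 (Rc i105 i1 c997.symm) (Rc i105 i2 c1341) (Rb b4571 r71) (Rc i105 i4 c1146.symm) (Rb b6782 r121)
  have r96 : t96 ∈ rad G := Lrad5 i1 i2 i3 i4 i5 hF i96 (Rc i96 i1 c988.symm) (Rb b4537 r67) (Rc i96 i3 c1308) (Rb b4613 r128) (Rc i96 i5 c1706)
  have r95 : t95 ∈ rad G := Lrad5 i1 i2 i3 i4 i5 hF i95 (Rc i95 i1 c987.symm) (Rc i95 i2 c1232) (Rb b4574 r75) (Rb b7035 r126) (Rc i95 i5 c1211.symm)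
  have r94 : t94 ∈ rad G := Lrad5 i1 i2 i3 i4 i5 hF i94 (Rc i94 i1 c986.symm) (Rb b4535 r65) (Rc i94 i3 c1917) (Rc i94 i4 c1689) (Rb b7066 r120)
  have r74 : t74 ∈ rad G := Lrad5 i1 i2 i3 i4 i5 hF i74 (Rc i74 i1 c966.symm) (Rc i74 i2 c7001) (Rc i74 i3 c889) (Rb b8845 r126) (Rc i74 i5 c8846)
  have r73 : t73 ∈ rad G := Lrad5 i1 i2 i3 i4 i5 hF i73 (Rc i73 i1 c965.symm) (Rc i73 i2 c1777) (Rc i73 i3 c887) (Rb b7860 r126) (Rc i73 i5 c1095)
  have r70 : t70 ∈ rad G := Lrad5 i1 i2 i3 i4 i5 hF i70 (Rc i70 i1 c962.symm) (Rc i70 i2 c1766) (Rc i70 i3 c881) (Rc i70 i4 c1094) (Rb (Lsw H i5 i70 b3238) r121)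
  have r68 : t68 ∈ rad G := Lrad5 i1 i2 i3 i4 i5 hF i68 (Rc i68 i1 c960.symm) (Rc i68 i2 c877) (Rc i68 i3 c1673) (Rb b6715 r128) (Rc i68 i5 c1636)
  have r66 : t66 ∈ rad G := Lrad5 i1 i2 i3 i4 i5 hF i66 (Rc i66 i1 c958.symm) (Rc i66 i2 c873) (Rc i66 i3 c7000) (Rc i66 i4 c8478) (Rb b8487 r120)
  have r64 : t64 ∈ rad G := Lrad5 i1 i2 i3 i4 i5 hF i64 (Rc i64 i1 c956.symm) (Rc i64 i2 c869) (Rc i64 i3 c1672) (Rc i64 i4 c1037) (Rb (Lsw H i5 i64 b3237) r120)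
  have r62 : t62 ∈ rad G := Lrad5 i1 i2 i3 i4 i5 hF i62 (Rc i62 i1 c406.symm) (Rb b2172 r68) (Rb b2551 r73) (Rc i62 i4 c507) (Rc i62 i5 c505.symm)
  have r61 : t61 ∈ rad G := Lrad5 i1 i2 i3 i4 i5 hF i61 (Rc i61 i1 c405.symm) (Rb b2171 r64) (Rb b2550 r70) (Rc i61 i4 c472.symm) (Rc i61 i5 c475)
  have r56 : t56 ∈ rad G := Lrad5 i1 i2 i3 i4 i5 hF i56 (Rc i56 i1 c400.symm) (Rc i56 i2 c422.symm) (Rb b1631 r63) (Rb b3090 r94) (Rc i56 i5 c425)
  have r53 : t53 ∈ rad G := Lrad5 i1 i2 i3 i4 i5 hF i53 (Rc i53 i1 c397.symm) (Rb b8951 r68) (Rb b8928 r74) (Rb (Lsw H i4 i53 b841) r81) (Rc i53 i5 c360)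
  have r51 : t51 ∈ rad G := Lrad5 i1 i2 i3 i4 i5 hF i51 (Rc i51 i1 c395.symm) (Rb b1888 r68) (Rb (Lsw H i3 i51 b834) r74) (Rb (Lsw H i4 i51 b839) r79) (Rc i51 i5 c356)
  have r50 : t50 ∈ rad G := Lrad5 i1 i2 i3 i4 i5 hF i50 (Rc i50 i1 c394.symm) (Rb b1887 r68) (Rb (Lsw H i3 i50 b833) r73) (Rb (Lsw H i4 i50 b838) r78) (Rc i50 i5 c354)
  have r49 : t49 ∈ rad G := Lrad5 i1 i2 i3 i4 i5 hF i49 (Rc i49 i1 c393.symm) (Rb (Lsw H i2 i49 b826) r66) (Rb (Lsw H i3 i49 b832) r70) (Rc i49 i4 c352) (Rb (Lsw H i5 i49 b850) r90)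
  have r47 : t47 ∈ rad G := Lrad5 i1 i2 i3 i4 i5 hF i47 (Rc i47 i1 c391.symm) (Rb b8669 r66) (Rb b8742 r70) (Rc i47 i4 c348) (Rb (Lsw H i5 i47 b848) r88)
  have r45 : t45 ∈ rad G := Lrad5 i1 i2 i3 i4 i5 hF i45 (Rc i45 i1 c389.symm) (Rb (Lsw H i2 i45 b824) r64) (Rb (Lsw H i3 i45 b830) r70) (Rc i45 i4 c344) (Rb (Lsw H i5 i45 b846) r78)
  have r44 : t44 ∈ rad G := Lrad5 i1 i2 i3 i4 i5 hF i44 (Rc i44 i1 c388.symm) (Rb b1883 r63) (Rc i44 i3 c342) (Rb b1692 r105) (Rc i44 i5 c671)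
  have r41 : t41 ∈ rad G := Lrad5 i1 i2 i3 i4 i5 hF i41 (Rc i41 i1 c385.symm) (Rb (Lsw H i2 i41 b823) r63) (Rc i41 i3 c336) (Rc i41 i4 c451) (Rb b3103 r95)
  have r40 : t40 ∈ rad G := Lrad5 i1 i2 i3 i4 i5 hF i40 (Rc i40 i1 c384.symm) (Rc i40 i2 c411.symm) (Rc i40 i3 c334) (Rb b2222 r94) (Rb b5519 r96)
  have r37 : t37 ∈ rad G := Lrad5 i1 i2 i3 i4 i5 hF i37 (Rc i37 i1 c381.symm) (Rc i37 i2 c328) (Rb b1629 r63) (Rc i37 i4 c428) (Rb b2248 r96)
  have r36 : t36 ∈ rad G := Lrad5 i1 i2 i3 i4 i5 hF i36 (Rc i36 i1 c380.symm) (Rc i36 i2 c326) (Rc i36 i3 c412.symm) (Rb b5490 r105) (Rb b1708 r95)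
  have r30 : t30 ∈ rad G := Lrad5 i1 i2 i3 i4 i5 hF i30 (Rc i30 i1 c144.symm) (Rb b662 r56) (Rb b748 r44) (Rb b676 r61) (Rc i30 i5 c121)
  have r27 : t27 ∈ rad G := Lrad5 i1 i2 i3 i4 i5 hF i27 (Rc i27 i1 c141.symm) (Rb (Lsw H i2 i27 b300) r37) (Rb (Lsw H i3 i27 b304) r41) (Rc i27 i4 c115) (Rb b686 r62)
  have r25 : t25 ∈ rad G := Lrad5 i1 i2 i3 i4 i5 hF i25 (Rc i25 i1 c139.symm) (Rb b658 r40) (Rc i25 i3 c111) (Rb (Lsw H i4 i25 b312) r49) (Rb (Lsw H i5 i25 b317) r54)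
  have r24 : t24 ∈ rad G := Lrad5 i1 i2 i3 i4 i5 hF i24 (Rc i24 i1 c138.symm) (Rb (Lsw H i2 i24 b299) r36) (Rc i24 i3 c109) (Rc i24 i4 c172) (Rc i24 i5 c168)
  have r23 : t23 ∈ rad G := Lrad5 i1 i2 i3 i4 i5 hF i23 (Rc i23 i1 c137.symm) (Rb b656 r40) (Rc i23 i3 c107) (Rb (Lsw H i4 i23 b311) r48) (Rb (Lsw H i5 i23 b316) r53)
  have r22 : t22 ∈ rad G := Lrad5 i1 i2 i3 i4 i5 hF i22 (Rc i22 i1 c136.symm) (Rc i22 i2 c105) (Rb b659 r36) (Rb (Lsw H i4 i22 b310) r47) (Rb (Lsw H i5 i22 b315) r52)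
  have r21 : t21 ∈ rad G := Lrad5 i1 i2 i3 i4 i5 hF i21 (Rc i21 i1 c135.symm) (Rc i21 i2 c103) (Rb b657 r36) (Rb (Lsw H i4 i21 b309) r46) (Rb (Lsw H i5 i21 b314) r51)
  have r20 : t20 ∈ rad G := Lrad5 i1 i2 i3 i4 i5 hF i20 (Rc i20 i1 c134.symm) (Rc i20 i2 c101) (Rb (Lsw H i3 i20 b303) r40) (Rc i20 i4 c160) (Rc i20 i5 c155)
  have r19 : t19 ∈ rad G := Lrad5 i1 i2 i3 i4 i5 hF i19 (Rc i19 i1 c133.symm) (Rc i19 i2 c99) (Rc i19 i3 c151.symm) (Rb (Lsw H i4 i19 b308) r45) (Rb (Lsw H i5 i19 b313) r50)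
  have r18 : t18 ∈ rad G := Lrad5 i1 i2 i3 i4 i5 hF i18 (Rc i18 i1 c58.symm) (Rb (Lsw H i2 i18 b85) r22) (Rb (Lsw H i3 i18 b89) r24) (Rb b298 r29) (Rc i18 i5 c49)
  have r17 : t17 ∈ rad G := Lrad5 i1 i2 i3 i4 i5 hF i17 (Rc i17 i1 c57.symm) (Rb b234 r20) (Rb (Lsw H i3 i17 b88) r25) (Rb b295 r28) (Rc i17 i5 c47)
  have r16 : t16 ∈ rad G := Lrad5 i1 i2 i3 i4 i5 hF i16 (Rc i16 i1 c56.symm) (Rb (Lsw H i2 i16 b84) r21) (Rb (Lsw H i3 i16 b87) r24) (Rc i16 i4 c45) (Rb b282 r32)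
  have r15 : t15 ∈ rad G := Lrad5 i1 i2 i3 i4 i5 hF i15 (Rc i15 i1 c55.symm) (Rb (Lsw H i2 i15 b83) r20) (Rb (Lsw H i3 i15 b86) r23) (Rc i15 i4 c43) (Rb b281 r31)
  have r14 : t14 ∈ rad G := Lrad5 i1 i2 i3 i4 i5 hF i14 (Rc i14 i1 c54.symm) (Rb (Lsw H i2 i14 b82) r19) (Rc i14 i3 c41) (Rb (Lsw H i4 i14 b92) r29) (Rb (Lsw H i5 i14 b95) r32)
  have r13 : t13 ∈ rad G := Lrad5 i1 i2 i3 i4 i5 hF i13 (Rc i13 i1 c53.symm) (Rc i13 i2 c39) (Rb b233 r19) (Rb (Lsw H i4 i13 b91) r28) (Rb (Lsw H i5 i13 b94) r31)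
  have r12 : t12 ∈ rad G := Lrad5 i1 i2 i3 i4 i5 hF i12 (Rc i12 i1 c52.symm) (Rc i12 i2 c37) (Rc i12 i3 c62.symm) (Rb (Lsw H i4 i12 b90) r27) (Rc i12 i5 c60)
  have r11 : t11 ∈ rad G := Lrad5 i1 i2 i3 i4 i5 hF i11 (Rc i11 i1 c51.symm) (Rc i11 i2 c35) (Rc i11 i3 c61.symm) (Rc i11 i4 c59) (Rb (Lsw H i5 i11 b93) r30)
  have r10 : t10 ∈ rad G := Lrad5 i1 i2 i3 i4 i5 hF i10 (Rc i10 i1 c24.symm) (Rb (Lsw H i2 i10 b29) r13) (Rb (Lsw H i3 i10 b30) r14) (Rc i10 i4 c18) (Rc i10 i5 c19)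
  have r9 : t9 ∈ rad G := Lrad5 i1 i2 i3 i4 i5 hF i9 (Rc i9 i1 c23.symm) (Rb (Lsw H i2 i9 b28) r12) (Rc i9 i3 c16) (Rb (Lsw H i4 i9 b32) r16) (Rc i9 i5 c17)
  have r8 : t8 ∈ rad G := Lrad5 i1 i2 i3 i4 i5 hF i8 (Rc i8 i1 c22.symm) (Rb (Lsw H i2 i8 b27) r11) (Rc i8 i3 c14) (Rc i8 i4 c15) (Rb (Lsw H i5 i8 b34) r18)
  have r7 : t7 ∈ rad G := Lrad5 i1 i2 i3 i4 i5 hF i7 (Rc i7 i1 c21.symm) (Rc i7 i2 c12) (Rb b81 r12) (Rb (Lsw H i4 i7 b31) r15) (Rc i7 i5 c13)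
  have r6 : t6 ∈ rad G := Lrad5 i1 i2 i3 i4 i5 hF i6 (Rc i6 i1 c20.symm) (Rc i6 i2 c10) (Rb b80 r11) (Rc i6 i4 c11) (Rb (Lsw H i5 i6 b33) r17)
  have r5 : e ∈ rad G := Lrad5 i1 i2 i3 i4 i5 hF i5 (Rc i5 i1 hae.symm) (Rb (Lsw H i2 i5 b6) r7) (Rb (Lsw H i3 i5 b8) r9) (Rb (Lsw H i4 i5 b9) r10) (Rc i5 i5 (Commute.refl _))
  have r4 : d ∈ rad G := Lrad5 i1 i2 i3 i4 i5 hF i4 (Rc i4 i1 had.symm) (Rb (Lsw H i2 i4 b5) r6) (Rb (Lsw H i3 i4 b7) r8) (Rc i4 i4 (Commute.refl _)) (Rb b9 r10)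
  have r3 : c ∈ rad G := Lrad5 i1 i2 i3 i4 i5 hF i3 (Rc i3 i1 hac.symm) (Rc i3 i2 hbc.symm) (Rc i3 i3 (Commute.refl _)) (Rb b7 r8) (Rb b8 r9)
  have r2 : b ∈ rad G := Lrad5 i1 i2 i3 i4 i5 hF i2 (Rc i2 i1 hab.symm) (Rc i2 i2 (Commute.refl _)) (Rc i2 i3 hbc) (Rb b5 r6) (Rb b6 r7)
  exact ⟨r1, r2, r3, r4, r5⟩

end Pool.Agent.H678.Inv
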