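import Pool.Agent.H678.Inv.J

/-!
# Four involutions, two of them commute

The derivation was found by a saturation program.  `t`: commutators of involutions, `i`: their
squares are `1`, `b`: brackets, `c`: commuting elements, `e`, `m`: equalities, `q`: relations
between commuting elements, `r`: elements of the radical.
-/

set_option autoImplicit false
set_option linter.unusedVariables false

namespace Pool.Agent.H678.Inv

open Pool.Agent.W5h59.Bu (LFn LF2 rad rad_lf rad_quot le_rad lf_of_comm)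

universe u

variable {G : Type u} [Group G]

theorem fin_ab (H : E2 G) {a b c d : G} (i1 : a * a = 1) (i2 : b * b = 1) (i3 : c * c = 1) (i4 : d * d = 1)
    (hab : Commute a b)
    (hF : Subgroup.closure ({a, b, c, d} : Set G) = ⊤) :
    a ∈ rad G ∧ b ∈ rad G ∧ c ∈ rad G ∧ d ∈ rad G := by
  obtain ⟨t5, b1⟩ : ∃ t, k a c = t := ⟨_, rfl⟩
  have i5 := Linv H i1 i3 b1
  obtain ⟨t6, b2⟩ : ∃ t, k a d = t := ⟨_, rfl⟩
  have i6 := Linv H i1 i4 b2
  obtain ⟨t7, b3⟩ : ∃ t, k b c = t := ⟨_, rfl⟩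
  have i7 := Linv H i2 i3 b3
  obtain ⟨t8, b4⟩ : ∃ t, k b d = t := ⟨_, rfl⟩
  have i8 := Linv H i2 i4 b4
  obtain ⟨t9, b5⟩ : ∃ t, k c d = t := ⟨_, rfl⟩
  have i9 := Linv H i3 i4 b5
  have c6 := Lkl H i1 i3 b1
  have c7 := Lkr H i1 i3 b1
  have c8 := Lkl H i1 i4 b2
  have c9 := Lkr H i1 i4 b2
  have c10 := Lkl H i2 i3 b3
  have c11 := Lkr H i2 i3 b3
  have c12 := Lkl H i2 i4 b4
  have c13 := Lkr H i2 i4 b4
  have c14 := Lkl H i3 i4 b5
  have c15 := Lkr H i3 i4 b5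
  have c16 := LP2 H i1 i2 i3 hab b1 b3
  have c17 := LP2 H i1 i2 i4 hab b2 b4
  obtain ⟨t10, b18⟩ : ∃ t, k a t7 = t := ⟨_, rfl⟩
  have i10 := Linv H i1 i7 b18
  obtain ⟨t11, b19⟩ : ∃ t, k a t8 = t := ⟨_, rfl⟩
  have i11 := Linv H i1 i8 b19
  obtain ⟨t12, b20⟩ : ∃ t, k a t9 = t := ⟨_, rfl⟩
  have i12 := Linv H i1 i9 b20
  obtain ⟨t13, b21⟩ : ∃ t, k b t9 = t := ⟨_, rfl⟩
  have i13 := Linv H i2 i9 b21
  obtain ⟨t14, b22⟩ : ∃ t, k c t6 = t := ⟨_, rfl⟩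
  have i14 := Linv H i3 i6 b22
  obtain ⟨t15, b23⟩ : ∃ t, k c t8 = t := ⟨_, rfl⟩
  have i15 := Linv H i3 i8 b23
  obtain ⟨t16, b24⟩ : ∃ t, k d t5 = t := ⟨_, rfl⟩
  have i16 := Linv H i4 i5 b24
  obtain ⟨t17, b25⟩ : ∃ t, k d t7 = t := ⟨_, rfl⟩
  have i17 := Linv H i4 i7 b25
  have c26 := Lkl H i1 i7 b18
  have c27 := Lkr H i1 i7 b18
  have c28 := Lkl H i1 i8 b19
  have c29 := Lkr H i1 i8 b19
  have c30 := Lkl H i1 i9 b20
  have c31 := Lkr H i1 i9 b20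
  have c32 := Lkl H i2 i9 b21
  have c33 := Lkr H i2 i9 b21
  have c34 := Lkl H i3 i6 b22
  have c35 := Lkr H i3 i6 b22
  have c36 := Lkl H i3 i8 b23
  have c37 := Lkr H i3 i8 b23
  have c38 := Lkl H i4 i5 b24
  have c39 := Lkr H i4 i5 b24
  have c40 := Lkl H i4 i7 b25
  have c41 := Lkr H i4 i7 b25
  have c42 := LP3 H i2 i1 i3 hab.symm b3 (Lsw H i1 i7 b18)
  have c43 := LP3 H i2 i1 i4 hab.symm b4 (Lsw H i1 i8 b19)
  have c44 := Lck hab.symm c10.symm b18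
  have c45 := Lck hab.symm c12.symm b19
  have c46 := LP2 H i1 i2 i9 hab b20 b21
  have c47 := LP2 H i1 i5 i4 c6.symm b2 (Lsw H i4 i5 b24)
  have c48 := Lck c6 c16 b18
  have c49 := LP2 H i1 i6 i3 c8.symm b1 (Lsw H i3 i6 b22)
  have c50 := Lck c8 c17 b19
  have c51 := LP2 H i2 i7 i4 c10.symm b4 (Lsw H i4 i7 b25)
  have c52 := LP2 H i2 i8 i3 c12.symm b3 (Lsw H i3 i8 b23)
  have c53 := LP2 H i3 i5 i4 c7.symm b5 (Lsw H i4 i5 b24)
  have c54 := LP2 H i3 i7 i4 c11.symm b5 (Lsw H i4 i7 b25)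
  have c55 := LP2 H i3 i9 i1 c14.symm (Lsw H i1 i3 b1) (Lsw H i1 i9 b20)
  have c56 := LP2 H i3 i9 i2 c14.symm (Lsw H i2 i3 b3) (Lsw H i2 i9 b21)
  have c57 := LP2 H i4 i6 i3 c9.symm (Lsw H i3 i4 b5) (Lsw H i3 i6 b22)
  have c58 := LP2 H i4 i8 i3 c13.symm (Lsw H i3 i4 b5) (Lsw H i3 i8 b23)
  have c59 := LP2 H i4 i9 i1 c15.symm (Lsw H i1 i4 b2) (Lsw H i1 i9 b20)
  have c60 := LP2 H i4 i9 i2 c15.symm (Lsw H i2 i4 b4) (Lsw H i2 i9 b21)
  have c61 := LP2 H i5 i7 i4 c16 (Lsw H i4 i5 b24) (Lsw H i4 i7 b25)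
  have c62 := LP2 H i6 i8 i3 c17 (Lsw H i3 i6 b22) (Lsw H i3 i8 b23)
  have b63 := LP1 H i2 i1 i3 hab.symm b3 b1 (Lsw H i1 i7 b18)
  have b64 := LP1 H i2 i1 i4 hab.symm b4 b2 (Lsw H i1 i8 b19)
  obtain ⟨t18, b65⟩ : ∃ t, k a t13 = t := ⟨_, rfl⟩
  have i18 := Linv H i1 i13 b65
  obtain ⟨t19, b66⟩ : ∃ t, k a t14 = t := ⟨_, rfl⟩
  have i19 := Linv H i1 i14 b66
  obtain ⟨t20, b67⟩ : ∃ t, k a t15 = t := ⟨_, rfl⟩
  have i20 := Linv H i1 i15 b67
  obtain ⟨t21, b68⟩ : ∃ t, k a t17 = t := ⟨_, rfl⟩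
  have i21 := Linv H i1 i17 b68
  obtain ⟨t22, b69⟩ : ∃ t, k b t14 = t := ⟨_, rfl⟩
  have i22 := Linv H i2 i14 b69
  obtain ⟨t23, b70⟩ : ∃ t, k b t15 = t := ⟨_, rfl⟩
  have i23 := Linv H i2 i15 b70
  obtain ⟨t24, b71⟩ : ∃ t, k b t16 = t := ⟨_, rfl⟩
  have i24 := Linv H i2 i16 b71
  obtain ⟨t25, b72⟩ : ∃ t, k b t17 = t := ⟨_, rfl⟩
  have i25 := Linv H i2 i17 b72
  obtain ⟨t26, b73⟩ : ∃ t, k c t11 = t := ⟨_, rfl⟩
  have i26 := Linv H i3 i11 b73
  obtain ⟨t27, b74⟩ : ∃ t, k c t12 = t := ⟨_, rfl⟩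
  have i27 := Linv H i3 i12 b74
  obtain ⟨t28, b75⟩ : ∃ t, k c t13 = t := ⟨_, rfl⟩
  have i28 := Linv H i3 i13 b75
  obtain ⟨t29, b76⟩ : ∃ t, k d t10 = t := ⟨_, rfl⟩
  have i29 := Linv H i4 i10 b76
  obtain ⟨t30, b77⟩ : ∃ t, k d t12 = t := ⟨_, rfl⟩
  have i30 := Linv H i4 i12 b77
  obtain ⟨t31, b78⟩ : ∃ t, k d t13 = t := ⟨_, rfl⟩
  have i31 := Linv H i4 i13 b78
  obtain ⟨t32, b79⟩ : ∃ t, k t5 t6 = t := ⟨_, rfl⟩
  have i32 := Linv H i5 i6 b79
  obtain ⟨t33, b80⟩ : ∃ t, k t5 t8 = t := ⟨_, rfl⟩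
  have i33 := Linv H i5 i8 b80
  obtain ⟨t34, b81⟩ : ∃ t, k t6 t7 = t := ⟨_, rfl⟩
  have i34 := Linv H i6 i7 b81
  have c82 := Lkl H i1 i13 b65
  have c84 := Lkl H i1 i14 b66
  have c85 := Lkr H i1 i14 b66
  have c86 := Lkl H i1 i15 b67
  have c87 := Lkr H i1 i15 b67
  have c88 := Lkl H i1 i17 b68
  have c89 := Lkr H i1 i17 b68
  have c90 := Lkl H i2 i14 b69
  have c91 := Lkr H i2 i14 b69
  have c92 := Lkl H i2 i15 b70
  have c93 := Lkr H i2 i15 b70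
  have c94 := Lkl H i2 i16 b71
  have c95 := Lkr H i2 i16 b71
  have c97 := Lkr H i2 i17 b72
  have c98 := Lkl H i3 i11 b73
  have c99 := Lkr H i3 i11 b73
  have c100 := Lkl H i3 i12 b74
  have c101 := Lkr H i3 i12 b74
  have c102 := Lkl H i3 i13 b75
  have c103 := Lkr H i3 i13 b75
  have c104 := Lkl H i4 i10 b76
  have c106 := Lkl H i4 i12 b77
  have c107 := Lkr H i4 i12 b77
  have c108 := Lkl H i4 i13 b78
  have c109 := Lkr H i4 i13 b78
  have c114 := Lkl H i6 i7 b81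
  have c115 := Lkr H i6 i7 b81
  have c116 := LP3 H i2 i1 i9 hab.symm b21 (Lsw H i1 i13 b65)
  have c117 := Lck hab.symm c32.symm b65
  have c118 := LP2 H i1 i2 i14 hab b66 b69
  have c119 := LP2 H i1 i2 i15 hab b67 b70
  have c120 := LP2 H i1 i2 i17 hab b68 b72
  have c121 := LP3 H i1 i5 i4 c6.symm b2 (Lsw H i5 i6 b79)
  have c124 := Lck c6 c49 b66
  have c126 := LP3 H i6 i1 i3 c8 (Lsw H i3 i6 b22) (Lsw H i1 i14 b66)
  have c127 := LP2 H i1 i6 i7 c8.symm b18 b81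
  have c128 := Lck c8 c35.symm b66
  have c129 := LP2 H i1 i10 i4 c26.symm b2 (Lsw H i4 i10 b76)
  have c130 := LP2 H i1 i11 i3 c28.symm b1 (Lsw H i3 i11 b73)
  have c131 := LP2 H i1 i12 i3 c30.symm b1 (Lsw H i3 i12 b74)
  have c132 := LP2 H i1 i12 i4 c30.symm b2 (Lsw H i4 i12 b77)
  have c133 := Lck c30 c46 b65
  have c134 := LP3 H i7 i2 i4 c10 (Lsw H i4 i7 b25) (Lsw H i2 i17 b72)
  have c135 := LP2 H i2 i7 i6 c10.symm (Lsw H i6 i2 b64) (Lsw H i6 i7 b81)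
  have c136 := Lck c10 c52 b70
  have c138 := LP3 H i8 i2 i3 c12 (Lsw H i3 i8 b23) (Lsw H i2 i15 b70)
  have c140 := Lck c12 c37.symm b70
  have c142 := LP2 H i2 i10 i4 c44 b4 (Lsw H i4 i10 b76)
  have c143 := LP2 H i2 i11 i3 c45 b3 (Lsw H i3 i11 b73)
  have c144 := LP2 H i2 i13 i3 c32.symm b3 (Lsw H i3 i13 b75)
  have c145 := LP2 H i2 i13 i4 c32.symm b4 (Lsw H i4 i13 b78)
  have c147 := LP2 H i3 i5 i8 c7.symm b23 b80
  have c149 := LP3 H i9 i3 i1 c14 (Lsw H i1 i9 b20) (Lsw H i3 i12 b74)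
  have c150 := LP3 H i9 i3 i2 c14 (Lsw H i2 i9 b21) (Lsw H i3 i13 b75)
  have c151 := Lck c14 c31.symm b74
  have c153 := LP2 H i3 i10 i4 c42.symm b5 (Lsw H i4 i10 b76)
  have c157 := LP2 H i4 i6 i7 c9.symm b25 b81
  have c158 := LP2 H i4 i8 i5 c13.symm b24 (Lsw H i5 i8 b80)
  have c159 := LP3 H i9 i4 i1 c15 (Lsw H i1 i9 b20) (Lsw H i4 i12 b77)
  have c160 := LP3 H i9 i4 i2 c15 (Lsw H i2 i9 b21) (Lsw H i4 i13 b78)
  have c161 := Lck c15 c31.symm b77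
  have c162 := Lck c15 c33.symm b78
  have c163 := LP2 H i4 i11 i3 c43.symm (Lsw H i3 i4 b5) (Lsw H i3 i11 b73)
  have c164 := LP2 H i4 i16 i2 c38.symm (Lsw H i2 i4 b4) (Lsw H i2 i16 b71)
  have c165 := LP2 H i4 i17 i1 c40.symm (Lsw H i1 i4 b2) (Lsw H i1 i17 b68)
  have c166 := LP2 H i5 i7 i6 c16 b79 (Lsw H i6 i7 b81)
  have c167 := LP2 H i5 i10 i4 c48 (Lsw H i4 i5 b24) (Lsw H i4 i10 b76)
  have c168 := LP2 H i5 i12 i4 c55 (Lsw H i4 i5 b24) (Lsw H i4 i12 b77)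
  have c170 := LP2 H i5 i14 i2 c49 b63 (Lsw H i2 i14 b69)
  have c171 := LP2 H i5 i16 i2 c39.symm b63 (Lsw H i2 i16 b71)
  have c173 := LP2 H i6 i11 i3 c50 (Lsw H i3 i6 b22) (Lsw H i3 i11 b73)
  have c174 := LP2 H i6 i12 i3 c59 (Lsw H i3 i6 b22) (Lsw H i3 i12 b74)
  have c175 := LP2 H i6 i14 i2 c35.symm b64 (Lsw H i2 i14 b69)
  have c177 := LP2 H i7 i10 i4 c27.symm (Lsw H i4 i7 b25) (Lsw H i4 i10 b76)
  have c178 := LP2 H i7 i13 i1 c56 (Lsw H i1 i7 b18) (Lsw H i1 i13 b65)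
  have c179 := LP2 H i7 i13 i4 c56 (Lsw H i4 i7 b25) (Lsw H i4 i13 b78)
  have c180 := LP2 H i7 i15 i1 c52 (Lsw H i1 i7 b18) (Lsw H i1 i15 b67)
  have c181 := LP2 H i7 i17 i1 c41.symm (Lsw H i1 i7 b18) (Lsw H i1 i17 b68)
  have c182 := LP2 H i8 i11 i3 c29.symm (Lsw H i3 i8 b23) (Lsw H i3 i11 b73)
  have c183 := LP2 H i8 i13 i1 c60 (Lsw H i1 i8 b19) (Lsw H i1 i13 b65)
  have c185 := LP2 H i8 i15 i1 c37.symm (Lsw H i1 i8 b19) (Lsw H i1 i15 b67)
  have c186 := LP2 H i8 i17 i1 c51 (Lsw H i1 i8 b19) (Lsw H i1 i17 b68)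
  have c188 := LP2 H i9 i14 i2 c57 (Lsw H i2 i9 b21) (Lsw H i2 i14 b69)
  have c189 := LP2 H i9 i15 i1 c58 (Lsw H i1 i9 b20) (Lsw H i1 i15 b67)
  have c191 := LP2 H i9 i16 i2 c53 (Lsw H i2 i9 b21) (Lsw H i2 i16 b71)
  have c192 := LP2 H i9 i17 i1 c54 (Lsw H i1 i9 b20) (Lsw H i1 i17 b68)
  have c194 := LP2 H i12 i13 i3 c46 (Lsw H i3 i12 b74) (Lsw H i3 i13 b75)
  have c195 := LP2 H i12 i13 i4 c46 (Lsw H i4 i12 b77) (Lsw H i4 i13 b78)
  have c196 := LP2 H i14 i15 i1 c62 (Lsw H i1 i14 b66) (Lsw H i1 i15 b67)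
  have c197 := LP2 H i14 i15 i2 c62 (Lsw H i2 i14 b69) (Lsw H i2 i15 b70)
  have c198 := LP2 H i16 i17 i2 c61 (Lsw H i2 i16 b71) (Lsw H i2 i17 b72)
  have b199 := LP1 H i2 i1 i9 hab.symm b21 b20 (Lsw H i1 i13 b65)
  have b200 := LP1 H i1 i5 i4 c6.symm b2 (Lsw H i4 i5 b24) (Lsw H i5 i6 b79)
  have e201 := (LP1 H i1 i6 i3 c8.symm b1 (Lsw H i3 i6 b22) b79).symm.trans (Lsw H i1 i14 b66)
  have m202 : t19 = t32 := e201.symm
  subst m202
  have c203 := Lck c149 c174.symm b66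
  have b204 := LP1 H i7 i2 i4 c10 (Lsw H i4 i7 b25) b4 (Lsw H i2 i17 b72)
  have e206 := (LP1 H i8 i2 i3 c12 (Lsw H i3 i8 b23) b3 (Lsw H i2 i15 b70)).symm.trans (Lsw H i8 i7 b204)
  have m207 : t23 = t25 := e206
  subst m207
  have c209 := Lck c160 c179.symm b72
  have b210 := LP1 H i9 i3 i1 c14 (Lsw H i1 i9 b20) (Lsw H i1 i3 b1) (Lsw H i3 i12 b74)
  have b211 := LP1 H i9 i3 i2 c14 (Lsw H i2 i9 b21) (Lsw H i2 i3 b3) (Lsw H i3 i13 b75)
  have c212 := Lck c126 c121 b5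
  have c213 := Lck c138 c134 b5
  have b214 := LP1 H i9 i4 i1 c15 (Lsw H i1 i9 b20) (Lsw H i1 i4 b2) (Lsw H i4 i12 b77)
  have b215 := LP1 H i9 i4 i2 c15 (Lsw H i2 i9 b21) (Lsw H i2 i4 b4) (Lsw H i4 i13 b78)
  have c216 := LP2 H i4 i9 i5 c15.symm b24 (Lsw H i5 i9 b210)
  have c217 := LP2 H i4 i9 i7 c15.symm b25 (Lsw H i7 i9 b211)
  have c219 := LP2 H i6 i8 i7 c17 b81 b204
  have c220 := Lco i12 i14 (LP1 H i14 i9 i1 c57.symm (Lsw H i1 i14 b66) (Lsw H i1 i9 b20) (k_one i19 i9 c212))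
  have c221 := Lco i13 i15 (LP1 H i15 i9 i2 c58.symm (Lsw H i2 i15 b70) (Lsw H i2 i9 b21) (k_one i23 i9 c213))
  have c222 := Lco i12 i16 (LP1 H i16 i9 i1 c53.symm b200 (Lsw H i1 i9 b20) (k_one i19 i9 c212))
  have c223 := Lco i13 i17 (LP1 H i17 i9 i2 c54.symm (Lsw H i2 i17 b72) (Lsw H i2 i9 b21) (k_one i23 i9 c213))
  have c225 := LP2 H i16 i17 i1 c61 b200 (Lsw H i1 i17 b68)
  have q226 : Rl [t12, t14, t16, t19, t27, t30] := LJ H i1 i3 i4 b1 b2 b5 b20 b22 b24 b79 b210 b214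
  have c227 : Commute t14 t16 := q226.cm 1 2 rfl rfl
  have c228 : Commute t14 t30 := q226.cm 1 5 rfl rfl
  have c229 : Commute t27 t30 := q226.cm 4 5 rfl rfl
  have q230 : Rl [t13, t15, t17, t23, t28, t31] := LJ H i2 i3 i4 b3 b4 b5 b21 b23 b25 (Lsw H i8 i7 b204) b211 b215
  have c231 : Commute t15 t17 := q230.cm 1 2 rfl rfl
  have c232 : Commute t15 t31 := q230.cm 1 5 rfl rfl
  have c233 : Commute t28 t31 := q230.cm 4 5 rfl rfl
  have q234 : Rl [t30, t12, t14, t16, t19, t27] := q226.mv 5 rfl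
  have c235 := q234.l1 (.cons c55.symm (.cons c49.symm (.cons c39 (.cons c124.symm (.cons c131.symm .nil)))))
  have q236 : Rl [t27, t12, t14, t16, t19, t30] := q226.mv 4 rfl
  have c237 := q236.l1 (.cons c59.symm (.cons c35 (.cons c47.symm (.cons c128.symm (.cons c132.symm .nil)))))
  have q238 : Rl [t31, t13, t15, t17, t23, t28] := q230.mv 5 rfl
  have c239 := q238.l1 (.cons c56.symm (.cons c52.symm (.cons c41 (.cons c136.symm (.cons c144.symm .nil)))))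
  have q240 : Rl [t28, t13, t15, t17, t23, t31] := q230.mv 4 rfl
  have c241 := q240.l1 (.cons c60.symm (.cons c37 (.cons c51.symm (.cons c140.symm (.cons c145.symm .nil)))))
  have c242 := LP2 H i1 i2 i16 hab (Lsw H i16 i1 b200) b71
  have c243 := LP3 H i3 i5 i4 c7.symm b5 (Lsw H i5 i9 b210)
  have c244 := LP3 H i3 i7 i4 c11.symm b5 (Lsw H i7 i9 b211)
  have c245 := Lco i30 i3 (LP1 H i3 i9 i6 c14.symm b22 (Lsw H i6 i9 b214) (k_one i14 i9 c57.symm))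
  have c246 := Lco i31 i3 (LP1 H i3 i9 i8 c14.symm b23 (Lsw H i8 i9 b215) (k_one i15 i9 c58.symm))
  have b247 := LP1 H i4 i6 i3 c9.symm (Lsw H i3 i4 b5) (Lsw H i3 i6 b22) (Lsw H i6 i9 b214)
  have b248 := LP1 H i4 i8 i3 c13.symm (Lsw H i3 i4 b5) (Lsw H i3 i8 b23) (Lsw H i8 i9 b215)
  have c249 := Lck c130.symm c163.symm b210
  have c250 := Lck c129.symm c153.symm b214
  have c251 := Lck c143.symm c163.symm b211
  have c253 := LP2 H i12 i14 i2 c220 b199 (Lsw H i2 i14 b69)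
  have c254 := LP2 H i12 i16 i2 c222 b199 (Lsw H i2 i16 b71)
  have c255 := LP2 H i13 i15 i1 c221 (Lsw H i1 i13 b65) (Lsw H i1 i15 b67)
  have c258 := LP2 H i15 i17 i1 c231 (Lsw H i1 i15 b67) (Lsw H i1 i17 b68)
  have q259 : Rl [t16, t12, t14, t19, t27, t30] := q226.mv 2 rfl
  have q260 : Rl [t12, t16, t14, t19, t27, t30] := q259.mv 1 rfl
  have b261 := Rl.l2 H i12 i16 i3 q260 (.cons c34 (.cons c126 (.cons c100 (.cons c245 .nil)))) (Lsw H i3 i12 b74)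
  have q262 : Rl [t17, t13, t15, t23, t28, t31] := q230.mv 2 rfl
  have q263 : Rl [t13, t17, t15, t23, t28, t31] := q262.mv 1 rfl
  have b264 := Rl.l2 H i13 i17 i3 q263 (.cons c36 (.cons c138 (.cons c102 (.cons c246 .nil)))) (Lsw H i3 i13 b75)
  obtain ⟨t35, b265⟩ : ∃ t, k a t23 = t := ⟨_, rfl⟩
  have i35 := Linv H i1 i23 b265
  obtain ⟨t36, b266⟩ : ∃ t, k a t26 = t := ⟨_, rfl⟩
  have i36 := Linv H i1 i26 b266
  obtain ⟨t37, b267⟩ : ∃ t, k a t28 = t := ⟨_, rfl⟩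
  have i37 := Linv H i1 i28 b267
  obtain ⟨t38, b268⟩ : ∃ t, k a t31 = t := ⟨_, rfl⟩
  have i38 := Linv H i1 i31 b268
  obtain ⟨t39, b269⟩ : ∃ t, k b t19 = t := ⟨_, rfl⟩
  have i39 := Linv H i2 i19 b269
  obtain ⟨t40, b270⟩ : ∃ t, k b t26 = t := ⟨_, rfl⟩
  have i40 := Linv H i2 i26 b270
  obtain ⟨t41, b271⟩ : ∃ t, k b t27 = t := ⟨_, rfl⟩
  have i41 := Linv H i2 i27 b271
  obtain ⟨t42, b272⟩ : ∃ t, k b t30 = t := ⟨_, rfl⟩
  have i42 := Linv H i2 i30 b272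
  obtain ⟨t43, b273⟩ : ∃ t, k b t33 = t := ⟨_, rfl⟩
  have i43 := Linv H i2 i33 b273
  obtain ⟨t44, b274⟩ : ∃ t, k c t18 = t := ⟨_, rfl⟩
  have i44 := Linv H i3 i18 b274
  obtain ⟨t45, b275⟩ : ∃ t, k c t20 = t := ⟨_, rfl⟩
  have i45 := Linv H i3 i20 b275
  obtain ⟨t46, b276⟩ : ∃ t, k c t21 = t := ⟨_, rfl⟩
  have i46 := Linv H i3 i21 b276
  obtain ⟨t47, b277⟩ : ∃ t, k c t22 = t := ⟨_, rfl⟩
  have i47 := Linv H i3 i22 b277
  obtain ⟨t48, b278⟩ : ∃ t, k c t24 = t := ⟨_, rfl⟩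
  have i48 := Linv H i3 i24 b278
  obtain ⟨t49, b279⟩ : ∃ t, k d t18 = t := ⟨_, rfl⟩
  have i49 := Linv H i4 i18 b279
  obtain ⟨t50, b280⟩ : ∃ t, k d t20 = t := ⟨_, rfl⟩
  have i50 := Linv H i4 i20 b280
  obtain ⟨t51, b281⟩ : ∃ t, k d t21 = t := ⟨_, rfl⟩
  have i51 := Linv H i4 i21 b281
  obtain ⟨t52, b282⟩ : ∃ t, k d t22 = t := ⟨_, rfl⟩
  have i52 := Linv H i4 i22 b282
  obtain ⟨t53, b283⟩ : ∃ t, k d t24 = t := ⟨_, rfl⟩
  have i53 := Linv H i4 i24 b283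
  obtain ⟨t54, b284⟩ : ∃ t, k t5 t11 = t := ⟨_, rfl⟩
  have i54 := Linv H i5 i11 b284
  obtain ⟨t55, b285⟩ : ∃ t, k t6 t10 = t := ⟨_, rfl⟩
  have i55 := Linv H i6 i10 b285
  obtain ⟨t56, b286⟩ : ∃ t, k t6 t13 = t := ⟨_, rfl⟩
  have i56 := Linv H i6 i13 b286
  obtain ⟨t57, b287⟩ : ∃ t, k t6 t15 = t := ⟨_, rfl⟩
  have i57 := Linv H i6 i15 b287
  obtain ⟨t58, b288⟩ : ∃ t, k t7 t12 = t := ⟨_, rfl⟩
  have i58 := Linv H i7 i12 b288
  obtain ⟨t59, b289⟩ : ∃ t, k t7 t16 = t := ⟨_, rfl⟩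
  have i59 := Linv H i7 i16 b289
  obtain ⟨t60, b290⟩ : ∃ t, k t9 t10 = t := ⟨_, rfl⟩
  have i60 := Linv H i9 i10 b290
  obtain ⟨t61, b291⟩ : ∃ t, k t9 t11 = t := ⟨_, rfl⟩
  have i61 := Linv H i9 i11 b291
  have c292 := Lkl H i1 i23 b265
  have c294 := Lkl H i1 i26 b266
  have c296 := Lkl H i1 i28 b267
  have c298 := Lkl H i1 i31 b268
  have c300 := Lkl H i2 i19 b269
  have c302 := Lkl H i2 i26 b270
  have c304 := Lkl H i2 i27 b271
  have c305 := Lkr H i2 i27 b271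
  have c306 := Lkl H i2 i30 b272
  have c308 := Lkl H i2 i33 b273
  have c310 := Lkl H i3 i18 b274
  have c311 := Lkr H i3 i18 b274
  have c312 := Lkl H i3 i20 b275
  have c313 := Lkr H i3 i20 b275
  have c314 := Lkl H i3 i21 b276
  have c315 := Lkr H i3 i21 b276
  have c316 := Lkl H i3 i22 b277
  have c317 := Lkr H i3 i22 b277
  have c318 := Lkl H i3 i24 b278
  have c320 := Lkl H i4 i18 b279
  have c322 := Lkl H i4 i20 b280
  have c324 := Lkl H i4 i21 b281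
  have c325 := Lkr H i4 i21 b281
  have c326 := Lkl H i4 i22 b282
  have c328 := Lkl H i4 i24 b283
  have c329 := Lkr H i4 i24 b283
  have c334 := Lkl H i6 i13 b286
  have c336 := Lkl H i6 i15 b287
  have c344 := Lkl H i9 i11 b291
  have c347 := LP3 H i2 i1 i15 hab.symm b70 (Lsw H i1 i23 b265)
  have c348 := LP3 H i1 i2 i16 hab (Lsw H i16 i1 b200) (Lsw H i2 i19 b269)
  have c350 := Lck hab c84.symm b269
  have c351 := Lck hab.symm c92.symm b265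
  have c353 := Lck hab c149.symm b271
  have c354 := Lck hab.symm c150.symm b267
  have c355 := Lck hab c159.symm b272
  have c356 := Lck hab.symm c160.symm b268
  have c357 := LP3 H i1 i5 i8 c6.symm b19 (Lsw H i5 i11 b284)
  have c360 := LP3 H i1 i6 i7 c8.symm b18 (Lsw H i6 i10 b285)
  have c361 := Lck c8.symm c26.symm b285
  have c362 := LP2 H i1 i6 i13 c8.symm b65 b286
  have c364 := LP3 H i1 i10 i4 c26.symm b2 b285
  have c365 := LP2 H i1 i10 i9 c26.symm b20 (Lsw H i9 i10 b290)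
  have c367 := LP3 H i11 i1 i3 c28 (Lsw H i3 i11 b73) (Lsw H i1 i26 b266)
  have c369 := Lck c28 c99.symm b266
  have c370 := LP2 H i1 i12 i7 c30.symm b18 (Lsw H i7 i12 b288)
  have c371 := LP2 H i1 i18 i3 c82.symm b1 (Lsw H i3 i18 b274)
  have c373 := LP2 H i1 i20 i3 c86.symm b1 (Lsw H i3 i20 b275)
  have c378 := Lck c88 c120 b265
  have c379 := Lck c149 c249.symm b266
  have c382 := LP2 H i2 i7 i12 c10.symm (Lsw H i12 i2 b199) b288
  have c385 := LP3 H i8 i2 i5 c12 (Lsw H i5 i8 b80) (Lsw H i2 i33 b273)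
  have c387 := LP2 H i2 i10 i6 c44 (Lsw H i6 i2 b64) (Lsw H i6 i10 b285)
  have c390 := LP3 H i11 i2 i3 c45.symm (Lsw H i3 i11 b73) (Lsw H i2 i26 b270)
  have c392 := LP2 H i2 i11 i9 c45 b21 (Lsw H i9 i11 b291)
  have c395 := LP2 H i2 i13 i6 c32.symm (Lsw H i6 i2 b64) (Lsw H i6 i13 b286)
  have c396 := LP2 H i2 i18 i3 c117 b3 (Lsw H i3 i18 b274)
  have c398 := LP2 H i2 i22 i3 c90.symm b3 (Lsw H i3 i22 b277)
  have c402 := LP2 H i2 i24 i3 c94.symm b3 (Lsw H i3 i24 b278)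
  have c403 := LP2 H i2 i24 i4 c94.symm b4 (Lsw H i4 i24 b283)
  have c405 := Lck c150 c251.symm b270
  have c406 := Lck c150 c194.symm b271
  have c407 := Lck c160 c195.symm b272
  have c410 := LP2 H i3 i7 i16 c11.symm (Lsw H i16 i3 b261) b289
  have c411 := Lck c14.symm c42.symm b290
  have c413 := Lck c14 c116.symm b274
  have c414 := LP3 H i3 i10 i4 c42.symm b5 b290
  have c415 := LP2 H i3 i10 i6 c42.symm b22 (Lsw H i6 i10 b285)
  have c416 := Lck c42 c178 b274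
  have c417 := Lck c42 c180 b275
  have c419 := Lck c42 c170 b277
  have c420 := Lck c42 c171 b278
  have c421 := LP3 H i14 i3 i2 c34 (Lsw H i2 i14 b69) (Lsw H i3 i22 b277)
  have c422 := Lck c34 c91.symm b277
  have c423 := LP3 H i15 i3 i1 c36 (Lsw H i1 i15 b67) (Lsw H i3 i20 b275)
  have c425 := Lck c36 c87.symm b275
  have c426 := LP2 H i3 i19 i2 c126.symm (Lsw H i2 i3 b3) (Lsw H i2 i19 b269)
  have c427 := Lck c126 c196 b275
  have c429 := Lck c126 c118 b277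
  have c431 := LP2 H i3 i23 i1 c138.symm (Lsw H i1 i3 b1) (Lsw H i1 i23 b265)
  have c432 := Lck c138 c119.symm b275
  have c434 := Lck c138 c197.symm b277
  have c435 := Lck c138 c198.symm b278
  have c436 := LP2 H i3 i27 i2 c100.symm (Lsw H i2 i3 b3) (Lsw H i2 i27 b271)
  have c437 := LP2 H i3 i28 i1 c102.symm (Lsw H i1 i3 b1) (Lsw H i1 i28 b267)
  have c438 := LP2 H i3 i30 i2 c245.symm (Lsw H i2 i3 b3) (Lsw H i2 i30 b272)
  have c439 := LP2 H i3 i31 i1 c246.symm (Lsw H i1 i3 b1) (Lsw H i1 i31 b268)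
  have c440 := LP2 H i4 i6 i10 c9.symm b76 b285
  have c441 := LP2 H i4 i6 i13 c9.symm b78 b286
  have c442 := LP2 H i4 i6 i15 c9.symm (Lsw H i15 i4 b248) b287
  have c443 := LP2 H i4 i9 i10 c15.symm b76 b290
  have c444 := Lck c15.symm c43.symm b291
  have c445 := Lck c15 c116.symm b279
  have c446 := LP3 H i4 i11 i3 c43.symm (Lsw H i3 i4 b5) b291
  have c447 := LP2 H i4 i11 i5 c43.symm b24 (Lsw H i5 i11 b284)
  have c450 := Lck c43 c186 b281
  have c453 := LP3 H i16 i4 i2 c38 (Lsw H i2 i16 b71) (Lsw H i4 i24 b283)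
  have c455 := Lck c38 c95.symm b283
  have c456 := LP3 H i17 i4 i1 c40 (Lsw H i1 i17 b68) (Lsw H i4 i21 b281)
  have c457 := Lck c40 c89.symm b281
  have c458 := LP2 H i4 i19 i2 c121.symm (Lsw H i2 i4 b4) (Lsw H i2 i19 b269)
  have c460 := Lck c121 c225 b281
  have c462 := Lck c121 c242 b283
  have c463 := LP2 H i4 i23 i1 c134.symm (Lsw H i1 i4 b2) (Lsw H i1 i23 b265)
  have c465 := Lck c134 c120.symm b281
  have c468 := LP2 H i4 i27 i2 c243.symm (Lsw H i2 i4 b4) (Lsw H i2 i27 b271)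
  have c469 := LP2 H i4 i28 i1 c244.symm (Lsw H i1 i4 b2) (Lsw H i1 i28 b267)
  have c470 := LP2 H i4 i30 i2 c106.symm (Lsw H i2 i4 b4) (Lsw H i2 i30 b272)
  have c471 := LP2 H i4 i31 i1 c108.symm (Lsw H i1 i4 b2) (Lsw H i1 i31 b268)
  have c472 := LP3 H i5 i7 i4 c16 (Lsw H i4 i5 b24) (Lsw H i7 i16 b289)
  have c474 := Lck c16 c39.symm b289
  have c475 := LP2 H i5 i10 i6 c48 b79 (Lsw H i6 i10 b285)
  have c476 := LP2 H i5 i10 i9 c48 b210 (Lsw H i9 i10 b290)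
  have c480 := LP2 H i5 i26 i2 c130 b63 (Lsw H i2 i26 b270)
  have c481 := LP2 H i5 i27 i2 c131 b63 (Lsw H i2 i27 b271)
  have c482 := LP2 H i5 i30 i2 c235.symm b63 (Lsw H i2 i30 b272)
  have c484 := LP3 H i8 i6 i3 c17.symm (Lsw H i3 i8 b23) (Lsw H i6 i15 b287)
  have c485 := Lck c17.symm c60 b286
  have c486 := Lck c17.symm c37.symm b287
  have c490 := Lck c59.symm c46 b286
  have c491 := LP2 H i6 i16 i7 c47 b81 (Lsw H i7 i16 b289)
  have c494 := Lck c165.symm c181.symm b285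
  have c496 := LP2 H i6 i30 i2 c132 b64 (Lsw H i2 i30 b272)
  have c497 := Lck c114 c127.symm b285
  have c503 := LP2 H i7 i23 i1 c136 (Lsw H i1 i7 b18) (Lsw H i1 i23 b265)
  have c505 := LP2 H i7 i28 i1 c144 (Lsw H i1 i7 b18) (Lsw H i1 i28 b267)
  have c509 := LP2 H i8 i24 i3 c164 (Lsw H i3 i8 b23) (Lsw H i3 i24 b278)
  have c510 := LP2 H i8 i28 i1 c241.symm (Lsw H i1 i8 b19) (Lsw H i1 i28 b267)
  have c511 := LP2 H i8 i31 i1 c145 (Lsw H i1 i8 b19) (Lsw H i1 i31 b268)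
  have c513 := LP2 H i9 i13 i6 c33.symm (Lsw H i6 i9 b214) (Lsw H i6 i13 b286)
  have c516 := Lck c116 c178.symm b290
  have c517 := Lck c116 c183.symm b291
  have c518 := LP2 H i9 i19 i2 c212.symm (Lsw H i2 i9 b21) (Lsw H i2 i19 b269)
  have c519 := LP2 H i9 i23 i1 c213.symm (Lsw H i1 i9 b20) (Lsw H i1 i23 b265)
  have c520 := LP2 H i9 i26 i1 c163 (Lsw H i1 i9 b20) (Lsw H i1 i26 b266)
  have c521 := LP2 H i9 i26 i2 c163 (Lsw H i2 i9 b21) (Lsw H i2 i26 b270)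
  have c522 := LP2 H i9 i27 i2 c151 (Lsw H i2 i9 b21) (Lsw H i2 i27 b271)
  have c524 := LP2 H i9 i30 i2 c161 (Lsw H i2 i9 b21) (Lsw H i2 i30 b272)
  have c525 := LP2 H i9 i31 i1 c162 (Lsw H i1 i9 b20) (Lsw H i1 i31 b268)
  have c528 := LP2 H i10 i21 i4 c181 (Lsw H i4 i10 b76) (Lsw H i4 i21 b281)
  have c536 := LP2 H i12 i16 i7 c222 (Lsw H i7 i12 b288) (Lsw H i7 i16 b289)
  have c537 := LP2 H i12 i18 i3 c133 (Lsw H i3 i12 b74) (Lsw H i3 i18 b274)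
  have c544 := LP2 H i12 i27 i2 c101.symm b199 (Lsw H i2 i27 b271)
  have c545 := LP2 H i12 i30 i2 c107.symm b199 (Lsw H i2 i30 b272)
  have c546 := LP2 H i13 i15 i6 c221 (Lsw H i6 i13 b286) (Lsw H i6 i15 b287)
  have c549 := LP2 H i13 i22 i3 c188 (Lsw H i3 i13 b75) (Lsw H i3 i22 b277)
  have c552 := LP2 H i13 i24 i3 c191 (Lsw H i3 i13 b75) (Lsw H i3 i24 b278)
  have c553 := LP2 H i13 i24 i4 c191 (Lsw H i4 i13 b78) (Lsw H i4 i24 b283)
  have c554 := LP2 H i13 i28 i1 c103.symm (Lsw H i1 i13 b65) (Lsw H i1 i28 b267)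
  have c555 := LP2 H i13 i31 i1 c109.symm (Lsw H i1 i13 b65) (Lsw H i1 i31 b268)
  have c557 := LP2 H i14 i26 i1 c173 (Lsw H i1 i14 b66) (Lsw H i1 i26 b266)
  have c559 := LP2 H i14 i27 i2 c174 (Lsw H i2 i14 b69) (Lsw H i2 i27 b271)
  have c560 := LP2 H i14 i30 i2 c228 (Lsw H i2 i14 b69) (Lsw H i2 i30 b272)
  have c563 := LP2 H i15 i26 i2 c182 (Lsw H i2 i15 b70) (Lsw H i2 i26 b270)
  have c565 := LP2 H i15 i31 i1 c232 (Lsw H i1 i15 b67) (Lsw H i1 i31 b268)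
  have c568 := LP2 H i16 i27 i2 c216 (Lsw H i2 i16 b71) (Lsw H i2 i27 b271)
  have c569 := LP2 H i16 i30 i2 c168 (Lsw H i2 i16 b71) (Lsw H i2 i30 b272)
  have c571 := LP2 H i17 i21 i3 c89.symm b264 (Lsw H i3 i21 b276)
  have c572 := LP2 H i17 i28 i1 c217 (Lsw H i1 i17 b68) (Lsw H i1 i28 b267)
  have c574 := LP2 H i18 i20 i3 c255 (Lsw H i3 i18 b274) (Lsw H i3 i20 b275)
  have c575 := LP2 H i18 i20 i4 c255 (Lsw H i4 i18 b279) (Lsw H i4 i20 b280)
  have c578 := LP2 H i18 i22 i3 c253 (Lsw H i3 i18 b274) (Lsw H i3 i22 b277)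
  have c580 := LP2 H i18 i24 i3 c254 (Lsw H i3 i18 b274) (Lsw H i3 i24 b278)
  have c581 := LP2 H i18 i24 i4 c254 (Lsw H i4 i18 b279) (Lsw H i4 i24 b283)
  have c593 := LP2 H i27 i30 i2 c229 (Lsw H i2 i27 b271) (Lsw H i2 i30 b272)
  have c594 := LP2 H i28 i31 i1 c233 (Lsw H i1 i28 b267) (Lsw H i1 i31 b268)
  have b595 := LP1 H i1 i2 i14 hab b66 b69 (Lsw H i2 i19 b269)
  have b596 := LP1 H i2 i1 i15 hab.symm b70 b67 (Lsw H i1 i23 b265)
  have b597 := LP1 H i1 i2 i16 hab (Lsw H i16 i1 b200) b71 (Lsw H i2 i19 b269)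
  have b598 := LP1 H i2 i1 i17 hab.symm b72 b68 (Lsw H i1 i23 b265)
  have b599 := LP1 H i1 i5 i8 c6.symm b19 b80 (Lsw H i5 i11 b284)
  have b600 := LP1 H i1 i6 i7 c8.symm b18 b81 (Lsw H i6 i10 b285)
  have b601 := LP1 H i1 i10 i4 c26.symm b2 (Lsw H i4 i10 b76) b285
  have e602 := (LP1 H i1 i11 i3 c28.symm b1 (Lsw H i3 i11 b73) b284).symm.trans (Lsw H i1 i26 b266)
  have m603 : t36 = t54 := e602.symm
  subst m603
  have c606 := Lck c423 c432.symm b265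
  have c608 := Lck c456 c465.symm b265
  have b609 := LP1 H i8 i2 i5 c12 (Lsw H i5 i8 b80) (Lsw H i5 i2 b63) (Lsw H i2 i33 b273)
  have c610 := LP3 H i2 i10 i4 c44 b4 (Lsw H i10 i8 b609)
  have b611 := LP1 H i11 i2 i3 c45.symm (Lsw H i3 i11 b73) b3 (Lsw H i2 i26 b270)
  have c614 := Lck c453 c462.symm b269
  have b615 := LP1 H i3 i10 i4 c42.symm b5 (Lsw H i4 i10 b76) b290
  have b616 := LP1 H i14 i3 i2 c34 (Lsw H i2 i14 b69) (Lsw H i2 i3 b3) (Lsw H i3 i22 b277)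
  have b617 := LP1 H i15 i3 i1 c36 (Lsw H i1 i15 b67) (Lsw H i1 i3 b1) (Lsw H i3 i20 b275)
  have c618 := Lck c367 c357 b23
  have c622 := Lck c446 c392.symm b75
  have c623 := Lck c446 c517.symm b274
  have b625 := LP1 H i4 i11 i3 c43.symm (Lsw H i3 i4 b5) (Lsw H i3 i11 b73) b291
  have c626 := LP2 H i4 i11 i7 c43.symm b25 (Lsw H i7 i11 b611)
  have b627 := LP1 H i16 i4 i2 c38 (Lsw H i2 i16 b71) (Lsw H i2 i4 b4) (Lsw H i4 i24 b283)
  have b628 := LP1 H i17 i4 i1 c40 (Lsw H i1 i17 b68) (Lsw H i1 i4 b2) (Lsw H i4 i21 b281)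
  have c629 := Lck c364 c360 b25
  have c630 := Lck c364 c415.symm (Lsw H i14 i4 b247)
  have c631 := Lck c364 c494.symm b281
  have c633 := Lck c414 c365.symm b77
  have c635 := Lck c414 c516.symm b279
  have b637 := LP1 H i5 i7 i4 c16 (Lsw H i4 i5 b24) (Lsw H i4 i7 b25) (Lsw H i7 i16 b289)
  have c639 := LP2 H i5 i26 i4 c130 (Lsw H i4 i5 b24) b625
  have c640 := Lck c431.symm c463.symm b79
  have c644 := Lck c439.symm c511.symm b284
  have c645 := Lck c385 c610 (Lsw H i4 i5 b24)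
  have b647 := LP1 H i8 i6 i3 c17.symm (Lsw H i3 i8 b23) (Lsw H i3 i6 b22) (Lsw H i6 i15 b287)
  have c650 := LP2 H i6 i14 i7 c35.symm b81 (Lsw H i7 i14 b616)
  have c651 := LP2 H i6 i29 i3 c129 (Lsw H i3 i6 b22) b615
  have c652 := Lck c463.symm c503.symm b285
  have c654 := Lck c469.symm c505.symm b285
  have c656 := LP2 H i7 i17 i6 c41.symm (Lsw H i6 i7 b81) (Lsw H i6 i17 b628)
  have c657 := LP2 H i7 i26 i4 c143 (Lsw H i4 i7 b25) b625
  have c658 := Lck c426.symm c458.symm (Lsw H i8 i7 b204)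
  have c660 := Lck c436.symm c468.symm (Lsw H i8 i7 b204)
  have c661 := Lck c438.symm c470.symm (Lsw H i8 i7 b204)
  have c662 := LP2 H i8 i15 i5 c37.symm (Lsw H i5 i8 b80) (Lsw H i5 i15 b617)
  have c665 := LP2 H i9 i29 i1 c153 (Lsw H i1 i9 b20) b601
  have c666 := LP2 H i12 i14 i7 c220 (Lsw H i7 i12 b288) (Lsw H i7 i14 b616)
  have c670 := Lco i20 i26 (LP1 H i26 i15 i1 c182.symm (Lsw H i1 i26 b266) (Lsw H i1 i15 b67) (k_one i36 i15 c618))
  have c673 := Lco i24 i33 (LP1 H i33 i16 i2 c158.symm (Lsw H i2 i33 b273) (Lsw H i2 i16 b71) (k_one i43 i16 c645))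
  have c674 := Lco i21 i29 (LP1 H i29 i17 i1 c177.symm b601 (Lsw H i1 i17 b68) (k_one i55 i17 c629))
  have c675 := Lco i21 i34 (LP1 H i34 i17 i1 c157.symm b600 (Lsw H i1 i17 b68) (k_one i55 i17 c629))
  have c680 := Lco i35 i24 (LP1 H i24 i23 i1 c198 b597 (Lsw H i1 i23 b265) (k_one i39 i23 c658))
  have c682 := LP2 H i1 i5 i17 c6.symm b68 (Lsw H i17 i5 b637)
  have c685 := LP3 H i2 i7 i6 c10.symm (Lsw H i6 i2 b64) (Lsw H i7 i11 b611)
  have c686 := LP2 H i2 i8 i14 c12.symm b69 (Lsw H i14 i8 b647)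
  have b687 := LP1 H i2 i10 i4 c44 b4 (Lsw H i4 i10 b76) (Lsw H i10 i8 b609)
  have c690 := LP3 H i3 i5 i8 c7.symm b23 (Lsw H i5 i15 b617)
  have c691 := LP3 H i3 i7 i6 c11.symm b22 (Lsw H i7 i14 b616)
  have c692 := Lck c390 c685 b22
  have c693 := Lck c484 c686.symm b277
  have c694 := LP3 H i4 i6 i7 c9.symm b25 (Lsw H i6 i17 b628)
  have c695 := LP3 H i4 i8 i5 c13.symm b24 (Lsw H i8 i16 b627)
  have c696 := Lck c472 c682.symm b281
  have c697 := Lck c16 c49 b616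
  have c698 := Lck c16.symm c52 b617
  have c700 := Lck c49.symm c62 b617
  have c703 := Lck c17 c47 b627
  have c704 := Lck c17.symm c51 b628
  have c705 := Lck c47.symm c61 b628
  have c706 := Lck c52.symm c62.symm b616
  have c708 := Lck c438.symm c496.symm b611
  have c709 := Lck c360 c387.symm b611
  have c711 := Lck c360 c415.symm b616
  have c712 := Lck c51.symm c61.symm b627
  have c713 := Lck c357 c447.symm b627
  have c715 := Lck c468.symm c481.symm (Lsw H i10 i8 b609)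
  have c717 := LP2 H i9 i29 i2 c153 (Lsw H i2 i9 b21) b687
  have c718 := Lco i51 i10 (LP1 H i10 i21 i4 c181 (Lsw H i4 i10 b76) (Lsw H i4 i21 b281) (k_one i29 i21 c674.symm))
  have c719 := Lco i45 i11 (LP1 H i11 i20 i3 c185 (Lsw H i3 i11 b73) (Lsw H i3 i20 b275) (k_one i26 i20 c670.symm))
  have c720 := Lck c450.symm c694 (Lsw H i7 i11 b611)
  have c722 := LP2 H i14 i16 i8 c227 b647 (Lsw H i8 i16 b627)
  have c723 := Lco i22 i26 (LP1 H i26 i14 i2 c173.symm (Lsw H i2 i26 b270) (Lsw H i2 i14 b69) (k_one i40 i14 c692))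
  have c725 := Lco i24 i29 (LP1 H i29 i16 i2 c167.symm b687 (Lsw H i2 i16 b71) (k_one i43 i16 c645))
  have b731 := LP1 H i2 i7 i6 c10.symm (Lsw H i6 i2 b64) (Lsw H i6 i7 b81) (Lsw H i7 i11 b611)
  have c732 := Lck c421 c691 (Lsw H i6 i2 b64)
  have c733 := Lck c453 c695 (Lsw H i5 i2 b63)
  have b734 := LP1 H i3 i5 i8 c7.symm b23 b80 (Lsw H i5 i15 b617)
  have b735 := LP1 H i3 i7 i6 c11.symm b22 (Lsw H i6 i7 b81) (Lsw H i7 i14 b616)
  have b736 := LP1 H i4 i6 i7 c9.symm b25 b81 (Lsw H i6 i17 b628)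
  have b737 := LP1 H i4 i8 i5 c13.symm b24 (Lsw H i5 i8 b80) (Lsw H i8 i16 b627)
  have c741 := Lck c703.symm c712.symm b628
  have c745 := Lco i29 i34 (LP1 H i34 i10 i4 c127.symm b736 (Lsw H i4 i10 b76) (k_one i51 i10 c718))
  have c747 := Lco i26 i34 (LP1 H i34 i11 i3 c135.symm b735 (Lsw H i3 i11 b73) (k_one i47 i11 c732))
  have c750 := LP2 H i21 i34 i3 c675 (Lsw H i3 i21 b276) b735
  have c753 := LP2 H i24 i29 i3 c725 (Lsw H i3 i24 b278) b615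
  have c754 := LP2 H i24 i33 i3 c673 (Lsw H i3 i24 b278) b734
  obtain ⟨t62, b762⟩ : ∃ t, k a t40 = t := ⟨_, rfl⟩
  have i62 := Linv H i1 i40 b762
  obtain ⟨t63, b763⟩ : ∃ t, k a t44 = t := ⟨_, rfl⟩
  have i63 := Linv H i1 i44 b763
  obtain ⟨t64, b764⟩ : ∃ t, k a t47 = t := ⟨_, rfl⟩
  have i64 := Linv H i1 i47 b764
  obtain ⟨t65, b765⟩ : ∃ t, k a t48 = t := ⟨_, rfl⟩
  have i65 := Linv H i1 i48 b765
  obtain ⟨t66, b766⟩ : ∃ t, k a t53 = t := ⟨_, rfl⟩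
  have i66 := Linv H i1 i53 b766
  obtain ⟨t67, b767⟩ : ∃ t, k a t56 = t := ⟨_, rfl⟩
  have i67 := Linv H i1 i56 b767
  obtain ⟨t68, b768⟩ : ∃ t, k a t57 = t := ⟨_, rfl⟩
  have i68 := Linv H i1 i57 b768
  obtain ⟨t69, b769⟩ : ∃ t, k b t44 = t := ⟨_, rfl⟩
  have i69 := Linv H i2 i44 b769
  obtain ⟨t70, b770⟩ : ∃ t, k b t45 = t := ⟨_, rfl⟩
  have i70 := Linv H i2 i45 b770
  obtain ⟨t71, b771⟩ : ∃ t, k b t48 = t := ⟨_, rfl⟩
  have i71 := Linv H i2 i48 b771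
  obtain ⟨t72, b772⟩ : ∃ t, k b t49 = t := ⟨_, rfl⟩
  have i72 := Linv H i2 i49 b772
  obtain ⟨t73, b773⟩ : ∃ t, k b t50 = t := ⟨_, rfl⟩
  have i73 := Linv H i2 i50 b773
  obtain ⟨t74, b774⟩ : ∃ t, k b t51 = t := ⟨_, rfl⟩
  have i74 := Linv H i2 i51 b774
  obtain ⟨t75, b775⟩ : ∃ t, k c t41 = t := ⟨_, rfl⟩
  have i75 := Linv H i3 i41 b775
  obtain ⟨t76, b776⟩ : ∃ t, k c t42 = t := ⟨_, rfl⟩
  have i76 := Linv H i3 i42 b776
  obtain ⟨t77, b777⟩ : ∃ t, k c t49 = t := ⟨_, rfl⟩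
  have i77 := Linv H i3 i49 b777
  obtain ⟨t78, b778⟩ : ∃ t, k c t50 = t := ⟨_, rfl⟩
  have i78 := Linv H i3 i50 b778
  obtain ⟨t79, b779⟩ : ∃ t, k c t51 = t := ⟨_, rfl⟩
  have i79 := Linv H i3 i51 b779
  obtain ⟨t80, b780⟩ : ∃ t, k c t52 = t := ⟨_, rfl⟩
  have i80 := Linv H i3 i52 b780
  obtain ⟨t81, b781⟩ : ∃ t, k c t53 = t := ⟨_, rfl⟩
  have i81 := Linv H i3 i53 b781
  obtain ⟨t82, b782⟩ : ∃ t, k c t56 = t := ⟨_, rfl⟩
  have i82 := Linv H i3 i56 b782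
  obtain ⟨t83, b783⟩ : ∃ t, k c t58 = t := ⟨_, rfl⟩
  have i83 := Linv H i3 i58 b783
  obtain ⟨t84, b784⟩ : ∃ t, k d t41 = t := ⟨_, rfl⟩
  have i84 := Linv H i4 i41 b784
  obtain ⟨t85, b785⟩ : ∃ t, k d t44 = t := ⟨_, rfl⟩
  have i85 := Linv H i4 i44 b785
  obtain ⟨t86, b786⟩ : ∃ t, k d t45 = t := ⟨_, rfl⟩
  have i86 := Linv H i4 i45 b786
  obtain ⟨t87, b787⟩ : ∃ t, k d t46 = t := ⟨_, rfl⟩
  have i87 := Linv H i4 i46 b787
  obtain ⟨t88, b788⟩ : ∃ t, k d t47 = t := ⟨_, rfl⟩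
  have i88 := Linv H i4 i47 b788
  obtain ⟨t89, b789⟩ : ∃ t, k d t48 = t := ⟨_, rfl⟩
  have i89 := Linv H i4 i48 b789
  obtain ⟨t90, b790⟩ : ∃ t, k d t56 = t := ⟨_, rfl⟩
  have i90 := Linv H i4 i56 b790
  obtain ⟨t91, b791⟩ : ∃ t, k d t58 = t := ⟨_, rfl⟩
  have i91 := Linv H i4 i58 b791
  obtain ⟨t92, b792⟩ : ∃ t, k t5 t31 = t := ⟨_, rfl⟩
  have i92 := Linv H i5 i31 b792
  obtain ⟨t93, b793⟩ : ∃ t, k t5 t34 = t := ⟨_, rfl⟩
  have i93 := Linv H i5 i34 b793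
  obtain ⟨t94, b794⟩ : ∃ t, k t6 t23 = t := ⟨_, rfl⟩
  have i94 := Linv H i6 i23 b794
  obtain ⟨t95, b795⟩ : ∃ t, k t6 t24 = t := ⟨_, rfl⟩
  have i95 := Linv H i6 i24 b795
  obtain ⟨t96, b796⟩ : ∃ t, k t6 t26 = t := ⟨_, rfl⟩
  have i96 := Linv H i6 i26 b796
  obtain ⟨t97, b797⟩ : ∃ t, k t6 t28 = t := ⟨_, rfl⟩
  have i97 := Linv H i6 i28 b797
  obtain ⟨t98, b798⟩ : ∃ t, k t7 t29 = t := ⟨_, rfl⟩
  have i98 := Linv H i7 i29 b798
  obtain ⟨t99, b799⟩ : ∃ t, k t9 t21 = t := ⟨_, rfl⟩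
  have i99 := Linv H i9 i21 b799
  obtain ⟨t100, b800⟩ : ∃ t, k t9 t22 = t := ⟨_, rfl⟩
  have i100 := Linv H i9 i22 b800
  obtain ⟨t101, b801⟩ : ∃ t, k t9 t24 = t := ⟨_, rfl⟩
  have i101 := Linv H i9 i24 b801
  obtain ⟨t102, b802⟩ : ∃ t, k t9 t33 = t := ⟨_, rfl⟩
  have i102 := Linv H i9 i33 b802
  obtain ⟨t103, b803⟩ : ∃ t, k t9 t34 = t := ⟨_, rfl⟩
  have i103 := Linv H i9 i34 b803
  obtain ⟨t104, b804⟩ : ∃ t, k t10 t15 = t := ⟨_, rfl⟩
  have i104 := Linv H i10 i15 b804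
  obtain ⟨t105, b805⟩ : ∃ t, k t12 t15 = t := ⟨_, rfl⟩
  have i105 := Linv H i12 i15 b805
  have c806 := Lkl H i1 i40 b762
  have c808 := Lkl H i1 i44 b763
  have c810 := Lkl H i1 i47 b764
  have c811 := Lkr H i1 i47 b764
  have c812 := Lkl H i1 i48 b765
  have c814 := Lkl H i1 i53 b766
  have c816 := Lkl H i1 i56 b767
  have c817 := Lkr H i1 i56 b767
  have c820 := Lkl H i2 i44 b769
  have c821 := Lkr H i2 i44 b769
  have c822 := Lkl H i2 i45 b770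
  have c826 := Lkl H i2 i49 b772
  have c828 := Lkl H i2 i50 b773
  have c830 := Lkl H i2 i51 b774
  have c832 := Lkl H i3 i41 b775
  have c833 := Lkr H i3 i41 b775
  have c834 := Lkl H i3 i42 b776
  have c835 := Lkr H i3 i42 b776
  have c836 := Lkl H i3 i49 b777
  have c838 := Lkl H i3 i50 b778
  have c840 := Lkl H i3 i51 b779
  have c841 := Lkr H i3 i51 b779
  have c842 := Lkl H i3 i52 b780
  have c844 := Lkl H i3 i53 b781
  have c846 := Lkl H i3 i56 b782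
  have c849 := Lkr H i3 i58 b783
  have c850 := Lkl H i4 i41 b784
  have c851 := Lkr H i4 i41 b784
  have c854 := Lkl H i4 i45 b786
  have c856 := Lkl H i4 i46 b787
  have c858 := Lkl H i4 i47 b788
  have c860 := Lkl H i4 i48 b789
  have c862 := Lkl H i4 i56 b790
  have c863 := Lkr H i4 i56 b790
  have c874 := Lkl H i6 i26 b796
  have c878 := Lkl H i7 i29 b798
  have c880 := Lkl H i9 i21 b799
  have c881 := Lkr H i9 i21 b799
  have c883 := Lkr H i9 i22 b800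
  have c888 := Lkl H i9 i34 b803
  have c891 := Lkr H i10 i15 b804
  have c896 := Lck hab.symm c302.symm b762
  have c898 := Lck hab c423.symm b770
  have c899 := Lck hab.symm c421.symm b764
  have c901 := Lck hab c456.symm b774
  have c902 := Lck hab.symm c453.symm b766
  have c908 := LP3 H i6 i1 i13 c8 b286 (Lsw H i1 i56 b767)
  have c909 := LP3 H i6 i1 i15 c8 b287 (Lsw H i1 i57 b768)
  have c915 := Lck c8 c691.symm b764
  have c916 := Lck c8 c703 b766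
  have c917 := Lck c8 c334.symm b767
  have c931 := Lck c30 c490 b767
  have c932 := LP3 H i18 i1 i3 c82 (Lsw H i3 i18 b274) (Lsw H i1 i44 b763)
  have c933 := Lck c82 c311.symm b763
  have c942 := Lck c159 c513 b767
  have c953 := LP2 H i1 i41 i3 c353 b1 (Lsw H i3 i41 b775)
  have c954 := LP2 H i1 i41 i4 c353 b2 (Lsw H i4 i41 b784)
  have c956 := LP2 H i1 i42 i3 c355 b1 (Lsw H i3 i42 b776)
  have c975 := Lck c10 c402 b771
  have c977 := Lck c12 c690.symm b770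
  have c980 := LP2 H i2 i10 i15 c44 b70 b804
  have c982 := Lck c44.symm c417 b770
  have c983 := Lck c44.symm c420 b771
  have c989 := LP3 H i18 i2 i3 c117.symm (Lsw H i3 i18 b274) (Lsw H i2 i44 b769)
  have c990 := LP3 H i18 i2 i4 c117.symm (Lsw H i4 i18 b279) (Lsw H i2 i49 b772)
  have c991 := Lck c117.symm c311.symm b769
  have c999 := LP3 H i24 i2 i3 c94 (Lsw H i3 i24 b278) (Lsw H i2 i48 b771)
  have c1000 := LP2 H i2 i24 i6 c94.symm (Lsw H i6 i2 b64) (Lsw H i6 i24 b795)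
  have c1019 := Lck c421 c578.symm b769
  have c1026 := Lck c7.symm c246.symm b792
  have c1028 := Lck c7 c695.symm b781
  have c1030 := LP3 H i7 i3 i12 c11 b288 (Lsw H i3 i58 b783)
  have c1035 := LP2 H i3 i9 i22 c14.symm b277 b800
  have c1040 := LP3 H i3 i10 i8 c42.symm b23 (Lsw H i10 i15 b804)
  have c1041 := Lck c42.symm c36.symm b804
  have c1045 := Lck c42 c733.symm b781
  have c1051 := Lck c126 c462 b781
  have c1053 := Lck c138 c660.symm b775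
  have c1054 := Lck c138 c661.symm b776
  have c1056 := Lck c138 c465 b779
  have c1059 := LP2 H i3 i26 i6 c98.symm b22 (Lsw H i6 i26 b796)
  have c1060 := LP3 H i27 i3 i2 c100 (Lsw H i2 i27 b271) (Lsw H i3 i41 b775)
  have c1064 := Lck c102 c406 b775
  have c1066 := LP3 H i30 i3 i2 c245 (Lsw H i2 i30 b272) (Lsw H i3 i42 b776)
  have c1073 := LP3 H i3 i31 i1 c246.symm (Lsw H i1 i3 b1) b792
  have c1074 := Lck c246 c407 b776
  have c1078 := Lck c246 c553 b781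
  have c1083 := Lck c390 c708.symm b776
  have c1087 := Lco i70 i3 (LP1 H i3 i45 i2 c312.symm (Lsw H i2 i3 b3) (Lsw H i2 i45 b770) (k_one i7 i45 c698))
  have c1089 := LP2 H i3 i46 i4 c314.symm b5 (Lsw H i4 i46 b787)
  have c1090 := Lco i64 i3 (LP1 H i3 i47 i1 c316.symm (Lsw H i1 i3 b1) (Lsw H i1 i47 b764) (k_one i5 i47 c697))
  have c1091 := LP2 H i3 i47 i4 c316.symm b5 (Lsw H i4 i47 b788)
  have c1095 := LP2 H i3 i57 i1 c484.symm (Lsw H i1 i3 b1) (Lsw H i1 i57 b768)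
  have c1105 := LP3 H i6 i4 i13 c9 b286 (Lsw H i4 i56 b790)
  have c1106 := Lck c9.symm c134.symm b794
  have c1109 := Lck c9.symm c244.symm b797
  have c1110 := Lck c9 c691.symm b788
  have c1111 := Lck c9 c334.symm b790
  have c1112 := Lck c13 c690.symm b786
  have c1113 := Lck c13 c485 b790
  have c1114 := LP2 H i4 i9 i21 c15.symm b281 b799
  have c1118 := LP2 H i4 i9 i34 c15.symm (Lsw H i34 i4 b736) b803
  have c1120 := Lck c43 c719.symm b786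
  have c1121 := Lck c43 c732.symm b788
  have c1125 := Lck c121 c429 b788
  have c1127 := LP3 H i4 i23 i1 c134.symm (Lsw H i1 i4 b2) b794
  have c1128 := Lck c134 c660.symm b784
  have c1133 := LP3 H i27 i4 i2 c243 (Lsw H i2 i27 b271) (Lsw H i4 i41 b784)
  have c1134 := Lck c243 c305.symm b784
  have c1140 := LP3 H i4 i28 i1 c244.symm (Lsw H i1 i4 b2) b797
  have c1141 := Lck c244 c406 b784
  have c1143 := Lck c244 c571 b787
  have c1144 := Lck c244 c549 b788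
  have c1147 := LP2 H i4 i29 i7 c104.symm b25 (Lsw H i7 i29 b798)
  have c1149 := LP2 H i4 i31 i5 c108.symm b24 (Lsw H i5 i31 b792)
  have c1150 := Lck c108 c441 b790
  have c1153 := Lco i77 i4 (LP1 H i4 i49 i3 c320.symm (Lsw H i3 i4 b5) (Lsw H i3 i49 b777) (k_one i9 i49 c445))
  have c1156 := Lco i74 i4 (LP1 H i4 i51 i2 c324.symm (Lsw H i2 i4 b4) (Lsw H i2 i51 b774) (k_one i8 i51 c704))
  have c1160 := Lco i66 i4 (LP1 H i4 i53 i1 c328.symm (Lsw H i1 i4 b2) (Lsw H i1 i53 b766) (k_one i6 i53 c703))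
  have c1173 := LP3 H i7 i5 i6 c16.symm (Lsw H i6 i7 b81) (Lsw H i5 i34 b793)
  have c1183 := Lck c235 c195 b792
  have c1186 := Lco i69 i5 (LP1 H i5 i44 i2 c371 b63 (Lsw H i2 i44 b769) (k_one i10 i44 c416))
  have c1191 := LP2 H i5 i47 i4 c697 (Lsw H i4 i5 b24) (Lsw H i4 i47 b788)
  have c1196 := LP3 H i8 i6 i7 c17.symm b204 (Lsw H i6 i23 b794)
  have c1200 := LP3 H i11 i6 i3 c50.symm (Lsw H i3 i11 b73) (Lsw H i6 i26 b796)
  have c1203 := LP3 H i16 i6 i2 c47.symm (Lsw H i2 i16 b71) (Lsw H i6 i24 b795)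
  have c1230 := LP2 H i6 i53 i3 c703 (Lsw H i3 i6 b22) (Lsw H i3 i53 b781)
  have c1233 := LP3 H i10 i7 i4 c27 (Lsw H i4 i10 b76) (Lsw H i7 i29 b798)
  have c1234 := Lck c27.symm c52 b804
  have c1236 := LP3 H i7 i15 i1 c52 (Lsw H i1 i7 b18) b804
  have c1237 := LP2 H i7 i15 i12 c52 b288 (Lsw H i12 i15 b805)
  have c1239 := Lco i96 i7 (LP1 H i7 i26 i6 c143 (Lsw H i6 i7 b81) (Lsw H i6 i26 b796) (k_one i34 i26 c747.symm))
  have c1240 := LP2 H i7 i28 i6 c144 (Lsw H i6 i7 b81) (Lsw H i6 i28 b797)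
  have c1243 := LP2 H i7 i41 i4 c436 (Lsw H i4 i7 b25) (Lsw H i4 i41 b784)
  have c1244 := Lco i63 i7 (LP1 H i7 i44 i1 c396 (Lsw H i1 i7 b18) (Lsw H i1 i44 b763) (k_one i10 i44 c416))
  have c1247 := Lco i64 i7 (LP1 H i7 i47 i1 c398 (Lsw H i1 i7 b18) (Lsw H i1 i47 b764) (k_one i10 i47 c419))
  have c1248 := LP2 H i7 i47 i4 c398 (Lsw H i4 i7 b25) (Lsw H i4 i47 b788)
  have c1251 := Lck c694 c528.symm b798
  have c1256 := LP2 H i8 i29 i7 c142 b204 (Lsw H i7 i29 b798)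
  have c1259 := LP2 H i8 i41 i3 c468 (Lsw H i3 i8 b23) (Lsw H i3 i41 b775)
  have c1260 := LP2 H i8 i42 i3 c470 (Lsw H i3 i8 b23) (Lsw H i3 i42 b776)
  have c1262 := LP2 H i8 i51 i3 c704 (Lsw H i3 i8 b23) (Lsw H i3 i51 b779)
  have c1266 := Lco i67 i8 (LP1 H i8 i56 i1 c485 (Lsw H i1 i8 b19) (Lsw H i1 i56 b767) (k_one i11 i56 c395))
  have c1268 := LP2 H i8 i57 i1 c486 (Lsw H i1 i8 b19) (Lsw H i1 i57 b768)
  have c1270 := LP3 H i14 i9 i2 c57.symm (Lsw H i2 i14 b69) (Lsw H i9 i22 b800)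
  have c1273 := LP3 H i9 i15 i1 c58 (Lsw H i1 i9 b20) b805
  have c1276 := LP3 H i16 i9 i2 c53.symm (Lsw H i2 i16 b71) (Lsw H i9 i24 b801)
  have c1279 := LP3 H i17 i9 i1 c54.symm (Lsw H i1 i17 b68) (Lsw H i9 i21 b799)
  have c1280 := Lck c54.symm c89.symm b799
  have c1296 := LP2 H i9 i26 i6 c163 (Lsw H i6 i9 b214) (Lsw H i6 i26 b796)
  have c1297 := Lck c163.symm c723.symm b800
  have c1301 := LP2 H i9 i29 i7 c153 (Lsw H i7 i9 b211) (Lsw H i7 i29 b798)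
  have c1302 := Lck c153.symm c674.symm b799
  have c1306 := LP2 H i9 i31 i5 c162 (Lsw H i5 i9 b210) (Lsw H i5 i31 b792)
  have c1329 := LP2 H i11 i22 i9 c175 (Lsw H i9 i11 b291) (Lsw H i9 i22 b800)
  have c1335 := LP2 H i11 i42 i3 c496 (Lsw H i3 i11 b73) (Lsw H i3 i42 b776)
  have c1354 := Lco i75 i13 (LP1 H i13 i41 i3 c522 (Lsw H i3 i13 b75) (Lsw H i3 i41 b775) (k_one i28 i41 c406))
  have c1355 := LP2 H i13 i41 i4 c522 (Lsw H i4 i13 b78) (Lsw H i4 i41 b784)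
  have c1356 := LP2 H i13 i42 i3 c524 (Lsw H i3 i13 b75) (Lsw H i3 i42 b776)
  have c1365 := LP2 H i14 i47 i4 c422 b247 (Lsw H i4 i47 b788)
  have c1371 := Lco i70 i15 (LP1 H i15 i45 i2 c425 (Lsw H i2 i15 b70) (Lsw H i2 i45 b770) (k_one i23 i45 c432))
  have c1376 := Lco i71 i15 (LP1 H i15 i48 i2 c509 (Lsw H i2 i15 b70) (Lsw H i2 i48 b771) (k_one i23 i48 c435))
  have c1384 := LP2 H i16 i53 i3 c455 b261 (Lsw H i3 i53 b781)
  have c1386 := LP2 H i17 i28 i6 c217 (Lsw H i6 i17 b628) (Lsw H i6 i28 b797)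
  have c1388 := Lco i93 i17 (LP1 H i17 i34 i5 c157 b637 (Lsw H i5 i34 b793) (k_one i59 i34 c491.symm))
  have c1391 := LP2 H i17 i51 i3 c457 b264 (Lsw H i3 i51 b779)
  have c1395 := LP2 H i18 i41 i3 c544 (Lsw H i3 i18 b274) (Lsw H i3 i41 b775)
  have c1397 := LP2 H i18 i42 i3 c545 (Lsw H i3 i18 b274) (Lsw H i3 i42 b776)
  have c1401 := LP2 H i18 i56 i4 c362 (Lsw H i4 i18 b279) (Lsw H i4 i56 b790)
  have c1412 := LP2 H i21 i34 i9 c675 (Lsw H i9 i21 b799) (Lsw H i9 i34 b803)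
  have c1413 := LP2 H i21 i46 i4 c315.symm (Lsw H i4 i21 b281) (Lsw H i4 i46 b787)
  have c1415 := LP2 H i21 i51 i3 c325.symm (Lsw H i3 i21 b276) (Lsw H i3 i51 b779)
  have c1419 := LP2 H i22 i41 i3 c559 (Lsw H i3 i22 b277) (Lsw H i3 i41 b775)
  have c1421 := LP2 H i22 i42 i3 c560 (Lsw H i3 i22 b277) (Lsw H i3 i42 b776)
  have c1433 := LP2 H i24 i41 i3 c568 (Lsw H i3 i24 b278) (Lsw H i3 i41 b775)
  have c1438 := Lco i66 i24 (LP1 H i24 i53 i1 c329.symm b597 (Lsw H i1 i53 b766) (k_one i39 i53 c614.symm))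
  have c1452 := LP2 H i27 i44 i2 c537 (Lsw H i2 i27 b271) (Lsw H i2 i44 b769)
  have c1472 := LP2 H i31 i56 i1 c441 (Lsw H i1 i31 b268) (Lsw H i1 i56 b767)
  have c1480 := LP2 H i34 i47 i4 c650 b736 (Lsw H i4 i47 b788)
  have c1482 := LP2 H i34 i51 i3 c656 b735 (Lsw H i3 i51 b779)
  have c1491 := LP2 H i41 i42 i3 c593 (Lsw H i3 i41 b775) (Lsw H i3 i42 b776)
  have c1492 := LP2 H i44 i45 i2 c574 (Lsw H i2 i44 b769) (Lsw H i2 i45 b770)
  have c1498 := LP2 H i44 i48 i2 c580 (Lsw H i2 i44 b769) (Lsw H i2 i48 b771)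
  have c1502 := LP2 H i45 i48 i2 c754.symm (Lsw H i2 i45 b770) (Lsw H i2 i48 b771)
  have c1504 := LP2 H i46 i47 i4 c750 (Lsw H i4 i46 b787) (Lsw H i4 i47 b788)
  have c1522 := LP2 H i53 i57 i1 c722.symm (Lsw H i1 i53 b766) (Lsw H i1 i57 b768)
  have c1523 := LP2 H i56 i57 i1 c546 (Lsw H i1 i56 b767) (Lsw H i1 i57 b768)
  have b1524 := LP1 H i2 i1 i26 hab.symm b270 b266 (Lsw H i1 i40 b762)
  have b1526 := LP1 H i2 i1 i34 hab.symm (Lsw H i34 i2 b731) (Lsw H i34 i1 b600) (Lsw H i1 i40 b762)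
  have b1527 := LP1 H i6 i1 i13 c8 b286 b65 (Lsw H i1 i56 b767)
  have b1528 := LP1 H i6 i1 i15 c8 b287 b67 (Lsw H i1 i57 b768)
  have b1529 := LP1 H i11 i1 i7 c28 (Lsw H i7 i11 b611) b18 (Lsw H i1 i40 b762)
  have b1530 := LP1 H i18 i1 i3 c82 (Lsw H i3 i18 b274) b1 (Lsw H i1 i44 b763)
  have c1531 := LP3 H i1 i18 i4 c82.symm b2 (Lsw H i18 i6 b1527)
  have c1532 := LP3 H i1 i20 i4 c86.symm b2 (Lsw H i20 i6 b1528)
  have c1539 := Lck c1073 c1149.symm (Lsw H i16 i1 b200)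
  have c1542 := Lck c1127 c1196 b18
  have c1551 := Lck c1140 c1240.symm (Lsw H i34 i1 b600)
  have c1557 := Lck c1279 c1302.symm (Lsw H i29 i1 b601)
  have b1565 := LP1 H i18 i2 i3 c117.symm (Lsw H i3 i18 b274) b3 (Lsw H i2 i44 b769)
  have b1566 := LP1 H i18 i2 i4 c117.symm (Lsw H i4 i18 b279) b4 (Lsw H i2 i49 b772)
  have c1567 := Lco i63 i2 (LP1 H i2 i18 i5 c117 (Lsw H i5 i2 b63) (Lsw H i5 i18 b1530) (k_one i10 i18 c178))
  have c1568 := Lco i67 i2 (LP1 H i2 i18 i6 c117 (Lsw H i6 i2 b64) b1527 (k_one i11 i18 c183))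
  have b1569 := LP1 H i24 i2 i3 c94 (Lsw H i3 i24 b278) b3 (Lsw H i2 i48 b771)
  have c1573 := Lck c1060 c1395.symm b769
  have c1575 := Lck c1066 c1397.symm b769
  have c1580 := Lck c1270 c1297.symm b270
  have c1584 := Lco i93 i3 (LP1 H i3 i5 i34 c7.symm (Lsw H i34 i3 b735) b793 (k_one i47 i5 c697.symm))
  have b1585 := LP1 H i7 i3 i12 c11 b288 b74 (Lsw H i3 i58 b783)
  have c1586 := LP3 H i3 i7 i16 c11.symm (Lsw H i16 i3 b261) b1585
  have b1587 := LP1 H i3 i10 i8 c42.symm b23 b609 (Lsw H i10 i15 b804)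
  have e1589 := (LP1 H i27 i3 i2 c100 (Lsw H i2 i27 b271) (Lsw H i2 i3 b3) (Lsw H i3 i41 b775)).symm.trans (Lsw H i27 i7 b1585)
  have m1590 : t75 = t83 := e1589
  subst m1590
  have b1591 := LP1 H i30 i3 i2 c245 (Lsw H i2 i30 b272) (Lsw H i2 i3 b3) (Lsw H i3 i42 b776)
  have b1592 := LP1 H i3 i31 i1 c246.symm (Lsw H i1 i3 b1) (Lsw H i1 i31 b268) b792
  have b1597 := LP1 H i6 i4 i13 c9 b286 b78 (Lsw H i4 i56 b790)
  have c1598 := LP3 H i4 i6 i15 c9.symm (Lsw H i15 i4 b248) b1597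
  have c1599 := LP2 H i4 i6 i18 c9.symm b279 (Lsw H i18 i6 b1527)
  have c1601 := Lco i95 i4 (LP1 H i4 i6 i24 c9.symm b283 b795 (k_one i53 i6 c703.symm))
  have b1603 := LP1 H i4 i23 i1 c134.symm (Lsw H i1 i4 b2) (Lsw H i1 i23 b265) b794
  have b1604 := LP1 H i27 i4 i2 c243 (Lsw H i2 i27 b271) (Lsw H i2 i4 b4) (Lsw H i4 i41 b784)
  have c1605 := LP2 H i4 i27 i7 c243.symm b25 b1585
  have b1606 := LP1 H i4 i28 i1 c244.symm (Lsw H i1 i4 b2) (Lsw H i1 i28 b267) b797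
  have c1607 := LP2 H i4 i30 i7 c106.symm b25 (Lsw H i7 i30 b1591)
  have c1608 := LP3 H i4 i31 i1 c108.symm (Lsw H i1 i4 b2) (Lsw H i31 i6 b1597)
  have c1609 := LP2 H i4 i43 i3 c610.symm (Lsw H i3 i4 b5) b1587
  have b1617 := LP1 H i7 i5 i6 c16.symm (Lsw H i6 i7 b81) b79 (Lsw H i5 i34 b793)
  have c1618 := LP3 H i5 i7 i9 c16 b210 b1585
  have b1619 := LP1 H i12 i5 i2 c55.symm b199 b63 (Lsw H i5 i18 b1530)
  have c1622 := LP2 H i5 i37 i4 c437 (Lsw H i4 i5 b24) b1606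
  have c1625 := Lck c1095.symm c1532 (Lsw H i4 i5 b24)
  have c1627 := Lck c953.symm c1605.symm (Lsw H i17 i5 b637)
  have b1633 := LP1 H i8 i6 i7 c17.symm b204 b81 (Lsw H i6 i23 b794)
  have c1634 := LP3 H i8 i6 i9 c17.symm b215 b1597
  have b1635 := LP1 H i11 i6 i3 c50.symm (Lsw H i3 i11 b73) (Lsw H i3 i6 b22) (Lsw H i6 i26 b796)
  have b1636 := LP1 H i12 i6 i2 c59.symm b199 b64 b1527
  have c1638 := LP3 H i6 i14 i2 c35.symm b64 (Lsw H i14 i11 b1635)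
  have b1639 := LP1 H i16 i6 i2 c47.symm (Lsw H i2 i16 b71) b64 (Lsw H i6 i24 b795)
  have c1640 := Lco i98 i6 (LP1 H i6 i29 i7 c129 b81 (Lsw H i7 i29 b798) (k_one i34 i29 c745.symm))
  have c1641 := LP2 H i6 i30 i7 c132 b81 (Lsw H i7 i30 b1591)
  have c1642 := LP2 H i6 i38 i3 c471 (Lsw H i3 i6 b22) b1592
  have c1645 := Lck c916.symm c1438 b795
  have c1656 := Lck c1111.symm c1598 b287
  have c1657 := Lck c1173 c1388 b628
  have b1659 := LP1 H i10 i7 i4 c27 (Lsw H i4 i10 b76) (Lsw H i4 i7 b25) (Lsw H i7 i29 b798)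
  have c1661 := LP3 H i13 i7 i1 c56.symm (Lsw H i1 i13 b65) (Lsw H i7 i18 b1565)
  have b1662 := LP1 H i7 i15 i1 c52 (Lsw H i1 i7 b18) (Lsw H i1 i15 b67) b804
  have c1663 := LP3 H i7 i17 i1 c41.symm (Lsw H i1 i7 b18) (Lsw H i17 i10 b1659)
  have c1670 := Lck c1234.symm c1609.symm b211
  have c1672 := LP3 H i13 i8 i1 c60.symm (Lsw H i1 i13 b65) (Lsw H i8 i18 b1566)
  have c1673 := Lco i71 i8 (LP1 H i8 i24 i7 c164 b204 (Lsw H i7 i24 b1569) (k_one i23 i24 c198.symm))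
  have c1677 := Lck c1040 c1609.symm b215
  have b1680 := LP1 H i14 i9 i2 c57.symm (Lsw H i2 i14 b69) (Lsw H i2 i9 b21) (Lsw H i9 i22 b800)
  have b1681 := LP1 H i9 i15 i1 c58 (Lsw H i1 i9 b20) (Lsw H i1 i15 b67) b805
  have b1684 := LP1 H i17 i9 i1 c54.symm (Lsw H i1 i17 b68) (Lsw H i1 i9 b20) (Lsw H i9 i21 b799)
  have c1687 := Lco i29 i35 (LP1 H i35 i10 i4 c503.symm b1603 (Lsw H i4 i10 b76) (k_one i94 i10 c1542))
  have c1688 := LP2 H i10 i37 i4 c505 (Lsw H i4 i10 b76) b1606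
  have c1689 := Lck c982.symm c1371 b804
  have c1691 := Lck c983.symm c1376 b804
  have c1702 := LP2 H i12 i18 i7 c133 (Lsw H i7 i12 b288) (Lsw H i7 i18 b1565)
  have c1704 := LP2 H i12 i30 i7 c107.symm (Lsw H i7 i12 b288) (Lsw H i7 i30 b1591)
  have c1706 := Lck c908 c1531 (Lsw H i4 i13 b78)
  have c1707 := Lck c1105 c1608 (Lsw H i1 i13 b65)
  have c1709 := Lck c1059.symm c1638 (Lsw H i2 i14 b69)
  have c1710 := LP2 H i15 i17 i10 c231 (Lsw H i10 i15 b804) b1659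
  have c1712 := LP2 H i15 i35 i4 c347.symm b248 b1603
  have c1713 := Lck c909 c1532 b248
  have c1718 := Lck c1147.symm c1663 (Lsw H i1 i17 b68)
  have c1719 := LP2 H i18 i24 i6 c254 b1527 (Lsw H i6 i24 b795)
  have c1726 := LP2 H i20 i26 i6 c670 b1528 (Lsw H i6 i26 b796)
  have c1734 := Lco i90 i23 (LP1 H i23 i31 i6 c209.symm (Lsw H i6 i23 b794) b1597 (k_one i94 i31 c1712.symm))
  have c1735 := Lck c1256.symm c1663 (Lsw H i1 i23 b265)
  have c1736 := LP2 H i24 i29 i7 c725 (Lsw H i7 i24 b1569) (Lsw H i7 i29 b798)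
  have c1741 := Lck c1301.symm c1663 (Lsw H i1 i28 b267)
  have c1742 := Lck c1301.symm c1640 (Lsw H i6 i28 b797)
  have c1746 := Lck c1296.symm c1638 (Lsw H i2 i30 b272)
  have c1747 := Lco i38 i56 (LP1 H i56 i31 i1 c441.symm (Lsw H i1 i56 b767) (Lsw H i1 i31 b268) (k_one i67 i31 c1706))
  have c1748 := Lco i38 i57 (LP1 H i57 i31 i1 c442.symm (Lsw H i1 i57 b768) (Lsw H i1 i31 b268) (k_one i68 i31 c1713))
  have c1750 := Lck c1150.symm c1608 (Lsw H i1 i31 b268)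
  have c1762 := Lck c817 c1531 (Lsw H i4 i56 b790)
  have q1764 : Rl [t21, t29, t34, t55, t51, t98] := LJ H i1 i4 i7 b2 b18 b25 b68 b76 (Lsw H i6 i7 b81) b285 b628 (Lsw H i17 i10 b1659)
  have q1765 : Rl [t22, t26, t34, t40, t47, t96] := LJ H i2 i3 i6 b3 (Lsw H i6 i2 b64) b22 b69 b73 b81 b611 b616 (Lsw H i14 i11 b1635)
  have c1766 := q226.l1 (.cons c1642 (.cons c1149 (.cons c1539.symm (.cons c1306 (.cons c1183 .nil)))))
  have q1768 : Rl [t31, t13, t15, t17, t23, t28] := q230.mv 5 rfl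
  have c1769 := q1768.l1 (.cons c1354.symm (.cons c1259 (.cons c1605 (.cons c1053 (.cons c1064 .nil)))))
  have c1770 := q230.l1 (.cons c1260 (.cons c1607 (.cons c1054 (.cons c1356 (.cons c1074 .nil)))))
  have q1771 : Rl [t29, t21, t34, t55, t51, t98] := q1764.mv 1 rfl
  have b1772 := Rl.l2 H i29 i21 i7 q1771 (.cons c115 (.cons c360 (.cons c694 (.cons c878 .nil)))) (Lsw H i7 i29 b798)
  have q1773 : Rl [t34, t21, t29, t55, t51, t98] := q1764.mv 2 rfl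
  have c1774 := q1773.l1 (.cons c378 (.cons c1687 (.cons c652.symm (.cons c608 (.cons c1735 .nil)))))
  have c1775 := q1764.l1 (.cons c1688 (.cons c1240 (.cons c1551.symm (.cons c1386 (.cons c1742 .nil)))))
  have q1776 : Rl [t26, t22, t34, t40, t47, t96] := q1765.mv 1 rfl
  have b1777 := Rl.l2 H i26 i22 i6 q1776 (.cons c114 (.cons c685 (.cons c691 (.cons c874 .nil)))) (Lsw H i6 i26 b796)
  have b1778 := LP1 H i1 i2 i29 hab (Lsw H i29 i1 b601) (Lsw H i29 i2 b687) b1526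
  have c1779 := LP3 H i1 i10 i9 c26.symm b20 (Lsw H i10 i12 b1619)
  have c1780 := LP3 H i1 i11 i9 c28.symm b20 (Lsw H i11 i12 b1636)
  have b1782 := LP1 H i1 i18 i4 c82.symm b2 (Lsw H i4 i18 b279) (Lsw H i18 i6 b1527)
  have b1783 := LP1 H i1 i20 i4 c86.symm b2 (Lsw H i4 i20 b280) (Lsw H i20 i6 b1528)
  have c1785 := Lck c1608 c1598 b67
  have c1792 := Lck c1236 c1609.symm b20
  have c1797 := LP3 H i2 i7 i16 c10.symm b71 (Lsw H i7 i24 b1569)
  have c1801 := Lck c1567 c1779 b21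
  have c1804 := Lck c1060 c1030 (Lsw H i12 i2 b199)
  have c1805 := Lck c1060 c1586 b71
  have c1811 := Lco i27 i10 (LP1 H i10 i3 i12 c42 b1619 b74 (k_one i63 i3 c932))
  have c1812 := LP3 H i3 i19 i2 c126.symm (Lsw H i2 i3 b3) (Lsw H i19 i7 b1617)
  have c1813 := LP2 H i3 i27 i8 c100.symm b23 (Lsw H i8 i27 b1604)
  have c1817 := Lck c932 c1801 b75
  have c1820 := Lck c999 c1797 (Lsw H i16 i3 b261)
  have c1824 := Lck c1200 c1746 b776
  have b1825 := LP1 H i4 i6 i15 c9.symm (Lsw H i15 i4 b248) b287 b1597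
  have b1827 := LP1 H i8 i4 i14 c13 (Lsw H i14 i8 b647) (Lsw H i14 i4 b247) b1825
  have c1829 := LP3 H i4 i11 i5 c43.symm b24 (Lsw H i11 i16 b1639)
  have c1830 := Lco i30 i11 (LP1 H i11 i4 i12 c43 b1636 b77 (k_one i67 i4 c1531))
  have c1831 := Lco i96 i4 (LP1 H i4 i11 i14 c43.symm (Lsw H i14 i4 b247) (Lsw H i14 i11 b1635) (k_one i30 i11 c1830))
  have c1832 := Lck c243 c1811 b76
  have c1833 := LP3 H i4 i30 i2 c106.symm (Lsw H i2 i4 b4) (Lsw H i30 i8 b1827)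
  have b1834 := LP1 H i4 i31 i1 c108.symm (Lsw H i1 i4 b2) (Lsw H i1 i31 b268) (Lsw H i31 i6 b1597)
  have c1837 := Lck c862 c1785 b280
  have b1839 := LP1 H i5 i7 i9 c16 b210 b211 b1585
  have c1841 := LP2 H i5 i12 i11 c55 b284 (Lsw H i11 i12 b1636)
  have c1845 := Lco i41 i5 (LP1 H i5 i27 i2 c131 b63 (Lsw H i2 i27 b271) (k_one i10 i27 c1811.symm))
  have c1846 := LP2 H i5 i30 i8 c235.symm b80 b1827
  have c1847 := Lck c235 c1830 b284
  have c1850 := LP2 H i5 i38 i4 c439 (Lsw H i4 i5 b24) b1834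
  have c1851 := Lck c439.symm c555.symm b1530
  have c1856 := Lco i61 i6 (LP1 H i6 i11 i9 c50 b214 (Lsw H i9 i11 b291) (k_one i30 i11 c1830))
  have c1857 := Lco i63 i6 (LP1 H i6 i12 i10 c59 b285 (Lsw H i10 i12 b1619) (k_one i55 i12 c665.symm))
  have c1859 := LP2 H i6 i14 i13 c35.symm b286 (Lsw H i13 i14 b1680)
  have c1863 := Lck c237 c1811 b285
  have c1865 := Lco i42 i6 (LP1 H i6 i30 i2 c132 b64 (Lsw H i2 i30 b272) (k_one i11 i30 c1830.symm))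
  have c1868 := Lck c469.symm c554.symm (Lsw H i18 i6 b1527)
  have c1877 := Lck c1173 c1812 b64
  have b1880 := LP1 H i13 i7 i1 c56.symm (Lsw H i1 i13 b65) (Lsw H i1 i7 b18) (Lsw H i7 i18 b1565)
  have c1883 := LP2 H i7 i17 i12 c41.symm b288 (Lsw H i12 i17 b1684)
  have c1891 := Lck c438.symm c1865 (Lsw H i6 i7 b81)
  have c1892 := Lck c438.symm c545.symm b1565
  have c1914 := Lck c1239 c1831 (Lsw H i4 i7 b25)
  have b1915 := LP1 H i13 i8 i1 c60.symm (Lsw H i1 i13 b65) (Lsw H i1 i8 b19) (Lsw H i8 i18 b1566)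
  have c1916 := LP2 H i8 i13 i10 c60 (Lsw H i10 i8 b609) (Lsw H i10 i13 b1880)
  have c1918 := Lck c164.symm c254.symm b1566
  have c1919 := LP2 H i8 i28 i5 c241.symm (Lsw H i5 i8 b80) b1839
  have c1922 := Lck c468.symm c1845 (Lsw H i5 i8 b80)
  have c1923 := Lck c468.symm c544.symm b1566
  have c1934 := Lco i95 i9 (LP1 H i9 i16 i11 c53 b291 (Lsw H i11 i16 b1639) (k_one i61 i16 c639.symm))
  have c1935 := Lco i27 i18 (LP1 H i18 i9 i5 c116 (Lsw H i5 i18 b1530) (Lsw H i5 i9 b210) (k_one i63 i9 c1779))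
  have c1936 := Lco i30 i18 (LP1 H i18 i9 i6 c116 b1527 (Lsw H i6 i9 b214) (k_one i67 i9 c1780))
  have c1939 := Lco i12 i44 (LP1 H i44 i9 i1 c413.symm (Lsw H i1 i44 b763) (Lsw H i1 i9 b20) (k_one i63 i9 c1779))
  have c1947 := Lck c181.symm c192.symm b1619
  have c1948 := LP2 H i10 i22 i6 c170 (Lsw H i6 i10 b285) b1777
  have c1949 := Lck c482.symm c1865 (Lsw H i6 i10 b285)
  have c1950 := Lck c733 c712.symm (Lsw H i17 i10 b1659)
  have c1953 := Lck c185.symm c189.symm b1636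
  have c1954 := Lco i36 i34 (LP1 H i34 i11 i5 c135.symm (Lsw H i5 i34 b793) (Lsw H i5 i11 b284) (k_one i93 i11 c1877))
  have c1959 := Lck c1268.symm c1625 b1639
  have c1966 := Lco i72 i12 (LP1 H i12 i13 i11 c46 (Lsw H i11 i12 b1636) (Lsw H i11 i13 b1915) (k_one i67 i13 c908))
  have c1969 := Lck c46.symm c223 b1684
  have c1970 := LP2 H i12 i14 i11 c220 (Lsw H i11 i12 b1636) b1635
  have c1971 := Lck c222.symm c61 b1684
  have c1972 := Lco i58 i20 (LP1 H i20 i12 i7 c189.symm b1662 (Lsw H i7 i12 b288) (k_one i104 i12 c1792))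
  have c1974 := Lco i41 i12 (LP1 H i12 i27 i2 c101.symm b199 (Lsw H i2 i27 b271) (k_one i18 i27 c1935.symm))
  have c1975 := Lco i42 i12 (LP1 H i12 i30 i2 c107.symm b199 (Lsw H i2 i30 b272) (k_one i18 i30 c1936.symm))
  have c1977 := Lco i27 i38 (LP1 H i38 i12 i3 c525.symm b1592 (Lsw H i3 i12 b74) (k_one i92 i12 c1766.symm))
  have c1979 := LP2 H i13 i15 i10 c221 (Lsw H i10 i13 b1880) (Lsw H i10 i15 b804)
  have c1981 := LP2 H i13 i17 i10 c223 (Lsw H i10 i13 b1880) b1659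
  have c1984 := Lco i28 i42 (LP1 H i42 i13 i3 c524.symm (Lsw H i3 i42 b776) (Lsw H i3 i13 b75) (k_one i76 i13 c1770.symm))
  have c1990 := LP2 H i14 i16 i11 c227 b1635 (Lsw H i11 i16 b1639)
  have c1992 := Lco i60 i16 (LP1 H i16 i29 i3 c167 b261 b615 (k_one i27 i29 c1832))
  have c1993 := Lco i53 i30 (LP1 H i30 i16 i8 c168.symm b1827 (Lsw H i8 i16 b627) (k_one i90 i16 c1850.symm))
  have c1997 := Lco i49 i38 (LP1 H i38 i18 i4 c555.symm b1834 (Lsw H i4 i18 b279) (k_one i90 i18 c1707))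
  have c1998 := Lco i44 i41 (LP1 H i41 i18 i3 c544.symm (Lsw H i3 i41 b775) (Lsw H i3 i18 b274) (k_one i75 i18 c1804))
  have c2000 := Lck c933.symm c1857 b1527
  have c2003 := Lco i50 i38 (LP1 H i38 i20 i4 c565.symm b1834 (Lsw H i4 i20 b280) (k_one i90 i20 c1785))
  have c2005 := Lco i40 i21 (LP1 H i21 i34 i2 c675 b598 b731 (k_one i35 i34 c1774.symm))
  have c2006 := Lco i51 i37 (LP1 H i37 i21 i4 c572.symm b1606 (Lsw H i4 i21 b281) (k_one i97 i21 c1775.symm))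
  have c2010 := Lco i55 i23 (LP1 H i23 i34 i1 c219.symm (Lsw H i1 i23 b265) b600 (k_one i35 i34 c1774.symm))
  have c2011 := Lco i48 i41 (LP1 H i41 i24 i3 c568.symm (Lsw H i3 i41 b775) (Lsw H i3 i24 b278) (k_one i75 i24 c1805))
  have c2015 := Lco i55 i26 (LP1 H i26 i34 i1 c747 (Lsw H i1 i26 b266) b600 (k_one i36 i34 c1954))
  have c2022 := Lco i62 i30 (LP1 H i30 i55 i2 c630.symm (Lsw H i2 i30 b272) b1526 (k_one i42 i55 c1949))
  have c2030 := LP2 H i49 i53 i1 c581 b1782 (Lsw H i1 i53 b766)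
  have q2035 : Rl [t41, t44, t58, t69, t75, 1] := LJ H i2 i3 i12 b3 (Lsw H i12 i2 b199) b74 b271 b274 (Lsw H i7 i12 b288) b1565 (Lsw H i27 i7 b1585) (k_one i18 i27 c1935.symm)
  have q2036 : Rl [1, t41, t44, t58, t69, t75] := q2035.mv 5 rfl
  have q2037 : Rl [t41, t44, t58, t69, t75] := q2036.del1
  have c2038 : Commute t41 t58 := q2037.cm 0 2 rfl rfl
  have q2039 : Rl [t14, t12, t16, t19, t27, t30] := q226.mv 1 rfl
  have c2040 := q2039.l1 (.cons c520 (.cons c447 (.cons c557 (.cons c379 (.cons c1847 .nil)))))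
  have q2041 : Rl [t16, t12, t14, t19, t27, t30] := q226.mv 2 rfl
  have c2042 := q2041.l1 (.cons c665 (.cons c415 (.cons c475 (.cons c1863 (.cons c630.symm .nil)))))
  have q2043 : Rl [t19, t12, t14, t16, t27, t30] := q226.mv 3 rfl
  have c2044 := q2043.l1 (.cons c365 (.cons c651 (.cons c1992.symm (.cons c476 (.cons c633.symm .nil)))))
  have c2045 := q230.l1 (.cons c1813 (.cons c1243 (.cons c1128 (.cons c1141 (.cons c1355 .nil)))))
  have q2046 : Rl [t29, t21, t34, t55, t51, t98] := q1764.mv 1 rfl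
  have c2047 := q2046.l1 (.cons c120 (.cons c219 (.cons c2010 (.cons c465.symm (.cons c1256.symm .nil)))))
  have c2052 := q1765.l1 (.cons c2015.symm (.cons c497 (.cons c709.symm (.cons c711.symm (.cons c1948.symm .nil)))))
  have c2054 := q1765.l1 (.cons c1335 (.cons c1641 (.cons c1083 (.cons c1421 (.cons c1824 .nil)))))
  have c2062 := q2037.l1 (.cons c578 (.cons c666 (.cons c1019.symm (.cons c1419.symm .nil))))
  have c2063 := q2037.l1 (.cons c1397 (.cons c1704 (.cons c1575.symm (.cons c1491 .nil))))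
  have c2065 := Lco i75 i1 (LP1 H i1 i5 i28 c6.symm b267 (Lsw H i28 i5 b1839) (k_one i37 i5 c437.symm))
  have b2066 := LP1 H i1 i10 i9 c26.symm b20 (Lsw H i9 i10 b290) (Lsw H i10 i12 b1619)
  have b2067 := LP1 H i1 i11 i9 c28.symm b20 (Lsw H i9 i11 b291) (Lsw H i11 i12 b1636)
  have c2074 := Lck c1608 c1846.symm (Lsw H i33 i1 b599)
  have b2082 := LP1 H i2 i7 i16 c10.symm b71 b289 (Lsw H i7 i24 b1569)
  have c2083 := LP3 H i2 i10 i9 c44 b21 (Lsw H i10 i13 b1880)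
  have c2084 := LP3 H i2 i11 i9 c45 b21 (Lsw H i11 i13 b1915)
  have b2085 := LP1 H i2 i13 i6 c32.symm (Lsw H i6 i2 b64) (Lsw H i6 i13 b286) b1915
  have c2086 := Lco i10 i28 (LP1 H i28 i2 i5 c150 b1839 (Lsw H i5 i2 b63) (k_one i75 i2 c1060))
  have c2088 := Lco i11 i31 (LP1 H i31 i2 i6 c160 b1597 (Lsw H i6 i2 b64) (k_one i90 i2 c1833))
  have c2091 := Lco i8 i38 (LP1 H i38 i2 i4 c356.symm b1834 b4 (k_one i90 i2 c1833))
  have c2095 := Lck c1567 c1857 (Lsw H i6 i2 b64)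
  have c2098 := Lck c1060 c1919.symm b273
  have c2111 := Lck c1203 c1934 b21
  have c2112 := Lck c1638 c1831 b4
  have c2113 := Lck c1638 c1914 b72
  have c2116 := Lco i98 i3 (LP1 H i3 i10 i17 c42.symm (Lsw H i17 i3 b264) (Lsw H i17 i10 b1659) (k_one i28 i10 c2086.symm))
  have b2117 := LP1 H i3 i19 i2 c126.symm (Lsw H i2 i3 b3) (Lsw H i2 i19 b269) (Lsw H i19 i7 b1617)
  have c2118 := Lck c138 c2047.symm (Lsw H i29 i3 b615)
  have b2119 := LP1 H i3 i28 i1 c102.symm (Lsw H i1 i3 b1) (Lsw H i1 i28 b267) (Lsw H i28 i5 b1839)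
  have c2120 := Lck c245 c1830 b73
  have c2121 := Lck c245 c1936 b274
  have c2122 := Lck c245 c1993.symm b781
  have c2123 := Lck c246 c2088.symm b73
  have c2127 := LP2 H i3 i61 i1 c446.symm (Lsw H i1 i3 b1) b2067
  have c2128 := Lck c446 c1856 b22
  have c2136 := Lck c1200 c1831 b5
  have c2137 := Lck c1200 c2112 b23
  have c2138 := Lck c1200 c1914 (Lsw H i17 i3 b264)
  have b2143 := LP1 H i4 i11 i5 c43.symm b24 (Lsw H i5 i11 b284) (Lsw H i11 i16 b1639)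
  have c2145 := Lck c243 c1977 (Lsw H i38 i4 b1834)
  have c2146 := Lck c244 c2086.symm b76
  have b2148 := LP1 H i4 i30 i2 c106.symm (Lsw H i2 i4 b4) (Lsw H i2 i30 b272) (Lsw H i30 i8 b1827)
  have c2153 := Lck c1531 c2127.symm b24
  have c2154 := Lck c1531 c1953.symm b280
  have c2159 := Lck c1831 c2137 (Lsw H i15 i4 b248)
  have c2161 := Lck c1233 c2116 (Lsw H i3 i4 b5)
  have c2163 := Lco i96 i5 (LP1 H i5 i14 i11 c49 b284 b1635 (k_one i36 i14 c2040.symm))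
  have c2164 := Lco i19 i26 (LP1 H i26 i5 i6 c130.symm (Lsw H i6 i26 b796) b79 (k_one i96 i5 c2163))
  have c2165 := Lck c235 c1936 b1530
  have c2167 := LP2 H i5 i41 i4 c1845.symm (Lsw H i4 i5 b24) (Lsw H i4 i41 b784)
  have c2171 := Lck c1829 c1934 b210
  have c2173 := Lck c237 c1935 (Lsw H i18 i6 b1527)
  have c2174 := LP2 H i6 i37 i3 c469 (Lsw H i3 i6 b22) b2119
  have c2175 := LP2 H i6 i42 i3 c1865.symm (Lsw H i3 i6 b22) (Lsw H i3 i42 b776)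
  have c2177 := Lck c1857 c1801 b286
  have c2179 := Lck c1857 c1817 b797
  have c2180 := Lck c917.symm c2127.symm (Lsw H i5 i6 b79)
  have c2186 := Lco i60 i7 (LP1 H i7 i10 i9 c27.symm b211 (Lsw H i9 i10 b290) (k_one i28 i10 c2086.symm))
  have c2188 := Lco i37 i7 (LP1 H i7 i28 i1 c144 (Lsw H i1 i7 b18) (Lsw H i1 i28 b267) (k_one i10 i28 c2086))
  have c2189 := Lck c239 c2088.symm b611
  have c2190 := LP2 H i7 i42 i4 c438 (Lsw H i4 i7 b25) b2148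
  have c2191 := Lck c438.symm c1975 b288
  have c2197 := Lco i57 i11 (LP1 H i11 i8 i14 c29 (Lsw H i14 i11 b1635) (Lsw H i14 i8 b647) (k_one i96 i8 c2112))
  have c2198 := Lco i69 i8 (LP1 H i8 i13 i10 c60 (Lsw H i10 i8 b609) (Lsw H i10 i13 b1880) (k_one i43 i13 c717.symm))
  have c2199 := Lck c241 c2086.symm (Lsw H i10 i8 b609)
  have c2200 := Lco i98 i8 (LP1 H i8 i29 i7 c142 b204 (Lsw H i7 i29 b798) (k_one i23 i29 c2047.symm))
  have c2209 := Lco i60 i17 (LP1 H i17 i9 i10 c54.symm b1659 b290 (k_one i98 i9 c2161))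
  have c2210 := Lco i28 i18 (LP1 H i18 i9 i7 c116 (Lsw H i7 i18 b1565) (Lsw H i7 i9 b211) (k_one i69 i9 c2083))
  have c2211 := Lco i31 i18 (LP1 H i18 i9 i8 c116 (Lsw H i8 i18 b1566) (Lsw H i8 i9 b215) (k_one i72 i9 c2084))
  have c2222 := Lco i96 i10 (LP1 H i10 i22 i6 c170 (Lsw H i6 i10 b285) b1777 (k_one i55 i22 c2052.symm))
  have c2224 := Lck c171.symm c191.symm b1880
  have c2228 := Lco i36 i18 (LP1 H i18 i11 i5 c183.symm (Lsw H i5 i18 b1530) (Lsw H i5 i11 b284) (k_one i63 i11 c2095))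
  have c2229 := Lco i98 i11 (LP1 H i11 i21 i7 c186 (Lsw H i7 i11 b611) b1772 (k_one i40 i21 c2005))
  have c2230 := Lck c175.symm c188.symm b1915
  have c2231 := Lck c510.symm c2188 (Lsw H i7 i11 b611)
  have c2234 := Lco i95 i12 (LP1 H i12 i16 i11 c222 (Lsw H i11 i12 b1636) (Lsw H i11 i16 b1639) (k_one i67 i16 c2153))
  have c2236 := LP2 H i12 i41 i4 c1974.symm (Lsw H i4 i12 b77) (Lsw H i4 i41 b784)
  have c2241 := Lck c365.symm c2186 (Lsw H i7 i12 b288)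
  have c2243 := Lco i56 i24 (LP1 H i24 i13 i6 c191.symm (Lsw H i6 i24 b795) (Lsw H i6 i13 b286) (k_one i95 i13 c2111))
  have c2244 := Lco i37 i13 (LP1 H i13 i28 i1 c103.symm (Lsw H i1 i13 b65) (Lsw H i1 i28 b267) (k_one i18 i28 c2210.symm))
  have c2246 := Lco i31 i41 (LP1 H i41 i13 i4 c522.symm (Lsw H i4 i41 b784) (Lsw H i4 i13 b78) (k_one i84 i13 c2045.symm))
  have c2247 := Lco i104 i13 (LP1 H i13 i43 i3 c717 (Lsw H i3 i13 b75) b1587 (k_one i28 i43 c2199))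
  have c2254 := Lco i47 i27 (LP1 H i27 i14 i7 c174.symm b1585 (Lsw H i7 i14 b616) (k_one i75 i14 c2174.symm))
  have c2255 := Lco i47 i30 (LP1 H i30 i14 i7 c228.symm (Lsw H i7 i30 b1591) (Lsw H i7 i14 b616) (k_one i76 i14 c2175.symm))
  have c2257 := Lco i95 i14 (LP1 H i14 i36 i4 c2040 b247 b2143 (k_one i30 i36 c1847))
  have c2259 := Lco i88 i14 (LP1 H i14 i47 i4 c422 b247 (Lsw H i4 i47 b788) (k_one i30 i47 c2255.symm))
  have c2263 := Lco i53 i27 (LP1 H i27 i16 i8 c216.symm (Lsw H i8 i27 b1604) (Lsw H i8 i16 b627) (k_one i84 i16 c2167.symm))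
  have c2264 := Lco i19 i29 (LP1 H i29 i16 i1 c167.symm b601 b200 (k_one i55 i16 c2042.symm))
  have c2266 := Lco i81 i16 (LP1 H i16 i53 i3 c455 b261 (Lsw H i3 i53 b781) (k_one i27 i53 c2263.symm))
  have c2268 := Lco i63 i16 (LP1 H i16 i60 i1 c1992.symm b200 b2066 (k_one i19 i60 c2044))
  have c2269 := Lck c1992 c2186 (Lsw H i7 i16 b289)
  have c2274 := Lco i51 i31 (LP1 H i31 i17 i6 c179.symm b1597 (Lsw H i6 i17 b628) (k_one i90 i17 c2190.symm))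
  have c2275 := Lco i62 i17 (LP1 H i17 i40 i1 c626 (Lsw H i1 i17 b68) (Lsw H i1 i40 b762) (k_one i21 i40 c2005.symm))
  have c2276 := Lck c1605.symm c2065 (Lsw H i1 i17 b68)
  have c2284 := Lck c991.symm c2198 (Lsw H i8 i18 b1566)
  have c2294 := LP2 H i21 i59 i2 c682 b598 b2082
  have c2296 := Lck c1718 c2161 (Lsw H i9 i21 b799)
  have c2300 := Lco i47 i42 (LP1 H i42 i22 i3 c560.symm (Lsw H i3 i42 b776) (Lsw H i3 i22 b277) (k_one i76 i22 c2054.symm))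
  have c2305 := Lck c1709 c2136 (Lsw H i9 i22 b800)
  have c2315 := Lco i41 i59 (LP1 H i59 i27 i2 c410.symm b2082 (Lsw H i2 i27 b271) (k_one i71 i27 c1820))
  have c2318 := Lco i62 i28 (LP1 H i28 i40 i1 c405 (Lsw H i1 i28 b267) (Lsw H i1 i40 b762) (k_one i37 i40 c2231))
  have c2322 := Lco i42 i36 (LP1 H i36 i30 i2 c1847.symm b1524 (Lsw H i2 i30 b272) (k_one i62 i30 c2022))
  have c2328 := Lck c1769.symm c2065 (Lsw H i1 i31 b268)
  have c2329 := Lco i45 i41 (LP1 H i41 i33 i3 c1922 (Lsw H i3 i41 b775) b734 (k_one i75 i33 c1919.symm))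
  have c2346 := Lco i75 i42 (LP1 H i42 i41 i3 c593.symm (Lsw H i3 i42 b776) (Lsw H i3 i41 b775) (k_one i76 i41 c2063.symm))
  have c2349 := LP2 H i41 i47 i4 c2062 (Lsw H i4 i41 b784) (Lsw H i4 i47 b788)
  have c2361 := Lck c1251.symm c2116 (Lsw H i3 i51 b779)
  have q2365 : Rl [t38, t49, t56, t67, t90, 1] := LJ H i1 i4 i13 b2 b65 b78 b268 b279 (Lsw H i6 i13 b286) (Lsw H i18 i6 b1527) (Lsw H i31 i6 b1597) (k_one i18 i31 c2211.symm)
  have q2366 : Rl [1, t38, t49, t56, t67, t90] := q2365.mv 5 rfl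
  have q2367 : Rl [t38, t49, t56, t67, t90] := q2366.del1
  have q2368 : Rl [t14, t12, t16, t19, t27, t30] := q226.mv 1 rfl
  have c2369 := q2368.l1 (.cons c931 (.cons c2153.symm (.cons c2180.symm (.cons c2173 (.cons c942 .nil)))))
  have c2370 := q226.l1 (.cons c1230 (.cons c2266.symm (.cons c1051 (.cons c1384 (.cons c2122 .nil)))))
  have q2371 : Rl [t15, t13, t17, t23, t28, t31] := q230.mv 1 rfl
  have c2372 := q2371.l1 (.cons c521 (.cons c626 (.cons c563 (.cons c405 (.cons c2189 .nil)))))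
  have q2375 : Rl [t28, t13, t15, t17, t23, t31] := q230.mv 4 rfl
  have c2376 := q2375.l1 (.cons c1105.symm (.cons c1598.symm (.cons c2190 (.cons c1734.symm (.cons c1150 .nil)))))
  have c2377 := q230.l1 (.cons c2137.symm (.cons c1914.symm (.cons c2113.symm (.cons c2138.symm (.cons c2159.symm .nil)))))
  have q2378 : Rl [t17, t13, t15, t23, t28, t31] := q230.mv 2 rfl
  have c2379 := q2378.l1 (.cons c2247.symm (.cons c891.symm (.cons c980 (.cons c1670.symm (.cons c1677.symm .nil)))))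
  have q2380 : Rl [t29, t21, t34, t55, t51, t98] := q1764.mv 1 rfl
  have c2381 := q2380.l1 (.cons c186.symm (.cons c135.symm (.cons c387.symm (.cons c450.symm (.cons c2229 .nil)))))
  have q2382 : Rl [t98, t21, t29, t34, t55, t51] := q1764.mv 5 rfl
  have c2383 := q2382.l1 (.cons c225.symm (.cons c2264.symm (.cons c166.symm (.cons c475.symm (.cons c460.symm .nil)))))
  have q2391 : Rl [t34, t21, t29, t55, t51, t98] := q1764.mv 2 rfl
  have c2392 := q2391.l1 (.cons c881.symm (.cons c1302 (.cons c1557.symm (.cons c1114 (.cons c2296 .nil)))))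
  have q2393 : Rl [t26, t22, t34, t40, t47, t96] := q1765.mv 1 rfl
  have c2394 := q2393.l1 (.cons c170.symm (.cons c127.symm (.cons c480.symm (.cons c419.symm (.cons c2222 .nil)))))
  have q2395 : Rl [t26, t22, t34, t40, t47, t96] := q1765.mv 1 rfl
  have c2396 := q2395.l1 (.cons c197 (.cons c219 (.cons c563.symm (.cons c434.symm (.cons c2113 .nil)))))
  have q2397 : Rl [t26, t22, t34, t40, t47, t96] := q1765.mv 1 rfl
  have c2398 := q2397.l1 (.cons c560 (.cons c1891.symm (.cons c708.symm (.cons c2300 (.cons c1746 .nil)))))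
  have q2407 : Rl [t34, t22, t26, t40, t47, t96] := q1765.mv 2 rfl
  have c2408 := q2407.l1 (.cons c883.symm (.cons c1297 (.cons c1580.symm (.cons c1035 (.cons c2305 .nil)))))
  have q2411 : Rl [t56, t38, t49, t67, t90] := q2367.mv 2 rfl
  have c2412 := q2411.l1 (.cons c2003.symm (.cons c575 (.cons c2154 (.cons c1837 .nil))))
  have q2420 : Rl [t44, t41, t58, t69, t75] := q2037.mv 1 rfl
  have c2421 := q2420.l1 (.cons c593 (.cons c2191.symm (.cons c1892.symm (.cons c2346 .nil))))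
  have c2433 := Lck c1661 c2198 b19
  have c2436 := Lck c1608 c2376.symm b267
  have c2440 := Lck c1663 c2116 b1
  have c2441 := Lck c1663 c2161 b20
  have c2443 := Lck c1236 c2247 b65
  have c2444 := Lck c1236 c2379.symm b68
  have b2445 := LP1 H i2 i10 i9 c44 b21 (Lsw H i9 i10 b290) (Lsw H i10 i13 b1880)
  have b2446 := LP1 H i2 i11 i9 c45 b21 (Lsw H i9 i11 b291) (Lsw H i11 i13 b1915)
  have c2449 := Lck c1567 c2268 b71
  have c2452 := Lck c1568 c2127.symm (Lsw H i5 i2 b63)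
  have c2463 := Lck c1833 c2145.symm b271
  have c2464 := Lck c1203 c2234 (Lsw H i12 i2 b199)
  have c2468 := Lck c1270 c1859.symm (Lsw H i56 i2 b2085)
  have c2469 := Lco i46 i7 (LP1 H i7 i3 i21 c11 (Lsw H i21 i7 b1772) b276 (k_one i98 i3 c2116))
  have c2470 := Lco i62 i3 (LP1 H i3 i10 i11 c42.symm b73 b1529 (k_one i26 i10 c2394))
  have c2471 := Lck c246 c2211 b274
  have c2472 := Lck c246 c2274.symm b779
  have c2473 := Lco i7 i36 (LP1 H i36 i3 i2 c367 b1524 (Lsw H i2 i3 b3) (k_one i62 i3 c2470))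
  have c2476 := Lco i5 i40 (LP1 H i40 i3 i1 c390 (Lsw H i1 i40 b762) (Lsw H i1 i3 b1) (k_one i62 i3 c2470))
  have c2479 := LP2 H i3 i61 i2 c446.symm (Lsw H i2 i3 b3) b2446
  have c2481 := Lck c932 c2449 b278
  have c2486 := Lck c989 c2224.symm b278
  have c2492 := Lco i62 i4 (LP1 H i4 i11 i10 c43.symm b76 (Lsw H i10 i11 b1529) (k_one i29 i11 c2381))
  have c2493 := Lck c243 c2254.symm b788
  have c2494 := Lck c244 c2210 b279
  have c2496 := Lco i8 i55 (LP1 H i55 i4 i2 c364 b1526 (Lsw H i2 i4 b4) (k_one i62 i4 c2492))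
  have c2511 := Lck c1831 c2163 b24
  have c2514 := Lck c1233 c2440 b24
  have c2517 := Lco i59 i10 (LP1 H i10 i5 i17 c48.symm (Lsw H i17 i10 b1659) (Lsw H i17 i5 b637) (k_one i98 i5 c2440))
  have c2521 := Lco i71 i5 (LP1 H i5 i59 i2 c474 b63 b2082 (k_one i10 i59 c2517.symm))
  have c2531 := Lck c469.symm c2188 b81
  have c2532 := Lck c469.symm c2244 b286
  have c2536 := Lck c239 c2211 b1565
  have c2537 := LP2 H i7 i37 i4 c2188.symm (Lsw H i4 i7 b25) b1606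
  have c2546 := Lck c241 c2210 b1566
  have c2548 := Lck c357 c2228 b1566
  have c2549 := LP2 H i8 i38 i3 c2091 (Lsw H i3 i8 b23) b1592
  have c2552 := Lck c1266 c2369.symm (Lsw H i14 i8 b647)
  have c2554 := Lck c1673 c2521 (Lsw H i5 i8 b80)
  have c2561 := Lck c2112 c2511 b627
  have c2568 := Lck c1780 c2452 b290
  have c2570 := Lck c2083 c2433 b291
  have c2584 := Lco i40 i18 (LP1 H i18 i11 i7 c183.symm (Lsw H i7 i18 b1565) (Lsw H i7 i11 b611) (k_one i69 i11 c2433))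
  have c2586 := Lco i76 i11 (LP1 H i11 i42 i3 c496 (Lsw H i3 i11 b73) (Lsw H i3 i42 b776) (k_one i26 i42 c2398))
  have c2591 := Lco i58 i21 (LP1 H i21 i12 i7 c192.symm b1772 (Lsw H i7 i12 b288) (k_one i98 i12 c2441))
  have c2598 := Lck c1966 c2479.symm (Lsw H i7 i12 b288)
  have c2603 := Lco i56 i22 (LP1 H i22 i13 i6 c188.symm b1777 (Lsw H i6 i13 b286) (k_one i96 i13 c2377.symm))
  have c2605 := Lco i62 i13 (LP1 H i13 i40 i1 c521 (Lsw H i1 i13 b65) (Lsw H i1 i40 b762) (k_one i18 i40 c2584.symm))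
  have c2606 := Lco i18 i43 (LP1 H i43 i13 i1 c717.symm b1778 (Lsw H i1 i13 b65) (k_one i62 i13 c2605))
  have c2610 := Lck c1770.symm c2586 (Lsw H i11 i13 b1915)
  have c2614 := Lco i45 i31 (LP1 H i31 i15 i5 c232.symm (Lsw H i5 i31 b792) (Lsw H i5 i15 b617) (k_one i92 i15 c2549.symm))
  have c2617 := Lco i86 i15 (LP1 H i15 i45 i4 c425 b248 (Lsw H i4 i45 b786) (k_one i31 i45 c2614.symm))
  have c2627 := Lco i51 i28 (LP1 H i28 i17 i6 c217.symm (Lsw H i6 i28 b797) (Lsw H i6 i17 b628) (k_one i97 i17 c2537.symm))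
  have c2629 := Lco i79 i17 (LP1 H i17 i51 i3 c457 b264 (Lsw H i3 i51 b779) (k_one i28 i51 c2627.symm))
  have c2630 := Lco i69 i17 (LP1 H i17 i60 i2 c2209.symm (Lsw H i2 i17 b72) b2445 (k_one i23 i60 c2118))
  have c2634 := Lco i49 i36 (LP1 H i36 i18 i4 c2228 b2143 (Lsw H i4 i18 b279) (k_one i95 i18 c2464))
  have c2639 := Lco i93 i29 (LP1 H i29 i19 i7 c2264.symm (Lsw H i7 i29 b798) b1617 (k_one i98 i19 c2383))
  have c2642 := Lco i98 i20 (LP1 H i20 i21 i7 c258 b1662 b1772 (k_one i104 i21 c2444))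
  have c2660 := Lco i90 i26 (LP1 H i26 i31 i6 c2123.symm (Lsw H i6 i26 b796) b1597 (k_one i96 i31 c2159))
  have c2662 := Lco i61 i42 (LP1 H i42 i26 i4 c2398.symm b2148 b625 (k_one i90 i26 c2660))
  have c2668 := Lco i37 i43 (LP1 H i43 i28 i1 c2199.symm b1778 (Lsw H i1 i28 b267) (k_one i62 i28 c2318))
  have c2672 := Lco i69 i30 (LP1 H i30 i44 i2 c2121 (Lsw H i2 i30 b272) (Lsw H i2 i44 b769) (k_one i42 i44 c2421.symm))
  have c2674 := Lco i42 i60 (LP1 H i60 i30 i2 c633 b2445 (Lsw H i2 i30 b272) (k_one i69 i30 c2672))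
  have c2694 := Lco i72 i44 (LP1 H i44 i61 i2 c623.symm (Lsw H i2 i44 b769) b2446 (k_one i69 i61 c2570))
  have c2704 := Lco i71 i60 (LP1 H i60 i48 i2 c753.symm b2445 (Lsw H i2 i48 b771) (k_one i69 i48 c2486))
  have c2706 := Lco i63 i49 (LP1 H i49 i60 i1 c635.symm b1782 b2066 (k_one i67 i60 c2568))
  have c2713 := Lco i69 i59 (LP1 H i59 i60 i2 c2269.symm b2082 b2445 (k_one i71 i60 c2704))
  have c2714 := q226.l1 (.cons c2259.symm (.cons c1191 (.cons c1125 (.cons c2493 (.cons c1365 .nil)))))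
  have c2715 := q230.l1 (.cons c1262 (.cons c2629.symm (.cons c1056 (.cons c1391 (.cons c2472 .nil)))))
  have q2718 : Rl [t34, t21, t29, t55, t51, t98] := q1764.mv 2 rfl
  have b2719 := Rl.l2 H i34 i21 i8 q2718 (.cons c142.symm (.cons c2496.symm (.cons c704.symm (.cons c2200 .nil)))) b1633
  have q2720 : Rl [t29, t21, t34, t55, t51, t98] := q1764.mv 1 rfl
  have c2721 := q2720.l1 (.cons c572 (.cons c2531.symm (.cons c654.symm (.cons c2006 (.cons c1741 .nil)))))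
  have q2731 : Rl [t34, t22, t26, t40, t47, t96] := q1765.mv 2 rfl
  have b2732 := Rl.l2 H i34 i22 i5 q2731 (.cons c130.symm (.cons c2476.symm (.cons c697.symm (.cons c2163 .nil)))) (Lsw H i5 i34 b793)
  have q2742 : Rl [t56, t38, t49, t67, t90] := q2367.mv 2 rfl
  have c2743 := q2742.l1 (.cons c644 (.cons c2634 (.cons c1841.symm (.cons c2074 .nil))))
  have q2744 : Rl [t49, t38, t56, t67, t90] := q2367.mv 1 rfl
  have c2745 := q2744.l1 (.cons c594.symm (.cons c2532.symm (.cons c1868.symm (.cons c2436 .nil))))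
  have q2752 : Rl [t49, t38, t56, t67, t90] := q2367.mv 1 rfl
  have c2753 := q2752.l1 (.cons c1748 (.cons c546 (.cons c2552 (.cons c1656 .nil))))
  have q2756 : Rl [t90, t38, t49, t56, t67] := q2367.mv 4 rfl
  have c2757 := q2756.l1 (.cons c1851 (.cons c2706.symm (.cons c2177.symm (.cons c2000.symm .nil))))
  have q2758 : Rl [t58, t41, t44, t69, t75] := q2037.mv 2 rfl
  have c2759 := q2758.l1 (.cons c2246.symm (.cons c2471.symm (.cons c2536.symm (.cons c1769.symm .nil))))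
  have q2764 : Rl [t58, t41, t44, t69, t75] := q2037.mv 2 rfl
  have c2765 := q2764.l1 (.cons c2011.symm (.cons c580 (.cons c2486 (.cons c1433.symm .nil))))
  have q2768 : Rl [t44, t41, t58, t69, t75] := q2037.mv 1 rfl
  have c2769 := q2768.l1 (.cons c2315 (.cons c536 (.cons c2713 (.cons c1627 .nil))))
  have q2772 : Rl [t75, t41, t44, t58, t69] := q2037.mv 4 rfl
  have c2773 := q2772.l1 (.cons c1923 (.cons c2694.symm (.cons c2598.symm (.cons c2284 .nil))))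
  have c2780 := Lck c1672 c2479.symm b18
  have c2803 := Lck c446 c2662 b776
  have c2819 := Lck c2116 c2642 b275
  have c2826 := Lck c414 c2674.symm (Lsw H i42 i4 b2148)
  have b2848 := LP1 H i14 i5 i2 c49.symm (Lsw H i2 i14 b69) b63 b2732
  have c2849 := Lck c385 c2606.symm b1530
  have c2862 := LP2 H i7 i46 i4 c2469.symm (Lsw H i4 i7 b25) (Lsw H i4 i46 b787)
  have b2865 := LP1 H i17 i8 i1 c51.symm (Lsw H i1 i17 b68) (Lsw H i1 i8 b19) b2719
  have c2867 := Lck c2198 c2672 (Lsw H i30 i8 b1827)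
  have c2870 := Lco i93 i9 (LP1 H i9 i14 i10 c57 b290 (Lsw H i10 i14 b2848) (k_one i60 i14 c651.symm))
  have c2871 := Lco i94 i9 (LP1 H i9 i17 i11 c54 b291 (Lsw H i11 i17 b2865) (k_one i61 i17 c657.symm))
  have c2872 := Lco i28 i19 (LP1 H i19 i9 i7 c212 b1617 (Lsw H i7 i9 b211) (k_one i93 i9 c2870))
  have c2873 := Lco i30 i23 (LP1 H i23 i9 i6 c213 (Lsw H i6 i23 b794) (Lsw H i6 i9 b214) (k_one i94 i9 c2871))
  have c2877 := Lck c2084 c2780 b290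
  have c2883 := Lck c1542 c2871 (Lsw H i9 i10 b290)
  have c2889 := Lck c2714.symm c1248.symm b1684
  have c2910 := Lco i44 i43 (LP1 H i43 i18 i3 c2606.symm b1587 (Lsw H i3 i18 b274) (k_one i104 i18 c2443))
  have c2915 := Lco i46 i58 (LP1 H i58 i21 i3 c2591 (Lsw H i3 i58 b783) (Lsw H i3 i21 b276) (k_one i75 i21 c2276))
  have c2925 := Lco i55 i28 (LP1 H i28 i29 i1 c2146 (Lsw H i1 i28 b267) b601 (k_one i37 i29 c2721.symm))
  have c2926 := Lco i67 i28 (LP1 H i28 i49 i1 c2494 (Lsw H i1 i28 b267) b1782 (k_one i37 i49 c2745.symm))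
  have c2927 := Lco i37 i61 (LP1 H i61 i28 i1 c622 b2067 (Lsw H i1 i28 b267) (k_one i67 i28 c2926))
  have c2955 := Lco i69 i49 (LP1 H i49 i60 i2 c635.symm (Lsw H i2 i49 b772) b2445 (k_one i72 i60 c2877))
  have q2972 : Rl [t58, t41, t44, t69, t75] := q2037.mv 2 rfl
  have c2973 := q2972.l1 (.cons c715 (.cons c2910 (.cons c1916.symm (.cons c2098 .nil))))
  have c2976 := Lck c159 c2873 b265
  have c2980 := Lck c150 c2872 b269
  have b2985 := LP1 H i3 i10 i6 c42.symm b22 (Lsw H i6 i10 b285) (Lsw H i10 i14 b2848)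
  have c2988 := Lck c446 c2927.symm (Lsw H i37 i3 b2119)
  have b2998 := LP1 H i4 i11 i7 c43.symm b25 (Lsw H i7 i11 b611) (Lsw H i11 i17 b2865)
  have c3005 := Lck c2127.symm c2926 (Lsw H i28 i5 b1839)
  have c3012 := Lco i94 i15 (LP1 H i15 i40 i4 c2372 b248 b2998 (k_one i31 i40 c2189))
  have c3013 := Lco i93 i16 (LP1 H i16 i55 i3 c2042 b261 b2985 (k_one i27 i55 c1863))
  have c3024 := Lco i60 i55 (LP1 H i55 i29 i3 c440.symm b2985 b615 (k_one i93 i29 c2639))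
  have c3025 := Lco i63 i29 (LP1 H i29 i60 i1 c443 b601 b2066 (k_one i55 i60 c3024.symm))
  have c3046 := Lco i79 i55 (LP1 H i55 i51 i3 c631 b2985 (Lsw H i3 i51 b779) (k_one i93 i51 c1657))
  have c3083 := Lco i57 i23 (LP1 H i23 i15 i6 c93 (Lsw H i6 i23 b794) (Lsw H i6 i15 b287) (k_one i94 i15 c3012))
  have c3086 := Lco i27 i39 (LP1 H i39 i16 i3 c348 b2117 b261 (k_one i93 i16 c3013))
  have c3088 := Lco i41 i19 (LP1 H i19 i27 i2 c203.symm (Lsw H i2 i19 b269) (Lsw H i2 i27 b271) (k_one i39 i27 c3086.symm))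
  have c3108 := Lck c121 c3088.symm b784
  obtain ⟨t106, b3119⟩ : ∃ t, k a t76 = t := ⟨_, rfl⟩
  have i106 := Linv H i1 i76 b3119
  obtain ⟨t107, b3120⟩ : ∃ t, k a t86 = t := ⟨_, rfl⟩
  have i107 := Linv H i1 i86 b3120
  obtain ⟨t108, b3121⟩ : ∃ t, k a t88 = t := ⟨_, rfl⟩
  have i108 := Linv H i1 i88 b3121
  obtain ⟨t109, b3122⟩ : ∃ t, k a t100 = t := ⟨_, rfl⟩
  have i109 := Linv H i1 i100 b3122
  obtain ⟨t110, b3123⟩ : ∃ t, k b t78 = t := ⟨_, rfl⟩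
  have i110 := Linv H i2 i78 b3123
  obtain ⟨t111, b3124⟩ : ∃ t, k b t81 = t := ⟨_, rfl⟩
  have i111 := Linv H i2 i81 b3124
  obtain ⟨t112, b3125⟩ : ∃ t, k b t86 = t := ⟨_, rfl⟩
  have i112 := Linv H i2 i86 b3125
  obtain ⟨t113, b3126⟩ : ∃ t, k b t88 = t := ⟨_, rfl⟩
  have i113 := Linv H i2 i88 b3126
  obtain ⟨t114, b3127⟩ : ∃ t, k b t102 = t := ⟨_, rfl⟩
  have i114 := Linv H i2 i102 b3127
  obtain ⟨t115, b3128⟩ : ∃ t, k c t84 = t := ⟨_, rfl⟩
  have i115 := Linv H i3 i84 b3128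
  obtain ⟨t116, b3129⟩ : ∃ t, k c t88 = t := ⟨_, rfl⟩
  have i116 := Linv H i3 i88 b3129
  obtain ⟨t117, b3130⟩ : ∃ t, k c t99 = t := ⟨_, rfl⟩
  have i117 := Linv H i3 i99 b3130
  obtain ⟨t118, b3131⟩ : ∃ t, k c t100 = t := ⟨_, rfl⟩
  have i118 := Linv H i3 i100 b3131
  obtain ⟨t119, b3132⟩ : ∃ t, k d t63 = t := ⟨_, rfl⟩
  have i119 := Linv H i4 i63 b3132
  obtain ⟨t120, b3133⟩ : ∃ t, k d t71 = t := ⟨_, rfl⟩
  have i120 := Linv H i4 i71 b3133
  obtain ⟨t121, b3134⟩ : ∃ t, k d t81 = t := ⟨_, rfl⟩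
  have i121 := Linv H i4 i81 b3134
  obtain ⟨t122, b3135⟩ : ∃ t, k t5 t51 = t := ⟨_, rfl⟩
  have i122 := Linv H i5 i51 b3135
  obtain ⟨t123, b3136⟩ : ∃ t, k t6 t36 = t := ⟨_, rfl⟩
  have i123 := Linv H i6 i36 b3136
  obtain ⟨t124, b3137⟩ : ∃ t, k t7 t35 = t := ⟨_, rfl⟩
  have i124 := Linv H i7 i35 b3137
  obtain ⟨t125, b3138⟩ : ∃ t, k t7 t57 = t := ⟨_, rfl⟩
  have i125 := Linv H i7 i57 b3138
  obtain ⟨t126, b3139⟩ : ∃ t, k t8 t40 = t := ⟨_, rfl⟩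
  have i126 := Linv H i8 i40 b3139
  obtain ⟨t127, b3140⟩ : ∃ t, k t9 t36 = t := ⟨_, rfl⟩
  have i127 := Linv H i9 i36 b3140
  obtain ⟨t128, b3141⟩ : ∃ t, k t9 t46 = t := ⟨_, rfl⟩
  have i128 := Linv H i9 i46 b3141
  obtain ⟨t129, b3142⟩ : ∃ t, k t9 t51 = t := ⟨_, rfl⟩
  have i129 := Linv H i9 i51 b3142
  obtain ⟨t130, b3143⟩ : ∃ t, k t9 t58 = t := ⟨_, rfl⟩
  have i130 := Linv H i9 i58 b3143
  obtain ⟨t131, b3144⟩ : ∃ t, k t10 t19 = t := ⟨_, rfl⟩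
  have i131 := Linv H i10 i19 b3144
  obtain ⟨t132, b3145⟩ : ∃ t, k t11 t27 = t := ⟨_, rfl⟩
  have i132 := Linv H i11 i27 b3145
  obtain ⟨t133, b3146⟩ : ∃ t, k t12 t31 = t := ⟨_, rfl⟩
  have i133 := Linv H i12 i31 b3146
  obtain ⟨t134, b3147⟩ : ∃ t, k t14 t31 = t := ⟨_, rfl⟩
  have i134 := Linv H i14 i31 b3147
  obtain ⟨t135, b3148⟩ : ∃ t, k t17 t27 = t := ⟨_, rfl⟩
  have i135 := Linv H i17 i27 b3148
  have c3155 := Lkl H i1 i100 b3122
  have c3157 := Lkl H i2 i78 b3123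
  have c3167 := Lkl H i3 i84 b3128
  have c3170 := Lkr H i3 i88 b3129
  have c3175 := Lkl H i4 i63 b3132
  have c3177 := Lkl H i4 i71 b3133
  have c3179 := Lkl H i4 i81 b3134
  have c3207 := Lkl H i17 i27 b3148
  have c3212 := Lck hab.symm c1270.symm b3122
  have c3249 := LP3 H i1 i36 i4 c294.symm b2 b3136
  have c3266 := LP2 H i1 i51 i9 c456.symm b20 (Lsw H i9 i51 b3142)
  have c3309 := LP2 H i1 i99 i3 c1279.symm b1 (Lsw H i3 i99 b3130)
  have c3337 := LP2 H i2 i31 i14 c160.symm b69 (Lsw H i14 i31 b3147)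
  have c3368 := LP2 H i2 i63 i4 c1567.symm b4 (Lsw H i4 i63 b3132)
  have c3380 := LP2 H i2 i84 i3 c1133.symm b3 (Lsw H i3 i84 b3128)
  have c3401 := Lck c11.symm c484.symm b3138
  have c3403 := LP3 H i9 i3 i21 c14 b799 (Lsw H i3 i99 b3130)
  have c3405 := Lck c14.symm c367.symm b3140
  have c3407 := LP2 H i3 i9 i51 c14.symm b779 b3142
  have c3409 := Lck c14 c1091 b3129
  have c3414 := Lck c34.symm c246.symm b3147
  have c3419 := Lck c126 c3108 b3128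
  have c3431 := Lck c100 c1134 b3128
  have c3436 := Lck c245 c2236 b3128
  have c3443 := LP3 H i3 i36 i4 c367.symm b5 b3140
  have c3450 := LP3 H i3 i46 i4 c314.symm b5 b3141
  have c3452 := LP3 H i47 i3 i4 c316 (Lsw H i4 i47 b788) (Lsw H i3 i88 b3129)
  have c3506 := LP3 H i4 i9 i21 c15.symm b281 (Lsw H i9 i51 b3142)
  have c3507 := LP3 H i4 i9 i34 c15.symm (Lsw H i34 i4 b736) (Lsw H i9 i51 b3142)
  have c3512 := Lck c43.symm c243.symm b3145
  have c3517 := Lck c40.symm c243.symm b3148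
  have c3528 := Lck c244 c1817.symm b3132
  have c3535 := LP2 H i4 i31 i12 c108.symm b77 (Lsw H i12 i31 b3146)
  have c3541 := LP3 H i4 i51 i3 c324.symm (Lsw H i3 i4 b5) b3142
  have c3545 := LP3 H i53 i4 i3 c328 (Lsw H i3 i53 b781) (Lsw H i4 i81 b3134)
  have c3550 := LP3 H i59 i4 i2 c472 b2082 (Lsw H i4 i71 b3133)
  have c3554 := LP3 H i60 i4 i1 c414 b2066 (Lsw H i4 i63 b3132)
  have c3571 := LP2 H i4 i84 i3 c850.symm (Lsw H i3 i4 b5) (Lsw H i3 i84 b3128)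
  have c3587 := Lck c16 c431 b3137
  have c3621 := Lco i111 i5 (LP1 H i5 i81 i2 c1028 b63 (Lsw H i2 i81 b3124) (k_one i10 i81 c1045))
  have c3637 := LP3 H i6 i27 i2 c237.symm b64 b3145
  have c3655 := Lck c703.symm c713.symm b3136
  have c3658 := LP2 H i6 i57 i7 c336.symm b81 (Lsw H i7 i57 b3138)
  have c3667 := LP2 H i6 i84 i3 c954 (Lsw H i3 i6 b22) (Lsw H i3 i84 b3128)
  have c3670 := Lco i113 i6 (LP1 H i6 i88 i2 c1110 b64 (Lsw H i2 i88 b3126) (k_one i11 i88 c1121))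
  have c3692 := LP2 H i7 i31 i14 c239.symm b616 (Lsw H i14 i31 b3147)
  have c3695 := Lco i123 i7 (LP1 H i7 i36 i6 c2473 (Lsw H i6 i7 b81) (Lsw H i6 i36 b3136) (k_one i34 i36 c1954.symm))
  have c3708 := Lck c698.symm c606 b3137
  have c3723 := LP2 H i7 i63 i4 c1244.symm (Lsw H i4 i7 b25) (Lsw H i4 i63 b3132)
  have c3730 := LP2 H i7 i71 i4 c975 (Lsw H i4 i7 b25) (Lsw H i4 i71 b3133)
  have c3756 := LP2 H i8 i17 i27 c51 b1604 b3148
  have c3762 := LP2 H i8 i36 i9 c357.symm b215 (Lsw H i9 i36 b3140)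
  have c3772 := LP2 H i8 i51 i9 c704 b215 (Lsw H i9 i51 b3142)
  have c3791 := Lco i107 i8 (LP1 H i8 i86 i1 c1112 (Lsw H i1 i8 b19) (Lsw H i1 i86 b3120) (k_one i11 i86 c1120))
  have c3802 := Lck c31.symm c162 b3146
  have c3806 := Lck c57 c162 b3147
  have c3817 := Lck c116 c382 b3143
  have c3826 := LP3 H i26 i9 i1 c163.symm (Lsw H i1 i26 b266) (Lsw H i9 i36 b3140)
  have c3833 := LP3 H i9 i31 i1 c162 (Lsw H i1 i9 b20) b3146
  have c3874 := Lck c1089.symm c1413.symm b3142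
  have c3877 := Lck c1091.symm c1480.symm b3142
  have c3897 := Lck c880 c1114.symm b3142
  have c3901 := Lck c888 c1118.symm b3142
  have c3937 := Lco i130 i10 (LP1 H i10 i58 i9 c370 (Lsw H i9 i10 b290) (Lsw H i9 i58 b3143) (k_one i60 i58 c2241))
  have c3968 := LP2 H i11 i31 i14 c2088 (Lsw H i14 i11 b1635) (Lsw H i14 i31 b3147)
  have c4002 := LP3 H i13 i12 i4 c46.symm (Lsw H i4 i13 b78) (Lsw H i12 i31 b3146)
  have c4004 := LP2 H i12 i14 i31 c220 b3146 b3147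
  have c4007 := LP2 H i12 i27 i17 c101.symm b1684 (Lsw H i17 i27 b3148)
  have c4012 := Lck c1939.symm c2471.symm b3146
  have c4022 := Lck c1030 c1769.symm b3146
  have c4025 := Lco i121 i12 (LP1 H i12 i81 i4 c2370 (Lsw H i4 i12 b77) (Lsw H i4 i81 b3134) (k_one i30 i81 c2122))
  have c4026 := Lck c2370.symm c1078.symm b3146
  have c4030 := Lco i116 i12 (LP1 H i12 i88 i3 c2714 (Lsw H i3 i12 b74) (Lsw H i3 i88 b3129) (k_one i27 i88 c2493))
  have c4043 := LP2 H i13 i63 i4 c1801.symm (Lsw H i4 i13 b78) (Lsw H i4 i63 b3132)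
  have c4050 := LP3 H i15 i14 i4 c62.symm b248 (Lsw H i14 i31 b3147)
  have c4052 := Lck c173.symm c2123.symm b3147
  have c4055 := Lck c692 c2189.symm b3147
  have c4073 := Lck c1230.symm c1078.symm b3147
  have c4095 := LP3 H i16 i17 i3 c61 b261 (Lsw H i17 i27 b3148)
  have c4096 := Lck c61 c216 b3148
  have c4099 := Lco i115 i16 (LP1 H i16 i84 i3 c2167 b261 (Lsw H i3 i84 b3128) (k_one i27 i84 c1134))
  have c4108 := Lco i122 i17 (LP1 H i17 i51 i5 c457 b637 (Lsw H i5 i51 b3135) (k_one i59 i51 c696))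
  have c4127 := Lco i116 i17 (LP1 H i17 i88 i3 c1248 b264 (Lsw H i3 i88 b3129) (k_one i28 i88 c1144))
  have c4128 := Lck c1248.symm c2493.symm b3148
  have c4154 := Lco i130 i20 (LP1 H i20 i58 i9 c1972.symm b1681 (Lsw H i9 i58 b3143) (k_one i105 i58 c1237.symm))
  have c4157 := Lco i130 i21 (LP1 H i21 i58 i9 c2591.symm (Lsw H i9 i21 b799) (Lsw H i9 i58 b3143) (k_one i99 i58 c1883.symm))
  have c4171 := Lco i124 i24 (LP1 H i24 i35 i7 c680.symm (Lsw H i7 i24 b1569) (Lsw H i7 i35 b3137) (k_one i71 i35 c2294.symm))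
  have c4225 := LP2 H i34 i99 i3 c2392 b735 (Lsw H i3 i99 b3130)
  have c4227 := Lco i118 i34 (LP1 H i34 i100 i3 c2408 b735 (Lsw H i3 i100 b3131) (k_one i47 i100 c1035))
  have c4270 := LP2 H i46 i58 i9 c2915 (Lsw H i9 i46 b3141) (Lsw H i9 i58 b3143)
  have c4291 := LP2 H i51 i88 i3 c1480 (Lsw H i3 i51 b779) (Lsw H i3 i88 b3129)
  have c4344 := LP2 H i84 i88 i3 c2349 (Lsw H i3 i84 b3128) (Lsw H i3 i88 b3129)
  have c4347 := LP2 H i88 i99 i3 c2889 (Lsw H i3 i88 b3129) (Lsw H i3 i99 b3130)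
  have q4348 : Rl [t64, t93, t93, t131, 1, 1] := LJ H i1 i7 i14 b18 b66 b616 b764 (Lsw H i19 i7 b1617) (Lsw H i10 i14 b2848) b3144 (k_one i10 i47 c419) (k_one i19 i47 c429)
  have q4349 : Rl [1, t64, t93, t93, t131, 1] := q4348.mv 4 rfl
  have q4350 : Rl [t64, t93, t93, t131, 1] := q4349.del1
  have q4351 : Rl [1, t64, t93, t93, t131] := q4350.mv 4 rfl
  have q4352 : Rl [t64, t93, t93, t131] := q4351.del1
  have q4353 : Rl [t93, t64, t93, t131] := q4352.mv 2 rfl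
  have q4354 : Rl [t93, t93, t64, t131] := q4353.mv 2 rfl
  have q4355 : Rl [t64, t131] := q4354.del2
  have e4356 := q4355.two
  have m4357 : t64 = t131 := e4356
  subst m4357
  have q4358 : Rl [t74, t94, t94, t126, 1, 1] := LJ H i2 i4 i34 b4 (Lsw H i34 i2 b731) (Lsw H i34 i4 b736) b774 (Lsw H i40 i4 b2998) b1633 b3139 (k_one i8 i51 c704) (k_one i40 i51 c720.symm)
  have q4359 : Rl [1, t74, t94, t94, t126, 1] := q4358.mv 4 rfl
  have q4360 : Rl [t74, t94, t94, t126, 1] := q4359.del1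
  have q4361 : Rl [1, t74, t94, t94, t126] := q4360.mv 4 rfl
  have q4362 : Rl [t74, t94, t94, t126] := q4361.del1
  have q4363 : Rl [t94, t74, t94, t126] := q4362.mv 2 rfl
  have q4364 : Rl [t94, t94, t74, t126] := q4363.mv 2 rfl
  have q4365 : Rl [t74, t126] := q4364.del2
  have e4366 := q4365.two
  have m4367 : t74 = t126 := e4366
  subst m4367
  have c4372 := q226.l1 (.cons c3667 (.cons c4099.symm (.cons c3419 (.cons c3431 (.cons c3436 .nil)))))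
  have q4393 : Rl [t34, t22, t26, t40, t47, t96] := q1765.mv 2 rfl
  have c4394 := q4393.l1 (.cons c3337 (.cons c4052 (.cons c4055 (.cons c3692 (.cons c3968 .nil)))))
  have q4395 : Rl [t58, t41, t44, t69, t75] := q2037.mv 2 rfl
  have b4396 := Rl.l2 H i58 i41 i9 q4395 (.cons c413.symm (.cons c2083 (.cons c1618 .nil))) (Lsw H i9 i58 b3143)
  have b4399 := LP1 H i1 i6 i26 c8.symm b266 b796 (Lsw H i6 i36 b3136)
  have b4400 := LP1 H i1 i10 i14 c26.symm b66 b2848 (Lsw H i10 i19 b3144)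
  have b4401 := LP1 H i11 i1 i14 c28 (Lsw H i14 i11 b1635) b66 b4399
  have b4402 := LP1 H i1 i11 i16 c28.symm (Lsw H i16 i1 b200) b1639 b4401
  have b4403 := LP1 H i1 i27 i8 c149.symm b19 (Lsw H i8 i27 b1604) b3145
  have b4404 := LP1 H i30 i1 i7 c159 (Lsw H i7 i30 b1591) b18 (Lsw H i1 i76 b3119)
  have c4407 := Lco i130 i1 (LP1 H i1 i41 i9 c353 b20 b4396 (k_one i12 i41 c1974.symm))
  have b4409 := LP1 H i45 i1 i4 c423 (Lsw H i4 i45 b786) b2 (Lsw H i1 i86 b3120)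
  have b4410 := LP1 H i1 i51 i3 c456.symm b1 (Lsw H i3 i51 b779) b3135
  have c4428 := Lck c3826 c3762.symm b268
  have c4433 := Lck c3833 c4002 b2
  have b4436 := LP1 H i2 i7 i20 c10.symm (Lsw H i20 i2 b596) (Lsw H i20 i7 b1662) (Lsw H i7 i35 b3137)
  have b4437 := LP1 H i2 i7 i21 c10.symm (Lsw H i21 i2 b598) (Lsw H i21 i7 b1772) (Lsw H i7 i35 b3137)
  have b4438 := LP1 H i7 i2 i29 c10 b798 (Lsw H i29 i2 b687) b4437
  have b4439 := LP1 H i2 i8 i34 c12.symm (Lsw H i34 i2 b731) (Lsw H i34 i8 b1633) (Lsw H i8 i40 b3139)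
  have b4440 := LP1 H i10 i2 i15 c44.symm b804 b70 b4436
  have b4441 := LP1 H i11 i2 i17 c45.symm b2865 b72 b4439
  have c4443 := Lco i133 i2 (LP1 H i2 i31 i12 c160.symm (Lsw H i12 i2 b199) (Lsw H i12 i31 b3146) (k_one i18 i31 c2211.symm))
  have c4445 := Lco i130 i2 (LP1 H i2 i41 i9 c304.symm b21 b4396 (k_one i13 i41 c522))
  have c4446 := LP3 H i2 i43 i3 c308.symm b3 (Lsw H i43 i7 b4438)
  have b4447 := LP1 H i47 i2 i4 c421 (Lsw H i4 i47 b788) b4 (Lsw H i2 i88 b3126)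
  have b4448 := LP1 H i53 i2 i3 c453 (Lsw H i3 i53 b781) b3 (Lsw H i2 i81 b3124)
  have e4466 := (LP1 H i3 i9 i21 c14.symm b276 b799 (Lsw H i9 i46 b3141)).symm.trans (Lsw H i3 i99 b3130)
  have m4467 : t117 = t128 := e4466.symm
  subst m4467
  have b4468 := LP1 H i9 i3 i22 c14 b800 b277 (Lsw H i3 i100 b3131)
  have b4469 := LP1 H i3 i9 i34 c14.symm (Lsw H i34 i3 b735) b803 b4468
  have c4470 := Lco i130 i3 (LP1 H i3 i9 i41 c14.symm b775 (Lsw H i41 i9 b4396) (k_one i75 i9 c1618))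
  have b4471 := LP1 H i14 i3 i13 c34 (Lsw H i13 i14 b1680) b75 (Lsw H i3 i100 b3131)
  have c4472 := Lco i123 i3 (LP1 H i3 i19 i11 c126.symm b73 b4401 (k_one i26 i19 c2164.symm))
  have b4474 := LP1 H i27 i3 i8 c100 (Lsw H i8 i27 b1604) b23 (Lsw H i3 i84 b3128)
  have c4475 := Lco i132 i3 (LP1 H i3 i27 i11 c100.symm b73 (Lsw H i11 i27 b3145) (k_one i26 i27 c249))
  have b4477 := LP1 H i3 i31 i6 c246.symm b22 b1597 b3147
  have b4478 := LP1 H i3 i36 i4 c367.symm b5 b2143 b3140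
  have c4479 := Lco i74 i3 (LP1 H i3 i40 i8 c390.symm b23 (Lsw H i8 i40 b3139) (k_one i15 i40 c2372))
  have c4480 := Lco i107 i3 (LP1 H i3 i45 i6 c312.symm b22 (Lsw H i6 i45 b4409) (k_one i14 i45 c700))
  have b4481 := LP1 H i3 i46 i4 c314.symm b5 (Lsw H i4 i46 b787) b3141
  have e4483 := (LP1 H i47 i3 i4 c316 (Lsw H i4 i47 b788) b5 (Lsw H i3 i88 b3129)).symm.trans (Lsw H i47 i9 b4468)
  have m4484 : t116 = t118 := e4483
  subst m4484
  have c4485 := Lco i113 i3 (LP1 H i3 i47 i8 c316.symm b23 (Lsw H i8 i47 b4447) (k_one i15 i47 c706))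
  have b4486 := LP1 H i57 i3 i4 c484 b1825 b5 b4477
  have c4487 := Lco i119 i3 (LP1 H i3 i63 i4 c932.symm b5 (Lsw H i4 i63 b3132) (k_one i9 i63 c1779.symm))
  have c4509 := Lck c3541 c3506 b276
  have c4510 := Lck c3541 c3507 (Lsw H i34 i3 b735)
  have c4512 := Lck c3541 c3877.symm b3129
  have c4518 := Lck c4095 c3756.symm b3128
  have c4519 := Lck c4095 c4128.symm b3129
  have c4520 := Lck c4095 c4007.symm b3130
  have b4521 := LP1 H i4 i9 i21 c15.symm b281 b799 (Lsw H i9 i51 b3142)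
  have b4524 := LP1 H i17 i4 i12 c40 (Lsw H i12 i17 b1684) b77 b4521
  have c4525 := Lco i64 i4 (LP1 H i4 i19 i10 c121.symm b76 (Lsw H i10 i19 b3144) (k_one i29 i19 c2264.symm))
  have c4526 := Lco i124 i4 (LP1 H i4 i23 i10 c134.symm b76 b4440 (k_one i29 i23 c2047))
  have b4527 := LP1 H i4 i27 i7 c243.symm b25 b1585 b3148
  have b4528 := LP1 H i28 i4 i5 c244 b1839 b24 b4527
  have c4529 := Lco i30 i28 (LP1 H i28 i4 i14 c244 b4471 (Lsw H i14 i4 b247) (k_one i116 i4 c3452))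
  have b4532 := LP1 H i4 i51 i3 c324.symm (Lsw H i3 i4 b5) (Lsw H i3 i51 b779) b3142
  have b4534 := LP1 H i53 i4 i3 c328 (Lsw H i3 i53 b781) (Lsw H i3 i4 b5) (Lsw H i4 i81 b3134)
  have c4535 := Lco i111 i4 (LP1 H i4 i53 i7 c328.symm b25 (Lsw H i7 i53 b4448) (k_one i17 i53 c712))
  have b4536 := LP1 H i59 i4 i2 c472 b2082 (Lsw H i2 i4 b4) (Lsw H i4 i71 b3133)
  have b4538 := LP1 H i60 i4 i1 c414 b2066 (Lsw H i1 i4 b2) (Lsw H i4 i63 b3132)
  have c4552 := Lck c3452 c4227 (Lsw H i34 i4 b736)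
  have c4557 := Lck c3249 c3695 b25
  have c4571 := Lck c3512.symm c4475 (Lsw H i3 i4 b5)
  have c4574 := Lck c4002 c4443 (Lsw H i2 i4 b4)
  have c4578 := Lck c4002 c4026.symm b3134
  have c4580 := Lck c4050 c4394.symm (Lsw H i34 i4 b736)
  have c4582 := Lck c4050 c4073.symm b3134
  have c4592 := Lco i107 i5 (LP1 H i5 i45 i6 c373 b79 (Lsw H i6 i45 b4409) (k_one i19 i45 c427))
  have c4597 := Lck c3621 c4535 (Lsw H i4 i5 b24)
  have c4599 := Lck c3309.symm c3450 (Lsw H i4 i5 b24)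
  have c4616 := Lck c3587.symm c4526 (Lsw H i4 i5 b24)
  have c4621 := Lco i135 i6 (LP1 H i6 i16 i28 c47 b797 b4528 (k_one i97 i16 c1622.symm))
  have b4622 := LP1 H i6 i19 i2 c128 b64 (Lsw H i2 i19 b269) (Lsw H i19 i11 b4401)
  have b4624 := LP1 H i29 i6 i3 c129.symm b615 (Lsw H i3 i6 b22) (Lsw H i6 i60 b4538)
  have c4626 := Lco i124 i6 (LP1 H i6 i35 i7 c463 b81 (Lsw H i7 i35 b3137) (k_one i34 i35 c1774))
  have c4635 := Lck c3670 c4485 (Lsw H i3 i6 b22)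
  have b4647 := LP1 H i15 i7 i6 c52.symm (Lsw H i6 i15 b287) (Lsw H i6 i7 b81) (Lsw H i7 i57 b3138)
  have c4649 := Lco i133 i7 (LP1 H i7 i31 i12 c239.symm b288 (Lsw H i12 i31 b3146) (k_one i58 i31 c2759))
  have c4653 := Lck c1247 c4525 (Lsw H i4 i7 b25)
  have c4656 := Lck c3380.symm c4372.symm b288
  have c4675 := Lco i130 i8 (LP1 H i8 i41 i9 c468 b215 b4396 (k_one i31 i41 c2246))
  have c4679 := Lck c3791 c4480 (Lsw H i3 i8 b23)
  have c4680 := Lck c3791 c4592 (Lsw H i5 i8 b80)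
  have c4687 := Lck c3368.symm c4487 (Lsw H i3 i8 b23)
  have b4695 := LP1 H i12 i9 i7 c31 (Lsw H i7 i12 b288) (Lsw H i7 i9 b211) (Lsw H i9 i58 b3143)
  have b4696 := LP1 H i9 i15 i5 c58 (Lsw H i5 i9 b210) (Lsw H i5 i15 b617) (Lsw H i15 i27 b4474)
  have b4697 := LP1 H i15 i9 i6 c58.symm (Lsw H i6 i15 b287) (Lsw H i6 i9 b214) (Lsw H i9 i57 b4486)
  have b4699 := LP1 H i16 i9 i8 c53.symm (Lsw H i8 i16 b627) (Lsw H i8 i9 b215) (Lsw H i9 i53 b4534)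
  have b4705 := LP1 H i26 i9 i1 c163.symm (Lsw H i1 i26 b266) (Lsw H i1 i9 b20) (Lsw H i9 i36 b3140)
  have b4706 := LP1 H i27 i9 i2 c151.symm (Lsw H i2 i27 b271) (Lsw H i2 i9 b21) b4396
  have c4709 := Lco i76 i9 (LP1 H i9 i30 i7 c161 (Lsw H i7 i9 b211) (Lsw H i7 i30 b1591) (k_one i28 i30 c4529.symm))
  have c4710 := Lco i106 i9 (LP1 H i9 i30 i10 c161 b290 (Lsw H i10 i30 b4404) (k_one i60 i30 c633))
  have b4711 := LP1 H i9 i31 i1 c162 (Lsw H i1 i9 b20) (Lsw H i1 i31 b268) b3146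
  have c4716 := Lck c1634 c2463 (Lsw H i41 i9 b4396)
  have c4726 := Lck c3571.symm c4656 b3143
  have c4727 := Lck c3409.symm c4227 b803
  have c4737 := Lck c3802.symm c4649 (Lsw H i7 i9 b211)
  have c4742 := Lck c3806.symm c4580 b3142
  have c4763 := Lck c3937 c4675 b609
  have b4789 := LP1 H i13 i12 i4 c46.symm (Lsw H i4 i13 b78) (Lsw H i4 i12 b77) (Lsw H i12 i31 b3146)
  have c4790 := Lco i133 i16 (LP1 H i16 i12 i31 c222.symm (Lsw H i31 i16 b4699) b3146 (k_one i121 i12 c4025))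
  have c4806 := Lck c4030 c4127 b1684
  have c4821 := Lck c3266.symm c3772.symm b3146
  have c4824 := LP2 H i13 i17 i27 c223 b4706 b3148
  have c4830 := Lco i135 i13 (LP1 H i13 i75 i4 c1354.symm (Lsw H i4 i13 b78) b4527 (k_one i31 i75 c1769))
  have c4832 := Lco i129 i13 (LP1 H i13 i79 i4 c2715 (Lsw H i4 i13 b78) b4532 (k_one i31 i79 c2472))
  have c4835 := Lco i31 i99 (LP1 H i99 i13 i4 c1969.symm b4521 (Lsw H i4 i13 b78) (k_one i129 i13 c4832))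
  have c4850 := LP2 H i14 i30 i13 c228 (Lsw H i13 i14 b1680) b4789
  have c4853 := Lco i22 i88 (LP1 H i88 i14 i2 c2259 (Lsw H i2 i88 b3126) (Lsw H i2 i14 b69) (k_one i113 i14 c4635))
  have c4877 := Lco i20 i86 (LP1 H i86 i15 i1 c2617 (Lsw H i1 i86 b3120) (Lsw H i1 i15 b67) (k_one i107 i15 c4679))
  have c4887 := Lco i24 i81 (LP1 H i81 i16 i2 c2266 (Lsw H i2 i81 b3124) (Lsw H i2 i16 b71) (k_one i111 i16 c4597))
  have c4890 := Lco i27 i99 (LP1 H i99 i16 i3 c1971.symm (Lsw H i3 i99 b3130) b261 (k_one i117 i16 c4599))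
  have c4895 := Lco i133 i17 (LP1 H i17 i31 i12 c179 (Lsw H i12 i17 b1684) (Lsw H i12 i31 b3146) (k_one i99 i31 c4835.symm))
  have c4897 := Lco i51 i60 (LP1 H i60 i17 i6 c2209 (Lsw H i6 i60 b4538) (Lsw H i6 i17 b628) (k_one i119 i17 c3723.symm))
  have c4899 := Lco i21 i79 (LP1 H i79 i17 i1 c2629 b4410 (Lsw H i1 i17 b68) (k_one i122 i17 c4108))
  have c4902 := Lco i117 i17 (LP1 H i17 i87 i3 c2862 b264 b4481 (k_one i28 i87 c1143))
  have c4906 := Lco i28 i99 (LP1 H i99 i17 i3 c1280.symm (Lsw H i3 i99 b3130) b264 (k_one i117 i17 c4902))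
  have c4937 := Lco i50 i45 (LP1 H i45 i20 i4 c313 (Lsw H i4 i45 b786) (Lsw H i4 i20 b280) (k_one i86 i20 c4877.symm))
  have c4951 := Lck c4154 c4470 (Lsw H i3 i20 b275)
  have c4953 := Lco i46 i51 (LP1 H i51 i21 i3 c325 (Lsw H i3 i51 b779) (Lsw H i3 i21 b276) (k_one i79 i21 c4899.symm))
  have c4960 := Lck c3403 c3450 (Lsw H i4 i21 b281)
  have c4964 := Lco i52 i47 (LP1 H i47 i22 i4 c317 (Lsw H i4 i47 b788) (Lsw H i4 i22 b282) (k_one i88 i22 c4853.symm))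
  have c4975 := Lco i119 i23 (LP1 H i23 i60 i6 c2118 (Lsw H i6 i23 b794) (Lsw H i6 i60 b4538) (k_one i94 i60 c2883))
  have c4977 := Lco i48 i53 (LP1 H i53 i24 i3 c329 (Lsw H i3 i53 b781) (Lsw H i3 i24 b278) (k_one i81 i24 c4887.symm))
  have c4988 := Lck c4171 c4526 (Lsw H i4 i24 b283)
  have c5008 := Lco i79 i29 (LP1 H i29 i51 i3 c528 b615 (Lsw H i3 i51 b779) (k_one i60 i51 c4897.symm))
  have c5016 := Lck c3535.symm c4649 (Lsw H i7 i30 b1591)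
  have c5057 := Lco i133 i36 (LP1 H i36 i38 i9 c644.symm (Lsw H i9 i36 b3140) b4711 (k_one i127 i38 c4428))
  have c5091 := Lco i115 i41 (LP1 H i41 i45 i9 c2329.symm b4396 b4696 (k_one i130 i45 c4951))
  have c5092 := LP2 H i41 i47 i9 c2062 b4396 b4468
  have c5096 := Lco i75 i84 (LP1 H i84 i41 i3 c851 (Lsw H i3 i84 b3128) (Lsw H i3 i41 b775) (k_one i115 i41 c5091))
  have c5119 := Lco i70 i98 (LP1 H i98 i45 i2 c2819 b4437 (Lsw H i2 i45 b770) (k_one i124 i45 c3708.symm))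
  have c5121 := Lck c3708.symm c4526 (Lsw H i4 i45 b786)
  have c5125 := Lco i87 i79 (LP1 H i79 i46 i4 c1415.symm b4532 (Lsw H i4 i46 b787) (k_one i129 i46 c4509))
  have c5130 := Lck c811 c4525 (Lsw H i4 i47 b788)
  have c5132 := Lco i88 i79 (LP1 H i79 i47 i4 c1482.symm b4532 (Lsw H i4 i47 b788) (k_one i129 i47 c4510))
  have c5138 := Lck c4225.symm c3450 (Lsw H i4 i47 b788)
  have c5155 := LP2 H i51 i53 i9 c741.symm (Lsw H i9 i51 b3142) (Lsw H i9 i53 b4534)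
  have c5163 := Lco i79 i99 (LP1 H i99 i51 i3 c1114.symm (Lsw H i3 i99 b3130) (Lsw H i3 i51 b779) (k_one i117 i51 c4960))
  have c5164 := Lco i79 i103 (LP1 H i103 i51 i3 c1118.symm b4469 (Lsw H i3 i51 b779) (k_one i116 i51 c4552))
  have c5183 := Lco i66 i96 (LP1 H i96 i53 i1 c2561 b4399 (Lsw H i1 i53 b766) (k_one i123 i53 c3655.symm))
  have c5246 := Lco i116 i87 (LP1 H i87 i88 i3 c1504 b4481 (Lsw H i3 i88 b3129) (k_one i117 i88 c5138))
  have c5260 := Lco i117 i103 (LP1 H i103 i99 i3 c1412.symm b4469 (Lsw H i3 i99 b3130) (k_one i116 i99 c4806))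
  have q5261 : Rl [t108, 1, 1, 1, 1, 1] := LJ H i1 i4 i47 b2 b764 b788 b3121 (k_one i4 i64 c4525.symm) (k_one i47 i6 c691) (k_one i6 i64 c915) (k_one i6 i88 c1110) (k_one i64 i88 c5130)
  have q5262 : Rl [1, t108, 1, 1, 1, 1] := q5261.mv 1 rfl
  have q5263 : Rl [t108, 1, 1, 1, 1] := q5262.del1
  have q5264 : Rl [1, t108, 1, 1, 1] := q5263.mv 1 rfl
  have q5265 : Rl [t108, 1, 1, 1] := q5264.del1
  have q5266 : Rl [1, t108, 1, 1] := q5265.mv 1 rfl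
  have q5267 : Rl [t108, 1, 1] := q5266.del1
  have q5268 : Rl [1, t108, 1] := q5267.mv 1 rfl
  have q5269 : Rl [t108, 1] := q5268.del1
  have q5270 : Rl [1, t108] := q5269.mv 1 rfl
  have q5271 : Rl [t108] := q5270.del1
  have e5272 := q5271.one
  have m5273 : 1 = t108 := e5272.symm
  subst m5273
  have c5274 := Lco i1 i88 b3121
  have q5275 : Rl [t35, t40, t43, t62, t124, t74] := LJ H i1 i7 i8 b18 b19 (Lsw H i8 i7 b204) b265 b611 (Lsw H i10 i8 b609) b1529 (Lsw H i23 i10 b4440) (Lsw H i23 i11 b4441)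
  have q5276 : Rl [t37, t58, t60, t63, 1, t130] := LJ H i1 i7 i9 b18 b20 b211 b267 b288 b290 b1619 (k_one i10 i28 c2086) (Lsw H i28 i12 b4695)
  have q5277 : Rl [1, t37, t58, t60, t63, t130] := q5276.mv 4 rfl
  have q5278 : Rl [t37, t58, t60, t63, t130] := q5277.del1
  have q5279 : Rl [t39, t36, t55, t62, t64, t123] := LJ H i2 i5 i6 (Lsw H i5 i2 b63) (Lsw H i6 i2 b64) b79 b269 b284 b285 b1529 b3144 (Lsw H i19 i11 b4401)
  have q5280 : Rl [t42, t56, t61, t72, 1, t133] := LJ H i2 i6 i9 (Lsw H i6 i2 b64) b21 b214 b272 b286 b291 b1915 (k_one i11 i30 c1830.symm) (Lsw H i30 i13 b4789)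
  have q5281 : Rl [1, t42, t56, t61, t72, t133] := q5280.mv 4 rfl
  have q5282 : Rl [t42, t56, t61, t72, t133] := q5281.del1
  have q5283 : Rl [t79, t87, t99, t117, t129, 1] := LJ H i3 i4 i21 b5 b276 b281 b779 b787 (Lsw H i9 i21 b799) b3141 b3142 (k_one i46 i51 c4953)
  have q5284 : Rl [1, t79, t87, t99, t117, t129] := q5283.mv 5 rfl
  have q5285 : Rl [t79, t87, t99, t117, t129] := q5284.del1
  have q5286 : Rl [t117, t130, t135, 1, 1, 1] := LJ H i3 i12 i17 b74 (Lsw H i17 i3 b264) b1684 b3130 (Lsw H i28 i12 b4695) b3148 (k_one i27 i28 c194) (k_one i27 i99 c4890) (k_one i28 i99 c4906)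
  have q5287 : Rl [1, t117, t130, t135, 1, 1] := q5286.mv 3 rfl
  have q5288 : Rl [t117, t130, t135, 1, 1] := q5287.del1
  have q5289 : Rl [1, t117, t130, t135, 1] := q5288.mv 3 rfl
  have q5290 : Rl [t117, t130, t135, 1] := q5289.del1
  have q5291 : Rl [1, t117, t130, t135] := q5290.mv 3 rfl
  have q5292 : Rl [t117, t130, t135] := q5291.del1
  have q5293 : Rl [t16, t12, t14, t19, t27, t30] := q226.mv 2 rfl
  have q5294 : Rl [t12, t16, t14, t19, t27, t30] := q5293.mv 1 rfl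
  have b5295 := Rl.l2 H i12 i16 i26 q5294 (.cons c173 (.cons c2164 (.cons c249.symm (.cons c2120 .nil)))) b4705
  have q5296 : Rl [t16, t12, t14, t19, t27, t30] := q226.mv 2 rfl
  have q5297 : Rl [t12, t16, t14, t19, t27, t30] := q5296.mv 1 rfl
  have q5298 : Rl [t14, t12, t16, t19, t27, t30] := q5297.mv 2 rfl
  have q5299 : Rl [t116, t130, t135, 1] := Rl.l3 H i14 i12 i16 i28 q5298 (.cons c2872.symm (.cons c194 (.cons c4529 .nil))) (Lsw H i28 i14 b4471) (Lsw H i28 i12 b4695) b4528 (k_one i116 i12 c4030)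
  have q5300 : Rl [1, t116, t130, t135] := q5299.mv 3 rfl
  have q5301 : Rl [t116, t130, t135] := q5300.del1
  have q5302 : Rl [t14, t12, t16, t19, t27, t30] := q226.mv 1 rfl
  have b5303 := Rl.l2 H i14 i12 i29 q5302 (.cons c167 (.cons c2264 (.cons c1832 (.cons c250.symm .nil)))) b4624
  have q5315 : Rl [t15, t13, t17, t23, t28, t31] := q230.mv 1 rfl
  have q5316 : Rl [t17, t15, t13, t23, t28, t31] := q5315.mv 2 rfl
  have q5317 : Rl [t13, t17, t15, t23, t28, t31] := q5316.mv 2 rfl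
  have q5318 : Rl [t133, t129, t134, 1] := Rl.l3 H i13 i17 i15 i30 q5317 (.cons c2873.symm (.cons c4529.symm (.cons c195.symm .nil))) (Lsw H i30 i13 b4789) (Lsw H i30 i17 b4524) (Lsw H i30 i15 b4697) (k_one i133 i17 c4895)
  have q5319 : Rl [1, t133, t129, t134] := q5318.mv 3 rfl
  have q5320 : Rl [t133, t129, t134] := q5319.del1
  have c5332 := q230.l1 (.cons c4687.symm (.cons c3723 (.cons c4975.symm (.cons c3528 (.cons c4043 .nil)))))
  have q5336 : Rl [t34, t21, t29, t55, t51, t98] := q1764.mv 2 rfl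
  have c5337 := q5336.l1 (.cons c4899 (.cons c5008.symm (.cons c3046.symm (.cons c841.symm (.cons c2361 .nil)))))
  have q5344 : Rl [t34, t22, t26, t40, t47, t96] := q1765.mv 2 rfl
  have b5345 := Rl.l2 H i34 i22 i15 q5344 (.cons c182.symm (.cons c2372.symm (.cons c706.symm (.cons c2137 .nil)))) b4647
  have q5354 : Rl [t43, t35, t40, t62, t124, t74] := q5275.mv 2 rfl
  have b5355 := Rl.l2 H i43 i35 i3 q5354 (.cons c390 (.cons c2470 (.cons c4446 (.cons c4479 .nil)))) b1587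
  have q5383 : Rl [t36, t39, t55, t62, t64, t123] := q5279.mv 1 rfl
  have b5384 := Rl.l2 H i36 i39 i4 q5383 (.cons c364 (.cons c2492 (.cons c4525 (.cons c3249 .nil)))) b2143
  have q5410 : Rl [t60, t37, t58, t63, t130] := q5278.mv 2 rfl
  have c5411 := q5410.l1 (.cons c572.symm (.cons c2591 (.cons c1947.symm (.cons c4157 .nil))))
  have q5416 : Rl [t60, t37, t58, t63, t130] := q5278.mv 2 rfl
  have c5417 := q5416.l1 (.cons c2668 (.cons c2973 (.cons c2849.symm (.cons c4763 .nil))))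
  have q5427 : Rl [t58, t37, t60, t63, t130] := q5278.mv 1 rfl
  have c5428 := q5427.l1 (.cons c2436.symm (.cons c2826 (.cons c2757.symm (.cons c4716.symm .nil))))
  have q5441 : Rl [t56, t38, t49, t67, t90] := q2367.mv 2 rfl
  have q5442 : Rl [t38, t56, t49, t67, t90] := q5441.mv 1 rfl
  have b5443 := Rl.l2 H i38 i56 i9 q5442 (.cons c445.symm (.cons c1780 (.cons c1634 .nil))) b4711
  have q5459 : Rl [t56, t42, t61, t72, t133] := q5282.mv 1 rfl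
  have b5460 := Rl.l2 H i56 i42 i9 q5459 (.cons c344 (.cons c2084 (.cons c3802.symm .nil))) b5443
  have q5465 : Rl [t56, t42, t61, t72, t133] := q5282.mv 1 rfl
  have c5466 := q5465.l1 (.cons c1984.symm (.cons c622 (.cons c2546.symm (.cons c4737 .nil))))
  have q5467 : Rl [t61, t42, t56, t72, t133] := q5282.mv 2 rfl
  have c5468 := q5467.l1 (.cons c2322 (.cons c2743 (.cons c2548.symm (.cons c5057 .nil))))
  have q5475 : Rl [t56, t42, t61, t72, t133] := q5282.mv 1 rfl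
  have c5476 := q5475.l1 (.cons c2421.symm (.cons c623 (.cons c2694 (.cons c4012.symm .nil))))
  have q5496 : Rl [t56, t42, t61, t72, t133] := q5282.mv 1 rfl
  have c5497 := q5496.l1 (.cons c2346.symm (.cons c2988 (.cons c2773.symm (.cons c4022.symm .nil))))
  have q5498 : Rl [t56, t42, t61, t72, t133] := q5282.mv 1 rfl
  have c5499 := q5498.l1 (.cons c835.symm (.cons c2803 (.cons c2610.symm (.cons c5016 .nil))))
  have c5502 := q5282.l1 (.cons c1859 (.cons c1329 (.cons c2468.symm (.cons c4850.symm .nil))))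
  have q5534 : Rl [t87, t79, t99, t117, t129] := q5285.mv 1 rfl
  have c5535 := q5534.l1 (.cons c5164 (.cons c1412 (.cons c5260 (.cons c3901.symm .nil))))
  have q5538 : Rl [t130, t117, t135] := q5292.mv 1 rfl
  have c5539 := q5538.l1 (.cons c3450 (.cons c3517.symm .nil))
  have q5544 : Rl [t130, t117, t135] := q5292.mv 1 rfl
  have c5545 := q5544.l1 (.cons c4599 (.cons c4096.symm .nil))
  have q5546 : Rl [t130, t117, t135] := q5292.mv 1 rfl
  have c5547 := q5546.l1 (.cons c4902 (.cons c3207 .nil))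
  have q5595 : Rl [t116, t130, t135, t117, t130, t135] := q5301.add q5292 (.cons (.cons c4347.symm (.cons c5092 (.cons c4519 .nil))) (.cons (.cons c4270 (.cons (Commute.refl _) (.cons c4824.symm .nil))) (.cons (.cons c4520.symm (.cons c4824 (.cons (Commute.refl _) .nil))) .nil)))
  have q5596 : Rl [t130, t116, t130, t135, t117, t135] := q5595.mv 4 rfl
  have q5597 : Rl [t130, t130, t116, t135, t117, t135] := q5596.mv 2 rfl
  have q5598 : Rl [t116, t135, t117, t135] := q5597.del2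
  have q5599 : Rl [t135, t116, t135, t117] := q5598.mv 3 rfl
  have q5600 : Rl [t135, t135, t116, t117] := q5599.mv 2 rfl
  have q5601 : Rl [t116, t117] := q5600.del2
  have e5602 := q5601.two
  have m5603 : t116 = t117 := e5602
  subst m5603
  have c5636 := Lco i125 i2 (LP1 H i2 i22 i15 c90.symm b70 b5345 (k_one i23 i22 c197.symm))
  have c5648 := LP2 H i2 i90 i3 c1833.symm b3 b4477
  have c5649 := LP2 H i2 i95 i3 c1203.symm b3 b4478
  have c5667 := Lck c4445 c5545 b71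
  have c5671 := Lck c3637 c4571 b21
  have c5673 := Lck c4443 c4790 b71
  have c5678 := Lco i133 i3 (LP1 H i3 i9 i42 c14.symm b776 (Lsw H i42 i9 b5460) (k_one i76 i9 c4709))
  have b5680 := LP1 H i23 i3 i1 c138 (Lsw H i1 i23 b265) (Lsw H i1 i3 b1) b5355
  have b5682 := LP1 H i3 i28 i6 c102.symm b22 (Lsw H i6 i28 b797) (Lsw H i28 i14 b4471)
  have c5684 := Lco i27 i31 (LP1 H i31 i3 i12 c246 (Lsw H i12 i31 b3146) b74 (k_one i133 i3 c5678))
  have c5688 := LP3 H i3 i45 i4 c312.symm b5 (Lsw H i45 i9 b4696)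
  have c5750 := Lck c4470 c5667 b278
  have b5763 := LP1 H i4 i9 i24 c15.symm b283 b801 (Lsw H i9 i53 b4534)
  have c5766 := Lco i84 i9 (LP1 H i9 i4 i41 c15 (Lsw H i41 i9 b4396) b784 (k_one i130 i4 c5539))
  have b5769 := LP1 H i19 i4 i2 c121 (Lsw H i2 i19 b269) (Lsw H i2 i4 b4) b5384
  have c5770 := LP2 H i4 i23 i5 c134.symm b24 (Lsw H i5 i23 b5680)
  have b5772 := LP1 H i4 i30 i7 c106.symm b25 (Lsw H i7 i30 b1591) (Lsw H i30 i17 b4524)
  have b5773 := LP1 H i4 i31 i5 c108.symm b24 (Lsw H i5 i31 b792) (Lsw H i31 i16 b4699)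
  have c5834 := Lck c5539 c3817.symm b279
  have b5851 := LP1 H i7 i5 i8 c16.symm (Lsw H i8 i7 b204) b80 (Lsw H i5 i23 b5680)
  have b5873 := LP1 H i6 i8 i5 c17 (Lsw H i5 i6 b79) (Lsw H i5 i8 b80) (Lsw H i8 i19 b5769)
  have c5882 := Lck c4433 c5678 (Lsw H i3 i6 b22)
  have c5885 := Lck c4621 c4830 b286
  have c5890 := Lco i47 i31 (LP1 H i31 i7 i14 c239 (Lsw H i14 i31 b3147) b616 (k_one i134 i7 c5648.symm))
  have c5917 := Lck c1040 c5770.symm b627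
  have c5926 := Lck c4574 c5882 (Lsw H i14 i8 b647)
  have b5932 := LP1 H i9 i29 i1 c153 (Lsw H i1 i9 b20) b601 b5303
  have c5933 := Lco i92 i9 (LP1 H i9 i31 i5 c162 (Lsw H i5 i9 b210) (Lsw H i5 i31 b792) (k_one i27 i31 c5684))
  have c5937 := Lco i12 i76 (LP1 H i76 i9 i1 c4709 (Lsw H i1 i76 b3119) (Lsw H i1 i9 b20) (k_one i106 i9 c4710))
  have c5981 := Lco i127 i11 (LP1 H i11 i36 i9 c369 (Lsw H i9 i11 b291) (Lsw H i9 i36 b3140) (k_one i61 i36 c5468))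
  have c5984 := Lco i26 i95 (LP1 H i95 i11 i3 c1000.symm b4478 (Lsw H i3 i11 b73) (k_one i127 i11 c5981))
  have c5990 := Lco i58 i30 (LP1 H i30 i12 i7 c107 (Lsw H i7 i30 b1591) (Lsw H i7 i12 b288) (k_one i76 i12 c5937.symm))
  have c5992 := Lco i27 i35 (LP1 H i35 i12 i3 c519.symm b5355 (Lsw H i3 i12 b74) (k_one i104 i12 c1792))
  have c6015 := Lco i31 i39 (LP1 H i39 i13 i4 c518.symm b5384 (Lsw H i4 i13 b78) (k_one i95 i13 c2111))
  have c6020 := Lco i18 i84 (LP1 H i84 i13 i1 c2045.symm b4403 (Lsw H i1 i13 b65) (k_one i132 i13 c5671))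
  have b6027 := LP1 H i14 i15 i2 c62 (Lsw H i2 i14 b69) (Lsw H i2 i15 b70) b5345
  have c6028 := Lco i57 i19 (LP1 H i19 i14 i8 c85 (Lsw H i8 i19 b5769) b647 (k_one i95 i14 c2257))
  have c6082 := Lco i59 i23 (LP1 H i23 i17 i5 c97 (Lsw H i5 i23 b5680) b637 (k_one i104 i17 c2379.symm))
  have c6084 := Lco i63 i17 (LP1 H i17 i60 i1 c2209.symm (Lsw H i1 i17 b68) b2066 (k_one i21 i60 c5411.symm))
  have c6094 := Lco i49 i41 (LP1 H i41 i18 i4 c544.symm (Lsw H i4 i41 b784) (Lsw H i4 i18 b279) (k_one i84 i18 c6020.symm))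
  have c6117 := Lco i133 i22 (LP1 H i22 i42 i9 c560 (Lsw H i9 i22 b800) b5460 (k_one i100 i42 c5502.symm))
  have c6134 := Lco i104 i24 (LP1 H i24 i33 i7 c673 (Lsw H i7 i24 b1569) b5851 (k_one i71 i33 c2554))
  have c6135 := Lco i48 i35 (LP1 H i35 i24 i3 c680 b5355 (Lsw H i3 i24 b278) (k_one i104 i24 c6134))
  have c6168 := Lco i95 i45 (LP1 H i45 i33 i6 c662.symm (Lsw H i6 i45 b4409) b5873 (k_one i107 i33 c4680))
  have c6178 := Lco i47 i51 (LP1 H i51 i34 i3 c656.symm (Lsw H i3 i51 b779) b735 (k_one i79 i34 c5337.symm))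
  have c6205 := Lco i134 i38 (LP1 H i38 i57 i9 c1748 b4711 (Lsw H i9 i57 b4486) (k_one i133 i57 c5926))
  have c6207 := Lco i92 i90 (LP1 H i90 i38 i3 c1750 b4477 b1592 (k_one i134 i38 c6205))
  have c6272 := Lco i90 i75 (LP1 H i75 i56 i4 c5497.symm b4527 (Lsw H i4 i56 b790) (k_one i135 i56 c5885))
  have q6297 : Rl [t66, t95, t95, t123, 1, 1] := LJ H i1 i4 i24 b2 (Lsw H i24 i1 b597) b283 b766 (Lsw H i39 i4 b5384) (Lsw H i6 i24 b795) (Lsw H i39 i6 b4622) (k_one i6 i53 c703) (k_one i39 i53 c614.symm)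
  have q6298 : Rl [1, t66, t95, t95, t123, 1] := q6297.mv 4 rfl
  have q6299 : Rl [t66, t95, t95, t123, 1] := q6298.del1
  have q6300 : Rl [1, t66, t95, t95, t123] := q6299.mv 4 rfl
  have q6301 : Rl [t66, t95, t95, t123] := q6300.del1
  have q6302 : Rl [t95, t66, t95, t123] := q6301.mv 2 rfl
  have q6303 : Rl [t95, t95, t66, t123] := q6302.mv 2 rfl
  have q6304 : Rl [t66, t123] := q6303.del2
  have e6305 := q6304.two
  have m6306 : t66 = t123 := e6305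
  subst m6306
  have q6307 : Rl [t67, t95, t96, t66, 1, 1] := LJ H i1 i4 i26 b2 b266 (Lsw H i26 i4 b625) (Lsw H i61 i1 b2067) (Lsw H i36 i4 b2143) (Lsw H i6 i26 b796) b3136 (k_one i6 i61 c1856.symm) (k_one i36 i61 c5468.symm)
  have q6308 : Rl [1, t67, t95, t96, t66, 1] := q6307.mv 4 rfl
  have q6309 : Rl [t67, t95, t96, t66, 1] := q6308.del1
  have q6310 : Rl [1, t67, t95, t96, t66] := q6309.mv 4 rfl
  have q6311 : Rl [t67, t95, t96, t66] := q6310.del1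
  have q6312 : Rl [t68, t95, t96, t66, 1, 1] := LJ H i1 i8 i14 b19 b66 (Lsw H i14 i8 b647) b768 b5769 b1635 (Lsw H i19 i11 b4401) (k_one i11 i57 c2197.symm) (k_one i19 i57 c6028.symm)
  have q6313 : Rl [1, t68, t95, t96, t66, 1] := q6312.mv 4 rfl
  have q6314 : Rl [t68, t95, t96, t66, 1] := q6313.del1
  have q6315 : Rl [1, t68, t95, t96, t66] := q6314.mv 4 rfl
  have q6316 : Rl [t68, t95, t96, t66] := q6315.del1
  have q6317 : Rl [t70, t104, t104, t124, 1, 1] := LJ H i2 i3 i20 b3 (Lsw H i20 i2 b596) b275 b770 (Lsw H i35 i3 b5355) b1662 b3137 (k_one i7 i45 c698) (k_one i35 i45 c606.symm)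
  have q6318 : Rl [1, t70, t104, t104, t124, 1] := q6317.mv 4 rfl
  have q6319 : Rl [t70, t104, t104, t124, 1] := q6318.del1
  have q6320 : Rl [1, t70, t104, t104, t124] := q6319.mv 4 rfl
  have q6321 : Rl [t70, t104, t104, t124] := q6320.del1
  have q6322 : Rl [t104, t70, t104, t124] := q6321.mv 2 rfl
  have q6323 : Rl [t104, t104, t70, t124] := q6322.mv 2 rfl
  have q6324 : Rl [t70, t124] := q6323.del2
  have e6325 := q6324.two
  have m6326 : t70 = t124 := e6325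
  subst m6326
  have q6327 : Rl [t69, t104, t98, t70, 1, 1] := LJ H i2 i3 i29 b3 (Lsw H i29 i2 b687) (Lsw H i29 i3 b615) (Lsw H i60 i2 b2445) (Lsw H i43 i3 b1587) (Lsw H i7 i29 b798) (Lsw H i43 i7 b4438) (k_one i7 i60 c2186.symm) (k_one i43 i60 c5417.symm)
  have q6328 : Rl [1, t69, t104, t98, t70, 1] := q6327.mv 4 rfl
  have q6329 : Rl [t69, t104, t98, t70, 1] := q6328.del1
  have q6330 : Rl [1, t69, t104, t98, t70] := q6329.mv 4 rfl
  have q6331 : Rl [t69, t104, t98, t70] := q6330.del1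
  have q6332 : Rl [t112, 1, 1, 1, 1, 1] := LJ H i2 i4 i45 b4 b770 b786 b3125 (k_one i4 i70 c4526.symm) (k_one i45 i8 c690) (k_one i8 i70 c977) (k_one i8 i86 c1112) (k_one i70 i86 c5121)
  have q6333 : Rl [1, t112, 1, 1, 1, 1] := q6332.mv 1 rfl
  have q6334 : Rl [t112, 1, 1, 1, 1] := q6333.del1
  have q6335 : Rl [1, t112, 1, 1, 1] := q6334.mv 1 rfl
  have q6336 : Rl [t112, 1, 1, 1] := q6335.del1
  have q6337 : Rl [1, t112, 1, 1] := q6336.mv 1 rfl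
  have q6338 : Rl [t112, 1, 1] := q6337.del1
  have q6339 : Rl [1, t112, 1] := q6338.mv 1 rfl
  have q6340 : Rl [t112, 1] := q6339.del1
  have q6341 : Rl [1, t112] := q6340.mv 1 rfl
  have q6342 : Rl [t112] := q6341.del1
  have e6343 := q6342.one
  have m6344 : 1 = t112 := e6343.symm
  subst m6344
  have c6345 := Lco i2 i86 b3125
  have q6346 : Rl [t39, t36, t55, t62, t64, t66] := LJ H i2 i5 i6 (Lsw H i5 i2 b63) (Lsw H i6 i2 b64) b79 b269 b284 b285 b1529 b3144 (Lsw H i19 i11 b4401)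
  have q6347 : Rl [t71, t104, t98, t70, 1, 1] := LJ H i2 i5 i17 (Lsw H i5 i2 b63) b72 (Lsw H i17 i5 b637) (Lsw H i59 i2 b2082) b5680 b1659 (Lsw H i23 i10 b4440) (k_one i10 i59 c2517.symm) (k_one i23 i59 c6082.symm)
  have q6348 : Rl [1, t71, t104, t98, t70, 1] := q6347.mv 4 rfl
  have q6349 : Rl [t71, t104, t98, t70, 1] := q6348.del1
  have q6350 : Rl [1, t71, t104, t98, t70] := q6349.mv 4 rfl
  have q6351 : Rl [t71, t104, t98, t70] := q6350.del1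
  have q6352 : Rl [t79, t88, t103, t116, t129, 1] := LJ H i3 i4 i34 b5 (Lsw H i34 i3 b735) (Lsw H i34 i4 b736) b779 b788 (Lsw H i9 i34 b803) (Lsw H i47 i9 b4468) b3142 (k_one i47 i51 c6178)
  have q6353 : Rl [1, t79, t88, t103, t116, t129] := q6352.mv 5 rfl
  have q6354 : Rl [t79, t88, t103, t116, t129] := q6353.del1
  have q6355 : Rl [t134, t121, t133, 1, 1, 1] := LJ H i3 i4 i38 b5 (Lsw H i38 i3 b1592) (Lsw H i38 i4 b1834) (Lsw H i90 i3 b4477) (Lsw H i92 i4 b5773) b4711 (k_one i9 i92 c5933.symm) (k_one i9 i90 c1634.symm) (k_one i92 i90 c6207)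
  have q6356 : Rl [1, t134, t121, t133, 1, 1] := q6355.mv 3 rfl
  have q6357 : Rl [t134, t121, t133, 1, 1] := q6356.del1
  have q6358 : Rl [1, t134, t121, t133, 1] := q6357.mv 3 rfl
  have q6359 : Rl [t134, t121, t133, 1] := q6358.del1
  have q6360 : Rl [1, t134, t121, t133] := q6359.mv 3 rfl
  have q6361 : Rl [t134, t121, t133] := q6360.del1
  have q6362 : Rl [t115, t135, t130, 1, 1, 1] := LJ H i3 i4 i41 b5 b775 b784 b3128 (Lsw H i75 i4 b4527) b4396 (k_one i9 i75 c1618.symm) (k_one i9 i84 c5766.symm) (k_one i75 i84 c5096)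
  have q6363 : Rl [1, t115, t135, t130, 1, 1] := q6362.mv 3 rfl
  have q6364 : Rl [t115, t135, t130, 1, 1] := q6363.del1
  have q6365 : Rl [1, t115, t135, t130, 1] := q6364.mv 3 rfl
  have q6366 : Rl [t115, t135, t130, 1] := q6365.del1
  have q6367 : Rl [1, t115, t135, t130] := q6366.mv 3 rfl
  have q6368 : Rl [t115, t135, t130] := q6367.del1
  have q6369 : Rl [t127, t132, t127, 1, 1, 1] := LJ H i3 i11 i16 b73 (Lsw H i16 i3 b261) b1639 (Lsw H i95 i3 b4478) b3145 b5295 (k_one i26 i27 c249) (k_one i26 i95 c5984) (k_one i27 i95 c2171.symm)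
  have q6370 : Rl [1, t127, t132, t127, 1, 1] := q6369.mv 3 rfl
  have q6371 : Rl [t127, t132, t127, 1, 1] := q6370.del1
  have q6372 : Rl [1, t127, t132, t127, 1] := q6371.mv 3 rfl
  have q6373 : Rl [t127, t132, t127, 1] := q6372.del1
  have q6374 : Rl [1, t127, t132, t127] := q6373.mv 3 rfl
  have q6375 : Rl [t127, t132, t127] := q6374.del1
  have q6376 : Rl [t127, t127, t132] := q6375.mv 2 rfl
  have q6377 : Rl [t127, t127, t132] := q6376.mv 1 rfl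
  have q6378 : Rl [t132] := q6377.del2
  have e6379 := q6378.one
  have m6380 : 1 = t132 := e6379.symm
  subst m6380
  have c6381 := Lco i84 i1 b4403
  have q6384 : Rl [t119, t106, t119, 1, 1, 1] := LJ H i4 i10 i12 b76 b77 b1619 b3132 b4404 b5303 (k_one i29 i30 c250) (k_one i29 i63 c3025.symm) (k_one i30 i63 c2165)
  have q6385 : Rl [1, t119, t106, t119, 1, 1] := q6384.mv 3 rfl
  have q6386 : Rl [t119, t106, t119, 1, 1] := q6385.del1
  have q6387 : Rl [1, t119, t106, t119, 1] := q6386.mv 3 rfl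
  have q6388 : Rl [t119, t106, t119, 1] := q6387.del1
  have q6389 : Rl [1, t119, t106, t119] := q6388.mv 3 rfl
  have q6390 : Rl [t119, t106, t119] := q6389.del1
  have q6391 : Rl [t119, t119, t106] := q6390.mv 2 rfl
  have q6392 : Rl [t119, t119, t106] := q6391.mv 1 rfl
  have q6393 : Rl [t106] := q6392.del2
  have e6394 := q6393.one
  have m6395 : 1 = t106 := e6394.symm
  subst m6395
  have c6396 := Lco i1 i76 b3119
  have q6399 : Rl [t125, t113, t125, 1, 1, 1] := LJ H i7 i8 i14 (Lsw H i8 i7 b204) b616 (Lsw H i14 i8 b647) b3138 b4447 (Lsw H i23 i14 b6027) (k_one i23 i47 c434) (k_one i23 i57 c3083.symm) (k_one i47 i57 c693.symm)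
  have q6400 : Rl [1, t125, t113, t125, 1, 1] := q6399.mv 3 rfl
  have q6401 : Rl [t125, t113, t125, 1, 1] := q6400.del1
  have q6402 : Rl [1, t125, t113, t125, 1] := q6401.mv 3 rfl
  have q6403 : Rl [t125, t113, t125, 1] := q6402.del1
  have q6404 : Rl [1, t125, t113, t125] := q6403.mv 3 rfl
  have q6405 : Rl [t125, t113, t125] := q6404.del1
  have q6406 : Rl [t125, t125, t113] := q6405.mv 2 rfl
  have q6407 : Rl [t125, t125, t113] := q6406.mv 1 rfl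
  have q6408 : Rl [t113] := q6407.del2
  have e6409 := q6408.one
  have m6410 : 1 = t113 := e6409.symm
  subst m6410
  have c6411 := Lco i2 i88 b3126
  have q6484 : Rl [t58, t37, t60, t63, t130] := q5278.mv 1 rfl
  have q6485 : Rl [t63, t58, t37, t60, t130] := q6484.mv 3 rfl
  have q6486 : Rl [t37, t63, t58, t60, t130] := q6485.mv 2 rfl
  have q6487 : Rl [t97, t119, t91, 1] := Rl.l3 H i37 i63 i58 i4 q6486 (.cons c414 (.cons c5539 .nil)) b1606 (Lsw H i4 i63 b3132) (Lsw H i4 i58 b791) (k_one i97 i63 c2179.symm)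
  have q6488 : Rl [1, t97, t119, t91] := q6487.mv 3 rfl
  have q6489 : Rl [t97, t119, t91] := q6488.del1
  have c6497 := q5278.l1 (.cons c2765 (.cons c753.symm (.cons c2481 (.cons c5750 .nil))))
  have q6498 : Rl [t58, t37, t60, t63, t130] := q5278.mv 1 rfl
  have c6499 := q6498.l1 (.cons c2745.symm (.cons c635 (.cons c2706 (.cons c5834 .nil))))
  have q6521 : Rl [t49, t38, t56, t67, t90] := q2367.mv 1 rfl
  have c6522 := q6521.l1 (.cons c2328.symm (.cons c5497 (.cons c3005 (.cons c6272 .nil))))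
  have q6545 : Rl [t44, t41, t58, t69, t75] := q2037.mv 1 rfl
  have c6546 := q6545.l1 (.cons c6094.symm (.cons c6499 (.cons c2955 (.cons c6522.symm .nil))))
  have q6555 : Rl [t44, t41, t58, t69, t75] := q2037.mv 1 rfl
  have c6556 := q6555.l1 (.cons c2463.symm (.cons c5428 (.cons c2867 (.cons c6272.symm .nil))))
  have q6563 : Rl [t61, t42, t56, t72, t133] := q5282.mv 2 rfl
  have c6564 := q6563.l1 (.cons c560.symm (.cons c2603 (.cons c2230.symm (.cons c6117 .nil))))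
  have q6565 : Rl [t61, t42, t56, t72, t133] := q5282.mv 2 rfl
  have c6566 := q6565.l1 (.cons c569.symm (.cons c2243 (.cons c1918.symm (.cons c5673 .nil))))
  have q6579 : Rl [t95, t67, t96, t66] := q6311.mv 1 rfl
  have b6580 := Rl.l2 H i95 i67 i3 q6579 (.cons c1200 (.cons c4472 .nil)) b4478
  have c6635 := q6331.l1 (.cons c5770.symm (.cons c2514 (.cons c4616 .nil)))
  have c6636 := q6331.l1 (.cons c5917 (.cons c1950.symm (.cons c4988 .nil)))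
  have q6645 : Rl [t104, t71, t98, t70] := q6351.mv 1 rfl
  have q6646 : Rl [t71, t104, t98, t70] := q6645.mv 1 rfl
  have b6647 := Rl.l2 H i71 i104 i4 q6646 (.cons c1233 (.cons c4526 .nil)) (Lsw H i4 i71 b3133)
  have q6813 : Rl [t67, t95, t96, t66, t68, t95, t96, t66] := q6311.add q6316 (.cons (.cons c1523.symm (.cons c1719.symm (.cons c1970.symm (.cons c2030.symm .nil)))) (.cons (.cons c1959 (.cons (Commute.refl _) (.cons c1990 (.cons c1645 .nil)))) (.cons (.cons c1726 (.cons c1990.symm (.cons (Commute.refl _) (.cons c5183 .nil)))) (.cons (.cons c1522.symm (.cons c1645.symm (.cons c5183.symm (.cons (Commute.refl _) .nil)))) .nil))))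
  have q6814 : Rl [t95, t67, t95, t96, t66, t68, t96, t66] := q6813.mv 5 rfl
  have q6815 : Rl [t95, t95, t67, t96, t66, t68, t96, t66] := q6814.mv 2 rfl
  have q6816 : Rl [t67, t96, t66, t68, t96, t66] := q6815.del2
  have q6817 : Rl [t96, t67, t96, t66, t68, t66] := q6816.mv 4 rfl
  have q6818 : Rl [t96, t96, t67, t66, t68, t66] := q6817.mv 2 rfl
  have q6819 : Rl [t67, t66, t68, t66] := q6818.del2
  have q6820 : Rl [t66, t67, t66, t68] := q6819.mv 3 rfl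
  have q6821 : Rl [t66, t66, t67, t68] := q6820.mv 2 rfl
  have q6822 : Rl [t67, t68] := q6821.del2
  have e6823 := q6822.two
  have m6824 : t67 = t68 := e6823
  subst m6824
  have q6825 : Rl [t69, t104, t98, t70, t71, t104, t98, t70] := q6331.add q6351 (.cons (.cons c1498.symm (.cons c1979.symm (.cons c1981.symm (.cons c1492.symm .nil)))) (.cons (.cons c1691 (.cons (Commute.refl _) (.cons c1710.symm (.cons c1689 .nil)))) (.cons (.cons c1736 (.cons c1710 (.cons (Commute.refl _) (.cons c5119 .nil)))) (.cons (.cons c1502.symm (.cons c1689.symm (.cons c5119.symm (.cons (Commute.refl _) .nil)))) .nil))))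
  have q6826 : Rl [t104, t69, t104, t98, t70, t71, t98, t70] := q6825.mv 5 rfl
  have q6827 : Rl [t104, t104, t69, t98, t70, t71, t98, t70] := q6826.mv 2 rfl
  have q6828 : Rl [t69, t98, t70, t71, t98, t70] := q6827.del2
  have q6829 : Rl [t98, t69, t98, t70, t71, t70] := q6828.mv 4 rfl
  have q6830 : Rl [t98, t98, t69, t70, t71, t70] := q6829.mv 2 rfl
  have q6831 : Rl [t69, t70, t71, t70] := q6830.del2
  have q6832 : Rl [t70, t69, t70, t71] := q6831.mv 3 rfl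
  have q6833 : Rl [t70, t70, t69, t71] := q6832.mv 2 rfl
  have q6834 : Rl [t69, t71] := q6833.del2
  have e6835 := q6834.two
  have m6836 : t69 = t71 := e6835
  subst m6836
  have q6837 : Rl [t79, t87, t99, t116, t129, t79, t88, t103, t116, t129] := q5285.add q6354 (.cons (.cons (Commute.refl _) (.cons c5132 (.cons c5164.symm (.cons c4291.symm (.cons c3407.symm .nil))))) (.cons (.cons c5125.symm (.cons c1504.symm (.cons c5535.symm (.cons c5246 (.cons c3874.symm .nil))))) (.cons (.cons c5163 (.cons c2889 (.cons c1412.symm (.cons c4806 (.cons c3897.symm .nil))))) (.cons (.cons c4291 (.cons c3170.symm (.cons c4727.symm (.cons (Commute.refl _) (.cons c4512 .nil))))) (.cons (.cons c3407 (.cons c3877 (.cons c3901 (.cons c4512.symm (.cons (Commute.refl _) .nil))))) .nil)))))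
  have q6838 : Rl [t79, t79, t87, t99, t116, t129, t88, t103, t116, t129] := q6837.mv 5 rfl
  have q6839 : Rl [t79, t79, t87, t99, t116, t129, t88, t103, t116, t129] := q6838.mv 1 rfl
  have q6840 : Rl [t87, t99, t116, t129, t88, t103, t116, t129] := q6839.del2
  have q6841 : Rl [t116, t87, t99, t116, t129, t88, t103, t129] := q6840.mv 6 rfl
  have q6842 : Rl [t116, t116, t87, t99, t129, t88, t103, t129] := q6841.mv 3 rfl
  have q6843 : Rl [t87, t99, t129, t88, t103, t129] := q6842.del2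
  have q6844 : Rl [t129, t87, t99, t129, t88, t103] := q6843.mv 5 rfl
  have q6845 : Rl [t129, t129, t87, t99, t88, t103] := q6844.mv 3 rfl
  have q6846 : Rl [t87, t99, t88, t103] := q6845.del2
  have q6847 : Rl [t115, t135, t130, t116, t130, t135] := q6368.add q5301 (.cons (.cons c4344.symm (.cons c4726.symm (.cons c4518 .nil))) (.cons (.cons c4519.symm (.cons c4824 (.cons (Commute.refl _) .nil))) (.cons (.cons c5092.symm (.cons (Commute.refl _) (.cons c4824.symm .nil))) .nil)))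
  have q6848 : Rl [t135, t115, t135, t130, t116, t130] := q6847.mv 5 rfl
  have q6849 : Rl [t135, t135, t115, t130, t116, t130] := q6848.mv 2 rfl
  have q6850 : Rl [t115, t130, t116, t130] := q6849.del2
  have q6851 : Rl [t130, t115, t130, t116] := q6850.mv 3 rfl
  have q6852 : Rl [t130, t130, t115, t116] := q6851.mv 2 rfl
  have q6853 : Rl [t115, t116] := q6852.del2
  have e6854 := q6853.two
  have m6855 : t115 = t116 := e6854
  subst m6855
  have q6856 : Rl [t134, t121, t133, t133, t129, t134] := q6361.add q5320 (.cons (.cons c4004 (.cons c4742.symm (.cons (Commute.refl _) .nil))) (.cons (.cons c4578 (.cons c5155 (.cons c4582 .nil))) (.cons (.cons (Commute.refl _) (.cons c4821 (.cons c4004.symm .nil))) .nil)))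
  have q6857 : Rl [t134, t134, t121, t133, t133, t129] := q6856.mv 5 rfl
  have q6858 : Rl [t134, t134, t121, t133, t133, t129] := q6857.mv 1 rfl
  have q6859 : Rl [t121, t133, t133, t129] := q6858.del2
  have q6860 : Rl [t133, t121, t133, t129] := q6859.mv 2 rfl
  have q6861 : Rl [t133, t133, t121, t129] := q6860.mv 2 rfl
  have q6862 : Rl [t121, t129] := q6861.del2
  have e6863 := q6862.two
  have m6864 : t121 = t129 := e6863
  subst m6864
  have c6865 := Lco i65 i2 (LP1 H i2 i1 i48 hab.symm b771 b765 (k_one i69 i1 c1661))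
  have c6866 := Lco i73 i1 (LP1 H i1 i2 i50 hab (Lsw H i50 i1 b1783) b773 (k_one i67 i2 c1568))
  have b6900 := LP1 H i3 i23 i6 c138.symm b22 (Lsw H i6 i23 b794) (Lsw H i23 i14 b6027)
  have c6902 := LP3 H i40 i3 i4 c390 b2998 b6900
  have b6904 := LP1 H i3 i45 i4 c312.symm b5 (Lsw H i4 i45 b786) (Lsw H i45 i9 b4696)
  have b6905 := LP1 H i57 i3 i1 c484 (Lsw H i1 i57 b768) (Lsw H i1 i3 b1) b6580
  have c6910 := Lco i120 i3 (LP1 H i3 i69 i4 c989.symm b5 (Lsw H i4 i69 b3133) (k_one i9 i69 c2083.symm))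
  have b6923 := LP1 H i23 i4 i5 c134 (Lsw H i5 i23 b5680) b24 b6647
  have b6931 := LP1 H i4 i55 i3 c364.symm (Lsw H i3 i4 b5) b2985 (Lsw H i55 i9 b5932)
  have c6947 := Lco i125 i5 (LP1 H i5 i7 i57 c16 b6905 b3138 (k_one i127 i7 c5649.symm))
  have b6948 := LP1 H i14 i5 i8 c49.symm b647 b80 (Lsw H i5 i57 b6905)
  have c7020 := Lco i72 i14 (LP1 H i14 i61 i2 c2128.symm (Lsw H i2 i14 b69) b2446 (k_one i22 i61 c6564.symm))
  have b7033 := LP1 H i17 i16 i2 c61.symm (Lsw H i2 i17 b72) (Lsw H i2 i16 b71) (Lsw H i16 i23 b6923)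
  have c7034 := Lco i24 i60 (LP1 H i60 i16 i2 c1992 b2445 (Lsw H i2 i16 b71) (k_one i69 i16 c6635))
  have c7035 := Lco i72 i16 (LP1 H i16 i61 i2 c639 (Lsw H i2 i16 b71) b2446 (k_one i24 i61 c6566.symm))
  have c7101 := Lco i65 i23 (LP1 H i23 i48 i1 c435 (Lsw H i1 i23 b265) (Lsw H i1 i48 b765) (k_one i35 i48 c6135.symm))
  have c7120 := Lco i65 i28 (LP1 H i28 i48 i1 c552 (Lsw H i1 i28 b267) (Lsw H i1 i48 b765) (k_one i37 i48 c6497))
  have c7184 := Lco i85 i56 (LP1 H i56 i44 i4 c5476 (Lsw H i4 i56 b790) (Lsw H i4 i44 b785) (k_one i90 i44 c6556.symm))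
  have c7203 := Lco i77 i58 (LP1 H i58 i49 i3 c6499 (Lsw H i3 i58 b783) (Lsw H i3 i49 b777) (k_one i75 i49 c6522.symm))
  have q7248 : Rl [t77, t85, 1, 1, 1, 1] := LJ H i3 i4 i18 b5 b274 b279 b777 b785 (k_one i18 i9 c116) (k_one i9 i44 c413) (k_one i9 i49 c445) (k_one i44 i49 c6546)
  have q7249 : Rl [1, t77, t85, 1, 1, 1] := q7248.mv 2 rfl
  have q7250 : Rl [t77, t85, 1, 1, 1] := q7249.del1
  have q7251 : Rl [1, t77, t85, 1, 1] := q7250.mv 2 rfl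
  have q7252 : Rl [t77, t85, 1, 1] := q7251.del1
  have q7253 : Rl [1, t77, t85, 1] := q7252.mv 2 rfl
  have q7254 : Rl [t77, t85, 1] := q7253.del1
  have q7255 : Rl [1, t77, t85] := q7254.mv 2 rfl
  have q7256 : Rl [t77, t85] := q7255.del1
  have e7257 := q7256.two
  have m7258 : t77 = t85 := e7257
  subst m7258
  have q7259 : Rl [t127, t107, t127, 1, 1, 1] := LJ H i3 i6 i33 b22 (Lsw H i33 i3 b734) (Lsw H i33 i6 b5873) (Lsw H i95 i3 b4478) b4409 b6948 (k_one i14 i45 c700) (k_one i14 i95 c2257.symm) (k_one i45 i95 c6168.symm)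
  have q7260 : Rl [1, t127, t107, t127, 1, 1] := q7259.mv 3 rfl
  have q7261 : Rl [t127, t107, t127, 1, 1] := q7260.del1
  have q7262 : Rl [1, t127, t107, t127, 1] := q7261.mv 3 rfl
  have q7263 : Rl [t127, t107, t127, 1] := q7262.del1
  have q7264 : Rl [1, t127, t107, t127] := q7263.mv 3 rfl
  have q7265 : Rl [t127, t107, t127] := q7264.del1
  have q7266 : Rl [t127, t127, t107] := q7265.mv 2 rfl
  have q7267 : Rl [t127, t127, t107] := q7266.mv 1 rfl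
  have q7268 : Rl [t107] := q7267.del2
  have e7269 := q7268.one
  have m7270 : 1 = t107 := e7269.symm
  subst m7270
  have c7271 := Lco i1 i86 b3120
  have q7273 : Rl [t120, t111, t120, 1, 1, 1] := LJ H i4 i7 i24 b25 b283 b1569 b3133 b4448 b7033 (k_one i17 i53 c712) (k_one i17 i69 c2630.symm) (k_one i53 i69 c6636.symm)
  have q7274 : Rl [1, t120, t111, t120, 1, 1] := q7273.mv 3 rfl
  have q7275 : Rl [t120, t111, t120, 1, 1] := q7274.del1
  have q7276 : Rl [1, t120, t111, t120, 1] := q7275.mv 3 rfl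
  have q7277 : Rl [t120, t111, t120, 1] := q7276.del1
  have q7278 : Rl [1, t120, t111, t120] := q7277.mv 3 rfl
  have q7279 : Rl [t120, t111, t120] := q7278.del1
  have q7280 : Rl [t120, t120, t111] := q7279.mv 2 rfl
  have q7281 : Rl [t120, t120, t111] := q7280.mv 1 rfl
  have q7282 : Rl [t111] := q7281.del2
  have e7283 := q7282.one
  have m7284 : 1 = t111 := e7283.symm
  subst m7284
  have c7285 := Lco i2 i81 b3124
  have q7374 : Rl [t91, t97, t119] := q6489.mv 2 rfl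
  have c7375 := q7374.l1 (.cons c1140 (.cons c3554 .nil))
  have q7376 : Rl [t91, t97, t119] := q6489.mv 2 rfl
  have q7377 : Rl [t97, t91, t119] := q7376.mv 1 rfl
  have b7378 := Rl.l2 H i97 i91 i3 q7377 (.cons c4487 .nil) b5682
  have b7443 := LP1 H i40 i3 i4 c390 b2998 b5 b6900
  have b7454 := LP1 H i19 i4 i7 c121 b1617 b25 b6931
  have b7459 := LP1 H i26 i9 i2 c163.symm (Lsw H i2 i26 b270) (Lsw H i2 i9 b21) (Lsw H i9 i40 b7443)
  have b7481 := LP1 H i16 i17 i1 c61 b200 (Lsw H i1 i17 b68) (Lsw H i17 i19 b7454)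
  have q7566 : Rl [t17, t13, t15, t23, t28, t31] := q230.mv 2 rfl
  have q7567 : Rl [t13, t17, t15, t23, t28, t31] := q7566.mv 1 rfl
  have b7568 := Rl.l2 H i13 i17 i26 q7567 (.cons c182 (.cons c2396.symm (.cons c251.symm (.cons c2123 .nil)))) b7459
  have q7569 : Rl [t34, t21, t29, t55, t51, t98] := q1764.mv 2 rfl
  have q7570 : Rl [t21, t34, t29, t55, t51, t98] := q7569.mv 1 rfl
  have b7571 := Rl.l2 H i21 i34 i16 q7570 (.cons c167.symm (.cons c2042.symm (.cons c705.symm (.cons c2514 .nil)))) b7481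
  have b7634 := LP1 H i6 i16 i7 c47 b81 (Lsw H i7 i16 b289) b7571
  have b7635 := LP1 H i7 i26 i4 c143 (Lsw H i4 i7 b25) b625 b7568
  have q7683 : Rl [t119, t122, t119, 1, 1, 1] := LJ H i4 i5 i34 b24 (Lsw H i34 i4 b736) b793 (Lsw H i93 i4 b6931) b3135 b7571 (k_one i16 i51 c705) (k_one i16 i93 c3013.symm) (k_one i51 i93 c1657.symm)
  have q7684 : Rl [1, t119, t122, t119, 1, 1] := q7683.mv 3 rfl
  have q7685 : Rl [t119, t122, t119, 1, 1] := q7684.del1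
  have q7686 : Rl [1, t119, t122, t119, 1] := q7685.mv 3 rfl
  have q7687 : Rl [t119, t122, t119, 1] := q7686.del1
  have q7688 : Rl [1, t119, t122, t119] := q7687.mv 3 rfl
  have q7689 : Rl [t119, t122, t119] := q7688.del1
  have q7690 : Rl [t119, t119, t122] := q7689.mv 2 rfl
  have q7691 : Rl [t119, t119, t122] := q7690.mv 1 rfl
  have q7692 : Rl [t122] := q7691.del2
  have e7693 := q7692.one
  have m7694 : 1 = t122 := e7693.symm
  subst m7694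
  have c7695 := Lco i79 i1 b4410
  have q7711 : Rl [t56, t42, t61, t72, t133] := q5282.mv 1 rfl
  have q7712 : Rl [t61, t56, t42, t72, t133] := q7711.mv 2 rfl
  have b7713 := Rl.l2 H i61 i56 i7 q7712 (.cons c438.symm (.cons c2479.symm (.cons c4649 .nil))) b7635
  have b7725 := LP1 H i3 i61 i2 c446.symm (Lsw H i2 i3 b3) b2446 (Lsw H i61 i7 b7635)
  have b7728 := LP1 H i13 i7 i6 c56.symm (Lsw H i6 i13 b286) (Lsw H i6 i7 b81) b7713
  have q7743 : Rl [t72, t42, t56, t61, t133] := q5282.mv 3 rfl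
  have q7744 : Rl [t56, t72, t42, t61, t133] := q7743.mv 2 rfl
  have q7745 : Rl [t42, t56, t72, t61, t133] := q7744.mv 2 rfl
  have q7746 : Rl [t76, t82, t125, 1] := Rl.l3 H i42 i56 i72 i3 q7745 (.cons c446 (.cons c5678 .nil)) (Lsw H i3 i42 b776) (Lsw H i3 i56 b782) b7725 (k_one i76 i56 c5499.symm)
  have q7747 : Rl [1, t76, t82, t125] := q7746.mv 3 rfl
  have q7748 : Rl [t76, t82, t125] := q7747.del1
  have q7772 : Rl [t82, t76, t125] := q7748.mv 1 rfl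
  have c7773 := q7772.l1 (.cons c1066 (.cons c5636 .nil))
  have q7774 : Rl [t82, t76, t125] := q7748.mv 1 rfl
  have q7775 : Rl [t76, t82, t125] := q7774.mv 1 rfl
  have b7776 := Rl.l2 H i76 i82 i4 q7775 (.cons c6902 .nil) b5772
  have q7777 : Rl [t82, t76, t125] := q7748.mv 1 rfl
  have c7778 := q7777.l1 (.cons c956.symm (.cons c6947 .nil))
  obtain ⟨t136, b7810⟩ : ∃ t, k t13 t47 = t := ⟨_, rfl⟩
  have i136 := Linv H i13 i47 b7810
  have q7891 : Rl [t17, t13, t15, t23, t28, t31] := q230.mv 2 rfl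
  have q7892 : Rl [t13, t17, t15, t23, t28, t31] := q7891.mv 1 rfl
  have b7893 := Rl.l2 H i13 i17 i47 q7892 (.cons c706 (.cons c434 (.cons c549 (.cons c5890.symm .nil)))) b7810
  have q7896 : Rl [t47, t22, t26, t34, t40, t96] := q1765.mv 4 rfl
  have q7897 : Rl [t34, t47, t22, t26, t40, t96] := q7896.mv 3 rfl
  have q7898 : Rl [t26, t34, t47, t22, t40, t96] := q7897.mv 3 rfl
  have q7899 : Rl [t125, t125, t136, 1] := Rl.l3 H i26 i34 i47 i13 q7898 (.cons c188.symm (.cons c521.symm (.cons c2377.symm .nil))) (Lsw H i13 i26 b7459) b7728 (Lsw H i13 i47 b7810) (k_one i125 i34 c3658.symm)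
  have q7900 : Rl [1, t125, t125, t136] := q7899.mv 3 rfl
  have q7901 : Rl [t125, t125, t136] := q7900.del1
  have q7902 : Rl [t125, t125, t136] := q7901.mv 1 rfl
  have q7903 : Rl [t125, t125, t136] := q7902.mv 1 rfl
  have q7904 : Rl [t136] := q7903.del2
  have e7905 := q7904.one
  have m7906 : 1 = t136 := e7905.symm
  subst m7906
  have c7907 := Lco i13 i47 b7810
  have c7908 := Lco i17 i47 b7893
  have c7911 := Lco i115 i2 (LP1 H i2 i47 i9 c421.symm b21 b4468 (k_one i13 i47 c7907))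
  have c7921 := Lco i28 i34 (LP1 H i34 i17 i3 c157.symm b735 b264 (k_one i47 i17 c7908.symm))
  have c7928 := q1764.l1 (.cons c2146.symm (.cons c7921.symm (.cons c2925 (.cons c2627 (.cons c1301.symm .nil)))))
  have q7931 : Rl [t135, t115, t130] := q6368.mv 1 rfl
  have c7932 := q7931.l1 (.cons c7911 (.cons c4445 .nil))
  have c7939 := Lco i24 i28 (LP1 H i28 i2 i16 c150 (Lsw H i16 i28 b4528) b71 (k_one i135 i2 c7932))
  have c7940 := Lco i8 i75 (LP1 H i75 i2 i4 c1060 b4527 b4 (k_one i135 i2 c7932))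
  have c7945 := Lco i97 i7 (LP1 H i7 i28 i6 c144 (Lsw H i6 i7 b81) (Lsw H i6 i28 b797) (k_one i34 i28 c7921.symm))
  have c7946 := Lco i17 i37 (LP1 H i37 i7 i4 c2188 b1606 (Lsw H i4 i7 b25) (k_one i97 i7 c7945))
  have c7950 := Lco i48 i13 (LP1 H i13 i24 i3 c191 (Lsw H i3 i13 b75) (Lsw H i3 i24 b278) (k_one i28 i24 c7939.symm))
  have q7962 : Rl [t58, t37, t60, t63, t130] := q5278.mv 1 rfl
  have c7963 := q7962.l1 (.cons c7946.symm (.cons c2209 (.cons c6084 (.cons c5547 .nil))))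
  have c7983 := Lco i37 i24 (LP1 H i24 i28 i1 c7939 b597 (Lsw H i1 i28 b267) (k_one i39 i28 c2980.symm))
  have q7987 : Rl [t91, t76, t99, t121, 1, 1] := LJ H i4 i7 i12 b25 b77 b288 b791 b1591 b1684 (Lsw H i30 i17 b4524) (k_one i17 i58 c7963.symm) (k_one i30 i58 c5990.symm)
  have q7988 : Rl [1, t91, t76, t99, t121, 1] := q7987.mv 4 rfl
  have q7989 : Rl [t91, t76, t99, t121, 1] := q7988.del1
  have q7990 : Rl [1, t91, t76, t99, t121] := q7989.mv 4 rfl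
  have q7991 : Rl [t91, t76, t99, t121] := q7990.del1
  have q7992 : Rl [t58, t37, t60, t63, t130] := q5278.mv 1 rfl
  have c7993 := q7992.l1 (.cons c7983 (.cons c7034.symm (.cons c2449 (.cons c5667 .nil))))
  have q7996 : Rl [t44, t41, t58, t69, t75] := q2037.mv 1 rfl
  have c7997 := q7996.l1 (.cons c568.symm (.cons c7993 (.cons c2224.symm (.cons c1805 .nil))))
  have q8002 : Rl [t121, t91, t76, t99] := q7991.mv 3 rfl
  have c8003 := q8002.l1 (.cons c7375 (.cons c6396.symm (.cons c1279 .nil)))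
  have c8016 := q6361.l1 (.cons c8003 (.cons c3833 .nil))
  have c8020 := Lco i6 i76 (LP1 H i76 i1 i4 c6396.symm b5772 b2 (k_one i121 i1 c8003))
  have c8033 := Lco i34 i30 (LP1 H i30 i6 i7 c132.symm (Lsw H i7 i30 b1591) b81 (k_one i76 i6 c8020.symm))
  have c8036 := Lco i14 i42 (LP1 H i42 i6 i3 c1865 (Lsw H i3 i42 b776) (Lsw H i3 i6 b22) (k_one i76 i6 c8020.symm))
  have c8040 := Lco i22 i30 (LP1 H i30 i14 i2 c228.symm (Lsw H i2 i30 b272) (Lsw H i2 i14 b69) (k_one i42 i14 c8036.symm))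
  have c8042 := Lco i48 i18 (LP1 H i18 i24 i3 c254 (Lsw H i3 i18 b274) (Lsw H i3 i24 b278) (k_one i44 i24 c7997))
  have q8053 : Rl [t97, t76, t103, 1, 1, 1] := LJ H i6 i7 i9 b81 b214 b211 b797 b1591 b803 (k_one i34 i30 c8033) (k_one i34 i28 c7921.symm) (k_one i30 i28 c4529)
  have q8054 : Rl [1, t97, t76, t103, 1, 1] := q8053.mv 3 rfl
  have q8055 : Rl [t97, t76, t103, 1, 1] := q8054.del1
  have q8056 : Rl [1, t97, t76, t103, 1] := q8055.mv 3 rfl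
  have q8057 : Rl [t97, t76, t103, 1] := q8056.del1
  have q8058 : Rl [1, t97, t76, t103] := q8057.mv 3 rfl
  have q8059 : Rl [t97, t76, t103] := q8058.del1
  have q8064 : Rl [t56, t42, t61, t72, t133] := q5282.mv 1 rfl
  have c8065 := q8064.l1 (.cons c8036.symm (.cons c2128 (.cons c7020 (.cons c5882 .nil))))
  have q8076 : Rl [t103, t97, t76] := q8059.mv 2 rfl
  have c8077 := q8076.l1 (.cons c1140 (.cons c6396.symm .nil))
  have q8086 : Rl [t115, t79, t88, t103, t121] := q6354.mv 3 rfl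
  have c8087 := q8086.l1 (.cons c7695 (.cons c5274.symm (.cons c8077 (.cons c8003 .nil))))
  have c8089 := q6846.l1 (.cons c1279 (.cons c5274.symm (.cons c8077 .nil)))
  have q8091 : Rl [t135, t115, t130] := q6368.mv 1 rfl
  have c8092 := q8091.l1 (.cons c8087 (.cons c4407 .nil))
  have c8097 := Lco i5 i84 (LP1 H i84 i1 i3 c6381 (Lsw H i3 i84 b3128) b1 (k_one i115 i1 c8087))
  have c8098 := Lco i5 i86 (LP1 H i86 i1 i3 c7271.symm b6904 b1 (k_one i115 i1 c8087))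
  have c8122 := Lco i33 i27 (LP1 H i27 i5 i8 c131.symm (Lsw H i8 i27 b1604) b80 (k_one i84 i5 c8097.symm))
  have c8125 := Lco i16 i41 (LP1 H i41 i5 i4 c1845 (Lsw H i4 i41 b784) (Lsw H i4 i5 b24) (k_one i84 i5 c8097.symm))
  have c8126 := Lco i16 i45 (LP1 H i45 i5 i4 c373.symm (Lsw H i4 i45 b786) (Lsw H i4 i5 b24) (k_one i86 i5 c8098.symm))
  have c8138 := Lck c690 c8126.symm b627
  have c8144 := Lco i65 i13 (LP1 H i13 i48 i1 c7950.symm (Lsw H i1 i13 b65) (Lsw H i1 i48 b765) (k_one i18 i48 c8042.symm))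
  have c8149 := Lco i24 i27 (LP1 H i27 i16 i2 c216.symm (Lsw H i2 i27 b271) (Lsw H i2 i16 b71) (k_one i41 i16 c8125.symm))
  have q8159 : Rl [t41, t48, t59, t69, t75, 1] := LJ H i2 i3 i16 b3 b71 (Lsw H i16 i3 b261) b271 b278 (Lsw H i7 i16 b289) b1569 (Lsw H i27 i7 b1585) (k_one i24 i27 c8149)
  have q8160 : Rl [1, t41, t48, t59, t69, t75] := q8159.mv 5 rfl
  have q8161 : Rl [t41, t48, t59, t69, t75] := q8160.del1
  have q8162 : Rl [t81, t86, t102, t115, t121, 1] := LJ H i3 i4 i33 b5 (Lsw H i33 i3 b734) (Lsw H i33 i4 b737) b781 b786 (Lsw H i9 i33 b802) (Lsw H i45 i9 b4696) b4534 (k_one i45 i53 c8138)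
  have q8163 : Rl [1, t81, t86, t102, t115, t121] := q8162.mv 5 rfl
  have q8164 : Rl [t81, t86, t102, t115, t121] := q8163.del1
  have q8165 : Rl [t82, t97, t100, t115, 1, 1] := LJ H i3 i6 i13 b22 b75 b286 b782 b797 b1680 (Lsw H i28 i14 b4471) (k_one i14 i56 c8065.symm) (k_one i28 i56 c5466.symm)
  have q8166 : Rl [1, t82, t97, t100, t115, 1] := q8165.mv 4 rfl
  have q8167 : Rl [t82, t97, t100, t115, 1] := q8166.del1
  have q8168 : Rl [1, t82, t97, t100, t115] := q8167.mv 4 rfl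
  have q8169 : Rl [t82, t97, t100, t115] := q8168.del1
  have q8194 : Rl [t59, t41, t48, t69, t75] := q8161.mv 2 rfl
  have q8195 : Rl [t48, t59, t41, t69, t75] := q8194.mv 2 rfl
  have b8196 := Rl.l2 H i48 i59 i1 q8195 (.cons c353.symm (.cons c1661 (.cons c2065 .nil))) (Lsw H i1 i48 b765)
  have q8197 : Rl [t48, t41, t59, t69, t75] := q8161.mv 1 rfl
  have c8198 := q8197.l1 (.cons c1845 (.cons c474.symm (.cons c1186 (.cons c953.symm .nil))))
  have q8199 : Rl [t48, t41, t59, t69, t75] := q8161.mv 1 rfl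
  have q8200 : Rl [t59, t48, t41, t69, t75] := q8199.mv 2 rfl
  have b8201 := Rl.l2 H i59 i48 i8 q8200 (.cons c468.symm (.cons c2198 (.cons c7940.symm .nil))) (Lsw H i8 i59 b4536)
  have q8244 : Rl [t121, t81, t86, t102, t115] := q8164.mv 4 rfl
  have q8245 : Rl [t102, t121, t81, t86, t115] := q8244.mv 3 rfl
  have b8246 := Rl.l2 H i102 i121 i2 q8245 (.cons c7285.symm (.cons c6345.symm (.cons c7911 .nil))) (Lsw H i2 i102 b3127)
  have q8269 : Rl [t100, t82, t97, t115] := q8169.mv 2 rfl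
  have b8270 := Rl.l2 H i100 i82 i1 q8269 (.cons c1140 (.cons c8087 .nil)) (Lsw H i1 i100 b3122)
  have q8271 : Rl [t97, t82, t100, t115] := q8169.mv 1 rfl
  have c8272 := q8271.l1 (.cons c7773 (.cons c1270 (.cons c7911 .nil)))
  have q8273 : Rl [t100, t82, t97, t115] := q8169.mv 2 rfl
  have q8274 : Rl [t82, t100, t97, t115] := q8273.mv 1 rfl
  have b8275 := Rl.l2 H i82 i100 i4 q8274 (.cons c1109.symm (.cons c5688 .nil)) b7776
  have q8298 : Rl [t121, t134, t133] := q6361.mv 1 rfl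
  have b8299 := Rl.l2 H i121 i134 i2 q8298 (.cons c4443 .nil) b8246
  have q8300 : Rl [t41, t44, t58, t69, t75, t41, t48, t59, t69, t75] := q2037.add q8161 (.cons (.cons (Commute.refl _) (.cons c2011 (.cons c2315.symm (.cons c1452.symm (.cons c833 .nil))))) (.cons (.cons c1998.symm (.cons c580.symm (.cons c2769.symm (.cons c821 (.cons c1395.symm .nil))))) (.cons (.cons c2038 (.cons c2765.symm (.cons c536.symm (.cons c1702.symm (.cons c849 .nil))))) (.cons (.cons c1452 (.cons c2486.symm (.cons c2713.symm (.cons (Commute.refl _) (.cons c1573 .nil))))) (.cons (.cons c833.symm (.cons c1433 (.cons c1627.symm (.cons c1573.symm (.cons (Commute.refl _) .nil))))) .nil)))))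
  have q8301 : Rl [t41, t41, t44, t58, t69, t75, t48, t59, t69, t75] := q8300.mv 5 rfl
  have q8302 : Rl [t41, t41, t44, t58, t69, t75, t48, t59, t69, t75] := q8301.mv 1 rfl
  have q8303 : Rl [t44, t58, t69, t75, t48, t59, t69, t75] := q8302.del2
  have q8304 : Rl [t69, t44, t58, t69, t75, t48, t59, t75] := q8303.mv 6 rfl
  have q8305 : Rl [t69, t69, t44, t58, t75, t48, t59, t75] := q8304.mv 3 rfl
  have q8306 : Rl [t44, t58, t75, t48, t59, t75] := q8305.del2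
  have q8307 : Rl [t75, t44, t58, t75, t48, t59] := q8306.mv 5 rfl
  have q8308 : Rl [t75, t75, t44, t58, t48, t59] := q8307.mv 3 rfl
  have q8309 : Rl [t44, t58, t48, t59] := q8308.del2
  have c8311 := LP3 H i5 i1 i17 c6 (Lsw H i17 i5 b637) b8196
  have b8334 := LP1 H i81 i2 i4 c7285.symm (Lsw H i4 i81 b3134) b4 b8246
  have b8340 := LP1 H i101 i2 i4 c1276 b5763 b4 b8246
  have c8342 := Lco i65 i3 (LP1 H i3 i48 i1 c318.symm (Lsw H i1 i3 b1) (Lsw H i1 i48 b765) (k_one i5 i48 c8198.symm))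
  have c8343 := Lco i109 i3 (LP1 H i3 i82 i1 c846.symm (Lsw H i1 i3 b1) b8270 (k_one i5 i82 c7778.symm))
  have b8345 := LP1 H i9 i4 i22 c15 b800 b282 b8275
  have b8349 := LP1 H i4 i52 i3 c326.symm (Lsw H i3 i4 b5) (Lsw H i3 i52 b780) (Lsw H i52 i9 b8345)
  have b8351 := LP1 H i4 i59 i1 c472.symm (Lsw H i1 i4 b2) b8196 (Lsw H i59 i6 b7634)
  have b8365 := LP1 H i24 i8 i3 c164.symm (Lsw H i3 i24 b278) (Lsw H i3 i8 b23) b8201
  have b8366 := LP1 H i24 i8 i9 c164.symm (Lsw H i9 i24 b801) b215 (Lsw H i8 i101 b8340)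
  have b8367 := LP1 H i53 i8 i3 c403.symm (Lsw H i3 i53 b781) (Lsw H i3 i8 b23) (Lsw H i8 i81 b8334)
  have c8375 := Lco i31 i65 (LP1 H i65 i13 i4 c8144 b8351 (Lsw H i4 i13 b78) (k_one i119 i13 c5332.symm))
  have b8381 := LP1 H i33 i15 i4 c147.symm b737 b248 (Lsw H i15 i53 b8367)
  have q8427 : Rl [t80, t88, t100, t115, t121, 1] := LJ H i3 i4 i22 b5 b277 b282 b780 b788 (Lsw H i9 i22 b800) (Lsw H i47 i9 b4468) (Lsw H i52 i9 b8345) (k_one i47 i52 c4964.symm)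
  have q8428 : Rl [1, t80, t88, t100, t115, t121] := q8427.mv 5 rfl
  have q8429 : Rl [t80, t88, t100, t115, t121] := q8428.del1
  have q8430 : Rl [t92, t84, t102, 1, t114, 1] := LJ H i5 i8 i9 b80 b210 b215 b792 b1604 b802 (k_one i33 i27 c8122) (Lsw H i31 i33 b8381) (k_one i27 i31 c5684)
  have q8431 : Rl [1, t92, t84, t102, t114, 1] := q8430.mv 3 rfl
  have q8432 : Rl [t92, t84, t102, t114, 1] := q8431.del1
  have q8433 : Rl [1, t92, t84, t102, t114] := q8432.mv 4 rfl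
  have q8434 : Rl [t92, t84, t102, t114] := q8433.del1
  have q8435 : Rl [t31, t13, t15, t17, t23, t28] := q230.mv 5 rfl
  have q8436 : Rl [t17, t31, t13, t15, t23, t28] := q8435.mv 3 rfl
  have q8437 : Rl [t15, t17, t31, t13, t23, t28] := q8436.mv 3 rfl
  have q8438 : Rl [t120, t120, t114, 1] := Rl.l3 H i15 i17 i31 i24 q8437 (.cons c191 (.cons c198.symm (.cons c7939.symm .nil))) b8365 (Lsw H i24 i17 b7033) b8366 (k_one i120 i17 c3730.symm)
  have q8439 : Rl [1, t120, t120, t114] := q8438.mv 3 rfl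
  have q8440 : Rl [t120, t120, t114] := q8439.del1
  have q8441 : Rl [t120, t120, t114] := q8440.mv 1 rfl
  have q8442 : Rl [t120, t120, t114] := q8441.mv 1 rfl
  have q8443 : Rl [t114] := q8442.del2
  have e8444 := q8443.one
  have m8445 : 1 = t114 := e8444.symm
  subst m8445
  have c8446 := Lco i2 i102 b3127
  have c8447 := Lco i121 i2 b8246
  have c8448 := Lco i134 i2 b8299
  have c8458 := Lco i31 i33 b8381
  have q8465 : Rl [t15, t13, t17, t23, t28, t31] := q230.mv 1 rfl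
  have c8466 := q8465.l1 (.cons c8144.symm (.cons c8311.symm (.cons c7101.symm (.cons c7120.symm (.cons c8375 .nil)))))
  have q8475 : Rl [t48, t44, t58, t59] := q8309.mv 2 rfl
  have q8476 : Rl [t58, t48, t44, t59] := q8475.mv 2 rfl
  have q8477 : Rl [t44, t58, t48, t59] := q8476.mv 2 rfl
  have q8478 : Rl [t77, t91, t89, 1] := Rl.l3 H i44 i58 i48 i4 q8477 (.cons c472 .nil) (Lsw H i4 i44 b785) (Lsw H i4 i58 b791) (Lsw H i4 i48 b789) (k_one i77 i58 c7203)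
  have q8479 : Rl [1, t77, t91, t89] := q8478.mv 3 rfl
  have q8480 : Rl [t77, t91, t89] := q8479.del1
  have q8481 : Rl [t125, t76, t82] := q7748.mv 2 rfl
  have q8482 : Rl [t82, t125, t76] := q8481.mv 2 rfl
  have b8483 := Rl.l2 H i82 i125 i1 q8482 (.cons c6396.symm .nil) b8270
  have q8487 : Rl [t103, t97, t76] := q8059.mv 2 rfl
  have c8488 := q8487.l1 (.cons c8272 (.cons c1066 .nil))
  have c8493 := q6354.l1 (.cons c6411.symm (.cons c8488 (.cons c7911 (.cons c8447 .nil))))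
  have q8495 : Rl [t100, t80, t88, t115, t121] := q8429.mv 2 rfl
  have b8496 := Rl.l2 H i100 i80 i1 q8495 (.cons c5274.symm (.cons c8087 (.cons c8003 .nil))) (Lsw H i1 i100 b3122)
  have c8497 := q8429.l1 (.cons c6411.symm (.cons c1270 (.cons c7911 (.cons c8447 .nil))))
  have q8520 : Rl [1, t92, t84, t102] := q8434.mv 3 rfl
  have q8521 : Rl [t92, t84, t102] := q8520.del1
  have b8532 := LP1 H i5 i1 i17 c6 (Lsw H i17 i5 b637) b68 b8196
  have b8533 := LP1 H i1 i21 i3 c88.symm b1 (Lsw H i3 i21 b276) (Lsw H i21 i5 b8532)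
  have b8534 := LP1 H i72 i1 i3 c1672 b7725 b1 b8483
  have b8535 := LP1 H i94 i1 i3 c1127 b6900 b1 b8483
  have c8553 := Lco i109 i4 (LP1 H i4 i72 i5 c990.symm b24 (Lsw H i5 i72 b8534) (k_one i16 i72 c7035.symm))
  have b8554 := LP1 H i35 i5 i4 c431.symm b1603 (Lsw H i4 i5 b24) (Lsw H i5 i94 b8535)
  have c8558 := Lco i92 i8 (LP1 H i8 i31 i5 c145 (Lsw H i5 i8 b80) (Lsw H i5 i31 b792) (k_one i33 i31 c8458.symm))
  have c8559 := Lco i15 i38 (LP1 H i38 i8 i3 c2091.symm b1592 (Lsw H i3 i8 b23) (k_one i92 i8 c8558))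
  have c8568 := Lco i20 i31 (LP1 H i31 i15 i1 c232.symm (Lsw H i1 i31 b268) (Lsw H i1 i15 b67) (k_one i38 i15 c8559.symm))
  have q8583 : Rl [t37, t46, t59, t65, t75, 1] := LJ H i1 i3 i17 b1 b68 (Lsw H i17 i3 b264) b267 b276 b637 (Lsw H i21 i5 b8532) (Lsw H i28 i5 b1839) (k_one i21 i28 c7928)
  have q8584 : Rl [1, t37, t46, t59, t65, t75] := q8583.mv 5 rfl
  have q8585 : Rl [t37, t46, t59, t65, t75] := q8584.del1
  have q8586 : Rl [t38, t50, t57, t67, t90, 1] := LJ H i1 i4 i15 b2 b67 (Lsw H i15 i4 b248) b268 b280 (Lsw H i6 i15 b287) (Lsw H i20 i6 b1528) (Lsw H i31 i6 b1597) (k_one i20 i31 c8568)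
  have q8587 : Rl [1, t38, t50, t57, t67, t90] := q8586.mv 5 rfl
  have q8588 : Rl [t38, t50, t57, t67, t90] := q8587.del1
  have q8589 : Rl [t14, t12, t16, t19, t27, t30] := q226.mv 1 rfl
  have q8590 : Rl [t16, t14, t12, t19, t27, t30] := q8589.mv 2 rfl
  have b8591 := Rl.l2 H i16 i14 i35 q8590 (.cons c519 (.cons c640.symm (.cons c5992 (.cons c2976 .nil)))) b8554
  have q8604 : Rl [t46, t37, t59, t65, t75] := q8585.mv 1 rfl
  have q8605 : Rl [t59, t46, t37, t65, t75] := q8604.mv 2 rfl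
  have b8606 := Rl.l2 H i59 i46 i2 q8605 (.cons c354.symm (.cons c6865 (.cons c1060 .nil))) b2082
  have q8627 : Rl [t57, t38, t50, t67, t90] := q8588.mv 2 rfl
  have q8628 : Rl [t50, t57, t38, t67, t90] := q8627.mv 2 rfl
  have b8629 := Rl.l2 H i50 i57 i2 q8628 (.cons c356.symm (.cons c1568 (.cons c1833 .nil))) (Lsw H i2 i50 b773)
  have q8630 : Rl [t50, t38, t57, t67, t90] := q8588.mv 1 rfl
  have c8631 := q8630.l1 (.cons c2091.symm (.cons c486.symm (.cons c1266 (.cons c1113.symm .nil))))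
  have q8662 : Rl [t89, t77, t91] := q8480.mv 2 rfl
  have q8663 : Rl [t91, t89, t77] := q8662.mv 2 rfl
  have b8664 := Rl.l2 H i91 i89 i3 q8663 (.cons c836 .nil) b7378
  have q8676 : Rl [t102, t92, t84] := q8521.mv 2 rfl
  have c8677 := q8676.l1 (.cons c1073 (.cons c6381 .nil))
  have c8678 := q8521.l1 (.cons c1133 (.cons c8446.symm .nil))
  have q8684 : Rl [t38, t49, t56, t67, t90, t38, t50, t57, t67, t90] := q2367.add q8588 (.cons (.cons (Commute.refl _) (.cons c2003 (.cons c1748.symm (.cons c1472.symm (.cons c1750 .nil))))) (.cons (.cons c1997.symm (.cons c575.symm (.cons c2753.symm (.cons c1599.symm (.cons c1401.symm .nil))))) (.cons (.cons c1747 (.cons c2412.symm (.cons c546.symm (.cons c817 (.cons c863 .nil))))) (.cons (.cons c1472 (.cons c2154.symm (.cons c2552.symm (.cons (Commute.refl _) (.cons c1762.symm .nil))))) (.cons (.cons c1750.symm (.cons c1837.symm (.cons c1656.symm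 (.cons c1762 (.cons (Commute.refl _) .nil))))) .nil)))))
  have q8685 : Rl [t38, t38, t49, t56, t67, t90, t50, t57, t67, t90] := q8684.mv 5 rfl
  have q8686 : Rl [t38, t38, t49, t56, t67, t90, t50, t57, t67, t90] := q8685.mv 1 rfl
  have q8687 : Rl [t49, t56, t67, t90, t50, t57, t67, t90] := q8686.del2
  have q8688 : Rl [t67, t49, t56, t67, t90, t50, t57, t90] := q8687.mv 6 rfl
  have q8689 : Rl [t67, t67, t49, t56, t90, t50, t57, t90] := q8688.mv 3 rfl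
  have q8690 : Rl [t49, t56, t90, t50, t57, t90] := q8689.del2
  have q8691 : Rl [t90, t49, t56, t90, t50, t57] := q8690.mv 5 rfl
  have q8692 : Rl [t90, t90, t49, t56, t50, t57] := q8691.mv 3 rfl
  have q8693 : Rl [t49, t56, t50, t57] := q8692.del2
  have b8708 := LP1 H i48 i3 i4 c318 (Lsw H i4 i48 b789) b5 b8664
  have b8709 := LP1 H i3 i57 i2 c484.symm (Lsw H i2 i3 b3) b8629 b3138
  have c8710 := Lco i73 i4 (LP1 H i4 i50 i2 c322.symm (Lsw H i2 i4 b4) (Lsw H i2 i50 b773) (k_one i8 i50 c8631.symm))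
  have b8713 := LP1 H i6 i35 i3 c463 (Lsw H i3 i6 b22) b5355 b8591
  have q8743 : Rl [t81, t89, t101, t115, t121, 1] := LJ H i3 i4 i24 b5 b278 b283 b781 b789 (Lsw H i9 i24 b801) b8708 b4534 (k_one i48 i53 c4977)
  have q8744 : Rl [1, t81, t89, t101, t115, t121] := q8743.mv 5 rfl
  have q8745 : Rl [t81, t89, t101, t115, t121] := q8744.del1
  have q8752 : Rl [t50, t49, t56, t57] := q8693.mv 2 rfl
  have q8753 : Rl [t56, t50, t49, t57] := q8752.mv 2 rfl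
  have q8754 : Rl [t49, t56, t50, t57] := q8753.mv 2 rfl
  have q8755 : Rl [t77, t82, t78, 1] := Rl.l3 H i49 i56 i50 i3 q8754 (.cons c484 .nil) (Lsw H i3 i49 b777) (Lsw H i3 i56 b782) (Lsw H i3 i50 b778) (k_one i77 i56 c7184)
  have q8756 : Rl [1, t77, t82, t78] := q8755.mv 3 rfl
  have q8757 : Rl [t77, t82, t78] := q8756.del1
  have q8758 : Rl [t104, t69, t98, t70] := q6331.mv 1 rfl
  have b8759 := Rl.l2 H i104 i69 i6 q8758 (.cons c1640 (.cons c4626 .nil)) b8713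
  have c8766 := q8164.l1 (.cons c7271.symm (.cons c8677 (.cons c8087 (.cons c8003 .nil))))
  have q8768 : Rl [t89, t81, t101, t115, t121] := q8745.mv 1 rfl
  have c8769 := q8768.l1 (.cons c7285.symm (.cons c1276 (.cons c7911 (.cons c8447 .nil))))
  have b8787 := LP1 H i1 i69 i4 c1661.symm b2 (Lsw H i4 i69 b3133) (Lsw H i69 i6 b8759)
  have b8790 := LP1 H i8 i2 i14 c12 (Lsw H i14 i8 b647) b69 b8629
  have b8792 := LP1 H i2 i22 i4 c90.symm b4 (Lsw H i4 i22 b282) (Lsw H i22 i8 b8790)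
  have q8808 : Rl [t42, t52, t57, t73, t90, 1] := LJ H i2 i4 i14 b4 b69 (Lsw H i14 i4 b247) b272 b282 b647 (Lsw H i22 i8 b8790) (Lsw H i30 i8 b1827) (k_one i22 i30 c8040)
  have q8809 : Rl [1, t42, t52, t57, t73, t90] := q8808.mv 5 rfl
  have q8810 : Rl [t42, t52, t57, t73, t90] := q8809.del1
  have q8813 : Rl [t52, t42, t57, t73, t90] := q8810.mv 1 rfl
  have q8814 : Rl [t57, t52, t42, t73, t90] := q8813.mv 2 rfl
  have b8815 := Rl.l2 H i57 i52 i1 q8814 (.cons c355.symm (.cons c6866 (.cons c1608 .nil))) (Lsw H i1 i57 b768)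
  have q8826 : Rl [t78, t77, t82] := q8757.mv 2 rfl
  have b8827 := Rl.l2 H i78 i77 i2 q8826 (.cons c7773 .nil) (Lsw H i2 i78 b3123)
  have q8828 : Rl [t78, t77, t82] := q8757.mv 2 rfl
  have q8829 : Rl [t82, t78, t77] := q8828.mv 2 rfl
  have b8830 := Rl.l2 H i82 i78 i4 q8829 (.cons c1153 .nil) b7776
  have q8838 : Rl [t91, t77, t89] := q8480.mv 1 rfl
  have q8839 : Rl [t77, t91, t89] := q8838.mv 1 rfl
  have b8840 := Rl.l2 H i77 i91 i2 q8839 (.cons c8769 .nil) b8827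
  have q8841 : Rl [t119, t97, t91] := q6489.mv 1 rfl
  have q8842 : Rl [t91, t119, t97] := q8841.mv 2 rfl
  have b8843 := Rl.l2 H i91 i119 i2 q8842 (.cons c8272 .nil) b8840
  have c8844 := Lck hab c7375.symm (Lsw H i91 i2 b8840)
  have c8845 := LP3 H i63 i2 i4 c1567 (Lsw H i4 i63 b3132) b8843
  have b8846 := LP1 H i65 i2 i4 c6865 b8351 b4 b8843
  have b8847 := LP1 H i93 i2 i4 c1812 b6931 b4 b8843
  have c8848 := Lco i110 i3 (LP1 H i3 i65 i8 c8342.symm b23 (Lsw H i8 i65 b8846) (k_one i15 i65 c8466))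
  have b8849 := LP1 H i50 i4 i3 c322 (Lsw H i3 i50 b778) (Lsw H i3 i4 b5) b8830
  have b8851 := LP1 H i39 i8 i3 c458.symm b2117 (Lsw H i3 i8 b23) (Lsw H i8 i93 b8847)
  have q8853 : Rl [t78, t86, t105, t115, t121, 1] := LJ H i3 i4 i20 b5 b275 b280 b778 b786 b1681 (Lsw H i45 i9 b4696) b8849 (k_one i45 i50 c4937.symm)
  have q8854 : Rl [1, t78, t86, t105, t115, t121] := q8853.mv 5 rfl
  have q8855 : Rl [t78, t86, t105, t115, t121] := q8854.del1
  have q8856 : Rl [t17, t13, t15, t23, t28, t31] := q230.mv 2 rfl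
  have q8857 : Rl [t15, t17, t13, t23, t28, t31] := q8856.mv 2 rfl
  have b8858 := Rl.l2 H i15 i17 i39 q8857 (.cons c518 (.cons c658.symm (.cons c2980 (.cons c6015 .nil)))) b8851
  have q8864 : Rl [t36, t39, t55, t62, t64, t66] := q6346.mv 1 rfl
  have q8865 : Rl [t39, t36, t55, t62, t64, t66] := q8864.mv 1 rfl
  have b8866 := Rl.l2 H i39 i36 i17 q8865 (.cons c629 (.cons c2275 (.cons c4653 (.cons c4557 .nil)))) (Lsw H i17 i39 b8858)
  have q8867 : Rl [t99, t91, t76, t121] := q7991.mv 2 rfl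
  have q8868 : Rl [t91, t99, t76, t121] := q8867.mv 1 rfl
  have b8869 := Rl.l2 H i91 i99 i2 q8868 (.cons c1066 (.cons c8447 .nil)) b8840
  have c8870 := q8855.l1 (.cons c7271.symm (.cons c1273 (.cons c8087 (.cons c8003 .nil))))
  have q8881 : Rl [t87, t79, t99, t115, t121] := q5285.mv 1 rfl
  have q8882 : Rl [t99, t87, t79, t115, t121] := q8881.mv 2 rfl
  have b8883 := Rl.l2 H i99 i87 i2 q8882 (.cons c8493 (.cons c7911 (.cons c8447 .nil))) b8869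
  have b8895 := LP1 H i7 i36 i4 c2473 (Lsw H i4 i7 b25) b2143 (Lsw H i36 i17 b8866)
  have q8896 : Rl [t95, t67, t96, t66] := q6311.mv 1 rfl
  have b8897 := Rl.l2 H i95 i67 i7 q8896 (.cons c1239 (.cons c3695 .nil)) b8895
  have q8898 : Rl [t82, t77, t78] := q8757.mv 1 rfl
  have b8899 := Rl.l2 H i82 i77 i1 q8898 (.cons c8870 .nil) b8270
  have q8900 : Rl [t89, t77, t91] := q8480.mv 2 rfl
  have q8901 : Rl [t77, t89, t91] := q8900.mv 1 rfl
  have b8902 := Rl.l2 H i77 i89 i1 q8901 (.cons c7375 .nil) b8899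
  have b8906 := LP1 H i2 i67 i3 c1568.symm b3 b6580 (Lsw H i67 i7 b8897)
  have r135 : t135 ∈ rad G := Lrad4 i1 i2 i3 i4 hF i135 (Rc i135 i1 c8092) (Rc i135 i2 c7932) (Rc i135 i3 c4095) (Rc i135 i4 c3517.symm)
  have r134 : t134 ∈ rad G := Lrad4 i1 i2 i3 i4 hF i134 (Rc i134 i1 c8016) (Rc i134 i2 c8448) (Rc i134 i3 c3414.symm) (Rc i134 i4 c4050)
  have r121 : t121 ∈ rad G := Lrad4 i1 i2 i3 i4 hF i121 (Rc i121 i1 c8003) (Rc i121 i2 c8447) (Rc i121 i3 c3545) (Rc i121 i4 c3179)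
  have r115 : t115 ∈ rad G := Lrad4 i1 i2 i3 i4 hF i115 (Rc i115 i1 c8087) (Rc i115 i2 c7911) (Rc i115 i3 c3167) (Rc i115 i4 c5688)
  have r110 : t110 ∈ rad G := Lrad4 i1 i2 i3 i4 hF i110 (Rc i110 i1 c8844.symm) (Rc i110 i2 c3157) (Rc i110 i3 c8848) (Rc i110 i4 c8845)
  have r109 : t109 ∈ rad G := Lrad4 i1 i2 i3 i4 hF i109 (Rc i109 i1 c3155) (Rc i109 i2 c3212.symm) (Rc i109 i3 c8343) (Rc i109 i4 c8553)
  have r97 : t97 ∈ rad G := Lrad4 i1 i2 i3 i4 hF i97 (Rc i97 i1 c1140) (Rc i97 i2 c8272) (Rb b5682 r115) (Rc i97 i4 c1109.symm)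
  have r92 : t92 ∈ rad G := Lrad4 i1 i2 i3 i4 hF i92 (Rc i92 i1 c1073) (Rc i92 i2 c8678) (Rc i92 i3 c1026.symm) (Rb b5773 r121)
  have r90 : t90 ∈ rad G := Lrad4 i1 i2 i3 i4 hF i90 (Rc i90 i1 c1608) (Rc i90 i2 c1833) (Rb b4477 r134) (Rc i90 i4 c862)
  have r89 : t89 ∈ rad G := Lrad4 i1 i2 i3 i4 hF i89 (Rb b8902 r109) (Rc i89 i2 c8769) (Rb b8664 r115) (Rc i89 i4 c860)
  have r88 : t88 ∈ rad G := Lrad4 i1 i2 i3 i4 hF i88 (Rc i88 i1 c5274.symm) (Rc i88 i2 c6411.symm) (Rb (Lsw H i3 i88 b3129) r115) (Rc i88 i4 c858)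
  have r87 : t87 ∈ rad G := Lrad4 i1 i2 i3 i4 hF i87 (Rc i87 i1 c8089) (Rb b8883 r110) (Rb b4481 r115) (Rc i87 i4 c856)
  have r86 : t86 ∈ rad G := Lrad4 i1 i2 i3 i4 hF i86 (Rc i86 i1 c7271.symm) (Rc i86 i2 c6345.symm) (Rb b6904 r115) (Rc i86 i4 c854)
  have r84 : t84 ∈ rad G := Lrad4 i1 i2 i3 i4 hF i84 (Rc i84 i1 c6381) (Rc i84 i2 c1133) (Rb (Lsw H i3 i84 b3128) r115) (Rc i84 i4 c850)
  have r81 : t81 ∈ rad G := Lrad4 i1 i2 i3 i4 hF i81 (Rc i81 i1 c8766) (Rc i81 i2 c7285.symm) (Rc i81 i3 c844) (Rb (Lsw H i4 i81 b3134) r121)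
  have r80 : t80 ∈ rad G := Lrad4 i1 i2 i3 i4 hF i80 (Rb b8496 r109) (Rc i80 i2 c8497) (Rc i80 i3 c842) (Rb b8349 r121)
  have r79 : t79 ∈ rad G := Lrad4 i1 i2 i3 i4 hF i79 (Rc i79 i1 c7695) (Rc i79 i2 c8493) (Rc i79 i3 c840) (Rb b4532 r121)
  have r78 : t78 ∈ rad G := Lrad4 i1 i2 i3 i4 hF i78 (Rc i78 i1 c8870) (Rb (Lsw H i2 i78 b3123) r110) (Rc i78 i3 c838) (Rb b8830 r121)
  have r77 : t77 ∈ rad G := Lrad4 i1 i2 i3 i4 hF i77 (Rb b8899 r109) (Rb b8827 r110) (Rc i77 i3 c836) (Rc i77 i4 c1153)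
  have r76 : t76 ∈ rad G := Lrad4 i1 i2 i3 i4 hF i76 (Rc i76 i1 c6396.symm) (Rc i76 i2 c1066) (Rc i76 i3 c834) (Rb b5772 r121)
  have r75 : t75 ∈ rad G := Lrad4 i1 i2 i3 i4 hF i75 (Rc i75 i1 c2065) (Rc i75 i2 c1060) (Rc i75 i3 c832) (Rb b4527 r135)
  have r74 : t74 ∈ rad G := Lrad4 i1 i2 i3 i4 hF i74 (Rc i74 i1 c901.symm) (Rc i74 i2 c830) (Rc i74 i3 c4479) (Rc i74 i4 c1156)
  have r70 : t70 ∈ rad G := Lrad4 i1 i2 i3 i4 hF i70 (Rc i70 i1 c898.symm) (Rc i70 i2 c822) (Rc i70 i3 c1087) (Rc i70 i4 c4526)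
  have r66 : t66 ∈ rad G := Lrad4 i1 i2 i3 i4 hF i66 (Rc i66 i1 c814) (Rc i66 i2 c902.symm) (Rc i66 i3 c4472) (Rc i66 i4 c1160)
  have r64 : t64 ∈ rad G := Lrad4 i1 i2 i3 i4 hF i64 (Rc i64 i1 c810) (Rc i64 i2 c899.symm) (Rc i64 i3 c1090) (Rc i64 i4 c4525)
  have r62 : t62 ∈ rad G := Lrad4 i1 i2 i3 i4 hF i62 (Rc i62 i1 c806) (Rc i62 i2 c896.symm) (Rc i62 i3 c2470) (Rc i62 i4 c2492)
  have r53 : t53 ∈ rad G := Lrad4 i1 i2 i3 i4 hF i53 (Rb (Lsw H i1 i53 b766) r66) (Rc i53 i2 c453) (Rb (Lsw H i3 i53 b781) r81) (Rc i53 i4 c328)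
  have r51 : t51 ∈ rad G := Lrad4 i1 i2 i3 i4 hF i51 (Rc i51 i1 c456) (Rb (Lsw H i2 i51 b774) r74) (Rb (Lsw H i3 i51 b779) r79) (Rc i51 i4 c324)
  have r47 : t47 ∈ rad G := Lrad4 i1 i2 i3 i4 hF i47 (Rb (Lsw H i1 i47 b764) r64) (Rc i47 i2 c421) (Rc i47 i3 c316) (Rb (Lsw H i4 i47 b788) r88)
  have r45 : t45 ∈ rad G := Lrad4 i1 i2 i3 i4 hF i45 (Rc i45 i1 c423) (Rb (Lsw H i2 i45 b770) r70) (Rc i45 i3 c312) (Rb (Lsw H i4 i45 b786) r86)
  have r42 : t42 ∈ rad G := Lrad4 i1 i2 i3 i4 hF i42 (Rc i42 i1 c355.symm) (Rc i42 i2 c306) (Rb (Lsw H i3 i42 b776) r76) (Rb b2148 r90)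
  have r41 : t41 ∈ rad G := Lrad4 i1 i2 i3 i4 hF i41 (Rc i41 i1 c353.symm) (Rc i41 i2 c304) (Rb (Lsw H i3 i41 b775) r75) (Rb (Lsw H i4 i41 b784) r84)
  have r38 : t38 ∈ rad G := Lrad4 i1 i2 i3 i4 hF i38 (Rc i38 i1 c298) (Rc i38 i2 c356.symm) (Rb b1592 r92) (Rb b1834 r90)
  have r37 : t37 ∈ rad G := Lrad4 i1 i2 i3 i4 hF i37 (Rc i37 i1 c296) (Rc i37 i2 c354.symm) (Rb b2119 r75) (Rb b1606 r97)
  have r31 : t31 ∈ rad G := Lrad4 i1 i2 i3 i4 hF i31 (Rb (Lsw H i1 i31 b268) r38) (Rc i31 i2 c160) (Rc i31 i3 c246) (Rc i31 i4 c108)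
  have r30 : t30 ∈ rad G := Lrad4 i1 i2 i3 i4 hF i30 (Rc i30 i1 c159) (Rb (Lsw H i2 i30 b272) r42) (Rc i30 i3 c245) (Rc i30 i4 c106)
  have r28 : t28 ∈ rad G := Lrad4 i1 i2 i3 i4 hF i28 (Rb (Lsw H i1 i28 b267) r37) (Rc i28 i2 c150) (Rc i28 i3 c102) (Rc i28 i4 c244)
  have r27 : t27 ∈ rad G := Lrad4 i1 i2 i3 i4 hF i27 (Rc i27 i1 c149) (Rb (Lsw H i2 i27 b271) r41) (Rc i27 i3 c100) (Rc i27 i4 c243)
  have r127 : t127 ∈ rad G := Lrad4 i1 i2 i3 i4 hF i127 (Rc i127 i1 c3826) (Rb b8906 r110) (Rc i127 i3 c3405.symm) (Rc i127 i4 c3443)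
  have r125 : t125 ∈ rad G := Lrad4 i1 i2 i3 i4 hF i125 (Rb b8483 r109) (Rc i125 i2 c5636) (Rc i125 i3 c3401.symm) (Rc i125 i4 c6902)
  have r120 : t120 ∈ rad G := Lrad4 i1 i2 i3 i4 hF i120 (Rb b8787 r109) (Rc i120 i2 c3550) (Rc i120 i3 c6910) (Rc i120 i4 c3177)
  have r119 : t119 ∈ rad G := Lrad4 i1 i2 i3 i4 hF i119 (Rc i119 i1 c3554) (Rb b8843 r110) (Rc i119 i3 c4487) (Rc i119 i4 c3175)
  have r104 : t104 ∈ rad G := Lrad4 i1 i2 i3 i4 hF i104 (Rc i104 i1 c1236) (Rb b4436 r70) (Rc i104 i3 c1041.symm) (Rb b6647 r120)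
  have r95 : t95 ∈ rad G := Lrad4 i1 i2 i3 i4 hF i95 (Rb b4402 r66) (Rc i95 i2 c1203) (Rb b4478 r127) (Rc i95 i4 c1601)
  have r94 : t94 ∈ rad G := Lrad4 i1 i2 i3 i4 hF i94 (Rc i94 i1 c1127) (Rb b4439 r74) (Rb b6900 r125) (Rc i94 i4 c1106.symm)
  have r93 : t93 ∈ rad G := Lrad4 i1 i2 i3 i4 hF i93 (Rb b4400 r64) (Rc i93 i2 c1812) (Rc i93 i3 c1584) (Rb b6931 r119)
  have r73 : t73 ∈ rad G := Lrad4 i1 i2 i3 i4 hF i73 (Rc i73 i1 c6866) (Rc i73 i2 c828) (Rb b8709 r125) (Rc i73 i4 c8710)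
  have r72 : t72 ∈ rad G := Lrad4 i1 i2 i3 i4 hF i72 (Rc i72 i1 c1672) (Rc i72 i2 c826) (Rb b7725 r125) (Rc i72 i4 c990)
  have r69 : t69 ∈ rad G := Lrad4 i1 i2 i3 i4 hF i69 (Rc i69 i1 c1661) (Rc i69 i2 c820) (Rc i69 i3 c989) (Rb (Lsw H i4 i69 b3133) r120)
  have r67 : t67 ∈ rad G := Lrad4 i1 i2 i3 i4 hF i67 (Rc i67 i1 c816) (Rc i67 i2 c1568) (Rb b6580 r127) (Rc i67 i4 c1531)
  have r65 : t65 ∈ rad G := Lrad4 i1 i2 i3 i4 hF i65 (Rc i65 i1 c812) (Rc i65 i2 c6865) (Rc i65 i3 c8342) (Rb b8351 r119)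
  have r63 : t63 ∈ rad G := Lrad4 i1 i2 i3 i4 hF i63 (Rc i63 i1 c808) (Rc i63 i2 c1567) (Rc i63 i3 c932) (Rb (Lsw H i4 i63 b3132) r119)
  have r61 : t61 ∈ rad G := Lrad4 i1 i2 i3 i4 hF i61 (Rb b2067 r67) (Rb b2446 r72) (Rc i61 i3 c446) (Rc i61 i4 c444.symm)
  have r60 : t60 ∈ rad G := Lrad4 i1 i2 i3 i4 hF i60 (Rb b2066 r63) (Rb b2445 r69) (Rc i60 i3 c411.symm) (Rc i60 i4 c414)
  have r55 : t55 ∈ rad G := Lrad4 i1 i2 i3 i4 hF i55 (Rc i55 i1 c361.symm) (Rb b1526 r62) (Rb b2985 r93) (Rc i55 i4 c364)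
  have r52 : t52 ∈ rad G := Lrad4 i1 i2 i3 i4 hF i52 (Rb b8815 r67) (Rb b8792 r73) (Rb (Lsw H i3 i52 b780) r80) (Rc i52 i4 c326)
  have r50 : t50 ∈ rad G := Lrad4 i1 i2 i3 i4 hF i50 (Rb b1783 r67) (Rb (Lsw H i2 i50 b773) r73) (Rb (Lsw H i3 i50 b778) r78) (Rc i50 i4 c322)
  have r49 : t49 ∈ rad G := Lrad4 i1 i2 i3 i4 hF i49 (Rb b1782 r67) (Rb (Lsw H i2 i49 b772) r72) (Rb (Lsw H i3 i49 b777) r77) (Rc i49 i4 c320)
  have r48 : t48 ∈ rad G := Lrad4 i1 i2 i3 i4 hF i48 (Rb (Lsw H i1 i48 b765) r65) (Rb (Lsw H i2 i48 b771) r69) (Rc i48 i3 c318) (Rb (Lsw H i4 i48 b789) r89)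
  have r46 : t46 ∈ rad G := Lrad4 i1 i2 i3 i4 hF i46 (Rb b8533 r65) (Rb b8606 r69) (Rc i46 i3 c314) (Rb (Lsw H i4 i46 b787) r87)
  have r44 : t44 ∈ rad G := Lrad4 i1 i2 i3 i4 hF i44 (Rb (Lsw H i1 i44 b763) r63) (Rb (Lsw H i2 i44 b769) r69) (Rc i44 i3 c310) (Rb (Lsw H i4 i44 b785) r77)
  have r43 : t43 ∈ rad G := Lrad4 i1 i2 i3 i4 hF i43 (Rb b1778 r62) (Rc i43 i2 c308) (Rb b1587 r104) (Rc i43 i4 c610)
  have r40 : t40 ∈ rad G := Lrad4 i1 i2 i3 i4 hF i40 (Rb (Lsw H i1 i40 b762) r62) (Rc i40 i2 c302) (Rc i40 i3 c390) (Rb b2998 r94)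
  have r39 : t39 ∈ rad G := Lrad4 i1 i2 i3 i4 hF i39 (Rc i39 i1 c350.symm) (Rc i39 i2 c300) (Rb b2117 r93) (Rb b5384 r95)
  have r36 : t36 ∈ rad G := Lrad4 i1 i2 i3 i4 hF i36 (Rc i36 i1 c294) (Rb b1524 r62) (Rc i36 i3 c367) (Rb b2143 r95)
  have r35 : t35 ∈ rad G := Lrad4 i1 i2 i3 i4 hF i35 (Rc i35 i1 c292) (Rc i35 i2 c351.symm) (Rb b5355 r104) (Rb b1603 r94)
  have r29 : t29 ∈ rad G := Lrad4 i1 i2 i3 i4 hF i29 (Rb b601 r55) (Rb b687 r43) (Rb b615 r60) (Rc i29 i4 c104)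
  have r26 : t26 ∈ rad G := Lrad4 i1 i2 i3 i4 hF i26 (Rb (Lsw H i1 i26 b266) r36) (Rb (Lsw H i2 i26 b270) r40) (Rc i26 i3 c98) (Rb b625 r61)
  have r24 : t24 ∈ rad G := Lrad4 i1 i2 i3 i4 hF i24 (Rb b597 r39) (Rc i24 i2 c94) (Rb (Lsw H i3 i24 b278) r48) (Rb (Lsw H i4 i24 b283) r53)
  have r23 : t23 ∈ rad G := Lrad4 i1 i2 i3 i4 hF i23 (Rb (Lsw H i1 i23 b265) r35) (Rc i23 i2 c92) (Rc i23 i3 c138) (Rc i23 i4 c134)
  have r22 : t22 ∈ rad G := Lrad4 i1 i2 i3 i4 hF i22 (Rb b595 r39) (Rc i22 i2 c90) (Rb (Lsw H i3 i22 b277) r47) (Rb (Lsw H i4 i22 b282) r52)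
  have r21 : t21 ∈ rad G := Lrad4 i1 i2 i3 i4 hF i21 (Rc i21 i1 c88) (Rb b598 r35) (Rb (Lsw H i3 i21 b276) r46) (Rb (Lsw H i4 i21 b281) r51)
  have r20 : t20 ∈ rad G := Lrad4 i1 i2 i3 i4 hF i20 (Rc i20 i1 c86) (Rb b596 r35) (Rb (Lsw H i3 i20 b275) r45) (Rb (Lsw H i4 i20 b280) r50)
  have r19 : t19 ∈ rad G := Lrad4 i1 i2 i3 i4 hF i19 (Rc i19 i1 c84) (Rb (Lsw H i2 i19 b269) r39) (Rc i19 i3 c126) (Rc i19 i4 c121)
  have r18 : t18 ∈ rad G := Lrad4 i1 i2 i3 i4 hF i18 (Rc i18 i1 c82) (Rc i18 i2 c117.symm) (Rb (Lsw H i3 i18 b274) r44) (Rb (Lsw H i4 i18 b279) r49)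
  have r17 : t17 ∈ rad G := Lrad4 i1 i2 i3 i4 hF i17 (Rb (Lsw H i1 i17 b68) r21) (Rb (Lsw H i2 i17 b72) r23) (Rb b264 r28) (Rc i17 i4 c40)
  have r16 : t16 ∈ rad G := Lrad4 i1 i2 i3 i4 hF i16 (Rb b200 r19) (Rb (Lsw H i2 i16 b71) r24) (Rb b261 r27) (Rc i16 i4 c38)
  have r15 : t15 ∈ rad G := Lrad4 i1 i2 i3 i4 hF i15 (Rb (Lsw H i1 i15 b67) r20) (Rb (Lsw H i2 i15 b70) r23) (Rc i15 i3 c36) (Rb b248 r31)
  have r14 : t14 ∈ rad G := Lrad4 i1 i2 i3 i4 hF i14 (Rb (Lsw H i1 i14 b66) r19) (Rb (Lsw H i2 i14 b69) r22) (Rc i14 i3 c34) (Rb b247 r30)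
  have r13 : t13 ∈ rad G := Lrad4 i1 i2 i3 i4 hF i13 (Rb (Lsw H i1 i13 b65) r18) (Rc i13 i2 c32) (Rb (Lsw H i3 i13 b75) r28) (Rb (Lsw H i4 i13 b78) r31)
  have r12 : t12 ∈ rad G := Lrad4 i1 i2 i3 i4 hF i12 (Rc i12 i1 c30) (Rb b199 r18) (Rb (Lsw H i3 i12 b74) r27) (Rb (Lsw H i4 i12 b77) r30)
  have r11 : t11 ∈ rad G := Lrad4 i1 i2 i3 i4 hF i11 (Rc i11 i1 c28) (Rc i11 i2 c45.symm) (Rb (Lsw H i3 i11 b73) r26) (Rc i11 i4 c43)
  have r10 : t10 ∈ rad G := Lrad4 i1 i2 i3 i4 hF i10 (Rc i10 i1 c26) (Rc i10 i2 c44.symm) (Rc i10 i3 c42) (Rb (Lsw H i4 i10 b76) r29)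
  have r9 : t9 ∈ rad G := Lrad4 i1 i2 i3 i4 hF i9 (Rb (Lsw H i1 i9 b20) r12) (Rb (Lsw H i2 i9 b21) r13) (Rc i9 i3 c14) (Rc i9 i4 c15)
  have r8 : t8 ∈ rad G := Lrad4 i1 i2 i3 i4 hF i8 (Rb (Lsw H i1 i8 b19) r11) (Rc i8 i2 c12) (Rb (Lsw H i3 i8 b23) r15) (Rc i8 i4 c13)
  have r7 : t7 ∈ rad G := Lrad4 i1 i2 i3 i4 hF i7 (Rb (Lsw H i1 i7 b18) r10) (Rc i7 i2 c10) (Rc i7 i3 c11) (Rb (Lsw H i4 i7 b25) r17)
  have r6 : t6 ∈ rad G := Lrad4 i1 i2 i3 i4 hF i6 (Rc i6 i1 c8) (Rb b64 r11) (Rb (Lsw H i3 i6 b22) r14) (Rc i6 i4 c9)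
  have r5 : t5 ∈ rad G := Lrad4 i1 i2 i3 i4 hF i5 (Rc i5 i1 c6) (Rb b63 r10) (Rc i5 i3 c7) (Rb (Lsw H i4 i5 b24) r16)
  have r4 : d ∈ rad G := Lrad4 i1 i2 i3 i4 hF i4 (Rb (Lsw H i1 i4 b2) r6) (Rb (Lsw H i2 i4 b4) r8) (Rb (Lsw H i3 i4 b5) r9) (Rc i4 i4 (Commute.refl _))
  have r3 : c ∈ rad G := Lrad4 i1 i2 i3 i4 hF i3 (Rb (Lsw H i1 i3 b1) r5) (Rb (Lsw H i2 i3 b3) r7) (Rc i3 i3 (Commute.refl _)) (Rb b5 r9)
  have r2 : b ∈ rad G := Lrad4 i1 i2 i3 i4 hF i2 (Rc i2 i1 hab.symm) (Rc i2 i2 (Commute.refl _)) (Rb b3 r7) (Rb b4 r8)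
  have r1 : a ∈ rad G := Lrad4 i1 i2 i3 i4 hF i1 (Rc i1 i1 (Commute.refl _)) (Rc i1 i2 hab) (Rb b1 r5) (Rb b2 r6)
  exact ⟨r1, r2, r3, r4⟩

end Pool.Agent.H678.Inv
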