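import Pool.Agent.H678.Inv.F5P
import Pool.Agent.H678.Inv.F5C
import Pool.Agent.H678.Inv.F5S

/-!
# Five involutions, at least five of the ten pairs commute

Every graph with five vertices and five edges contains a path with five vertices, a cycle of length
four, or a vertex which is adjacent to all others (and one more edge).
-/

set_option autoImplicit false

namespace Pool.Agent.H678.Inv

open Pool.Agent.W5h59.Bu (LFn LF2 rad rad_lf rad_quot le_rad lf_of_comm)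

universe u

/-- a graph on `Fin 5`, given by ten values -/
def adj (b01 b02 b03 b04 b12 b13 b14 b23 b24 b34 : Bool) (i j : Fin 5) : Bool :=
  match i.val, j.val with
  | 0, 1 => b01 | 1, 0 => b01
  | 0, 2 => b02 | 2, 0 => b02
  | 0, 3 => b03 | 3, 0 => b03
  | 0, 4 => b04 | 4, 0 => b04
  | 1, 2 => b12 | 2, 1 => b12
  | 1, 3 => b13 | 3, 1 => b13
  | 1, 4 => b14 | 4, 1 => b14
  | 2, 3 => b23 | 3, 2 => b23
  | 2, 4 => b24 | 4, 2 => b24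
  | 3, 4 => b34 | 4, 3 => b34
  | _, _ => false

/-- the three graphs -/
def chk (A : Fin 5 → Fin 5 → Bool) (t : ℕ) (p q r s u : Fin 5) : Bool :=
  match t with
  | 0 => A p q && A p r && A q s && A r u
  | 1 => A p q && A p r && A q s && A r s
  | _ => A p q && A p r && A p s && A p u && A q r

/-- the copies of the three graphs -/
def wit : List (ℕ × Fin 5 × Fin 5 × Fin 5 × Fin 5 × Fin 5) :=
  [(0, 0, 1, 2, 3, 4),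
   (0, 0, 1, 2, 4, 3),
   (0, 0, 1, 3, 2, 4),
   (0, 0, 2, 4, 1, 3),
   (0, 0, 3, 4, 1, 2),
   (0, 0, 3, 4, 2, 1),
   (0, 1, 0, 2, 4, 3),
   (0, 1, 0, 4, 3, 2),
   (0, 2, 0, 1, 3, 4),
   (0, 2, 0, 3, 4, 1),
   (1, 0, 1, 4, 3, 2),
   (1, 0, 2, 3, 4, 1),
   (1, 1, 2, 3, 4, 0),
   (1, 1, 2, 4, 3, 0),
   (1, 1, 3, 4, 2, 0),
   (0, 1, 0, 4, 2, 3),
   (0, 2, 0, 3, 1, 4),
   (0, 3, 0, 1, 2, 4),
   (0, 3, 0, 1, 4, 2),
   (0, 3, 0, 2, 1, 4),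
   (0, 4, 0, 2, 3, 1),
   (0, 1, 2, 3, 0, 4),
   (0, 1, 2, 3, 4, 0),
   (0, 2, 1, 4, 0, 3),
   (0, 2, 1, 4, 3, 0),
   (0, 3, 2, 4, 0, 1),
   (0, 4, 0, 1, 2, 3),
   (0, 4, 0, 2, 1, 3),
   (0, 4, 1, 3, 0, 2),
   (0, 1, 2, 4, 3, 0),
   (0, 2, 1, 3, 4, 0),
   (0, 3, 1, 4, 0, 2),
   (0, 3, 2, 4, 1, 0),
   (0, 4, 1, 3, 2, 0),
   (0, 4, 2, 3, 0, 1),
   (0, 1, 0, 3, 4, 2),
   (0, 2, 0, 4, 3, 1),
   (1, 0, 1, 2, 3, 4),
   (1, 0, 1, 2, 4, 3),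
   (1, 0, 1, 3, 2, 4),
   (1, 0, 1, 3, 4, 2),
   (1, 0, 1, 4, 2, 3),
   (1, 0, 2, 3, 1, 4),
   (1, 0, 2, 4, 1, 3),
   (1, 0, 2, 4, 3, 1),
   (1, 0, 3, 4, 1, 2),
   (1, 0, 3, 4, 2, 1),
   (0, 0, 1, 3, 4, 2),
   (0, 0, 1, 4, 2, 3),
   (0, 0, 1, 4, 3, 2),
   (0, 0, 2, 3, 1, 4),
   (0, 0, 2, 3, 4, 1),
   (0, 0, 2, 4, 3, 1),
   (0, 1, 0, 2, 3, 4),
   (0, 1, 0, 3, 2, 4),
   (0, 1, 2, 4, 0, 3),
   (0, 1, 3, 4, 0, 2),
   (0, 1, 3, 4, 2, 0),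
   (0, 2, 0, 1, 4, 3),
   (0, 2, 0, 4, 1, 3),
   (0, 2, 1, 3, 0, 4),
   (0, 2, 3, 4, 0, 1),
   (0, 2, 3, 4, 1, 0),
   (0, 3, 0, 2, 4, 1),
   (0, 3, 0, 4, 1, 2),
   (0, 3, 0, 4, 2, 1),
   (0, 3, 1, 2, 0, 4),
   (0, 3, 1, 2, 4, 0),
   (0, 3, 1, 4, 2, 0),
   (0, 4, 0, 1, 3, 2),
   (0, 4, 0, 3, 1, 2),
   (0, 4, 0, 3, 2, 1),
   (0, 4, 1, 2, 0, 3),
   (0, 4, 1, 2, 3, 0),
   (0, 4, 2, 3, 1, 0),
   (2, 0, 1, 2, 3, 4),
   (2, 0, 1, 3, 2, 4),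
   (2, 0, 1, 4, 2, 3),
   (2, 0, 2, 3, 1, 4),
   (2, 0, 2, 4, 1, 3),
   (2, 0, 3, 4, 1, 2),
   (2, 1, 0, 2, 3, 4),
   (2, 1, 0, 3, 2, 4),
   (2, 1, 0, 4, 2, 3),
   (2, 1, 2, 3, 0, 4),
   (2, 1, 2, 4, 0, 3),
   (2, 1, 3, 4, 0, 2),
   (2, 2, 0, 1, 3, 4),
   (2, 2, 0, 3, 1, 4),
   (2, 2, 0, 4, 1, 3),
   (2, 2, 1, 3, 0, 4),
   (2, 2, 1, 4, 0, 3),
   (2, 2, 3, 4, 0, 1),
   (2, 3, 0, 1, 2, 4),
   (2, 3, 0, 2, 1, 4),
   (2, 3, 0, 4, 1, 2),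
   (2, 3, 1, 2, 0, 4),
   (2, 3, 1, 4, 0, 2),
   (2, 3, 2, 4, 0, 1),
   (2, 4, 0, 1, 2, 3),
   (2, 4, 0, 2, 1, 3),
   (2, 4, 0, 3, 1, 2),
   (2, 4, 1, 2, 0, 3),
   (2, 4, 1, 3, 0, 2),
   (2, 4, 2, 3, 0, 1)]

theorem comb : ∀ b01 b02 b03 b04 b12 b13 b14 b23 b24 b34 : Bool,
    5 ≤ b01.toNat + b02.toNat + b03.toNat + b04.toNat + b12.toNat + b13.toNat + b14.toNat +
      b23.toNat + b24.toNat + b34.toNat →
    (wit.any fun w => chk (adj b01 b02 b03 b04 b12 b13 b14 b23 b24 b34) w.1 w.2.1 w.2.2.1 w.2.2.2.1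
      w.2.2.2.2.1 w.2.2.2.2.2) = true := by
  decide +kernel

theorem wit_inj : ∀ w ∈ wit, w.2.1 ≠ w.2.2.1 ∧ w.2.1 ≠ w.2.2.2.1 ∧ w.2.1 ≠ w.2.2.2.2.1 ∧
    w.2.1 ≠ w.2.2.2.2.2 ∧ w.2.2.1 ≠ w.2.2.2.1 ∧
    ∀ x : Fin 5, x = w.2.1 ∨ x = w.2.2.1 ∨ x = w.2.2.2.1 ∨ x = w.2.2.2.2.1 ∨ x = w.2.2.2.2.2 := by
  decide +kernel

theorem card5 (c : Fin 5 → Fin 5 → Bool) :
    ((Finset.univ : Finset (Fin 5 × Fin 5)).filter
      (fun p => p.1 < p.2 ∧ c p.1 p.2 = true)).card =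
    (c 0 1).toNat + (c 0 2).toNat + (c 0 3).toNat + (c 0 4).toNat + (c 1 2).toNat +
      (c 1 3).toNat + (c 1 4).toNat + (c 2 3).toNat + (c 2 4).toNat + (c 3 4).toNat := by
  have ht : ∀ b : Bool, b.toNat = if b = true then 1 else 0 := by decide
  simp only [Finset.card_filter, Fintype.sum_prod_type, Fin.sum_univ_five, ht]
  simp
  ring

variable {G : Type u} [Group G]

theorem five (H : E2 G) {f : Fin 5 → G} (hi : ∀ i, f i * f i = 1)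
    (hf : Subgroup.closure (Set.range f) = ⊤) (S : Finset (Fin 5 × Fin 5)) (hS : 5 ≤ S.card)
    (hc : ∀ p ∈ S, p.1 < p.2 ∧ Commute (f p.1) (f p.2)) : ∀ i, f i ∈ rad G := by
  classical
  set c : Fin 5 → Fin 5 → Bool := fun i j => decide (Commute (f i) (f j)) with hcdef
  have h1 : S ⊆ (Finset.univ : Finset (Fin 5 × Fin 5)).filter
      (fun p => p.1 < p.2 ∧ c p.1 p.2 = true) := by
    intro p hp
    rw [Finset.mem_filter]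
    exact ⟨Finset.mem_univ _, (hc p hp).1, decide_eq_true (hc p hp).2⟩
  have h2 := hS.trans (Finset.card_le_card h1)
  rw [card5 c] at h2
  have h3 := comb _ _ _ _ _ _ _ _ _ _ h2
  rw [List.any_eq_true] at h3
  obtain ⟨⟨t, p, q, r, s, v⟩, hw, h4⟩ := h3
  have h5 := (wit_inj _ hw).2.2.2.2.2
  simp only at h4 h5
  have hA : ∀ i j : Fin 5, adj (c 0 1) (c 0 2) (c 0 3) (c 0 4) (c 1 2) (c 1 3) (c 1 4) (c 2 3)
      (c 2 4) (c 3 4) i j = true → Commute (f i) (f j) := by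
    intro i j
    fin_cases i <;> fin_cases j <;> intro h <;>
      first
      | exact of_decide_eq_true h
      | exact (of_decide_eq_true h).symm
      | exact absurd h Bool.false_ne_true
  have hcl : Subgroup.closure ({f p, f q, f r, f s, f v} : Set G) = ⊤ := by
    rw [eq_top_iff, ← hf]
    apply Subgroup.closure_mono
    rintro _ ⟨x, rfl⟩
    rcases h5 x with rfl | rfl | rfl | rfl | rfl <;> simp
  have hr : f p ∈ rad G ∧ f q ∈ rad G ∧ f r ∈ rad G ∧ f s ∈ rad G ∧ f v ∈ rad G := by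
    match t, h4 with
    | 0, h4 =>
      simp only [chk, Bool.and_eq_true] at h4
      exact fin5_P H (hi p) (hi q) (hi r) (hi s) (hi v) (hA _ _ h4.1.1.1) (hA _ _ h4.1.1.2)
        (hA _ _ h4.1.2) (hA _ _ h4.2) hcl
    | 1, h4 =>
      simp only [chk, Bool.and_eq_true] at h4
      exact fin5_C H (hi p) (hi q) (hi r) (hi s) (hi v) (hA _ _ h4.1.1.1) (hA _ _ h4.1.1.2)
        (hA _ _ h4.1.2) (hA _ _ h4.2) hcl
    | t + 2, h4 =>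
      simp only [chk, Bool.and_eq_true] at h4
      exact fin5_S H (hi p) (hi q) (hi r) (hi s) (hi v) (hA _ _ h4.1.1.1.1)
        (hA _ _ h4.1.1.1.2) (hA _ _ h4.1.1.2) (hA _ _ h4.1.2) (hA _ _ h4.2) hcl
  intro x
  rcases h5 x with rfl | rfl | rfl | rfl | rfl
  · exact hr.1
  · exact hr.2.1
  · exact hr.2.2.1
  · exact hr.2.2.2.1
  · exact hr.2.2.2.2

end Pool.Agent.H678.Inv
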