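import Pool.Agent.H678.Inv.F

/-!
# The exact Jacobi identity for involutions with `(uv)^4 = 1`, relations between commuting involutions
-/

set_option autoImplicit false

namespace Pool.Agent.H678.Inv

open Pool.Agent.W5h59.Bu (LFn LF2 rad rad_lf rad_quot le_rad lf_of_comm)

universe u

variable {G : Type u} [Group G]

/-- pairwise commuting elements of order at most two with product `1` -/
structure Rl (l : List G) : Prop where
  sq : ∀ x ∈ l, x * x = 1
  co : ∀ x ∈ l, ∀ y ∈ l, Commute x y
  pr : l.prod = 1

/-- all elements of the list commute with `z` -/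
inductive Al (z : G) : List G → Prop
  | nil : Al z []
  | cons {x : G} {l : List G} : Commute x z → Al z l → Al z (x :: l)

/-- all elements of the first list commute with all elements of the second one -/
inductive Al2 : List G → List G → Prop
  | nil {l : List G} : Al2 [] l
  | cons {x : G} {l m : List G} : Al x m → Al2 l m → Al2 (x :: l) m

theorem Al.prod {z : G} {l : List G} (h : Al z l) : Commute l.prod z := by
  induction h with
  | nil => exact Commute.one_left z
  | cons h1 _ ih => rw [List.prod_cons]; exact h1.mul_left ih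

theorem Al.mem {z : G} {l : List G} (h : Al z l) : ∀ x ∈ l, Commute x z := by
  induction h with
  | nil => intro x hx; exact absurd hx List.not_mem_nil
  | cons h1 _ ih =>
    intro x hx
    rcases List.mem_cons.1 hx with rfl | hx
    · exact h1
    · exact ih x hx

theorem Al2.mem {l m : List G} (h : Al2 l m) : ∀ x ∈ l, ∀ y ∈ m, Commute y x := by
  induction h with
  | nil => intro x hx; exact absurd hx List.not_mem_nil
  | cons h1 _ ih =>
    intro x hx
    rcases List.mem_cons.1 hx with rfl | hx
    · exact h1.mem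
    · exact ih x hx

section Rl

variable {l m : List G} {e f g z a b c w : G}

theorem Rl.perm (h : Rl l) (hp : l.Perm m) : Rl m := by
  refine ⟨fun x hx => h.sq x (hp.mem_iff.2 hx),
    fun x hx y hy => h.co x (hp.mem_iff.2 hx) y (hp.mem_iff.2 hy), ?_⟩
  rw [← hp.prod_eq' (List.pairwise_iff_forall_sublist.2 fun {a b} hab =>
    h.co a (hab.subset (by simp)) b (hab.subset (by simp)))]
  exact h.pr

theorem Rl.mv (h : Rl l) (i : ℕ) (hi : Nat.ble (i + 1) l.length = true) :
    Rl (l[i]'(Nat.le_of_ble_eq_true hi) :: l.eraseIdx i) :=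
  h.perm (List.getElem_cons_eraseIdx_perm (Nat.le_of_ble_eq_true hi)).symm

theorem Rl.tail (h : Rl (e :: l)) (he : l.prod = 1) : Rl l :=
  ⟨fun x hx => h.sq x (List.mem_cons_of_mem _ hx),
    fun x hx y hy => h.co x (List.mem_cons_of_mem _ hx) y (List.mem_cons_of_mem _ hy), he⟩

theorem Rl.del1 (h : Rl (1 :: l)) : Rl l := by
  refine h.tail ?_
  have := h.pr
  rwa [List.prod_cons, one_mul] at this

theorem Rl.del2 (h : Rl (e :: e :: l)) : Rl l := by
  have h1 := h.pr
  rw [List.prod_cons, List.prod_cons, ← mul_assoc, h.sq e (by simp), one_mul] at h1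
  exact ⟨fun x hx => h.sq x (by simp [hx]), fun x hx y hy => h.co x (by simp [hx]) y (by simp [hy]),
    h1⟩

theorem Rl.one (h : Rl [e]) : e = 1 := by
  have := h.pr
  rwa [List.prod_singleton] at this

theorem Rl.two (h : Rl [e, f]) : e = f := by
  have h1 := h.pr
  rw [List.prod_cons, List.prod_singleton] at h1
  rw [eq_inv_of_mul_eq_one_left h1, iinv (h.sq f (by simp))]

theorem Rl.cm (h : Rl l) (i j : ℕ) (hi : Nat.ble (i + 1) l.length = true)
    (hj : Nat.ble (j + 1) l.length = true) :
    Commute (l[i]'(Nat.le_of_ble_eq_true hi)) (l[j]'(Nat.le_of_ble_eq_true hj)) :=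
  h.co _ (List.getElem_mem _) _ (List.getElem_mem _)

theorem Rl.l1 (h : Rl (e :: l)) (hz : Al z l) : Commute e z := by
  have h1 := h.pr
  rw [List.prod_cons] at h1
  rw [eq_inv_of_mul_eq_one_left h1]
  exact hz.prod.inv_left

theorem Rl.l2 (H : E2 G) (ie : e * e = 1) (jf : f * f = 1) (iz : z * z = 1)
    (h : Rl (e :: f :: l)) (hz : Al z l) (A : k e z = a) : k f z = a := by
  have h1 := h.pr
  rw [List.prod_cons, List.prod_cons, ← mul_assoc] at h1
  have hef : Commute e f := h.co e (by simp) f (by simp)
  have iP : l.prod = e * f := by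
    rw [eq_inv_of_mul_eq_one_right h1, mul_inv_rev, iinv ie, iinv jf, hef.eq]
  have PP : l.prod * l.prod = 1 := by
    rw [iP, show e * f * (e * f) = e * (f * e) * f by simp only [mul_assoc], ← hef.eq]
    simp only [mul_assoc, cc ie, jf]
  have Pe : Commute l.prod e := by
    rw [iP]; exact (Commute.refl e).mul_left hef.symm
  have ef : f = l.prod * e := by
    rw [Pe.eq, iP, ← mul_assoc, ie, one_mul]
  rw [k_swap jf iz (H _ _ jf iz)]
  conv_lhs => rw [ef]
  rw [k_cut PP hz.prod.symm Pe, ← k_swap ie iz (H _ _ ie iz)]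
  exact A

theorem Rl.l3 (H : E2 G) (ie : e * e = 1) (jf : f * f = 1) (ig : g * g = 1) (iz : z * z = 1)
    (h : Rl (e :: f :: g :: l)) (hz : Al z l) (A : k e z = a) (B : k f z = b) (C : k g z = c)
    (U : k a f = w) : Rl [a, b, c, w] := by
  have hef : Commute e f := h.co e (by simp) f (by simp)
  have heg : Commute e g := h.co e (by simp) g (by simp)
  have hfg : Commute f g := h.co f (by simp) g (by simp)
  have ia : a * a = 1 := Linv H ie iz A
  have ib : b * b = 1 := Linv H jf iz B
  have ic : c * c = 1 := Linv H ig iz C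
  have iw : w * w = 1 := Linv H ia jf U
  have hab : Commute a b := LP2 H ie jf iz hef A B
  have haw : Commute w a := Lkl H ia jf U
  have hbw : Commute w b := by
    have h2 : k b e = w := LP1 H ie jf iz hef A B U
    exact Lkl H ib ie h2
  have ief : e * f * (e * f) = 1 := by
    rw [show e * f * (e * f) = e * (f * e) * f by simp only [mul_assoc], ← hef.eq]
    simp only [mul_assoc, cc ie, jf]
  have h1 := h.pr
  rw [List.prod_cons, List.prod_cons, List.prod_cons] at h1
  have iP : l.prod = g * (e * f) := by
    have h2 : e * f * g * l.prod = 1 := by simpa only [mul_assoc] using h1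
    rw [eq_inv_of_mul_eq_one_right h2, mul_inv_rev, iinv ig, mul_inv_rev, iinv ie, iinv jf,
      hef.eq]
  have efg : Commute (e * f) g := heg.mul_left hfg
  have PP : l.prod * l.prod = 1 := by
    rw [iP, show g * (e * f) * (g * (e * f)) = g * (e * f * g) * (e * f) by simp only [mul_assoc],
      efg.eq, show g * (g * (e * f)) * (e * f) = g * g * (e * f * (e * f)) by
        simp only [mul_assoc], ig, ief, one_mul]
  have Pef : Commute l.prod (e * f) := by
    rw [iP]; exact efg.symm.mul_left (Commute.refl _)
  have eg : g = l.prod * (e * f) := by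
    rw [iP, mul_assoc, ief, mul_one]
  have hc : c = a * w * b := by
    rw [← C, k_swap ig iz (H _ _ ig iz)]
    conv_lhs => rw [eg]
    rw [k_cut PP hz.prod.symm Pef, ← k_swap ief iz (H _ _ ief iz), k_mul_left ie jf iz hef, A, B]
    congr 1
    have h2 := k_eq (x := a) jf
    rw [U] at h2
    rw [h2, cc ia, cj, iinv jf]
  have cl : ∀ x, Commute x a → Commute x b → Commute x w → Commute x c := by
    intro x h1 h2 h3
    rw [hc]
    exact (h1.mul_right h3).mul_right h2
  have hac : Commute a c := cl a (Commute.refl a) hab haw.symm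
  have hbc : Commute b c := cl b hab.symm (Commute.refl b) hbw.symm
  have hwc : Commute w c := cl w haw hbw (Commute.refl w)
  refine ⟨?_, ?_, ?_⟩
  · intro x hx
    simp only [List.mem_cons, List.not_mem_nil, or_false] at hx
    rcases hx with rfl | rfl | rfl | rfl <;> assumption
  · intro x hx y hy
    simp only [List.mem_cons, List.not_mem_nil, or_false] at hx hy
    rcases hx with rfl | rfl | rfl | rfl <;> rcases hy with rfl | rfl | rfl | rfl <;>
      first | exact Commute.refl _ | assumption | (apply Commute.symm; assumption)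
  · simp only [List.prod_cons, List.prod_nil, mul_one]
    have e1 : a * (b * (c * w)) = a * (c * w) * b := by
      have : Commute b (c * w) := hbc.mul_right hbw.symm
      rw [this.eq]
      simp only [mul_assoc]
    rw [e1, hc]
    have e2 : a * (a * w * b * w) * b = w * (b * w) * b := by
      simp only [mul_assoc, cc ia]
    rw [e2, ← hbw.eq]
    simp only [mul_assoc, cc iw, ib]

theorem Rl.add (h : Rl l) (h' : Rl m) (hc : Al2 l m) : Rl (l ++ m) := by
  refine ⟨?_, ?_, ?_⟩
  · intro x hx
    rcases List.mem_append.1 hx with hx | hx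
    · exact h.sq x hx
    · exact h'.sq x hx
  · intro x hx y hy
    rcases List.mem_append.1 hx with hx | hx <;> rcases List.mem_append.1 hy with hy | hy
    · exact h.co x hx y hy
    · exact (hc.mem x hx y hy).symm
    · exact hc.mem y hy x hx
    · exact h'.co x hx y hy
  · rw [List.prod_append, h.pr, h'.pr, one_mul]

end Rl

section J

variable (H : E2 G)
include H

/-- `[x, [y, z]]` commutes with `[y, [x, z]]` -/
theorem JC {x y z : G} (ix : x * x = 1) (iy : y * y = 1) (iz : z * z = 1) :
    Commute (k x (k y z)) (k y (k x z)) := by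
  have S := Sy.all H
  have hx : x ∈ {x : G | x * x = 1} := ix
  have hy : y ∈ {x : G | x * x = 1} := iy
  have hz : z ∈ {x : G | x * x = 1} := iz
  have iq := S.kc hx hz
  have ir := S.kc hy hz
  have ij := S.kc hy iq
  -- `j₂` commutes with `r`
  have c1 : Commute (k y z) (k y (k x z)) := by
    have := S.i2 hz hy hx
    rwa [S.swap hz hy, S.swap hz hx, S.swap (S.kc hx hz) hy] at this
  -- `[j₂, x] = [[x, y], [x, z]]`
  have e1 : k (k y (k x z)) x = k (k x y) (k x z) := by
    have h1 := P1 H ix iq iy (S.kl hx hz).symm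
    rw [S.swap iq hy] at h1
    exact h1.symm
  have c2 : Commute (k (k x y) (k x z)) (k y z) := co_k (S.a1' hx hy hz) (S.a1 hx hy hz)
  have h2 := P1 H ir ij ix c1
  rw [e1, k_one (S.kc (S.kc hx hy) iq) ir c2] at h2
  rw [S.swap hx ir]
  exact co_one (S.kc ir hx) ij h2

variable {x y z p q r j1 j2 j3 s1 s2 s3 : G}

/-- **the exact Jacobi identity** -/
theorem LJ (ix : x * x = 1) (iy : y * y = 1) (iz : z * z = 1) (bp : k x y = p) (bq : k x z = q)
    (br : k y z = r) (b1 : k x r = j1) (b2 : k y q = j2) (b3 : k z p = j3) (d1 : k p q = s1)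
    (d2 : k p r = s2) (d3 : k q r = s3) : Rl [j1, j2, j3, s1, s2, s3] := by
  subst bp bq br b1 b2 b3 d1 d2 d3
  have S := Sy.all H
  have hx : x ∈ {x : G | x * x = 1} := ix
  have hy : y ∈ {x : G | x * x = 1} := iy
  have hz : z ∈ {x : G | x * x = 1} := iz
  have hp := S.kc hx hy
  have hq := S.kc hx hz
  have hr := S.kc hy hz
  have t1 := S.kc hx hr
  have t2 := S.kc hy hq
  have t3 := S.kc hz hp
  have u1 := S.kc hp hq
  have u2 := S.kc hp hr
  have u3 := S.kc hq hr
  -- the elements `s` are central
  have s1x : Commute (k (k x y) (k x z)) x := (co_k (S.kl hx hy).symm (S.kl hx hz).symm).symm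
  have s1y : Commute (k (k x y) (k x z)) y := S.a1' hx hy hz
  have s1z : Commute (k (k x y) (k x z)) z := S.a1 hx hy hz
  have s2y : Commute (k (k x y) (k y z)) y := (co_k (S.kr hx hy).symm (S.kl hy hz).symm).symm
  have s2x : Commute (k (k x y) (k y z)) x := by
    rw [S.swap hx hy]; exact S.a1' hy hx hz
  have s2z : Commute (k (k x y) (k y z)) z := by
    rw [S.swap hx hy]; exact S.a1 hy hx hz
  have s3z : Commute (k (k x z) (k y z)) z := (co_k (S.kr hx hz).symm (S.kr hy hz).symm).symm
  have s3x : Commute (k (k x z) (k y z)) x := by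
    rw [S.swap hx hz, S.swap hy hz]; exact S.a1' hz hx hy
  have s3y : Commute (k (k x z) (k y z)) y := by
    rw [S.swap hx hz, S.swap hy hz]; exact S.a1 hz hx hy
  have cen : ∀ s, Commute s x → Commute s y → Commute s z → Commute s (k x y) ∧
      Commute s (k x z) ∧ Commute s (k y z) ∧ Commute s (k x (k y z)) ∧
      Commute s (k y (k x z)) ∧ Commute s (k z (k x y)) ∧ Commute s (k (k x y) (k x z)) ∧
      Commute s (k (k x y) (k y z)) ∧ Commute s (k (k x z) (k y z)) := by
    intro s h1 h2 h3
    have e1 := co_k h1 h2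
    have e2 := co_k h1 h3
    have e3 := co_k h2 h3
    exact ⟨e1, e2, e3, co_k h1 e3, co_k h2 e2, co_k h3 e1, co_k e1 e2, co_k e1 e3, co_k e2 e3⟩
  obtain ⟨a1, a2, a3, a4, a5, a6, a7, a8, a9⟩ := cen _ s1x s1y s1z
  obtain ⟨b1, b2, b3, b4, b5, b6, b7, b8, b9⟩ := cen _ s2x s2y s2z
  obtain ⟨c1, c2, c3, c4, c5, c6, c7, c8, c9⟩ := cen _ s3x s3y s3z
  have j12 := JC H ix iy iz
  have j13 : Commute (k x (k y z)) (k z (k x y)) := by
    have := JC H ix iz iy
    rwa [S.swap hz hy] at this
  have j23 : Commute (k y (k x z)) (k z (k x y)) := by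
    have := JC H iy iz ix
    rwa [S.swap hz hx, S.swap hy hx] at this
  -- the elements `j` and `[x, y]`, `[x, z]`
  have c3q : Commute (k z (k x y)) (k x z) := by
    have := S.i2 hx hz hy
    rw [S.swap (S.kc hx hy) hz] at this
    exact this.symm
  have c2p : Commute (k y (k x z)) (k x y) := by
    have := S.i2 hx hy hz
    rw [S.swap (S.kc hx hz) hy] at this
    exact this.symm
  have main : k x (k y z) = k (k x y) (k y z) * (k (k x z) (k y z)) * (k y (k x z)) *
      (k z (k x y)) * (k (k x y) (k x z)) := by
    have h0 := cj_k y z x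
    rw [S.cje hy hx, S.cje hz hx, S.swap hy hx, S.swap hz hx, S.cje hr hx] at h0
    have hv : z * k x z * (z * k x z) = 1 := k_one iz hq (S.kr hx hz).symm
    have e1 := k_mul_left iy hp hv (S.kr hx hy).symm
    rw [e1] at h0
    -- `[y, z q]`
    have e2 : k y (z * k x z) = k y z * k (k x z) (k y z) * k y (k x z) := by
      rw [k_swap iy hv (H _ _ iy hv), k_mul_left iz hq iy (S.kr hx hz).symm, S.swap hz hy,
        S.swap hq hy]
      congr 1
      have h2 := S.cje hr hq
      rw [S.swap hr hq] at h2
      rw [← h2, cj, iinv hq]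
    have e3 : k (k x y) (z * k x z) = k z (k x y) * k (k x y) (k x z) := by
      rw [k_swap hp hv (H _ _ hp hv), k_mul_left iz hq hp (S.kr hx hz).symm, S.swap hq hp]
      congr 1
      have hq' : k x z * k x z = 1 := hq
      rw [c3q.symm.eq, mul_assoc, hq', mul_one]
    rw [e2, e3] at h0
    have e4 : k x y * (k y z * k (k x z) (k y z) * k y (k x z)) * k x y =
        k y z * k (k x y) (k y z) * k (k x z) (k y z) * k y (k x z) := by
      have h2 := S.cje hr hp
      rw [S.swap hr hp] at h2
      have h3 : k x y * k y z * k x y = k y z * k (k x y) (k y z) := by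
        rw [← h2, cj, iinv hp]
      have h4 : Commute (k (k x z) (k y z) * k y (k x z)) (k x y) := c1.mul_left c2p
      calc k x y * (k y z * k (k x z) (k y z) * k y (k x z)) * k x y
          = k x y * k y z * ((k (k x z) (k y z) * k y (k x z)) * k x y) := by
            simp only [mul_assoc]
        _ = k x y * k y z * (k x y * (k (k x z) (k y z) * k y (k x z))) := by rw [h4.eq]
        _ = (k x y * k y z * k x y) * (k (k x z) (k y z) * k y (k x z)) := by
            simp only [mul_assoc]
        _ = _ := by rw [h3]; simp only [mul_assoc]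
    rw [e4] at h0
    have h5 : k (k y z) x = k x (k y z) := S.swap hr hx
    rw [h5] at h0
    have h6 := congrArg (fun t => k y z * t) h0
    simp only [mul_assoc] at h6
    rw [cc hr, cc hr] at h6
    rw [h6]
    simp only [mul_assoc]
  refine ⟨?_, ?_, ?_⟩
  · intro w hw
    simp only [List.mem_cons, List.not_mem_nil, or_false] at hw
    rcases hw with rfl | rfl | rfl | rfl | rfl | rfl <;> assumption
  · intro v hv w hw
    simp only [List.mem_cons, List.not_mem_nil, or_false] at hv hw
    rcases hv with rfl | rfl | rfl | rfl | rfl | rfl <;>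
      rcases hw with rfl | rfl | rfl | rfl | rfl | rfl <;>
      first | exact Commute.refl _ | assumption | (apply Commute.symm; assumption)
  · simp only [List.prod_cons, List.prod_nil, mul_one]
    set A := k x (k y z)
    set B := k y (k x z)
    set C := k z (k x y)
    set X := k (k x y) (k x z)
    set Y := k (k x y) (k y z)
    set Z := k (k x z) (k y z)
    have h1 : B * (C * (X * (Y * Z))) = A := by
      rw [main]
      have q1 : Commute (Y * Z) (B * C * X) :=
        ((b5.mul_right b6).mul_right b7).mul_left ((c5.mul_right c6).mul_right c7)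
      calc B * (C * (X * (Y * Z))) = B * C * X * (Y * Z) := by simp only [mul_assoc]
        _ = Y * Z * (B * C * X) := q1.eq.symm
        _ = _ := by simp only [mul_assoc]
    rw [h1]
    exact t1

end J

end Pool.Agent.H678.Inv
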