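import Pool.Graph.R_seed8.Helper351.Kos.Sand

/-!
# Associative algebras generated by finitely many sandwiches are nilpotent

Copied from `Pool/Agent/H325/K.lean` (helper325).

The argument is that of `Helper351/Kos/Sand.lean` (there for adjoint representations of Lie algebras
over `ℚ`), here for a set of square zero elements of a ring, closed under ring commutators and with
`a b a = 0`.
-/

set_option autoImplicit false

namespace Pool.Agent.H678.Inv

open Pool.Agent.Helper351.Kos

section words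

variable {A : Type*} [LinearOrder A] {E : Type*} [Ring E]

/-- span of smaller words -/
def Lo (a : List A → E) (w : List A) : Submodule ℤ E :=
  Submodule.span ℤ {x | ∃ v : List A, v.length = w.length ∧ v < w ∧ x = a v}

/-- span of smaller-or-equal words -/
def Le (a : List A → E) (w : List A) : Submodule ℤ E :=
  Submodule.span ℤ {x | ∃ v : List A, v.length = w.length ∧ v ≤ w ∧ x = a v}

theorem Lo_le_Le (a : List A → E) (w : List A) : Lo a w ≤ Le a w := by
  apply Submodule.span_mono
  rintro x ⟨v, h1, h2, h3⟩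
  exact ⟨v, h1, h2.le, h3⟩

theorem self_mem_Le (a : List A → E) (w : List A) : a w ∈ Le a w :=
  Submodule.subset_span ⟨w, rfl, le_refl _, rfl⟩

theorem Le_le_Lo (a : List A → E) (w w' : List A) (hl : w.length = w'.length)
    (h : w < w') : Le a w ≤ Lo a w' := by
  apply Submodule.span_mono
  rintro x ⟨v, h1, h2, h3⟩
  exact ⟨v, h1.trans hl, lt_of_le_of_lt h2 h, h3⟩

theorem mul_mem_span' {S T U : Set E} (h : ∀ x ∈ S, ∀ y ∈ T, x * y ∈ U)
    {x y : E} (hx : x ∈ Submodule.span ℤ S) (hy : y ∈ Submodule.span ℤ T) :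
    x * y ∈ Submodule.span ℤ U := by
  have h1 : x * y ∈ Submodule.span ℤ S * Submodule.span ℤ T := Submodule.mul_mem_mul hx hy
  rw [Submodule.span_mul_span] at h1
  refine Submodule.span_mono ?_ h1
  rintro z ⟨x, hx, y, hy, rfl⟩
  exact h x hx y hy

theorem Le_mul_Le (a : List A → E) (ha : ∀ u v, a (u ++ v) = a u * a v)
    (p q : List A) {x y : E} (hx : x ∈ Le a p) (hy : y ∈ Le a q) :
    x * y ∈ Le a (p ++ q) := by
  refine mul_mem_span' ?_ hx hy
  rintro x ⟨v, h1, h2, rfl⟩ y ⟨w, h3, h4, rfl⟩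
  refine ⟨v ++ w, by simp [h1, h3], ?_, (ha v w).symm⟩
  rcases h2.lt_or_eq with h | h
  · exact (lt_append_of_lt_8601 v p h1 h w q).le
  · subst h
    rcases h4.lt_or_eq with h | h
    · exact (append_lt_append_left_8601 v w q h).le
    · subst h; exact le_refl _

theorem Lo_mul_Le (a : List A → E) (ha : ∀ u v, a (u ++ v) = a u * a v)
    (p q : List A) {x y : E} (hx : x ∈ Lo a p) (hy : y ∈ Le a q) :
    x * y ∈ Lo a (p ++ q) := by
  refine mul_mem_span' ?_ hx hy
  rintro x ⟨v, h1, h2, rfl⟩ y ⟨w, h3, h4, rfl⟩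
  exact ⟨v ++ w, by simp [h1, h3], lt_append_of_lt_8601 v p h1 h2 w q, (ha v w).symm⟩

theorem Le_mul_Lo (a : List A → E) (ha : ∀ u v, a (u ++ v) = a u * a v)
    (p q : List A) {x y : E} (hx : x ∈ Le a p) (hy : y ∈ Lo a q) :
    x * y ∈ Lo a (p ++ q) := by
  refine mul_mem_span' ?_ hx hy
  rintro x ⟨v, h1, h2, rfl⟩ y ⟨w, h3, h4, rfl⟩
  refine ⟨v ++ w, by simp [h1, h3], ?_, (ha v w).symm⟩
  rcases h2.lt_or_eq with h | h
  · exact lt_append_of_lt_8601 v p h1 h w q
  · subst h
    exact append_lt_append_left_8601 v w q h4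

end words

/-- **Kostrikin–Zelmanov**: sandwiches generate a nilpotent algebra. -/
theorem sandwich_ring {E : Type*} [Ring E] (T : Set E) (hT : ∀ a ∈ T, ∀ b ∈ T, a * b - b * a ∈ T)
    (h2 : ∀ a ∈ T, a * a = 0) (h3 : ∀ a ∈ T, ∀ b ∈ T, a * b * a = 0) (m : ℕ) (s : Fin m → E)
    (hs : ∀ i, s i ∈ T) : ∃ N : ℕ, ∀ w : List (Fin m), N ≤ w.length → (w.map s).prod = 0 := by
  set a : List (Fin m) → E := fun w => (w.map s).prod with ha_def
  have ha : ∀ u v, a (u ++ v) = a u * a v := by
    intro u v
    simp [ha_def]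
  have hsingle : ∀ c : Fin m, a [c] = s c := by
    intro c
    simp [ha_def]
  set P : List (Fin m) → Prop := fun w => a w ∉ Lo a w with hP
  have hfac : ∀ u v w : List (Fin m), P (u ++ v ++ w) → P v := by
    intro u v w h hv
    apply h
    rw [ha, ha]
    exact Lo_mul_Le a ha _ _ (Le_mul_Lo a ha _ _ (self_mem_Le a u) hv) (self_mem_Le a w)
  have hreg : ∀ u : List (Fin m), Reg u → ∃ x ∈ T, x - a u ∈ Lo a u := by
    intro u hu
    induction hu with
    | single c =>
      refine ⟨s c, hs c, ?_⟩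
      rw [hsingle, sub_self]
      exact Submodule.zero_mem _
    | node p q hp hq h ihp ihq =>
      obtain ⟨x, hx1, hx2⟩ := ihp
      obtain ⟨y, hy1, hy2⟩ := ihq
      refine ⟨x * y - y * x, hT x hx1 y hy1, ?_⟩
      rw [ha]
      have hxLe : x ∈ Le a p := by
        have := Submodule.add_mem _ (Lo_le_Le a p hx2) (self_mem_Le a p)
        simpa using this
      have hyLe : y ∈ Le a q := by
        have := Submodule.add_mem _ (Lo_le_Le a q hy2) (self_mem_Le a q)
        simpa using this
      have e : x * y - y * x - a p * a q = (x - a p) * y + a p * (y - a q) - y * x := by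
        noncomm_ring
      rw [e]
      refine Submodule.sub_mem _ (Submodule.add_mem _ ?_ ?_) ?_
      · exact Lo_mul_Le a ha _ _ hx2 hyLe
      · exact Le_mul_Lo a ha _ _ (self_mem_Le a p) hy2
      · exact Le_le_Lo a (q ++ p) (p ++ q) (by simp [add_comm]) h
          (Le_mul_Le a ha _ _ hyLe hxLe)
  have hshort : ¬ ∀ N : ℕ, ∃ w : List (Fin m), N ≤ w.length ∧ P w := by
    intro hlong
    obtain ⟨u, c, hu, hP3⟩ := word_lemma P hfac hlong
    obtain ⟨x, hx1, hx2⟩ := hreg u hu
    have hxLe : x ∈ Le a u := by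
      have := Submodule.add_mem _ (Lo_le_Le a u hx2) (self_mem_Le a u)
      simpa using this
    have hcLe : s c ∈ Le a [c] := by
      rw [← hsingle]
      exact self_mem_Le a [c]
    rcases hP3 with h | h | h
    · apply h
      rw [ha]
      have e : a u * a u = x * x - (x - a u) * x - a u * (x - a u) := by
        noncomm_ring
      rw [e, h2 x hx1, zero_sub]
      refine Submodule.sub_mem _ (Submodule.neg_mem _ ?_) ?_
      · exact Lo_mul_Le a ha _ _ hx2 hxLe
      · exact Le_mul_Lo a ha _ _ (self_mem_Le a u) hx2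
    · apply h
      rw [ha, ha, hsingle]
      have e : s c * a u * s c = s c * x * s c - s c * (x - a u) * s c := by
        noncomm_ring
      rw [e, h3 (s c) (hs c) x hx1, zero_sub]
      refine Submodule.neg_mem _ ?_
      exact Lo_mul_Le a ha _ _ (Le_mul_Lo a ha _ _ hcLe hx2) hcLe
    · apply h
      rw [ha, ha, hsingle]
      have e : a u * s c * a u = x * s c * x - (x - a u) * s c * x
          - a u * s c * (x - a u) := by
        noncomm_ring
      rw [e, h3 x hx1 (s c) (hs c), zero_sub]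
      refine Submodule.sub_mem _ (Submodule.neg_mem _ ?_) ?_
      · exact Lo_mul_Le a ha _ _ (Lo_mul_Le a ha _ _ hx2 hcLe) hxLe
      · exact Le_mul_Lo a ha _ _ (Le_mul_Le a ha _ _ (self_mem_Le a u) hcLe) hx2
  push Not at hshort
  obtain ⟨N, hN⟩ := hshort
  refine ⟨N, fun w hw => ?_⟩
  by_contra hne
  have hfin : {v : List (Fin m) | v.length = w.length ∧ a v ≠ 0}.Finite :=
    (List.finite_length_eq (Fin m) w.length).subset (fun v hv => hv.1)
  obtain ⟨v, hv, hmin⟩ := Set.exists_min_image _ id hfin ⟨w, rfl, hne⟩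
  apply hv.2
  have hv3 : a v ∈ Lo a v := by
    have := hN v (by rw [hv.1]; exact hw)
    simpa [hP] using this
  have hbot : Lo a v = ⊥ := by
    rw [Lo, Submodule.span_eq_bot]
    rintro z ⟨v', h1, h2, rfl⟩
    by_contra hz
    have := hmin v' ⟨h1.trans hv.1, hz⟩
    exact absurd h2 (not_lt.mpr this)
  rw [hbot] at hv3
  simpa using hv3

end Pool.Agent.H678.Inv
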