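import Pool.Agent.H678.Inv.J

/-!
# Five involutions: the criterion for the radical
-/

set_option autoImplicit false

namespace Pool.Agent.H678.Inv

open Pool.Agent.W5h59.Bu (LFn LF2 rad rad_lf rad_quot le_rad lf_of_comm)

universe u

variable {G : Type u} [Group G]

theorem Lrad5 {a b c d e x : G} (ia : a * a = 1) (ib : b * b = 1) (ic : c * c = 1)
    (id : d * d = 1) (ie : e * e = 1)
    (hF : Subgroup.closure ({a, b, c, d, e} : Set G) = ⊤) (ix : x * x = 1) (ka : k x a ∈ rad G)
    (kb : k x b ∈ rad G) (kc : k x c ∈ rad G) (kd : k x d ∈ rad G) (ke : k x e ∈ rad G) :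
    x ∈ rad G := by
  refine Lrad hF ?_ ix ?_
  · rintro s (rfl | rfl | rfl | rfl | rfl) <;> assumption
  · rintro s (rfl | rfl | rfl | rfl | rfl) <;> assumption

end Pool.Agent.H678.Inv
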