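import Pool.Agent.H678.Inv.S
import Pool.Graph.R_pool_sql_team_seeded_9f66d723.W5h59.Bu.Rad

/-!
# Sandwich systems of involutions generate locally finite `2`-groups

The argument is that of `Pool/Agent/H325/N.lean` (helper325), there for elements of order three.
-/

set_option autoImplicit false

open scoped commutatorElement

namespace Pool.Agent.H678.Inv

open Pool.Agent.W5h59.Bu (LFn LF2 rad rad_lf rad_quot le_rad lf_of_comm)

universe u

/-- nilpotent groups generated by involutions -/
theorem lf2_nilp (n : ℕ) : ∀ (G : Type u) [Group G] (F : Set G), Subgroup.closure F = ⊤ →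
    (∀ s ∈ F, s ^ 2 = 1) → (⊤ : Subgroup G).lowerCentralSeries n = ⊥ → LF2 G := by
  induction n with
  | zero =>
    intro G _ F hF h3 hn
    have h1 : (⊤ : Subgroup G) = ⊥ := hn
    have h2 : ∀ x : G, x = 1 := fun x => Subgroup.mem_bot.1 (h1 ▸ Subgroup.mem_top x)
    refine lf_of_comm (fun x y => by rw [h2 x, h2 y]) (fun x => by rw [h2 x, one_mul])
  | succ n ih =>
    intro G _ F hF h3 hn
    have hcen : ∀ z ∈ (⊤ : Subgroup G).lowerCentralSeries n, ∀ g : G, Commute z g := by
      intro z hz g
      rw [Subgroup.lowerCentralSeries_succ, Subgroup.commutator_eq_bot_iff_le_centralizer] at hn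
      have := hn hz
      rw [Subgroup.mem_centralizer_iff] at this
      exact (this g (Subgroup.mem_top g)).symm
    have hcube : ∀ z ∈ (⊤ : Subgroup G).lowerCentralSeries n, z ^ 2 = 1 := by
      have hgen : ∀ (P : G → Prop), (∀ s ∈ F, P s) → P 1 → (∀ a b, P a → P b → P (a * b)) →
          (∀ a, P a → P a⁻¹) → ∀ g, P g := by
        intro P p1 p2 p3 p4 g
        have hg : g ∈ Subgroup.closure F := hF ▸ Subgroup.mem_top g
        induction hg using Subgroup.closure_induction with
        | mem x hx => exact p1 x hx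
        | one => exact p2
        | mul x y _ _ h1 h2 => exact p3 x y h1 h2
        | inv x _ h1 => exact p4 x h1
      cases n with
      | zero =>
        have hc : ∀ x y : G, Commute x y := fun x y => hcen x (Subgroup.mem_top x) y
        intro z _
        refine hgen (fun z => z ^ 2 = 1) h3 (one_pow 2) ?_ ?_ z
        · intro a b ha hb
          show (a * b) ^ 2 = 1
          rw [(hc a b).mul_pow, ha, hb, one_mul]
        · intro a ha
          show a⁻¹ ^ 2 = 1
          rw [inv_pow, ha, inv_one]
      | succ n =>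
        intro z hz
        have hz' := hz
        rw [Subgroup.mem_lowerCentralSeries_succ_iff] at hz
        induction hz using Subgroup.closure_induction with
        | mem z hz =>
          obtain ⟨a, ha, b, -, rfl⟩ := hz
          have hab : ∀ b g : G, Commute ⁅a, b⁆ g := fun b g =>
            hcen _ (Subgroup.commutator_mem_commutator ha (Subgroup.mem_top b)) g
          have hm : ∀ b c : G, ⁅a, b * c⁆ = ⁅a, b⁆ * ⁅a, c⁆ := by
            intro b c
            have e : ⁅a, b * c⁆ = ⁅a, b⁆ * (b * ⁅a, c⁆ * b⁻¹) := by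
              simp only [commutatorElement_def]; group
            rw [e, ← (hab c b).eq, mul_inv_cancel_right]
          refine hgen (fun b => ⁅a, b⁆ ^ 2 = 1) ?_ ?_ ?_ ?_ b
          · intro s hs
            have e : ⁅a, s⁆ ^ 2 = ⁅a, s ^ 2⁆ := by
              rw [pow_two, ← hm, pow_two]
            show ⁅a, s⁆ ^ 2 = 1
            rw [e, h3 s hs, commutatorElement_def]; group
          · show ⁅a, (1 : G)⁆ ^ 2 = 1
            rw [commutatorElement_def]; group
          · intro b c hb hc
            show ⁅a, b * c⁆ ^ 2 = 1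
            rw [hm, (hab b _).mul_pow, hb, hc, one_mul]
          · intro b hb
            have e : ⁅a, b⁻¹⁆ * ⁅a, b⁆ = 1 := by
              rw [← hm, commutatorElement_def]; group
            show ⁅a, b⁻¹⁆ ^ 2 = 1
            rw [eq_inv_of_mul_eq_one_left e, inv_pow, hb, inv_one]
        | one => exact one_pow 2
        | mul x y hx hy h1 h2 =>
          have hx' : x ∈ (⊤ : Subgroup G).lowerCentralSeries (n + 1) := hx
          have hy' : y ∈ (⊤ : Subgroup G).lowerCentralSeries (n + 1) := hy
          rw [(hcen x hx' y).mul_pow, h1 hx', h2 hy', one_mul]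
        | inv x hx h1 =>
          have hx' : x ∈ (⊤ : Subgroup G).lowerCentralSeries (n + 1) := hx
          rw [inv_pow, h1 hx', inv_one]
    refine LF2.ext ((⊤ : Subgroup G).lowerCentralSeries n) ?_ ?_
    · refine lf_of_comm ?_ ?_
      · intro x y
        exact Subtype.ext (hcen x.1 x.2 y.1).eq
      · intro x
        have := hcube x.1 x.2
        rw [sq] at this
        exact Subtype.ext this
    · have hs := QuotientGroup.mk'_surjective ((⊤ : Subgroup G).lowerCentralSeries n)
      refine ih _ (QuotientGroup.mk' ((⊤ : Subgroup G).lowerCentralSeries n) '' F) ?_ ?_ ?_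
      · rw [← MonoidHom.map_closure, hF, Subgroup.map_top_of_surjective _ hs]
      · rintro _ ⟨s, hs, rfl⟩
        rw [← map_pow, h3 s hs, map_one]
      · have h1 := Subgroup.map_lowerCentralSeries
          (f := QuotientGroup.mk' ((⊤ : Subgroup G).lowerCentralSeries n)) ⊤ n
        rw [Subgroup.map_top_of_surjective _ hs] at h1
        rw [← h1, Subgroup.map_eq_bot_iff, QuotientGroup.ker_mk']

section

variable {G : Type u} [Group G] {X : Set G}

theorem lf2_nilp' {M : Subgroup G} {n : ℕ} {F : Set G} (hM : M = Subgroup.closure F)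
    (h3 : ∀ s ∈ F, s ^ 2 = 1) (hn : M.lowerCentralSeries n = ⊥) : LF2 M := by
  subst hM
  have h1 : (⊤ : Subgroup (Subgroup.closure F)).lowerCentralSeries n = ⊥ := by
    rw [← Subgroup.top_subtype_lowerCentralSeries] at hn
    have h2 := (Subgroup.map_eq_bot_iff _).1 hn
    rw [Subgroup.ker_subtype] at h2
    exact le_bot_iff.1 h2
  have h2 : Subgroup.closure ((Subtype.val : Subgroup.closure F → G) ⁻¹' F) = ⊤ :=
    Subgroup.closure_closure_coe_preimage
  have h4 : ∀ s ∈ ((Subtype.val : Subgroup.closure F → G) ⁻¹' F), s ^ 2 = 1 := by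
    intro s hs
    apply Subtype.ext
    exact h3 s.1 hs
  exact lf2_nilp n (Subgroup.closure F) _ h2 h4 h1

theorem nilp' (hX : Sa X) {F : Set G} (hF : F.Finite) (hFX : F ⊆ X) :
    ∃ n, (Subgroup.closure F).lowerCentralSeries n = ⊥ := by
  obtain ⟨m, x, -, hx⟩ := hF.fin_param
  have hxX : ∀ i, x i ∈ X := fun i => hFX (hx ▸ Set.mem_range_self i)
  obtain ⟨n, hn⟩ := nilp hX (fun i => (⟨x i, hxX i⟩ : X))
  have e : (Set.range fun i => ((⟨x i, hxX i⟩ : X) : G)) = F := hx
  rw [e] at hn
  exact ⟨n, hn⟩

/-- finite subsets of a sandwich system generate finite `2`-groups -/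
theorem fin_lf (hX : Sa X) {F : Set G} (hF : F.Finite) (hFX : F ⊆ X) :
    LF2 (Subgroup.closure F) := by
  obtain ⟨n, hn⟩ := nilp' hX hF hFX
  exact lf2_nilp' rfl (fun s hs => by rw [sq]; exact hX.inv (hFX hs)) hn

theorem exists_fin {g : G} (hg : g ∈ Subgroup.closure X) :
    ∃ F : Set G, F.Finite ∧ F ⊆ X ∧ g ∈ Subgroup.closure F := by
  induction hg using Subgroup.closure_induction with
  | mem x hx =>
    exact ⟨{x}, Set.finite_singleton x, Set.singleton_subset_iff.2 hx,
      Subgroup.subset_closure rfl⟩
  | one => exact ⟨∅, Set.finite_empty, Set.empty_subset _, one_mem _⟩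
  | mul a b _ _ ha hb =>
    obtain ⟨F, h1, h2, h3⟩ := ha
    obtain ⟨F', h4, h5, h6⟩ := hb
    exact ⟨F ∪ F', h1.union h4, Set.union_subset h2 h5,
      mul_mem (Subgroup.closure_mono Set.subset_union_left h3)
        (Subgroup.closure_mono Set.subset_union_right h6)⟩
  | inv a _ ha =>
    obtain ⟨F, h1, h2, h3⟩ := ha
    exact ⟨F, h1, h2, inv_mem h3⟩

theorem exists_fin_set {S : Set G} (hS : S.Finite) (h : S ⊆ Subgroup.closure X) :
    ∃ F : Set G, F.Finite ∧ F ⊆ X ∧ S ⊆ Subgroup.closure F := by
  induction S, hS using Set.Finite.induction_on with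
  | empty => exact ⟨∅, Set.finite_empty, Set.empty_subset _, Set.empty_subset _⟩
  | @insert a S ha hS ih =>
    obtain ⟨F, h1, h2, h3⟩ := ih ((Set.subset_insert _ _).trans h)
    obtain ⟨F', h4, h5, h6⟩ := exists_fin (h (Set.mem_insert _ _))
    refine ⟨F ∪ F', h1.union h4, Set.union_subset h2 h5, ?_⟩
    rintro x (rfl | hx)
    · exact Subgroup.closure_mono Set.subset_union_right h6
    · exact Subgroup.closure_mono Set.subset_union_left (h3 hx)

/-- **Jabara–Traustason, involutions**: a sandwich system generates a locally finite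
`2`-group -/
theorem sys_lf (hX : Sa X) : LF2 (Subgroup.closure X) := by
  constructor
  · intro S hS
    have h1 : Subtype.val '' S ⊆ (Subgroup.closure X : Set G) := by
      rintro _ ⟨y, -, rfl⟩
      exact y.2
    obtain ⟨F, f1, f2, f3⟩ := exists_fin_set (hS.image _) h1
    have h3 : Finite (Subgroup.closure (Subtype.val '' S)) := (fin_lf hX f1 f2).1.fin (hS.image _) f3
    have h5 : Subgroup.closure (Subtype.val '' S) =
        (Subgroup.closure S).map (Subgroup.closure X).subtype := by
      rw [MonoidHom.map_closure]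
      rfl
    rw [h5] at h3
    have h4 : ((Subgroup.closure X).subtype '' (Subgroup.closure S : Set _)).Finite := by
      rw [← Subgroup.coe_map]
      exact Set.toFinite _
    exact (Set.Finite.of_finite_image h4 Subtype.val_injective.injOn).to_subtype
  · rintro ⟨g, hg⟩
    obtain ⟨F, f1, f2, f3⟩ := exists_fin hg
    obtain ⟨m, hm⟩ := (fin_lf hX f1 f2).2 ⟨g, f3⟩
    refine ⟨m, ?_⟩
    apply Subtype.ext
    have := congrArg Subtype.val hm
    simpa using this

/-- a sandwich system lies in the radical -/
theorem sys_rad (hX : Sa X) : X ⊆ rad G := by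
  have hn : (Subgroup.closure X).Normal := by
    constructor
    intro n hn g
    induction hn using Subgroup.closure_induction with
    | mem x hx =>
      apply Subgroup.subset_closure
      have := hX.cj hx g⁻¹
      simpa [cj] using this
    | one => rw [mul_one, mul_inv_cancel]; exact one_mem _
    | mul x y _ _ h1 h2 =>
      rw [show g * (x * y) * g⁻¹ = (g * x * g⁻¹) * (g * y * g⁻¹) by group]
      exact mul_mem h1 h2
    | inv x _ h1 =>
      rw [show g * x⁻¹ * g⁻¹ = (g * x * g⁻¹)⁻¹ by group]
      exact inv_mem h1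
  exact Subgroup.subset_closure.trans (le_rad hn (sys_lf hX))

end

end Pool.Agent.H678.Inv
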