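import Pool.Agent.H678.Inv.X

/-!
# The commutators with a fixed involution
-/

set_option autoImplicit false

namespace Pool.Agent.H678.Inv

open Pool.Agent.W5h59.Bu (LFn LF2 rad rad_lf rad_quot le_rad lf_of_comm)

universe u

variable {G : Type u} [Group G]

section fixed

variable {D : Set G} (hD : Sy D) {a : G} (ha : a ∈ D)

/-- the commutators with `a`, and their products with `a` -/
def Xa (D : Set G) (a : G) : Set G := {y | ∃ c x, (c = 1 ∨ c = a) ∧ x ∈ D ∧ y = c * k a x}

include hD ha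

theorem Xa.c2 {c : G} (h : c = 1 ∨ c = a) : c * c = 1 := by
  rcases h with rfl | rfl
  · exact one_mul 1
  · exact hD.inv ha

omit hD ha in
theorem Xa.cc' {c c' : G} (h : c = 1 ∨ c = a) (h' : c' = 1 ∨ c' = a) : Commute c c' := by
  rcases h with rfl | rfl
  · exact Commute.one_left _
  · rcases h' with rfl | rfl
    · exact Commute.one_right _
    · exact Commute.refl _

theorem Xa.ck {c x : G} (h : c = 1 ∨ c = a) (hx : x ∈ D) : Commute c (k a x) := by
  rcases h with rfl | rfl
  · exact Commute.one_left _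
  · exact (hD.kl ha hx).symm

/-- **the conjugates `a ^ x`, `x ∈ D ∪ {1}`, generate a locally finite `2`-group** -/
theorem Xa.lf : LF2 (Subgroup.closure (Xa D a)) := by
  have inv : ∀ y ∈ Xa D a, y * y = 1 := by
    rintro _ ⟨c, x, h, hx, rfl⟩
    have h1 := Xa.c2 hD ha h
    have h2 := hD.inv (hD.kc ha hx)
    have h3 := Xa.ck hD ha h hx
    rw [show c * k a x * (c * k a x) = c * (k a x * c) * k a x by simp only [mul_assoc], ← h3.eq]
    simp only [mul_assoc, cc h1, h2]
  -- conjugation by the central factors is trivial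
  have cjc : ∀ {c c' x y : G}, (c = 1 ∨ c = a) → (c' = 1 ∨ c' = a) → x ∈ D → y ∈ D →
      Inv.cj (c * k a x) (c' * k a y) = c * Inv.cj (k a x) (k a y) := by
    intro c c' x y h h' hx hy
    have e1 : Inv.cj (c * k a x) c' = c * k a x :=
      cj_of_comm ((Xa.cc' h h').mul_left (Xa.ck hD ha h' hx).symm)
    rw [← cj_cj, e1, cj_mul, cj_of_comm (Xa.ck hD ha h hy)]
  have cjk : ∀ {x y : G}, x ∈ D → y ∈ D → Inv.cj (k a x) (k a y) = k a (Inv.cj x (k a y)) := by
    intro x y hx hy
    rw [cj_k, cj_of_comm (hD.kl ha hy).symm]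
  apply lf_own inv
  · rintro _ ⟨c, x, h, hx, rfl⟩ _ ⟨c', y, h', hy, rfl⟩
    exact ⟨c, Inv.cj x (k a y), h, hD.cj hx _, by rw [cjc h h' hx hy, cjk hx hy]⟩
  · rintro _ ⟨c, x, h, hx, rfl⟩ _ ⟨c', y, h', hy, rfl⟩ _ ⟨c'', z, h'', hz, rfl⟩
    have hp := hD.kc ha hx
    have hq := hD.kc ha hy
    have hr := hD.kc ha hz
    rw [cjc h h' hx hy, cjc h h'' hx hz]
    have e1 : Commute (Inv.cj (k a x) (k a y)) (Inv.cj (k a x) (k a z)) := by
      rw [hD.cje hp hq, hD.cje hp hr]
      exact ((Commute.refl _).mul_right (hD.kl hp hr).symm).mul_left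
        ((hD.kl hp hq).mul_right (hD.lem1 ha hx hz hy))
    have e2 : Commute c (Inv.cj (k a x) (k a z)) := by
      rw [cjk hx hz]
      exact Xa.ck hD ha h (hD.cj hx _)
    have e3 : Commute (Inv.cj (k a x) (k a y)) c := by
      rw [cjk hx hy]
      exact (Xa.ck hD ha h (hD.cj hx _)).symm
    exact ((Commute.refl c).mul_right e2).mul_left (e3.mul_right e1)

end fixed

end Pool.Agent.H678.Inv
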